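import Pool.Agent.ZFW.BIdeal

/-!
The measurable cardinal: the filter of the sets which contain almost all of an atom of the ideal
`RG`, and the least ordinal for which choice fails.
-/

universe u

set_option linter.unusedSectionVars false

namespace Pool.Agent.ZFW

open Pool.Agent.SigB Pool.Agent.GL

variable {M : Type u} [Membership M M] [GL.IsZF M]

/-! ### The least ordinal for which choice fails -/

theorem isOrdinal_of_ord {k : M} (hk : Ord k) : IsOrdinal k := hk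

theorem ord_of_isOrdinal {k : M} (hk : IsOrdinal k) : Ord k := hk

/-- The least ordinal for which choice fails. -/
theorem exists_least_fail {κ : M} (hκ : Ord κ) (h : ¬ Acf κ) :
    ∃ k, Ord k ∧ (k ∈ κ ∨ k = κ) ∧ ¬ Acf k ∧ ∀ l, l ∈ k → Acf l := by
  obtain ⟨k, hk, hk', hmin⟩ := Ord.exists_least (P := fun k : M => ¬ Acf k)
    (by simp (maxDischargeDepth := 50)) hκ h
  refine ⟨k, hk, ?_, hk', fun l hl => by_contra fun hc => hmin l hl hc⟩
  rcases Ord.tri hk hκ with h2 | h2 | h2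
  · exact Or.inl h2
  · exact Or.inr h2
  · exact (hmin κ h2 h).elim

/-- A family without a choice function. -/
theorem exists_family {k : M} (h : ¬ Acf k) : ∃ s, Fn s k ∧ (∀ a, a ∈ k → ∃ x, x ∈ ap s a) ∧
    ¬ ∃ c, Fn c k ∧ ∀ a, a ∈ k → ap c a ∈ ap s a := by
  unfold Acf at h
  push Not at h
  obtain ⟨s, hs, hne, h1⟩ := h
  exact ⟨s, hs, hne, fun ⟨c, hc, hc'⟩ => by
    obtain ⟨a, ha, h2⟩ := h1 c hc
    exact h2 (hc' a ha)⟩

/-- Choice for `y` gives choice for all sets which inject into `y`. -/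
theorem Acf.of_inj {k y f : M} (hy : Acf y) (hf : ∀ a, a ∈ k → ap f a ∈ y)
    (hinj : ∀ a b, a ∈ k → b ∈ k → ap f a = ap f b → a = b) : Acf k := by
  intro s hs hne
  -- the family on `y`: the union of the `s a` for the (at most one) `a` with `f a = b`
  have hd : DT (fun w : Fin 1 → M => un (sU (im (sp k fun a => ap f a = w 0) fun a => ap s a))
      (sp (pr GL.em GL.em) fun _ => ∀ a, a ∈ k → ap f a ≠ w 0)) := by
    simp (maxDischargeDepth := 50)
  have hds : DT (fun w : Fin 1 → M => ap s (w 0)) := by simp (maxDischargeDepth := 50)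
  have hmem : ∀ a, a ∈ k → ∀ x, x ∈ ap (lam y fun b =>
      un (sU (im (sp k fun a => ap f a = b) fun a => ap s a))
      (sp (pr GL.em GL.em) fun _ => ∀ a, a ∈ k → ap f a ≠ b)) (ap f a) → x ∈ ap s a := by
    intro a ha x hx
    rw [ap_lam hd (hf a ha)] at hx
    rcases mem_un.1 hx with h | h
    · obtain ⟨z, hz, hxz⟩ := mem_sU.1 h
      obtain ⟨a', ha', rfl⟩ := (mem_im hds).1 hz
      obtain ⟨h1, h2⟩ := (mem_sp (P := fun c => ap f c = ap f a)
        (by simp (maxDischargeDepth := 50))).1 ha'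
      rw [← hinj a' a h1 ha h2]
      exact hxz
    · have h1 := ((mem_sp (P := fun _ => ∀ c, c ∈ k → ap f c ≠ ap f a)
        (by simp (maxDischargeDepth := 50))).1 h).2
      exact (h1 a ha rfl).elim
  obtain ⟨c, hc, hc'⟩ := hy (lam y fun b =>
      un (sU (im (sp k fun a => ap f a = b) fun a => ap s a))
      (sp (pr GL.em GL.em) fun _ => ∀ a, a ∈ k → ap f a ≠ b)) (fn_lam hd) fun b hb => by
    rw [ap_lam hd hb]
    by_cases hb' : ∃ a, a ∈ k ∧ ap f a = b
    · obtain ⟨a, ha, hab⟩ := hb'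
      obtain ⟨x, hx⟩ := hne a ha
      refine ⟨x, mem_un.2 (Or.inl (mem_sU.2 ⟨ap s a, (mem_im hds).2 ⟨a, ?_, rfl⟩, hx⟩))⟩
      exact (mem_sp (P := fun c => ap f c = b) (by simp (maxDischargeDepth := 50))).2 ⟨ha, hab⟩
    · refine ⟨GL.em, mem_un.2 (Or.inr ((mem_sp (P := fun _ => ∀ c, c ∈ k → ap f c ≠ b)
        (by simp (maxDischargeDepth := 50))).2 ⟨by simp, fun a ha hab => hb' ⟨a, ha, hab⟩⟩))⟩
  have hd2 : DT (fun w : Fin 1 → M => ap c (ap f (w 0))) := by simp (maxDischargeDepth := 50)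
  refine ⟨lam k fun a => ap c (ap f a), fn_lam hd2, fun a ha => ?_⟩
  rw [ap_lam hd2 ha]
  exact hmem a ha _ (hc' _ (hf a ha))

/-- The least failure of choice is a cardinal. -/
theorem isCardinal_of_least {k : M} (hk : Ord k) (h : ¬ Acf k) (hl : ∀ l, l ∈ k → Acf l) :
    IsCardinal k := by
  refine ⟨hk, fun y f hy hf => h ?_⟩
  obtain ⟨h1, h2⟩ := isInjection_iff.1 hf
  exact (hl y hy).of_inj (fun a ha => (mem_fs.1 h1).2 a ha) h2

/-! ### The ultrafilter of an atom -/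

/-- The filter of the subsets of `k` which contain almost all of `A`. -/
noncomputable def BU (k s A : M) : M := sp (pw k) fun X => RG k s (df A X)

theorem mem_BU {k s A X : M} : X ∈ BU k s A ↔ Sb X k ∧ RG k s (df A X) := by
  unfold BU
  rw [mem_sp (P := fun X => RG k s (df A X)) (by simp (maxDischargeDepth := 50)), mem_pw]

/-- An atom of the ideal gives a `k`-complete nonprincipal ultrafilter on `k`. -/
theorem isMeasure_of_atom {k s A : M} (hk : Ord k) (hlim : ∀ a, a ∈ k → sc a ∈ k)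
    (hne : ∀ a, a ∈ k → ∃ x, x ∈ ap s a) (hac : ∀ l, l ∈ k → Acf l) (hA : Sb A k)
    (hAn : ¬ RG k s A) (hat : ∀ B, Sb B A → RG k s B ∨ RG k s (df A B)) :
    IsMeasure (BU k s A) k where
  sub := fun X hX => (mem_BU.1 hX).1
  univ := mem_BU.2 ⟨Sb.refl _, RG.empty fun b hb => by
    rw [mem_df] at hb
    exact hb.2 (hA b hb.1)⟩
  empty := fun X hX hX' => hAn ((mem_BU.1 hX').2.mono' hk fun b hb _ =>
    mem_df.2 ⟨hb, hX b⟩)
  mono := fun X Y hX hXY hY => mem_BU.2 ⟨hY, (mem_BU.1 hX).2.mono' hk fun b hb _ => by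
    rw [mem_df] at hb ⊢
    exact ⟨hb.1, fun h => hb.2 (hXY b h)⟩⟩
  inter := fun X Y Z hX hY hZ => mem_BU.2 ⟨fun z hz => (mem_BU.1 hX).1 z ((hZ z).1 hz).1,
    RG.union₂ hk (mem_BU.1 hX).2 (mem_BU.1 hY).2 fun b hb _ => by
      rw [mem_df] at hb
      by_cases h : b ∈ X
      · exact Or.inr (mem_df.2 ⟨hb.1, fun h' => hb.2 ((hZ b).2 ⟨h, h'⟩)⟩)
      · exact Or.inl (mem_df.2 ⟨hb.1, h⟩)⟩
  ultra := fun X Y hX hY => by
    rcases hat (it A X) (fun z hz => (mem_it.1 hz).1) with h | h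
    · refine Or.inr (mem_BU.2 ⟨fun z hz => ((hY z).1 hz).1, h.mono' hk fun b hb hbk => ?_⟩)
      rw [mem_df] at hb
      rw [mem_it]
      refine ⟨hb.1, ?_⟩
      by_contra hc
      exact hb.2 ((hY b).2 ⟨hbk, hc⟩)
    · refine Or.inl (mem_BU.2 ⟨hX, h.mono' hk fun b hb _ => ?_⟩)
      rw [mem_df] at hb ⊢
      exact ⟨hb.1, fun h' => hb.2 (mem_it.1 h').2⟩
  nonprincipal := fun x X hX hX' => by
    rw [isPair_iff] at hX
    subst hX
    obtain ⟨h1, h2⟩ := mem_BU.1 hX'
    have hxk : x ∈ k := h1 x (by simp)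
    refine hAn (RG.union₂ hk h2 (RG.single hk (hlim x hxk) (hne x hxk)) fun b hb _ => ?_)
    by_cases h : b ∈ pr x x
    · exact Or.inr h
    · exact Or.inl (mem_df.2 ⟨hb, h⟩)
  complete := fun α g Z hα hg hZ => by
    have hg' := mem_fs.1 (isMap_iff.1 hg)
    have hd : DT (fun w : Fin 1 → M => df A (ap g (w 0))) := by simp (maxDischargeDepth := 50)
    refine mem_BU.2 ⟨fun z hz => ((hZ z).1 hz).1,
      RG.union' (F := lam α fun i => df A (ap g i)) hk (hk.mem hα) (hac α hα) (fun i hi => ?_)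
        fun b hb hbk => ?_⟩
    · rw [ap_lam hd hi]
      exact (mem_BU.1 (hg'.2 i hi)).2
    · rw [mem_df] at hb
      by_contra hc
      push Not at hc
      refine hb.2 ((hZ b).2 ⟨hbk, fun i X hX => ?_⟩)
      obtain ⟨hi, rfl⟩ := (val_map hg).1 hX
      by_contra h
      refine hc i hi ?_
      rw [ap_lam hd hi]
      exact mem_df.2 ⟨hb.1, h⟩

/-- An atom of the ideal of the least failure `k` of choice makes `k` measurable. -/
theorem isMeasurable_of_atom {k s A : M} (hk : Ord k) (h : ¬ Acf k) (hac : ∀ l, l ∈ k → Acf l)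
    (hom : (GL.om : M) ∈ k) (hne : ∀ a, a ∈ k → ∃ x, x ∈ ap s a) (hA : Sb A k)
    (hAn : ¬ RG k s A) (hat : ∀ B, Sb B A → RG k s B ∨ RG k s (df A B)) : IsMeasurable k :=
  ⟨isCardinal_of_least hk h hac, ⟨GL.om, isOmega_iff.2 rfl, hom⟩, BU k s A,
    isMeasure_of_atom hk (limit_of_least hk h hac) hne hac hA hAn hat⟩

end Pool.Agent.ZFW
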