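import Pool.Agent.ZFW.CCmp
import Pool.Agent.ZFW.BMeas

/-!
# MP_831107_lc : `WF^s_i4` implies choice for all well-ordered families

Let `k` be the least ordinal such that choice fails for a family `s` indexed by `k`. Two sets `T`,
`T'` are built from the partial choice functions of `s` and from ordinals. They are images of each
other, so they are comparable, and in both cases there is a choice function of `s`.
-/

universe u

set_option linter.unusedSectionVars false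

namespace Pool.Agent.ZFW

open Pool.Agent.SigB Pool.Agent.GL

variable {M : Type u} [Membership M M] [GL.IsZF M]

/-- There are ordinals `f(a)`, `a ∈ k`, such that `f(a)` does not inject into `P × (f(b) × ω)`,
even for all `b ∈ a` together. -/
theorem exists_lamk {k : M} (P : M) (hk : Ord k) : ∃ f, Fn f k ∧
    ∀ a, a ∈ k → ap f a = hart (pd P (pd (sU (im a (ap f))) om)) := by
  obtain ⟨f, hf, hfr⟩ := ord_recursion hk (G := fun x g => hart (pd P (pd (sU (im x (ap g))) om)))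
    (by simp (maxDischargeDepth := 50))
  refine ⟨f, hf, fun x hx => ?_⟩
  rw [hfr x hx]
  have h1 : im x (ap (rs f x)) = im x (ap f) := by
    refine ext' fun z => ?_
    rw [mem_im (by simp (maxDischargeDepth := 50)), mem_im (by simp (maxDischargeDepth := 50))]
    refine exists_congr fun y => and_congr_right fun hy => ?_
    rw [ap_rs hf (hk.sb hx) hy]
  rw [h1]

/-- The data: the ordinals, and a bound for all of them. -/
structure Lam (k P f : M) : Prop where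
  ord : ∀ a, a ∈ k → Ord (ap f a)
  mono : ∀ a b, a ∈ k → b ∈ a → Sb (ap f b) (ap f a)
  not_le : ∀ a b, a ∈ k → b ∈ a → ¬ Le (ap f a) (pd P (pd (ap f b) om))

theorem exists_Lam {k P : M} (hk : Ord k) (hP : ∃ u, u ∈ P) : ∃ f, Lam k P f := by
  obtain ⟨f, hf, hfr⟩ := exists_lamk P hk
  obtain ⟨u0, hu0⟩ := hP
  have hfd : DT (fun w : Fin 1 → M => ap f (w 0)) := by simp (maxDischargeDepth := 50)
  have hO : ∀ a, a ∈ k → Ord (ap f a) := fun a ha => by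
    rw [hfr a ha]
    exact (hart_spec _).1
  have hN : ∀ a, a ∈ k → ¬ Le (ap f a) (pd P (pd (sU (im a (ap f))) om)) := fun a ha => by
    nth_rewrite 1 [hfr a ha]
    exact (hart_spec _).2
  have hT : ∀ a b, b ∈ a → Sb (ap f b) (sU (im a (ap f))) := fun a b hb z hz =>
    mem_sU.2 ⟨_, (mem_im hfd).2 ⟨b, hb, rfl⟩, hz⟩
  have hnle : ∀ a b, a ∈ k → b ∈ a → ¬ Le (ap f a) (pd P (pd (ap f b) om)) := fun a b ha hb h =>
    hN a ha (h.trans (le_pd (Le.refl P) (le_pd (Le.of_sb (hT a b hb)) (Le.refl om))))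
  refine ⟨f, hO, fun a b ha hb => ?_, hnle⟩
  rcases (hO a ha).sb_total (hO b (hk.trans hb ha)) with h1 | h1
  · exfalso
    refine hnle a b ha hb (Le.of_dt (F := fun ξ => op u0 (op ξ GL.em))
      (by simp (maxDischargeDepth := 50)) (fun ξ hξ => op_mem_pd.2 ⟨hu0, op_mem_pd.2
        ⟨h1 ξ hξ, em_mem_om⟩⟩) fun ξ _ η _ h2 => ?_)
    exact (op_inj.1 (op_inj.1 h2).2).1
  · exact h1

/-- `Y0`: the triples `(u, (ξ, n))` with `ξ ∈ f(lev u)`. -/
noncomputable def YA (k s f : M) : M :=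
  sp (pd (PP k s) (pd (sU (im k (ap f))) om)) fun z => p1 (p2 z) ∈ ap f (p1 (p1 z))

/-- `Y1`: the triples `(u, (ξ, n))` with `ξ ∈ f(lev u + 1)`. -/
noncomputable def YB (k s f : M) : M :=
  sp (pd (PP k s) (pd (sU (im k (ap f))) om)) fun z => p1 (p2 z) ∈ ap f (sc (p1 (p1 z)))

theorem mem_sUf {k f ξ : M} : ξ ∈ sU (im k (ap f)) ↔ ∃ a, a ∈ k ∧ ξ ∈ ap f a := by
  have hfd : DT (fun w : Fin 1 → M => ap f (w 0)) := by simp (maxDischargeDepth := 50)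
  rw [mem_sU]
  constructor
  · rintro ⟨y, hy, h⟩
    obtain ⟨a, ha, rfl⟩ := (mem_im hfd).1 hy
    exact ⟨a, ha, h⟩
  · rintro ⟨a, ha, h⟩
    exact ⟨_, (mem_im hfd).2 ⟨a, ha, rfl⟩, h⟩

theorem mem_YA {k s f z : M} (hk : Ord k) : z ∈ YA k s f ↔ ∃ u ξ n, z = op u (op ξ n) ∧
    u ∈ PP k s ∧ n ∈ (om : M) ∧ ξ ∈ ap f (p1 u) := by
  unfold YA
  rw [mem_sp (by simp (maxDischargeDepth := 50))]
  constructor
  · rintro ⟨h1, h2⟩
    obtain ⟨u, hu, w, hw, rfl⟩ := mem_pd.1 h1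
    obtain ⟨ξ, hξ, n, hn, rfl⟩ := mem_pd.1 hw
    rw [p1_op, p2_op, p1_op] at h2
    exact ⟨u, ξ, n, rfl, hu, hn, h2⟩
  · rintro ⟨u, ξ, n, rfl, hu, hn, hξ⟩
    rw [p1_op, p2_op, p1_op]
    exact ⟨op_mem_pd.2 ⟨hu, op_mem_pd.2 ⟨mem_sUf.2 ⟨_, PP.p1_mem hk hu, hξ⟩, hn⟩⟩, hξ⟩

theorem mem_YB {k s f z : M} (hk : Ord k) (hlim : ∀ a, a ∈ k → sc a ∈ k) :
    z ∈ YB k s f ↔ ∃ u ξ n, z = op u (op ξ n) ∧
      u ∈ PP k s ∧ n ∈ (om : M) ∧ ξ ∈ ap f (sc (p1 u)) := by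
  unfold YB
  rw [mem_sp (by simp (maxDischargeDepth := 50))]
  constructor
  · rintro ⟨h1, h2⟩
    obtain ⟨u, hu, w, hw, rfl⟩ := mem_pd.1 h1
    obtain ⟨ξ, hξ, n, hn, rfl⟩ := mem_pd.1 hw
    rw [p1_op, p2_op, p1_op] at h2
    exact ⟨u, ξ, n, rfl, hu, hn, h2⟩
  · rintro ⟨u, ξ, n, rfl, hu, hn, hξ⟩
    rw [p1_op, p2_op, p1_op]
    exact ⟨op_mem_pd.2 ⟨hu, op_mem_pd.2 ⟨mem_sUf.2 ⟨_, hlim _ (PP.p1_mem hk hu), hξ⟩, hn⟩⟩, hξ⟩

/-- All levels are nonempty. -/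
theorem exists_level_PP {k s a : M} (hk : Ord k) (hs : Fn s k) (ha : a ∈ k) (hac : Acf a)
    (hne : ∀ a, a ∈ k → ∃ x, x ∈ ap s a) : ∃ u, u ∈ PP k s ∧ p1 u = a := by
  obtain ⟨c, hc, hc'⟩ := hac (rs s a) (fn_rs hs (hk.sb ha)) fun b hb => by
    rw [ap_rs hs (hk.sb ha) hb]
    exact hne b (hk.trans hb ha)
  refine ⟨op a c, (op_mem_PP hk).2 ⟨ha, hc, fun b hb => ?_⟩, p1_op _ _⟩
  have := hc' b hb
  rwa [ap_rs hs (hk.sb ha) hb] at this

/-- `T'` covers `T`. -/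
theorem ps_T {k s f : M} (hk : Ord k) (hlim : ∀ a, a ∈ k → sc a ∈ k)
    (hL : Lam k (PP k s) f) (hlev : ∀ a, a ∈ k → ∃ u, u ∈ PP k s ∧ p1 u = a) :
    PS (sm (YA k s f) (sU (im k (ap f)))) (YB k s f) := by
  classical
  refine ps_of_fun (F := fun z => if p2 (p2 z) = GL.em then op (p1 (p2 z)) (sc GL.em) else
    op (op (p1 z) (op (p1 (p2 z)) (sU (p2 (p2 z))))) GL.em)
    (DT.ite (P := fun w : Fin 1 → M => p2 (p2 (w 0)) = GL.em)
      (by simp (maxDischargeDepth := 50)) (by simp (maxDischargeDepth := 50))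
      (by simp (maxDischargeDepth := 50))) fun x hx => ?_
  rcases mem_sm.1 hx with ⟨z, hz, rfl⟩ | ⟨ξ, hξ, rfl⟩
  · obtain ⟨u, ξ, n, rfl, hu, hn, hξ⟩ := (mem_YA hk).1 hz
    have ha := PP.p1_mem hk hu
    refine ⟨op u (op ξ (sc n)), (mem_YB hk hlim).2 ⟨u, ξ, sc n, rfl, hu, sc_mem_om hn,
      hL.mono _ _ (hlim _ ha) (mem_sc_self _) _ hξ⟩, ?_⟩
    simp only [p1_op, p2_op]
    rw [if_neg (sc_ne_em n), sU_sc_of_ord (ord_of_mem_om hn)]
  · obtain ⟨a, ha, hξa⟩ := mem_sUf.1 hξ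
    obtain ⟨u, hu, rfl⟩ := hlev a ha
    refine ⟨op u (op ξ GL.em), (mem_YB hk hlim).2 ⟨u, ξ, GL.em, rfl, hu, em_mem_om,
      hL.mono _ _ (hlim _ ha) (mem_sc_self _) _ hξa⟩, ?_⟩
    simp only [p1_op, p2_op, if_true]

/-- `T` covers `T'`. -/
theorem ps_T' {k s f : M} (hk : Ord k) (hlim : ∀ a, a ∈ k → sc a ∈ k)
    (hne : ∀ a, a ∈ k → ∃ x, x ∈ ap s a) :
    PS (YB k s f) (sm (YA k s f) (sU (im k (ap f)))) := by
  refine ps_of_fun (F := fun z => op (op (sU (p1 (p1 (p1 z)))) (rs (p2 (p1 (p1 z)))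
    (sU (p1 (p1 (p1 z)))))) (p2 (p1 z))) (by simp (maxDischargeDepth := 50)) fun x hx => ?_
  obtain ⟨u, ξ, n, rfl, hu, hn, hξ⟩ := (mem_YB hk hlim).1 hx
  obtain ⟨a, p, rfl, ha, hp, hps⟩ := (mem_PP hk).1 hu
  rw [p1_op] at hξ
  obtain ⟨y, hy⟩ := hne a ha
  obtain ⟨h5, h6, h7⟩ := fn_snoc (x := y) hp
  have hv : op (sc a) (un p (pr (op a y) (op a y))) ∈ PP k s := by
    refine (op_mem_PP hk).2 ⟨hlim a ha, h5, fun b hb => ?_⟩
    rcases mem_sc.1 hb with hb | rfl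
    · rw [h6 b hb]
      exact hps b hb
    · rw [h7]
      exact hy
  refine ⟨op (op (op (sc a) (un p (pr (op a y) (op a y)))) (op ξ n)) GL.em,
    op_em_mem_sm.2 ((mem_YA hk).2 ⟨_, ξ, n, rfl, hv, hn, by rw [p1_op]; exact hξ⟩), ?_⟩
  simp only [p1_op, p2_op]
  rw [sU_sc_of_ord (hk.mem ha)]
  have h8 : rs (un p (pr (op a y) (op a y))) a = p :=
    (fn_rs h5 (fun z hz => mem_sc.2 (Or.inl hz))).ext hp fun b hb => by
      rw [ap_rs h5 (fun z hz => mem_sc.2 (Or.inl hz)) hb, h6 b hb]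
  rw [h8]

/-- If the ordinal `sup f` injects into `T'` then there is a choice function. -/
theorem choice_of_le {k s f : M} (hk : Ord k) (hlim : ∀ a, a ∈ k → sc a ∈ k)
    (hL : Lam k (PP k s) f) (h : Le (sU (im k (ap f))) (YB k s f)) :
    ∃ c, Fn c k ∧ ∀ a, a ∈ k → ap c a ∈ ap s a := by
  obtain ⟨φ, hφ, hφi⟩ := le_iff.1 h
  rw [mem_fs] at hφ
  have hO : Ord (sU (im k (ap f))) := ord_sU fun y hy => by
    obtain ⟨a, ha, rfl⟩ := (mem_im (by simp (maxDischargeDepth := 50))).1 hy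
    exact hL.ord a ha
  have hex : ∀ a, a ∈ k → ∃ ξ, ξ ∈ sU (im k (ap f)) ∧ a ∈ p1 (p1 (ap φ ξ)) := by
    intro a ha
    by_contra hno
    push Not at hno
    have ha1 := hlim a ha
    have ha2 := hlim _ ha1
    refine hL.not_le (sc (sc a)) (sc a) ha2 (mem_sc_self _) (Le.of_dt (F := ap φ)
      (by simp (maxDischargeDepth := 50)) (fun ξ hξ => ?_) fun ξ hξ η hη h2 => ?_)
    · have hξ' : ξ ∈ sU (im k (ap f)) := mem_sUf.2 ⟨_, ha2, hξ⟩
      obtain ⟨u, η, n, he, hu, hn, hη⟩ := (mem_YB hk hlim).1 (hφ.2 ξ hξ')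
      have h3 := hno ξ hξ'
      rw [he, p1_op] at h3
      have h4 : Sb (p1 u) a := (Ord.not_mem_iff (hk.mem ha) (hk.mem (PP.p1_mem hk hu))).1 h3
      rw [he, op_mem_pd, op_mem_pd]
      refine ⟨hu, ?_, hn⟩
      rcases (Ord.sb_iff (hk.mem (PP.p1_mem hk hu)) (hk.mem ha)).1 h4 with h5 | h5
      · refine hL.mono _ _ ha1 ?_ _ hη
        have h6 : Sb (sc (p1 u)) a := (Ord.sc_sb_iff (hk.mem ha)).2 h5
        exact (Ord.mem_sc_iff (ord_sc (hk.mem (PP.p1_mem hk hu))) (hk.mem ha)).2 h6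
      · rwa [h5] at hη
    · exact hφi _ _ (mem_sUf.2 ⟨_, ha2, hξ⟩) (mem_sUf.2 ⟨_, ha2, hη⟩) h2
  have hm : DT (fun w : Fin 1 → M => mu fun ξ => ξ ∈ sU (im k (ap f)) ∧
      w 0 ∈ p1 (p1 (ap φ ξ))) := by
    refine dt_mu (P := fun (v : Fin 1 → M) ξ => ξ ∈ sU (im k (ap f)) ∧
      v 0 ∈ p1 (p1 (ap φ ξ))) ?_
    simp (maxDischargeDepth := 50)
  have hc : DT (fun w : Fin 1 → M => ap (p2 (p1 (ap φ (mu fun ξ => ξ ∈ sU (im k (ap f)) ∧
      w 0 ∈ p1 (p1 (ap φ ξ)))))) (w 0)) :=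
    dt_ap (dt_p2 (dt_p1 (dt_ap (DT.const φ) hm))) (DT.var 0)
  refine ⟨lam k fun a => ap (p2 (p1 (ap φ (mu fun ξ => ξ ∈ sU (im k (ap f)) ∧
      a ∈ p1 (p1 (ap φ ξ)))))) a, fn_lam hc, fun a ha => ?_⟩
  rw [ap_lam hc ha]
  obtain ⟨ξ0, hξ0, hξ0'⟩ := hex a ha
  obtain ⟨-, ⟨h1, h2⟩, -⟩ := mu_spec (P := fun ξ => ξ ∈ sU (im k (ap f)) ∧
    a ∈ p1 (p1 (ap φ ξ))) (by simp (maxDischargeDepth := 50)) ⟨ξ0, hO.mem hξ0, hξ0, hξ0'⟩
  obtain ⟨u, η, n, he, hu, hn, hη⟩ := (mem_YB hk hlim).1 (hφ.2 _ h1)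
  rw [he, p1_op] at h2
  rw [he, p1_op]
  exact PP.ap_mem hk hu h2

/-- If `T'` injects into `T` then there is a choice function. -/
theorem choice_of_le' {k s f : M} (hk : Ord k) (hlim : ∀ a, a ∈ k → sc a ∈ k)
    (hL : Lam k (PP k s) f) (hlev : ∀ a, a ∈ k → ∃ u, u ∈ PP k s ∧ p1 u = a)
    (h : Le (YB k s f) (sm (YA k s f) (sU (im k (ap f))))) :
    ∃ c, Fn c k ∧ ∀ a, a ∈ k → ap c a ∈ ap s a := by
  obtain ⟨φ, hφ, hφi⟩ := le_iff.1 h
  rw [mem_fs] at hφ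
  have hO : Ord (sU (im k (ap f))) := ord_sU fun y hy => by
    obtain ⟨a, ha, rfl⟩ := (mem_im (by simp (maxDischargeDepth := 50))).1 hy
    exact hL.ord a ha
  have hmB : ∀ u ξ, u ∈ PP k s → ξ ∈ ap f (sc (p1 u)) → op u (op ξ GL.em) ∈ YB k s f :=
    fun u ξ hu hξ => (mem_YB hk hlim).2 ⟨u, ξ, GL.em, rfl, hu, em_mem_om, hξ⟩
  -- a value in the second part, or of larger level
  let Q : M → M → Prop := fun u ξ => ξ ∈ ap f (sc (p1 u)) ∧
    (p2 (ap φ (op u (op ξ GL.em))) = sc GL.em ∨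
      (p2 (ap φ (op u (op ξ GL.em))) = GL.em ∧ p1 u ∈ p1 (p1 (p1 (ap φ (op u (op ξ GL.em)))))))
  have hQ : ∀ {n : ℕ} {s t : (Fin n → M) → M}, DT s → DT t → Dfn fun v => Q (s v) (t v) := by
    intro n s t hs ht
    simp (maxDischargeDepth := 50) [Q, hs, ht]
  have hex : ∀ u, u ∈ PP k s → ∃ ξ, Q u ξ := by
    intro u hu
    by_contra hno
    push Not at hno
    have ha := PP.p1_mem hk hu
    have ha1 := hlim _ ha
    have h1 : ∀ ξ, ξ ∈ ap f (sc (p1 u)) → ∃ z, z ∈ pd (PP k s) (pd (ap f (p1 u)) om) ∧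
        ap φ (op u (op ξ GL.em)) = op z GL.em := by
      intro ξ hξ
      have h2 := hno ξ
      rcases mem_sm.1 (hφ.2 _ (hmB u ξ hu hξ)) with ⟨z, hz, he⟩ | ⟨z, hz, he⟩
      · refine ⟨z, ?_, he⟩
        obtain ⟨v, η, n, rfl, hv, hn, hη⟩ := (mem_YA hk).1 hz
        have h3 : p1 u ∉ p1 v := fun h3 => h2 ⟨hξ, Or.inr (by
          rw [he]; simp only [p1_op, p2_op]; exact ⟨trivial, h3⟩)⟩
        have h4 : Sb (p1 v) (p1 u) :=
          (Ord.not_mem_iff (hk.mem ha) (hk.mem (PP.p1_mem hk hv))).1 h3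
        rw [op_mem_pd, op_mem_pd]
        refine ⟨hv, ?_, hn⟩
        rcases (Ord.sb_iff (hk.mem (PP.p1_mem hk hv)) (hk.mem ha)).1 h4 with h5 | h5
        · exact hL.mono _ _ ha h5 _ hη
        · rwa [h5] at hη
      · exact (h2 ⟨hξ, Or.inl (by rw [he, p2_op])⟩).elim
    refine hL.not_le (sc (p1 u)) (p1 u) ha1 (mem_sc_self _) (Le.of_dt
      (F := fun ξ => p1 (ap φ (op u (op ξ GL.em)))) (by simp (maxDischargeDepth := 50))
      (fun ξ hξ => ?_) fun ξ hξ η hη h2 => ?_)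
    · obtain ⟨z, hz, he⟩ := h1 ξ hξ
      rw [he, p1_op]
      exact hz
    · obtain ⟨z, hz, he⟩ := h1 ξ hξ
      obtain ⟨z', hz', he'⟩ := h1 η hη
      rw [he, he', p1_op, p1_op] at h2
      have h3 := hφi _ _ (hmB u ξ hu hξ) (hmB u η hu hη) (by rw [he, he', h2])
      exact (op_inj.1 (op_inj.1 h3).2).1
  let m : M → M := fun u => mu fun ξ => Q u ξ
  have hm : DT (fun w : Fin 1 → M => m (w 0)) := by
    refine dt_mu (P := fun (v : Fin 1 → M) ξ => Q (v 0) ξ) ?_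
    exact hQ (DT.var 1) (DT.var 0)
  have hm' : ∀ {n : ℕ} {s : (Fin n → M) → M}, DT s → DT fun v => m (s v) := fun hs => dt1 hm hs
  have hms : ∀ u, u ∈ PP k s → Q u (m u) := by
    intro u hu
    obtain ⟨ξ, hξ⟩ := hex u hu
    have hOξ : Ord ξ := (hL.ord _ (hlim _ (PP.p1_mem hk hu))).mem hξ.1
    exact (mu_spec (P := fun ξ => Q u ξ) (hQ (DT.const u) (DT.var 0)) ⟨ξ, hOξ, hξ⟩).2.1
  -- the value
  let g : M → M := fun u => ap φ (op u (op (m u) GL.em))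
  have hg : DT (fun w : Fin 1 → M => g (w 0)) := by
    simp (maxDischargeDepth := 50) [g, hm']
  have hg' : ∀ {n : ℕ} {s : (Fin n → M) → M}, DT s → DT fun v => g (s v) := fun hs => dt1 hg hs
  have hgi : ∀ u, u ∈ PP k s → ∀ v, v ∈ PP k s → g u = g v → u = v := fun u hu v hv h1 =>
    (op_inj.1 (hφi _ _ (hmB u _ hu (hms u hu).1) (hmB v _ hv (hms v hv).1) h1)).1
  have hgood : ∀ u, u ∈ PP k s → (∃ η, η ∈ sU (im k (ap f)) ∧ g u = op η (sc GL.em)) ∨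
      (p1 (p1 (g u)) ∈ PP k s ∧ p1 u ∈ p1 (p1 (p1 (g u)))) := by
    intro u hu
    rcases mem_sm.1 (hφ.2 _ (hmB u _ hu (hms u hu).1)) with ⟨z, hz, he⟩ | ⟨z, hz, he⟩
    · right
      obtain ⟨v, η, n, rfl, hv, hn, hη⟩ := (mem_YA hk).1 hz
      have he' : g u = op (op v (op η n)) GL.em := he
      rcases (hms u hu).2 with h1 | ⟨-, h1⟩
      · rw [he, p2_op] at h1
        exact absurd h1.symm sc_em_ne
      · have h2 : p1 u ∈ p1 (p1 (p1 (g u))) := h1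
        refine ⟨?_, h2⟩
        rw [he', p1_op, p1_op]
        exact hv
    · exact Or.inl ⟨z, hz, he⟩
  by_cases hE : ∀ b, b ∈ k → ∃ η u, η ∈ sU (im k (ap f)) ∧ u ∈ PP k s ∧ b ∈ p1 u ∧
      g u = op η (sc GL.em)
  · -- the bad elements give a choice function
    let e : M → M := fun b => mu fun η => η ∈ sU (im k (ap f)) ∧ ∃ u, u ∈ PP k s ∧ b ∈ p1 u ∧
      g u = op η (sc GL.em)
    have he : DT (fun w : Fin 1 → M => e (w 0)) := by
      refine dt_mu (P := fun (v : Fin 1 → M) η => η ∈ sU (im k (ap f)) ∧ ∃ u, u ∈ PP k s ∧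
        v 0 ∈ p1 u ∧ g u = op η (sc GL.em)) ?_
      simp (maxDischargeDepth := 50) [hg']
    have he' : ∀ {n : ℕ} {s : (Fin n → M) → M}, DT s → DT fun v => e (s v) :=
      fun hs => dt1 he hs
    have hes : ∀ b, b ∈ k → ∃ u, u ∈ PP k s ∧ b ∈ p1 u ∧ g u = op (e b) (sc GL.em) := by
      intro b hb
      obtain ⟨η, u, h1, h2⟩ := hE b hb
      exact (mu_spec (P := fun η => η ∈ sU (im k (ap f)) ∧ ∃ u, u ∈ PP k s ∧ b ∈ p1 u ∧
        g u = op η (sc GL.em)) (by simp (maxDischargeDepth := 50) [hg'])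
        ⟨η, hO.mem h1, h1, u, h2⟩).2.1.2
    have hc : DT (fun w : Fin 1 → M => cp fun z => ∃ u, u ∈ PP k s ∧
        g u = op (e (w 0)) (sc GL.em) ∧ z ∈ ap (p2 u) (w 0)) := by
      simp (maxDischargeDepth := 50) [hg', he']
    refine ⟨lam k fun b => cp fun z => ∃ u, u ∈ PP k s ∧
        g u = op (e b) (sc GL.em) ∧ z ∈ ap (p2 u) b, fn_lam hc, fun b hb => ?_⟩
    rw [ap_lam hc hb]
    obtain ⟨u, hu, hbu, hgu⟩ := hes b hb
    have h1 : (cp fun z => ∃ u, u ∈ PP k s ∧ g u = op (e b) (sc GL.em) ∧ z ∈ ap (p2 u) b) =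
        ap (p2 u) b := by
      have h2 : ∀ z, z ∈ ap (p2 u) b ↔ ∃ u, u ∈ PP k s ∧ g u = op (e b) (sc GL.em) ∧
          z ∈ ap (p2 u) b := by
        intro z
        constructor
        · intro hz
          exact ⟨u, hu, hgu, hz⟩
        · rintro ⟨v, hv, hgv, hz⟩
          rwa [hgi u hu v hv (hgu.trans hgv.symm)]
      exact ext' fun z => by rw [h2 z]; exact mem_cp ⟨ap (p2 u) b, h2⟩
    rw [h1]
    exact PP.ap_mem hk hu hbu
  · -- all large levels are raised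
    push Not at hE
    obtain ⟨b, hb, hE⟩ := hE
    by_contra hno
    obtain ⟨v, hv, hvl⟩ := hlev _ (hlim b hb)
    have h1 : RG k s (sc b) := RG.of_dt (F := fun _ => v) (DT.const v) fun u hu hub => by
      refine ⟨hv, ?_⟩
      rw [hvl]
      exact hub
    have h2 : RG k s (df k (sc b)) := by
      refine RG.of_dt (F := fun u => p1 (p1 (g u))) (by simp (maxDischargeDepth := 50) [hg'])
        fun u hu hub => ?_
      rcases hgood u hu with ⟨η, hη, he⟩ | h3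
      · exfalso
        refine hE η u hη hu ?_ he
        obtain ⟨h4, h5⟩ := mem_df.1 hub
        have h6 : Sb (sc b) (p1 u) :=
          (Ord.not_mem_iff (hk.mem h4) (ord_sc (hk.mem hb))).1 h5
        exact h6 b (mem_sc_self b)
      · exact h3
    refine not_rg hk hno (RG.union₂ hk h1 h2 fun a ha _ => ?_)
    by_cases hc : a ∈ sc b
    · exact Or.inl hc
    · exact Or.inr (mem_df.2 ⟨ha, hc⟩)

/-- **Choice for all well-ordered families from `WF^s_i4`.** -/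
theorem acf_of_wf4s (hW : WF4 M Ix.s Iy.i) {k : M} (hk : Ord k) : Acf k := by
  by_contra hn
  obtain ⟨m, hm, -, hnac, hac⟩ := exists_least_fail hk hn
  obtain ⟨s, hs, hne, hno⟩ := exists_family hnac
  have hlim := limit_of_least hm hnac hac
  have hem : (GL.em : M) ∈ m := hm.em_mem (by rintro rfl; exact hnac acf_em)
  have hlev : ∀ a, a ∈ m → ∃ u, u ∈ PP m s ∧ p1 u = a := fun a ha =>
    exists_level_PP hm hs ha (hac a ha) hne
  obtain ⟨f, hL⟩ := exists_Lam (P := PP m s) hm ((hlev _ hem).imp fun _ h => h.1)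
  rcases le_or_le hW (leStar_of_ps (ps_T hm hlim hL hlev)) (leStar_of_ps (ps_T' hm hlim hne))
    with h | h
  · exact hno (choice_of_le hm hlim hL ((le_sm_right _ _).trans h))
  · exact hno (choice_of_le' hm hlim hL hlev h)

/-- Each principle `WF^s_yk` with `y ≠ s` implies `AC_κ` for every ordinal `κ`. -/
theorem ack_of_wfs {y : Iy} (hy : y ≠ Iy.s)
    (h : WF1 M Ix.s y ∨ WF2 M Ix.s y ∨ WF3 M Ix.s y ∨ WF4 M Ix.s y) (k : M)
    (hk : IsOrdinal k) : ACk k := by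
  have h4 : WF4 M Ix.s y := by
    rcases h with h | h | h | h
    · exact wf4_of_wf3 (wf3_of_wf1 h)
    · exact wf4_of_wf3 (wf3_of_wf2 h)
    · exact wf4_of_wf3 h
    · exact h
  exact ack_iff.2 (acf_of_wf4s (wf4_y hy h4) hk)

end Pool.Agent.ZFW
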