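import Pool.Agent.ZFW.BIdeal
import Pool.Agent.GL.Tools

/-!
# MP_831107_lc, second theorem : an atom of an ideal with the tail property

`I` is an ideal on the subsets of `k` such that every decreasing sequence of subsets of `k` with
empty intersection has a member in `I`. If choice for countable families holds and `k` is not in
`I`, then some subset `A` of `k` which is not in `I` is an atom.
-/

universe u

set_option linter.unusedSectionVars false

namespace Pool.Agent.ZFW

open Pool.Agent.SigB Pool.Agent.GL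

variable {M : Type u} [Membership M M] [GL.IsZF M]

namespace Atom

/-! ### Finite sets -/

/-- A covering of a set by a natural number. -/
def FS (X : M) : Prop := ∃ r, r ∈ (om : M) ∧ PS X r

theorem FS.dfn : Dfn (fun w : Fin 1 → M => FS (w 0)) := by
  unfold FS; simp (maxDischargeDepth := 50)

@[simp] theorem dfn_FS {n : ℕ} {s : (Fin n → M) → M} (hs : DT s) :
    Dfn (fun v => FS (s v)) := dfn1 FS.dfn hs

theorem FS.mono {X Y : M} (h : FS Y) (hX : Sb X Y) : FS X := by
  obtain ⟨r, hr, h1⟩ := h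
  exact ⟨r, hr, (ps_of_sb hX).trans h1⟩

theorem FS.of_ps {X Y : M} (h : FS Y) (hX : PS X Y) : FS X := by
  obtain ⟨r, hr, h1⟩ := h
  exact ⟨r, hr, hX.trans h1⟩

theorem fs_em : FS (GL.em : M) := ⟨GL.em, em_mem_om, ps_em _⟩

theorem FS.ins {X : M} (h : FS X) (x : M) : FS (un X (pr x x)) := by
  classical
  obtain ⟨r, hr, g, hg, h1⟩ := h
  refine ⟨sc r, sc_mem_om hr, ps_of_fun (F := fun y => if y = r then x else ap g y) ?_ ?_⟩
  · exact DT.ite (P := fun w : Fin 1 → M => w 0 = r) (by simp (maxDischargeDepth := 50))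
      (by simp (maxDischargeDepth := 50)) (by simp (maxDischargeDepth := 50))
  · intro z hz
    rcases mem_un.1 hz with hz | hz
    · obtain ⟨y, hy, hyz⟩ := h1 z hz
      refine ⟨y, mem_sc.2 (Or.inl hy), ?_⟩
      rw [if_neg (ne_of_mem hy), hyz]
    · rw [mem_pr, or_self] at hz
      exact ⟨r, mem_sc_self r, by rw [if_pos rfl, hz]⟩

/-- Induction on finite sets. -/
theorem FS.induct {P : M → Prop} (hP : Dfn (fun w : Fin 1 → M => P (w 0)))
    (hmono : ∀ X Y, Sb X Y → P Y → P X) (h0 : P GL.em) (hs : ∀ X x, P X → P (un X (pr x x)))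
    {X : M} (h : FS X) : P X := by
  obtain ⟨r, hr, h⟩ := h
  have hP' : ∀ {n : ℕ} {s : (Fin n → M) → M}, DT s → Dfn (fun v => P (s v)) :=
    fun hs => dfn1 hP hs
  have key : ∀ r, r ∈ (om : M) → ∀ X, PS X r → P X := by
    refine om_ind (P := fun r => ∀ X, PS X r → P X)
      (by simp (maxDischargeDepth := 50) [hP']) ?_ ?_
    · rintro X ⟨g, -, hX⟩
      refine hmono _ _ (fun x hx => ?_) h0
      obtain ⟨y, hy, -⟩ := hX x hx
      exact (not_mem_em _ hy).elim
    · rintro r - ih X ⟨g, hg, hX⟩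
      have hd : Dfn (fun w : Fin 1 → M => ∃ i, i ∈ r ∧ ap g i = w 0) := by
        simp (maxDischargeDepth := 50)
      have h1 : P (sp X fun x => ∃ i, i ∈ r ∧ ap g i = x) := by
        refine ih _ (ps_of_fun (F := fun y => ap g y) (by simp (maxDischargeDepth := 50))
          fun x hx => ?_)
        exact ((mem_sp (P := fun x => ∃ i, i ∈ r ∧ ap g i = x) hd).1 hx).2
      refine hmono _ _ (fun x hx => ?_) (hs _ (ap g r) h1)
      obtain ⟨y, hy, hyx⟩ := hX x hx
      rcases mem_sc.1 hy with hy | rfl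
      · exact mem_un.2 (Or.inl ((mem_sp (P := fun x => ∃ i, i ∈ r ∧ ap g i = x) hd).2
          ⟨hx, y, hy, hyx⟩))
      · exact mem_un.2 (Or.inr (by rw [mem_pr, or_self]; exact hyx.symm))
  exact key r hr X h

theorem FS.un {X Y : M} (hX : FS X) (hY : FS Y) : FS (un X Y) := by
  refine FS.induct (P := fun Y => FS (GL.un X Y)) (by simp (maxDischargeDepth := 50)) ?_ ?_ ?_ hY
  · intro Y Y' h h'
    refine h'.mono fun z hz => ?_
    rcases mem_un.1 hz with hz | hz
    · exact mem_un.2 (Or.inl hz)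
    · exact mem_un.2 (Or.inr (h z hz))
  · refine hX.mono fun z hz => ?_
    rcases mem_un.1 hz with hz | hz
    · exact hz
    · exact (not_mem_em _ hz).elim
  · intro Y y h
    refine (h.ins y).mono fun z hz => ?_
    rcases mem_un.1 hz with hz | hz
    · exact mem_un.2 (Or.inl (mem_un.2 (Or.inl hz)))
    · rcases mem_un.1 hz with hz | hz
      · exact mem_un.2 (Or.inl (mem_un.2 (Or.inr hz)))
      · exact mem_un.2 (Or.inr hz)

theorem FS.pd {X Y : M} (hX : FS X) (hY : FS Y) : FS (pd X Y) := by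
  refine FS.induct (P := fun Y => FS (GL.pd X Y)) (by simp (maxDischargeDepth := 50)) ?_ ?_ ?_ hY
  · intro Y Y' h h'
    refine h'.mono fun z hz => ?_
    obtain ⟨x, hx, y, hy, rfl⟩ := mem_pd.1 hz
    exact op_mem_pd.2 ⟨hx, h y hy⟩
  · refine fs_em.mono fun z hz => ?_
    obtain ⟨x, hx, y, hy, rfl⟩ := mem_pd.1 hz
    exact (not_mem_em _ hy).elim
  · intro Y y h
    have h1 : FS (GL.pd X (pr y y)) := by
      refine hX.of_ps (ps_of_fun (F := fun x => op x y) (by simp (maxDischargeDepth := 50))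
        fun z hz => ?_)
      obtain ⟨x, hx, y', hy, rfl⟩ := mem_pd.1 hz
      rw [mem_pr, or_self] at hy
      exact ⟨x, hx, by rw [hy]⟩
    refine (FS.un h h1).mono fun z hz => ?_
    obtain ⟨x, hx, y', hy, rfl⟩ := mem_pd.1 hz
    rcases mem_un.1 hy with hy | hy
    · exact mem_un.2 (Or.inl (op_mem_pd.2 ⟨hx, hy⟩))
    · exact mem_un.2 (Or.inr (op_mem_pd.2 ⟨hx, hy⟩))

/-- The pigeonhole principle. -/
theorem no_inj {n : M} (hn : n ∈ (om : M)) : ¬ ∃ f, f ∈ fs (sc n) n ∧
    ∀ x y, x ∈ sc n → y ∈ sc n → ap f x = ap f y → x = y := by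
  refine om_ind (P := fun n => ¬ ∃ f, f ∈ fs (sc n) n ∧
    ∀ x y, x ∈ sc n → y ∈ sc n → ap f x = ap f y → x = y)
    (by simp (maxDischargeDepth := 50)) ?_ ?_ n hn
  · rintro ⟨f, hf, -⟩
    exact not_mem_em _ ((mem_fs.1 hf).2 _ (mem_sc_self _))
  · rintro n - ih ⟨f, hf, hi⟩
    refine ih ?_
    classical
    have hv := (mem_fs.1 hf).2
    have hd : DT (fun w : Fin 1 → M => if ap f (w 0) = n then ap f (sc n) else ap f (w 0)) := by
      refine DT.ite (P := fun w : Fin 1 → M => ap f (w 0) = n) ?_ ?_ ?_ <;>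
        simp (maxDischargeDepth := 50)
    refine ⟨lam (sc n) fun x => if ap f x = n then ap f (sc n) else ap f x,
      lam_mem_fs hd ?_, ?_⟩
    · intro x hx
      have h1 := hv x (mem_sc.2 (Or.inl hx))
      have h2 := hv (sc n) (mem_sc_self _)
      by_cases h : ap f x = n
      · simp only [if_pos h]
        rcases mem_sc.1 h2 with h3 | h3
        · exact h3
        · have := hi x (sc n) (mem_sc.2 (Or.inl hx)) (mem_sc_self _) (h.trans h3.symm)
          rw [this] at hx
          exact absurd hx (not_mem_self _)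
      · simp only [if_neg h]
        exact (mem_sc.1 h1).resolve_right h
    · intro x y hx hy he
      rw [ap_lam hd hx, ap_lam hd hy] at he
      have hx' : x ∈ sc (sc n) := mem_sc.2 (Or.inl hx)
      have hy' : y ∈ sc (sc n) := mem_sc.2 (Or.inl hy)
      by_cases h : ap f x = n <;> by_cases h' : ap f y = n
      · exact hi x y hx' hy' (h.trans h'.symm)
      · simp only [if_pos h, if_neg h'] at he
        have := hi _ _ (mem_sc_self _) hy' he
        rw [← this] at hy
        exact absurd hy (not_mem_self _)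
      · simp only [if_neg h, if_pos h'] at he
        have := hi _ _ hx' (mem_sc_self _) he
        rw [this] at hx
        exact absurd hx (not_mem_self _)
      · simp only [if_neg h, if_neg h'] at he
        exact hi x y hx' hy' he

/-! ### Ideals with the tail property -/

/-- An ideal on the subsets of `k` with the tail property. -/
structure TI (k : M) (I : M → Prop) : Prop where
  dfn : Dfn (fun w : Fin 1 → M => I (w 0))
  mono : ∀ B C, Sb B C → I C → I B
  un2 : ∀ B C, I B → I C → I (GL.un B C)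
  tails : ∀ t, Fn t om → (∀ n, n ∈ (om : M) → Sb (ap t n) k) →
    (∀ n, n ∈ (om : M) → Sb (ap t (sc n)) (ap t n)) →
    (∀ a, a ∈ k → ∃ n, n ∈ (om : M) ∧ a ∉ ap t n) → ∃ n, n ∈ (om : M) ∧ I (ap t n)

variable {k : M} {I : M → Prop}

/-- The classes of a function on `k`. -/
noncomputable def cls (k f j : M) : M := sp k fun a => ap f a = j

theorem cls.dt : DT (fun w : Fin 3 → M => cls (w 0) (w 1) (w 2)) := by
  unfold cls; simp (maxDischargeDepth := 50)

@[simp] theorem dt_cls {n : ℕ} {s t r : (Fin n → M) → M} (hs : DT s) (ht : DT t) (hr : DT r) :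
    DT (fun v => cls (s v) (t v) (r v)) := dt3 cls.dt hs ht hr

theorem mem_cls {k f j a : M} : a ∈ cls k f j ↔ a ∈ k ∧ ap f a = j := by
  unfold cls
  exact mem_sp (by simp (maxDischargeDepth := 50))

/-- A function with values in `m + 1` all of whose classes are positive. -/
def Full (I : M → Prop) (k m f : M) : Prop :=
  f ∈ fs k (sc m) ∧ ∀ j, j ∈ sc m → ¬ I (cls k f j)

theorem exists_full (hI : TI k I) (hk : ¬ I k)
    (hsplit : ∀ A, Sb A k → ¬ I A → ∃ B, Sb B A ∧ ¬ I B ∧ ¬ I (df A B)) :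
    ∀ m, m ∈ (om : M) → ∃ f, Full I k m f := by
  classical
  have hI' : ∀ {n : ℕ} {s : (Fin n → M) → M}, DT s → Dfn (fun v => I (s v)) :=
    fun hs => dfn1 hI.dfn hs
  refine om_ind (P := fun m => ∃ f, Full I k m f)
    (by unfold Full; simp (maxDischargeDepth := 50) [hI']) ?_ ?_
  · refine ⟨lam k fun _ => GL.em, lam_mem_fs (DT.const _) fun x _ => mem_sc_self _, ?_⟩
    intro j hj h
    rcases mem_sc.1 hj with hj | rfl
    · exact (not_mem_em _ hj).elim
    · exact hk (hI.mono _ _ (fun a ha => mem_cls.2 ⟨ha, ap_lam (DT.const _) ha⟩) h)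
  · rintro m hm ⟨f, hf, hpos⟩
    have hsm : Sb (cls k f m) k := fun a ha => (mem_cls.1 ha).1
    obtain ⟨B, hB, hB1, hB2⟩ := hsplit _ hsm (hpos m (mem_sc_self m))
    have hd : DT (fun w : Fin 1 → M => if w 0 ∈ B then sc m else ap f (w 0)) := by
      refine DT.ite (P := fun w : Fin 1 → M => w 0 ∈ B) ?_ ?_ ?_ <;>
        simp (maxDischargeDepth := 50)
    have hfv := (mem_fs.1 hf).2
    refine ⟨lam k fun a => if a ∈ B then sc m else ap f a, lam_mem_fs hd fun a ha => ?_, ?_⟩
    · by_cases h : a ∈ B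
      · simp only [if_pos h]
        exact mem_sc_self _
      · simp only [if_neg h]
        exact mem_sc.2 (Or.inl (hfv a ha))
    · intro j hj hIj
      rcases mem_sc.1 hj with hj | rfl
      · rcases mem_sc.1 hj with hj | rfl
        · refine hpos j (mem_sc.2 (Or.inl hj)) (hI.mono _ _ (fun a ha => ?_) hIj)
          obtain ⟨hak, haj⟩ := mem_cls.1 ha
          refine mem_cls.2 ⟨hak, ?_⟩
          rw [ap_lam hd hak, if_neg]
          · exact haj
          · intro h
            have := (mem_cls.1 (hB a h)).2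
            rw [haj] at this
            rw [this] at hj
            exact not_mem_self _ hj
        · refine hB2 (hI.mono _ _ (fun a ha => ?_) hIj)
          obtain ⟨h1, h2⟩ := mem_df.1 ha
          obtain ⟨hak, haj⟩ := mem_cls.1 h1
          exact mem_cls.2 ⟨hak, by rw [ap_lam hd hak, if_neg h2, haj]⟩
      · refine hB1 (hI.mono _ _ (fun a ha => ?_) hIj)
        have hak := hsm a (hB a ha)
        exact mem_cls.2 ⟨hak, by rw [ap_lam hd hak, if_pos ha]⟩

/-- Countable choice of full partitions. -/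
theorem exists_seq (hI : TI k I) (hk : ¬ I k) (hac : Acf (om : M))
    (hsplit : ∀ A, Sb A k → ¬ I A → ∃ B, Sb B A ∧ ¬ I B ∧ ¬ I (df A B)) :
    ∃ c, Fn c (om : M) ∧ ∀ m, m ∈ (om : M) → Full I k m (ap c m) := by
  have hI' : ∀ {n : ℕ} {s : (Fin n → M) → M}, DT s → Dfn (fun v => I (s v)) :=
    fun hs => dfn1 hI.dfn hs
  have hd : ∀ m : M, Dfn (fun w : Fin 1 → M => ∀ j, j ∈ sc m → ¬ I (cls k (w 0) j)) := by
    intro m
    simp (maxDischargeDepth := 50) [hI']
  have hd2 : DT (fun w : Fin 1 → M => sp (fs k (sc (w 0))) fun f =>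
      ∀ j, j ∈ sc (w 0) → ¬ I (cls k f j)) := by
    refine dt_sp (P := fun (w : Fin 1 → M) f => ∀ j, j ∈ sc (w 0) → ¬ I (cls k f j)) ?_ ?_
    · simp (maxDischargeDepth := 50)
    · simp (maxDischargeDepth := 50) [hI']
  have hs : ∀ m, m ∈ (om : M) → ∀ f, f ∈ ap (lam om fun m => sp (fs k (sc m)) fun f =>
      ∀ j, j ∈ sc m → ¬ I (cls k f j)) m ↔ Full I k m f := by
    intro m hm f
    rw [ap_lam hd2 hm]
    exact mem_sp (hd m)
  obtain ⟨c, hc, hc'⟩ := hac (lam om fun m => sp (fs k (sc m)) fun f =>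
      ∀ j, j ∈ sc m → ¬ I (cls k f j)) (fn_lam hd2) fun m hm => by
    obtain ⟨f, hf⟩ := exists_full hI hk hsplit m hm
    exact ⟨f, (hs m hm f).2 hf⟩
  exact ⟨c, hc, fun m hm => (hs m hm _).1 (hc' m hm)⟩

/-- The cell of `a` at the level `n`. -/
noncomputable def cell (k c n a : M) : M :=
  sp k fun b => ∀ i, i ∈ n → ap (ap c i) b = ap (ap c i) a

theorem cell.dt : DT (fun w : Fin 4 → M => cell (w 0) (w 1) (w 2) (w 3)) := by
  unfold cell; simp (maxDischargeDepth := 50)

@[simp] theorem dt_cell {n : ℕ} {s t r q : (Fin n → M) → M} (hs : DT s) (ht : DT t)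
    (hr : DT r) (hq : DT q) : DT (fun v => cell (s v) (t v) (r v) (q v)) :=
  dt4 cell.dt hs ht hr hq

theorem mem_cell {k c n a b : M} : b ∈ cell k c n a ↔ b ∈ k ∧
    ∀ i, i ∈ n → ap (ap c i) b = ap (ap c i) a := by
  unfold cell
  exact mem_sp (by simp (maxDischargeDepth := 50))

theorem cell_mono {c n n' a : M} (h : Sb n n') : Sb (cell k c n' a) (cell k c n a) := by
  intro b hb
  obtain ⟨h1, h2⟩ := mem_cell.1 hb
  exact mem_cell.2 ⟨h1, fun i hi => h2 i (h i hi)⟩

theorem sb_sc (n : M) : Sb n (sc n) := fun _ h => mem_sc.2 (Or.inl h)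

theorem df_mono {A B C : M} (h : Sb A B) : Sb (df A C) (df B C) := by
  intro z hz
  obtain ⟨h1, h2⟩ := mem_df.1 hz
  exact mem_df.2 ⟨h z h1, h2⟩

/-- Every point is in a cell which is decided. -/
theorem exists_level (hI : TI k I) (c a : M) :
    ∃ n, n ∈ (om : M) ∧ I (df (cell k c n a) (cell k c om a)) := by
  have hd : DT (fun w : Fin 1 → M => df (cell k c (w 0) a) (cell k c om a)) := by
    simp (maxDischargeDepth := 50)
  obtain ⟨n, hn, h⟩ := hI.tails (lam om fun n => df (cell k c n a) (cell k c om a)) (fn_lam hd)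
    (fun n hn z hz => by
      rw [ap_lam hd hn] at hz
      exact (mem_cell.1 (mem_df.1 hz).1).1)
    (fun n hn => by
      rw [ap_lam hd hn, ap_lam hd (sc_mem_om hn)]
      exact df_mono (cell_mono (sb_sc n)))
    (fun b hb => by
      by_contra hne
      push Not at hne
      have h1 : ∀ n, n ∈ (om : M) → b ∈ cell k c n a ∧ b ∉ cell k c om a := fun n hn => by
        have := hne n hn
        rw [ap_lam hd hn] at this
        exact mem_df.1 this
      refine (h1 _ em_mem_om).2 (mem_cell.2 ⟨hb, fun i hi => ?_⟩)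
      exact (mem_cell.1 (h1 _ (sc_mem_om hi)).1).2 i (mem_sc_self i))
  rw [ap_lam hd hn] at h
  exact ⟨n, hn, h⟩

/-- One level decides almost all points. -/
theorem exists_level' (hI : TI k I) (c : M) :
    ∃ n, n ∈ (om : M) ∧ I (sp k fun a => ¬ I (df (cell k c n a) (cell k c om a))) := by
  have hI' : ∀ {n : ℕ} {s : (Fin n → M) → M}, DT s → Dfn (fun v => I (s v)) :=
    fun hs => dfn1 hI.dfn hs
  have hd0 : ∀ n : M, Dfn (fun w : Fin 1 → M =>
      ¬ I (df (cell k c n (w 0)) (cell k c om (w 0)))) := by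
    intro n
    simp (maxDischargeDepth := 50) [hI']
  have hd : DT (fun w : Fin 1 → M =>
      sp k fun a => ¬ I (df (cell k c (w 0) a) (cell k c om a))) := by
    refine dt_sp (P := fun (w : Fin 1 → M) a =>
      ¬ I (df (cell k c (w 0) a) (cell k c om a))) ?_ ?_
    · simp (maxDischargeDepth := 50)
    · simp (maxDischargeDepth := 50) [hI']
  have hmem : ∀ n a : M, a ∈ (sp k fun a => ¬ I (df (cell k c n a) (cell k c om a))) ↔
      a ∈ k ∧ ¬ I (df (cell k c n a) (cell k c om a)) := fun n a => mem_sp (hd0 n)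
  obtain ⟨n, hn, h⟩ := hI.tails (lam om fun n =>
      sp k fun a => ¬ I (df (cell k c n a) (cell k c om a))) (fn_lam hd)
    (fun n hn z hz => by
      rw [ap_lam hd hn, hmem] at hz
      exact hz.1)
    (fun n hn => by
      rw [ap_lam hd hn, ap_lam hd (sc_mem_om hn)]
      intro a ha
      obtain ⟨h1, h2⟩ := (hmem _ _).1 ha
      exact (hmem _ _).2 ⟨h1, fun h3 => h2 (hI.mono _ _ (df_mono (cell_mono (sb_sc n))) h3)⟩)
    (fun a ha => by
      obtain ⟨n, hn, h⟩ := exists_level hI c a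
      refine ⟨n, hn, fun h1 => ?_⟩
      rw [ap_lam hd hn, hmem] at h1
      exact h1.2 h)
  rw [ap_lam hd hn] at h
  exact ⟨n, hn, h⟩

/-- A finite index of the cells of the level `n`. -/
theorem exists_index {c : M} (hc : ∀ m, m ∈ (om : M) → ap c m ∈ fs k (sc m)) :
    ∀ n, n ∈ (om : M) → ∃ r J, r ∈ (om : M) ∧ J ∈ fs k r ∧ ∀ a b, a ∈ k → b ∈ k →
      ap J a = ap J b → ∀ i, i ∈ n → ap (ap c i) a = ap (ap c i) b := by
  refine om_ind (P := fun n => ∃ r J, r ∈ (om : M) ∧ J ∈ fs k r ∧ ∀ a b, a ∈ k → b ∈ k →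
      ap J a = ap J b → ∀ i, i ∈ n → ap (ap c i) a = ap (ap c i) b)
    (by simp (maxDischargeDepth := 50)) ?_ ?_
  · exact ⟨sc GL.em, lam k fun _ => GL.em, sc_mem_om em_mem_om,
      lam_mem_fs (DT.const _) fun _ _ => mem_sc_self _,
      fun a b _ _ _ i hi => (not_mem_em _ hi).elim⟩
  · rintro n hn ⟨r, J, hr, hJ, h⟩
    obtain ⟨r', hr', g, hg, hcov⟩ := FS.pd (X := r) (Y := sc n) ⟨r, hr, PS.refl r⟩
      ⟨sc n, sc_mem_om hn, PS.refl _⟩
    have hd : DT (fun w : Fin 1 → M => mu fun y => y ∈ r' ∧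
        ap g y = op (ap J (w 0)) (ap (ap c n) (w 0))) := by
      refine dt_mu (P := fun (w : Fin 1 → M) y => y ∈ r' ∧
        ap g y = op (ap J (w 0)) (ap (ap c n) (w 0))) ?_
      simp (maxDischargeDepth := 50)
    have hmu : ∀ a, a ∈ k → (mu fun y => y ∈ r' ∧ ap g y = op (ap J a) (ap (ap c n) a)) ∈ r' ∧
        ap g (mu fun y => y ∈ r' ∧ ap g y = op (ap J a) (ap (ap c n) a)) =
          op (ap J a) (ap (ap c n) a) := by
      intro a ha
      obtain ⟨y, hy, hy'⟩ := hcov (op (ap J a) (ap (ap c n) a)) (op_mem_pd.2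
        ⟨(mem_fs.1 hJ).2 a ha, (mem_fs.1 (hc n hn)).2 a ha⟩)
      exact (mu_spec (P := fun y => y ∈ r' ∧ ap g y = op (ap J a) (ap (ap c n) a))
        (by simp (maxDischargeDepth := 50))
        ⟨y, (ord_of_mem_om hr').mem hy, hy, hy'⟩).2.1
    refine ⟨r', lam k fun a => mu fun y => y ∈ r' ∧ ap g y = op (ap J a) (ap (ap c n) a), hr',
      lam_mem_fs hd fun a ha => (hmu a ha).1, fun a b ha hb he i hi => ?_⟩
    rw [ap_lam hd ha, ap_lam hd hb] at he
    have h1 := (hmu a ha).2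
    rw [he, (hmu b hb).2] at h1
    obtain ⟨h2, h3⟩ := op_inj.1 h1
    rcases mem_sc.1 hi with hi | rfl
    · exact h a b ha hb h2.symm i hi
    · exact h3.symm

/-- A finite union of small sets is small. -/
theorem union_fin (hI : TI k I) (h0 : I GL.em) (P J : M) : ∀ r, r ∈ (om : M) →
    (∀ x, x ∈ r → I (sp P fun a => ap J a = x)) → I (sp P fun a => ap J a ∈ r) := by
  have hI' : ∀ {n : ℕ} {s : (Fin n → M) → M}, DT s → Dfn (fun v => I (s v)) :=
    fun hs => dfn1 hI.dfn hs
  have hd1 : ∀ r : M, Dfn (fun w : Fin 1 → M => ap J (w 0) ∈ r) := fun r => by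
    simp (maxDischargeDepth := 50)
  have hd2 : ∀ r : M, Dfn (fun w : Fin 1 → M => ap J (w 0) = r) := fun r => by
    simp (maxDischargeDepth := 50)
  refine om_ind (P := fun r => (∀ x, x ∈ r → I (sp P fun a => ap J a = x)) →
    I (sp P fun a => ap J a ∈ r)) (by simp (maxDischargeDepth := 50) [hI']) ?_ ?_
  · intro _
    refine hI.mono _ _ (fun a ha => ?_) h0
    exact (not_mem_em _ ((mem_sp (hd1 _)).1 ha).2).elim
  · intro r hr ih h
    refine hI.mono _ _ (fun a ha => ?_) (hI.un2 _ _ (ih fun x hx => h x (mem_sc.2 (Or.inl hx)))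
      (h r (mem_sc_self r)))
    obtain ⟨h1, h2⟩ := (mem_sp (hd1 _)).1 ha
    rcases mem_sc.1 h2 with h2 | h2
    · exact mem_un.2 (Or.inl ((mem_sp (hd1 _)).2 ⟨h1, h2⟩))
    · exact mem_un.2 (Or.inr ((mem_sp (hd2 _)).2 ⟨h1, h2⟩))

/-- The part of the class of `f` with the value `j` on which the index is `x`. -/
noncomputable def pc (k f J j x : M) : M := sp k fun a => ap f a = j ∧ ap J a = x

theorem mem_pc {f J j x a : M} : a ∈ pc k f J j x ↔ a ∈ k ∧ ap f a = j ∧ ap J a = x := by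
  unfold pc
  exact mem_sp (by simp (maxDischargeDepth := 50))

/-- **Existence of an atom.** -/
theorem exists_atom (hI : TI k I) (hk : ¬ I k) (hac : Acf (om : M)) :
    ∃ A, Sb A k ∧ ¬ I A ∧ ∀ B, Sb B A → I B ∨ I (df A B) := by
  by_contra hcon
  push Not at hcon
  have hI' : ∀ {n : ℕ} {s : (Fin n → M) → M}, DT s → Dfn (fun v => I (s v)) :=
    fun hs => dfn1 hI.dfn hs
  obtain ⟨c, hc, hfull⟩ := exists_seq hI hk hac hcon
  obtain ⟨n, hn, hZ⟩ := exists_level' hI c
  obtain ⟨r, J, hr, hJ, hJ'⟩ := exists_index (fun m hm => (hfull m hm).1) n hn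
  have h0 : I GL.em := hI.mono _ _ (fun z hz => (not_mem_em _ hz).elim) hZ
  obtain ⟨hf, hpos⟩ := hfull r hr
  have hdZ : Dfn (fun w : Fin 1 → M => ¬ I (df (cell k c n (w 0)) (cell k c om (w 0)))) := by
    simp (maxDischargeDepth := 50) [hI']
  -- a positive cell inside each class
  have hex : ∀ j, j ∈ sc r → ∃ x, x ∈ r ∧ ¬ I (pc k (ap c r) J j x) := by
    intro j hj
    by_contra hne
    push Not at hne
    refine hpos j hj ?_
    have hd1 : Dfn (fun w : Fin 1 → M => ap J (w 0) ∈ r) := by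
      simp (maxDischargeDepth := 50)
    refine hI.mono _ _ (fun a ha => ?_) (union_fin hI h0 (cls k (ap c r) j) J r hr fun x hx => ?_)
    · exact (mem_sp hd1).2 ⟨ha, (mem_fs.1 hJ).2 a (mem_cls.1 ha).1⟩
    · refine hI.mono _ _ (fun a ha => ?_) (hne x hx)
      obtain ⟨h1, h2⟩ := (mem_sp (by simp (maxDischargeDepth := 50))).1 ha
      obtain ⟨h3, h4⟩ := mem_cls.1 h1
      exact mem_pc.2 ⟨h3, h4, h2⟩
  -- distinct classes have distinct cells
  have hinj : ∀ j j' x, ¬ I (pc k (ap c r) J j x) → ¬ I (pc k (ap c r) J j' x) → j = j' := by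
    intro j j' x h1 h2
    by_contra hjj
    obtain ⟨a, ha, haZ⟩ : ∃ a, a ∈ pc k (ap c r) J j x ∧
        I (df (cell k c n a) (cell k c om a)) := by
      by_contra hne
      push Not at hne
      refine h1 (hI.mono _ _ (fun a ha => ?_) hZ)
      exact (mem_sp hdZ).2 ⟨(mem_pc.1 ha).1, hne a ha⟩
    refine h2 (hI.mono _ _ (fun b hb => ?_) haZ)
    obtain ⟨ha1, ha2, ha3⟩ := mem_pc.1 ha
    obtain ⟨hb1, hb2, hb3⟩ := mem_pc.1 hb
    refine mem_df.2 ⟨mem_cell.2 ⟨hb1, hJ' b a hb1 ha1 (hb3.trans ha3.symm)⟩, fun h => ?_⟩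
    have h3 := (mem_cell.1 h).2 r hr
    rw [ha2, hb2] at h3
    exact hjj h3.symm
  have hdm : DT (fun w : Fin 1 → M => mu fun x => x ∈ r ∧ ¬ I (pc k (ap c r) J (w 0) x)) := by
    refine dt_mu (P := fun (w : Fin 1 → M) x => x ∈ r ∧ ¬ I (pc k (ap c r) J (w 0) x)) ?_
    refine Dfn.and (by simp) (Dfn.not (hI' ?_))
    unfold pc
    simp (maxDischargeDepth := 50)
  have hmu : ∀ j, j ∈ sc r → (mu fun x => x ∈ r ∧ ¬ I (pc k (ap c r) J j x)) ∈ r ∧
      ¬ I (pc k (ap c r) J j (mu fun x => x ∈ r ∧ ¬ I (pc k (ap c r) J j x))) := by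
    intro j hj
    obtain ⟨x, hx, hx'⟩ := hex j hj
    refine (mu_spec (P := fun x => x ∈ r ∧ ¬ I (pc k (ap c r) J j x)) ?_
      ⟨x, (ord_of_mem_om hr).mem hx, hx, hx'⟩).2.1
    refine Dfn.and (by simp) (Dfn.not (hI' ?_))
    unfold pc
    simp (maxDischargeDepth := 50)
  refine no_inj hr ⟨lam (sc r) fun j => mu fun x => x ∈ r ∧ ¬ I (pc k (ap c r) J j x),
    lam_mem_fs hdm fun j hj => (hmu j hj).1, fun j j' hj hj' he => ?_⟩
  rw [ap_lam hdm hj, ap_lam hdm hj'] at he
  have h1 := (hmu j hj).2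
  rw [he] at h1
  exact hinj j j' _ h1 (hmu j' hj').2

/-- The ideal of the small sets has the tail property. -/
theorem ti_rg {k s : M} (hk : Ord k)
    (hB1 : ∀ h, h ∈ fs k om → ∃ n, n ∈ (om : M) ∧ RG k s (sp k fun a => n ∈ ap h a)) :
    TI k (RG k s) where
  dfn := by simp (maxDischargeDepth := 50)
  mono _ _ h h' := h'.mono h
  un2 _ _ h h' := RG.union₂ hk h h' fun z hz _ => mem_un.1 hz
  tails t _ _ hdec hint := RG.tails hk hB1 hdec hint

end Atom

/-- **Existence of an atom of the ideal of the small sets.** -/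
theorem exists_atom {k s : M} (hk : Ord k)
    (hB1 : ∀ h, h ∈ fs k om → ∃ n, n ∈ (om : M) ∧ RG k s (sp k fun a => n ∈ ap h a))
    (hs : ¬ ∃ c, Fn c k ∧ ∀ a, a ∈ k → ap c a ∈ ap s a) (hac : Acf (om : M)) :
    ∃ A, Sb A k ∧ ¬ RG k s A ∧ ∀ B, Sb B A → RG k s B ∨ RG k s (df A B) :=
  Atom.exists_atom (Atom.ti_rg hk hB1) (not_rg hk hs) hac

end Pool.Agent.ZFW
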