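import Pool.Agent.GL.Tools

/-!
Coverings: `PS X Y` says that `X` is covered by the image of `Y` under a function. Disjoint sums,
codes and well-orderable sets in a model of ZF.
-/

universe u

set_option linter.unusedSectionVars false

namespace Pool.Agent.ZFW

open Pool.Agent.SigB Pool.Agent.GL

variable {M : Type u} [Membership M M] [GL.IsZF M]

/-- `X` is covered by the image of `Y` under a function with domain `Y`. -/
def PS (X Y : M) : Prop := ∃ f, Fn f Y ∧ ∀ x, x ∈ X → ∃ y, y ∈ Y ∧ ap f y = x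

theorem PS.dfn : Dfn (fun w : Fin 2 → M => PS (w 0) (w 1)) := by
  unfold PS; simp (maxDischargeDepth := 50)

@[simp] theorem dfn_PS {n : ℕ} {s t : (Fin n → M) → M} (hs : DT s) (ht : DT t) :
    Dfn (fun v => PS (s v) (t v)) := dfn2 PS.dfn hs ht

/-- The disjoint sum. -/
noncomputable def sm (A B : M) : M := un (pd A (pr GL.em GL.em)) (pd B (pr (sc GL.em) (sc GL.em)))

theorem sm.dt : DT (fun w : Fin 2 → M => sm (w 0) (w 1)) := by
  unfold sm; simp (maxDischargeDepth := 50)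

@[simp] theorem dt_sm {n : ℕ} {s t : (Fin n → M) → M} (hs : DT s) (ht : DT t) :
    DT (fun v => sm (s v) (t v)) := dt2 sm.dt hs ht

/-- The set `D × k + l`. -/
noncomputable def Nn (D k l : M) : M := sm (pd D k) l

theorem Nn.dt : DT (fun w : Fin 3 → M => Nn (w 0) (w 1) (w 2)) := by
  unfold Nn; simp (maxDischargeDepth := 50)

@[simp] theorem dt_Nn {n : ℕ} {s t r : (Fin n → M) → M} (hs : DT s) (ht : DT t) (hr : DT r) :
    DT (fun v => Nn (s v) (t v) (r v)) := dt3 Nn.dt hs ht hr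

/-- The pair `(k, l)` is a code of `X`. -/
def Code (D k l X : M) : Prop := PS X (Nn D k l) ∧ PS (Nn D k l) X

theorem Code.dfn : Dfn (fun w : Fin 4 → M => Code (w 0) (w 1) (w 2) (w 3)) := by
  unfold Code; simp (maxDischargeDepth := 50)

@[simp] theorem dfn_Code {n : ℕ} {s t r q : (Fin n → M) → M} (hs : DT s) (ht : DT t)
    (hr : DT r) (hq : DT q) : Dfn (fun v => Code (s v) (t v) (r v) (q v)) :=
  dfn4 Code.dfn hs ht hr hq

/-- `V` is well-orderable: it is covered by the image of an ordinal. -/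
def WO (V : M) : Prop := ∃ α, Ord α ∧ PS V α

theorem WO.dfn : Dfn (fun w : Fin 1 → M => WO (w 0)) := by
  unfold WO; simp (maxDischargeDepth := 50)

@[simp] theorem dfn_WO {n : ℕ} {s : (Fin n → M) → M} (hs : DT s) :
    Dfn (fun v => WO (s v)) := dfn1 WO.dfn hs

/-! ### Coverings -/

theorem ps_of_fun {X Y : M} {F : M → M} (hF : DT (fun w : Fin 1 → M => F (w 0)))
    (h : ∀ x, x ∈ X → ∃ y, y ∈ Y ∧ F y = x) : PS X Y := by
  refine ⟨lam Y F, fn_lam hF, fun x hx => ?_⟩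
  obtain ⟨y, hy, hyx⟩ := h x hx
  exact ⟨y, hy, by rw [ap_lam hF hy, hyx]⟩

theorem ps_of_sb {X Y : M} (h : Sb X Y) : PS X Y :=
  ps_of_fun (F := fun x => x) (by simp) fun x hx => ⟨x, h x hx, rfl⟩

theorem PS.refl (X : M) : PS X X := ps_of_sb (Sb.refl X)

theorem ps_em (Y : M) : PS GL.em Y := ps_of_sb fun _ hx => (not_mem_em _ hx).elim

theorem PS.trans {X Y Z : M} (h : PS X Y) (h' : PS Y Z) : PS X Z := by
  obtain ⟨f, hf, hfX⟩ := h
  obtain ⟨g, hg, hgY⟩ := h'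
  refine ps_of_fun (F := fun z => ap f (ap g z)) (by simp (maxDischargeDepth := 50))
    fun x hx => ?_
  obtain ⟨y, hy, hyx⟩ := hfX x hx
  obtain ⟨z, hz, hzy⟩ := hgY y hy
  exact ⟨z, hz, by rw [hzy, hyx]⟩

theorem PS.mono {X X' Y Y' : M} (h : PS X Y) (hX : Sb X' X) (hY : Sb Y Y') : PS X' Y' :=
  (ps_of_sb hX).trans (h.trans (ps_of_sb hY))

/-- A definable injection from `X` to `Y` gives a covering of `X` by `Y`. -/
theorem ps_of_inj {X Y : M} {F : M → M} (hF : DT (fun w : Fin 1 → M => F (w 0)))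
    (h : ∀ x, x ∈ X → F x ∈ Y) (hinj : ∀ x, x ∈ X → ∀ x', x' ∈ X → F x = F x' → x = x') :
    PS X Y := by
  have hF' : ∀ {n : ℕ} {s : (Fin n → M) → M}, DT s → DT fun v => F (s v) :=
    fun hs => dt1 hF hs
  refine ps_of_fun (F := fun y => sU (sp X fun x => F x = y)) ?_ fun x hx => ⟨F x, h x hx, ?_⟩
  · refine dt_sU (dt_sp (P := fun (w : Fin 1 → M) x => F x = w 0) (DT.const X) ?_)
    exact Dfn.eq (hF' (DT.var 0)) (DT.var 1)
  · have hm : ∀ z, z ∈ sp X (fun x' => F x' = F x) ↔ z ∈ X ∧ F z = F x := fun z => by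
      refine mem_sp (P := fun x' => F x' = F x) ?_
      exact Dfn.eq (hF' (DT.var 0)) (DT.const _)
    refine ext' fun z => ?_
    rw [mem_sU]
    constructor
    · rintro ⟨y, hy, hz⟩
      obtain ⟨hyX, hyx⟩ := (hm y).1 hy
      rwa [← hinj y hyX x hx hyx]
    · intro hz
      exact ⟨x, (hm x).2 ⟨hx, rfl⟩, hz⟩

/-! ### Pairs -/

/-- The first component. -/
noncomputable def p1 (z : M) : M := cp fun u => ∃ x y, z = op x y ∧ u ∈ x

/-- The second component. -/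
noncomputable def p2 (z : M) : M := cp fun u => ∃ x y, z = op x y ∧ u ∈ y

theorem p1.dt : DT (fun w : Fin 1 → M => p1 (w 0)) := by
  unfold p1; simp (maxDischargeDepth := 50)

@[simp] theorem dt_p1 {n : ℕ} {s : (Fin n → M) → M} (hs : DT s) :
    DT (fun v => p1 (s v)) := dt1 p1.dt hs

theorem p2.dt : DT (fun w : Fin 1 → M => p2 (w 0)) := by
  unfold p2; simp (maxDischargeDepth := 50)

@[simp] theorem dt_p2 {n : ℕ} {s : (Fin n → M) → M} (hs : DT s) :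
    DT (fun v => p2 (s v)) := dt1 p2.dt hs

@[simp] theorem p1_op (x y : M) : p1 (op x y) = x := by
  have h : ∀ u, u ∈ x ↔ ∃ x' y', op x y = op x' y' ∧ u ∈ x' := by
    intro u
    constructor
    · intro hu
      exact ⟨x, y, rfl, hu⟩
    · rintro ⟨x', y', h, hu⟩
      rwa [(op_inj.1 h).1]
  exact ext' fun u => by rw [h u]; exact mem_cp ⟨x, h⟩

@[simp] theorem p2_op (x y : M) : p2 (op x y) = y := by
  have h : ∀ u, u ∈ y ↔ ∃ x' y', op x y = op x' y' ∧ u ∈ y' := by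
    intro u
    constructor
    · intro hu
      exact ⟨x, y, rfl, hu⟩
    · rintro ⟨x', y', h, hu⟩
      rwa [(op_inj.1 h).2]
  exact ext' fun u => by rw [h u]; exact mem_cp ⟨y, h⟩

theorem ps_pd {A A' B B' : M} (h : PS A A') (h' : PS B B') : PS (pd A B) (pd A' B') := by
  obtain ⟨f, hf, hfA⟩ := h
  obtain ⟨g, hg, hgB⟩ := h'
  refine ps_of_fun (F := fun z => op (ap f (p1 z)) (ap g (p2 z)))
    (by simp (maxDischargeDepth := 50)) fun x hx => ?_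
  obtain ⟨a, ha, b, hb, rfl⟩ := mem_pd.1 hx
  obtain ⟨a', ha', haa⟩ := hfA a ha
  obtain ⟨b', hb', hbb⟩ := hgB b hb
  exact ⟨op a' b', op_mem_pd.2 ⟨ha', hb'⟩, by rw [p1_op, p2_op, haa, hbb]⟩

/-! ### Sums -/

theorem sc_em_ne : (sc GL.em : M) ≠ GL.em := sc_ne_em GL.em

theorem mem_sm {A B z : M} :
    z ∈ sm A B ↔ (∃ a, a ∈ A ∧ z = op a GL.em) ∨ ∃ b, b ∈ B ∧ z = op b (sc GL.em) := by
  unfold sm
  rw [mem_un, mem_pd, mem_pd]
  constructor
  · rintro (⟨a, ha, y, hy, rfl⟩ | ⟨a, ha, y, hy, rfl⟩)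
    · exact Or.inl ⟨a, ha, by rw [show y = GL.em by simpa using hy]⟩
    · exact Or.inr ⟨a, ha, by rw [show y = sc GL.em by simpa using hy]⟩
  · rintro (⟨a, ha, rfl⟩ | ⟨a, ha, rfl⟩)
    · exact Or.inl ⟨a, ha, GL.em, by simp, rfl⟩
    · exact Or.inr ⟨a, ha, sc GL.em, by simp, rfl⟩

@[simp] theorem op_em_mem_sm {A B a : M} : op a GL.em ∈ sm A B ↔ a ∈ A := by
  rw [mem_sm]
  constructor
  · rintro (⟨a', ha, h⟩ | ⟨a', ha, h⟩)
    · rwa [(op_inj.1 h).1]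
    · exact (sc_em_ne (op_inj.1 h).2.symm).elim
  · intro h
    exact Or.inl ⟨a, h, rfl⟩

@[simp] theorem op_sc_mem_sm {A B b : M} : op b (sc GL.em) ∈ sm A B ↔ b ∈ B := by
  rw [mem_sm]
  constructor
  · rintro (⟨a', ha, h⟩ | ⟨a', ha, h⟩)
    · exact (sc_em_ne (op_inj.1 h).2).elim
    · rwa [(op_inj.1 h).1]
  · intro h
    exact Or.inr ⟨b, h, rfl⟩

theorem ps_sm_left (A B : M) : PS A (sm A B) :=
  ps_of_fun (F := p1) p1.dt fun x hx => ⟨op x GL.em, op_em_mem_sm.2 hx, p1_op _ _⟩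

theorem ps_sm_right (A B : M) : PS B (sm A B) :=
  ps_of_fun (F := p1) p1.dt fun x hx => ⟨op x (sc GL.em), op_sc_mem_sm.2 hx, p1_op _ _⟩

theorem ps_sm {A A' B B' : M} (h : PS A A') (h' : PS B B') : PS (sm A B) (sm A' B') := by
  classical
  obtain ⟨f, hf, hfA⟩ := h
  obtain ⟨g, hg, hgB⟩ := h'
  refine ps_of_fun (F := fun z => if p2 z = GL.em then op (ap f (p1 z)) GL.em
      else op (ap g (p1 z)) (sc GL.em)) ?_ fun x hx => ?_
  · refine DT.ite (P := fun w : Fin 1 → M => p2 (w 0) = GL.em) (by simp (maxDischargeDepth := 50))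
      (by simp (maxDischargeDepth := 50)) (by simp (maxDischargeDepth := 50))
  rcases mem_sm.1 hx with ⟨a, ha, rfl⟩ | ⟨b, hb, rfl⟩
  · obtain ⟨a', ha', haa⟩ := hfA a ha
    refine ⟨op a' GL.em, op_em_mem_sm.2 ha', ?_⟩
    rw [if_pos (p2_op _ _), p1_op, haa]
  · obtain ⟨b', hb', hbb⟩ := hgB b hb
    refine ⟨op b' (sc GL.em), op_sc_mem_sm.2 hb', ?_⟩
    rw [if_neg (by rw [p2_op]; exact sc_em_ne), p1_op, hbb]

/-- A set covered by two sets is covered by their sum. -/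
theorem ps_sm_of_cover {X X1 X2 A B : M} (h : ∀ x, x ∈ X → x ∈ X1 ∨ x ∈ X2) (h1 : PS X1 A)
    (h2 : PS X2 B) : PS X (sm A B) := by
  refine PS.trans (Y := sm X1 X2) ?_ (ps_sm h1 h2)
  refine ps_of_fun (F := p1) p1.dt fun x hx => ?_
  rcases h x hx with hx | hx
  · exact ⟨op x GL.em, op_em_mem_sm.2 hx, p1_op _ _⟩
  · exact ⟨op x (sc GL.em), op_sc_mem_sm.2 hx, p1_op _ _⟩

/-- A sum is covered by the disjoint union of coverings of the parts. -/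
theorem sm_ps_of_disjoint {X X1 X2 A B : M} (hX1 : Sb X1 X) (hX2 : Sb X2 X)
    (hd : ∀ x, x ∈ X1 → x ∉ X2) (h1 : PS A X1) (h2 : PS B X2) : PS (sm A B) X := by
  classical
  refine PS.trans (Y := sm X1 X2) (ps_sm h1 h2) ?_
  refine ps_of_fun (F := fun z => if z ∈ X1 then op z GL.em else op z (sc GL.em)) ?_ fun x hx => ?_
  · refine DT.ite (P := fun w : Fin 1 → M => w 0 ∈ X1) (by simp) (by simp) (by
      simp (maxDischargeDepth := 50))
  rcases mem_sm.1 hx with ⟨a, ha, rfl⟩ | ⟨b, hb, rfl⟩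
  · exact ⟨a, hX1 a ha, if_pos ha⟩
  · exact ⟨b, hX2 b hb, if_neg fun hb' => hd b hb' hb⟩

/-- A set covered by a sum is the union of two sets covered by the parts. -/
theorem PS.of_sum {X A B : M} (h : PS X (sm A B)) :
    ∃ X1 X2, Sb X1 X ∧ Sb X2 X ∧ (∀ x, x ∈ X → x ∈ X1 ∨ x ∈ X2) ∧ PS X1 A ∧ PS X2 B := by
  obtain ⟨f, hf, hfX⟩ := h
  have hd1 : Dfn (fun w : Fin 1 → M => ∃ a, a ∈ A ∧ ap f (op a GL.em) = w 0) := by
    simp (maxDischargeDepth := 50)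
  have hd2 : Dfn (fun w : Fin 1 → M => ∃ a, a ∈ B ∧ ap f (op a (sc GL.em)) = w 0) := by
    simp (maxDischargeDepth := 50)
  refine ⟨sp X fun x => ∃ a, a ∈ A ∧ ap f (op a GL.em) = x,
    sp X fun x => ∃ a, a ∈ B ∧ ap f (op a (sc GL.em)) = x, fun x hx => ((mem_sp hd1).1 hx).1,
    fun x hx => ((mem_sp hd2).1 hx).1, fun x hx => ?_, ?_, ?_⟩
  · obtain ⟨y, hy, hyx⟩ := hfX x hx
    rcases mem_sm.1 hy with ⟨a, ha, rfl⟩ | ⟨b, hb, rfl⟩
    · exact Or.inl ((mem_sp hd1).2 ⟨hx, a, ha, hyx⟩)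
    · exact Or.inr ((mem_sp hd2).2 ⟨hx, b, hb, hyx⟩)
  · exact ps_of_fun (F := fun a => ap f (op a GL.em)) (by simp (maxDischargeDepth := 50))
      fun x hx => ((mem_sp hd1).1 hx).2
  · exact ps_of_fun (F := fun a => ap f (op a (sc GL.em))) (by simp (maxDischargeDepth := 50))
      fun x hx => ((mem_sp hd2).1 hx).2

theorem Nn_mono {D k l k' l' : M} (h : Sb k k') (h' : Sb l l') :
    PS (Nn D k l) (Nn D k' l') :=
  ps_sm (ps_pd (PS.refl D) (ps_of_sb h)) (ps_of_sb h')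

/-! ### Well-orderable sets -/

theorem WO.of_ps {X Y : M} (h : PS X Y) (hY : WO Y) : WO X := by
  obtain ⟨α, hα, hα'⟩ := hY
  exact ⟨α, hα, h.trans hα'⟩

theorem WO.mono {X Y : M} (h : Sb X Y) (hY : WO Y) : WO X := WO.of_ps (ps_of_sb h) hY

theorem wo_ord {α : M} (h : Ord α) : WO α := ⟨α, h, PS.refl α⟩

/-- A set with a well-ordering is isomorphic to an ordinal. -/
theorem exists_otp {X r : M} (hwf : Wf X r)
    (htr : ∀ x, x ∈ X → ∀ y, y ∈ X → ∀ z, z ∈ X → op x y ∈ r → op y z ∈ r → op x z ∈ r)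
    (htot : ∀ x, x ∈ X → ∀ y, y ∈ X → x = y ∨ op x y ∈ r ∨ op y x ∈ r) :
    ∃ α c : M, Ord α ∧ Fn c X ∧ (∀ x, x ∈ X → ap c x ∈ α) ∧ (∀ i, i ∈ α → ∃ x, x ∈ X ∧ ap c x = i) ∧
      ∀ x, x ∈ X → ∀ y, y ∈ X → ap c x = ap c y → x = y := by
  obtain ⟨c, hc, hcz⟩ := exists_collapse hwf
  have hd : DT (fun w : Fin 1 → M => ap c (w 0)) := by simp (maxDischargeDepth := 50)
  have hTr : ∀ x, x ∈ X → Tr (ap c x) := by
    intro x hx z hz u hu
    obtain ⟨y, hy, hyr, rfl⟩ := (hcz x hx z).1 hz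
    obtain ⟨y', hy', hyr', rfl⟩ := (hcz y hy u).1 hu
    exact (hcz x hx _).2 ⟨y', hy', htr y' hy' y hy x hx hyr' hyr, rfl⟩
  have hα : Ord (im X (ap c)) := by
    refine ⟨fun z hz u hu => ?_, fun z hz => ?_⟩
    · obtain ⟨x, hx, rfl⟩ := (mem_im hd).1 hz
      obtain ⟨y, hy, -, rfl⟩ := (hcz x hx u).1 hu
      exact (mem_im hd).2 ⟨y, hy, rfl⟩
    · obtain ⟨x, hx, rfl⟩ := (mem_im hd).1 hz
      exact hTr x hx
  refine ⟨im X (ap c), c, hα, hc, fun x hx => (mem_im hd).2 ⟨x, hx, rfl⟩, fun i hi => ?_,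
    fun x hx y hy hxy => ?_⟩
  · obtain ⟨x, hx, rfl⟩ := (mem_im hd).1 hi
    exact ⟨x, hx, rfl⟩
  · rcases htot x hx y hy with h | h | h
    · exact h
    · have : ap c x ∈ ap c y := (hcz y hy _).2 ⟨x, hx, h, rfl⟩
      rw [hxy] at this
      exact (not_mem_self _ this).elim
    · have : ap c y ∈ ap c x := (hcz x hx _).2 ⟨y, hy, h, rfl⟩
      rw [hxy] at this
      exact (not_mem_self _ this).elim

/-- The same for a definable well-ordering. -/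
theorem exists_otp' {X : M} {R : M → M → Prop}
    (hR : Dfn (fun w : Fin 2 → M => R (w 0) (w 1)))
    (hwf : ∀ S, Sb S X → (∃ x, x ∈ S) → ∃ m, m ∈ S ∧ ∀ y, y ∈ S → ¬ R y m)
    (htr : ∀ x, x ∈ X → ∀ y, y ∈ X → ∀ z, z ∈ X → R x y → R y z → R x z)
    (htot : ∀ x, x ∈ X → ∀ y, y ∈ X → x = y ∨ R x y ∨ R y x) :
    ∃ α, Ord α ∧ PS X α ∧ PS α X := by
  have hR' : ∀ {n : ℕ} {s t : (Fin n → M) → M}, DT s → DT t → Dfn fun v => R (s v) (t v) :=
    fun hs ht => dfn2 hR hs ht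
  have hd : Dfn (fun w : Fin 1 → M => ∃ x y, w 0 = op x y ∧ R x y) := by
    simp (maxDischargeDepth := 50) [hR']
  let r : M := sp (pd X X) fun z => ∃ x y, z = op x y ∧ R x y
  have hr : ∀ x y, op x y ∈ r ↔ (x ∈ X ∧ y ∈ X) ∧ R x y := by
    intro x y
    show op x y ∈ sp (pd X X) (fun z => ∃ x y, z = op x y ∧ R x y) ↔ _
    rw [mem_sp hd, op_mem_pd]
    refine and_congr_right fun _ => ?_
    constructor
    · rintro ⟨x', y', h, h'⟩
      obtain ⟨rfl, rfl⟩ := op_inj.1 h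
      exact h'
    · intro h
      exact ⟨x, y, rfl, h⟩
  obtain ⟨α, c, hα, hc, h1, h2, h3⟩ := exists_otp (X := X) (r := r)
    (fun S hS hne => by
      obtain ⟨m, hm, hmin⟩ := hwf S hS hne
      exact ⟨m, hm, fun y hy h => hmin y hy ((hr y m).1 h).2⟩)
    (fun x hx y hy z hz hxy hyz => (hr x z).2 ⟨⟨hx, hz⟩,
      htr x hx y hy z hz ((hr x y).1 hxy).2 ((hr y z).1 hyz).2⟩)
    (fun x hx y hy => by
      rcases htot x hx y hy with h | h | h
      · exact Or.inl h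
      · exact Or.inr (Or.inl ((hr x y).2 ⟨⟨hx, hy⟩, h⟩))
      · exact Or.inr (Or.inr ((hr y x).2 ⟨⟨hy, hx⟩, h⟩)))
  exact ⟨α, hα, ps_of_inj (F := ap c) (by simp (maxDischargeDepth := 50)) h1 h3, c, hc, h2⟩

/-- Every well-orderable set is equivalent to an ordinal. -/
theorem WO.exists_ord {X : M} (h : WO X) : ∃ α, Ord α ∧ PS X α ∧ PS α X := by
  obtain ⟨β, hβ, f, hf, hfX⟩ := h
  -- the least preimage
  have hF : DT (fun w : Fin 1 → M => mu fun i => i ∈ β ∧ ap f i = w 0) := by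
    refine dt_mu (P := fun (v : Fin 1 → M) i => i ∈ β ∧ ap f i = v 0) ?_
    simp (maxDischargeDepth := 50)
  let F : M → M := fun x => mu fun i => i ∈ β ∧ ap f i = x
  have hF' : ∀ {n : ℕ} {s : (Fin n → M) → M}, DT s → DT fun v => F (s v) :=
    fun hs => dt1 hF hs
  have hFs : ∀ x, x ∈ X → F x ∈ β ∧ ap f (F x) = x := by
    intro x hx
    obtain ⟨i, hi, hix⟩ := hfX x hx
    exact (mu_spec (P := fun i => i ∈ β ∧ ap f i = x) (by simp (maxDischargeDepth := 50))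
      ⟨i, hβ.mem hi, hi, hix⟩).2.1
  have hinj : ∀ x, x ∈ X → ∀ y, y ∈ X → F x = F y → x = y := by
    intro x hx y hy hxy
    rw [← (hFs x hx).2, ← (hFs y hy).2, hxy]
  refine exists_otp' (X := X) (R := fun x y => F x ∈ F y)
    (Dfn.mem (hF' (DT.var 0)) (hF' (DT.var 1))) ?_ ?_ ?_
  · rintro S hS ⟨x, hx⟩
    have hd1 : DT (fun w : Fin 1 → M => F (w 0)) := hF
    obtain ⟨i, hi, hmin⟩ := IsZF.found (im S F) ⟨F x, (mem_im hd1).2 ⟨x, hx, rfl⟩⟩
    obtain ⟨m, hm, rfl⟩ := (mem_im hd1).1 hi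
    exact ⟨m, hm, fun y hy h => hmin _ h ((mem_im hd1).2 ⟨y, hy, rfl⟩)⟩
  · intro x hx y hy z hz hxy hyz
    exact (hβ.mem (hFs z hz).1).trans hxy hyz
  · intro x hx y hy
    rcases (hβ.mem (hFs x hx).1).tri (hβ.mem (hFs y hy).1) with h | h | h
    · exact Or.inr (Or.inl h)
    · exact Or.inl (hinj x hx y hy h)
    · exact Or.inr (Or.inr h)

theorem wo_pd_ord {α β : M} (hα : Ord α) (hβ : Ord β) : WO (pd α β) := by
  suffices h : ∃ γ, Ord γ ∧ PS (pd α β) γ ∧ PS γ (pd α β) by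
    obtain ⟨γ, hγ, h, -⟩ := h
    exact ⟨γ, hγ, h⟩
  refine exists_otp' (X := pd α β)
    (R := fun x y => p1 x ∈ p1 y ∨ (p1 x = p1 y ∧ p2 x ∈ p2 y))
    (by simp (maxDischargeDepth := 50)) ?_ ?_ ?_
  · rintro S hS ⟨x, hx⟩
    obtain ⟨i, hi, hmin⟩ := IsZF.found (im S p1) ⟨p1 x, (mem_im p1.dt).2 ⟨x, hx, rfl⟩⟩
    obtain ⟨m, hm, rfl⟩ := (mem_im p1.dt).1 hi
    have hd : Dfn (fun w : Fin 1 → M => p1 (w 0) = p1 m) := by
      simp (maxDischargeDepth := 50)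
    obtain ⟨j, hj, hmin'⟩ := IsZF.found (im (sp S fun y => p1 y = p1 m) p2)
      ⟨p2 m, (mem_im p2.dt).2 ⟨m, (mem_sp hd).2 ⟨hm, rfl⟩, rfl⟩⟩
    obtain ⟨m', hm', rfl⟩ := (mem_im p2.dt).1 hj
    rw [mem_sp hd] at hm'
    refine ⟨m', hm'.1, fun y hy h => ?_⟩
    rcases h with h | ⟨h, h'⟩
    · rw [hm'.2] at h
      exact hmin _ h ((mem_im p1.dt).2 ⟨y, hy, rfl⟩)
    · exact hmin' _ h' ((mem_im p2.dt).2 ⟨y, (mem_sp hd).2 ⟨hy, h.trans hm'.2⟩, rfl⟩)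
  · intro x hx y hy z hz hxy hyz
    obtain ⟨a, ha, b, hb, rfl⟩ := mem_pd.1 hx
    obtain ⟨a', ha', b', hb', rfl⟩ := mem_pd.1 hy
    obtain ⟨a'', ha'', b'', hb'', rfl⟩ := mem_pd.1 hz
    simp only [p1_op, p2_op] at hxy hyz ⊢
    rcases hxy with h1 | ⟨rfl, h1⟩
    · rcases hyz with h2 | ⟨rfl, h2⟩
      · exact Or.inl ((hα.mem ha'').trans h1 h2)
      · exact Or.inl h1
    · rcases hyz with h2 | ⟨rfl, h2⟩
      · exact Or.inl h2
      · exact Or.inr ⟨rfl, (hβ.mem hb'').trans h1 h2⟩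
  · intro x hx y hy
    obtain ⟨a, ha, b, hb, rfl⟩ := mem_pd.1 hx
    obtain ⟨a', ha', b', hb', rfl⟩ := mem_pd.1 hy
    simp only [p1_op, p2_op]
    rcases (hα.mem ha).tri (hα.mem ha') with h | rfl | h
    · exact Or.inr (Or.inl (Or.inl h))
    · rcases (hβ.mem hb).tri (hβ.mem hb') with h | rfl | h
      · exact Or.inr (Or.inl (Or.inr ⟨rfl, h⟩))
      · exact Or.inl rfl
      · exact Or.inr (Or.inr (Or.inr ⟨rfl, h⟩))
    · exact Or.inr (Or.inr (Or.inl h))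

theorem wo_pd {X Y : M} (h : WO X) (h' : WO Y) : WO (pd X Y) := by
  obtain ⟨α, hα, h⟩ := h
  obtain ⟨β, hβ, h'⟩ := h'
  exact WO.of_ps (ps_pd h h') (wo_pd_ord hα hβ)

theorem wo_two : WO (sc (sc GL.em) : M) := wo_ord (ord_sc (ord_sc ord_em))

theorem wo_sm {X Y : M} (h : WO X) (h' : WO Y) : WO (sm X Y) := by
  obtain ⟨α, hα, h⟩ := h
  obtain ⟨β, hβ, h'⟩ := h'
  refine WO.of_ps (ps_sm h h') (WO.mono (Y := pd (un α β) (sc (sc GL.em))) (fun z hz => ?_)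
    (wo_pd_ord (ord_un hα hβ) (ord_sc (ord_sc ord_em))))
  rcases mem_sm.1 hz with ⟨a, ha, rfl⟩ | ⟨b, hb, rfl⟩
  · exact op_mem_pd.2 ⟨mem_un.2 (Or.inl ha), by simp⟩
  · exact op_mem_pd.2 ⟨mem_un.2 (Or.inr hb), by simp⟩

theorem wo_un {X Y : M} (h : WO X) (h' : WO Y) : WO (un X Y) :=
  WO.of_ps (ps_sm_of_cover (fun _ hx => mem_un.1 hx) (PS.refl X) (PS.refl Y)) (wo_sm h h')

end Pool.Agent.ZFW
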