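import Pool.Agent.ZFW.Br
import Pool.Agent.ZFW.Ps

/-!
# MP_831107_lc, second theorem : the definitions shared by the blocks

`k` is an ordinal and `s` is a function on `k` (the family `X_a`, `a < k`).
-/

universe u

set_option linter.unusedSectionVars false

namespace Pool.Agent.ZFW

open Pool.Agent.SigB Pool.Agent.GL

section

variable {M : Type u} [Membership M M]

/-- Choice for families indexed by `k`, over the language of sets only: every function `s` with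
domain `k` whose values are nonempty has a choice function. -/
def ACk (k : M) : Prop :=
  ∀ s : M, IsSeq s k → (∀ a X, a ∈ k → Val s a X → ∃ x, x ∈ X) →
    ∃ c : M, IsSeq c k ∧ ∀ a X x, a ∈ k → Val s a X → Val c a x → x ∈ X

end

variable {M : Type u} [Membership M M] [GL.IsZF M]

/-- Choice for families indexed by `k`. -/
def Acf (k : M) : Prop :=
  ∀ s, Fn s k → (∀ a, a ∈ k → ∃ x, x ∈ ap s a) → ∃ c, Fn c k ∧ ∀ a, a ∈ k → ap c a ∈ ap s a

theorem Acf.dfn : Dfn (fun w : Fin 1 → M => Acf (w 0)) := by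
  unfold Acf; simp (maxDischargeDepth := 50)

@[simp] theorem dfn_Acf {n : ℕ} {s : (Fin n → M) → M} (hs : DT s) :
    Dfn (fun v => Acf (s v)) := dfn1 Acf.dfn hs

theorem ack_iff {k : M} : ACk k ↔ Acf k := by
  constructor
  · intro h s hs hne
    obtain ⟨c, hc, hc'⟩ := h s (isSeq_iff.2 hs) fun a X ha hX => by
      obtain ⟨-, rfl⟩ := (val_fn hs).1 hX
      exact hne a ha
    rw [isSeq_iff] at hc
    exact ⟨c, hc, fun a ha => hc' a _ _ ha ((val_fn hs).2 ⟨ha, rfl⟩) ((val_fn hc).2 ⟨ha, rfl⟩)⟩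
  · intro h s hs hne
    rw [isSeq_iff] at hs
    obtain ⟨c, hc, hc'⟩ := h s hs fun a ha => hne a _ ha ((val_fn hs).2 ⟨ha, rfl⟩)
    refine ⟨c, isSeq_iff.2 hc, fun a X x ha hX hx => ?_⟩
    obtain ⟨-, rfl⟩ := (val_fn hs).1 hX
    obtain ⟨-, rfl⟩ := (val_fn hc).1 hx
    exact hc' a ha

/-- The set of pairs `(a, p)` where `a ∈ k` and `p` is a choice function of the family
`(s_b : b < a)`. The level of such a pair `u` is `p1 u`, its function is `p2 u`. -/
noncomputable def PP (k s : M) : M :=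
  cp fun u => ∃ a p, u = op a p ∧ a ∈ k ∧ Fn p a ∧ ∀ b, b ∈ a → ap p b ∈ ap s b

theorem PP.dt : DT (fun w : Fin 2 → M => PP (w 0) (w 1)) := by
  unfold PP; simp (maxDischargeDepth := 50)

@[simp] theorem dt_PP {n : ℕ} {s t : (Fin n → M) → M} (hs : DT s) (ht : DT t) :
    DT (fun v => PP (s v) (t v)) := dt2 PP.dt hs ht

theorem mem_PP {k s u : M} (hk : Ord k) :
    u ∈ PP k s ↔ ∃ a p, u = op a p ∧ a ∈ k ∧ Fn p a ∧ ∀ b, b ∈ a → ap p b ∈ ap s b := by
  unfold PP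
  refine mem_cp' (by simp (maxDischargeDepth := 50)) ?_
  have hd : DT (fun w : Fin 1 → M => ap s (w 0)) := by simp (maxDischargeDepth := 50)
  refine ⟨pd k (pw (pd k (sU (im k (ap s))))), ?_⟩
  rintro u ⟨a, p, rfl, ha, hp, hps⟩
  refine op_mem_pd.2 ⟨ha, mem_pw.2 fun z hz => ?_⟩
  obtain ⟨b, hb, rfl⟩ := hp.mem_iff.1 hz
  have hbk : b ∈ k := hk.trans hb ha
  exact op_mem_pd.2 ⟨hbk, mem_sU.2 ⟨ap s b, (mem_im hd).2 ⟨b, hbk, rfl⟩, hps b hb⟩⟩

theorem op_mem_PP {k s a p : M} (hk : Ord k) :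
    op a p ∈ PP k s ↔ a ∈ k ∧ Fn p a ∧ ∀ b, b ∈ a → ap p b ∈ ap s b := by
  rw [mem_PP hk]
  constructor
  · rintro ⟨a', p', h, h1⟩
    obtain ⟨rfl, rfl⟩ := op_inj.1 h
    exact h1
  · intro h
    exact ⟨a, p, rfl, h⟩

theorem PP.eq_op {k s u : M} (hk : Ord k) (hu : u ∈ PP k s) : u = op (p1 u) (p2 u) := by
  obtain ⟨a, p, rfl, -⟩ := (mem_PP hk).1 hu
  rw [p1_op, p2_op]

theorem PP.p1_mem {k s u : M} (hk : Ord k) (hu : u ∈ PP k s) : p1 u ∈ k := by
  obtain ⟨a, p, rfl, ha, -⟩ := (mem_PP hk).1 hu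
  rwa [p1_op]

theorem PP.fn {k s u : M} (hk : Ord k) (hu : u ∈ PP k s) : Fn (p2 u) (p1 u) := by
  obtain ⟨a, p, rfl, ha, hp, -⟩ := (mem_PP hk).1 hu
  rwa [p1_op, p2_op]

theorem PP.ap_mem {k s u b : M} (hk : Ord k) (hu : u ∈ PP k s) (hb : b ∈ p1 u) :
    ap (p2 u) b ∈ ap s b := by
  obtain ⟨a, p, rfl, ha, hp, h⟩ := (mem_PP hk).1 hu
  rw [p1_op] at hb
  rw [p2_op]
  exact h b hb

/-- `B` is small: some function raises the level of all elements of `PP k s` whose level is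
in `B`. -/
def RG (k s B : M) : Prop :=
  ∃ psi, ∀ u, u ∈ PP k s → p1 u ∈ B → ap psi u ∈ PP k s ∧ p1 u ∈ p1 (ap psi u)

theorem RG.dfn : Dfn (fun w : Fin 3 → M => RG (w 0) (w 1) (w 2)) := by
  unfold RG; simp (maxDischargeDepth := 50)

@[simp] theorem dfn_RG {n : ℕ} {s t r : (Fin n → M) → M} (hs : DT s) (ht : DT t) (hr : DT r) :
    Dfn (fun v => RG (s v) (t v) (r v)) := dfn3 RG.dfn hs ht hr

/-- To show that `B` is small it is enough to have a definable function. -/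
theorem RG.of_dt {k s B : M} {F : M → M} (hF : DT (fun w : Fin 1 → M => F (w 0)))
    (h : ∀ u, u ∈ PP k s → p1 u ∈ B → F u ∈ PP k s ∧ p1 u ∈ p1 (F u)) : RG k s B := by
  refine ⟨lam (PP k s) F, fun u hu hB => ?_⟩
  rw [ap_lam hF hu]
  exact h u hu hB

end Pool.Agent.ZFW
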