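import Pool.Agent.ZFW.Reduce
import Pool.Agent.ZFW.BDef

/-!
# MP_831107_lc, second theorem : `WF^i_i4` is the weakest of the principles with `y ≠ s`
-/

universe u

set_option linter.unusedSectionVars false

namespace Pool.Agent.ZFW

open Pool.Agent.SigB Pool.Agent.GL

variable {M : Type u} [Membership M M] [GL.IsZF M]

theorem EqCard.refl (X : M) : EqCard X X :=
  eqCard_iff.2 ⟨idn X, idn_mem_fs (Sb.refl X), fun x y hx hy h => by rwa [ap_idn hx, ap_idn hy] at h,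
    fun y hy => ⟨y, hy, ap_idn hy⟩⟩

theorem relY_le {y : Iy} (hy : y ≠ Iy.s) {X Y : M} (h : RelY y X Y) : Le X Y := by
  cases y with
  | i => exact h
  | s => exact (hy rfl).elim
  | b => exact EqCard.le h

theorem isCode_single (A : M) : IsCode (pr A A) := by
  refine ⟨⟨A, by simp⟩, fun X Y hX hY => ?_⟩
  have h1 : X = A := by simpa using hX
  have h2 : Y = A := by simpa using hY
  rw [h1, h2]
  exact EqCard.refl A

theorem crel_single {y : Iy} {A B : M} : CRel y (pr A A) (pr B B) ↔ RelY y A B := by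
  constructor
  · rintro ⟨X, Y, hX, hY, h⟩
    have h1 : X = A := by simpa using hX
    have h2 : Y = B := by simpa using hY
    rwa [h1, h2] at h
  · intro h
    exact ⟨A, B, by simp, by simp, h⟩

theorem cprec_single {x : Ix} {A B : M} : CPrec x (pr A A) (pr B B) ↔ Prec x A B := by
  constructor
  · rintro ⟨X, Y, hX, hY, h⟩
    have h1 : X = A := by simpa using hX
    have h2 : Y = B := by simpa using hY
    rwa [h1, h2] at h
  · intro h
    exact ⟨A, B, by simp, by simp, h⟩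

theorem wf3_of_wf1 {x : Ix} {y : Iy} (h : WF1 M x y) : WF3 M x y := by
  intro w s hw hs hprec
  obtain rfl := isOmega_iff.1 hw
  have hs' := isSeq_iff.1 hs
  have hd : DT (fun w : Fin 1 → M => pr (ap s (w 0)) (ap s (w 0))) := by
    simp (maxDischargeDepth := 50)
  have hv : ∀ n, n ∈ (om : M) → Val s n (ap s n) := fun n hn => (val_fn hs').2 ⟨hn, rfl⟩
  have hR : ∀ K, K ∈ im (om : M) (fun n => pr (ap s n) (ap s n)) ↔
      ∃ n, n ∈ (om : M) ∧ K = pr (ap s n) (ap s n) := fun K => mem_im hd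
  obtain ⟨K, hK, hmin⟩ := h (im (om : M) fun n => pr (ap s n) (ap s n))
    ⟨_, (hR _).2 ⟨_, em_mem_om, rfl⟩⟩ (fun K hK => by
      obtain ⟨n, -, rfl⟩ := (hR K).1 hK
      exact isCode_single _)
  obtain ⟨n, hn, rfl⟩ := (hR K).1 hK
  have hn' := sc_mem_om hn
  refine ⟨n, sc n, ap s n, ap s (sc n), hn, isSucc_iff.2 rfl, hv n hn, hv _ hn', ?_⟩
  exact crel_single.1 (hmin _ ((hR _).2 ⟨_, hn', rfl⟩) (cprec_single.2
    (hprec n (sc n) _ _ hn (isSucc_iff.2 rfl) (hv n hn) (hv _ hn'))))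

theorem wf3_of_wf2 {x : Ix} {y : Iy} (h : WF2 M x y) : WF3 M x y := by
  intro w s hw hs hprec
  obtain rfl := isOmega_iff.1 hw
  have hs' := isSeq_iff.1 hs
  have hd : DT (fun w : Fin 1 → M => pr (ap s (w 0)) (ap s (w 0))) := by
    simp (maxDischargeDepth := 50)
  have hv : ∀ n, n ∈ (om : M) → Val s n (ap s n) := fun n hn => (val_fn hs').2 ⟨hn, rfl⟩
  have hf : Fn (lam (om : M) fun n => pr (ap s n) (ap s n)) om := fn_lam hd
  obtain ⟨n, m, K, K', hn, hm, hK, hK', hrel⟩ := h om (lam (om : M) fun n => pr (ap s n) (ap s n)) hw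
    (isSeq_iff.2 hf) (fun n K hK => by
      obtain ⟨hn, rfl⟩ := (val_fn hf).1 hK
      rw [ap_lam hd hn]
      exact isCode_single _) (fun n m K K' hn hm hK hK' => by
      obtain ⟨-, rfl⟩ := (val_fn hf).1 hK
      obtain ⟨hm', rfl⟩ := (val_fn hf).1 hK'
      rw [ap_lam hd hn, ap_lam hd hm']
      exact cprec_single.2 (hprec n m _ _ hn hm (hv n hn) (hv m hm')))
  obtain ⟨-, rfl⟩ := (val_fn hf).1 hK
  obtain ⟨hm', rfl⟩ := (val_fn hf).1 hK'
  rw [ap_lam hd hn, ap_lam hd hm'] at hrel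
  exact ⟨n, m, _, _, hn, hm, hv n hn, hv m hm', crel_single.1 hrel⟩

theorem wf4_of_wf3 {x : Ix} {y : Iy} (h : WF3 M x y) : WF4 M x y := by
  intro w s t hw hs ht hmap
  obtain rfl := isOmega_iff.1 hw
  have ht' := isSeq_iff.1 ht
  exact h om s hw hs fun n m A A' hn hm hA hA' =>
    (hmap n m A A' (ap t n) hn hm hA hA' ((val_fn ht').2 ⟨hn, rfl⟩)).prec

theorem wf4_y {x : Ix} {y : Iy} (hy : y ≠ Iy.s) (h : WF4 M x y) : WF4 M x Iy.i := by
  intro w s t hw hs ht hmap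
  obtain ⟨n, m, A, A', hn, hm, hA, hA', hrel⟩ := h w s t hw hs ht hmap
  exact ⟨n, m, A, A', hn, hm, hA, hA', relY_le hy hrel⟩

/-! ### Adding a point -/

/-- The set `A` with one more point. -/
noncomputable def ad (A : M) : M := sm A (pr GL.em GL.em)

theorem ad.dt : DT (fun w : Fin 1 → M => ad (w 0)) := by
  unfold ad; simp (maxDischargeDepth := 50)

@[simp] theorem dt_ad {n : ℕ} {s : (Fin n → M) → M} (hs : DT s) :
    DT (fun v => ad (s v)) := dt1 ad.dt hs

/-- The new point. -/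
noncomputable def st : M := op GL.em (sc GL.em)

theorem mem_ad {A z : M} : z ∈ ad A ↔ (∃ a, a ∈ A ∧ z = op a GL.em) ∨ z = st := by
  unfold ad
  rw [mem_sm]
  refine or_congr Iff.rfl ⟨?_, ?_⟩
  · rintro ⟨b, hb, rfl⟩
    rw [show b = GL.em by simpa using hb]
    rfl
  · rintro rfl
    exact ⟨GL.em, by simp, rfl⟩

theorem st_mem_ad (A : M) : st ∈ ad A := mem_ad.2 (Or.inr rfl)

theorem op_em_ne_st (a : M) : op a GL.em ≠ st := fun h => sc_em_ne (op_inj.1 h).2.symm

theorem le_of_ad {A A' : M} (h : Le (ad A) (ad A')) : Le A A' := by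
  classical
  obtain ⟨g, hg, hgi⟩ := le_iff.1 h
  have hgm := (mem_fs.1 hg).2
  let F : M → M := fun a => if ap g (op a GL.em) = st then p1 (ap g st) else p1 (ap g (op a GL.em))
  have hF : DT (fun w : Fin 1 → M => F (w 0)) := by
    refine DT.ite (P := fun w : Fin 1 → M => ap g (op (w 0) GL.em) = st) ?_ ?_ ?_ <;>
    simp (maxDischargeDepth := 50)
  have hin : ∀ a, a ∈ A → op a GL.em ∈ ad A := fun a ha => mem_ad.2 (Or.inl ⟨a, ha, rfl⟩)
  -- the values
  have h1 : ∀ a, a ∈ A → ap g (op a GL.em) ≠ st → p1 (ap g (op a GL.em)) ∈ A' ∧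
      ap g (op a GL.em) = op (p1 (ap g (op a GL.em))) GL.em := by
    intro a ha hne
    rcases mem_ad.1 (hgm _ (hin a ha)) with ⟨a', ha', h'⟩ | h'
    · rw [h', p1_op]
      exact ⟨ha', rfl⟩
    · exact (hne h').elim
  have h2 : ∀ a, a ∈ A → ap g (op a GL.em) = st → p1 (ap g st) ∈ A' ∧
      ap g st = op (p1 (ap g st)) GL.em := by
    intro a ha he
    rcases mem_ad.1 (hgm _ (st_mem_ad A)) with ⟨a', ha', h'⟩ | h'
    · rw [h', p1_op]
      exact ⟨ha', rfl⟩
    · exact (op_em_ne_st a (hgi _ _ (hin a ha) (st_mem_ad A) (he.trans h'.symm))).elim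
  refine le_iff.2 ⟨lam A F, lam_mem_fs hF fun a ha => ?_, fun a b ha hb hab => ?_⟩
  · by_cases hc : ap g (op a GL.em) = st
    · simp only [F, if_pos hc]
      exact (h2 a ha hc).1
    · simp only [F, if_neg hc]
      exact (h1 a ha hc).1
  · rw [ap_lam hF ha, ap_lam hF hb] at hab
    by_cases hc : ap g (op a GL.em) = st <;> by_cases hc' : ap g (op b GL.em) = st
    · exact (op_inj.1 (hgi _ _ (hin a ha) (hin b hb) (hc.trans hc'.symm))).1
    · simp only [F, if_pos hc, if_neg hc'] at hab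
      have h3 : ap g st = ap g (op b GL.em) := by
        rw [(h2 a ha hc).2, (h1 b hb hc').2, hab]
      exact (op_em_ne_st b (hgi _ _ (hin b hb) (st_mem_ad A) h3.symm)).elim
    · simp only [F, if_neg hc, if_pos hc'] at hab
      have h3 : ap g st = ap g (op a GL.em) := by
        rw [(h2 b hb hc').2, (h1 a ha hc).2, hab]
      exact (op_em_ne_st a (hgi _ _ (hin a ha) (st_mem_ad A) h3.symm)).elim
    · simp only [F, if_neg hc, if_neg hc'] at hab
      have h3 : ap g (op a GL.em) = ap g (op b GL.em) := by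
        rw [(h1 a ha hc).2, (h1 b hb hc').2, hab]
      exact (op_inj.1 (hgi _ _ (hin a ha) (hin b hb) h3)).1

/-- The surjection from `ad A` onto `ad A'` given by an injection `f` from `A'` to `A`. -/
noncomputable def bk (f A A' : M) : M := lam (ad A) fun z => cp fun u =>
  (∃ a, a ∈ A' ∧ z = op (ap f a) GL.em ∧ u ∈ op a GL.em) ∨
    ((¬ ∃ a, a ∈ A' ∧ z = op (ap f a) GL.em) ∧ u ∈ (st : M))

theorem dt_st' {n : ℕ} : DT (fun _ : Fin n → M => (st : M)) := DT.const _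

theorem bk.dt : DT (fun w : Fin 3 → M => bk (w 0) (w 1) (w 2)) := by
  unfold bk; simp (maxDischargeDepth := 50)

@[simp] theorem dt_bk {n : ℕ} {s t r : (Fin n → M) → M} (hs : DT s) (ht : DT t) (hr : DT r) :
    DT (fun v => bk (s v) (t v) (r v)) := dt3 bk.dt hs ht hr

theorem bk_surj {f A A' : M} (h : IsInjection f A' A) : IsSurjection (bk f A A') (ad A) (ad A') := by
  obtain ⟨hf, hfi⟩ := isInjection_iff.1 h
  have hd : DT (fun w : Fin 1 → M => cp fun u =>
      (∃ a, a ∈ A' ∧ w 0 = op (ap f a) GL.em ∧ u ∈ op a GL.em) ∨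
        ((¬ ∃ a, a ∈ A' ∧ w 0 = op (ap f a) GL.em) ∧ u ∈ (st : M))) := by
    simp (maxDischargeDepth := 50)
  have h1 : ∀ a, a ∈ A' → (cp fun u => (∃ b, b ∈ A' ∧ op (ap f a) GL.em = op (ap f b) GL.em ∧
      u ∈ op b GL.em) ∨ ((¬ ∃ b, b ∈ A' ∧ op (ap f a) GL.em = op (ap f b) GL.em) ∧
        u ∈ (st : M))) = op a GL.em := by
    intro a ha
    refine ext' fun z => ?_
    rw [mem_cp ⟨op a GL.em, fun z => ?_⟩]
    all_goals
      constructor
      · first
        | rintro (⟨b, hb, h', hz⟩ | ⟨h', -⟩)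
          · rwa [hfi _ _ ha hb (op_inj.1 h').1]
          · exact (h' ⟨a, ha, rfl⟩).elim
        | intro hz
          exact Or.inl ⟨a, ha, rfl, hz⟩
      · first
        | intro hz
          exact Or.inl ⟨a, ha, rfl, hz⟩
        | rintro (⟨b, hb, h', hz⟩ | ⟨h', -⟩)
          · rwa [hfi _ _ ha hb (op_inj.1 h').1]
          · exact (h' ⟨a, ha, rfl⟩).elim
  have h2 : ∀ z, (¬ ∃ a, a ∈ A' ∧ z = op (ap f a) GL.em) → (cp fun u => (∃ b, b ∈ A' ∧
      z = op (ap f b) GL.em ∧ u ∈ op b GL.em) ∨ ((¬ ∃ b, b ∈ A' ∧ z = op (ap f b) GL.em) ∧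
        u ∈ (st : M))) = st := by
    intro z hz
    refine ext' fun u => ?_
    rw [mem_cp ⟨st, fun u => ?_⟩]
    · constructor
      · rintro (⟨b, hb, h', -⟩ | ⟨-, h'⟩)
        · exact (hz ⟨b, hb, h'⟩).elim
        · exact h'
      · intro hu
        exact Or.inr ⟨hz, hu⟩
    · constructor
      · intro hu
        exact Or.inr ⟨hz, hu⟩
      · rintro (⟨b, hb, h', -⟩ | ⟨-, h'⟩)
        · exact (hz ⟨b, hb, h'⟩).elim
        · exact h'
  refine isSurjection_iff.2 ⟨lam_mem_fs hd fun z hz => ?_, fun y hy => ?_⟩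
  · by_cases hc : ∃ a, a ∈ A' ∧ z = op (ap f a) GL.em
    · obtain ⟨a, ha, rfl⟩ := hc
      rw [h1 a ha]
      exact mem_ad.2 (Or.inl ⟨a, ha, rfl⟩)
    · rw [h2 z hc]
      exact st_mem_ad A'
  · rcases mem_ad.1 hy with ⟨a, ha, rfl⟩ | rfl
    · have hz : op (ap f a) GL.em ∈ ad A :=
        mem_ad.2 (Or.inl ⟨_, (mem_fs.1 hf).2 a ha, rfl⟩)
      exact ⟨_, hz, by unfold bk; rw [ap_lam hd hz, h1 a ha]⟩
    · refine ⟨st, st_mem_ad A, ?_⟩
      unfold bk
      rw [ap_lam hd (st_mem_ad A), h2]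
      rintro ⟨a, -, h'⟩
      exact op_em_ne_st _ h'.symm

theorem wf4_ii_of_si (h : WF4 M Ix.s Iy.i) : WF4 M Ix.i Iy.i := by
  intro w s t hw hs ht hmap
  obtain rfl := isOmega_iff.1 hw
  have hs' := isSeq_iff.1 hs
  have ht' := isSeq_iff.1 ht
  have hv : ∀ n, n ∈ (om : M) → Val s n (ap s n) := fun n hn => (val_fn hs').2 ⟨hn, rfl⟩
  have hvt : ∀ n, n ∈ (om : M) → Val t n (ap t n) := fun n hn => (val_fn ht').2 ⟨hn, rfl⟩
  have hd1 : DT (fun w : Fin 1 → M => ad (ap s (w 0))) := by simp (maxDischargeDepth := 50)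
  have hd2 : DT (fun w : Fin 1 → M => bk (ap t (w 0)) (ap s (w 0)) (ap s (sc (w 0)))) := by
    simp (maxDischargeDepth := 50)
  have hf1 : Fn (lam (om : M) fun n => ad (ap s n)) om := fn_lam hd1
  have hf2 : Fn (lam (om : M) fun n => bk (ap t n) (ap s n) (ap s (sc n))) om := fn_lam hd2
  obtain ⟨n, m, A, A', hn, hm, hA, hA', hrel⟩ := h om (lam om fun n => ad (ap s n))
    (lam om fun n => bk (ap t n) (ap s n) (ap s (sc n))) hw (isSeq_iff.2 hf1) (isSeq_iff.2 hf2)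
    (fun n m A A' f hn hm hA hA' hf => by
      obtain rfl := isSucc_iff.1 hm
      obtain ⟨-, rfl⟩ := (val_fn hf1).1 hA
      obtain ⟨hm', rfl⟩ := (val_fn hf1).1 hA'
      obtain ⟨-, rfl⟩ := (val_fn hf2).1 hf
      rw [ap_lam (F := fun n => ad (ap s n)) hd1 hn, ap_lam (F := fun n => ad (ap s n)) hd1 hm',
        ap_lam (F := fun n => bk (ap t n) (ap s n) (ap s (sc n))) hd2 hn]
      exact bk_surj (hmap n (sc n) _ _ _ hn hm (hv n hn) (hv _ hm') (hvt n hn)))
  obtain ⟨-, rfl⟩ := (val_fn hf1).1 hA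
  obtain ⟨hm', rfl⟩ := (val_fn hf1).1 hA'
  rw [ap_lam (F := fun n => ad (ap s n)) hd1 hn,
    ap_lam (F := fun n => ad (ap s n)) hd1 hm'] at hrel
  exact ⟨n, m, _, _, hn, hm, hv n hn, hv m hm', le_of_ad hrel⟩

/-- Every principle `WF^x_yk` with `y ≠ s` implies `WF^i_i4`. -/
theorem wf4_ii {x : Ix} {y : Iy} (hy : y ≠ Iy.s)
    (h : WF1 M x y ∨ WF2 M x y ∨ WF3 M x y ∨ WF4 M x y) : WF4 M Ix.i Iy.i := by
  have h4 : WF4 M x y := by
    rcases h with h | h | h | h
    · exact wf4_of_wf3 (wf3_of_wf1 h)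
    · exact wf4_of_wf3 (wf3_of_wf2 h)
    · exact wf4_of_wf3 h
    · exact h
  have h4' := wf4_y hy h4
  cases x with
  | i => exact h4'
  | s => exact wf4_ii_of_si h4'

end Pool.Agent.ZFW
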