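import Pool.Agent.SigB.Dfn

/-!
Change of the parameters of a formula.
-/

universe u v w

namespace Pool.Agent.ZFW

open Pool.Agent.SigB

section mapP

variable {X : Type u} {Y : Type v} {Z : Type w}

/-- Apply `f` to the parameters of a formula. -/
def mapP (f : X → Y) : ∀ {n : ℕ}, Fml X n → Fml Y n
  | _, .mem s t => .mem (Sum.map id f s) (Sum.map id f t)
  | _, .eq s t => .eq (Sum.map id f s) (Sum.map id f t)
  | _, .neg φ => .neg (mapP f φ)
  | _, .and φ ψ => .and (mapP f φ) (mapP f ψ)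
  | _, .ex φ => .ex (mapP f φ)

theorem exists_map_sum {f : X → Y} (hf : Function.Surjective f) {n : ℕ}
    (s : Fin n ⊕ Y) : ∃ s' : Fin n ⊕ X, Sum.map id f s' = s := by
  rcases s with i | b
  · exact ⟨.inl i, rfl⟩
  · obtain ⟨a, rfl⟩ := hf b
    exact ⟨.inr a, rfl⟩

theorem exists_mapP {f : X → Y} (hf : Function.Surjective f) :
    ∀ {n : ℕ} (ψ : Fml Y n), ∃ φ : Fml X n, mapP f φ = ψ
  | _, .mem s t => by
    obtain ⟨s', hs⟩ := exists_map_sum hf s
    obtain ⟨t', ht⟩ := exists_map_sum hf t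
    exact ⟨.mem s' t', by simp [mapP, hs, ht]⟩
  | _, .eq s t => by
    obtain ⟨s', hs⟩ := exists_map_sum hf s
    obtain ⟨t', ht⟩ := exists_map_sum hf t
    exact ⟨.eq s' t', by simp [mapP, hs, ht]⟩
  | _, .neg ψ => by
    obtain ⟨φ, rfl⟩ := exists_mapP hf ψ
    exact ⟨.neg φ, rfl⟩
  | _, .and ψ ψ' => by
    obtain ⟨φ, rfl⟩ := exists_mapP hf ψ
    obtain ⟨φ', rfl⟩ := exists_mapP hf ψ'
    exact ⟨.and φ φ', rfl⟩
  | _, .ex ψ => by
    obtain ⟨φ, rfl⟩ := exists_mapP hf ψ
    exact ⟨.ex φ, rfl⟩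

theorem elim_mapP (f : X → Y) {n : ℕ} (s : Fin n ⊕ X) (v : Fin n → X) :
    Sum.elim (fun i => f (v i)) id (Sum.map id f s) = f (Sum.elim v id s) := by
  rcases s with i | a <;> rfl

theorem mapP_ren (f : X → Y) : ∀ {n m : ℕ} (φ : Fml X n) (g : Fin n → Fin m),
    mapP f (φ.ren g) = (mapP f φ).ren g
  | _, _, .mem s t, g => by
    show Fml.mem (Sum.map id f (Sum.map g id s)) (Sum.map id f (Sum.map g id t)) =
      Fml.mem (Sum.map g id (Sum.map id f s)) (Sum.map g id (Sum.map id f t))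
    rcases s with s | s <;> rcases t with t | t <;> rfl
  | _, _, .eq s t, g => by
    show Fml.eq (Sum.map id f (Sum.map g id s)) (Sum.map id f (Sum.map g id t)) =
      Fml.eq (Sum.map g id (Sum.map id f s)) (Sum.map g id (Sum.map id f t))
    rcases s with s | s <;> rcases t with t | t <;> rfl
  | _, _, .neg φ, g => congrArg Fml.neg (mapP_ren f φ g)
  | _, _, .and φ ψ, g => congrArg₂ Fml.and (mapP_ren f φ g) (mapP_ren f ψ g)
  | _, _, .ex φ, g => congrArg Fml.ex (mapP_ren f φ (liftRen g))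

theorem mapP_mapP (f : X → Y) (g : Y → Z) : ∀ {n : ℕ} (φ : Fml X n),
    mapP g (mapP f φ) = mapP (fun x => g (f x)) φ
  | _, .mem s t => by
    show Fml.mem (Sum.map id g (Sum.map id f s)) (Sum.map id g (Sum.map id f t)) =
      Fml.mem (Sum.map id (fun x => g (f x)) s) (Sum.map id (fun x => g (f x)) t)
    rcases s with s | s <;> rcases t with t | t <;> rfl
  | _, .eq s t => by
    show Fml.eq (Sum.map id g (Sum.map id f s)) (Sum.map id g (Sum.map id f t)) =
      Fml.eq (Sum.map id (fun x => g (f x)) s) (Sum.map id (fun x => g (f x)) t)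
    rcases s with s | s <;> rcases t with t | t <;> rfl
  | _, .neg φ => congrArg Fml.neg (mapP_mapP f g φ)
  | _, .and φ ψ => congrArg₂ Fml.and (mapP_mapP f g φ) (mapP_mapP f g ψ)
  | _, .ex φ => congrArg Fml.ex (mapP_mapP f g φ)

theorem mapP_id : ∀ {n : ℕ} (φ : Fml X n), mapP (fun x => x) φ = φ
  | _, .mem s t => by
    show Fml.mem (Sum.map id (fun x => x) s) (Sum.map id (fun x => x) t) = Fml.mem s t
    rcases s with s | s <;> rcases t with t | t <;> rfl
  | _, .eq s t => by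
    show Fml.eq (Sum.map id (fun x => x) s) (Sum.map id (fun x => x) t) = Fml.eq s t
    rcases s with s | s <;> rcases t with t | t <;> rfl
  | _, .neg φ => congrArg Fml.neg (mapP_id φ)
  | _, .and φ ψ => congrArg₂ Fml.and (mapP_id φ) (mapP_id ψ)
  | _, .ex φ => congrArg Fml.ex (mapP_id φ)

end mapP

end Pool.Agent.ZFW
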