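import Pool.Agent.GL.Tools
import Pool.Agent.ZFW.MapP

/-!
Definability with tracked parameters: the parameters of the defining formula belong to a given
class `C`.
-/

universe u

set_option linter.unusedSectionVars false

namespace Pool.Agent.ZFW

open Pool.Agent.SigB Pool.Agent.GL

variable {M : Type u} [Membership M M]

/-- The predicate `P` is definable with parameters in the class `C`. -/
def DfnC (C : M → Prop) {n : ℕ} (P : (Fin n → M) → Prop) : Prop :=
  ∃ φ : Fml {a : M // C a} n, ∀ v, P v ↔ (mapP Subtype.val φ).Sat v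

/-- The function `t` is definable with parameters in the class `C`. -/
def DTC (C : M → Prop) {n : ℕ} (t : (Fin n → M) → M) : Prop :=
  DfnC C (fun w : Fin (n + 1) → M => w 0 = t (fun i => w i.succ))

variable {C C' : M → Prop} {n m : ℕ} {P Q : (Fin n → M) → Prop}

theorem DfnC.dfn (h : DfnC C P) : Dfn P := by
  obtain ⟨φ, h⟩ := h
  exact ⟨mapP Subtype.val φ, h⟩

theorem DTC.dt {t : (Fin n → M) → M} (h : DTC C t) : DT t := DfnC.dfn h

theorem DfnC.mono (h : DfnC C P) (hCC : ∀ a, C a → C' a) : DfnC C' P := by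
  obtain ⟨φ, h⟩ := h
  refine ⟨mapP (fun a => ⟨a.1, hCC a.1 a.2⟩) φ, fun v => ?_⟩
  rw [mapP_mapP]
  exact h v

theorem DTC.mono {t : (Fin n → M) → M} (h : DTC C t) (hCC : ∀ a, C a → C' a) : DTC C' t :=
  DfnC.mono h hCC

theorem DfnC.of_dfn {P : (Fin n → M) → Prop} (h : Dfn P) (hC : ∀ a, C a) : DfnC C P := by
  obtain ⟨φ, h⟩ := h
  refine ⟨mapP (fun a => ⟨a, hC a⟩) φ, fun v => ?_⟩
  rw [mapP_mapP]
  exact (h v).trans (iff_of_eq (congrArg (fun ψ : Fml M n => ψ.Sat v) (mapP_id φ).symm))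

theorem DfnC.congr (h : DfnC C P) (h' : ∀ v, P v ↔ Q v) : DfnC C Q := by
  have : P = Q := funext fun v => propext (h' v)
  rwa [← this]

theorem DfnC.ren (h : DfnC C P) (f : Fin n → Fin m) :
    DfnC C (fun w : Fin m → M => P fun i => w (f i)) := by
  obtain ⟨φ, hφ⟩ := h
  exact ⟨φ.ren f, fun v => by rw [mapP_ren, Fml.sat_ren]; exact hφ _⟩

theorem DfnC.not (h : DfnC C P) : DfnC C (fun v => ¬ P v) := by
  obtain ⟨φ, hφ⟩ := h
  exact ⟨.neg φ, fun v => not_congr (hφ v)⟩

theorem DfnC.and (h : DfnC C P) (h' : DfnC C Q) : DfnC C (fun v => P v ∧ Q v) := by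
  obtain ⟨φ, hφ⟩ := h
  obtain ⟨ψ, hψ⟩ := h'
  exact ⟨.and φ ψ, fun v => and_congr (hφ v) (hψ v)⟩

theorem DfnC.ex {P : (Fin n → M) → M → Prop}
    (h : DfnC C (fun w : Fin (n + 1) → M => P (fun i => w i.succ) (w 0))) :
    DfnC C (fun v => ∃ x, P v x) := by
  obtain ⟨φ, hφ⟩ := h
  refine ⟨.ex φ, fun v => exists_congr fun x => ?_⟩
  have := hφ (Fin.cons x v)
  simpa using this

theorem DfnC.or (h : DfnC C P) (h' : DfnC C Q) : DfnC C (fun v => P v ∨ Q v) :=
  ((h.not.and h'.not).not).congr fun v => by tauto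

theorem DfnC.imp (h : DfnC C P) (h' : DfnC C Q) : DfnC C (fun v => P v → Q v) :=
  ((h.and h'.not).not).congr fun v => by tauto

theorem DfnC.iff (h : DfnC C P) (h' : DfnC C Q) : DfnC C (fun v => P v ↔ Q v) :=
  ((h.imp h').and (h'.imp h)).congr fun v => by tauto

theorem DfnC.all {P : (Fin n → M) → M → Prop}
    (h : DfnC C (fun w : Fin (n + 1) → M => P (fun i => w i.succ) (w 0))) :
    DfnC C (fun v => ∀ x, P v x) :=
  (DfnC.ex (P := fun v x => ¬ P v x) h.not).not.congr fun v => by simp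

theorem DfnC.true : DfnC C (fun _ : Fin n → M => True) := by
  refine ⟨.neg (.and (.ex (.eq (.inl 0) (.inl 0))) (.neg (.ex (.eq (.inl 0) (.inl 0))))),
    fun v => ?_⟩
  simp only [mapP, Fml.Sat, true_iff]
  exact fun h => h.2 h.1

theorem DfnC.const (p : Prop) : DfnC C (fun _ : Fin n → M => p) := by
  by_cases hp : p
  · exact DfnC.true.congr fun v => by simp [hp]
  · exact DfnC.true.not.congr fun v => by simp [hp]

/-- Substitution of a definable function for the variable `0`. -/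
theorem DfnC.sub {P : (Fin n → M) → M → Prop} {t : (Fin n → M) → M}
    (h : DfnC C (fun w : Fin (n + 1) → M => P (fun i => w i.succ) (w 0))) (ht : DTC C t) :
    DfnC C (fun v => P v (t v)) :=
  (DfnC.ex (P := fun v x => x = t v ∧ P v x) (DfnC.and ht h)).congr fun v => by simp

theorem DTC.ren {t : (Fin n → M) → M} (ht : DTC C t) (f : Fin n → Fin m) :
    DTC C (fun w : Fin m → M => t fun i => w (f i)) := by
  have := DfnC.ren ht (liftRen f)
  refine this.congr fun w => ?_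
  simp [liftRen]

theorem DTC.var (i : Fin n) : DTC C (fun w : Fin n → M => w i) :=
  ⟨.eq (.inl 0) (.inl i.succ), fun v => by simp [Fml.Sat, mapP]⟩

theorem DTC.const {a : M} (ha : C a) : DTC C (fun _ : Fin n → M => a) :=
  ⟨.eq (.inl 0) (.inr ⟨a, ha⟩), fun v => by simp [Fml.Sat, mapP]⟩

theorem dfnC1 {R : M → Prop} (h : DfnC C (fun w : Fin 1 → M => R (w 0))) {s : (Fin n → M) → M}
    (hs : DTC C s) : DfnC C (fun v => R (s v)) :=
  DfnC.sub (P := fun _ x => R x) (h.ren (m := n + 1) (fun _ => 0)) hs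

theorem dfnC2 {R : M → M → Prop} (h : DfnC C (fun w : Fin 2 → M => R (w 0) (w 1)))
    {s t : (Fin n → M) → M} (hs : DTC C s) (ht : DTC C t) : DfnC C (fun v => R (s v) (t v)) := by
  refine DfnC.sub (P := fun v x => R x (t v)) ?_ hs
  refine DfnC.sub (P := fun (w : Fin (n + 1) → M) y => R (w 0) y) ?_ (ht.ren Fin.succ)
  exact h.ren (m := n + 2) ![1, 0]

theorem dfnC3 {R : M → M → M → Prop} (h : DfnC C (fun w : Fin 3 → M => R (w 0) (w 1) (w 2)))
    {s t r : (Fin n → M) → M} (hs : DTC C s) (ht : DTC C t) (hr : DTC C r) :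
    DfnC C (fun v => R (s v) (t v) (r v)) := by
  refine DfnC.sub (P := fun v x => R x (t v) (r v)) ?_ hs
  refine DfnC.sub (P := fun (w : Fin (n + 1) → M) y => R (w 0) y (r fun i => w i.succ)) ?_
    (ht.ren Fin.succ)
  refine DfnC.sub (P := fun (w : Fin (n + 2) → M) z => R (w 1) (w 0) z) ?_
    (hr.ren (fun i => i.succ.succ))
  exact h.ren (m := n + 3) ![2, 1, 0]

theorem DfnC.mem {s t : (Fin n → M) → M} (hs : DTC C s) (ht : DTC C t) :
    DfnC C (fun v => s v ∈ t v) := by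
  refine dfnC2 (C := C) (R := fun x y => x ∈ y) ?_ hs ht
  exact ⟨.mem (.inl 0) (.inl 1), fun v => by simp [Fml.Sat, mapP]⟩

theorem DfnC.eq {s t : (Fin n → M) → M} (hs : DTC C s) (ht : DTC C t) :
    DfnC C (fun v => s v = t v) := by
  refine dfnC2 (C := C) (R := fun x y => x = y) ?_ hs ht
  exact ⟨.eq (.inl 0) (.inl 1), fun v => by simp [Fml.Sat, mapP]⟩

theorem dfnC4 {R : M → M → M → M → Prop}
    (h : DfnC C (fun w : Fin 4 → M => R (w 0) (w 1) (w 2) (w 3)))
    {s t r q : (Fin n → M) → M} (hs : DTC C s) (ht : DTC C t) (hr : DTC C r) (hq : DTC C q) :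
    DfnC C (fun v => R (s v) (t v) (r v) (q v)) := by
  refine DfnC.sub (P := fun v x => R x (t v) (r v) (q v)) ?_ hs
  refine DfnC.sub (P := fun (w : Fin (n + 1) → M) y => R (w 0) y (r fun i => w i.succ)
    (q fun i => w i.succ)) ?_ (ht.ren Fin.succ)
  refine DfnC.sub (P := fun (w : Fin (n + 2) → M) z => R (w 1) (w 0) z
    (q fun i => w i.succ.succ)) ?_ (hr.ren (fun i => i.succ.succ))
  refine DfnC.sub (P := fun (w : Fin (n + 3) → M) z => R (w 2) (w 1) (w 0) z) ?_
    (hq.ren (fun i => i.succ.succ.succ))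
  exact h.ren (m := n + 4) ![3, 2, 1, 0]

theorem dfnC5 {R : M → M → M → M → M → Prop}
    (h : DfnC C (fun w : Fin 5 → M => R (w 0) (w 1) (w 2) (w 3) (w 4)))
    {s t r q p : (Fin n → M) → M} (hs : DTC C s) (ht : DTC C t) (hr : DTC C r) (hq : DTC C q)
    (hp : DTC C p) : DfnC C (fun v => R (s v) (t v) (r v) (q v) (p v)) := by
  refine DfnC.sub (P := fun v x => R x (t v) (r v) (q v) (p v)) ?_ hs
  refine DfnC.sub (P := fun (w : Fin (n + 1) → M) y => R (w 0) y (r fun i => w i.succ)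
    (q fun i => w i.succ) (p fun i => w i.succ)) ?_ (ht.ren Fin.succ)
  refine DfnC.sub (P := fun (w : Fin (n + 2) → M) z => R (w 1) (w 0) z
    (q fun i => w i.succ.succ) (p fun i => w i.succ.succ)) ?_ (hr.ren (fun i => i.succ.succ))
  refine DfnC.sub (P := fun (w : Fin (n + 3) → M) z => R (w 2) (w 1) (w 0) z
    (p fun i => w i.succ.succ.succ)) ?_ (hq.ren (fun i => i.succ.succ.succ))
  refine DfnC.sub (P := fun (w : Fin (n + 4) → M) z => R (w 3) (w 2) (w 1) (w 0) z) ?_
    (hp.ren (fun i => i.succ.succ.succ.succ))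
  exact h.ren (m := n + 5) ![4, 3, 2, 1, 0]

theorem dtC1 {F : M → M} (h : DTC C (fun w : Fin 1 → M => F (w 0))) {s : (Fin n → M) → M}
    (hs : DTC C s) : DTC C (fun v => F (s v)) :=
  dfnC2 (R := fun x y => x = F y) h (DTC.var 0) (hs.ren Fin.succ)

theorem dtC2 {F : M → M → M} (h : DTC C (fun w : Fin 2 → M => F (w 0) (w 1)))
    {s t : (Fin n → M) → M} (hs : DTC C s) (ht : DTC C t) : DTC C (fun v => F (s v) (t v)) :=
  dfnC3 (R := fun x y z => x = F y z) h (DTC.var 0) (hs.ren Fin.succ) (ht.ren Fin.succ)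

theorem dtC3 {F : M → M → M → M} (h : DTC C (fun w : Fin 3 → M => F (w 0) (w 1) (w 2)))
    {s t r : (Fin n → M) → M} (hs : DTC C s) (ht : DTC C t) (hr : DTC C r) :
    DTC C (fun v => F (s v) (t v) (r v)) :=
  dfnC4 (R := fun x y z u => x = F y z u) h (DTC.var 0) (hs.ren Fin.succ) (ht.ren Fin.succ)
    (hr.ren Fin.succ)

theorem dtC4 {F : M → M → M → M → M}
    (h : DTC C (fun w : Fin 4 → M => F (w 0) (w 1) (w 2) (w 3)))
    {s t r q : (Fin n → M) → M} (hs : DTC C s) (ht : DTC C t) (hr : DTC C r) (hq : DTC C q) :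
    DTC C (fun v => F (s v) (t v) (r v) (q v)) :=
  dfnC5 (R := fun x y z u o => x = F y z u o) h (DTC.var 0) (hs.ren Fin.succ) (ht.ren Fin.succ)
    (hr.ren Fin.succ) (hq.ren Fin.succ)

/-- Case distinction. -/
theorem DTC.ite {P : (Fin n → M) → Prop} [∀ v, Decidable (P v)] {s t : (Fin n → M) → M}
    (hP : DfnC C P) (hs : DTC C s) (ht : DTC C t) : DTC C (fun v => if P v then s v else t v) := by
  have h1 := (hP.ren (Fin.succ : Fin n → Fin (n + 1))).and hs
  have h2 := (hP.not.ren (Fin.succ : Fin n → Fin (n + 1))).and ht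
  refine (h1.or h2).congr fun w => ?_
  by_cases h : P (fun i => w i.succ)
  · simp [h]
  · simp [h]

attribute [simp] DfnC.not DfnC.and DfnC.or DfnC.imp DfnC.iff DfnC.ex DfnC.all DfnC.const DfnC.mem DfnC.eq
  DTC.var DTC.const DTC.ite

/-! ### The functions and relations of the library -/

section
variable [IsZF M]

@[simp] theorem dtC_cp {n : ℕ} {P : (Fin n → M) → M → Prop}
    (h : DfnC C (fun w : Fin (n + 1) → M => P (fun i => w i.succ) (w 0))) :
    DTC C (fun v => cp (P v)) := by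
  have h2 : DfnC C (fun w : Fin (n + 1) → M => ∃ b : M, ∀ x, x ∈ b ↔ P (fun i => w i.succ) x) := by
    refine DfnC.ex (P := fun (w : Fin (n + 1) → M) b => ∀ x, x ∈ b ↔ P (fun i => w i.succ) x) ?_
    refine DfnC.all (P := fun (w : Fin (n + 2) → M) x => x ∈ w 0 ↔ P (fun i => w i.succ.succ) x) ?_
    refine DfnC.iff (by simp) ?_
    exact h.ren (m := n + 3) (Fin.cases 0 fun i => i.succ.succ.succ)
  have h3 : DfnC C (fun w : Fin (n + 1) → M => ∀ x, x ∈ w 0 ↔ P (fun i => w i.succ) x) := by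
    refine DfnC.all (P := fun (w : Fin (n + 1) → M) x => x ∈ w 0 ↔ P (fun i => w i.succ) x) ?_
    refine DfnC.iff (by simp) ?_
    exact h.ren (m := n + 2) (Fin.cases 0 fun i => i.succ.succ)
  have h4 : DfnC C (fun w : Fin (n + 1) → M => ∀ z : M, z ∉ w 0) :=
    DfnC.all (P := fun (w : Fin (n + 1) → M) z => z ∉ w 0)
      (DfnC.not (DfnC.mem (DTC.var 0) (DTC.var (Fin.succ 0))))
  exact (h3.or (h2.not.and h4)).congr fun w => cp_eq_iff.symm

@[simp] theorem dfnC_Sb {s t : (Fin n → M) → M} (hs : DTC C s) (ht : DTC C t) :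
    DfnC C (fun v => Sb (s v) (t v)) :=
  dfnC2 (R := Sb) (by unfold Sb; simp (maxDischargeDepth := 50)) hs ht

@[simp] theorem dtC_em : DTC C (fun _ : Fin n → M => (GL.em : M)) := by
  unfold GL.em; simp

@[simp] theorem dtC_pr {s t : (Fin n → M) → M} (hs : DTC C s) (ht : DTC C t) :
    DTC C (fun v => pr (s v) (t v)) :=
  dtC2 (F := pr) (by unfold pr; simp (maxDischargeDepth := 50)) hs ht

@[simp] theorem dtC_sU {s : (Fin n → M) → M} (hs : DTC C s) : DTC C (fun v => sU (s v)) :=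
  dtC1 (F := sU) (by unfold sU; simp (maxDischargeDepth := 50)) hs

@[simp] theorem dtC_pw {s : (Fin n → M) → M} (hs : DTC C s) : DTC C (fun v => pw (s v)) :=
  dtC1 (F := pw) (by unfold pw; simp (maxDischargeDepth := 50)) hs

@[simp] theorem dtC_sp {n : ℕ} {s : (Fin n → M) → M} {P : (Fin n → M) → M → Prop} (hs : DTC C s)
    (hP : DfnC C (fun w : Fin (n + 1) → M => P (fun i => w i.succ) (w 0))) :
    DTC C (fun v => sp (s v) (P v)) :=
  dtC_cp (P := fun v z => z ∈ s v ∧ P v z) (DfnC.and (DfnC.mem (DTC.var 0) (hs.ren Fin.succ)) hP)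

@[simp] theorem dtC_im {n : ℕ} {s : (Fin n → M) → M} {F : (Fin n → M) → M → M} (hs : DTC C s)
    (hF : DTC C (fun w : Fin (n + 1) → M => F (fun i => w i.succ) (w 0))) :
    DTC C (fun v => im (s v) (F v)) := by
  refine dtC_cp (P := fun v z => ∃ x, x ∈ s v ∧ z = F v x) ?_
  refine DfnC.ex (P := fun (w : Fin (n + 1) → M) x =>
    x ∈ s (fun i => w i.succ) ∧ w 0 = F (fun i => w i.succ) x) (DfnC.and ?_ ?_)
  · exact DfnC.mem (DTC.var 0) (hs.ren (fun i => i.succ.succ))
  · exact DfnC.ren hF (m := n + 2) (Fin.cases 1 (Fin.cases 0 fun i => i.succ.succ))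

@[simp] theorem dtC_op {s t : (Fin n → M) → M} (hs : DTC C s) (ht : DTC C t) :
    DTC C (fun v => op (s v) (t v)) :=
  dtC2 (F := op) (by unfold op; simp (maxDischargeDepth := 50)) hs ht

@[simp] theorem dtC_un {s t : (Fin n → M) → M} (hs : DTC C s) (ht : DTC C t) :
    DTC C (fun v => un (s v) (t v)) :=
  dtC2 (F := un) (by unfold un; simp (maxDischargeDepth := 50)) hs ht

@[simp] theorem dtC_it {s t : (Fin n → M) → M} (hs : DTC C s) (ht : DTC C t) :
    DTC C (fun v => it (s v) (t v)) :=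
  dtC2 (F := it) (by unfold it; simp (maxDischargeDepth := 50)) hs ht

@[simp] theorem dtC_df {s t : (Fin n → M) → M} (hs : DTC C s) (ht : DTC C t) :
    DTC C (fun v => df (s v) (t v)) :=
  dtC2 (F := df) (by unfold df; simp (maxDischargeDepth := 50)) hs ht

@[simp] theorem dtC_pd {s t : (Fin n → M) → M} (hs : DTC C s) (ht : DTC C t) :
    DTC C (fun v => pd (s v) (t v)) :=
  dtC2 (F := pd) (by unfold pd; simp (maxDischargeDepth := 50)) hs ht

@[simp] theorem dtC_ap {s t : (Fin n → M) → M} (hs : DTC C s) (ht : DTC C t) :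
    DTC C (fun v => ap (s v) (t v)) :=
  dtC2 (F := ap) (by unfold ap; simp (maxDischargeDepth := 50)) hs ht

@[simp] theorem dfnC_Fn {s t : (Fin n → M) → M} (hs : DTC C s) (ht : DTC C t) :
    DfnC C (fun v => Fn (s v) (t v)) :=
  dfnC2 (R := Fn) (by unfold Fn; simp (maxDischargeDepth := 50)) hs ht

@[simp] theorem dtC_lam {n : ℕ} {s : (Fin n → M) → M} {F : (Fin n → M) → M → M} (hs : DTC C s)
    (hF : DTC C (fun w : Fin (n + 1) → M => F (fun i => w i.succ) (w 0))) :
    DTC C (fun v => lam (s v) (F v)) :=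
  dtC_im (F := fun v x => op x (F v x)) hs (dtC_op (DTC.var 0) hF)

@[simp] theorem dtC_fs {s t : (Fin n → M) → M} (hs : DTC C s) (ht : DTC C t) :
    DTC C (fun v => fs (s v) (t v)) :=
  dtC2 (F := fs) (by unfold fs; simp (maxDischargeDepth := 50)) hs ht

@[simp] theorem dtC_rs {s t : (Fin n → M) → M} (hs : DTC C s) (ht : DTC C t) :
    DTC C (fun v => rs (s v) (t v)) :=
  dtC2 (F := rs) (by unfold rs; simp (maxDischargeDepth := 50)) hs ht

@[simp] theorem dfnC_Tr {s : (Fin n → M) → M} (hs : DTC C s) : DfnC C (fun v => Tr (s v)) :=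
  dfnC1 (R := Tr) (by unfold Tr; simp (maxDischargeDepth := 50)) hs

@[simp] theorem dfnC_Ord {s : (Fin n → M) → M} (hs : DTC C s) : DfnC C (fun v => GL.Ord (s v)) :=
  dfnC1 (R := GL.Ord) (by unfold GL.Ord; simp (maxDischargeDepth := 50)) hs

@[simp] theorem dtC_sc {s : (Fin n → M) → M} (hs : DTC C s) : DTC C (fun v => sc (s v)) :=
  dtC1 (F := sc) (by unfold sc; simp (maxDischargeDepth := 50)) hs

@[simp] theorem dtC_om : DTC C (fun _ : Fin n → M => (om : M)) := by
  unfold om; simp (maxDischargeDepth := 50)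

@[simp] theorem dfnC_Fi {s : (Fin n → M) → M} (hs : DTC C s) : DfnC C (fun v => Fi (s v)) :=
  dfnC1 (R := Fi) (by unfold Fi; simp (maxDischargeDepth := 50)) hs

@[simp] theorem dfnC_Wf {s t : (Fin n → M) → M} (hs : DTC C s) (ht : DTC C t) :
    DfnC C (fun v => Wf (s v) (t v)) :=
  dfnC2 (R := Wf) (by unfold Wf; simp (maxDischargeDepth := 50)) hs ht

@[simp] theorem dtC_prd {s t r : (Fin n → M) → M} (hs : DTC C s) (ht : DTC C t) (hr : DTC C r) :
    DTC C (fun v => prd (s v) (t v) (r v)) :=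
  dtC3 (F := prd) (by unfold prd; simp (maxDischargeDepth := 50)) hs ht hr

@[simp] theorem dtC_orec {n : ℕ} {G : (Fin n → M) → M → M → M} {s : (Fin n → M) → M}
    (hG : DTC C (fun w : Fin (n + 2) → M => G (fun i => w i.succ.succ) (w 1) (w 0)))
    (hs : DTC C s) : DTC C (fun v => orec (G v) (s v)) := by
  refine dtC_cp (P := fun v z => ∃ f, Fn f (sc (s v)) ∧
    (∀ x, x ∈ sc (s v) → ap f x = G v x (rs f x)) ∧ z ∈ ap f (s v)) ?_
  refine DfnC.ex (P := fun (w : Fin (n + 1) → M) f => Fn f (sc (s fun i => w i.succ)) ∧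
    (∀ x, x ∈ sc (s fun i => w i.succ) → ap f x = G (fun i => w i.succ) x (rs f x)) ∧
      w 0 ∈ ap f (s fun i => w i.succ)) ?_
  have hs2 : DTC C (fun w : Fin (n + 2) → M => s fun i => w i.succ.succ) :=
    hs.ren (fun i => i.succ.succ)
  refine DfnC.and (by simp (maxDischargeDepth := 50) [hs2]) (DfnC.and ?_
    (by simp (maxDischargeDepth := 50) [hs2]))
  refine DfnC.all (P := fun (w : Fin (n + 2) → M) x => x ∈ sc (s fun i => w i.succ.succ) →
    ap (w 0) x = G (fun i => w i.succ.succ) x (rs (w 0) x)) ?_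
  have hs3 : DTC C (fun w : Fin (n + 3) → M => s fun i => w i.succ.succ.succ) :=
    hs.ren (fun i => i.succ.succ.succ)
  refine DfnC.imp (by simp (maxDischargeDepth := 50) [hs3]) ?_
  have h1 : DTC C (fun w : Fin (n + 3) → M => G (fun i => w i.succ.succ.succ) (w 0)
      (rs (w 1) (w 0))) := by
    have h2 : DfnC C (fun w : Fin (n + 4) → M => w 0 =
        G (fun i => w i.succ.succ.succ.succ) (w 1) (rs (w 2) (w 1))) := by
      refine DfnC.sub (P := fun (w : Fin (n + 4) → M) r => w 0 =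
        G (fun i => w i.succ.succ.succ.succ) (w 1) r) (t := fun w => rs (w 2) (w 1)) ?_
        (by simp (maxDischargeDepth := 50))
      exact DfnC.ren hG (m := n + 5)
        (Fin.cases 1 (Fin.cases 0 (Fin.cases 2 fun i => i.succ.succ.succ.succ.succ)))
    exact h2
  exact DfnC.eq (by simp (maxDischargeDepth := 50)) h1

@[simp] theorem dtC_VV {s : (Fin n → M) → M} (hs : DTC C s) : DTC C (fun v => VV (s v)) :=
  dtC1 (F := VV) (dtC_orec (G := fun _ x h => sU (im x fun y => pw (ap h y)))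
    (by simp (maxDischargeDepth := 50)) (DTC.var 0)) hs

@[simp] theorem dtC_mu {n : ℕ} {P : (Fin n → M) → M → Prop}
    (hP : DfnC C (fun w : Fin (n + 1) → M => P (fun i => w i.succ) (w 0))) :
    DTC C (fun v => mu (P v)) := by
  refine dtC_cp (P := fun v z => ∃ α, GL.Ord α ∧ P v α ∧ (∀ β, β ∈ α → ¬ P v β) ∧ z ∈ α) ?_
  refine DfnC.ex (P := fun (w : Fin (n + 1) → M) α => GL.Ord α ∧ P (fun i => w i.succ) α ∧
    (∀ β, β ∈ α → ¬ P (fun i => w i.succ) β) ∧ w 0 ∈ α) ?_
  refine DfnC.and (by simp) (DfnC.and ?_ (DfnC.and ?_ (by simp)))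
  · exact hP.ren (m := n + 2) (Fin.cases 0 fun i => i.succ.succ)
  · refine DfnC.all (P := fun (w : Fin (n + 2) → M) β => β ∈ w 0 →
      ¬ P (fun i => w i.succ.succ) β) (DfnC.imp (by simp) (DfnC.not ?_))
    exact hP.ren (m := n + 3) (Fin.cases 0 fun i => i.succ.succ.succ)

end

end Pool.Agent.ZFW
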