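import Pool.Agent.ZFW.Br
import Pool.Agent.ZFW.DfnC

/-!
Definability of the notions of the statement, also with tracked parameters; definable bijections.
-/

universe u

set_option linter.unusedSectionVars false

namespace Pool.Agent.ZFW

open Pool.Agent.SigB Pool.Agent.GL

variable {M : Type u} [Membership M M] [IsZF M]

theorem eq_em_iff {x : M} : x = GL.em ↔ ∀ z, z ∉ x := by
  constructor
  · rintro rfl
    exact not_mem_em
  · intro h
    exact ext' fun z => ⟨fun hz => (h z hz).elim, fun hz => (not_mem_em z hz).elim⟩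

/-! ### Definability of the notions of the statement -/

section dfn

variable {n : ℕ} {s t r : (Fin n → M) → M}

@[simp] theorem dfn_IsMap (hs : DT s) (ht : DT t) (hr : DT r) :
    Dfn (fun v => IsMap (s v) (t v) (r v)) :=
  (Dfn.mem hs (dt_fs ht hr)).congr fun _ => isMap_iff.symm

@[simp] theorem dfn_IsInjection (hs : DT s) (ht : DT t) (hr : DT r) :
    Dfn (fun v => IsInjection (s v) (t v) (r v)) := by
  refine dfn3 (R := IsInjection) ?_ hs ht hr
  exact Dfn.congr (P := fun w : Fin 3 → M => w 0 ∈ fs (w 1) (w 2) ∧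
    ∀ x y, x ∈ w 1 → y ∈ w 1 → ap (w 0) x = ap (w 0) y → x = y)
    (by simp (maxDischargeDepth := 50)) fun w => isInjection_iff.symm

@[simp] theorem dfn_IsSurjection (hs : DT s) (ht : DT t) (hr : DT r) :
    Dfn (fun v => IsSurjection (s v) (t v) (r v)) := by
  refine dfn3 (R := IsSurjection) ?_ hs ht hr
  exact Dfn.congr (P := fun w : Fin 3 → M => w 0 ∈ fs (w 1) (w 2) ∧
    ∀ y, y ∈ w 2 → ∃ x, x ∈ w 1 ∧ ap (w 0) x = y)
    (by simp (maxDischargeDepth := 50)) fun w => isSurjection_iff.symm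

@[simp] theorem dfn_Le (hs : DT s) (ht : DT t) : Dfn (fun v => Le (s v) (t v)) :=
  dfn2 (R := Le) (by unfold Le; simp (maxDischargeDepth := 50)) hs ht

@[simp] theorem dfn_LeStar (hs : DT s) (ht : DT t) : Dfn (fun v => LeStar (s v) (t v)) :=
  dfn2 (R := LeStar) (by unfold LeStar; simp (maxDischargeDepth := 50)) hs ht

@[simp] theorem dfn_EqCard (hs : DT s) (ht : DT t) : Dfn (fun v => EqCard (s v) (t v)) :=
  dfn2 (R := EqCard) (by unfold EqCard; simp (maxDischargeDepth := 50)) hs ht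

variable {C : M → Prop}

@[simp] theorem dfnC_IsMap (hs : DTC C s) (ht : DTC C t) (hr : DTC C r) :
    DfnC C (fun v => IsMap (s v) (t v) (r v)) :=
  (DfnC.mem hs (dtC_fs ht hr)).congr fun _ => isMap_iff.symm

@[simp] theorem dfnC_IsInjection (hs : DTC C s) (ht : DTC C t) (hr : DTC C r) :
    DfnC C (fun v => IsInjection (s v) (t v) (r v)) := by
  refine dfnC3 (R := IsInjection) ?_ hs ht hr
  exact DfnC.congr (P := fun w : Fin 3 → M => w 0 ∈ fs (w 1) (w 2) ∧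
    ∀ x y, x ∈ w 1 → y ∈ w 1 → ap (w 0) x = ap (w 0) y → x = y)
    (by simp (maxDischargeDepth := 50)) fun w => isInjection_iff.symm

@[simp] theorem dfnC_IsSurjection (hs : DTC C s) (ht : DTC C t) (hr : DTC C r) :
    DfnC C (fun v => IsSurjection (s v) (t v) (r v)) := by
  refine dfnC3 (R := IsSurjection) ?_ hs ht hr
  exact DfnC.congr (P := fun w : Fin 3 → M => w 0 ∈ fs (w 1) (w 2) ∧
    ∀ y, y ∈ w 2 → ∃ x, x ∈ w 1 ∧ ap (w 0) x = y)
    (by simp (maxDischargeDepth := 50)) fun w => isSurjection_iff.symm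

@[simp] theorem dfnC_Le (hs : DTC C s) (ht : DTC C t) : DfnC C (fun v => Le (s v) (t v)) :=
  dfnC2 (R := Le) (by unfold Le; simp (maxDischargeDepth := 50)) hs ht

@[simp] theorem dfnC_LeStar (hs : DTC C s) (ht : DTC C t) :
    DfnC C (fun v => LeStar (s v) (t v)) :=
  dfnC2 (R := LeStar) (by unfold LeStar; simp (maxDischargeDepth := 50)) hs ht

@[simp] theorem dfnC_EqCard (hs : DTC C s) (ht : DTC C t) :
    DfnC C (fun v => EqCard (s v) (t v)) :=
  dfnC2 (R := EqCard) (by unfold EqCard; simp (maxDischargeDepth := 50)) hs ht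

end dfn

/-! ### Definable bijections -/

theorem le_of {X Y : M} {F : M → M} (hF : DT (fun w : Fin 1 → M => F (w 0)))
    (h1 : ∀ x, x ∈ X → F x ∈ Y) (h2 : ∀ x y, x ∈ X → y ∈ X → F x = F y → x = y) : Le X Y := by
  refine ⟨lam X F, isInjection_iff.2 ⟨lam_mem_fs hF h1, fun x y hx hy h => ?_⟩⟩
  rw [ap_lam hF hx, ap_lam hF hy] at h
  exact h2 x y hx hy h

theorem eqCard_of {X Y : M} {F : M → M} (hF : DT (fun w : Fin 1 → M => F (w 0)))
    (h1 : ∀ x, x ∈ X → F x ∈ Y) (h2 : ∀ x y, x ∈ X → y ∈ X → F x = F y → x = y)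
    (h3 : ∀ y, y ∈ Y → ∃ x, x ∈ X ∧ F x = y) : EqCard X Y := by
  refine ⟨lam X F, isInjection_iff.2 ⟨lam_mem_fs hF h1, fun x y hx hy h => ?_⟩,
    isSurjection_iff.2 ⟨lam_mem_fs hF h1, fun y hy => ?_⟩⟩
  · rw [ap_lam hF hx, ap_lam hF hy] at h
    exact h2 x y hx hy h
  · obtain ⟨x, hx, h⟩ := h3 y hy
    exact ⟨x, hx, by rw [ap_lam hF hx, h]⟩

theorem EqCard.refl (X : M) : EqCard X X :=
  eqCard_of (F := fun x => x) (DT.var 0) (fun _ h => h) (fun _ _ _ _ h => h) fun x hx =>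
    ⟨x, hx, rfl⟩

theorem EqCard.symm {X Y : M} (h : EqCard X Y) : EqCard Y X := by
  obtain ⟨f, h1, h2⟩ := h
  obtain ⟨hf, hinj⟩ := isInjection_iff.1 h1
  obtain ⟨-, hsur⟩ := isSurjection_iff.1 h2
  have hG : DT (fun w : Fin 1 → M => cp fun z => ∃ x, x ∈ X ∧ ap f x = w 0 ∧ z ∈ x) := by
    simp (maxDischargeDepth := 50)
  have key : ∀ x, x ∈ X → (cp fun z => ∃ x', x' ∈ X ∧ ap f x' = ap f x ∧ z ∈ x') = x := by
    intro x hx
    have h1 : ∀ z, z ∈ x ↔ ∃ x', x' ∈ X ∧ ap f x' = ap f x ∧ z ∈ x' := by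
      intro z
      constructor
      · intro hz
        exact ⟨x, hx, rfl, hz⟩
      · rintro ⟨x', hx', h2, hz⟩
        rwa [hinj x' x hx' hx h2] at hz
    refine ext' fun z => ?_
    rw [mem_cp ⟨x, h1⟩, h1 z]
  refine eqCard_of (F := fun y => cp fun z => ∃ x, x ∈ X ∧ ap f x = y ∧ z ∈ x) hG ?_ ?_ ?_
  · intro y hy
    obtain ⟨x, hx, rfl⟩ := hsur y hy
    rwa [key x hx]
  · intro y y' hy hy'
    obtain ⟨x, hx, rfl⟩ := hsur y hy
    obtain ⟨x', hx', rfl⟩ := hsur y' hy'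
    intro h
    rw [key x hx, key x' hx'] at h
    rw [h]
  · intro x hx
    exact ⟨ap f x, (mem_fs.1 hf).2 x hx, key x hx⟩

theorem EqCard.trans {X Y Z : M} (h : EqCard X Y) (h' : EqCard Y Z) : EqCard X Z := by
  obtain ⟨f, h1, h2⟩ := h
  obtain ⟨g, h3, h4⟩ := h'
  obtain ⟨hf, hfi⟩ := isInjection_iff.1 h1
  obtain ⟨-, hfs⟩ := isSurjection_iff.1 h2
  obtain ⟨hg, hgi⟩ := isInjection_iff.1 h3
  obtain ⟨-, hgs⟩ := isSurjection_iff.1 h4
  have hf' := (mem_fs.1 hf).2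
  have hg' := (mem_fs.1 hg).2
  refine eqCard_of (F := fun x => ap g (ap f x)) (by simp (maxDischargeDepth := 50))
    (fun x hx => hg' _ (hf' x hx)) (fun x y hx hy h =>
      hfi x y hx hy (hgi _ _ (hf' x hx) (hf' y hy) h)) ?_
  intro z hz
  obtain ⟨y, hy, rfl⟩ := hgs z hz
  obtain ⟨x, hx, rfl⟩ := hfs y hy
  exact ⟨x, hx, rfl⟩

end Pool.Agent.ZFW
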