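import Pool.Agent.ZFW.BDef
import Pool.Agent.ZFW.BrC

/-!
# MP_831107_lc, second theorem : the levels which can be raised

`exists_rg` : from `WF^i_i4`, for a function `h` from the ordinal `k` to `ω` there is a natural
number `n` such that the set of all `a` with `n ∈ h(a)` is small.
-/

universe u

set_option linter.unusedSectionVars false

namespace Pool.Agent.ZFW

open Pool.Agent.SigB Pool.Agent.GL

variable {M : Type u} [Membership M M] [GL.IsZF M]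

/-! ### Hartogs numbers -/

/-- The union of the ordinals which are the values of the collapse of a relation on `Q`. -/
noncomputable def clp (Q W : M) : M :=
  cp fun z => ∃ c, Fn c Q ∧ (∀ x, x ∈ Q → ∀ z, z ∈ ap c x ↔ ∃ y, y ∈ Q ∧ op y x ∈ W ∧
    z = ap c y) ∧ ∃ x, x ∈ Q ∧ z = ap c x

theorem clp.dt (Q : M) : DT (fun w : Fin 1 → M => clp Q (w 0)) := by
  unfold clp
  simp (maxDischargeDepth := 50)

theorem mem_clp {Q W c x : M} (hwf : Wf Q W) (hc : Fn c Q)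
    (h : ∀ x, x ∈ Q → ∀ z, z ∈ ap c x ↔ ∃ y, y ∈ Q ∧ op y x ∈ W ∧ z = ap c y) (hx : x ∈ Q) :
    ap c x ∈ clp Q W := by
  have hd : DT (fun w : Fin 1 → M => ap c (w 0)) := by simp (maxDischargeDepth := 50)
  refine (mem_cp ⟨im Q (ap c), fun z => ?_⟩).2 ⟨c, hc, h, x, hx, rfl⟩
  rw [mem_im hd]
  constructor
  · rintro ⟨x, hx, rfl⟩
    exact ⟨c, hc, h, x, hx, rfl⟩
  · rintro ⟨c', hc', h', x, hx, rfl⟩
    rw [collapse_unique hwf hc hc' h h']
    exact ⟨x, hx, rfl⟩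

/-- An ordinal which injects into `Q` is a set of values of a collapse. -/
theorem sb_clp {Q α : M} (hα : Ord α) (h : Le α Q) : ∃ W, W ∈ pw (pd Q Q) ∧ Sb α (clp Q W) := by
  obtain ⟨g, hg, hgi⟩ := le_iff.1 h
  rw [mem_fs] at hg
  have hd : Dfn (fun w : Fin 1 → M => ∃ x y, x ∈ y ∧ y ∈ α ∧ w 0 = op (ap g x) (ap g y)) := by
    simp (maxDischargeDepth := 50)
  let W : M := sp (pd Q Q) fun z => ∃ x y, x ∈ y ∧ y ∈ α ∧ z = op (ap g x) (ap g y)
  have hW : ∀ y, y ∈ α → ∀ z, op z (ap g y) ∈ W ↔ ∃ x, x ∈ y ∧ z = ap g x := by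
    intro y hy z
    show op z (ap g y) ∈ sp (pd Q Q) _ ↔ _
    rw [mem_sp hd, op_mem_pd]
    constructor
    · rintro ⟨-, x, y', hx, hy', h1⟩
      obtain ⟨rfl, h2⟩ := op_inj.1 h1
      exact ⟨x, by rwa [hgi y y' hy hy' h2], rfl⟩
    · rintro ⟨x, hx, rfl⟩
      exact ⟨⟨hg.2 x (hα.trans hx hy), hg.2 y hy⟩, x, y, hx, hy, rfl⟩
  have hwf : Wf Q W := by
    intro S hS hne
    by_cases hc : ∃ x, x ∈ α ∧ ap g x ∈ S
    · obtain ⟨x, hx, hxS, hmin⟩ := hα.least (P := fun x => ap g x ∈ S)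
        (by simp (maxDischargeDepth := 50)) hc
      refine ⟨ap g x, hxS, fun y hy hyW => ?_⟩
      obtain ⟨x', hx', rfl⟩ := (hW x hx y).1 hyW
      exact hmin x' hx' hy
    · obtain ⟨m, hm⟩ := hne
      refine ⟨m, hm, fun y _ hyW => ?_⟩
      obtain ⟨-, x, y', -, hy', h1⟩ := (mem_sp hd).1 hyW
      obtain ⟨-, rfl⟩ := op_inj.1 h1
      exact hc ⟨y', hy', hm⟩
  obtain ⟨c, hc, hcz⟩ := exists_collapse hwf
  have key : ∀ x, x ∈ α → ap c (ap g x) = x := by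
    refine hα.ind (P := fun x => ap c (ap g x) = x) (by simp (maxDischargeDepth := 50)) ?_
    intro x hx ih
    refine ext' fun z => ?_
    rw [hcz _ (hg.2 x hx)]
    constructor
    · rintro ⟨y, -, hy, rfl⟩
      obtain ⟨x', hx', rfl⟩ := (hW x hx y).1 hy
      rwa [ih x' hx']
    · intro hz
      exact ⟨ap g z, hg.2 z (hα.trans hz hx), (hW x hx _).2 ⟨z, hz, rfl⟩, (ih z hz).symm⟩
  refine ⟨W, mem_pw.2 fun z hz => ((mem_sp hd).1 hz).1, fun x hx => ?_⟩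
  have h1 := mem_clp hwf hc hcz (hg.2 x hx)
  rwa [key x hx] at h1

theorem exists_hart (Q : M) : ∃ α : M, Ord α ∧ ¬ Le α Q := by
  by_contra hno
  push Not at hno
  obtain ⟨α, hα, hn⟩ := no_set_ord (sU (im (pw (pd Q Q)) (clp Q)))
  obtain ⟨W, hW, h⟩ := sb_clp (ord_sc hα) (hno _ (ord_sc hα))
  exact hn (mem_sU.2 ⟨_, (mem_im (clp.dt Q)).2 ⟨W, hW, rfl⟩, h α (mem_sc_self α)⟩)

/-- The Hartogs number. -/
noncomputable def hart (Q : M) : M := mu fun α => ¬ Le α Q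

theorem hart.dt : DT (fun w : Fin 1 → M => hart (w 0)) := by
  unfold hart
  refine dt_mu (P := fun (v : Fin 1 → M) α => ¬ Le α (v 0)) ?_
  simp (maxDischargeDepth := 50)

@[simp] theorem dt_hart {n : ℕ} {s : (Fin n → M) → M} (hs : DT s) :
    DT (fun v => hart (s v)) := dt1 hart.dt hs

theorem hart_spec (Q : M) : Ord (hart Q) ∧ ¬ Le (hart Q) Q := by
  obtain ⟨h1, h2, -⟩ := mu_spec (P := fun α => ¬ Le α Q) (by simp (maxDischargeDepth := 50))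
    (exists_hart Q)
  exact ⟨h1, h2⟩

/-! ### The natural numbers -/

theorem fi_of_mem_om {n : M} (hn : n ∈ (om : M)) : Fi n := by
  refine om_ind (P := fun n => Fi n) (by simp (maxDischargeDepth := 50)) fi_em ?_ n hn
  intro n hn ih
  unfold sc
  refine fi_un om_ord (om_ord.sb hn) (fun z hz => ?_) ih (fi_single n)
  rw [mem_pr, or_self] at hz
  rwa [hz]

/-! ### The order of the indices -/

/-- The order of the indices `op a n` : `y` is before `x`. -/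
def RI (h y x : M) : Prop :=
  p1 y ∈ p1 x ∨ (p1 y = p1 x ∧ p2 x ∈ p2 y ∧ Sb (p2 y) (ap h (p1 x)))

theorem RI.dfn : Dfn (fun w : Fin 3 → M => RI (w 0) (w 1) (w 2)) := by
  unfold RI; simp (maxDischargeDepth := 50)

@[simp] theorem dfn_RI {n : ℕ} {s t r : (Fin n → M) → M} (hs : DT s) (ht : DT t) (hr : DT r) :
    Dfn (fun v => RI (s v) (t v) (r v)) := dfn3 RI.dfn hs ht hr

/-- The order of the indices as a set. -/
noncomputable def rI (k h : M) : M :=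
  sp (pd (pd k om) (pd k om)) fun z => ∃ y x, z = op y x ∧ RI h y x

theorem op_mem_rI {k h y x : M} :
    op y x ∈ rI k h ↔ (y ∈ pd k om ∧ x ∈ pd k om) ∧ RI h y x := by
  unfold rI
  rw [mem_sp (by simp (maxDischargeDepth := 50)), op_mem_pd]
  refine and_congr_right fun _ => ?_
  constructor
  · rintro ⟨y', x', h1, h2⟩
    obtain ⟨rfl, rfl⟩ := op_inj.1 h1
    exact h2
  · intro h1
    exact ⟨y, x, rfl, h1⟩

theorem wf_rI {k h : M} (hh : h ∈ fs k om) : Wf (pd k om) (rI k h) := by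
  rw [mem_fs] at hh
  rintro S hS ⟨x, hx⟩
  -- the least first coordinate
  obtain ⟨a, ha, hmin⟩ := IsZF.found (im S p1) ⟨p1 x, (mem_im p1.dt).2 ⟨x, hx, rfl⟩⟩
  obtain ⟨x0, hx0, rfl⟩ := (mem_im p1.dt).1 ha
  obtain ⟨a, hak, n0, hn0, rfl⟩ := mem_pd.1 (hS x0 hx0)
  rw [p1_op] at hmin
  have hlow : ∀ y, y ∈ S → p1 y ∉ a := fun y hy h1 => hmin _ h1 ((mem_im p1.dt).2 ⟨y, hy, rfl⟩)
  have hd : Dfn (fun w : Fin 1 → M => op a (w 0) ∈ S) := by simp (maxDischargeDepth := 50)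
  by_cases hc : ∃ n, n ∈ (om : M) ∧ op a n ∈ S ∧ n ∉ ap h a
  · obtain ⟨n, hn, hnS, hna⟩ := hc
    refine ⟨op a n, hnS, fun y hy hyr => ?_⟩
    have h1 := (op_mem_rI.1 hyr).2
    unfold RI at h1
    rw [p1_op, p2_op] at h1
    rcases h1 with h1 | ⟨-, h2, h3⟩
    · exact hlow y hy h1
    · exact hna (h3 n h2)
  · push Not at hc
    have hm : ∀ n, n ∈ sp om (fun n => op a n ∈ S) ↔ n ∈ (om : M) ∧ op a n ∈ S := fun n =>
      mem_sp hd
    obtain ⟨m, hm1, hm2⟩ := fi_of_mem_om (hh.2 a hak) (sp om fun n => op a n ∈ S) (fun n hn => by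
      rw [hm] at hn
      exact hc n hn.1 hn.2) ⟨n0, (hm n0).2 ⟨hn0, hx0⟩⟩
    rw [hm] at hm1
    refine ⟨op a m, hm1.2, fun y hy hyr => ?_⟩
    have h1 := (op_mem_rI.1 hyr).2
    unfold RI at h1
    rw [p1_op, p2_op] at h1
    rcases h1 with h1 | ⟨h1, h2, h3⟩
    · exact hlow y hy h1
    · obtain ⟨b, hb, i, hi, rfl⟩ := mem_pd.1 (hS y hy)
      rw [p1_op] at h1
      rw [p2_op] at h2
      subst h1
      rcases hm2 i ((hm i).2 ⟨hi, hy⟩) with h4 | h4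
      · exact not_mem_mem h2 h4
      · rw [h4] at h2
        exact not_mem_self _ h2

/-! ### The ordinals -/

/-- There are ordinals `f(a, n)` such that `f(x)` does not inject into `P × f(y)`, even for all
`y` before `x` together. -/
theorem exists_lams {k h P : M} (hh : h ∈ fs k om) : ∃ f, Fn f (pd k om) ∧
    ∀ x, x ∈ pd k om → ap f x = hart (pd P (sU (im (prd (pd k om) (rI k h) x) (ap f)))) := by
  obtain ⟨f, hf, hfr⟩ := recursion (wf_rI hh)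
    (G := fun x g => hart (pd P (sU (im (prd (pd k om) (rI k h) x) (ap g)))))
    (by simp (maxDischargeDepth := 50))
  refine ⟨f, hf, fun x hx => ?_⟩
  rw [hfr x hx]
  have hsub : Sb (prd (pd k om) (rI k h) x) (pd k om) := fun y hy => (mem_prd.1 hy).1
  have h1 : im (prd (pd k om) (rI k h) x) (ap (rs f (prd (pd k om) (rI k h) x))) =
      im (prd (pd k om) (rI k h) x) (ap f) := by
    refine ext' fun z => ?_
    rw [mem_im (by simp (maxDischargeDepth := 50)), mem_im (by simp (maxDischargeDepth := 50))]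
    refine exists_congr fun y => and_congr_right fun hy => ?_
    rw [ap_rs hf hsub hy]
  rw [h1]

/-! ### The sets -/

/-- The set of pairs `op v ξ` with `v ∈ P` and `ξ ∈ f(p1 v, n)`. -/
noncomputable def AA (P B f n : M) : M := sp (pd P B) fun z => p2 z ∈ ap f (op (p1 (p1 z)) n)

theorem AA.dt (P B f : M) : DT (fun w : Fin 1 → M => AA P B f (w 0)) := by
  unfold AA; simp (maxDischargeDepth := 50)

theorem mem_AA {P B f n z : M} : z ∈ AA P B f n ↔ z ∈ pd P B ∧ p2 z ∈ ap f (op (p1 (p1 z)) n) := by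
  unfold AA
  exact mem_sp (by simp (maxDischargeDepth := 50))

/-- **The levels which can be raised.** -/
theorem exists_rg {k s h : M} (hW : WF4 M Ix.i Iy.i) (hk : Ord k) (hP : ∃ u, u ∈ PP k s)
    (hh : h ∈ fs k om) : ∃ n, n ∈ (om : M) ∧ RG k s (sp k fun a => n ∈ ap h a) := by
  obtain ⟨f, hf, hfr⟩ := exists_lams (P := PP k s) hh
  obtain ⟨u0, hu0⟩ := hP
  have hfd : DT (fun w : Fin 1 → M => ap f (w 0)) := by simp (maxDischargeDepth := 50)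
  have hO : ∀ x, x ∈ pd k om → Ord (ap f x) := fun x hx => by
    rw [hfr x hx]
    exact (hart_spec _).1
  have hN : ∀ x, x ∈ pd k om →
      ¬ Le (ap f x) (pd (PP k s) (sU (im (prd (pd k om) (rI k h) x) (ap f)))) := fun x hx => by
    nth_rewrite 1 [hfr x hx]
    exact (hart_spec _).2
  have hT : ∀ x y, y ∈ prd (pd k om) (rI k h) x →
      Sb (ap f y) (sU (im (prd (pd k om) (rI k h) x) (ap f))) := fun x y hy z hz =>
    mem_sU.2 ⟨_, (mem_im hfd).2 ⟨y, hy, rfl⟩, hz⟩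
  have hmono : ∀ x y, x ∈ pd k om → y ∈ prd (pd k om) (rI k h) x → Sb (ap f y) (ap f x) := by
    intro x y hx hy
    rcases (hO x hx).sb_total (hO y (mem_prd.1 hy).1) with h1 | h1
    · exfalso
      refine hN x hx (le_iff.2 ⟨lam (ap f x) fun ξ => op u0 ξ, lam_mem_fs
        (by simp (maxDischargeDepth := 50)) fun ξ hξ => op_mem_pd.2 ⟨hu0, hT x y hy ξ (h1 ξ hξ)⟩,
        fun ξ η hξ hη h2 => ?_⟩)
      rw [ap_lam (by simp (maxDischargeDepth := 50)) hξ,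
        ap_lam (by simp (maxDischargeDepth := 50)) hη] at h2
      exact (op_inj.1 h2).2
    · exact h1
  have hstep : ∀ a n, a ∈ k → n ∈ (om : M) → Sb (ap f (op a (sc n))) (ap f (op a n)) := by
    intro a n ha hn
    by_cases hna : n ∈ ap h a
    · refine hmono _ _ (op_mem_pd.2 ⟨ha, hn⟩) (mem_prd.2 ⟨op_mem_pd.2 ⟨ha, sc_mem_om hn⟩,
        op_mem_rI.2 ⟨⟨op_mem_pd.2 ⟨ha, sc_mem_om hn⟩, op_mem_pd.2 ⟨ha, hn⟩⟩, Or.inr ?_⟩⟩)
      rw [p1_op, p1_op, p2_op, p2_op]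
      exact ⟨rfl, mem_sc_self n, (Ord.sc_sb_iff (ord_of_mem_om ((mem_fs.1 hh).2 a ha))).2 hna⟩
    · have hprd : ∀ m, m ∈ (om : M) → m ∉ ap h a → ∀ y, y ∈ prd (pd k om) (rI k h) (op a m) ↔
          y ∈ pd k om ∧ p1 y ∈ a := by
        intro m hm hma y
        rw [mem_prd, op_mem_rI]
        constructor
        · rintro ⟨h1, -, h2⟩
          refine ⟨h1, ?_⟩
          unfold RI at h2
          rw [p1_op, p2_op] at h2
          rcases h2 with h2 | ⟨-, h2, h3⟩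
          · exact h2
          · exact (hma (h3 m h2)).elim
        · rintro ⟨h1, h2⟩
          exact ⟨h1, ⟨h1, op_mem_pd.2 ⟨ha, hm⟩⟩, Or.inl (by rwa [p1_op])⟩
      have hsn : sc n ∉ ap h a := fun h1 =>
        hna ((ord_of_mem_om ((mem_fs.1 hh).2 a ha)).trans (mem_sc_self n) h1)
      have h1 : prd (pd k om) (rI k h) (op a (sc n)) = prd (pd k om) (rI k h) (op a n) :=
        ext' fun y => by rw [hprd _ (sc_mem_om hn) hsn, hprd n hn hna]
      rw [hfr _ (op_mem_pd.2 ⟨ha, sc_mem_om hn⟩), hfr _ (op_mem_pd.2 ⟨ha, hn⟩), h1]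
      exact Sb.refl _
  -- the sets
  let B : M := sU (im (pd k om) (ap f))
  have hmA : ∀ v ξ n, n ∈ (om : M) →
      (op v ξ ∈ AA (PP k s) B f n ↔ v ∈ PP k s ∧ ξ ∈ ap f (op (p1 v) n)) := by
    intro v ξ n hn
    rw [mem_AA, op_mem_pd, p1_op, p2_op]
    constructor
    · rintro ⟨⟨h1, -⟩, h2⟩
      exact ⟨h1, h2⟩
    · rintro ⟨h1, h2⟩
      exact ⟨⟨h1, mem_sU.2 ⟨_, (mem_im hfd).2 ⟨_, op_mem_pd.2 ⟨PP.p1_mem hk h1, hn⟩, rfl⟩, h2⟩⟩, h2⟩
  have hAp : ∀ n z, z ∈ AA (PP k s) B f n → z = op (p1 z) (p2 z) := by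
    intro n z hz
    obtain ⟨v, -, ξ, -, rfl⟩ := mem_pd.1 (mem_AA.1 hz).1
    rw [p1_op, p2_op]
  have hAsb : ∀ n, n ∈ (om : M) → Sb (AA (PP k s) B f (sc n)) (AA (PP k s) B f n) := by
    intro n hn z hz
    have h1 := hAp _ z hz
    rw [h1, hmA _ _ _ (sc_mem_om hn)] at hz
    rw [h1, hmA _ _ _ hn]
    exact ⟨hz.1, hstep _ n (PP.p1_mem hk hz.1) hn _ hz.2⟩
  have hd1 : DT (fun w : Fin 1 → M => AA (PP k s) B f (w 0)) := AA.dt _ _ _
  have hd2 : DT (fun w : Fin 1 → M => idn (AA (PP k s) B f (sc (w 0)))) := by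
    have h1 : DT (fun w : Fin 1 → M => AA (PP k s) B f (sc (w 0))) :=
      dt1 (AA.dt _ _ _) (dt_sc (DT.var 0))
    unfold idn
    exact dt_lam h1 (DT.var 0)
  obtain ⟨n, m, A, A', hn, hm, hA, hA', hle⟩ := hW om (lam om fun n => AA (PP k s) B f n)
    (lam om fun n => idn (AA (PP k s) B f (sc n))) (isOmega_iff.2 rfl) (isSeq_iff.2 (fn_lam hd1))
    (isSeq_iff.2 (fn_lam hd2)) (by
      intro n m A A' g hn hm hA hA' hg
      rw [isSucc_iff] at hm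
      subst hm
      obtain ⟨-, rfl⟩ := (val_fn (fn_lam hd1)).1 hA
      obtain ⟨-, rfl⟩ := (val_fn (fn_lam hd1)).1 hA'
      obtain ⟨-, rfl⟩ := (val_fn (fn_lam hd2)).1 hg
      rw [ap_lam hd1 hn, ap_lam hd1 (sc_mem_om hn), ap_lam hd2 hn]
      refine isInjection_iff.2 ⟨idn_mem_fs (hAsb n hn), fun x y hx hy h => ?_⟩
      rwa [ap_idn hx, ap_idn hy] at h)
  rw [isSucc_iff] at hm
  subst hm
  obtain ⟨-, rfl⟩ := (val_fn (fn_lam hd1)).1 hA
  obtain ⟨-, rfl⟩ := (val_fn (fn_lam hd1)).1 hA'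
  rw [ap_lam hd1 hn, ap_lam hd1 (sc_mem_om hn)] at hle
  obtain ⟨φ, hφ, hφi⟩ := le_iff.1 hle
  rw [mem_fs] at hφ
  -- the level is raised
  have hex : ∀ u, u ∈ PP k s → n ∈ ap h (p1 u) →
      ∃ ξ, ξ ∈ ap f (op (p1 u) n) ∧ p1 u ∈ p1 (p1 (ap φ (op u ξ))) := by
    intro u hu hnu
    by_contra hno
    push Not at hno
    have ha := PP.p1_mem hk hu
    have hx : op (p1 u) n ∈ pd k om := op_mem_pd.2 ⟨ha, hn⟩
    have hd3 : DT (fun w : Fin 1 → M => ap φ (op u (w 0))) := by simp (maxDischargeDepth := 50)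
    refine hN _ hx (le_iff.2 ⟨lam (ap f (op (p1 u) n)) fun ξ => ap φ (op u ξ),
      lam_mem_fs hd3 fun ξ hξ => ?_, fun ξ η hξ hη h2 => ?_⟩)
    · have h1 := hφ.2 _ ((hmA u ξ n hn).2 ⟨hu, hξ⟩)
      have h2 := hAp _ _ h1
      rw [h2, hmA _ _ _ (sc_mem_om hn)] at h1
      rw [h2, op_mem_pd]
      refine ⟨h1.1, hT _ (op (p1 (p1 (ap φ (op u ξ)))) (sc n)) ?_ _ h1.2⟩
      have hb := PP.p1_mem hk h1.1
      have hy : op (p1 (p1 (ap φ (op u ξ)))) (sc n) ∈ pd k om := op_mem_pd.2 ⟨hb, sc_mem_om hn⟩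
      refine mem_prd.2 ⟨hy, op_mem_rI.2 ⟨⟨hy, hx⟩, ?_⟩⟩
      unfold RI
      rw [p1_op, p1_op, p2_op, p2_op]
      rcases (hk.mem hb).tri (hk.mem ha) with h3 | h3 | h3
      · exact Or.inl h3
      · exact Or.inr ⟨h3, mem_sc_self n,
          (Ord.sc_sb_iff (ord_of_mem_om ((mem_fs.1 hh).2 _ ha))).2 hnu⟩
      · exact (hno ξ hξ h3).elim
    · rw [ap_lam hd3 hξ, ap_lam hd3 hη] at h2
      exact (op_inj.1 (hφi _ _ ((hmA u ξ n hn).2 ⟨hu, hξ⟩) ((hmA u η n hn).2 ⟨hu, hη⟩) h2)).2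
  refine ⟨n, hn, RG.of_dt (F := fun u => p1 (ap φ (op u (mu fun ξ => ξ ∈ ap f (op (p1 u) n) ∧
    p1 u ∈ p1 (p1 (ap φ (op u ξ))))))) ?_ fun u hu hB => ?_⟩
  · have h1 : DT (fun w : Fin 1 → M => mu fun ξ => ξ ∈ ap f (op (p1 (w 0)) n) ∧
        p1 (w 0) ∈ p1 (p1 (ap φ (op (w 0) ξ)))) := by
      refine dt_mu (P := fun (v : Fin 1 → M) ξ => ξ ∈ ap f (op (p1 (v 0)) n) ∧
        p1 (v 0) ∈ p1 (p1 (ap φ (op (v 0) ξ)))) ?_
      simp (maxDischargeDepth := 50)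
    exact dt_p1 (dt_ap (DT.const φ) (dt_op (DT.var 0) h1))
  · rw [mem_sp (by simp (maxDischargeDepth := 50))] at hB
    obtain ⟨ξ0, hξ0, hξ0'⟩ := hex u hu hB.2
    have hx : op (p1 u) n ∈ pd k om := op_mem_pd.2 ⟨hB.1, hn⟩
    obtain ⟨-, ⟨h1, h2⟩, -⟩ := mu_spec (P := fun ξ => ξ ∈ ap f (op (p1 u) n) ∧
      p1 u ∈ p1 (p1 (ap φ (op u ξ)))) (by simp (maxDischargeDepth := 50))
      ⟨ξ0, (hO _ hx).mem hξ0, hξ0, hξ0'⟩
    refine ⟨?_, h2⟩
    have h3 := hφ.2 _ ((hmA u _ n hn).2 ⟨hu, h1⟩)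
    rw [hAp _ _ h3, hmA _ _ _ (sc_mem_om hn)] at h3
    exact h3.1

end Pool.Agent.ZFW
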