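import Pool.Agent.ZFW.BAtom
import Pool.Agent.ZFW.BLam
import Pool.Agent.ZFW.BMeas
import Pool.Agent.ZFW.BImp

/-!
# MP_831107_lc, second theorem : choice for well-ordered families from `WF^x_yk`, `y ≠ s`

If one of the principles `WF^x_yk` with `y ≠ s` holds and `k` is the least ordinal such that some
family of nonempty sets indexed by `k` has no choice function, then `k` is a measurable cardinal.
-/

universe u

set_option linter.unusedSectionVars false

namespace Pool.Agent.ZFW

open Pool.Agent.SigB Pool.Agent.GL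

variable {M : Type u} [Membership M M] [GL.IsZF M]

theorem em_mem_PP {k s : M} (hk : Ord k) (h : (GL.em : M) ∈ k) : op GL.em GL.em ∈ PP k s :=
  (op_mem_PP hk).2 ⟨h, ⟨fun z hz => (not_mem_em z hz).elim, fun x hx => (not_mem_em x hx).elim⟩,
    fun b hb => (not_mem_em b hb).elim⟩

/-- The least ordinal at which choice fails is a measurable cardinal. -/
theorem isMeasurable_of_least (hW : WF4 M Ix.i Iy.i) {k : M} (hk : Ord k) (hnac : ¬ Acf k)
    (hac : ∀ l, l ∈ k → Acf l) : IsMeasurable k := by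
  obtain ⟨s, -, hne, hno⟩ := exists_family hnac
  have hlim := limit_of_least hk hnac hac
  have hem : (GL.em : M) ∈ k := hk.em_mem (by rintro rfl; exact hnac acf_em)
  have hB1 : ∀ h, h ∈ fs k GL.om →
      ∃ n, n ∈ (GL.om : M) ∧ RG k s (sp k fun a => n ∈ ap h a) := fun h hh =>
    exists_rg hW hk ⟨_, em_mem_PP hk hem⟩ hh
  have hom := om_mem_of_tails hk hlim hem hne hno hB1
  obtain ⟨A, hA, hA', hat⟩ := exists_atom hk hB1 hno (hac _ hom)
  exact isMeasurable_of_atom hk hnac hac hom hne hA hA' hat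

/-- Each principle `WF^x_yk` with `y ≠ s` implies `AC_ω`, and it implies `AC_κ` for every
ordinal `κ` unless the least ordinal at which choice fails is a measurable cardinal. -/
theorem choice_of_wf {x : Ix} {y : Iy} (hy : y ≠ Iy.s)
    (h : WF1 M x y ∨ WF2 M x y ∨ WF3 M x y ∨ WF4 M x y) :
    (∀ w : M, IsOmega w → ACk w) ∧
    ∀ k : M, IsOrdinal k → ACk k ∨
      ∃ m : M, (m ∈ k ∨ m = k) ∧ IsMeasurable m ∧ ¬ ACk m ∧ ∀ l : M, l ∈ m → ACk l := by
  have hW := wf4_ii hy h
  have hmain : ∀ k : M, IsOrdinal k → ACk k ∨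
      ∃ m : M, (m ∈ k ∨ m = k) ∧ IsMeasurable m ∧ ¬ ACk m ∧ ∀ l : M, l ∈ m → ACk l := by
    intro k hk
    by_cases hc : ACk k
    · exact Or.inl hc
    · obtain ⟨m, hm, hmk, hm1, hm2⟩ := exists_least_fail (κ := k) hk fun h => hc (ack_iff.2 h)
      exact Or.inr ⟨m, hmk, isMeasurable_of_least hW hm hm1 hm2, fun h => hm1 (ack_iff.1 h),
        fun l hl => ack_iff.2 (hm2 l hl)⟩
  refine ⟨fun w hw => ?_, hmain⟩
  obtain rfl := isOmega_iff.1 hw
  rcases hmain GL.om om_ord with h1 | ⟨m, hm, ⟨-, ⟨o, ho, hom⟩, -⟩, -⟩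
  · exact h1
  · obtain rfl := isOmega_iff.1 ho
    rcases hm with hm | rfl
    · exact (not_mem_mem hom hm).elim
    · exact (not_mem_self _ hom).elim

end Pool.Agent.ZFW
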