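import Pool.Agent.ZFW.BDef

/-!
The ideal of the sets of levels which can be raised. `PP k s` is the set of the partial choice
functions of the family `s` on `k` whose domain is an ordinal in `k`; `RG k s B` says that there
is a function which raises the level of all partial choice functions of level in `B`.
-/

universe u

set_option linter.unusedSectionVars false

namespace Pool.Agent.ZFW

open Pool.Agent.SigB Pool.Agent.GL

variable {M : Type u} [Membership M M] [GL.IsZF M]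


/-! ### Extending a function by one value -/

theorem fn_snoc {p n x : M} (hp : Fn p n) : Fn (un p (pr (op n x) (op n x))) (sc n) ∧
    (∀ b, b ∈ n → ap (un p (pr (op n x) (op n x))) b = ap p b) ∧
    ap (un p (pr (op n x) (op n x))) n = x := by
  have hmem : ∀ b y, op b y ∈ un p (pr (op n x) (op n x)) ↔ op b y ∈ p ∨ (b = n ∧ y = x) := by
    intro b y
    rw [mem_un, mem_pr, or_self, op_inj]
  have hdom : ∀ b y, op b y ∈ p → b ∈ n := by
    intro b y h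
    obtain ⟨b', hb', he⟩ := hp.mem_iff.1 h
    rw [(op_inj.1 he).1]; exact hb'
  have hfn : Fn (un p (pr (op n x) (op n x))) (sc n) := by
    constructor
    · intro z hz
      rcases mem_un.1 hz with h | h
      · obtain ⟨b, hb, y, rfl⟩ := hp.1 z h
        exact ⟨b, mem_sc.2 (Or.inl hb), y, rfl⟩
      · rw [mem_pr, or_self] at h
        exact ⟨n, mem_sc_self n, x, h⟩
    · intro b hb
      rcases mem_sc.1 hb with h | rfl
      · obtain ⟨y, hy, hu⟩ := hp.2 b h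
        refine ⟨y, (hmem _ _).2 (Or.inl hy), fun y' hy' => ?_⟩
        rcases (hmem _ _).1 hy' with h3 | ⟨h3, -⟩
        · exact hu y' h3
        · rw [h3] at h
          exact absurd h (not_mem_self n)
      · refine ⟨x, (hmem _ _).2 (Or.inr ⟨rfl, rfl⟩), fun y' hy' => ?_⟩
        rcases (hmem _ _).1 hy' with h3 | ⟨-, h3⟩
        · exact absurd (hdom _ _ h3) (not_mem_self b)
        · exact h3
  refine ⟨hfn, fun b hb => ?_, ?_⟩
  · exact (hfn.op_mem_iff (mem_sc.2 (Or.inl hb))).1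
      ((hmem _ _).2 (Or.inl ((hp.op_mem_iff hb).2 rfl)))
  · exact (hfn.op_mem_iff (mem_sc_self n)).1 ((hmem _ _).2 (Or.inr ⟨rfl, rfl⟩))

/-! ### The ideal -/

theorem PP_eq {k s u : M} (hk : Ord k) (h : u ∈ PP k s) : u = op (p1 u) (p2 u) ∧ p1 u ∈ k ∧
    Fn (p2 u) (p1 u) ∧ ∀ b, b ∈ p1 u → ap (p2 u) b ∈ ap s b :=
  ⟨PP.eq_op hk h, PP.p1_mem hk h, PP.fn hk h, fun _ hb => PP.ap_mem hk h hb⟩

theorem RG.mono' {k s B B' : M} (hk : Ord k) (h : RG k s B')
    (hB : ∀ b, b ∈ B → b ∈ k → b ∈ B') : RG k s B := by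
  obtain ⟨psi, hpsi⟩ := h
  exact ⟨psi, fun u hu hB' => hpsi u hu (hB _ hB' (PP_eq hk hu).2.1)⟩

theorem RG.mono {k s B C : M} (hB : Sb B C) (h : RG k s C) : RG k s B := by
  obtain ⟨psi, hpsi⟩ := h
  exact ⟨psi, fun u hu hB' => hpsi u hu (hB _ hB')⟩

theorem RG.single {k s a : M} (hk : Ord k) (ha : sc a ∈ k) (hx : ∃ x, x ∈ ap s a) : RG k s (pr a a) := by
  obtain ⟨x, hx⟩ := hx
  refine RG.of_dt (F := fun u => op (sc a) (un (p2 u) (pr (op a x) (op a x))))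
    (by simp (maxDischargeDepth := 50)) fun u hu hB => ?_
  rw [mem_pr, or_self] at hB
  obtain ⟨h1, h2, h3, h4⟩ := PP_eq hk hu
  rw [hB] at h3 h4
  obtain ⟨h5, h6, h7⟩ := fn_snoc (x := x) h3
  rw [p1_op, hB, op_mem_PP hk]
  refine ⟨⟨ha, h5, fun b hb => ?_⟩, mem_sc_self a⟩
  rcases mem_sc.1 hb with hb | rfl
  · rw [h6 b hb]
    exact h4 b hb
  · rw [h7]
    exact hx

theorem RG.empty {k s B : M} (h : ∀ b, b ∉ B) : RG k s B :=
  ⟨GL.em, fun _ _ hB => (h _ hB).elim⟩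

/-- The union of two members. -/
theorem RG.union₂ {k s B B₁ B₂ : M} (hk : Ord k) (h₁ : RG k s B₁) (h₂ : RG k s B₂)
    (hB : ∀ b, b ∈ B → b ∈ k → b ∈ B₁ ∨ b ∈ B₂) : RG k s B := by
  obtain ⟨psi₁, h₁⟩ := h₁
  obtain ⟨psi₂, h₂⟩ := h₂
  have hd : DT (fun w : Fin 1 → M => cp fun z => (p1 (w 0) ∈ B₁ ∧ z ∈ ap psi₁ (w 0)) ∨
      (p1 (w 0) ∉ B₁ ∧ z ∈ ap psi₂ (w 0))) := by
    simp (maxDischargeDepth := 50)
  refine RG.of_dt (F := fun u => cp fun z => (p1 u ∈ B₁ ∧ z ∈ ap psi₁ u) ∨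
      (p1 u ∉ B₁ ∧ z ∈ ap psi₂ u)) hd fun u hu hu' => ?_
  by_cases hc : p1 u ∈ B₁
  · have h3 : ∀ z, z ∈ ap psi₁ u ↔ (p1 u ∈ B₁ ∧ z ∈ ap psi₁ u) ∨
        (p1 u ∉ B₁ ∧ z ∈ ap psi₂ u) := fun z => by simp [hc]
    have e : (cp fun z => (p1 u ∈ B₁ ∧ z ∈ ap psi₁ u) ∨ (p1 u ∉ B₁ ∧ z ∈ ap psi₂ u)) =
        ap psi₁ u := (ext' fun z => by rw [h3 z]; exact mem_cp ⟨ap psi₁ u, h3⟩)
    rw [e]
    exact h₁ u hu hc
  · have h3 : ∀ z, z ∈ ap psi₂ u ↔ (p1 u ∈ B₁ ∧ z ∈ ap psi₁ u) ∨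
        (p1 u ∉ B₁ ∧ z ∈ ap psi₂ u) := fun z => by simp [hc]
    have e : (cp fun z => (p1 u ∈ B₁ ∧ z ∈ ap psi₁ u) ∨ (p1 u ∉ B₁ ∧ z ∈ ap psi₂ u)) =
        ap psi₂ u := (ext' fun z => by rw [h3 z]; exact mem_cp ⟨ap psi₂ u, h3⟩)
    rw [e]
    exact h₂ u hu ((hB _ hu' (PP_eq hk hu).2.1).resolve_left hc)

/-- The union of fewer than `k` members. -/
theorem RG.union' {k s l F B : M} (hk : Ord k) (hl : Ord l) (hac : Acf l)
    (hF : ∀ i, i ∈ l → RG k s (ap F i))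
    (hB : ∀ b, b ∈ B → b ∈ k → ∃ i, i ∈ l ∧ b ∈ ap F i) : RG k s B := by
  -- the sets of raising functions
  have hdS : DT (fun w : Fin 1 → M => sp (fs (PP k s) (un (PP k s) (pr GL.em GL.em))) fun f =>
      ∀ u, u ∈ PP k s → p1 u ∈ ap F (w 0) → ap f u ∈ PP k s ∧ p1 u ∈ p1 (ap f u)) := by
    simp (maxDischargeDepth := 50)
  let S : M := lam l fun i => sp (fs (PP k s) (un (PP k s) (pr GL.em GL.em))) fun f =>
      ∀ u, u ∈ PP k s → p1 u ∈ ap F i → ap f u ∈ PP k s ∧ p1 u ∈ p1 (ap f u)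
  have hmS : ∀ i, i ∈ l → ∀ f, f ∈ ap S i ↔ f ∈ fs (PP k s) (un (PP k s) (pr GL.em GL.em)) ∧
      ∀ u, u ∈ PP k s → p1 u ∈ ap F i → ap f u ∈ PP k s ∧ p1 u ∈ p1 (ap f u) := by
    intro i hi f
    rw [ap_lam hdS hi]
    exact mem_sp (P := fun f => ∀ u, u ∈ PP k s → p1 u ∈ ap F i →
      ap f u ∈ PP k s ∧ p1 u ∈ p1 (ap f u)) (by simp (maxDischargeDepth := 50))
  obtain ⟨c, hc, hc'⟩ := hac S (fn_lam hdS) fun i hi => by
    obtain ⟨psi, hpsi⟩ := hF i hi
    -- cut off the values outside `PP k s`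
    have hd : DT (fun w : Fin 1 → M => cp fun z => ap psi (w 0) ∈ PP k s ∧
        z ∈ ap psi (w 0)) := by simp (maxDischargeDepth := 50)
    have e1 : ∀ u, ap psi u ∈ PP k s → (cp fun z => ap psi u ∈ PP k s ∧ z ∈ ap psi u) =
        ap psi u := by
      intro u hu
      have h3 : ∀ z, z ∈ ap psi u ↔ (ap psi u ∈ PP k s ∧ z ∈ ap psi u) := fun z => by simp [hu]
      exact ext' fun z => by rw [h3 z]; exact mem_cp ⟨ap psi u, h3⟩
    have e2 : ∀ u, ap psi u ∉ PP k s → (cp fun z => ap psi u ∈ PP k s ∧ z ∈ ap psi u) =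
        (GL.em : M) := by
      intro u hu
      have h3 : ∀ z, z ∈ (GL.em : M) ↔ (ap psi u ∈ PP k s ∧ z ∈ ap psi u) := fun z => by
        simp [hu, not_mem_em]
      exact ext' fun z => by rw [h3 z]; exact mem_cp ⟨GL.em, h3⟩
    refine ⟨lam (PP k s) fun u => cp fun z => ap psi u ∈ PP k s ∧ z ∈ ap psi u,
      (hmS i hi _).2 ⟨lam_mem_fs hd fun u hu => ?_, fun u hu hui => ?_⟩⟩
    · by_cases h : ap psi u ∈ PP k s
      · rw [e1 u h]
        exact mem_un.2 (Or.inl h)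
      · rw [e2 u h]
        exact mem_un.2 (Or.inr (by simp))
    · obtain ⟨h1, h2⟩ := hpsi u hu hui
      rw [ap_lam hd hu, e1 u h1]
      exact ⟨h1, h2⟩
  -- the raising function of the least index
  have hdI : DT (fun w : Fin 1 → M => mu fun i => i ∈ l ∧ p1 (w 0) ∈ ap F i) := by
    refine dt_mu (P := fun (v : Fin 1 → M) i => i ∈ l ∧ p1 (v 0) ∈ ap F i) ?_
    simp (maxDischargeDepth := 50)
  refine RG.of_dt (F := fun u => ap (ap c (mu fun i => i ∈ l ∧ p1 u ∈ ap F i)) u)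
    (dt_ap (dt_ap (DT.const c) hdI) (DT.var 0)) fun u hu hB' => ?_
  obtain ⟨i, hi, hi'⟩ := hB _ hB' (PP_eq hk hu).2.1
  obtain ⟨-, ⟨h1, h2⟩, -⟩ := mu_spec (P := fun i => i ∈ l ∧ p1 u ∈ ap F i)
    (by simp (maxDischargeDepth := 50)) ⟨i, hl.mem hi, hi, hi'⟩
  exact ((hmS _ h1 _).1 (hc' _ h1)).2 u hu h2

/-- The union of fewer than `k` members. -/
theorem RG.union {k s l t : M} (hk : Ord k) (hl : l ∈ k) (hac : Acf l)
    (ht : ∀ i, i ∈ l → RG k s (ap t i)) :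
    RG k s (sp k fun a => ∃ i, i ∈ l ∧ a ∈ ap t i) :=
  RG.union' hk (hk.mem hl) hac ht fun b hb _ =>
    ((mem_sp (P := fun a => ∃ i, i ∈ l ∧ a ∈ ap t i) (by simp (maxDischargeDepth := 50))).1 hb).2

/-! ### The whole set of levels does not belong to the ideal -/

/-- the union of the levels of the earlier values -/
noncomputable def bS (x h : M) : M := sU (im x fun e => p1 (ap h e))

/-- the function glued from the earlier values -/
noncomputable def bQ (x h : M) : M :=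
  lam (bS x h) fun b => ap (p2 (ap h (mu fun e => e ∈ x ∧ b ∈ p1 (ap h e)))) b

theorem bS.dt : DT (fun w : Fin 2 → M => bS (w 0) (w 1)) := by
  unfold bS; simp (maxDischargeDepth := 50)

@[simp] theorem dt_bS {n : ℕ} {s t : (Fin n → M) → M} (hs : DT s) (ht : DT t) :
    DT (fun v => bS (s v) (t v)) := dt2 bS.dt hs ht

theorem bMu.dt : DT (fun w : Fin 3 → M => mu fun e => e ∈ w 1 ∧ w 0 ∈ p1 (ap (w 2) e)) := by
  refine dt_mu (P := fun (v : Fin 3 → M) e => e ∈ v 1 ∧ v 0 ∈ p1 (ap (v 2) e)) ?_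
  simp (maxDischargeDepth := 50)

theorem bQ.dt : DT (fun w : Fin 2 → M => bQ (w 0) (w 1)) := by
  unfold bQ
  refine dt_lam (F := fun (v : Fin 2 → M) b =>
    ap (p2 (ap (v 1) (mu fun e => e ∈ v 0 ∧ b ∈ p1 (ap (v 1) e)))) b) (by simp) ?_
  have h := bMu.dt (M := M)
  simp (maxDischargeDepth := 50) [h]

@[simp] theorem dt_bQ {n : ℕ} {s t : (Fin n → M) → M} (hs : DT s) (ht : DT t) :
    DT (fun v => bQ (s v) (t v)) := dt2 bQ.dt hs ht

theorem mem_bS {x h b : M} : b ∈ bS x h ↔ ∃ e, e ∈ x ∧ b ∈ p1 (ap h e) := by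
  unfold bS
  rw [mem_sU]
  constructor
  · rintro ⟨y, hy, hb⟩
    obtain ⟨e, he, rfl⟩ := (mem_im (by simp (maxDischargeDepth := 50))).1 hy
    exact ⟨e, he, hb⟩
  · rintro ⟨e, he, hb⟩
    exact ⟨_, (mem_im (by simp (maxDischargeDepth := 50))).2 ⟨e, he, rfl⟩, hb⟩

theorem bQ_spec {k s x h : M} (hk : Ord k) (hx : Ord x) (hh : ∀ e, e ∈ x → ap h e ∈ PP k s) :
    Fn (bQ x h) (bS x h) ∧ ∀ b, b ∈ bS x h → ap (bQ x h) b ∈ ap s b := by
  have hd : DT (fun w : Fin 1 → M =>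
      ap (p2 (ap h (mu fun e => e ∈ x ∧ w 0 ∈ p1 (ap h e)))) (w 0)) := by
    have h1 : DT (fun w : Fin 1 → M => mu fun e => e ∈ x ∧ w 0 ∈ p1 (ap h e)) := by
      refine dt_mu (P := fun (v : Fin 1 → M) e => e ∈ x ∧ v 0 ∈ p1 (ap h e)) ?_
      simp (maxDischargeDepth := 50)
    exact dt_ap (dt_p2 (dt_ap (DT.const h) h1)) (DT.var 0)
  refine ⟨fn_lam hd, fun b hb => ?_⟩
  unfold bQ
  rw [ap_lam hd hb]
  obtain ⟨e, he, hbe⟩ := mem_bS.1 hb
  obtain ⟨-, ⟨h1, h2⟩, -⟩ := mu_spec (P := fun e => e ∈ x ∧ b ∈ p1 (ap h e))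
    (by simp (maxDischargeDepth := 50)) ⟨e, hx.mem he, he, hbe⟩
  exact (PP_eq hk (hh _ h1)).2.2.2 b h2

/-- If `s` has no choice function on `k`, then the set of all levels does not belong to the
ideal. -/
theorem not_rg {k s : M} (hk : Ord k) (hs : ¬ ∃ c, Fn c k ∧ ∀ a, a ∈ k → ap c a ∈ ap s a) :
    ¬ RG k s k := by
  rintro ⟨psi, hpsi⟩
  let G : M → M → M := fun x h => ap psi (op (bS x h) (bQ x h))
  have hG : DT (fun w : Fin 2 → M => G (w 0) (w 1)) := by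
    simp (maxDischargeDepth := 50) [G]
  have hG' : DT (fun w : Fin 3 → M => G (w 1) (w 0)) := dt2 hG (DT.var 1) (DT.var 0)
  have hd : DT (fun w : Fin 1 → M => orec G (w 0)) :=
    dt_orec (G := fun _ => G) hG' (DT.var 0)
  have hd' : ∀ {n : ℕ} {t : (Fin n → M) → M}, DT t → DT fun v => orec G (t v) :=
    fun ht => dt1 hd ht
  have hO : Ord (sc k) := ord_sc hk
  -- all values belong to `PP k s`
  have h1 : ∀ x, x ∈ sc k → orec G x ∈ PP k s ∧
      bS x (lam x (orec G)) ∈ p1 (orec G x) := by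
    refine hO.ind (P := fun x => orec G x ∈ PP k s ∧ bS x (lam x (orec G)) ∈ p1 (orec G x))
      (by simp (maxDischargeDepth := 50) [hd']) ?_
    intro x hx ih
    have hxO : Ord x := hO.mem hx
    have hval : ∀ e, e ∈ x → ap (lam x (orec G)) e = orec G e := fun e he => ap_lam hd he
    have hmem : ∀ e, e ∈ x → ap (lam x (orec G)) e ∈ PP k s := fun e he => by
      rw [hval e he]
      exact (ih e he).1
    obtain ⟨h2, h3⟩ := bQ_spec hk hxO hmem
    have h4 : ∀ e, e ∈ x → p1 (ap (lam x (orec G)) e) ∈ k := fun e he => (PP_eq hk (hmem e he)).2.1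
    have h5 : Ord (bS x (lam x (orec G))) := by
      refine ord_sU fun y hy => ?_
      obtain ⟨e, he, rfl⟩ := (mem_im (by simp (maxDischargeDepth := 50))).1 hy
      exact hk.mem (h4 e he)
    have h6 : Sb (bS x (lam x (orec G))) k := fun b hb => by
      obtain ⟨e, he, hbe⟩ := mem_bS.1 hb
      exact hk.trans hbe (h4 e he)
    rcases (h5.sb_iff hk).1 h6 with h7 | h7
    · have h8 : op (bS x (lam x (orec G))) (bQ x (lam x (orec G))) ∈ PP k s :=
        (op_mem_PP hk).2 ⟨h7, h2, h3⟩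
      have h9 := hpsi _ h8 (by rw [p1_op]; exact h7)
      rw [p1_op] at h9
      rw [orec_eq hG hxO]
      exact h9
    · exact (hs ⟨bQ x (lam x (orec G)), by rw [h7] at h2; exact h2, fun a ha => by
        rw [← h7] at ha
        exact h3 a ha⟩).elim
  -- the levels grow
  have h2 : ∀ x, x ∈ sc k → Sb x (bS x (lam x (orec G))) := by
    refine hO.ind (P := fun x => Sb x (bS x (lam x (orec G))))
      (by simp (maxDischargeDepth := 50) [hd']) ?_
    intro x hx ih e he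
    have he' : e ∈ sc k := hO.trans he hx
    have h3 := ih e he
    obtain ⟨h4, h5⟩ := h1 e he'
    refine mem_bS.2 ⟨e, he, ?_⟩
    rw [ap_lam hd he]
    have h6 : Ord (p1 (orec G e)) := hk.mem (PP_eq hk h4).2.1
    exact Ord.mem_of_sb_of_mem h6 (hO.mem he') (h6.mem h5) h3 h5
  have h3 := h2 k (mem_sc_self k)
  obtain ⟨h4, h5⟩ := h1 k (mem_sc_self k)
  have h6 : p1 (orec G k) ∈ k := (PP_eq hk h4).2.1
  exact not_mem_self _ (h3 _ (hk.trans h5 h6))

/-! ### Tails -/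

theorem sb_of_dec {B : M} (hdec : ∀ n, n ∈ (GL.om : M) → Sb (ap B (sc n)) (ap B n)) :
    ∀ n, n ∈ (GL.om : M) → ∀ m, m ∈ sc n → Sb (ap B n) (ap B m) := by
  refine om_ind (P := fun n => ∀ m, m ∈ sc n → Sb (ap B n) (ap B m))
    (by simp (maxDischargeDepth := 50)) ?_ ?_
  · intro m hm
    rcases mem_sc.1 hm with h | rfl
    · exact (not_mem_em _ h).elim
    · exact Sb.refl _
  · intro n hn ih m hm
    rcases mem_sc.1 hm with h | rfl
    · exact fun z hz => ih m h z (hdec n hn z hz)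
    · exact Sb.refl _

/-- A decreasing sequence with empty intersection has a term in the ideal. -/
theorem RG.tails {k s B : M} (hk : Ord k)
    (hB1 : ∀ h, h ∈ fs k GL.om → ∃ n, n ∈ (GL.om : M) ∧ RG k s (sp k fun a => n ∈ ap h a))
    (hdec : ∀ n, n ∈ (GL.om : M) → Sb (ap B (sc n)) (ap B n))
    (hint : ∀ a, a ∈ k → ∃ n, n ∈ (GL.om : M) ∧ a ∉ ap B n) :
    ∃ n, n ∈ (GL.om : M) ∧ RG k s (ap B n) := by
  have hd : DT (fun w : Fin 1 → M => mu fun n : M => n ∈ (GL.om : M) ∧ w 0 ∉ ap B n) := by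
    refine dt_mu (P := fun (v : Fin 1 → M) (n : M) => n ∈ (GL.om : M) ∧ v 0 ∉ ap B n) ?_
    simp (maxDischargeDepth := 50)
  have hspec : ∀ a, a ∈ k → (mu fun n : M => n ∈ (GL.om : M) ∧ a ∉ ap B n) ∈ (GL.om : M) ∧
      a ∉ ap B (mu fun n : M => n ∈ (GL.om : M) ∧ a ∉ ap B n) := by
    intro a ha
    obtain ⟨n, hn, han⟩ := hint a ha
    exact (mu_spec (P := fun n : M => n ∈ (GL.om : M) ∧ a ∉ ap B n)
      (by simp (maxDischargeDepth := 50)) ⟨n, ord_of_mem_om hn, hn, han⟩).2.1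
  obtain ⟨n, hn, h⟩ := hB1 (lam k fun a => mu fun n : M => n ∈ (GL.om : M) ∧ a ∉ ap B n)
    (lam_mem_fs hd fun a ha => (hspec a ha).1)
  refine ⟨n, hn, h.mono' hk fun a haB ha => ?_⟩
  rw [mem_sp (by simp (maxDischargeDepth := 50)), ap_lam hd ha]
  refine ⟨ha, ?_⟩
  obtain ⟨h1, h2⟩ := hspec a ha
  by_contra hc
  have h3 := (Ord.not_mem_iff (ord_of_mem_om hn) (ord_of_mem_om h1)).1 hc
  exact h2 (sb_of_dec hdec n hn _
    ((Ord.mem_sc_iff (ord_of_mem_om h1) (ord_of_mem_om hn)).2 h3) a haB)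

/-! ### Choice for successors, and the least failure -/

theorem acf_em : Acf (GL.em : M) := fun _ hs _ => ⟨_, hs, fun a ha => (not_mem_em a ha).elim⟩

theorem Acf.succ {l : M} (h : Acf l) : Acf (sc l) := by
  intro s hs hne
  have h1 : Sb l (sc l) := fun z hz => mem_sc.2 (Or.inl hz)
  obtain ⟨c, hc, hc'⟩ := h (rs s l) (fn_rs hs h1) fun a ha => by
    rw [ap_rs hs h1 ha]
    exact hne a (h1 a ha)
  obtain ⟨x, hx⟩ := hne l (mem_sc_self l)
  obtain ⟨h5, h6, h7⟩ := fn_snoc (x := x) hc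
  refine ⟨_, h5, fun a ha => ?_⟩
  rcases mem_sc.1 ha with ha | rfl
  · rw [h6 a ha]
    have := hc' a ha
    rwa [ap_rs hs h1 ha] at this
  · rw [h7]
    exact hx

theorem acf_of_mem_om {n : M} (hn : n ∈ (GL.om : M)) : Acf n := by
  have hdfn : Dfn (fun w : Fin 1 → M => Acf (w 0)) := by
    unfold Acf; simp (maxDischargeDepth := 50)
  exact om_ind (P := fun n => Acf n) hdfn acf_em (fun n _ h => h.succ) n hn

/-- The least ordinal for which choice fails is a limit ordinal. -/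
theorem limit_of_least {k : M} (hk : Ord k) (h : ¬ Acf k) (hl : ∀ l, l ∈ k → Acf l) (a : M)
    (ha : a ∈ k) : sc a ∈ k := by
  have h1 : Sb (sc a) k := (Ord.sc_sb_iff hk).2 ha
  rcases ((ord_sc (hk.mem ha)).sb_iff hk).1 h1 with h2 | h2
  · exact h2
  · exact (h (h2 ▸ (hl a ha).succ)).elim

/-- `k` is larger than `ω`. -/
theorem om_mem_of_tails {k s : M} (hk : Ord k) (hlim : ∀ a, a ∈ k → sc a ∈ k)
    (hne : (GL.em : M) ∈ k) (hsne : ∀ a, a ∈ k → ∃ x, x ∈ ap s a)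
    (hs : ¬ ∃ c, Fn c k ∧ ∀ a, a ∈ k → ap c a ∈ ap s a)
    (hB1 : ∀ h, h ∈ fs k GL.om → ∃ n, n ∈ (GL.om : M) ∧ RG k s (sp k fun a => n ∈ ap h a)) :
    (GL.om : M) ∈ k := by
  have h1 : Sb (GL.om : M) k := by
    intro n hn
    exact om_ind (P := fun n => n ∈ k) (by simp (maxDischargeDepth := 50)) hne
      (fun n _ h => hlim n h) n hn
  rcases (om_ord.sb_iff hk).1 h1 with h2 | h2
  · exact h2
  exfalso
  have hfin : ∀ n, n ∈ (GL.om : M) → RG k s n := by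
    refine om_ind (P := fun n => RG k s n) ?_ (RG.empty fun b => not_mem_em b) ?_
    · unfold RG; simp (maxDischargeDepth := 50)
    · intro n hn ih
      have hnk : n ∈ k := h1 n hn
      refine RG.union₂ hk ih (RG.single hk (hlim n hnk) (hsne n hnk)) fun b hb _ => ?_
      rcases mem_sc.1 hb with hb | rfl
      · exact Or.inl hb
      · exact Or.inr (by simp)
  have hdB : DT (fun w : Fin 1 → M => df k (w 0)) := by simp (maxDischargeDepth := 50)
  have hB : ∀ n, n ∈ (GL.om : M) → ap (lam GL.om (df k)) n = df k n := fun n hn => ap_lam hdB hn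
  obtain ⟨n, hn, h3⟩ := RG.tails (B := lam GL.om (df k)) hk hB1
    (fun n hn z hz => by
      rw [hB _ (sc_mem_om hn)] at hz
      rw [hB _ hn]
      rw [mem_df] at hz ⊢
      exact ⟨hz.1, fun h => hz.2 (mem_sc.2 (Or.inl h))⟩)
    (fun a ha => by
      have ha' : a ∈ (GL.om : M) := by rw [h2]; exact ha
      refine ⟨sc a, sc_mem_om ha', ?_⟩
      rw [hB _ (sc_mem_om ha'), mem_df]
      exact fun h => h.2 (mem_sc_self a))
  rw [hB n hn] at h3
  refine not_rg hk hs (RG.union₂ hk (hfin n hn) h3 fun b hb _ => ?_)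
  by_cases hc : b ∈ n
  · exact Or.inl hc
  · exact Or.inr (mem_df.2 ⟨hb, hc⟩)

end Pool.Agent.ZFW
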