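import Pool.Agent.ZFW.Defs
import Pool.Agent.GL.Tools

/-!
The translation of the notions of the statement into the functions of the library `GL`.
-/

universe u

set_option linter.unusedSectionVars false

namespace Pool.Agent.ZFW

open Pool.Agent.SigB Pool.Agent.GL

variable {M : Type u} [Membership M M] [IsZF M]

theorem isPair_iff {z x y : M} : IsPair z x y ↔ z = pr x y := by
  constructor
  · intro h
    exact ext' fun w => by rw [h w, mem_pr]
  · rintro rfl w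
    exact mem_pr

theorem isOrdPair_iff {z x y : M} : IsOrdPair z x y ↔ z = op x y := by
  constructor
  · intro h
    refine ext' fun w => ?_
    rw [h w, isPair_iff, isPair_iff]
    unfold op
    rw [mem_pr]
  · rintro rfl w
    rw [isPair_iff, isPair_iff]
    unfold op
    rw [mem_pr]

theorem val_iff {f x y : M} : Val f x y ↔ op x y ∈ f := by
  unfold Val
  constructor
  · rintro ⟨z, hz, h⟩
    rwa [isOrdPair_iff.1 h] at hz
  · intro h
    exact ⟨_, h, isOrdPair_iff.2 rfl⟩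

theorem isMap_iff {f a b : M} : IsMap f a b ↔ f ∈ fs a b := by
  rw [mem_fs]
  constructor
  · rintro ⟨h1, h2⟩
    have hf : Fn f a := by
      refine ⟨fun z hz => ?_, fun x hx => ?_⟩
      · obtain ⟨x, y, hx, -, h⟩ := h1 z hz
        exact ⟨x, hx, y, isOrdPair_iff.1 h⟩
      · obtain ⟨y, hy, hu⟩ := h2 x hx
        exact ⟨y, val_iff.1 hy, fun y' hy' => hu y' (val_iff.2 hy')⟩
    refine ⟨hf, fun x hx => ?_⟩
    obtain ⟨y, hy, -⟩ := h2 x hx
    rw [val_iff] at hy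
    obtain ⟨x', y', -, hy', h⟩ := h1 _ hy
    obtain ⟨-, rfl⟩ := op_inj.1 (isOrdPair_iff.1 h)
    rwa [(hf.op_mem_iff hx).1 hy]
  · rintro ⟨hf, hb⟩
    refine ⟨fun z hz => ?_, fun x hx => ?_⟩
    · obtain ⟨x, hx, rfl⟩ := hf.mem_iff.1 hz
      exact ⟨x, ap f x, hx, hb x hx, isOrdPair_iff.2 rfl⟩
    · refine ⟨ap f x, val_iff.2 ((hf.op_mem_iff hx).2 rfl), fun y hy => ?_⟩
      exact ((hf.op_mem_iff hx).1 (val_iff.1 hy)).symm

theorem val_fn {f a x y : M} (hf : Fn f a) : Val f x y ↔ x ∈ a ∧ ap f x = y := by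
  rw [val_iff]
  constructor
  · intro h1
    obtain ⟨x', hx', y', h2⟩ := hf.1 _ h1
    obtain ⟨rfl, rfl⟩ := op_inj.1 h2
    exact ⟨hx', (hf.op_mem_iff hx').1 h1⟩
  · rintro ⟨hx, rfl⟩
    exact (hf.op_mem_iff hx).2 rfl

theorem val_map {f a b x y : M} (h : IsMap f a b) : Val f x y ↔ x ∈ a ∧ ap f x = y :=
  val_fn (mem_fs.1 (isMap_iff.1 h)).1

theorem isInjection_iff {f a b : M} : IsInjection f a b ↔
    f ∈ fs a b ∧ ∀ x y, x ∈ a → y ∈ a → ap f x = ap f y → x = y := by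
  constructor
  · rintro ⟨h1, h2⟩
    refine ⟨isMap_iff.1 h1, fun x y hx hy h => ?_⟩
    exact h2 x y (ap f y) ((val_map h1).2 ⟨hx, h⟩) ((val_map h1).2 ⟨hy, rfl⟩)
  · rintro ⟨h1, h2⟩
    have h3 := isMap_iff.2 h1
    refine ⟨h3, fun x x' y hx hx' => ?_⟩
    rw [val_map h3] at hx hx'
    exact h2 x x' hx.1 hx'.1 (hx.2.trans hx'.2.symm)

theorem isSurjection_iff {f a b : M} : IsSurjection f a b ↔
    f ∈ fs a b ∧ ∀ y, y ∈ b → ∃ x, x ∈ a ∧ ap f x = y := by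
  constructor
  · rintro ⟨h1, h2⟩
    refine ⟨isMap_iff.1 h1, fun y hy => ?_⟩
    obtain ⟨x, hx⟩ := h2 y hy
    exact ⟨x, (val_map h1).1 hx⟩
  · rintro ⟨h1, h2⟩
    have h3 := isMap_iff.2 h1
    refine ⟨h3, fun y hy => ?_⟩
    obtain ⟨x, hx⟩ := h2 y hy
    exact ⟨x, (val_map h3).2 hx⟩

theorem isInductive_iff {a : M} : IsInductive a ↔ GL.em ∈ a ∧ ∀ x, x ∈ a → sc x ∈ a := by
  constructor
  · rintro ⟨⟨e, he, he'⟩, ha⟩
    refine ⟨?_, fun x hx => ?_⟩
    · have : e = GL.em := ext' fun x => ⟨fun h => (he' x h).elim, fun h => (not_mem_em _ h).elim⟩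
      rwa [← this]
    · obtain ⟨y, hy, hy'⟩ := ha x hx
      have : y = sc x := ext' fun z => by rw [hy', mem_sc]
      rwa [← this]
  · rintro ⟨h1, h2⟩
    exact ⟨⟨GL.em, h1, not_mem_em⟩, fun x hx => ⟨sc x, h2 x hx, fun z => mem_sc⟩⟩

theorem isOmega_iff {o : M} : IsOmega o ↔ o = om := by
  constructor
  · rintro ⟨h1, h2⟩
    refine Sb.antisymm ?_ ?_
    · exact h2 om (isInductive_iff.2 ⟨em_mem_om, fun x hx => sc_mem_om hx⟩)
    · intro n hn
      exact mem_om.1 hn o (isInductive_iff.1 h1)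
  · rintro rfl
    refine ⟨isInductive_iff.2 ⟨em_mem_om, fun x hx => sc_mem_om hx⟩, fun a ha n hn => ?_⟩
    exact mem_om.1 hn a (isInductive_iff.1 ha)

theorem isSucc_iff {m n : M} : IsSucc m n ↔ m = sc n := by
  constructor
  · intro h
    exact ext' fun w => by rw [h w, mem_sc]
  · rintro rfl w
    exact mem_sc

theorem isSeq_iff {s w : M} : IsSeq s w ↔ Fn s w := by
  constructor
  · rintro ⟨h1, h2⟩
    refine ⟨fun z hz => ?_, fun x hx => ?_⟩
    · obtain ⟨n, x, hn, h⟩ := h1 z hz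
      exact ⟨n, hn, x, isOrdPair_iff.1 h⟩
    · obtain ⟨y, hy, hu⟩ := h2 x hx
      exact ⟨y, val_iff.1 hy, fun y' hy' => hu y' (val_iff.2 hy')⟩
  · intro hf
    refine ⟨fun z hz => ?_, fun x hx => ?_⟩
    · obtain ⟨x, hx, rfl⟩ := hf.mem_iff.1 hz
      exact ⟨x, ap s x, hx, isOrdPair_iff.2 rfl⟩
    · refine ⟨ap s x, val_iff.2 ((hf.op_mem_iff hx).2 rfl), fun y hy => ?_⟩
      exact ((hf.op_mem_iff hx).1 (val_iff.1 hy)).symm

/-! ### Composition of maps -/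

/-- The composition `x ↦ g (f x)` on `a`. -/
noncomputable def cm (g f a : M) : M := lam a fun x => ap g (ap f x)

theorem cm_dt (g f : M) : DT (fun w : Fin 1 → M => ap g (ap f (w 0))) := by
  simp (maxDischargeDepth := 50)

theorem ap_cm {g f a x : M} (hx : x ∈ a) : ap (cm g f a) x = ap g (ap f x) :=
  ap_lam (cm_dt g f) hx

theorem cm_mem_fs {g f a b c : M} (hf : f ∈ fs a b) (hg : g ∈ fs b c) : cm g f a ∈ fs a c :=
  lam_mem_fs (cm_dt g f) fun x hx => (mem_fs.1 hg).2 _ ((mem_fs.1 hf).2 x hx)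

/-- The identity on `a`. -/
noncomputable def idn (a : M) : M := lam a fun x => x

theorem ap_idn {a x : M} (hx : x ∈ a) : ap (idn a) x = x := ap_lam (DT.var 0) hx

theorem idn_mem_fs {a b : M} (h : Sb a b) : idn a ∈ fs a b := lam_mem_fs (DT.var 0) h

/-! ### The orders of cardinals -/

theorem le_iff {X Y : M} : Le X Y ↔
    ∃ f, f ∈ fs X Y ∧ ∀ x y, x ∈ X → y ∈ X → ap f x = ap f y → x = y := by
  unfold Le
  exact exists_congr fun f => isInjection_iff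

theorem leStar_iff {X Y : M} : LeStar X Y ↔
    (∀ x, x ∉ X) ∨ ∃ f, f ∈ fs Y X ∧ ∀ y, y ∈ X → ∃ x, x ∈ Y ∧ ap f x = y := by
  unfold LeStar
  exact or_congr Iff.rfl (exists_congr fun f => isSurjection_iff)

theorem eqCard_iff {X Y : M} : EqCard X Y ↔
    ∃ f, f ∈ fs X Y ∧ (∀ x y, x ∈ X → y ∈ X → ap f x = ap f y → x = y) ∧
      ∀ y, y ∈ Y → ∃ x, x ∈ X ∧ ap f x = y := by
  unfold EqCard
  refine exists_congr fun f => ?_
  rw [isInjection_iff, isSurjection_iff]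
  tauto

theorem Le.refl (X : M) : Le X X :=
  le_iff.2 ⟨idn X, idn_mem_fs (Sb.refl X), fun x y hx hy h => by rwa [ap_idn hx, ap_idn hy] at h⟩

theorem Le.of_sb {X Y : M} (h : Sb X Y) : Le X Y :=
  le_iff.2 ⟨idn X, idn_mem_fs h, fun x y hx hy h => by rwa [ap_idn hx, ap_idn hy] at h⟩

theorem Le.trans {X Y Z : M} (h : Le X Y) (h' : Le Y Z) : Le X Z := by
  obtain ⟨f, hf, hfi⟩ := le_iff.1 h
  obtain ⟨g, hg, hgi⟩ := le_iff.1 h'
  refine le_iff.2 ⟨cm g f X, cm_mem_fs hf hg, fun x y hx hy h => ?_⟩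
  rw [ap_cm hx, ap_cm hy] at h
  exact hfi x y hx hy (hgi _ _ ((mem_fs.1 hf).2 x hx) ((mem_fs.1 hf).2 y hy) h)

theorem LeStar.refl (X : M) : LeStar X X :=
  leStar_iff.2 (Or.inr ⟨idn X, idn_mem_fs (Sb.refl X), fun y hy => ⟨y, hy, ap_idn hy⟩⟩)

theorem LeStar.trans {X Y Z : M} (h : LeStar X Y) (h' : LeStar Y Z) : LeStar X Z := by
  rcases leStar_iff.1 h with h | ⟨f, hf, hfs⟩
  · exact Or.inl h
  · rcases leStar_iff.1 h' with h' | ⟨g, hg, hgs⟩
    · refine Or.inl fun x hx => ?_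
      obtain ⟨y, hy, -⟩ := hfs x hx
      exact h' y hy
    · refine leStar_iff.2 (Or.inr ⟨cm f g Z, cm_mem_fs hg hf, fun x hx => ?_⟩)
      obtain ⟨y, hy, rfl⟩ := hfs x hx
      obtain ⟨z, hz, rfl⟩ := hgs y hy
      exact ⟨z, hz, ap_cm hz⟩

/-- A partial surjection: if every element of `X` is a value of the definable function `F` on `Y`,
then `X` is an image of `Y`. -/
theorem LeStar.of_dt {X Y : M} {F : M → M} (hF : DT (fun w : Fin 1 → M => F (w 0)))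
    (h : ∀ x, x ∈ X → ∃ y, y ∈ Y ∧ F y = x) : LeStar X Y := by
  by_cases hX : ∀ x, x ∉ X
  · exact Or.inl hX
  · push Not at hX
    obtain ⟨x₀, hx₀⟩ := hX
    have hd : DT (fun w : Fin 1 → M => cp fun z => (F (w 0) ∈ X ∧ z ∈ F (w 0)) ∨
        (F (w 0) ∉ X ∧ z ∈ x₀)) := by
      have hF' : ∀ {n : ℕ} {s : (Fin n → M) → M}, DT s → DT fun v => F (s v) := fun hs => dt1 hF hs
      refine dt_cp (P := fun (v : Fin 1 → M) z => (F (v 0) ∈ X ∧ z ∈ F (v 0)) ∨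
        (F (v 0) ∉ X ∧ z ∈ x₀)) ?_
      simp (maxDischargeDepth := 50) [hF']
    have h1 : ∀ y, F y ∈ X → (cp fun z => (F y ∈ X ∧ z ∈ F y) ∨ (F y ∉ X ∧ z ∈ x₀)) = F y := by
      intro y hy
      refine ext' fun z => ?_
      rw [mem_cp ⟨F y, fun z => by simp [hy]⟩]
      simp [hy]
    have h2 : ∀ y, F y ∉ X → (cp fun z => (F y ∈ X ∧ z ∈ F y) ∨ (F y ∉ X ∧ z ∈ x₀)) = x₀ := by
      intro y hy
      refine ext' fun z => ?_
      rw [mem_cp ⟨x₀, fun z => by simp [hy]⟩]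
      simp [hy]
    refine leStar_iff.2 (Or.inr ⟨lam Y fun y => cp fun z => (F y ∈ X ∧ z ∈ F y) ∨
      (F y ∉ X ∧ z ∈ x₀), lam_mem_fs hd fun y hy => ?_, fun x hx => ?_⟩)
    · by_cases hy' : F y ∈ X
      · rw [h1 y hy']; exact hy'
      · rw [h2 y hy']; exact hx₀
    · obtain ⟨y, hy, rfl⟩ := h x hx
      exact ⟨y, hy, by rw [ap_lam hd hy, h1 y hx]⟩

theorem Le.leStar {X Y : M} (h : Le X Y) : LeStar X Y := by
  obtain ⟨f, hf, hfi⟩ := le_iff.1 h
  -- the inverse function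
  have hd : DT (fun w : Fin 1 → M => cp fun z => ∃ x, x ∈ X ∧ ap f x = w 0 ∧ z ∈ x) := by
    simp (maxDischargeDepth := 50)
  refine LeStar.of_dt (F := fun y => cp fun z => ∃ x, x ∈ X ∧ ap f x = y ∧ z ∈ x) hd
    fun x hx => ⟨ap f x, (mem_fs.1 hf).2 x hx, ext' fun z => ?_⟩
  rw [mem_cp ⟨x, fun z => ?_⟩]
  · constructor
    · rintro ⟨x', hx', h1, h2⟩
      rwa [← hfi _ _ hx' hx h1]
    · intro hz
      exact ⟨x, hx, rfl, hz⟩
  · constructor
    · intro hz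
      exact ⟨x, hx, rfl, hz⟩
    · rintro ⟨x', hx', h1, h2⟩
      rwa [← hfi _ _ hx' hx h1]

theorem EqCard.le {X Y : M} (h : EqCard X Y) : Le X Y := h.imp fun _ h => h.1

theorem EqCard.leStar {X Y : M} (h : EqCard X Y) : LeStar X Y := h.le.leStar

theorem EqCard.leStar' {X Y : M} (h : EqCard X Y) : LeStar Y X := Or.inr (h.imp fun _ h => h.2)

theorem Prec.leStar {x : Ix} {X Y : M} (h : Prec x X Y) : LeStar X Y := by
  cases x with
  | i => exact Le.leStar h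
  | s => exact h

end Pool.Agent.ZFW
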