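import Pool.Agent.ZFW.BLam
import Pool.Agent.ZFW.BImp

/-!
# MP_831107_lc, third theorem : consequences of `WF^s_i4`

`le_or_le` : two sets which are images of each other are comparable. `dich` : if `B` is an image
of `A` and does not inject into a product of `A` with a well-orderable set, then every image `Y`
of a set `Z` injects into the product of `A + B + Z` with a well-orderable set.
-/

universe u

set_option linter.unusedSectionVars false

namespace Pool.Agent.ZFW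

open Pool.Agent.SigB Pool.Agent.GL

variable {M : Type u} [Membership M M] [GL.IsZF M]

/-! ### Comparability -/

/-- The swap of the states `op (op X Y) (op g f)`. -/
noncomputable def sw (q : M) : M :=
  op (op (p2 (p1 q)) (p1 (p1 q))) (op (p2 (p2 q)) (p1 (p2 q)))

theorem sw.dt : DT (fun w : Fin 1 → M => sw (w 0)) := by
  unfold sw; simp (maxDischargeDepth := 50)

theorem sw_eq (X Y g f : M) : sw (op (op X Y) (op g f)) = op (op Y X) (op f g) := by
  unfold sw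
  simp only [p1_op, p2_op]

theorem le_or_le (hW : WF4 M Ix.s Iy.i) {X Y : M} (h : LeStar X Y) (h' : LeStar Y X) :
    Le X Y ∨ Le Y X := by
  rcases leStar_iff.1 h with h | ⟨f, hf, hfs⟩
  · exact Or.inl (Le.of_sb fun x hx => (h x hx).elim)
  rcases leStar_iff.1 h' with h' | ⟨g, hg, hgs⟩
  · exact Or.inr (Le.of_sb fun x hx => (h' x hx).elim)
  -- `f` maps `Y` onto `X`, `g` maps `X` onto `Y`
  obtain ⟨F, hF, hF0, hFs⟩ := om_recursion (op (op X Y) (op g f)) (G := sw) sw.dt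
  have hinv : ∀ n, n ∈ (om : M) → ap F n = op (op X Y) (op g f) ∨
      ap F n = op (op Y X) (op f g) := by
    refine om_ind (P := fun n => ap F n = op (op X Y) (op g f) ∨
      ap F n = op (op Y X) (op f g)) (by simp (maxDischargeDepth := 50)) (Or.inl hF0) ?_
    intro n hn ih
    rw [hFs n hn]
    rcases ih with h1 | h1
    · exact Or.inr (by rw [h1, sw_eq])
    · exact Or.inl (by rw [h1, sw_eq])
  have hd1 : DT (fun w : Fin 1 → M => p1 (p1 (ap F (w 0)))) := by simp (maxDischargeDepth := 50)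
  have hd2 : DT (fun w : Fin 1 → M => p1 (p2 (ap F (w 0)))) := by simp (maxDischargeDepth := 50)
  obtain ⟨n, m, A, A', hn, hm, hA, hA', hle⟩ := hW om (lam om fun n => p1 (p1 (ap F n)))
    (lam om fun n => p1 (p2 (ap F n))) (isOmega_iff.2 rfl) (isSeq_iff.2 (fn_lam hd1))
    (isSeq_iff.2 (fn_lam hd2)) (by
      intro n m A A' t hn hm hA hA' ht
      rw [isSucc_iff] at hm
      subst hm
      obtain ⟨-, rfl⟩ := (val_fn (fn_lam hd1)).1 hA
      obtain ⟨-, rfl⟩ := (val_fn (fn_lam hd1)).1 hA'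
      obtain ⟨-, rfl⟩ := (val_fn (fn_lam hd2)).1 ht
      rw [ap_lam (F := fun n => p1 (p1 (ap F n))) hd1 hn,
        ap_lam (F := fun n => p1 (p1 (ap F n))) hd1 (sc_mem_om hn),
        ap_lam (F := fun n => p1 (p2 (ap F n))) hd2 hn, hFs n hn]
      rcases hinv n hn with h1 | h1
      · rw [h1, sw_eq]
        simp only [p1_op, p2_op]
        exact isSurjection_iff.2 ⟨hg, hgs⟩
      · rw [h1, sw_eq]
        simp only [p1_op, p2_op]
        exact isSurjection_iff.2 ⟨hf, hfs⟩)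
  rw [isSucc_iff] at hm
  subst hm
  obtain ⟨-, rfl⟩ := (val_fn (fn_lam hd1)).1 hA
  obtain ⟨-, rfl⟩ := (val_fn (fn_lam hd1)).1 hA'
  rw [ap_lam hd1 hn, ap_lam hd1 (sc_mem_om hn), hFs n hn] at hle
  rcases hinv n hn with h1 | h1
  · rw [h1, sw_eq] at hle
    simp only [p1_op] at hle
    exact Or.inl hle
  · rw [h1, sw_eq] at hle
    simp only [p1_op] at hle
    exact Or.inr hle

/-! ### Injections -/

theorem Le.of_dt {X Y : M} {F : M → M} (hF : DT (fun w : Fin 1 → M => F (w 0)))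
    (h : ∀ x, x ∈ X → F x ∈ Y) (hinj : ∀ x, x ∈ X → ∀ x', x' ∈ X → F x = F x' → x = x') :
    Le X Y := by
  refine le_iff.2 ⟨lam X F, lam_mem_fs hF h, fun x y hx hy hxy => ?_⟩
  rw [ap_lam hF hx, ap_lam hF hy] at hxy
  exact hinj x hx y hy hxy

theorem le_pd {A A' B B' : M} (h : Le A A') (h' : Le B B') : Le (pd A B) (pd A' B') := by
  obtain ⟨f, hf, hfi⟩ := le_iff.1 h
  obtain ⟨g, hg, hgi⟩ := le_iff.1 h'
  rw [mem_fs] at hf hg
  refine Le.of_dt (F := fun z => op (ap f (p1 z)) (ap g (p2 z)))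
    (by simp (maxDischargeDepth := 50)) (fun z hz => ?_) fun z hz z' hz' hzz => ?_
  · obtain ⟨a, ha, b, hb, rfl⟩ := mem_pd.1 hz
    rw [p1_op, p2_op]
    exact op_mem_pd.2 ⟨hf.2 a ha, hg.2 b hb⟩
  · obtain ⟨a, ha, b, hb, rfl⟩ := mem_pd.1 hz
    obtain ⟨a', ha', b', hb', rfl⟩ := mem_pd.1 hz'
    simp only [p1_op, p2_op] at hzz
    obtain ⟨h1, h2⟩ := op_inj.1 hzz
    rw [hfi a a' ha ha' h1, hgi b b' hb hb' h2]

theorem le_sm {A A' B B' : M} (h : Le A A') (h' : Le B B') : Le (sm A B) (sm A' B') := by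
  obtain ⟨f, hf, hfi⟩ := le_iff.1 h
  obtain ⟨g, hg, hgi⟩ := le_iff.1 h'
  rw [mem_fs] at hf hg
  classical
  refine Le.of_dt (F := fun z => if p2 z = GL.em then op (ap f (p1 z)) (p2 z) else
    op (ap g (p1 z)) (p2 z)) (DT.ite (P := fun w : Fin 1 → M => p2 (w 0) = GL.em)
      (by simp (maxDischargeDepth := 50)) (by simp (maxDischargeDepth := 50))
      (by simp (maxDischargeDepth := 50))) (fun z hz => ?_) fun z hz z' hz' hzz => ?_
  · rcases mem_sm.1 hz with ⟨a, ha, rfl⟩ | ⟨b, hb, rfl⟩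
    · rw [p2_op, p1_op, if_pos rfl]
      exact op_em_mem_sm.2 (hf.2 a ha)
    · rw [p2_op, p1_op, if_neg sc_em_ne]
      exact op_sc_mem_sm.2 (hg.2 b hb)
  · rcases mem_sm.1 hz with ⟨a, ha, rfl⟩ | ⟨b, hb, rfl⟩
    · rcases mem_sm.1 hz' with ⟨a', ha', rfl⟩ | ⟨b', hb', rfl⟩
      · simp only [p1_op, p2_op, if_true] at hzz
        rw [hfi a a' ha ha' (op_inj.1 hzz).1]
      · simp only [p1_op, p2_op, if_true, if_neg sc_em_ne] at hzz
        exact absurd (op_inj.1 hzz).2.symm sc_em_ne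
    · rcases mem_sm.1 hz' with ⟨a', ha', rfl⟩ | ⟨b', hb', rfl⟩
      · simp only [p1_op, p2_op, if_true, if_neg sc_em_ne] at hzz
        exact absurd (op_inj.1 hzz).2 sc_em_ne
      · simp only [p1_op, p2_op, if_neg sc_em_ne] at hzz
        rw [hgi b b' hb hb' (op_inj.1 hzz).1]

theorem le_sm_left (A B : M) : Le A (sm A B) :=
  Le.of_dt (F := fun a => op a GL.em) (by simp (maxDischargeDepth := 50))
    (fun a ha => op_em_mem_sm.2 ha) fun _ _ _ _ h => (op_inj.1 h).1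

theorem le_sm_right (A B : M) : Le B (sm A B) :=
  Le.of_dt (F := fun a => op a (sc GL.em)) (by simp (maxDischargeDepth := 50))
    (fun a ha => op_sc_mem_sm.2 ha) fun _ _ _ _ h => (op_inj.1 h).1

/-- `X × V + X × V'` injects into `X × (V + V')`. -/
theorem le_sm_pd (X V V' : M) : Le (sm (pd X V) (pd X V')) (pd X (sm V V')) := by
  refine Le.of_dt (F := fun z => op (p1 (p1 z)) (op (p2 (p1 z)) (p2 z)))
    (by simp (maxDischargeDepth := 50)) (fun z hz => ?_) fun z hz z' hz' hzz => ?_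
  · rcases mem_sm.1 hz with ⟨a, ha, rfl⟩ | ⟨b, hb, rfl⟩
    · obtain ⟨x, hx, v, hv, rfl⟩ := mem_pd.1 ha
      simp only [p1_op, p2_op]
      exact op_mem_pd.2 ⟨hx, op_em_mem_sm.2 hv⟩
    · obtain ⟨x, hx, v, hv, rfl⟩ := mem_pd.1 hb
      simp only [p1_op, p2_op]
      exact op_mem_pd.2 ⟨hx, op_sc_mem_sm.2 hv⟩
  · have key : ∀ z, z ∈ sm (pd X V) (pd X V') → ∃ x v t, z = op (op x v) t := by
      intro z hz
      rcases mem_sm.1 hz with ⟨a, ha, rfl⟩ | ⟨b, hb, rfl⟩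
      · obtain ⟨x, hx, v, hv, rfl⟩ := mem_pd.1 ha
        exact ⟨x, v, _, rfl⟩
      · obtain ⟨x, hx, v, hv, rfl⟩ := mem_pd.1 hb
        exact ⟨x, v, _, rfl⟩
    obtain ⟨x, v, t, rfl⟩ := key z hz
    obtain ⟨x', v', t', rfl⟩ := key z' hz'
    simp only [p1_op, p2_op] at hzz
    obtain ⟨h1, h2⟩ := op_inj.1 hzz
    obtain ⟨h3, h4⟩ := op_inj.1 h2
    rw [h1, h3, h4]

/-- A well-orderable set injects into an ordinal. -/
theorem WO.le_ord {V : M} (h : WO V) : ∃ α, Ord α ∧ Le V α := by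
  obtain ⟨β, hβ, f, hf, hfV⟩ := h
  have hF : DT (fun w : Fin 1 → M => mu fun i => i ∈ β ∧ ap f i = w 0) := by
    refine dt_mu (P := fun (v : Fin 1 → M) i => i ∈ β ∧ ap f i = v 0) ?_
    simp (maxDischargeDepth := 50)
  have hFs : ∀ x, x ∈ V → (mu fun i => i ∈ β ∧ ap f i = x) ∈ β ∧
      ap f (mu fun i => i ∈ β ∧ ap f i = x) = x := by
    intro x hx
    obtain ⟨i, hi, hix⟩ := hfV x hx
    exact (mu_spec (P := fun i => i ∈ β ∧ ap f i = x) (by simp (maxDischargeDepth := 50))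
      ⟨i, hβ.mem hi, hi, hix⟩).2.1
  refine ⟨β, hβ, Le.of_dt (F := fun x => mu fun i => i ∈ β ∧ ap f i = x) hF
    (fun x hx => (hFs x hx).1) fun x hx y hy hxy => ?_⟩
  rw [← (hFs x hx).2, ← (hFs y hy).2, hxy]

/-! ### Doubling -/

theorem ps_om_dbl : PS (sm (om : M) om) om := by
  classical
  let G : M → M := fun p => if p2 p = GL.em then op (p1 p) (sc GL.em) else op (sc (p1 p)) GL.em
  have hG : DT (fun w : Fin 1 → M => G (w 0)) :=
    DT.ite (P := fun w : Fin 1 → M => p2 (w 0) = GL.em)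
      (by simp (maxDischargeDepth := 50)) (by simp (maxDischargeDepth := 50))
      (by simp (maxDischargeDepth := 50))
  obtain ⟨F, hF, hF0, hFs⟩ := om_recursion (op GL.em GL.em : M) hG
  have key : ∀ n, n ∈ (om : M) → ∃ m, m ∈ (om : M) ∧ ap F m = op n GL.em ∧
      ap F (sc m) = op n (sc GL.em) := by
    have h1 : ∀ n m, m ∈ (om : M) → ap F m = op n GL.em → ap F (sc m) = op n (sc GL.em) := by
      intro n m hm h
      rw [hFs m hm, h]
      show (if p2 (op n GL.em) = GL.em then op (p1 (op n GL.em)) (sc GL.em) else _) = _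
      rw [p2_op, p1_op, if_pos rfl]
    refine om_ind (P := fun n => ∃ m, m ∈ (om : M) ∧ ap F m = op n GL.em ∧
      ap F (sc m) = op n (sc GL.em)) (by simp (maxDischargeDepth := 50))
      ⟨GL.em, em_mem_om, hF0, h1 _ _ em_mem_om hF0⟩ ?_
    rintro n hn ⟨m, hm, -, h3⟩
    have h4 : ap F (sc (sc m)) = op (sc n) GL.em := by
      rw [hFs _ (sc_mem_om hm), h3]
      show (if p2 (op n (sc GL.em)) = GL.em then _ else op (sc (p1 (op n (sc GL.em)))) GL.em) = _
      rw [p2_op, p1_op, if_neg sc_em_ne]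
    exact ⟨sc (sc m), sc_mem_om (sc_mem_om hm), h4, h1 _ _ (sc_mem_om (sc_mem_om hm)) h4⟩
  refine ps_of_fun (F := ap F) (by simp (maxDischargeDepth := 50)) fun x hx => ?_
  rcases mem_sm.1 hx with ⟨a, ha, rfl⟩ | ⟨a, ha, rfl⟩
  · obtain ⟨m, hm, h1, -⟩ := key a ha
    exact ⟨m, hm, h1⟩
  · obtain ⟨m, hm, -, h1⟩ := key a ha
    exact ⟨sc m, sc_mem_om hm, h1⟩

theorem ps_dbl {A B W : M} (h : PS B A) (hW : PS (sm W W) W) :
    PS (sm (pd A W) (pd B W)) (pd A W) := by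
  refine (ps_sm (PS.refl (pd A W)) (ps_pd h (PS.refl W))).trans
    (PS.trans ?_ (ps_pd (PS.refl A) hW))
  refine ps_of_fun (F := fun z => op (op (p1 z) (p1 (p2 z))) (p2 (p2 z)))
    (by simp (maxDischargeDepth := 50)) fun x hx => ?_
  rcases mem_sm.1 hx with ⟨a, ha, rfl⟩ | ⟨a, ha, rfl⟩
  · obtain ⟨y, hy, v, hv, rfl⟩ := mem_pd.1 ha
    exact ⟨op y (op v GL.em), op_mem_pd.2 ⟨hy, op_em_mem_sm.2 hv⟩, by simp only [p1_op, p2_op]⟩
  · obtain ⟨y, hy, v, hv, rfl⟩ := mem_pd.1 ha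
    exact ⟨op y (op v (sc GL.em)), op_mem_pd.2 ⟨hy, op_sc_mem_sm.2 hv⟩,
      by simp only [p1_op, p2_op]⟩

theorem leStar_of_ps {X Y : M} (h : PS X Y) : LeStar X Y := by
  obtain ⟨f, -, hfX⟩ := h
  exact LeStar.of_dt (F := ap f) (by simp (maxDischargeDepth := 50)) hfX

theorem ps_of_leStar {X Y : M} (h : LeStar X Y) : PS X Y := by
  rcases leStar_iff.1 h with h | ⟨f, hf, hfs⟩
  · exact ps_of_sb fun x hx => (h x hx).elim
  · exact ⟨f, (mem_fs.1 hf).1, hfs⟩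

/-! ### The dichotomy -/

/-- `X ≤ Y × γ` for an ordinal `γ`. -/
def LeW (X Y : M) : Prop := ∃ γ, Ord γ ∧ Le X (pd Y γ)

theorem LeW.of_wo {X Y V : M} (hV : WO V) (h : Le X (pd Y V)) : LeW X Y := by
  obtain ⟨α, hα, hVα⟩ := hV.le_ord
  exact ⟨α, hα, h.trans (le_pd (Le.refl Y) hVα)⟩

/-- **The dichotomy.** -/
theorem dich (hW : WF4 M Ix.s Iy.i) {A B Z Y : M} (hBA : PS B A) (hYZ : PS Y Z) :
    LeW B A ∨ LeW Y (sm (sm A B) Z) := by
  -- `lam` is the Hartogs number of `Z × om + Y`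
  obtain ⟨hH, hHn⟩ := hart_spec (sm (pd Z om) Y)
  have hem : (GL.em : M) ∈ (om : M) := em_mem_om
  let W : M := pd (hart (sm (pd Z om) Y)) om
  have hWo : WO W := wo_pd (wo_ord hH) (wo_ord om_ord)
  have hWd : PS (sm W W) W := ps_dbl (PS.refl _) ps_om_dbl
  let U : M := sm (sm (pd A W) (pd B W)) (pd Z om)
  let U' : M := sm (pd A W) (sm (pd Z om) Y)
  have h1 : PS U U' := ps_sm (ps_dbl hBA hWd) (ps_sm_left _ _)
  have h2 : PS U' U := by
    refine ps_sm (ps_sm_left _ _) (PS.trans (ps_sm (PS.refl _) ?_) (ps_dbl hYZ ps_om_dbl))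
    refine ps_of_fun (F := p1) p1.dt fun y hy => ⟨op y GL.em, op_mem_pd.2 ⟨hy, hem⟩, p1_op _ _⟩
  rcases le_or_le hW (leStar_of_ps h1) (leStar_of_ps h2) with h3 | h3
  · -- `B` injects into `A × W`
    left
    refine LeW.of_wo hWo ?_
    obtain ⟨φ, hφ, hφi⟩ := le_iff.1 h3
    rw [mem_fs] at hφ
    have hmU : ∀ b ξ, b ∈ B → ξ ∈ hart (sm (pd Z om) Y) →
        op (op (op b (op ξ GL.em)) (sc GL.em)) GL.em ∈ U := fun b ξ hb hξ =>
      op_em_mem_sm.2 (op_sc_mem_sm.2 (op_mem_pd.2 ⟨hb, op_mem_pd.2 ⟨hξ, hem⟩⟩))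
    have hinj : ∀ b ξ b' ξ', op (op (op b (op ξ GL.em)) (sc GL.em)) GL.em =
        op (op (op b' (op ξ' GL.em)) (sc GL.em)) (GL.em : M) → b = b' ∧ ξ = ξ' := by
      intro b ξ b' ξ' h
      have h4 := op_inj.1 (op_inj.1 (op_inj.1 h).1).1
      exact ⟨h4.1, (op_inj.1 h4.2).1⟩
    -- some value is in `A × W`
    have hex : ∀ b, b ∈ B → ∃ ξ, ξ ∈ hart (sm (pd Z om) Y) ∧
        p2 (ap φ (op (op (op b (op ξ GL.em)) (sc GL.em)) GL.em)) = GL.em := by
      intro b hb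
      by_contra hno
      push Not at hno
      refine hHn (Le.of_dt (F := fun ξ =>
        p1 (ap φ (op (op (op b (op ξ GL.em)) (sc GL.em)) GL.em)))
        (by simp (maxDischargeDepth := 50)) (fun ξ hξ => ?_) fun ξ hξ η hη h4 => ?_)
      · rcases mem_sm.1 (hφ.2 _ (hmU b ξ hb hξ)) with ⟨a, ha, h5⟩ | ⟨a, ha, h5⟩
        · exact absurd (by rw [h5, p2_op]) (hno ξ hξ)
        · rw [h5, p1_op]
          exact ha
      · have h5 : ∀ ξ, ξ ∈ hart (sm (pd Z om) Y) →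
            ap φ (op (op (op b (op ξ GL.em)) (sc GL.em)) GL.em) =
            op (p1 (ap φ (op (op (op b (op ξ GL.em)) (sc GL.em)) GL.em))) (sc GL.em) := by
          intro ξ hξ
          rcases mem_sm.1 (hφ.2 _ (hmU b ξ hb hξ)) with ⟨a, ha, h5⟩ | ⟨a, ha, h5⟩
          · exact absurd (by rw [h5, p2_op]) (hno ξ hξ)
          · rw [h5, p1_op]
        refine (hinj b ξ b η (hφi _ _ (hmU b ξ hb hξ) (hmU b η hb hη) ?_)).2
        rw [h5 ξ hξ, h5 η hη, h4]
    -- the least such `ξ`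
    let m : M → M := fun b => mu fun ξ => ξ ∈ hart (sm (pd Z om) Y) ∧
      p2 (ap φ (op (op (op b (op ξ GL.em)) (sc GL.em)) GL.em)) = GL.em
    have hm : DT (fun w : Fin 1 → M => m (w 0)) := by
      refine dt_mu (P := fun (v : Fin 1 → M) ξ => ξ ∈ hart (sm (pd Z om) Y) ∧
        p2 (ap φ (op (op (op (v 0) (op ξ GL.em)) (sc GL.em)) GL.em)) = GL.em) ?_
      simp (maxDischargeDepth := 50)
    have hms : ∀ b, b ∈ B → m b ∈ hart (sm (pd Z om) Y) ∧
        p2 (ap φ (op (op (op b (op (m b) GL.em)) (sc GL.em)) GL.em)) = GL.em := by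
      intro b hb
      obtain ⟨ξ, hξ, h4⟩ := hex b hb
      exact (mu_spec (P := fun ξ => ξ ∈ hart (sm (pd Z om) Y) ∧
        p2 (ap φ (op (op (op b (op ξ GL.em)) (sc GL.em)) GL.em)) = GL.em)
        (by simp (maxDischargeDepth := 50)) ⟨ξ, hH.mem hξ, hξ, h4⟩).2.1
    have h5 : ∀ b, b ∈ B → ∃ a, a ∈ pd A W ∧
        ap φ (op (op (op b (op (m b) GL.em)) (sc GL.em)) GL.em) = op a GL.em := by
      intro b hb
      rcases mem_sm.1 (hφ.2 _ (hmU b _ hb (hms b hb).1)) with ⟨a, ha, h5⟩ | ⟨a, ha, h5⟩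
      · exact ⟨a, ha, h5⟩
      · have h6 := (hms b hb).2
        rw [h5, p2_op] at h6
        exact absurd h6 sc_em_ne
    refine Le.of_dt (F := fun b => p1 (ap φ (op (op (op b (op (m b) GL.em)) (sc GL.em)) GL.em)))
      ?_ (fun b hb => ?_) fun b hb b' hb' h6 => ?_
    · have hm' : ∀ {n : ℕ} {s : (Fin n → M) → M}, DT s → DT fun v => m (s v) := fun hs => dt1 hm hs
      simp (maxDischargeDepth := 50) [hm']
    · obtain ⟨a, ha, h6⟩ := h5 b hb
      rw [h6, p1_op]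
      exact ha
    · obtain ⟨a, ha, h7⟩ := h5 b hb
      obtain ⟨a', ha', h8⟩ := h5 b' hb'
      rw [h7, h8, p1_op, p1_op] at h6
      exact (hinj _ _ _ _ (hφi _ _ (hmU b _ hb (hms b hb).1) (hmU b' _ hb' (hms b' hb').1)
        (by rw [h7, h8, h6]))).1
  · right
    have h4 : Le Y U := ((le_sm_right _ _).trans (le_sm_right _ _)).trans h3
    have h5 : Le U (pd (sm (sm A B) Z) (sm (sm W W) om)) := by
      have hA : Le A (sm (sm A B) Z) := (le_sm_left _ _).trans (le_sm_left _ _)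
      have hB : Le B (sm (sm A B) Z) := (le_sm_right _ _).trans (le_sm_left _ _)
      have hZ : Le Z (sm (sm A B) Z) := le_sm_right _ _
      exact (le_sm (le_sm (le_pd hA (Le.refl W)) (le_pd hB (Le.refl W)))
        (le_pd hZ (Le.refl om))).trans ((le_sm (le_sm_pd _ _ _) (Le.refl _)).trans (le_sm_pd _ _ _))
    exact LeW.of_wo (wo_sm (wo_sm hWo hWo) (wo_ord om_ord)) (h4.trans h5)

end Pool.Agent.ZFW
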