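import Pool.Agent.ZFW.CCmp
import Pool.Agent.ZFW.BFinal

/-!
# MP_831107_lc, third theorem : the partition principle above a set

From `WF^s_i4` : there is a set `D` such that every image `Y` of a set `E ≥ D` injects into
`E × κ` for an ordinal `κ ≤* E`.
-/

universe u

set_option linter.unusedSectionVars false

namespace Pool.Agent.ZFW

open Pool.Agent.SigB Pool.Agent.GL

variable {M : Type u} [Membership M M] [GL.IsZF M]

/-! ### The theorem of Cantor and Bernstein -/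

theorem eqCard_of_le {X Y : M} (h : Le X Y) (h' : Le Y X) : EqCard X Y := by
  classical
  obtain ⟨f, hf, hfi⟩ := le_iff.1 h
  obtain ⟨g, hg, hgi⟩ := le_iff.1 h'
  rw [mem_fs] at hf hg
  -- `S` is closed : no element of `S` is the value of `g` at a point outside `f '' S`
  let Q : M → Prop := fun S => ∀ x, x ∈ S → ∀ y, y ∈ Y → ap g y = x → ∃ x', x' ∈ S ∧ ap f x' = y
  have hQ : Dfn (fun w : Fin 1 → M => Q (w 0)) := by
    simp (maxDischargeDepth := 50) [Q]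
  let C : M := sU (sp (pw X) Q)
  have hC : ∀ x, x ∈ C ↔ ∃ S, Sb S X ∧ Q S ∧ x ∈ S := by
    intro x
    show x ∈ sU (sp (pw X) Q) ↔ _
    rw [mem_sU]
    constructor
    · rintro ⟨S, hS, hx⟩
      rw [mem_sp hQ, mem_pw] at hS
      exact ⟨S, hS.1, hS.2, hx⟩
    · rintro ⟨S, h1, h2, hx⟩
      exact ⟨S, (mem_sp hQ).2 ⟨mem_pw.2 h1, h2⟩, hx⟩
  have hCX : Sb C X := fun x hx => by
    obtain ⟨S, h1, -, h2⟩ := (hC x).1 hx
    exact h1 x h2
  have hQC : Q C := by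
    intro x hx y hy hyx
    obtain ⟨S, h1, h2, h3⟩ := (hC x).1 hx
    obtain ⟨x', hx', h4⟩ := h2 x h3 y hy hyx
    exact ⟨x', (hC x').2 ⟨S, h1, h2, hx'⟩, h4⟩
  -- a point outside `C` is a value of `g` at a point outside `f '' C`
  have hout : ∀ x, x ∈ X → x ∉ C → ∃ y, y ∈ Y ∧ ap g y = x ∧ ∀ x', x' ∈ C → ap f x' ≠ y := by
    intro x hx hxC
    by_contra hno
    push Not at hno
    refine hxC ((hC x).2 ⟨un C (pr x x), fun z hz => ?_, fun z hz y hy hyz => ?_, by simp⟩)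
    · rw [mem_un, mem_pr, or_self] at hz
      rcases hz with hz | rfl
      · exact hCX z hz
      · exact hx
    · rw [mem_un, mem_pr, or_self] at hz
      rcases hz with hz | rfl
      · obtain ⟨x', hx', h1⟩ := hQC z hz y hy hyz
        exact ⟨x', mem_un.2 (Or.inl hx'), h1⟩
      · obtain ⟨x', hx', h1⟩ := hno y hy hyz
        exact ⟨x', mem_un.2 (Or.inl hx'), h1⟩

  -- the inverse of `g`
  let gi : M → M := fun x => sU (sp Y fun y => ap g y = x)
  have hgi' : ∀ y, y ∈ Y → gi (ap g y) = y := by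
    intro y hy
    have hm : ∀ z, z ∈ sp Y (fun z => ap g z = ap g y) ↔ z ∈ Y ∧ ap g z = ap g y := fun z =>
      mem_sp (by simp (maxDischargeDepth := 50))
    refine ext' fun z => ?_
    show z ∈ sU _ ↔ _
    rw [mem_sU]
    constructor
    · rintro ⟨u, hu, hz⟩
      rw [hm] at hu
      rwa [← hgi u y hu.1 hy hu.2]
    · intro hz
      exact ⟨y, (hm y).2 ⟨hy, rfl⟩, hz⟩
  have hgid : DT (fun w : Fin 1 → M => gi (w 0)) := by
    simp (maxDischargeDepth := 50) [gi]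
  let H : M → M := fun x => if x ∈ C then ap f x else gi x
  have hH : DT (fun w : Fin 1 → M => H (w 0)) :=
    DT.ite (P := fun w : Fin 1 → M => w 0 ∈ C) (by simp) (by simp (maxDischargeDepth := 50)) hgid
  have hH1 : ∀ x, x ∈ C → H x = ap f x := fun x hx => if_pos hx
  have hH2 : ∀ x, x ∈ X → x ∉ C → ∃ y, y ∈ Y ∧ ap g y = x ∧ H x = y ∧
      ∀ x', x' ∈ C → ap f x' ≠ y := by
    intro x hx hxC
    obtain ⟨y, hy, hyx, h1⟩ := hout x hx hxC
    refine ⟨y, hy, hyx, ?_, h1⟩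
    show (if x ∈ C then ap f x else gi x) = y
    rw [if_neg hxC, ← hyx, hgi' y hy]
  refine eqCard_iff.2 ⟨lam X H, lam_mem_fs hH fun x hx => ?_, fun x x' hx hx' hxx => ?_,
    fun y hy => ?_⟩
  · by_cases hxC : x ∈ C
    · rw [hH1 x hxC]
      exact hf.2 x hx
    · obtain ⟨y, hy, -, h1, -⟩ := hH2 x hx hxC
      rw [h1]
      exact hy
  · rw [ap_lam hH hx, ap_lam hH hx'] at hxx
    by_cases hxC : x ∈ C
    · by_cases hxC' : x' ∈ C
      · rw [hH1 x hxC, hH1 x' hxC'] at hxx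
        exact hfi x x' hx hx' hxx
      · obtain ⟨y, hy, -, h1, h2⟩ := hH2 x' hx' hxC'
        rw [hH1 x hxC, h1] at hxx
        exact (h2 x hxC hxx).elim
    · obtain ⟨y, hy, h3, h1, h2⟩ := hH2 x hx hxC
      by_cases hxC' : x' ∈ C
      · rw [hH1 x' hxC', h1] at hxx
        exact (h2 x' hxC' hxx.symm).elim
      · obtain ⟨y', hy', h3', h1', -⟩ := hH2 x' hx' hxC'
        rw [h1, h1'] at hxx
        rw [← h3, ← h3', hxx]
  · by_cases hc : ∃ x', x' ∈ C ∧ ap f x' = y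
    · obtain ⟨x', hx', rfl⟩ := hc
      exact ⟨x', hCX x' hx', by rw [ap_lam hH (hCX x' hx'), hH1 x' hx']⟩
    · have h1 : ap g y ∉ C := fun h2 => hc (hQC _ h2 y hy rfl)
      refine ⟨ap g y, hg.2 y hy, ?_⟩
      obtain ⟨y', hy', h3, h4, -⟩ := hH2 _ (hg.2 y hy) h1
      rw [ap_lam hH (hg.2 y hy), h4]
      exact hgi y' y hy' hy h3

/-! ### Multiples -/

theorem LeW.of_le {X Y : M} (h : Le X Y) : LeW X Y :=
  ⟨sc GL.em, ord_sc ord_em, Le.of_dt (F := fun x => op (ap (Classical.choose (le_iff.1 h)) x) GL.em)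
    (by simp (maxDischargeDepth := 50))
    (fun x hx => op_mem_pd.2
      ⟨(mem_fs.1 (Classical.choose_spec (le_iff.1 h)).1).2 x hx, mem_sc_self _⟩)
    fun x hx x' hx' hxx => (Classical.choose_spec (le_iff.1 h)).2 x x' hx hx' (op_inj.1 hxx).1⟩

theorem le_pd_assoc (X Y Z : M) : Le (pd (pd X Y) Z) (pd X (pd Y Z)) := by
  refine Le.of_dt (F := fun z => op (p1 (p1 z)) (op (p2 (p1 z)) (p2 z)))
    (by simp (maxDischargeDepth := 50)) (fun z hz => ?_) fun z hz z' hz' hzz => ?_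
  · obtain ⟨a, ha, b, hb, rfl⟩ := mem_pd.1 hz
    obtain ⟨x, hx, y, hy, rfl⟩ := mem_pd.1 ha
    simp only [p1_op, p2_op]
    exact op_mem_pd.2 ⟨hx, op_mem_pd.2 ⟨hy, hb⟩⟩
  · obtain ⟨a, ha, b, hb, rfl⟩ := mem_pd.1 hz
    obtain ⟨x, hx, y, hy, rfl⟩ := mem_pd.1 ha
    obtain ⟨a', ha', b', hb', rfl⟩ := mem_pd.1 hz'
    obtain ⟨x', hx', y', hy', rfl⟩ := mem_pd.1 ha'
    simp only [p1_op, p2_op] at hzz
    obtain ⟨h1, h2⟩ := op_inj.1 hzz
    obtain ⟨h3, h4⟩ := op_inj.1 h2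
    rw [h1, h3, h4]

theorem LeW.trans {X Y Z : M} (h : LeW X Y) (h' : LeW Y Z) : LeW X Z := by
  obtain ⟨γ, hγ, h⟩ := h
  obtain ⟨δ, hδ, h'⟩ := h'
  exact LeW.of_wo (wo_pd (wo_ord hδ) (wo_ord hγ))
    ((h.trans (le_pd h' (Le.refl γ))).trans (le_pd_assoc _ _ _))

theorem leW_sm {A B : M} (h : Le A B) {C : M} (h' : Le C B) : LeW (sm A C) B := by
  refine ⟨sc (sc GL.em), ord_sc (ord_sc ord_em), (le_sm h h').trans (Le.of_sb fun z hz => ?_)⟩
  rcases mem_sm.1 hz with ⟨a, ha, rfl⟩ | ⟨a, ha, rfl⟩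
  · exact op_mem_pd.2 ⟨ha, by simp⟩
  · exact op_mem_pd.2 ⟨ha, by simp⟩

/-- If `Y` is an image of `E` and injects into a well-ordered multiple of `E`, then it injects
into `E × κ` for an ordinal `κ` which is an image of `E`. -/
theorem LeW.bound {Y E : M} (h : LeStar Y E) (h' : LeW Y E) :
    ∃ κ, Ord κ ∧ LeStar κ E ∧ Le Y (pd E κ) := by
  obtain ⟨γ, hγ, h'⟩ := h'
  obtain ⟨j, hj, hji⟩ := le_iff.1 h'
  obtain ⟨f, -, hfY⟩ := ps_of_leStar h
  rw [mem_fs] at hj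
  have hd : DT (fun w : Fin 1 → M => p2 (ap j (w 0))) := by simp (maxDischargeDepth := 50)
  -- the set of the indices
  let J : M := im Y fun y => p2 (ap j y)
  have hJ : ∀ ξ, ξ ∈ J ↔ ∃ y, y ∈ Y ∧ ξ = p2 (ap j y) := fun ξ => mem_im hd
  have hJW : WO J := WO.mono (fun ξ hξ => by
    obtain ⟨y, hy, rfl⟩ := (hJ ξ).1 hξ
    obtain ⟨e, -, η, hη, h1⟩ := mem_pd.1 (hj.2 y hy)
    rw [h1, p2_op]
    exact hη) (wo_ord hγ)
  have hJE : PS J E := by
    refine ps_of_fun (F := fun e => p2 (ap j (ap f e))) (by simp (maxDischargeDepth := 50))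
      fun ξ hξ => ?_
    obtain ⟨y, hy, rfl⟩ := (hJ ξ).1 hξ
    obtain ⟨e, he, rfl⟩ := hfY y hy
    exact ⟨e, he, rfl⟩
  obtain ⟨κ, hκ, h1, h2⟩ := hJW.exists_ord
  refine ⟨κ, hκ, leStar_of_ps (h2.trans hJE), ?_⟩
  have h3 : Le J κ := by
    obtain ⟨f', -, hf'⟩ := h1
    have hF : DT (fun w : Fin 1 → M => mu fun i => i ∈ κ ∧ ap f' i = w 0) := by
      refine dt_mu (P := fun (v : Fin 1 → M) i => i ∈ κ ∧ ap f' i = v 0) ?_
      simp (maxDischargeDepth := 50)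
    have hFs : ∀ x, x ∈ J → (mu fun i => i ∈ κ ∧ ap f' i = x) ∈ κ ∧
        ap f' (mu fun i => i ∈ κ ∧ ap f' i = x) = x := by
      intro x hx
      obtain ⟨i, hi, hix⟩ := hf' x hx
      exact (mu_spec (P := fun i => i ∈ κ ∧ ap f' i = x) (by simp (maxDischargeDepth := 50))
        ⟨i, hκ.mem hi, hi, hix⟩).2.1
    exact Le.of_dt (F := fun x => mu fun i => i ∈ κ ∧ ap f' i = x) hF
      (fun x hx => (hFs x hx).1) fun x hx y hy hxy => by
        rw [← (hFs x hx).2, ← (hFs y hy).2, hxy]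
  refine Le.trans (le_iff.2 ⟨j, mem_fs.2 ⟨hj.1, fun y hy => ?_⟩, hji⟩) (le_pd (Le.refl E) h3)
  obtain ⟨e, he, η, hη, h4⟩ := mem_pd.1 (hj.2 y hy)
  rw [h4]
  exact op_mem_pd.2 ⟨he, (hJ η).2 ⟨y, hy, by rw [h4, p2_op]⟩⟩

/-! ### The theorem -/

theorem cone (hW : WF4 M Ix.s Iy.i) {A B : M} (h : LeStar B A) : LeW B A ∨
    ∀ E, Le A E → Le B E → ∀ Y, LeStar Y E → ∃ κ, Ord κ ∧ LeStar κ E ∧ Le Y (pd E κ) := by
  by_cases hc : LeW B A
  · exact Or.inl hc
  · refine Or.inr fun E hA hB Y hY => LeW.bound hY ?_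
    rcases dich hW (ps_of_leStar h) (ps_of_leStar hY) with h1 | h1
    · exact (hc h1).elim
    · exact h1.trans ((LeW.of_le (le_sm (Le.refl (sm A B)) (Le.refl E))).trans (by
        obtain ⟨γ, hγ, h2⟩ := leW_sm hA hB
        refine LeW.of_wo (V := sm γ (sc GL.em)) (wo_sm (wo_ord hγ) (wo_ord (ord_sc ord_em))) ?_
        refine (le_sm h2 (Le.of_dt (F := fun e => op e GL.em) (by simp (maxDischargeDepth := 50))
          (fun e he => op_mem_pd.2 ⟨he, mem_sc_self _⟩) fun _ _ _ _ h => (op_inj.1 h).1)).trans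
          (le_sm_pd _ _ _)))

theorem exists_cone (hW : WF4 M Ix.s Iy.i) : ∃ D : M, ∀ E, Le D E → ∀ Y, LeStar Y E →
    ∃ κ, Ord κ ∧ LeStar κ E ∧ Le Y (pd E κ) := by
  by_cases hc : ∃ A B : M, LeStar B A ∧ ¬ LeW B A
  · obtain ⟨A, B, h1, h2⟩ := hc
    refine ⟨sm A B, fun E hE Y hY => ?_⟩
    rcases cone hW h1 with h3 | h3
    · exact (h2 h3).elim
    · exact h3 E ((le_sm_left _ _).trans hE) ((le_sm_right _ _).trans hE) Y hY
  · push Not at hc
    exact ⟨GL.em, fun E _ Y hY => LeW.bound hY (hc E Y hY)⟩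

/-- With choice for families indexed by `κ` : an ordinal which is an image of `E` injects
into `E`. -/
theorem le_of_acf {κ E : M} (hAC : Acf κ) (h : LeStar κ E) : Le κ E := by
  obtain ⟨f, -, hfY⟩ := ps_of_leStar h
  have hd : DT (fun w : Fin 1 → M => sp E fun e => ap f e = w 0) := by
    simp (maxDischargeDepth := 50)
  have hm : ∀ ξ e, e ∈ sp E (fun e => ap f e = ξ) ↔ e ∈ E ∧ ap f e = ξ := fun ξ e =>
    mem_sp (by simp (maxDischargeDepth := 50))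
  obtain ⟨c, hc, hcs⟩ := hAC (lam κ fun ξ => sp E fun e => ap f e = ξ) (fn_lam hd)
    fun ξ hξ => by
      obtain ⟨e, he, h1⟩ := hfY ξ hξ
      rw [ap_lam (F := fun ξ => sp E fun e => ap f e = ξ) hd hξ]
      exact ⟨e, (hm ξ e).2 ⟨he, h1⟩⟩
  have h1 : ∀ ξ, ξ ∈ κ → ap c ξ ∈ E ∧ ap f (ap c ξ) = ξ := by
    intro ξ hξ
    have h2 := hcs ξ hξ
    rw [ap_lam (F := fun ξ => sp E fun e => ap f e = ξ) hd hξ] at h2
    exact (hm ξ _).1 h2
  refine Le.of_dt (F := ap c) (by simp (maxDischargeDepth := 50)) (fun ξ hξ => (h1 ξ hξ).1)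
    fun ξ hξ η hη h2 => ?_
  rw [← (h1 ξ hξ).2, ← (h1 η hη).2, h2]

/-! ### The statement over the language of sets -/

end Pool.Agent.ZFW

namespace Pool.Agent.ZFW

open Pool.Agent.SigB

section

variable {M : Type u} [Membership M M]

/-- `P` is the product `X × Y`. -/
def IsProd (P X Y : M) : Prop := ∀ z, z ∈ P ↔ ∃ x y, x ∈ X ∧ y ∈ Y ∧ IsOrdPair z x y

/-- `|Y| ≤ |E × κ|` for an ordinal `κ` with `|κ| ≤* |E|`. -/
def LeMul (Y E : M) : Prop := ∃ κ P, IsOrdinal κ ∧ LeStar κ E ∧ IsProd P E κ ∧ Le Y P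

/-- `|E × E| ≤ |E|`. -/
def Idem (E : M) : Prop := ∀ P, IsProd P E E → Le P E

/-- Above `D` the partition principle holds up to well-ordered multiples; and if `AC_κ` holds
for all ordinals `κ` or if there is no measurable cardinal, then above `D` the partition principle
and the dual Cantor-Schröder-Bernstein theorem hold for idempotent sets. -/
def Above (D : M) : Prop :=
  (∀ E, Le D E → ∀ Y, LeStar Y E → LeMul Y E) ∧
  ((∀ k : M, IsOrdinal k → ACk k) ∨ (∀ m : M, ¬ IsMeasurable m) →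
    (∀ E, Le D E → Idem E → ∀ Y, LeStar Y E → Le Y E) ∧
    ∀ X Y, Le D X → Le D Y → Idem X → Idem Y → LeStar X Y → LeStar Y X → EqCard X Y)

end

open Pool.Agent.GL

variable {M : Type u} [Membership M M] [GL.IsZF M]

theorem isProd_iff {P X Y : M} : IsProd P X Y ↔ P = pd X Y := by
  constructor
  · intro h
    refine ext' fun z => ?_
    rw [h z, mem_pd]
    constructor
    · rintro ⟨x, y, hx, hy, h1⟩
      exact ⟨x, hx, y, hy, isOrdPair_iff.1 h1⟩
    · rintro ⟨x, hx, y, hy, h1⟩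
      exact ⟨x, y, hx, hy, isOrdPair_iff.2 h1⟩
  · rintro rfl z
    rw [mem_pd]
    constructor
    · rintro ⟨x, hx, y, hy, h1⟩
      exact ⟨x, y, hx, hy, isOrdPair_iff.2 h1⟩
    · rintro ⟨x, y, hx, hy, h1⟩
      exact ⟨x, hx, y, hy, isOrdPair_iff.1 h1⟩

theorem leMul_iff {Y E : M} : LeMul Y E ↔ ∃ κ, Ord κ ∧ LeStar κ E ∧ Le Y (pd E κ) := by
  constructor
  · rintro ⟨κ, P, h1, h2, h3, h4⟩
    rw [isProd_iff] at h3
    exact ⟨κ, h1, h2, h3 ▸ h4⟩
  · rintro ⟨κ, h1, h2, h3⟩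
    exact ⟨κ, _, h1, h2, isProd_iff.2 rfl, h3⟩

theorem idem_iff {E : M} : Idem E ↔ Le (pd E E) E := by
  constructor
  · intro h
    exact h _ (isProd_iff.2 rfl)
  · intro h P hP
    rw [isProd_iff] at hP
    rwa [hP]

theorem wf4_si (h : WF1 M Ix.s Iy.i ∨ WF2 M Ix.s Iy.i ∨ WF3 M Ix.s Iy.i ∨ WF4 M Ix.s Iy.i) :
    WF4 M Ix.s Iy.i := by
  rcases h with h | h | h | h
  · exact wf4_of_wf3 (wf3_of_wf1 h)
  · exact wf4_of_wf3 (wf3_of_wf2 h)
  · exact wf4_of_wf3 h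
  · exact h

/-- The partition principle up to well-ordered multiples above `D` is the main part of
`Above D`. -/
theorem above_of (hW : WF4 M Ix.s Iy.i) {D : M}
    (hD : ∀ E, Le D E → ∀ Y, LeStar Y E → ∃ κ, Ord κ ∧ LeStar κ E ∧ Le Y (pd E κ)) :
    Above D := by
  refine ⟨fun E hE Y hY => leMul_iff.2 (hD E hE Y hY), fun hno => ?_⟩
  have hAC : ∀ k : M, Ord k → Acf k := by
    intro k hk
    rcases hno with h1 | h1
    · exact ack_iff.1 (h1 k hk)
    · rcases (choice_of_wf (M := M) (y := Iy.i) (fun e => by cases e)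
        (Or.inr (Or.inr (Or.inr hW)))).2 k hk with h2 | ⟨m, -, hm, -⟩
      · exact ack_iff.1 h2
      · exact (h1 m hm).elim
  have hPP : ∀ E, Le D E → Idem E → ∀ Y, LeStar Y E → Le Y E := by
    intro E hE hI Y hY
    obtain ⟨κ, hκ, h1, h2⟩ := hD E hE Y hY
    exact (h2.trans (le_pd (Le.refl E) (le_of_acf (hAC κ hκ) h1))).trans (idem_iff.1 hI)
  exact ⟨hPP, fun X Y hX hY hIX hIY h1 h2 =>
    eqCard_of_le (hPP Y hY hIY X h1) (hPP X hX hIX Y h2)⟩

/-- The consequence of the principles `WF^s_ik`. -/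
theorem above (hW : WF4 M Ix.s Iy.i) : (∃ D : M, Above D) ∧
    ∀ A B : M, LeStar B A → ¬ LeMul B A → ∀ D, Le A D → Le B D → Above D := by
  refine ⟨?_, fun A B hBA hno D hA hB => ?_⟩
  · obtain ⟨D, hD⟩ := exists_cone hW
    exact ⟨D, above_of hW hD⟩
  · rcases cone hW hBA with h1 | h1
    · exact (hno (leMul_iff.2 (LeW.bound hBA h1))).elim
    · exact above_of hW fun E hE Y hY => h1 E (hA.trans hE) (hB.trans hE) Y hY

end Pool.Agent.ZFW
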