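import Pool.Agent.ZFW.DMin

/-!
# MP_831107_lc : choice for well-ordered families implies dependent choice (Jensen)
-/

universe u

set_option linter.unusedSectionVars false

namespace Pool.Agent.ZFW

open Pool.Agent.SigB Pool.Agent.GL

variable {M : Type u} [Membership M M] [GL.IsZF M]

/-- Choice for definable families indexed by an ordinal. -/
theorem choice_dfn (hac : ∀ k : M, Ord k → Acf k) {k : M} (hk : Ord k) {R : M → M → Prop}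
    (hR : Dfn (fun w : Fin 2 → M => R (w 0) (w 1))) (h : ∀ a, a ∈ k → ∃ y, R a y) :
    ∃ c, Fn c k ∧ ∀ a, a ∈ k → R a (ap c a) := by
  have hR' : ∀ {n : ℕ} {s t : (Fin n → M) → M}, DT s → DT t → Dfn fun v => R (s v) (t v) :=
    fun hs ht => dfn2 hR hs ht
  obtain ⟨b, hb⟩ := collection hR k
  have hd : DT (fun w : Fin 1 → M => sp b fun y => R (w 0) y) := by
    simp (maxDischargeDepth := 50) [hR']
  have hm : ∀ a y, y ∈ sp b (fun y => R a y) ↔ y ∈ b ∧ R a y := fun a y =>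
    mem_sp (by simp (maxDischargeDepth := 50) [hR'])
  obtain ⟨c, hc, hc'⟩ := hac k hk (lam k fun a => sp b fun y => R a y) (fn_lam hd) fun a ha => by
    rw [ap_lam hd ha]
    obtain ⟨y, hy, hy'⟩ := hb a ha (h a ha)
    exact ⟨y, (hm a y).2 ⟨hy, hy'⟩⟩
  refine ⟨c, hc, fun a ha => ?_⟩
  have h1 := hc' a ha
  rw [ap_lam hd ha] at h1
  exact ((hm a _).1 h1).2

/-! ### The derivatives of a set -/

/-- The `α`-th derivative of `W` for the relation `R`. -/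
noncomputable def dv (R : M → M → Prop) (W α : M) : M :=
  orec (fun a h => sp W fun w => ∀ b, b ∈ a → ∃ w', w' ∈ ap h b ∧ R w w') α

section dv

variable {R : M → M → Prop}

theorem dv.dt (hR : Dfn (fun w : Fin 2 → M => R (w 0) (w 1))) :
    DT (fun w : Fin 2 → M => dv R (w 0) (w 1)) := by
  have hR' : ∀ {n : ℕ} {s t : (Fin n → M) → M}, DT s → DT t → Dfn fun v => R (s v) (t v) :=
    fun hs ht => dfn2 hR hs ht
  refine dt_orec (G := fun (v : Fin 2 → M) a h => sp (v 0) fun w => ∀ b, b ∈ a →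
    ∃ w', w' ∈ ap h b ∧ R w w') ?_ (DT.var 1)
  simp (maxDischargeDepth := 50) [hR']

theorem mem_dv (hR : Dfn (fun w : Fin 2 → M => R (w 0) (w 1))) {W α w : M} (hα : Ord α) :
    w ∈ dv R W α ↔ w ∈ W ∧ ∀ b, b ∈ α → ∃ w', w' ∈ dv R W b ∧ R w w' := by
  have hR' : ∀ {n : ℕ} {s t : (Fin n → M) → M}, DT s → DT t → Dfn fun v => R (s v) (t v) :=
    fun hs ht => dfn2 hR hs ht
  have hd : DT (fun w : Fin 1 → M => dv R W (w 0)) := dt2 (dv.dt hR) (DT.const W) (DT.var 0)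
  have h1 : dv R W α = sp W fun w => ∀ b, b ∈ α → ∃ w', w' ∈ ap (lam α (dv R W)) b ∧ R w w' :=
    orec_eq (by simp (maxDischargeDepth := 50) [hR']) hα
  rw [h1, mem_sp (by simp (maxDischargeDepth := 50) [hR'])]
  refine and_congr_right fun _ => forall_congr' fun b => ?_
  refine ⟨fun h hb => ?_, fun h hb => ?_⟩
  · have := h hb
    rwa [ap_lam hd hb] at this
  · rw [ap_lam hd hb]
    exact h hb

theorem dv_sb (hR : Dfn (fun w : Fin 2 → M => R (w 0) (w 1))) {W α : M} (hα : Ord α) :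
    Sb (dv R W α) W := fun _ hw => ((mem_dv hR hα).1 hw).1

theorem dv_anti (hR : Dfn (fun w : Fin 2 → M => R (w 0) (w 1))) {W α β : M} (hα : Ord α)
    (hβ : Ord β) (h : Sb α β) : Sb (dv R W β) (dv R W α) := fun w hw => by
  rw [mem_dv hR hβ] at hw
  rw [mem_dv hR hα]
  exact ⟨hw.1, fun b hb => hw.2 b (h b hb)⟩

theorem dv_mono (hR : Dfn (fun w : Fin 2 → M => R (w 0) (w 1))) {W W' : M} (h : Sb W W') {α : M}
    (hα : Ord α) : Sb (dv R W α) (dv R W' α) := by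
  have hd : ∀ {n : ℕ} {s t : (Fin n → M) → M}, DT s → DT t → DT fun v => dv R (s v) (t v) :=
    fun hs ht => dt2 (dv.dt hR) hs ht
  refine Ord.indAll (P := fun α => Sb (dv R W α) (dv R W' α))
    (by simp (maxDischargeDepth := 50) [hd]) (fun α hα ih w hw => ?_) hα
  rw [mem_dv hR hα] at hw ⊢
  refine ⟨h w hw.1, fun b hb => ?_⟩
  obtain ⟨w', h1, h2⟩ := hw.2 b hb
  exact ⟨w', ih b hb w' h1, h2⟩

/-- Every point of `S` lies in the `α`-th derivative of a well-orderable subset of `S`. -/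
theorem exists_wo_dv (hac : ∀ k : M, Ord k → Acf k)
    (hR : Dfn (fun w : Fin 2 → M => R (w 0) (w 1))) {S : M}
    (hS : ∀ x, x ∈ S → ∃ y, y ∈ S ∧ R x y) {α : M} (hα : Ord α) :
    ∀ x, x ∈ S → ∃ W, Sb W S ∧ WO W ∧ x ∈ dv R W α := by
  have hd : ∀ {n : ℕ} {s t : (Fin n → M) → M}, DT s → DT t → DT fun v => dv R (s v) (t v) :=
    fun hs ht => dt2 (dv.dt hR) hs ht
  refine Ord.indAll (P := fun α => ∀ x, x ∈ S → ∃ W, Sb W S ∧ WO W ∧ x ∈ dv R W α)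
    (by simp (maxDischargeDepth := 50) [hd]) (fun α hα ih x hx => ?_) hα
  obtain ⟨y, hy, hxy⟩ := hS x hx
  obtain ⟨c, hc, hc'⟩ := choice_dfn hac hα (R := fun β q => ∃ γ f W, q = op γ (op f W) ∧ Ord γ ∧
    Fn f γ ∧ (∀ w, w ∈ W → ∃ ξ, ξ ∈ γ ∧ ap f ξ = w) ∧ Sb W S ∧ y ∈ dv R W β)
    (by simp (maxDischargeDepth := 50) [hd]) (fun β hβ => by
      obtain ⟨W, h1, ⟨γ, hγ, f, hf, h2⟩, h3⟩ := ih β hβ y hy
      exact ⟨op γ (op f W), γ, f, W, rfl, hγ, hf, h2, h1, h3⟩)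
  have hq : ∀ β, β ∈ α → Ord (p1 (ap c β)) ∧ Fn (p1 (p2 (ap c β))) (p1 (ap c β)) ∧
      (∀ w, w ∈ p2 (p2 (ap c β)) → ∃ ξ, ξ ∈ p1 (ap c β) ∧ ap (p1 (p2 (ap c β))) ξ = w) ∧
      Sb (p2 (p2 (ap c β))) S ∧ y ∈ dv R (p2 (p2 (ap c β))) β := by
    intro β hβ
    obtain ⟨γ, f, W, h1, h2, h3, h4, h5, h6⟩ := hc' β hβ
    rw [h1, p1_op, p2_op, p1_op, p2_op]
    exact ⟨h2, h3, h4, h5, h6⟩
  obtain ⟨B, hB, hBs⟩ := exists_sup (a := α) (F := fun β => p1 (ap c β))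
    (by simp (maxDischargeDepth := 50)) fun β hβ => (hq β hβ).1
  have hmU : ∀ w, w ∈ sU (im α fun β => p2 (p2 (ap c β))) ↔
      ∃ β, β ∈ α ∧ w ∈ p2 (p2 (ap c β)) := by
    intro w
    rw [mem_sU]
    constructor
    · rintro ⟨u, hu, hw⟩
      obtain ⟨β, hβ, rfl⟩ := (mem_im (by simp (maxDischargeDepth := 50))).1 hu
      exact ⟨β, hβ, hw⟩
    · rintro ⟨β, hβ, hw⟩
      exact ⟨_, (mem_im (by simp (maxDischargeDepth := 50))).2 ⟨β, hβ, rfl⟩, hw⟩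
  refine ⟨un (pr x x) (sU (im α fun β => p2 (p2 (ap c β)))), ?_, ?_, ?_⟩
  · intro w hw
    rcases mem_un.1 hw with hw | hw
    · rcases mem_pr.1 hw with rfl | rfl <;> exact hx
    · obtain ⟨β, hβ, hw⟩ := (hmU w).1 hw
      exact (hq β hβ).2.2.2.1 w hw
  · refine wo_un (WO.of_ps (Y := sc GL.em) ?_ (wo_ord (ord_sc ord_em)))
      (WO.of_ps (Y := pd α B) ?_ (wo_pd (wo_ord hα) (wo_ord hB)))
    · refine ps_of_fun (F := fun _ => x) (by simp (maxDischargeDepth := 50)) fun w hw => ?_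
      refine ⟨GL.em, mem_sc_self _, ?_⟩
      rcases mem_pr.1 hw with rfl | rfl <;> rfl
    · refine ps_of_fun (F := fun z => ap (p1 (p2 (ap c (p1 z)))) (p2 z))
        (by simp (maxDischargeDepth := 50)) fun w hw => ?_
      obtain ⟨β, hβ, hw⟩ := (hmU w).1 hw
      obtain ⟨h1, h2, h3, -⟩ := hq β hβ
      obtain ⟨ξ, hξ, rfl⟩ := h3 w hw
      exact ⟨op β ξ, mem_pd.2 ⟨β, hβ, ξ, hB.trans hξ (hBs β hβ), rfl⟩, by rw [p1_op, p2_op]⟩
  · rw [mem_dv hR hα]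
    refine ⟨mem_un.2 (Or.inl (mem_pr.2 (Or.inl rfl))), fun β hβ => ⟨y, ?_, hxy⟩⟩
    exact dv_mono hR (fun w hw => mem_un.2 (Or.inr ((hmU w).2 ⟨β, hβ, hw⟩))) (hα.mem hβ) y
      (hq β hβ).2.2.2.2

end dv

/-- Dependent choice on a well-orderable set. -/
theorem dc_of_wo {R : M → M → Prop} (hR : Dfn (fun w : Fin 2 → M => R (w 0) (w 1))) {W : M}
    (hW : WO W) (hne : ∃ w, w ∈ W) (h : ∀ w, w ∈ W → ∃ w', w' ∈ W ∧ R w w') :
    ∃ F : M, Fn F GL.om ∧ (∀ n, n ∈ (GL.om : M) → ap F n ∈ W) ∧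
      ∀ n, n ∈ (GL.om : M) → R (ap F n) (ap F (sc n)) := by
  have hR' : ∀ {n : ℕ} {s t : (Fin n → M) → M}, DT s → DT t → Dfn fun v => R (s v) (t v) :=
    fun hs ht => dfn2 hR hs ht
  obtain ⟨w0, hw0⟩ := hne
  obtain ⟨γ, hγ, f, hf, hfc⟩ := hW
  have hd : DT (fun w : Fin 1 → M => mu fun ξ => ξ ∈ γ ∧ ap f ξ ∈ W ∧ R (w 0) (ap f ξ)) := by
    refine dt_mu (P := fun (v : Fin 1 → M) ξ => ξ ∈ γ ∧ ap f ξ ∈ W ∧ R (v 0) (ap f ξ)) ?_
    simp (maxDischargeDepth := 50) [hR']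
  have hd' : ∀ {n : ℕ} {s : (Fin n → M) → M}, DT s →
      DT fun v => mu fun ξ => ξ ∈ γ ∧ ap f ξ ∈ W ∧ R (s v) (ap f ξ) := fun hs =>
    dt1 (F := fun w => mu fun ξ => ξ ∈ γ ∧ ap f ξ ∈ W ∧ R w (ap f ξ)) hd hs
  have hs : ∀ w, w ∈ W → ap f (mu fun ξ => ξ ∈ γ ∧ ap f ξ ∈ W ∧ R w (ap f ξ)) ∈ W ∧
      R w (ap f (mu fun ξ => ξ ∈ γ ∧ ap f ξ ∈ W ∧ R w (ap f ξ))) := by
    intro w hw
    obtain ⟨w', hw', hww⟩ := h w hw
    obtain ⟨ξ, hξ, rfl⟩ := hfc w' hw'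
    exact (mu_spec (P := fun ξ => ξ ∈ γ ∧ ap f ξ ∈ W ∧ R w (ap f ξ))
      (by simp (maxDischargeDepth := 50) [hR']) ⟨ξ, hγ.mem hξ, hξ, hw', hww⟩).2.1.2
  obtain ⟨F, hF, hF0, hFs⟩ := om_recursion w0
    (G := fun w => ap f (mu fun ξ => ξ ∈ γ ∧ ap f ξ ∈ W ∧ R w (ap f ξ)))
    (by simp (maxDischargeDepth := 50) [hd'])
  have hm : ∀ n, n ∈ (GL.om : M) → ap F n ∈ W := by
    refine om_ind (by simp (maxDischargeDepth := 50)) (by rwa [hF0]) fun n hn ih => ?_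
    rw [hFs n hn]
    exact (hs _ ih).1
  refine ⟨F, hF, hm, fun n hn => ?_⟩
  rw [hFs n hn]
  exact (hs _ (hm n hn)).2

/-- Jensen : choice for well-ordered families implies dependent choice. -/
theorem dc_of_ac (hac : ∀ k : M, Ord k → Acf k) : DCh M := by
  intro S R hR hne hS
  obtain ⟨x0, hx0⟩ := hne
  have hd : ∀ {n : ℕ} {s t : (Fin n → M) → M}, DT s → DT t → DT fun v => dv R (s v) (t v) :=
    fun hs ht => dt2 (dv.dt hR) hs ht
  obtain ⟨hθ, hnle⟩ := hart_spec (pw S)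
  obtain ⟨W, hWS, hWo, hx⟩ := exists_wo_dv hac hR hS hθ x0 hx0
  have hex : ∃ α β, α ∈ hart (pw S) ∧ β ∈ hart (pw S) ∧ α ∈ β ∧ dv R W α = dv R W β := by
    by_contra hn
    push Not at hn
    refine hnle (Le.of_dt (F := fun α => dv R W α) (by simp (maxDischargeDepth := 50) [hd])
      (fun α hα => mem_pw.2 fun w hw => hWS w (dv_sb hR (hθ.mem hα) w hw))
      fun α hα β hβ hab => ?_)
    rcases (hθ.mem hα).tri (hθ.mem hβ) with h1 | h1 | h1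
    · exact (hn α β hα hβ h1 hab).elim
    · exact h1
    · exact (hn β α hβ hα h1 hab.symm).elim
  obtain ⟨α, β, hα, hβ, hαβ, he⟩ := hex
  obtain ⟨F, h1, h2, h3⟩ := dc_of_wo hR (W := dv R W α) (hWo.mono (dv_sb hR (hθ.mem hα)))
    ⟨x0, dv_anti hR (hθ.mem hα) hθ (hθ.sb hα) x0 hx⟩ fun w hw => by
      rw [he, mem_dv hR (hθ.mem hβ)] at hw
      exact hw.2 α hαβ
  exact ⟨F, h1, fun n hn => hWS _ (dv_sb hR (hθ.mem hα) _ (h2 n hn)), h3⟩

end Pool.Agent.ZFW
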