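import Pool.Agent.ZFW.CFin
import Pool.Agent.ZFW.DJen

/-!
# MP_831107_lc, third theorem, strong form : the partition principle modulo one set

From `WF^s_ik` : there is a set `D` such that every image `Y` of any set `Z` injects into
`Z + D × κ` for an ordinal `κ ≤* Z`; the partition principle and the dual
Cantor-Schröder-Bernstein theorem hold at all sets `X` with `X × D ≤ X`; and if the partition
principle holds up to well-ordered multiples, it holds.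
-/

universe u

set_option linter.unusedSectionVars false

namespace Pool.Agent.ZFW

open Pool.Agent.SigB

section

variable {M : Type u} [Membership M M]

/-- `|Y| ≤ |Z| + |D × κ|` for an ordinal `κ` with `|κ| ≤* |Z|` : `Y` is the union of a set
`Y₁` with `|Y₁| ≤ |Z|` and of a set `Y₂` with `|Y₂| ≤ |D × κ|`. -/
def LeSum (Y Z D : M) : Prop := ∃ κ P Y₁ Y₂, IsOrdinal κ ∧ LeStar κ Z ∧ IsProd P D κ ∧
  (∀ y, y ∈ Y ↔ y ∈ Y₁ ∨ y ∈ Y₂) ∧ Le Y₁ Z ∧ Le Y₂ P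

/-- `|X × D| ≤ |X|`. -/
def Absorbs (X D : M) : Prop := ∀ P, IsProd P X D → Le P X

/-- The partition principle holds modulo `D`. -/
def PartMod (D : M) : Prop :=
  (∀ Y Z, LeStar Y Z → LeSum Y Z D) ∧
  (∀ X, Absorbs X D → ∀ Y, LeStar Y X → Le Y X) ∧
  ∀ X Y, Absorbs X D → Absorbs Y D → LeStar X Y → LeStar Y X → EqCard X Y

end

open Pool.Agent.GL

variable {M : Type u} [Membership M M] [GL.IsZF M]

theorem absorbs_iff {X D : M} : Absorbs X D ↔ Le (pd X D) X := by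
  constructor
  · intro h
    exact h _ (isProd_iff.2 rfl)
  · intro h P hP
    rw [isProd_iff] at hP
    rwa [hP]

theorem WO.exists_le {J : M} (h : WO J) : ∃ κ, Ord κ ∧ Le J κ ∧ PS κ J := by
  obtain ⟨κ, hκ, h1, h2⟩ := h.exists_ord
  refine ⟨κ, hκ, ?_, h2⟩
  obtain ⟨f', -, hf'⟩ := h1
  have hF : DT (fun w : Fin 1 → M => mu fun i => i ∈ κ ∧ ap f' i = w 0) := by
    refine dt_mu (P := fun (v : Fin 1 → M) i => i ∈ κ ∧ ap f' i = v 0) ?_
    simp (maxDischargeDepth := 50)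
  have hFs : ∀ x, x ∈ J → (mu fun i => i ∈ κ ∧ ap f' i = x) ∈ κ ∧
      ap f' (mu fun i => i ∈ κ ∧ ap f' i = x) = x := by
    intro x hx
    obtain ⟨i, hi, hix⟩ := hf' x hx
    exact (mu_spec (P := fun i => i ∈ κ ∧ ap f' i = x) (by simp (maxDischargeDepth := 50))
      ⟨i, hκ.mem hi, hi, hix⟩).2.1
  exact Le.of_dt (F := fun x => mu fun i => i ∈ κ ∧ ap f' i = x) hF
    (fun x hx => (hFs x hx).1) fun x hx y hy hxy => by
      rw [← (hFs x hx).2, ← (hFs y hy).2, hxy]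

/-- The ordinal can be taken to be an image of `Z`. -/
theorem bound_sum {Y Z D κ : M} (h : PS Y Z) (hκ : Ord κ) (h' : Le Y (sm Z (pd D κ))) :
    ∃ κ, Ord κ ∧ PS κ Z ∧ Le Y (sm Z (pd D κ)) := by
  obtain ⟨j, hj, hji⟩ := le_iff.1 h'
  rw [mem_fs] at hj
  have hY2 : ∀ y, y ∈ sp Y (fun y => p2 (ap j y) = sc GL.em) ↔ y ∈ Y ∧ p2 (ap j y) = sc GL.em :=
    fun y => mem_sp (by simp (maxDischargeDepth := 50))
  have hd : DT (fun w : Fin 1 → M => p2 (p1 (ap j (w 0)))) := by simp (maxDischargeDepth := 50)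
  let J : M := im (sp Y fun y => p2 (ap j y) = sc GL.em) fun y => p2 (p1 (ap j y))
  have hJ : ∀ ξ, ξ ∈ J ↔ ∃ y, (y ∈ Y ∧ p2 (ap j y) = sc GL.em) ∧ ξ = p2 (p1 (ap j y)) := by
    intro ξ
    show ξ ∈ im _ _ ↔ _
    rw [mem_im hd]
    simp only [hY2]
  have hval : ∀ y, y ∈ Y → (∃ z, z ∈ Z ∧ ap j y = op z GL.em) ∨
      ∃ d ξ, d ∈ D ∧ ξ ∈ κ ∧ ap j y = op (op d ξ) (sc GL.em) := by
    intro y hy
    rcases mem_sm.1 (hj.2 y hy) with ⟨z, hz, h1⟩ | ⟨a, ha, h1⟩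
    · exact Or.inl ⟨z, hz, h1⟩
    · obtain ⟨d, hd, ξ, hξ, rfl⟩ := mem_pd.1 ha
      exact Or.inr ⟨d, ξ, hd, hξ, h1⟩
  have hJW : WO J := WO.mono (fun ξ hξ => by
    obtain ⟨y, ⟨hy, hy2⟩, rfl⟩ := (hJ ξ).1 hξ
    rcases hval y hy with ⟨z, -, h1⟩ | ⟨d, ξ, -, hξ', h1⟩
    · rw [h1, p2_op] at hy2
      exact absurd hy2.symm sc_em_ne
    · rw [h1, p1_op, p2_op]
      exact hξ') (wo_ord hκ)
  have hJY : PS J Y := by
    refine ps_of_fun (F := fun y => p2 (p1 (ap j y))) (by simp (maxDischargeDepth := 50))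
      fun ξ hξ => ?_
    obtain ⟨y, ⟨hy, -⟩, rfl⟩ := (hJ ξ).1 hξ
    exact ⟨y, hy, rfl⟩
  obtain ⟨κ', hκ', h1, h2⟩ := hJW.exists_le
  refine ⟨κ', hκ', h2.trans (hJY.trans h), ?_⟩
  refine Le.trans (le_iff.2 ⟨j, mem_fs.2 ⟨hj.1, fun y hy => ?_⟩, hji⟩)
    (le_sm (Le.refl Z) (le_pd (Le.refl D) h1))
  rcases hval y hy with ⟨z, hz, h3⟩ | ⟨d, ξ, hd', hξ, h3⟩
  · rw [h3]
    exact op_em_mem_sm.2 hz
  · have h4 : ξ ∈ J := (hJ ξ).2 ⟨y, ⟨hy, by rw [h3, p2_op]⟩, by rw [h3, p1_op, p2_op]⟩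
    rw [h3]
    exact op_sc_mem_sm.2 (op_mem_pd.2 ⟨hd', h4⟩)

theorem leSum_of {Y Z D κ : M} (hκ : Ord κ) (hκZ : PS κ Z) (h : Le Y (sm Z (pd D κ))) :
    LeSum Y Z D := by
  obtain ⟨j, hj, hji⟩ := le_iff.1 h
  rw [mem_fs] at hj
  have h1 : ∀ y, y ∈ sp Y (fun y => p2 (ap j y) = GL.em) ↔ y ∈ Y ∧ p2 (ap j y) = GL.em :=
    fun y => mem_sp (by simp (maxDischargeDepth := 50))
  have h2 : ∀ y, y ∈ sp Y (fun y => p2 (ap j y) = sc GL.em) ↔ y ∈ Y ∧ p2 (ap j y) = sc GL.em :=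
    fun y => mem_sp (by simp (maxDischargeDepth := 50))
  refine ⟨κ, pd D κ, sp Y fun y => p2 (ap j y) = GL.em, sp Y fun y => p2 (ap j y) = sc GL.em,
    hκ, leStar_of_ps hκZ, isProd_iff.2 rfl, fun y => ?_, ?_, ?_⟩
  · rw [h1, h2]
    constructor
    · intro hy
      rcases mem_sm.1 (hj.2 y hy) with ⟨z, hz, h3⟩ | ⟨z, hz, h3⟩
      · exact Or.inl ⟨hy, by rw [h3, p2_op]⟩
      · exact Or.inr ⟨hy, by rw [h3, p2_op]⟩
    · rintro (h3 | h3)
      · exact h3.1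
      · exact h3.1
  · refine Le.of_dt (F := fun y => p1 (ap j y)) (by simp (maxDischargeDepth := 50))
      (fun y hy => ?_) fun y hy y' hy' hyy => ?_
    · obtain ⟨hy, h3⟩ := (h1 y).1 hy
      rcases mem_sm.1 (hj.2 y hy) with ⟨z, hz, h4⟩ | ⟨z, hz, h4⟩
      · rw [h4, p1_op]
        exact hz
      · rw [h4, p2_op] at h3
        exact absurd h3 sc_em_ne
    · obtain ⟨hy, h3⟩ := (h1 y).1 hy
      obtain ⟨hy', h3'⟩ := (h1 y').1 hy'
      refine hji y y' hy hy' ?_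
      rcases mem_sm.1 (hj.2 y hy) with ⟨z, hz, h4⟩ | ⟨z, hz, h4⟩ <;>
      rcases mem_sm.1 (hj.2 y' hy') with ⟨z', hz', h4'⟩ | ⟨z', hz', h4'⟩ <;>
      rw [h4, p2_op] at h3 <;> rw [h4', p2_op] at h3' <;>
      first
        | exact absurd h3 sc_em_ne
        | exact absurd h3' sc_em_ne
        | (rw [h4, h4', p1_op, p1_op] at hyy
           rw [h4, h4', hyy])
  · refine Le.of_dt (F := fun y => p1 (ap j y)) (by simp (maxDischargeDepth := 50))
      (fun y hy => ?_) fun y hy y' hy' hyy => ?_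
    · obtain ⟨hy, h3⟩ := (h2 y).1 hy
      rcases mem_sm.1 (hj.2 y hy) with ⟨z, hz, h4⟩ | ⟨z, hz, h4⟩
      · rw [h4, p2_op] at h3
        exact absurd h3.symm sc_em_ne
      · rw [h4, p1_op]
        exact hz
    · obtain ⟨hy, h3⟩ := (h2 y).1 hy
      obtain ⟨hy', h3'⟩ := (h2 y').1 hy'
      refine hji y y' hy hy' ?_
      rcases mem_sm.1 (hj.2 y hy) with ⟨z, hz, h4⟩ | ⟨z, hz, h4⟩ <;>
      rcases mem_sm.1 (hj.2 y' hy') with ⟨z', hz', h4'⟩ | ⟨z', hz', h4'⟩ <;>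
      rw [h4, p2_op] at h3 <;> rw [h4', p2_op] at h3' <;>
      first
        | exact absurd h3.symm sc_em_ne
        | exact absurd h3'.symm sc_em_ne
        | (rw [h4, h4', p1_op, p1_op] at hyy
           rw [h4, h4', hyy])

theorem LeW.sm {X Y E : M} (h : LeW X E) (h' : LeW Y E) : LeW (sm X Y) E := by
  obtain ⟨γ, hγ, h⟩ := h
  obtain ⟨δ, hδ, h'⟩ := h'
  exact LeW.of_wo (V := Pool.Agent.ZFW.sm γ δ) (wo_sm (wo_ord hγ) (wo_ord hδ))
    ((le_sm h h').trans (le_sm_pd _ _ _))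

/-- Two different elements of `D` : `X + X ≤ X × D`. -/
theorem sm_le_pd {X D d e : M} (hd : d ∈ D) (he : e ∈ D) (hde : d ≠ e) :
    Le (sm X X) (pd X D) := by
  classical
  let F : M → M := fun z => if p2 z = GL.em then op (p1 z) d else op (p1 z) e
  have hF : DT (fun w : Fin 1 → M => F (w 0)) :=
    DT.ite (P := fun w : Fin 1 → M => p2 (w 0) = GL.em) (by simp (maxDischargeDepth := 50))
      (by simp (maxDischargeDepth := 50)) (by simp (maxDischargeDepth := 50))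
  have h1 : ∀ x, F (op x GL.em) = op x d := fun x => by
    show (if p2 (op x GL.em) = GL.em then op (p1 (op x GL.em)) d
      else op (p1 (op x GL.em)) e) = op x d
    rw [p2_op, if_pos rfl, p1_op]
  have h2 : ∀ x, F (op x (sc GL.em)) = op x e := fun x => by
    show (if p2 (op x (sc GL.em)) = GL.em then op (p1 (op x (sc GL.em))) d
      else op (p1 (op x (sc GL.em))) e) = op x e
    rw [p2_op, if_neg sc_em_ne, p1_op]
  refine Le.of_dt (F := F) hF (fun z hz => ?_) fun z hz z' hz' hzz => ?_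
  · rcases mem_sm.1 hz with ⟨x, hx, rfl⟩ | ⟨x, hx, rfl⟩
    · rw [h1]
      exact op_mem_pd.2 ⟨hx, hd⟩
    · rw [h2]
      exact op_mem_pd.2 ⟨hx, he⟩
  · rcases mem_sm.1 hz with ⟨x, hx, rfl⟩ | ⟨x, hx, rfl⟩ <;>
    rcases mem_sm.1 hz' with ⟨x', hx', rfl⟩ | ⟨x', hx', rfl⟩ <;>
    simp only [h1, h2] at hzz
    · rw [(op_inj.1 hzz).1]
    · exact absurd (op_inj.1 hzz).2 hde
    · exact absurd (op_inj.1 hzz).2.symm hde
    · rw [(op_inj.1 hzz).1]

theorem le_pd_swap (X Y : M) : Le (pd X Y) (pd Y X) := by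
  refine Le.of_dt (F := fun z => op (p2 z) (p1 z)) (by simp (maxDischargeDepth := 50))
    (fun z hz => ?_) fun z hz z' hz' hzz => ?_
  · obtain ⟨x, hx, y, hy, rfl⟩ := mem_pd.1 hz
    rw [p1_op, p2_op]
    exact op_mem_pd.2 ⟨hy, hx⟩
  · obtain ⟨x, hx, y, hy, rfl⟩ := mem_pd.1 hz
    obtain ⟨x', hx', y', hy', rfl⟩ := mem_pd.1 hz'
    rw [p1_op, p2_op, p1_op, p2_op] at hzz
    rw [(op_inj.1 hzz).1, (op_inj.1 hzz).2]

theorem partMod_of_exact (hac : ∀ k : M, Ord k → Acf k) {D d e : M} (hd : d ∈ D) (he : e ∈ D)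
    (hde : d ≠ e) (h : ∀ Y Z : M, PS Y Z → ∃ κ : M, Ord κ ∧ Le Y (sm Z (pd D κ))) :
    PartMod D := by
  have h0 : ∀ Y Z : M, PS Y Z → ∃ κ : M, Ord κ ∧ PS κ Z ∧ Le Y (sm Z (pd D κ)) := by
    intro Y Z hYZ
    obtain ⟨κ, hκ, h1⟩ := h Y Z hYZ
    exact bound_sum hYZ hκ h1
  have hPP : ∀ X : M, Absorbs X D → ∀ Y, LeStar Y X → Le Y X := by
    intro X hX Y hY
    rw [absorbs_iff] at hX
    obtain ⟨κ, hκ, h1, h2⟩ := h0 Y X (ps_of_leStar hY)
    have h3 : Le κ X := le_of_acf (hac κ hκ) (leStar_of_ps h1)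
    have h4 : Le (pd D κ) X := ((le_pd (Le.refl D) h3).trans (le_pd_swap D X)).trans hX
    exact ((h2.trans (le_sm (Le.refl X) h4)).trans (sm_le_pd hd he hde)).trans hX
  refine ⟨fun Y Z hYZ => ?_, hPP, fun X Y hX hY h1 h2 =>
    eqCard_of_le (hPP Y hY X h1) (hPP X hX Y h2)⟩
  obtain ⟨κ, hκ, h1, h2⟩ := h0 Y Z (ps_of_leStar hYZ)
  exact leSum_of hκ h1 h2

theorem partMod_of_pp (h : ∀ Y Z : M, LeStar Y Z → Le Y Z) (D : M) : PartMod D := by
  refine ⟨fun Y Z hYZ => leSum_of ord_em (ps_em Z) ((h Y Z hYZ).trans (le_sm_left _ _)),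
    fun X _ Y hY => h Y X hY, fun X Y _ _ h1 h2 => eqCard_of_le (h X Y h1) (h Y X h2)⟩

/-- The consequence of the principles `WF^s_ik`. -/
theorem part_mod (hW : WF4 M Ix.s Iy.i) : (∃ D : M, PartMod D) ∧
    (∀ A B : M, LeStar B A → ¬ LeMul B A → ∀ D, Le A D → Le B D → PartMod D) ∧
    ((∀ A B : M, LeStar B A → LeMul B A) → ∀ A B : M, LeStar B A → Le B A) := by
  have hac : ∀ k : M, Ord k → Acf k := fun k hk => acf_of_wf4s hW hk
  have hdc : DCh M := dc_of_ac hac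
  have hWi : WF4 M Ix.i Iy.i := wf4_ii_of_si hW
  have h2 : ∀ A B : M, LeStar B A → ¬ LeMul B A → ∀ D, Le A D → Le B D → PartMod D := by
    intro A B hBA hno D hA hB
    -- two different elements of `B`
    have hex : ∃ b b', b ∈ B ∧ b' ∈ B ∧ b ≠ b' := by
      by_contra hc
      push Not at hc
      refine hno (leMul_iff.2 (LeW.bound hBA (LeW.of_le ?_)))
      rcases leStar_iff.1 hBA with h | ⟨f, hf, hfs⟩
      · exact Le.of_sb fun x hx => (h x hx).elim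
      · by_cases hA : ∃ a, a ∈ A
        · obtain ⟨a, ha⟩ := hA
          exact Le.of_dt (F := fun _ => a) (by simp (maxDischargeDepth := 50))
            (fun _ _ => ha) fun x hx y hy _ => hc x y hx hy
        · push Not at hA
          exact Le.of_sb fun x hx => by
            obtain ⟨a, ha, -⟩ := hfs x hx
            exact (hA a ha).elim
    obtain ⟨b, b', hb, hb', hbb⟩ := hex
    obtain ⟨g, hg, hgi⟩ := le_iff.1 hB
    rw [mem_fs] at hg
    refine partMod_of_exact hac (hg.2 b hb) (hg.2 b' hb') (fun h => hbb (hgi b b' hb hb' h))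
      fun Y Z hYZ => exact_of_weak hWi hac hdc (fun U V hUV => ?_) hYZ
    rcases dich hW (ps_of_leStar hBA) hUV with h1 | h1
    · exact (hno (leMul_iff.2 (LeW.bound hBA h1))).elim
    · exact h1.trans (LeW.sm (leW_sm (hA.trans (le_sm_left D V)) (hB.trans (le_sm_left D V)))
        (LeW.of_le (le_sm_right D V)))
  have h3 : (∀ A B : M, LeStar B A → LeMul B A) → ∀ A B : M, LeStar B A → Le B A := by
    intro h A B hBA
    refine pp_of_ppw hWi hac hdc (fun U V hUV => ?_) (ps_of_leStar hBA)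
    obtain ⟨κ, h1, -, h2⟩ := leMul_iff.1 (h V U (leStar_of_ps hUV))
    exact ⟨κ, h1, h2⟩
  refine ⟨?_, h2, h3⟩
  by_cases hc : ∃ A B : M, LeStar B A ∧ ¬ LeMul B A
  · obtain ⟨A, B, h4, h5⟩ := hc
    exact ⟨sm A B, h2 A B h4 h5 _ (le_sm_left _ _) (le_sm_right _ _)⟩
  · push Not at hc
    exact ⟨GL.em, partMod_of_pp (fun Y Z hYZ => h3 hc Z Y hYZ) _⟩

end Pool.Agent.ZFW
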