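import Pool.Agent.ZFW.CUni

/-!
# MP_831107_lc, third theorem, final form

The statement over the language of sets : the partition principle modulo one set, and uniqueness
of a failure at an idempotent set.
-/

universe u

set_option linter.unusedSectionVars false

namespace Pool.Agent.ZFW

open Pool.Agent.SigB

section

variable {M : Type u} [Membership M M]

/-- `|X| ≤ |Y × κ|` for an ordinal `κ`. -/
def LeOrd (X Y : M) : Prop := ∃ κ P, IsOrdinal κ ∧ IsProd P Y κ ∧ Le X P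

/-- `|A × A| ≤ |A × κ|` for an ordinal `κ`. -/
def IdemOrd (A : M) : Prop := ∀ P, IsProd P A A → LeOrd P A

/-- The partition principle up to well-ordered multiples fails for `B ≤* A`. -/
def Fails (B A : M) : Prop := LeStar B A ∧ ¬ LeMul B A

end

open Pool.Agent.GL

variable {M : Type u} [Membership M M] [GL.IsZF M]

theorem leOrd_iff {X Y : M} : LeOrd X Y ↔ LeW X Y := by
  constructor
  · rintro ⟨κ, P, h1, h2, h3⟩
    rw [isProd_iff] at h2
    exact ⟨κ, h1, h2 ▸ h3⟩
  · rintro ⟨κ, h1, h2⟩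
    exact ⟨κ, _, h1, isProd_iff.2 rfl, h2⟩

theorem idemOrd_iff {A : M} : IdemOrd A ↔ LeW (pd A A) A := by
  constructor
  · intro h
    exact leOrd_iff.1 (h _ (isProd_iff.2 rfl))
  · intro h P hP
    rw [isProd_iff] at hP
    rw [hP]
    exact leOrd_iff.2 h

theorem fails_iff {B A : M} : Fails B A ↔ LeStar B A ∧ ¬ LeW B A := by
  constructor
  · rintro ⟨h1, h2⟩
    exact ⟨h1, fun h => h2 (leMul_iff.2 (LeW.bound h1 h))⟩
  · rintro ⟨h1, h2⟩
    refine ⟨h1, fun h => h2 ?_⟩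
    obtain ⟨κ, h3, -, h4⟩ := leMul_iff.1 h
    exact ⟨κ, h3, h4⟩

/-- A failure at `A` : `A` is idempotent or `B ≤ A × A × A`, up to well-ordered multiples. -/
theorem idem_or_cube (hW : WF4 M Ix.s Iy.i) {A B : M} (hBA : LeStar B A) (hn : ¬ LeW B A) :
    LeW (pd A A) A ∨ LeW B (pd (pd A A) A) := by
  have hP := PW.of_ps (ps_of_leStar hBA)
  have hA : ∃ a, a ∈ A := by
    by_contra hA
    push Not at hA
    refine hn (LeW.of_le (Le.of_sb fun x hx => ?_))
    obtain ⟨f, -, hf⟩ := ps_of_leStar hBA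
    obtain ⟨a, ha, -⟩ := hf x hx
    exact (hA a ha).elim
  obtain ⟨a, ha⟩ := hA
  rcases dich_pd hW hP hn (pd A A) with h | h
  · rcases between hW hP (LeW.of_le (le_pd_pt ha A)) h with h1 | h1
    · exact Or.inl h1
    · exact Or.inr (((LeW.of_le (le_sm_right A B)).trans h1).trans (LeW.of_le (le_pd_pt ha _)))
  · exact Or.inr ((LeW.of_le (le_sm_right A B)).trans h)

/-- The consequence of the principles `WF^s_ik`. -/
theorem part_mod_uni (hW : WF4 M Ix.s Iy.i) : (∃ D : M, PartMod D) ∧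
    (∀ A B : M, Fails B A → ∀ D, Le A D → Le B D → PartMod D) ∧
    ((∀ A B : M, ¬ Fails B A) → ∀ A B : M, LeStar B A → Le B A) ∧
    ∀ A B : M, Fails B A → (∀ Q P, IsProd Q A A → IsProd P Q A → LeOrd B P) ∨
      (IdemOrd A ∧ (∀ Z, LeOrd Z A ∨ (LeOrd A Z ∧ LeOrd B Z)) ∧
      ∀ A' B', Fails B' A' → LeOrd A' A ∧ LeOrd A A' ∧ LeOrd B' B ∧ LeOrd B B') := by
  obtain ⟨h1, h2, h3⟩ := part_mod hW
  refine ⟨h1, fun A B h => h2 A B h.1 h.2, fun h => h3 fun A B hBA => ?_, fun A B hf => ?_⟩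
  · by_contra hc
    exact h A B ⟨hBA, hc⟩
  · rw [fails_iff] at hf
    rcases idem_or_cube hW hf.1 hf.2 with hi | hc
    · refine Or.inr ⟨idemOrd_iff.2 hi, fun Z => ?_, fun A' B' hf' => ?_⟩
      · rcases uni_dich hW hf.1 hf.2 hi Z with h | h
        · exact Or.inl (leOrd_iff.2 h)
        · exact Or.inr ⟨leOrd_iff.2 ((LeW.of_le (le_sm_left A B)).trans h),
            leOrd_iff.2 ((LeW.of_le (le_sm_right A B)).trans h)⟩
      · rw [fails_iff] at hf'
        have hBA := PW.of_ps (ps_of_leStar hf.1)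
        have hBA' := PW.of_ps (ps_of_leStar hf'.1)
        obtain ⟨h4, h5, h6, -⟩ := uni_all hW hBA hf.2 hi hBA' hf'.2
        have hi' : LeW (pd A' A') A' := ((leW_pd h5 h5).trans hi).trans h4
        obtain ⟨-, -, h7, -⟩ := uni_all hW hBA' hf'.2 hi' hBA hf.2
        exact ⟨leOrd_iff.2 h5, leOrd_iff.2 h4,
          leOrd_iff.2 ((LeW.of_le (le_sm_right A' B')).trans h7),
          leOrd_iff.2 ((LeW.of_le (le_sm_right A B)).trans h6)⟩
    · left
      intro Q P hQ hP
      rw [isProd_iff] at hQ hP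
      rw [hP, hQ]
      exact leOrd_iff.2 hc

end Pool.Agent.ZFW
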