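import Pool.Agent.ZFW.CPin

/-!
# MP_831107_lc, third theorem : the failures at idempotent sets

From `WF^s_i4` : if the set `A` is idempotent (up to well-ordered multiples) and `B` is an image
of `A` which does not inject into a well-ordered multiple of `A`, then every set `Z` injects into
a well-ordered multiple of `A`, or `A + B` injects into a well-ordered multiple of `Z`
(`uni_dich`). So any two such sets `A` inject into well-ordered multiples of each other (`uni`).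
-/

universe u

set_option linter.unusedSectionVars false

namespace Pool.Agent.ZFW

open Pool.Agent.SigB Pool.Agent.GL

variable {M : Type u} [Membership M M] [GL.IsZF M]

/-! ### Images of well-ordered multiples -/

/-- `X` is covered by `Y × γ` for an ordinal `γ`. -/
def PW (X Y : M) : Prop := ∃ γ, Ord γ ∧ PS X (pd Y γ)

theorem ps_of_le {X Y : M} (h : Le X Y) : PS X Y := ps_of_leStar h.leStar

theorem PW.of_wo {X Y V : M} (hV : WO V) (h : PS X (pd Y V)) : PW X Y := by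
  obtain ⟨α, hα, hVα⟩ := hV
  exact ⟨α, hα, h.trans (ps_pd (PS.refl Y) hVα)⟩

theorem le_pd_pt {V v : M} (hv : v ∈ V) (Y : M) : Le Y (pd Y V) :=
  Le.of_dt (F := fun y => op y v) (by simp (maxDischargeDepth := 50))
    (fun y hy => op_mem_pd.2 ⟨hy, hv⟩) fun _ _ _ _ h => (op_inj.1 h).1

theorem PW.of_ps {X Y : M} (h : PS X Y) : PW X Y :=
  ⟨sc GL.em, ord_sc ord_em, h.trans (ps_of_le (le_pd_pt (mem_sc_self _) Y))⟩

theorem PW.refl (X : M) : PW X X := PW.of_ps (PS.refl X)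

theorem LeW.refl (X : M) : LeW X X := LeW.of_le (Le.refl X)

theorem PW.trans {X Y Z : M} (h : PW X Y) (h' : PW Y Z) : PW X Z := by
  obtain ⟨γ, hγ, h⟩ := h
  obtain ⟨δ, hδ, h'⟩ := h'
  exact PW.of_wo (wo_pd (wo_ord hδ) (wo_ord hγ))
    ((h.trans (ps_pd h' (PS.refl γ))).trans (ps_of_le (le_pd_assoc _ _ _)))

theorem LeW.pw {X Y : M} (h : LeW X Y) : PW X Y := by
  obtain ⟨γ, hγ, h⟩ := h
  exact ⟨γ, hγ, ps_of_le h⟩

theorem pw_sm {X Y Z : M} (h : PW X Z) (h' : PW Y Z) : PW (sm X Y) Z := by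
  obtain ⟨γ, hγ, h⟩ := h
  obtain ⟨δ, hδ, h'⟩ := h'
  exact PW.of_wo (V := sm γ δ) (wo_sm (wo_ord hγ) (wo_ord hδ))
    ((ps_sm h h').trans (ps_of_le (le_sm_pd _ _ _)))

/-- `(X × γ) × (Y × δ)` injects into `(X × Y) × (γ × δ)`. -/
theorem le_pd_mid (X γ Y δ : M) : Le (pd (pd X γ) (pd Y δ)) (pd (pd X Y) (pd γ δ)) := by
  refine Le.of_dt (F := fun z => op (op (p1 (p1 z)) (p1 (p2 z))) (op (p2 (p1 z)) (p2 (p2 z))))
    (by simp (maxDischargeDepth := 50)) (fun z hz => ?_) fun z hz z' hz' hzz => ?_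
  · obtain ⟨a, ha, b, hb, rfl⟩ := mem_pd.1 hz
    obtain ⟨x, hx, i, hi, rfl⟩ := mem_pd.1 ha
    obtain ⟨y, hy, j, hj, rfl⟩ := mem_pd.1 hb
    simp only [p1_op, p2_op]
    exact op_mem_pd.2 ⟨op_mem_pd.2 ⟨hx, hy⟩, op_mem_pd.2 ⟨hi, hj⟩⟩
  · obtain ⟨a, ha, b, hb, rfl⟩ := mem_pd.1 hz
    obtain ⟨x, hx, i, hi, rfl⟩ := mem_pd.1 ha
    obtain ⟨y, hy, j, hj, rfl⟩ := mem_pd.1 hb
    obtain ⟨a', ha', b', hb', rfl⟩ := mem_pd.1 hz'
    obtain ⟨x', hx', i', hi', rfl⟩ := mem_pd.1 ha'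
    obtain ⟨y', hy', j', hj', rfl⟩ := mem_pd.1 hb'
    simp only [p1_op, p2_op] at hzz
    obtain ⟨h1, h2⟩ := op_inj.1 hzz
    obtain ⟨h3, h4⟩ := op_inj.1 h1
    obtain ⟨h5, h6⟩ := op_inj.1 h2
    rw [h3, h4, h5, h6]

theorem leW_pd {X X' Y Y' : M} (h : LeW X X') (h' : LeW Y Y') : LeW (pd X Y) (pd X' Y') := by
  obtain ⟨γ, hγ, h⟩ := h
  obtain ⟨δ, hδ, h'⟩ := h'
  exact LeW.of_wo (wo_pd (wo_ord hγ) (wo_ord hδ)) ((le_pd h h').trans (le_pd_mid _ _ _ _))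

theorem pw_pd {X X' Y Y' : M} (h : PW X X') (h' : PW Y Y') : PW (pd X Y) (pd X' Y') := by
  obtain ⟨γ, hγ, h⟩ := h
  obtain ⟨δ, hδ, h'⟩ := h'
  exact PW.of_wo (wo_pd (wo_ord hγ) (wo_ord hδ)) ((ps_pd h h').trans (ps_of_le (le_pd_mid _ _ _ _)))

/-! ### A well-orderable set with `μ × V ≤* V` -/

theorem exists_absorb (hac : Acf (om : M)) {μ : M} (hμ : Ord μ) :
    ∃ V, WO V ∧ (∃ v, v ∈ V) ∧ PS (pd μ V) V := by
  obtain ⟨F, hF, hF0, hFs⟩ := om_recursion (sc GL.em : M) (G := fun x => pd μ x)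
    (by simp (maxDischargeDepth := 50))
  have hwo : ∀ n, n ∈ (om : M) → WO (ap F n) := by
    refine om_ind (P := fun n => WO (ap F n)) (by simp (maxDischargeDepth := 50)) ?_ ?_
    · rw [hF0]
      exact wo_ord (ord_sc ord_em)
    · intro n hn ih
      rw [hFs n hn]
      exact wo_pd (wo_ord hμ) ih
  -- the set
  have hdV : Dfn (fun w : Fin 1 → M => p2 (w 0) ∈ ap F (p1 (w 0))) := by
    simp (maxDischargeDepth := 50)
  let V : M := sp (pd om (sU (im om (ap F)))) fun z => p2 z ∈ ap F (p1 z)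
  have hV : ∀ z, z ∈ V ↔ ∃ n t, n ∈ (om : M) ∧ t ∈ ap F n ∧ z = op n t := by
    intro z
    show z ∈ sp _ _ ↔ _
    rw [mem_sp hdV, mem_pd]
    constructor
    · rintro ⟨⟨n, hn, t, ht, rfl⟩, h⟩
      rw [p1_op, p2_op] at h
      exact ⟨n, t, hn, h, rfl⟩
    · rintro ⟨n, t, hn, ht, rfl⟩
      rw [p1_op, p2_op]
      exact ⟨⟨n, hn, t, mem_sU.2 ⟨_, (mem_im (by simp (maxDischargeDepth := 50))).2 ⟨n, hn, rfl⟩,
        ht⟩, rfl⟩, ht⟩
  refine ⟨V, ?_, ⟨op GL.em GL.em, (hV _).2 ⟨_, _, em_mem_om, by rw [hF0]; exact mem_sc_self _,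
    rfl⟩⟩, ?_⟩
  · -- `V` is well-orderable
    let K : M → M := fun n => mu fun α => Le (ap F n) α
    have hKd : DT (fun w : Fin 1 → M => K (w 0)) := by
      refine dt_mu (P := fun (v : Fin 1 → M) α => Le (ap F (v 0)) α) ?_
      simp (maxDischargeDepth := 50)
    have hKd' : ∀ {n : ℕ} {s : (Fin n → M) → M}, DT s → DT fun v => K (s v) := fun hs => dt1 hKd hs
    have hK : ∀ n, n ∈ (om : M) → Ord (K n) ∧ Le (ap F n) (K n) := by
      intro n hn
      obtain ⟨α, hα, h⟩ := (hwo n hn).le_ord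
      obtain ⟨h1, h2, -⟩ := mu_spec (P := fun α => Le (ap F n) α)
        (by simp (maxDischargeDepth := 50)) ⟨α, hα, h⟩
      exact ⟨h1, h2⟩
    let In : M → M := fun n => sp (fs (ap F n) (K n)) fun g =>
      ∀ x y, x ∈ ap F n → y ∈ ap F n → ap g x = ap g y → x = y
    have hInd : DT (fun w : Fin 1 → M => In (w 0)) := by
      simp (maxDischargeDepth := 50) [In, hKd']
    have hIn : ∀ n g, g ∈ In n ↔ g ∈ fs (ap F n) (K n) ∧
        ∀ x y, x ∈ ap F n → y ∈ ap F n → ap g x = ap g y → x = y := fun n g =>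
      mem_sp (by simp (maxDischargeDepth := 50))
    obtain ⟨c, hc, hc'⟩ := hac (lam om In) (fn_lam hInd) fun n hn => by
      rw [ap_lam hInd hn]
      obtain ⟨g, hg, hgi⟩ := le_iff.1 (hK n hn).2
      exact ⟨g, (hIn n g).2 ⟨hg, hgi⟩⟩
    have hcI : ∀ n, n ∈ (om : M) → (∀ x, x ∈ ap F n → ap (ap c n) x ∈ K n) ∧
        ∀ x y, x ∈ ap F n → y ∈ ap F n → ap (ap c n) x = ap (ap c n) y → x = y := by
      intro n hn
      have h1 := hc' n hn
      rw [ap_lam hInd hn, hIn, mem_fs] at h1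
      exact ⟨h1.1.2, h1.2⟩
    obtain ⟨β, hβ, hKβ⟩ := exists_sup (a := (om : M)) hKd fun n hn => (hK n hn).1
    refine WO.of_ps (ps_of_le (Le.of_dt (F := fun z => op (p1 z) (ap (ap c (p1 z)) (p2 z)))
      (by simp (maxDischargeDepth := 50)) (fun z hz => ?_) fun z hz z' hz' hzz => ?_))
      (wo_pd (wo_ord om_ord) (wo_ord hβ))
    · obtain ⟨n, t, hn, ht, rfl⟩ := (hV z).1 hz
      rw [p1_op, p2_op]
      exact op_mem_pd.2 ⟨hn, hβ.trans ((hcI n hn).1 t ht) (hKβ n hn)⟩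
    · obtain ⟨n, t, hn, ht, rfl⟩ := (hV z).1 hz
      obtain ⟨n', t', hn', ht', rfl⟩ := (hV z').1 hz'
      rw [p1_op, p2_op, p1_op, p2_op] at hzz
      obtain ⟨h1, h2⟩ := op_inj.1 hzz
      subst h1
      rw [(hcI n hn).2 t t' ht ht' h2]
  · refine ps_of_fun (F := fun z => op (p1 (p2 z)) (op (sU (p1 z)) (p2 (p2 z))))
      (by simp (maxDischargeDepth := 50)) fun x hx => ?_
    obtain ⟨ξ, hξ, z, hz, rfl⟩ := mem_pd.1 hx
    obtain ⟨n, t, hn, ht, rfl⟩ := (hV z).1 hz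
    refine ⟨op (sc n) (op ξ t), (hV _).2 ⟨sc n, op ξ t, sc_mem_om hn, ?_, rfl⟩, ?_⟩
    · rw [hFs n hn]
      exact op_mem_pd.2 ⟨hξ, ht⟩
    · simp only [p1_op, p2_op]
      rw [sU_sc_of_ord (ord_of_mem_om hn)]

/-! ### Comparability and the dichotomy, up to well-ordered multiples -/

/-- (A) Sets which are images of well-ordered multiples of each other are comparable. -/
theorem compW (hW : WF4 M Ix.s Iy.i) {X Y : M} (h : PW X Y) (h' : PW Y X) :
    LeW X Y ∨ LeW Y X := by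
  obtain ⟨γ, hγ, h⟩ := h
  obtain ⟨δ, hδ, h'⟩ := h'
  have hex : ∃ μ, Ord μ ∧ Sb γ μ ∧ Sb δ μ := by
    rcases hγ.sb_total hδ with h1 | h1
    · exact ⟨δ, hδ, h1, Sb.refl δ⟩
    · exact ⟨γ, hγ, Sb.refl γ, h1⟩
  obtain ⟨μ, hμ, hγμ, hδμ⟩ := hex
  obtain ⟨V, hV, ⟨v, hv⟩, hVμ⟩ := exists_absorb (acf_of_wf4s hW om_ord) hμ
  have key : ∀ {X Y γ : M}, Sb γ μ → PS X (pd Y γ) → PS (pd X V) (pd Y V) := by
    intro X Y γ hγμ h
    exact ((ps_pd h (PS.refl V)).trans (ps_of_le (le_pd_assoc _ _ _))).trans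
      (ps_pd (PS.refl Y) ((ps_pd (ps_of_sb hγμ) (PS.refl V)).trans hVμ))
  rcases le_or_le hW (leStar_of_ps (key hγμ h)) (leStar_of_ps (key hδμ h')) with h1 | h1
  · exact Or.inl (LeW.of_wo hV ((le_pd_pt hv X).trans h1))
  · exact Or.inr (LeW.of_wo hV ((le_pd_pt hv Y).trans h1))

theorem leW_pd_ord {X γ : M} (hγ : Ord γ) : LeW (pd X γ) X := ⟨γ, hγ, Le.refl _⟩

/-- (B) A failure `(A, B)` : every image of a well-ordered multiple of `Z` injects into a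
well-ordered multiple of `(A + B) + Z`. -/
theorem dichW (hW : WF4 M Ix.s Iy.i) {A B Z Y : M} (hBA : PW B A) (hn : ¬ LeW B A)
    (hYZ : PW Y Z) : LeW Y (sm (sm A B) Z) := by
  obtain ⟨γ, hγ, hBA⟩ := hBA
  obtain ⟨δ, hδ, hYZ⟩ := hYZ
  rcases dich hW hBA hYZ with h | h
  · exact (hn (h.trans (leW_pd_ord hγ))).elim
  · refine h.trans (LeW.sm (LeW.sm ((leW_pd_ord hγ).trans (LeW.of_le ?_)) (LeW.of_le ?_))
      ((leW_pd_ord hδ).trans (LeW.of_le (le_sm_right _ _))))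
    · exact (le_sm_left A B).trans (le_sm_left _ _)
    · exact (le_sm_right A B).trans (le_sm_left _ _)

/-- (1) The set `A + B` is the largest image of `A`. -/
theorem leW_of_pw (hW : WF4 M Ix.s Iy.i) {A B Y : M} (hBA : PW B A) (hn : ¬ LeW B A)
    (hY : PW Y A) : LeW Y (sm A B) :=
  (dichW hW hBA hn hY).trans (LeW.sm (LeW.refl _) (LeW.of_le (le_sm_left _ _)))

theorem sum_pw {A B : M} (hBA : PW B A) : PW (sm A B) A := pw_sm (PW.refl A) hBA

/-- (2) Nothing is strictly between `A` and `A + B`. -/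
theorem between (hW : WF4 M Ix.s Iy.i) {A B Y : M} (hBA : PW B A)
    (h1 : LeW A Y) (h2 : LeW Y (sm A B)) : LeW Y A ∨ LeW (sm A B) Y := by
  by_cases hc : LeW Y A
  · exact Or.inl hc
  · have h3 : PW Y A := h2.pw.trans (sum_pw hBA)
    exact Or.inr ((dichW hW h3 hc (sum_pw hBA)).trans (LeW.sm (LeW.sm h1 (LeW.refl Y)) h1))

/-- (3) For every set `P`. -/
theorem dich_pd (hW : WF4 M Ix.s Iy.i) {A B : M} (hBA : PW B A) (hn : ¬ LeW B A) (P : M) :
    LeW P (sm A B) ∨ LeW (sm A B) (pd P A) := by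
  obtain ⟨g, hg, h⟩ := dichW hW hBA hn (pw_pd (PW.refl P) (sum_pw hBA))
  obtain ⟨φ, hφ, hφi⟩ := le_iff.1 h
  rw [mem_fs] at hφ
  have hval : ∀ x d, x ∈ P → d ∈ sm A B →
      (∃ e i, e ∈ sm A B ∧ i ∈ g ∧ ap φ (op x d) = op (op e GL.em) i) ∨
      ∃ q i, q ∈ pd P A ∧ i ∈ g ∧ ap φ (op x d) = op (op q (sc GL.em)) i := by
    intro x d hx hd
    obtain ⟨a, ha, i, hi, h1⟩ := mem_pd.1 (hφ.2 _ (op_mem_pd.2 ⟨hx, hd⟩))
    rcases mem_sm.1 ha with ⟨e, he, rfl⟩ | ⟨q, hq, rfl⟩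
    · exact Or.inl ⟨e, i, he, hi, h1⟩
    · exact Or.inr ⟨q, i, hq, hi, h1⟩
  by_cases hc : ∃ x, x ∈ P ∧ ∀ d, d ∈ sm A B → p2 (p1 (ap φ (op x d))) = sc GL.em
  · right
    obtain ⟨x, hx, hxd⟩ := hc
    refine ⟨g, hg, Le.of_dt (F := fun d => op (p1 (p1 (ap φ (op x d)))) (p2 (ap φ (op x d))))
      (by simp (maxDischargeDepth := 50)) (fun d hd => ?_) fun d hd d' hd' hdd => ?_⟩
    · rcases hval x d hx hd with ⟨e, i, he, hi, h1⟩ | ⟨q, i, hq, hi, h1⟩
      · have h2 := hxd d hd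
        rw [h1, p1_op, p2_op] at h2
        exact absurd h2.symm sc_em_ne
      · rw [h1]
        simp only [p1_op, p2_op]
        exact op_mem_pd.2 ⟨hq, hi⟩
    · rcases hval x d hx hd with ⟨e, i, he, hi, h1⟩ | ⟨q, i, hq, hi, h1⟩
      · have h2 := hxd d hd
        rw [h1, p1_op, p2_op] at h2
        exact absurd h2.symm sc_em_ne
      rcases hval x d' hx hd' with ⟨e', i', he', hi', h1'⟩ | ⟨q', i', hq', hi', h1'⟩
      · have h2 := hxd d' hd'
        rw [h1', p1_op, p2_op] at h2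
        exact absurd h2.symm sc_em_ne
      rw [h1, h1'] at hdd
      simp only [p1_op, p2_op] at hdd
      obtain ⟨h3, h4⟩ := op_inj.1 hdd
      exact (op_inj.1 (hφi _ _ (op_mem_pd.2 ⟨hx, hd⟩) (op_mem_pd.2 ⟨hx, hd'⟩)
        (by rw [h1, h1', h3, h4]))).2
  · left
    push Not at hc
    have hmS : ∀ z, z ∈ sp (pd P (sm A B)) (fun z => p2 (p1 (ap φ z)) = GL.em) ↔
        z ∈ pd P (sm A B) ∧ p2 (p1 (ap φ z)) = GL.em := fun z =>
      mem_sp (by simp (maxDischargeDepth := 50))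
    have h1 : PS P (sp (pd P (sm A B)) (fun z => p2 (p1 (ap φ z)) = GL.em)) := by
      refine ps_of_fun (F := p1) p1.dt fun x hx => ?_
      obtain ⟨d, hd, hne⟩ := hc x hx
      refine ⟨op x d, (hmS _).2 ⟨op_mem_pd.2 ⟨hx, hd⟩, ?_⟩, p1_op _ _⟩
      rcases hval x d hx hd with ⟨e, i, he, hi, h1⟩ | ⟨q, i, hq, hi, h1⟩
      · rw [h1, p1_op, p2_op]
      · exact (hne (by rw [h1, p1_op, p2_op])).elim
    have h2 : Le (sp (pd P (sm A B)) (fun z => p2 (p1 (ap φ z)) = GL.em)) (pd (sm A B) g) := by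
      have h3 : ∀ z, z ∈ sp (pd P (sm A B)) (fun z => p2 (p1 (ap φ z)) = GL.em) →
          ∃ e i, e ∈ sm A B ∧ i ∈ g ∧ ap φ z = op (op e GL.em) i := by
        intro z hz
        obtain ⟨hz1, hz2⟩ := (hmS z).1 hz
        obtain ⟨x, hx, d, hd, rfl⟩ := mem_pd.1 hz1
        rcases hval x d hx hd with h1 | ⟨q, i, hq, hi, h1⟩
        · exact h1
        · rw [h1, p1_op, p2_op] at hz2
          exact absurd hz2 sc_em_ne
      refine Le.of_dt (F := fun z => op (p1 (p1 (ap φ z))) (p2 (ap φ z)))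
        (by simp (maxDischargeDepth := 50)) (fun z hz => ?_) fun z hz z' hz' hzz => ?_
      · obtain ⟨e, i, he, hi, h1⟩ := h3 z hz
        rw [h1]
        simp only [p1_op, p2_op]
        exact op_mem_pd.2 ⟨he, hi⟩
      · obtain ⟨e, i, he, hi, h1⟩ := h3 z hz
        obtain ⟨e', i', he', hi', h1'⟩ := h3 z' hz'
        rw [h1, h1'] at hzz
        simp only [p1_op, p2_op] at hzz
        obtain ⟨h4, h5⟩ := op_inj.1 hzz
        exact hφi _ _ ((hmS z).1 hz).1 ((hmS z').1 hz').1 (by rw [h1, h1', h4, h5])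
    exact leW_of_pw hW hBA hn (PW.trans ⟨g, hg, h1.trans (ps_of_le h2)⟩ (sum_pw hBA))

/-- (4) -/
theorem pd_sum (hW : WF4 M Ix.s Iy.i) {A B : M} (hBA : PW B A) (hn : ¬ LeW B A)
    (hA : PW (pd A A) A) : LeW (pd (sm A B) A) (sm A B) :=
  leW_of_pw hW hBA hn ((pw_pd (sum_pw hBA) (PW.refl A)).trans hA)

/-- (5) -/
theorem below (hW : WF4 M Ix.s Iy.i) {A B : M} (hBA : PW B A) (hn : ¬ LeW B A)
    (hA : PW (pd A A) A) {P : M} (hP : LeW P (sm A B)) : LeW P A ∨ LeW (sm A B) P := by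
  by_cases hPA : LeW P A
  · exact Or.inl hPA
  right
  have h1 : LeW (sm A B) (sm A P) := by
    rcases between hW hBA (Y := sm A P) (LeW.of_le (le_sm_left _ _))
      (LeW.sm (LeW.of_le (le_sm_left _ _)) hP) with h | h
    · exact (hPA ((LeW.of_le (le_sm_right _ _)).trans h)).elim
    · exact h
  have h2 : LeW (pd P A) (sm A P) :=
    ((leW_pd hP (LeW.refl A)).trans (pd_sum hW hBA hn hA)).trans h1
  obtain ⟨g, hg, h⟩ := h2
  obtain ⟨φ, hφ, hφi⟩ := le_iff.1 h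
  rw [mem_fs] at hφ
  have hval : ∀ p a, p ∈ P → a ∈ A →
      (∃ e i, e ∈ A ∧ i ∈ g ∧ ap φ (op p a) = op (op e GL.em) i) ∨
      ∃ q i, q ∈ P ∧ i ∈ g ∧ ap φ (op p a) = op (op q (sc GL.em)) i := by
    intro p a hp ha
    obtain ⟨b, hb, i, hi, h1⟩ := mem_pd.1 (hφ.2 _ (op_mem_pd.2 ⟨hp, ha⟩))
    rcases mem_sm.1 hb with ⟨e, he, rfl⟩ | ⟨q, hq, rfl⟩
    · exact Or.inl ⟨e, i, he, hi, h1⟩
    · exact Or.inr ⟨q, i, hq, hi, h1⟩
  by_cases hc : ∃ a, a ∈ A ∧ ∀ p, p ∈ P → p2 (p1 (ap φ (op p a))) = GL.em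
  · exfalso
    obtain ⟨a, ha, hap⟩ := hc
    refine hPA ⟨g, hg, Le.of_dt (F := fun p => op (p1 (p1 (ap φ (op p a)))) (p2 (ap φ (op p a))))
      (by simp (maxDischargeDepth := 50)) (fun p hp => ?_) fun p hp p' hp' hpp => ?_⟩
    · rcases hval p a hp ha with ⟨e, i, he, hi, h3⟩ | ⟨q, i, hq, hi, h3⟩
      · rw [h3]
        simp only [p1_op, p2_op]
        exact op_mem_pd.2 ⟨he, hi⟩
      · have h4 := hap p hp
        rw [h3, p1_op, p2_op] at h4
        exact absurd h4 sc_em_ne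
    · rcases hval p a hp ha with ⟨e, i, he, hi, h3⟩ | ⟨q, i, hq, hi, h3⟩
      swap
      · have h4 := hap p hp
        rw [h3, p1_op, p2_op] at h4
        exact absurd h4 sc_em_ne
      rcases hval p' a hp' ha with ⟨e', i', he', hi', h3'⟩ | ⟨q', i', hq', hi', h3'⟩
      swap
      · have h4 := hap p' hp'
        rw [h3', p1_op, p2_op] at h4
        exact absurd h4 sc_em_ne
      rw [h3, h3'] at hpp
      simp only [p1_op, p2_op] at hpp
      obtain ⟨h5, h6⟩ := op_inj.1 hpp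
      exact (op_inj.1 (hφi _ _ (op_mem_pd.2 ⟨hp, ha⟩) (op_mem_pd.2 ⟨hp', ha⟩)
        (by rw [h3, h3', h5, h6]))).1
  · push Not at hc
    have hmS : ∀ z, z ∈ sp (pd P A) (fun z => p2 (p1 (ap φ z)) = sc GL.em) ↔
        z ∈ pd P A ∧ p2 (p1 (ap φ z)) = sc GL.em := fun z =>
      mem_sp (by simp (maxDischargeDepth := 50))
    have h3 : PS A (sp (pd P A) (fun z => p2 (p1 (ap φ z)) = sc GL.em)) := by
      refine ps_of_fun (F := p2) p2.dt fun a ha => ?_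
      obtain ⟨p, hp, hne⟩ := hc a ha
      refine ⟨op p a, (hmS _).2 ⟨op_mem_pd.2 ⟨hp, ha⟩, ?_⟩, p2_op _ _⟩
      rcases hval p a hp ha with ⟨e, i, he, hi, h1⟩ | ⟨q, i, hq, hi, h1⟩
      · exact (hne (by rw [h1, p1_op, p2_op])).elim
      · rw [h1, p1_op, p2_op]
    have h4 : Le (sp (pd P A) (fun z => p2 (p1 (ap φ z)) = sc GL.em)) (pd P g) := by
      have h5 : ∀ z, z ∈ sp (pd P A) (fun z => p2 (p1 (ap φ z)) = sc GL.em) →
          ∃ q i, q ∈ P ∧ i ∈ g ∧ ap φ z = op (op q (sc GL.em)) i := by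
        intro z hz
        obtain ⟨hz1, hz2⟩ := (hmS z).1 hz
        obtain ⟨p, hp, a, ha, rfl⟩ := mem_pd.1 hz1
        rcases hval p a hp ha with ⟨e, i, he, hi, h1⟩ | h1
        · rw [h1, p1_op, p2_op] at hz2
          exact absurd hz2.symm sc_em_ne
        · exact h1
      refine Le.of_dt (F := fun z => op (p1 (p1 (ap φ z))) (p2 (ap φ z)))
        (by simp (maxDischargeDepth := 50)) (fun z hz => ?_) fun z hz z' hz' hzz => ?_
      · obtain ⟨q, i, hq, hi, h1⟩ := h5 z hz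
        rw [h1]
        simp only [p1_op, p2_op]
        exact op_mem_pd.2 ⟨hq, hi⟩
      · obtain ⟨q, i, hq, hi, h1⟩ := h5 z hz
        obtain ⟨q', i', hq', hi', h1'⟩ := h5 z' hz'
        rw [h1, h1'] at hzz
        simp only [p1_op, p2_op] at hzz
        obtain ⟨h6, h7⟩ := op_inj.1 hzz
        exact hφi _ _ ((hmS z).1 hz).1 ((hmS z').1 hz').1 (by rw [h1, h1', h6, h7])
    have h5 : PW A P := ⟨g, hg, h3.trans (ps_of_le h4)⟩
    have h6 : PW P A := hP.pw.trans (sum_pw hBA)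
    rcases compW hW h5 h6 with h7 | h7
    · rcases between hW hBA h7 hP with h8 | h8
      · exact (hPA h8).elim
      · exact h8
    · exact (hPA h7).elim

/-- **(6) The dichotomy for all sets.** -/
theorem uni_dichW (hW : WF4 M Ix.s Iy.i) {A B : M} (hBA : PW B A) (hn : ¬ LeW B A)
    (hA : LeW (pd A A) A) (Z : M) : LeW Z A ∨ LeW (sm A B) Z := by
  rcases dich_pd hW hBA hn Z with h | ⟨g, hg, h⟩
  · exact below hW hBA hn hA.pw h
  obtain ⟨ψ, hψ, hψi⟩ := le_iff.1 h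
  rw [mem_fs] at hψ
  have hval : ∀ d, d ∈ sm A B → ∃ z a i, z ∈ Z ∧ a ∈ A ∧ i ∈ g ∧ ap ψ d = op (op z a) i := by
    intro d hd
    obtain ⟨b, hb, i, hi, h1⟩ := mem_pd.1 (hψ.2 d hd)
    obtain ⟨z, hz, a, ha, rfl⟩ := mem_pd.1 hb
    exact ⟨z, a, i, hz, ha, hi, h1⟩
  -- the projection of the image to `Z × g`
  have hd1 : DT (fun w : Fin 1 → M => op (p1 (p1 (ap ψ (w 0)))) (p2 (ap ψ (w 0)))) := by
    simp (maxDischargeDepth := 50)
  let D' : M := im (sm A B) fun d => op (p1 (p1 (ap ψ d))) (p2 (ap ψ d))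
  have hD' : ∀ y, y ∈ D' ↔ ∃ d, d ∈ sm A B ∧ y = op (p1 (p1 (ap ψ d))) (p2 (ap ψ d)) :=
    fun y => mem_im hd1
  have h1 : LeW D' Z := by
    refine ⟨g, hg, Le.of_sb fun y hy => ?_⟩
    obtain ⟨d, hd, rfl⟩ := (hD' y).1 hy
    obtain ⟨z, a, i, hz, ha, hi, h2⟩ := hval d hd
    rw [h2]
    simp only [p1_op, p2_op]
    exact op_mem_pd.2 ⟨hz, hi⟩
  have h2 : PS D' (sm A B) := ps_of_fun hd1 fun y hy => by
    obtain ⟨d, hd, rfl⟩ := (hD' y).1 hy
    exact ⟨d, hd, rfl⟩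
  have h3 : LeW D' (sm A B) := leW_of_pw hW hBA hn ((PW.of_ps h2).trans (sum_pw hBA))
  rcases below hW hBA hn hA.pw h3 with h4 | h4
  · exfalso
    have h5 : Le (sm A B) (pd D' A) := by
      refine Le.of_dt (F := fun d => op (op (p1 (p1 (ap ψ d))) (p2 (ap ψ d))) (p2 (p1 (ap ψ d))))
        (by simp (maxDischargeDepth := 50)) (fun d hd => ?_) fun d hd d' hd' hdd => ?_
      · obtain ⟨z, a, i, hz, ha, hi, h6⟩ := hval d hd
        refine op_mem_pd.2 ⟨(hD' _).2 ⟨d, hd, rfl⟩, ?_⟩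
        rw [h6, p1_op, p2_op]
        exact ha
      · obtain ⟨z, a, i, hz, ha, hi, h6⟩ := hval d hd
        obtain ⟨z', a', i', hz', ha', hi', h6'⟩ := hval d' hd'
        rw [h6, h6'] at hdd
        simp only [p1_op, p2_op] at hdd
        obtain ⟨h7, h8⟩ := op_inj.1 hdd
        obtain ⟨h9, h10⟩ := op_inj.1 h7
        exact hψi _ _ hd hd' (by rw [h6, h6', h8, h9, h10])
    exact hn (((LeW.of_le ((le_sm_right A B).trans h5)).trans (leW_pd h4 (LeW.refl A))).trans hA)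
  · exact Or.inr (h4.trans h1)

theorem uni_dich (hW : WF4 M Ix.s Iy.i) {A B : M} (hBA : LeStar B A) (hn : ¬ LeW B A)
    (hA : LeW (pd A A) A) : ∀ Z, LeW Z A ∨ LeW (sm A B) Z :=
  uni_dichW hW (PW.of_ps (ps_of_leStar hBA)) hn hA

theorem uniW (hW : WF4 M Ix.s Iy.i) {A B A' B' : M} (hBA : PW B A) (hn : ¬ LeW B A)
    (hA : LeW (pd A A) A) (hBA' : PW B' A') (hn' : ¬ LeW B' A') : LeW A' A := by
  rcases uni_dichW hW hBA hn hA A' with h | h
  · exact h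
  · exact (hn' ((dichW hW hBA hn hBA').trans (LeW.sm h (LeW.refl A')))).elim

/-- **(7) Two failures at idempotent sets.** -/
theorem uni (hW : WF4 M Ix.s Iy.i) {A B A' B' : M} (hBA : LeStar B A) (hn : ¬ LeW B A)
    (hA : LeW (pd A A) A) (hBA' : LeStar B' A') (hn' : ¬ LeW B' A') (hA' : LeW (pd A' A') A') :
    LeW A A' ∧ LeW A' A :=
  ⟨uniW hW (PW.of_ps (ps_of_leStar hBA')) hn' hA' (PW.of_ps (ps_of_leStar hBA)) hn,
    uniW hW (PW.of_ps (ps_of_leStar hBA)) hn hA (PW.of_ps (ps_of_leStar hBA')) hn'⟩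

/-- **A failure at an idempotent set is a failure at that set only.** If `A` is idempotent up to
well-ordered multiples, and the partition principle up to well-ordered multiples fails at `A` and
at an arbitrary set `A'`, then `A` and `A'` inject into well-ordered multiples of each other, and
so do `A + B` and `A' + B'`, and `A + B` and `B'`. -/
theorem uni_all (hW : WF4 M Ix.s Iy.i) {A B A' B' : M} (hBA : PW B A) (hn : ¬ LeW B A)
    (hA : LeW (pd A A) A) (hBA' : PW B' A') (hn' : ¬ LeW B' A') :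
    LeW A A' ∧ LeW A' A ∧ LeW (sm A B) B' ∧ LeW (sm A' B') (sm A B) := by
  have h1 : LeW A' A := uniW hW hBA hn hA hBA' hn'
  have h2 : LeW B' (sm A B) := leW_of_pw hW hBA hn (hBA'.trans h1.pw)
  have h3 : ¬ LeW B' A := fun h =>
    hn ((dichW hW hBA' hn' hBA).trans (LeW.sm (LeW.sm h1 h) (LeW.refl A)))
  have h4 : LeW (sm A B) B' := (below hW hBA hn hA.pw h2).resolve_left h3
  have h5 : LeW A (sm A' B') :=
    ((LeW.of_le (le_sm_left A B)).trans h4).trans (LeW.of_le (le_sm_right A' B'))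
  refine ⟨?_, h1, h4, LeW.sm (h1.trans (LeW.of_le (le_sm_left A B))) h2⟩
  exact (between hW hBA' h1 h5).resolve_right fun h =>
    h3 ((LeW.of_le (le_sm_right A' B')).trans h)

end Pool.Agent.ZFW
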