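import Pool.Agent.ZFW.Nm

/-!
Names of pairs, of successors, of natural numbers and of ordinals of the ground universe, and
supports of names which are given by a family.
-/

universe u

namespace Pool.Agent.ZFW

namespace Nm

section forcing

variable {P : Type u} [Preorder P]

theorem memF_mk {ι : Type u} {x : ι → Nm P} {p : ι → P} {z : Nm P} {r : P} :
    MemF z (mk ι x p) r ↔ ∀ s, s ≤ r → ∃ t, t ≤ s ∧ ∃ i, t ≤ p i ∧ EqF z (x i) t := Iff.rfl

theorem eqF_mk {ι κ : Type u} {x : ι → Nm P} {p : ι → P} {y : κ → Nm P} {q : κ → P} {r : P}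
    (h1 : ∀ i s, s ≤ r → s ≤ p i → ∃ t, t ≤ s ∧ ∃ j, t ≤ q j ∧ EqF (x i) (y j) t)
    (h2 : ∀ j s, s ≤ r → s ≤ q j → ∃ t, t ≤ s ∧ ∃ i, t ≤ p i ∧ EqF (x i) (y j) t) :
    EqF (mk ι x p) (mk κ y q) r := ⟨h1, h2⟩

/-- Forced equality of two families over the same index type. -/
theorem eqF_mk_of {ι : Type u} {x y : ι → Nm P} {p q : ι → P} {r : P}
    (hx : ∀ i s, s ≤ r → s ≤ p i → EqF (x i) (y i) s) (h1 : ∀ i, p i ≤ q i)
    (h2 : ∀ i, q i ≤ p i) : EqF (mk ι x p) (mk ι y q) r :=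
  ⟨fun i s hs hi => ⟨s, le_rfl, i, hi.trans (h1 i), hx i s hs hi⟩,
    fun i s hs hi => ⟨s, le_rfl, i, hi.trans (h2 i), hx i s hs (hi.trans (h2 i))⟩⟩

end forcing

section top

variable {P : Type u} [Preorder P] [OrderTop P]

/-- The name of the set of all `x i`. -/
def st {ι : Type u} (x : ι → Nm P) : Nm P := mk ι x fun _ => ⊤

theorem memF_st {ι : Type u} {x : ι → Nm P} {z : Nm P} {r : P} :
    MemF z (st x) r ↔ ∀ s, s ≤ r → ∃ t, t ≤ s ∧ ∃ i, EqF z (x i) t := by
  unfold st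
  rw [memF_mk]
  simp only [le_top, true_and]

theorem memF_st_of {ι : Type u} (x : ι → Nm P) (i : ι) (r : P) : MemF (x i) (st x) r :=
  memF_nm (st x) i le_top

theorem eqF_st {ι : Type u} {x y : ι → Nm P} {r : P} (h : ∀ i, EqF (x i) (y i) r) :
    EqF (st x) (st y) r :=
  eqF_mk_of (fun i _ hs _ => (h i).mono hs) (fun _ => le_rfl) fun _ => le_rfl

/-- The name of the unordered pair. -/
def prN (x y : Nm P) : Nm P := mk (ULift Bool) (fun b => cond b.down x y) fun _ => ⊤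

theorem memF_prN {x y z : Nm P} {r : P} :
    MemF z (prN x y) r ↔ ∀ s, s ≤ r → ∃ t, t ≤ s ∧ (EqF z x t ∨ EqF z y t) := by
  unfold prN
  rw [memF_mk]
  refine forall_congr' fun s => imp_congr_right fun _ => exists_congr fun t =>
    and_congr_right fun _ => ?_
  constructor
  · rintro ⟨⟨b⟩, -, h⟩
    cases b
    · exact Or.inr h
    · exact Or.inl h
  · rintro (h | h)
    · exact ⟨⟨true⟩, le_top, h⟩
    · exact ⟨⟨false⟩, le_top, h⟩

theorem memF_prN_left (x y : Nm P) (r : P) : MemF x (prN x y) r :=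
  memF_prN.2 fun s _ => ⟨s, le_rfl, Or.inl (eqF_refl x s)⟩

theorem memF_prN_right (x y : Nm P) (r : P) : MemF y (prN x y) r :=
  memF_prN.2 fun s _ => ⟨s, le_rfl, Or.inr (eqF_refl y s)⟩

theorem eqF_prN {x y x' y' : Nm P} {r : P} (hx : EqF x x' r) (hy : EqF y y' r) :
    EqF (prN x y) (prN x' y') r := by
  refine eqF_mk_of (fun b s hs _ => ?_) (fun _ => le_rfl) fun _ => le_rfl
  rcases b with ⟨_ | _⟩
  · exact hy.mono hs
  · exact hx.mono hs

/-- The name of the ordered pair. -/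
def opN (x y : Nm P) : Nm P := prN (prN x x) (prN x y)

theorem eqF_opN {x y x' y' : Nm P} {r : P} (hx : EqF x x' r) (hy : EqF y y' r) :
    EqF (opN x y) (opN x' y') r := eqF_prN (eqF_prN hx hx) (eqF_prN hx hy)

/-- The name of `x ∪ {x}`. -/
def scN (x : Nm P) : Nm P :=
  mk (Option x.Idx) (fun o => o.elim x x.nm) fun o => o.elim ⊤ x.cd

theorem memF_scN {x z : Nm P} {r : P} :
    MemF z (scN x) r ↔ ∀ s, s ≤ r → ∃ t, t ≤ s ∧ (MemF z x t ∨ EqF z x t) := by
  unfold scN
  rw [memF_mk]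
  refine forall_congr' fun s => imp_congr_right fun hs => ?_
  constructor
  · rintro ⟨t, ht, _ | i, hi, h⟩
    · exact ⟨t, ht, Or.inr h⟩
    · exact ⟨t, ht, Or.inl ((memF_nm x i hi).congr_left h.symm)⟩
  · rintro ⟨t, ht, h | h⟩
    · obtain ⟨v, hv, i, hi, h1⟩ := h t le_rfl
      exact ⟨v, hv.trans ht, some i, hi, h1⟩
    · exact ⟨t, ht, none, le_top, h⟩

theorem memF_scN_self (x : Nm P) (r : P) : MemF x (scN x) r :=
  memF_scN.2 fun s _ => ⟨s, le_rfl, Or.inr (eqF_refl x s)⟩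

theorem memF_scN_of {x z : Nm P} {r : P} (h : MemF z x r) : MemF z (scN x) r :=
  memF_scN.2 fun s hs => ⟨s, le_rfl, Or.inl (h.mono hs)⟩

/-- The name of the empty set. -/
def emN : Nm P := mk PEmpty (fun i => i.elim) fun _ => ⊤

/-- The name of a natural number. -/
def ckN : ℕ → Nm P
  | 0 => emN
  | n + 1 => scN (ckN n)

/-- The name of the set of natural numbers. -/
def omN : Nm P := st fun n : ULift.{u} ℕ => ckN n.down

variable (P) in
/-- The name of an ordinal of the ground universe. -/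
noncomputable def ckO (α : Ordinal.{u}) : Nm P :=
  mk α.ToType (fun i => ckO (Ordinal.typein (α := α.ToType) (· < ·) i)) fun _ => ⊤
termination_by α
decreasing_by exact Ordinal.typein_lt_self i

theorem ckO_eq (α : Ordinal.{u}) : ckO P α =
    st fun i : α.ToType => ckO P (Ordinal.typein (α := α.ToType) (· < ·) i) := by
  rw [ckO]; rfl

theorem memF_ckO {α β : Ordinal.{u}} (h : α < β) (r : P) : MemF (ckO P α) (ckO P β) r := by
  rw [ckO_eq β]
  have h1 : α ∈ Set.Iio (Ordinal.type (α := β.ToType) (· < ·)) := by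
    rw [Set.mem_Iio, Ordinal.type_toType]; exact h
  have := memF_st_of (fun i : β.ToType => ckO P (Ordinal.typein (α := β.ToType) (· < ·) i))
    (Ordinal.enum (α := β.ToType) (· < ·) ⟨α, h1⟩) r
  simp only [Ordinal.typein_enum _ h1] at this
  exact this

/-- The rank of a name. -/
noncomputable def rk : Nm P → Ordinal.{u}
  | mk _ x _ => ⨆ i, Order.succ (rk (x i))

omit [Preorder P] [OrderTop P] in
theorem rk_lt (x : Nm P) (i : x.Idx) : rk (x.nm i) < rk x := by
  cases x with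
  | mk ι x p =>
    rw [rk]
    exact (Order.lt_succ _).trans_le (Ordinal.le_iSup (fun i => Order.succ (rk (x i))) i)

end top

/-! ### Supports -/

section sym

variable {Γ P : Type u} [Group Γ] [Preorder P] [OrderTop P] [Sys Γ P]

/-- A criterion for supports. -/
theorem supp_mk {ι : Type u} {x : ι → Nm P} {p : ι → P} {E : Sys.S Γ P}
    (h : ∀ g : Γ, g ∈ Sys.H (P := P) E → ∀ i, ∃ j, g • p i ≤ p j ∧
      ∀ r, r ≤ g • p i → EqF (g • x i) (x j) r) : Supp Γ E (mk ι x p) := by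
  intro g hg
  rw [smul_mk]
  refine eqF_mk (fun i s _ hi => ?_) fun j s _ hj => ?_
  · obtain ⟨j, hj, h1⟩ := h g hg i
    exact ⟨s, le_rfl, j, hi.trans hj, h1 s hi⟩
  · obtain ⟨i, hi, h1⟩ := h g⁻¹ (inv_mem hg) j
    have h2 : s ≤ g • p i := by
      have := Sys.smul_mono g _ _ hi
      rw [smul_inv_smul] at this
      exact hj.trans this
    refine ⟨s, le_rfl, i, h2, ?_⟩
    have h3 := (h1 (g⁻¹ • s) ((smul_le_iff g⁻¹ _ _).2 hj)).symm
    rw [← eqF_smul', smul_inv_smul] at h3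
    exact h3

/-- A criterion for supports, for names of sets without conditions. -/
theorem supp_st {ι : Type u} {x : ι → Nm P} {E : Sys.S Γ P}
    (h : ∀ g : Γ, g ∈ Sys.H (P := P) E → ∀ i, ∃ j, ∀ r, EqF (g • x i) (x j) r) :
    Supp Γ E (st x) :=
  supp_mk fun g hg i => by
    obtain ⟨j, hj⟩ := h g hg i
    exact ⟨j, le_top, fun r _ => hj r⟩

theorem hs_mk {ι : Type u} {x : ι → Nm P} {p : ι → P} {E : Sys.S Γ P}
    (h : Supp Γ E (mk ι x p)) (hx : ∀ i, HS Γ (x i)) : HS Γ (mk ι x p) := ⟨⟨E, h⟩, hx⟩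

theorem smul_st (g : Γ) {ι : Type u} (x : ι → Nm P) (r : P) :
    EqF (g • st x) (st fun i => g • x i) r := by
  unfold st
  rw [smul_mk]
  exact eqF_mk_of (fun i s _ _ => eqF_refl _ _) (fun _ => le_top) fun _ => le_smul_top g ⊤

theorem smul_prN (g : Γ) (x y : Nm P) (r : P) :
    EqF (g • prN x y) (prN (g • x) (g • y)) r := by
  unfold prN
  rw [smul_mk]
  refine eqF_mk_of (fun b s _ _ => ?_) (fun _ => le_top) fun _ => le_smul_top g ⊤
  rcases b with ⟨_ | _⟩ <;> exact eqF_refl _ _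

theorem smul_opN (g : Γ) (x y : Nm P) (r : P) :
    EqF (g • opN x y) (opN (g • x) (g • y)) r :=
  (smul_prN g _ _ r).trans (eqF_prN (smul_prN g _ _ r) (smul_prN g _ _ r))

theorem eqF_scN {x y : Nm P} {r : P} (h : EqF x y r) : EqF (scN x) (scN y) r := by
  rw [eqF_iff]
  refine ⟨fun i s hs hi => ?_, fun i s hs hi => ?_⟩
  · have h1 : MemF ((scN x).nm i) (scN x) s := memF_nm _ i hi
    rw [memF_scN] at h1 ⊢
    intro t ht
    obtain ⟨v, hv, h2⟩ := h1 t ht
    have hvr : v ≤ r := hv.trans (ht.trans hs)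
    exact ⟨v, hv, h2.imp (fun h2 => h2.congr_right (h.mono hvr)) fun h2 => h2.trans (h.mono hvr)⟩
  · have h1 : MemF ((scN y).nm i) (scN y) s := memF_nm _ i hi
    rw [memF_scN] at h1 ⊢
    intro t ht
    obtain ⟨v, hv, h2⟩ := h1 t ht
    have hvr : v ≤ r := hv.trans (ht.trans hs)
    exact ⟨v, hv, h2.imp (fun h2 => h2.congr_right (h.mono hvr).symm)
      fun h2 => h2.trans (h.mono hvr).symm⟩

theorem smul_scN (g : Γ) (x : Nm P) (r : P) : EqF (g • scN x) (scN (g • x)) r := by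
  cases x with
  | mk ι x p =>
    change EqF (mk (Option ι) (fun o => g • o.elim (mk ι x p) x) fun o => g • o.elim ⊤ p)
      (mk (Option ι) (fun o => o.elim (g • mk ι x p) fun i => g • x i)
        fun o => o.elim ⊤ fun i => g • p i) r
    refine eqF_mk_of (fun o s _ _ => ?_) (fun o => ?_) fun o => ?_
    · rcases o with _ | o <;> exact eqF_refl _ _
    · rcases o with _ | o
      · exact le_top
      · exact le_rfl
    · rcases o with _ | o
      · exact le_smul_top g ⊤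
      · exact le_rfl

theorem Supp.st {ι : Type u} {x : ι → Nm P} {E : Sys.S Γ P} (h : ∀ i, Supp Γ E (x i)) :
    Supp Γ E (st x) := supp_st fun _ hg i => ⟨i, fun r => (h i).eqF hg r⟩

theorem Supp.prN {x y : Nm P} {E : Sys.S Γ P} (hx : Supp Γ E x) (hy : Supp Γ E y) :
    Supp Γ E (prN x y) := fun g hg =>
  (smul_prN g x y ⊤).trans (eqF_prN (hx g hg) (hy g hg))

theorem Supp.opN {x y : Nm P} {E : Sys.S Γ P} (hx : Supp Γ E x) (hy : Supp Γ E y) :
    Supp Γ E (opN x y) := (hx.prN hx).prN (hx.prN hy)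

theorem Supp.scN {x : Nm P} {E : Sys.S Γ P} (hx : Supp Γ E x) : Supp Γ E (scN x) := fun g hg =>
  (smul_scN g x ⊤).trans (eqF_scN (hx g hg))

theorem HS.prN {x y : Nm P} (hx : HS Γ x) (hy : HS Γ y) : HS Γ (prN x y) := by
  obtain ⟨E, hE⟩ := hx.sym
  obtain ⟨F, hF⟩ := hy.sym
  obtain ⟨K, -, -, h1, h2⟩ := hE.inter hF
  refine hs_mk (h1.prN h2) fun b => ?_
  rcases b with ⟨_ | _⟩
  · exact hy
  · exact hx

theorem HS.opN {x y : Nm P} (hx : HS Γ x) (hy : HS Γ y) : HS Γ (opN x y) :=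
  (hx.prN hx).prN (hx.prN hy)

theorem HS.scN {x : Nm P} (hx : HS Γ x) : HS Γ (scN x) := by
  obtain ⟨E, hE⟩ := hx.sym
  refine hs_mk hE.scN fun o => ?_
  rcases o with _ | o
  · exact hx
  · exact hx.nm o

/-- The check names are invariant. -/
theorem smul_emN (g : Γ) (r : P) : EqF (g • (emN : Nm P)) emN r := by
  unfold emN
  rw [smul_mk]
  exact eqF_mk_of (fun i => i.elim) (fun i => i.elim) fun i => i.elim

theorem smul_ckN (g : Γ) (n : ℕ) (r : P) : EqF (g • (ckN n : Nm P)) (ckN n) r := by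
  induction n with
  | zero => exact smul_emN g r
  | succ n ih => exact (smul_scN g _ r).trans (eqF_scN ih)

theorem smul_omN (g : Γ) (r : P) : EqF (g • (omN : Nm P)) omN r :=
  (smul_st g _ r).trans (eqF_st fun _ => smul_ckN g _ r)

theorem smul_ckO (g : Γ) (α : Ordinal.{u}) : ∀ r : P, EqF (g • ckO P α) (ckO P α) r := by
  induction α using WellFoundedLT.induction with
  | _ α ih =>
    intro r
    rw [ckO_eq α]
    exact (smul_st g _ r).trans (eqF_st fun i => ih _ (Ordinal.typein_lt_self i) r)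

/-- The action on literal names, when the largest condition is fixed. -/
theorem smul_st_eq {g : Γ} (hg : g • (⊤ : P) = ⊤) {ι : Type u} (x : ι → Nm P) :
    g • st x = st fun i => g • x i := by
  unfold st
  rw [smul_mk, hg]

theorem smul_prN_eq {g : Γ} (hg : g • (⊤ : P) = ⊤) (x y : Nm P) :
    g • prN x y = prN (g • x) (g • y) := by
  unfold prN
  rw [smul_mk, hg]
  congr 1
  funext b
  rcases b with ⟨_ | _⟩ <;> rfl

theorem smul_opN_eq {g : Γ} (hg : g • (⊤ : P) = ⊤) (x y : Nm P) :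
    g • opN x y = opN (g • x) (g • y) := by
  unfold opN
  rw [smul_prN_eq hg, smul_prN_eq hg, smul_prN_eq hg]

theorem smul_scN_eq {g : Γ} (hg : g • (⊤ : P) = ⊤) (x : Nm P) : g • scN x = scN (g • x) := by
  cases x with
  | mk ι x p =>
    change mk (Option ι) (fun o => g • o.elim (mk ι x p) x) (fun o => g • o.elim ⊤ p) =
      mk (Option ι) (fun o => o.elim (g • mk ι x p) fun i => g • x i)
        fun o => o.elim ⊤ fun i => g • p i
    congr 1
    · funext o
      rcases o with _ | o <;> rfl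
    · funext o
      rcases o with _ | o
      · exact hg
      · rfl

theorem smul_emN_eq {g : Γ} : g • (emN : Nm P) = emN := by
  unfold emN
  rw [smul_mk]
  congr 1
  · funext i
    exact i.elim
  · funext i
    exact i.elim

theorem smul_ckN_eq {g : Γ} (hg : g • (⊤ : P) = ⊤) (n : ℕ) : g • (ckN n : Nm P) = ckN n := by
  induction n with
  | zero => exact smul_emN_eq
  | succ n ih => exact (smul_scN_eq hg _).trans (congrArg scN ih)

theorem smul_omN_eq {g : Γ} (hg : g • (⊤ : P) = ⊤) : g • (omN : Nm P) = omN := by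
  unfold omN
  rw [smul_st_eq hg]
  simp only [smul_ckN_eq hg]

theorem smul_ckO_eq {g : Γ} (hg : g • (⊤ : P) = ⊤) (α : Ordinal.{u}) :
    g • ckO P α = ckO P α := by
  induction α using WellFoundedLT.induction with
  | _ α ih =>
    rw [ckO_eq α, smul_st_eq hg]
    congr 1
    funext i
    exact ih _ (Ordinal.typein_lt_self i)

theorem supp_emN (E : Sys.S Γ P) : Supp Γ E emN := fun g _ => smul_emN g ⊤

theorem supp_ckN (E : Sys.S Γ P) (n : ℕ) : Supp Γ E (ckN n) := fun g _ => smul_ckN g n ⊤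

theorem supp_omN (E : Sys.S Γ P) : Supp Γ E omN := fun g _ => smul_omN g ⊤

theorem supp_ckO (E : Sys.S Γ P) (α : Ordinal.{u}) : Supp Γ E (ckO P α) :=
  fun g _ => smul_ckO g α ⊤

variable (Γ P) in
theorem hs_emN : HS Γ (emN : Nm P) := by
  obtain ⟨E⟩ := Sys.nonempty (Γ := Γ) (P := P)
  exact hs_mk (supp_emN E) fun i => i.elim

variable (Γ P) in
theorem hs_ckN (n : ℕ) : HS Γ (ckN n : Nm P) := by
  induction n with
  | zero => exact hs_emN Γ P
  | succ n ih => exact ih.scN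

variable (Γ P) in
theorem hs_omN : HS Γ (omN : Nm P) := by
  obtain ⟨E⟩ := Sys.nonempty (Γ := Γ) (P := P)
  exact hs_mk (supp_omN E) fun n => hs_ckN Γ P n.down

variable (Γ P) in
theorem hs_ckO (α : Ordinal.{u}) : HS Γ (ckO P α) := by
  induction α using WellFoundedLT.induction with
  | _ α ih =>
    obtain ⟨E⟩ := Sys.nonempty (Γ := Γ) (P := P)
    have h := supp_ckO E α
    rw [ckO_eq α] at h ⊢
    exact hs_mk h fun i => ih _ (Ordinal.typein_lt_self i)

end sym

end Nm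

/-! ### The same for hereditarily symmetric names -/

namespace HN

variable {Γ P : Type u} [Group Γ] [Preorder P] [OrderTop P] [Sys Γ P]

/-- The name of the unordered pair. -/
def pr (x y : HN Γ P) : HN Γ P := ⟨Nm.prN x.1 y.1, x.2.prN y.2⟩

/-- The name of the ordered pair. -/
def op (x y : HN Γ P) : HN Γ P := ⟨Nm.opN x.1 y.1, x.2.opN y.2⟩

/-- The name of `x ∪ {x}`. -/
def sc (x : HN Γ P) : HN Γ P := ⟨Nm.scN x.1, x.2.scN⟩

/-- The name of the empty set. -/
def em : HN Γ P := ⟨Nm.emN, Nm.hs_emN Γ P⟩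

/-- The name of a natural number. -/
def ck (n : ℕ) : HN Γ P := ⟨Nm.ckN n, Nm.hs_ckN Γ P n⟩

/-- The name of the set of natural numbers. -/
def om : HN Γ P := ⟨Nm.omN, Nm.hs_omN Γ P⟩

/-- The name of an ordinal of the ground universe. -/
noncomputable def ckO (α : Ordinal.{u}) : HN Γ P := ⟨Nm.ckO P α, Nm.hs_ckO Γ P α⟩

/-- The hereditarily symmetric name with a given family of elements. -/
def mk' {ι : Type u} (x : ι → HN Γ P) (p : ι → P) {E : Sys.S Γ P}
    (h : Nm.Supp Γ E (Nm.mk ι (fun i => (x i).1) p)) : HN Γ P :=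
  ⟨Nm.mk ι (fun i => (x i).1) p, Nm.hs_mk h fun i => (x i).2⟩

/-- The name of the set of all `x i`. -/
def st' {ι : Type u} (x : ι → HN Γ P) {E : Sys.S Γ P}
    (h : Nm.Supp Γ E (Nm.st fun i => (x i).1)) : HN Γ P := mk' x (fun _ => ⊤) h

@[simp] theorem pr_val (x y : HN Γ P) : (pr x y).1 = Nm.prN x.1 y.1 := rfl
@[simp] theorem op_val (x y : HN Γ P) : (op x y).1 = Nm.opN x.1 y.1 := rfl
@[simp] theorem sc_val (x : HN Γ P) : (sc x).1 = Nm.scN x.1 := rfl
@[simp] theorem em_val : (em : HN Γ P).1 = Nm.emN := rfl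
@[simp] theorem ck_val (n : ℕ) : (ck n : HN Γ P).1 = Nm.ckN n := rfl
@[simp] theorem om_val : (om : HN Γ P).1 = Nm.omN := rfl
@[simp] theorem ckO_val (α : Ordinal.{u}) : (ckO α : HN Γ P).1 = Nm.ckO P α := rfl
@[simp] theorem mk'_val {ι : Type u} (x : ι → HN Γ P) (p : ι → P) {E : Sys.S Γ P}
    (h : Nm.Supp Γ E (Nm.mk ι (fun i => (x i).1) p)) :
    (mk' x p h).1 = Nm.mk ι (fun i => (x i).1) p := rfl
@[simp] theorem st'_val {ι : Type u} (x : ι → HN Γ P) {E : Sys.S Γ P}
    (h : Nm.Supp Γ E (Nm.st fun i => (x i).1)) :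
    (st' x h).1 = Nm.st fun i => (x i).1 := rfl

end HN

end Pool.Agent.ZFW
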