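import Pool.Agent.ZFW.GenC
import Pool.Agent.ZFW.Ck
import Pool.Agent.GL.Tools

/-!
The values of the names of pairs, successors, natural numbers and ordinals. Every natural number
of the model is the value of the name of a natural number, and every ordinal of the model is the
value of the name of an ordinal.
-/

universe u v w

namespace Pool.Agent.ZFW

open Pool.Agent.SigB Filter
open Pool.Agent.GL (IsZF)

/-! ### Natural numbers in a model of ZF -/

section nat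

variable {M : Type v} [Membership M M] [IsZF M]

/-- The natural number `n` of a model. -/
noncomputable def nat : ℕ → M
  | 0 => GL.em
  | n + 1 => GL.sc (nat n)

@[simp] theorem nat_zero : (nat 0 : M) = GL.em := rfl

theorem nat_succ (n : ℕ) : (nat (n + 1) : M) = GL.sc (nat n) := rfl

theorem nat_mem_om (n : ℕ) : (nat n : M) ∈ (GL.om : M) := by
  induction n with
  | zero => exact GL.em_mem_om
  | succ n ih => exact GL.sc_mem_om ih

theorem ord_nat (n : ℕ) : GL.Ord (nat n : M) := GL.ord_of_mem_om (nat_mem_om n)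

theorem mem_nat {n : ℕ} {z : M} : z ∈ (nat n : M) ↔ ∃ m, m < n ∧ z = nat m := by
  induction n with
  | zero =>
    constructor
    · intro h
      exact (GL.not_mem_em z h).elim
    · rintro ⟨m, hm, -⟩
      exact (Nat.not_lt_zero m hm).elim
  | succ n ih =>
    rw [nat_succ, GL.mem_sc, ih]
    constructor
    · rintro (⟨m, hm, h⟩ | h)
      · exact ⟨m, hm.trans (Nat.lt_succ_self n), h⟩
      · exact ⟨n, Nat.lt_succ_self n, h⟩
    · rintro ⟨m, hm, h⟩
      rcases Nat.lt_succ_iff_lt_or_eq.1 hm with h1 | rfl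
      · exact Or.inl ⟨m, h1, h⟩
      · exact Or.inr h

theorem nat_inj {m n : ℕ} : (nat m : M) = nat n ↔ m = n := by
  refine ⟨fun h => ?_, fun h => by rw [h]⟩
  rcases lt_trichotomy m n with h1 | h1 | h1
  · have : (nat m : M) ∈ (nat n : M) := mem_nat.2 ⟨m, h1, rfl⟩
    exact (GL.ne_of_mem this h).elim
  · exact h1
  · have : (nat n : M) ∈ (nat m : M) := mem_nat.2 ⟨n, h1, rfl⟩
    exact (GL.ne_of_mem this h.symm).elim

@[simp] theorem nat_mem_nat {m n : ℕ} : (nat m : M) ∈ (nat n : M) ↔ m < n := by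
  rw [mem_nat]
  constructor
  · rintro ⟨k, hk, h⟩
    rwa [nat_inj.1 h]
  · intro h
    exact ⟨m, h, rfl⟩

end nat

/-! ### Closure of the set of names -/

section closure

variable {Γ P : Type u} [Group Γ] [Preorder P] [OrderTop P] [Sys Γ P]

/-- The closure properties of the set of names which are used in this file. -/
structure CkS (S : HN Γ P → Prop) : Prop where
  pr : ∀ x y, S x → S y → S (HN.pr x y)
  sc : ∀ x, S x → S (HN.sc x)
  ck : ∀ n, S (HN.ck n)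
  om : S HN.om
  rk : ∀ x, S x → S (HN.ckO (Nm.rk x.1))

theorem CkS.op {S : HN Γ P → Prop} (hS : CkS S) {x y : HN Γ P} (hx : S x) (hy : S y) :
    S (HN.op x y) := hS.pr _ _ (hS.pr x x hx hx) (hS.pr x y hx hy)

theorem CkS.em {S : HN Γ P → Prop} (hS : CkS S) : S HN.em := hS.ck 0

theorem ev_ckS {U : Type w} [Obj U (HN Γ P)] :
    ∀ᶠ S in clubF U, CkS (fun x : HN Γ P => S.In x) := by
  filter_upwards [ev_app2 (U := U) (HN.pr : HN Γ P → HN Γ P → HN Γ P),
    ev_app (U := U) (HN.sc : HN Γ P → HN Γ P),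
    eventually_countable_forall.2 fun n : ℕ => ev_mem (U := U) (HN.ck n : HN Γ P),
    ev_mem (U := U) (HN.om : HN Γ P),
    ev_app (U := U) fun x : HN Γ P => (HN.ckO (Nm.rk x.1) : HN Γ P)] with S h1 h2 h3 h4 h5
  exact ⟨h1, h2, h3, h4, h5⟩

end closure

/-! ### Values -/

section value

variable {Γ P : Type u} [Group Γ] [Preorder P] [OrderTop P] [Sys Γ P] {S : HN Γ P → Prop}
  {G : Set P} {W : Type (u + 1)} [Membership W W] {val : {x // S x} → W}

namespace Val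

omit [Membership W W] in
/-- `val` does not depend on the representation. -/
theorem val_congr {x y : HN Γ P} (h : x = y) (hx : S x) (hy : S y) :
    val ⟨x, hx⟩ = val ⟨y, hy⟩ := by subst h; rfl

/-- What all conditions force is true, for `=`. -/
theorem eq_of_forall (hV : Val (hn Γ P) S G val) {x y : {x // S x}}
    (h : ∀ r, Nm.EqF x.1.1 y.1.1 r) : val x = val y := by
  obtain ⟨p, hp⟩ := hV.gd.ne
  exact (hV.eq_iff x y).2 ⟨p, hp, h p⟩

/-- What all conditions force is true, for `∈`. -/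
theorem mem_of_forall (hV : Val (hn Γ P) S G val) {x y : {x // S x}}
    (h : ∀ r, Nm.MemF x.1.1 y.1.1 r) : val x ∈ val y := by
  obtain ⟨p, hp⟩ := hV.gd.ne
  exact (hV.mem_iff x y).2 ⟨p, hp, h p⟩

/-- The largest condition is in the filter. -/
theorem top_mem (hV : Val (hn Γ P) S G val) : (⊤ : P) ∈ G := by
  obtain ⟨p, hp⟩ := hV.gd.ne
  exact hV.gd.up p ⊤ hp le_top

/-- The elements of the value of `HN.mk'`. -/
theorem mem_mk' (hV : Val (hn Γ P) S G val) (hS : GdN S G) {ι : Type u} (x : ι → HN Γ P)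
    (p : ι → P) {E : Sys.S Γ P} (h : Nm.Supp Γ E (Nm.mk ι (fun i => (x i).1) p))
    (hx : S (HN.mk' x p h)) (z : W) :
    z ∈ val ⟨HN.mk' x p h, hx⟩ ↔ ∃ (i : ι) (hi : S (x i)), p i ∈ G ∧ z = val ⟨x i, hi⟩ :=
  hV.mem_val hS z ⟨HN.mk' x p h, hx⟩

/-- The elements of the value of `HN.st'`. -/
theorem mem_st' (hV : Val (hn Γ P) S G val) (hS : GdN S G) {ι : Type u} (x : ι → HN Γ P)
    {E : Sys.S Γ P} (h : Nm.Supp Γ E (Nm.st fun i => (x i).1)) (hx : S (HN.st' x h)) (z : W) :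
    z ∈ val ⟨HN.st' x h, hx⟩ ↔ ∃ (i : ι) (hi : S (x i)), z = val ⟨x i, hi⟩ := by
  refine (hV.mem_mk' hS x (fun _ => ⊤) h hx z).trans ?_
  refine exists_congr fun i => exists_congr fun hi => ?_
  exact ⟨fun h => h.2, fun h => ⟨hV.top_mem, h⟩⟩

/-- The elements of the value of the name of the unordered pair. -/
theorem mem_prN (hV : Val (hn Γ P) S G val) (hS : GdN S G) (x y : {x // S x})
    (h : S (HN.pr x.1 y.1)) (z : W) :
    z ∈ val ⟨HN.pr x.1 y.1, h⟩ ↔ z = val x ∨ z = val y := by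
  constructor
  · intro hz
    obtain ⟨⟨j⟩, hj, -, rfl⟩ := (hV.mem_val hS z ⟨_, h⟩).1 hz
    cases j
    · exact Or.inr (val_congr (Subtype.ext rfl) _ _)
    · exact Or.inl (val_congr (Subtype.ext rfl) _ _)
  · rintro (rfl | rfl)
    · exact hV.mem_of_forall fun r => Nm.memF_prN_left _ _ r
    · exact hV.mem_of_forall fun r => Nm.memF_prN_right _ _ r

/-- The elements of the value of the name of the successor. -/
theorem mem_scN (hV : Val (hn Γ P) S G val) (hS : GdN S G) (x : {x // S x})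
    (h : S (HN.sc x.1)) (z : W) : z ∈ val ⟨HN.sc x.1, h⟩ ↔ z ∈ val x ∨ z = val x := by
  constructor
  · intro hz
    obtain ⟨j, hj, hG, rfl⟩ := (hV.mem_val hS z ⟨_, h⟩).1 hz
    rcases j with _ | j
    · exact Or.inr (val_congr (Subtype.ext rfl) _ _)
    · refine Or.inl ((hV.mem_val hS _ x).2 ⟨j, hj, hG, val_congr (Subtype.ext rfl) _ _⟩)
  · rintro (hz | rfl)
    · obtain ⟨w, rfl⟩ := hV.surj z
      obtain ⟨p, hp, h1⟩ := (hV.mem_iff w x).1 hz
      exact (hV.mem_iff w ⟨_, h⟩).2 ⟨p, hp, Nm.memF_scN_of h1⟩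
    · exact hV.mem_of_forall fun r => Nm.memF_scN_self _ r

/-- The value of the name of the empty set has no element. -/
theorem not_mem_emN (hV : Val (hn Γ P) S G val) (hS : GdN S G) (h : S (HN.em : HN Γ P)) (z : W) :
    z ∉ val ⟨HN.em, h⟩ := by
  intro hz
  obtain ⟨j, -⟩ := (hV.mem_val hS z ⟨_, h⟩).1 hz
  exact j.elim

/-- The elements of the value of the name of the set of natural numbers. -/
theorem mem_omN' (hV : Val (hn Γ P) S G val) (hS : GdN S G) (hC : CkS S) (z : W) :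
    z ∈ val ⟨HN.om, hC.om⟩ ↔ ∃ n : ℕ, z = val ⟨HN.ck n, hC.ck n⟩ := by
  constructor
  · intro hz
    obtain ⟨⟨n⟩, hj, -, rfl⟩ := (hV.mem_val hS z ⟨_, hC.om⟩).1 hz
    exact ⟨n, val_congr (Subtype.ext rfl) _ _⟩
  · rintro ⟨n, rfl⟩
    exact hV.mem_of_forall fun r =>
      Nm.memF_st_of (fun n : ULift.{u} ℕ => (Nm.ckN n.down : Nm P)) ⟨n⟩ r

/-- The elements of the value of the name of an ordinal. -/
theorem mem_ckO (hV : Val (hn Γ P) S G val) (hS : GdN S G) {α : Ordinal.{u}}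
    (h : S (HN.ckO α : HN Γ P)) {z : W} : z ∈ val ⟨HN.ckO α, h⟩ ↔
      ∃ (β : Ordinal.{u}) (hβ : S (HN.ckO β)), β < α ∧ z = val ⟨HN.ckO β, hβ⟩ := by
  constructor
  · intro hz
    have key : ∀ (x : HN Γ P) (hx : S x), x.1 = (Nm.st fun i : α.ToType =>
        Nm.ckO P (Ordinal.typein (α := α.ToType) (· < ·) i)) → z ∈ val ⟨x, hx⟩ →
        ∃ (β : Ordinal.{u}) (hβ : S (HN.ckO β)), β < α ∧ z = val ⟨HN.ckO β, hβ⟩ := by
      rintro ⟨x, hx'⟩ hx rfl hz
      obtain ⟨j, hj, -, rfl⟩ := (hV.mem_val hS z ⟨_, hx⟩).1 hz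
      exact ⟨_, hj, Ordinal.typein_lt_self j, rfl⟩
    exact key _ h (Nm.ckO_eq α) hz
  · rintro ⟨β, hβ, h1, rfl⟩
    exact hV.mem_of_forall fun r => Nm.memF_ckO h1 r

theorem ckO_mem_of_lt (hV : Val (hn Γ P) S G val) {α β : Ordinal.{u}}
    (hα : S (HN.ckO α : HN Γ P)) (hβ : S (HN.ckO β : HN Γ P)) (h : α < β) :
    val ⟨HN.ckO α, hα⟩ ∈ val ⟨HN.ckO β, hβ⟩ :=
  hV.mem_of_forall fun r => Nm.memF_ckO h r

variable [IsZF W]

/-- The value of the name of the unordered pair. -/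
theorem pr (hV : Val (hn Γ P) S G val) (hS : GdN S G) (x y : {x // S x})
    (h : S (HN.pr x.1 y.1)) : val ⟨HN.pr x.1 y.1, h⟩ = GL.pr (val x) (val y) :=
  GL.ext' fun z => by rw [GL.mem_pr, hV.mem_prN hS x y h]

/-- The value of the name of the ordered pair. -/
theorem op (hV : Val (hn Γ P) S G val) (hS : GdN S G) (hC : CkS S) (x y : {x // S x})
    (h : S (HN.op x.1 y.1)) : val ⟨HN.op x.1 y.1, h⟩ = GL.op (val x) (val y) := by
  have h1 := hV.pr hS ⟨HN.pr x.1 x.1, hC.pr _ _ x.2 x.2⟩ ⟨HN.pr x.1 y.1, hC.pr _ _ x.2 y.2⟩ h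
  rw [hV.pr hS x x, hV.pr hS x y] at h1
  exact h1

/-- The value of the name of the successor. -/
theorem sc (hV : Val (hn Γ P) S G val) (hS : GdN S G) (x : {x // S x})
    (h : S (HN.sc x.1)) : val ⟨HN.sc x.1, h⟩ = GL.sc (val x) :=
  GL.ext' fun z => by rw [GL.mem_sc, hV.mem_scN hS x h]

/-- The value of the name of the empty set. -/
theorem em (hV : Val (hn Γ P) S G val) (hS : GdN S G) (h : S (HN.em : HN Γ P)) :
    val ⟨HN.em, h⟩ = GL.em :=
  GL.ext' fun z => ⟨fun hz => (hV.not_mem_emN hS h z hz).elim, fun hz => (GL.not_mem_em z hz).elim⟩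

/-- The value of the name of a natural number. -/
theorem ck (hV : Val (hn Γ P) S G val) (hS : GdN S G) (hC : CkS S) (n : ℕ)
    (h : S (HN.ck n)) : val ⟨HN.ck n, h⟩ = nat n := by
  induction n with
  | zero => exact hV.em hS h
  | succ n ih =>
    rw [nat_succ, ← ih (hC.ck n)]
    exact hV.sc hS ⟨HN.ck n, hC.ck n⟩ h

theorem mem_omN (hV : Val (hn Γ P) S G val) (hS : GdN S G) (hC : CkS S)
    (h : S (HN.om : HN Γ P)) (z : W) : z ∈ val ⟨HN.om, h⟩ ↔ ∃ n : ℕ, z = nat n := by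
  refine (hV.mem_omN' hS hC z).trans (exists_congr fun n => ?_)
  rw [hV.ck hS hC n (hC.ck n)]

/-- The value of the name of the set of natural numbers. -/
theorem om (hV : Val (hn Γ P) S G val) (hS : GdN S G) (hC : CkS S)
    (h : S (HN.om : HN Γ P)) : val ⟨HN.om, h⟩ = GL.om := by
  refine GL.ext' fun z => ?_
  constructor
  · intro hz
    obtain ⟨n, rfl⟩ := (hV.mem_omN hS hC h z).1 hz
    exact nat_mem_om n
  · intro hz
    refine GL.mem_om.1 hz _ ⟨(hV.mem_omN hS hC h _).2 ⟨0, rfl⟩, fun x hx => ?_⟩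
    obtain ⟨n, rfl⟩ := (hV.mem_omN hS hC h x).1 hx
    exact (hV.mem_omN hS hC h _).2 ⟨n + 1, rfl⟩

/-- The model has only the standard natural numbers. -/
theorem mem_om (hV : Val (hn Γ P) S G val) (hS : GdN S G) (hC : CkS S) {z : W} :
    z ∈ (GL.om : W) ↔ ∃ n : ℕ, z = nat n := by
  rw [← hV.om hS hC hC.om]
  exact hV.mem_omN hS hC hC.om z

/-! ### Ordinals -/

theorem tr_ckO (hV : Val (hn Γ P) S G val) (hS : GdN S G) {α : Ordinal.{u}}
    (h : S (HN.ckO α : HN Γ P)) : GL.Tr (val ⟨HN.ckO α, h⟩) := by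
  intro y hy z hz
  obtain ⟨β, hβ, h1, rfl⟩ := (hV.mem_ckO hS h).1 hy
  obtain ⟨γ, hγ, h2, rfl⟩ := (hV.mem_ckO hS hβ).1 hz
  exact (hV.mem_ckO hS h).2 ⟨γ, hγ, h2.trans h1, rfl⟩

/-- The values of the names of ordinals are ordinals. -/
theorem ord_ckO (hV : Val (hn Γ P) S G val) (hS : GdN S G) {α : Ordinal.{u}}
    (h : S (HN.ckO α : HN Γ P)) : GL.Ord (val ⟨HN.ckO α, h⟩) := by
  refine ⟨hV.tr_ckO hS h, fun y hy => ?_⟩
  obtain ⟨β, hβ, h1, rfl⟩ := (hV.mem_ckO hS h).1 hy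
  exact hV.tr_ckO hS hβ

theorem ckO_inj (hV : Val (hn Γ P) S G val) {α β : Ordinal.{u}}
    {hα : S (HN.ckO α : HN Γ P)} {hβ : S (HN.ckO β : HN Γ P)} :
    val ⟨HN.ckO α, hα⟩ = val ⟨HN.ckO β, hβ⟩ ↔ α = β := by
  constructor
  · intro h
    rcases lt_trichotomy α β with h1 | h1 | h1
    · exact (GL.ne_of_mem (hV.ckO_mem_of_lt hα hβ h1) h).elim
    · exact h1
    · exact (GL.ne_of_mem (hV.ckO_mem_of_lt hβ hα h1) h.symm).elim
  · rintro rfl
    rfl

theorem ckO_mem_iff (hV : Val (hn Γ P) S G val) {α β : Ordinal.{u}}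
    {hα : S (HN.ckO α : HN Γ P)} {hβ : S (HN.ckO β : HN Γ P)} :
    val ⟨HN.ckO α, hα⟩ ∈ val ⟨HN.ckO β, hβ⟩ ↔ α < β := by
  constructor
  · intro h
    rcases lt_trichotomy α β with h1 | h1 | h1
    · exact h1
    · exact (GL.ne_of_mem h (hV.ckO_inj.2 h1)).elim
    · exact (GL.not_mem_mem h (hV.ckO_mem_of_lt hβ hα h1)).elim
  · exact hV.ckO_mem_of_lt hα hβ

/-- The ordinals below the value of a name `x` in the sense of the model are bounded by the rank
of `x`. -/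
theorem sb_ckO_rk (hV : Val (hn Γ P) S G val) (hS : GdN S G) (hC : CkS S) :
    ∀ (x : HN Γ P) (hx : S x), GL.Ord (val ⟨x, hx⟩) →
      GL.Sb (val ⟨x, hx⟩) (val ⟨HN.ckO (Nm.rk x.1), hC.rk x hx⟩) := by
  have key : ∀ (y : Nm P) (hy : Nm.HS Γ y) (hx : S ⟨y, hy⟩), GL.Ord (val ⟨⟨y, hy⟩, hx⟩) →
      GL.Sb (val ⟨⟨y, hy⟩, hx⟩) (val ⟨HN.ckO (Nm.rk y), hC.rk _ hx⟩) := by
    intro y
    induction y using Nm.ind with
    | h y ih =>
      intro hy hx ho z hz
      obtain ⟨j, hj, hG, rfl⟩ := (hV.mem_val hS z ⟨_, hx⟩).1 hz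
      have hz' := ho.mem hz
      have h1 := ih j (hy.nm j) hj hz'
      have h2 := hV.ord_ckO hS (hC.rk _ hj)
      have h3 := hV.ckO_mem_of_lt (hC.rk _ hj) (hC.rk _ hx) (Nm.rk_lt y j)
      exact GL.Ord.mem_of_sb_of_mem (hV.ord_ckO hS (hC.rk _ hx)) hz' h2 h1 h3
  exact fun x hx => key x.1 x.2 hx

/-- Every ordinal of the model is the value of the name of an ordinal. -/
theorem exists_ckO (hV : Val (hn Γ P) S G val) (hS : GdN S G) (hC : CkS S) {z : W}
    (hz : GL.Ord z) : ∃ (α : Ordinal.{u}) (hα : S (HN.ckO α)), z = val ⟨HN.ckO α, hα⟩ := by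
  obtain ⟨⟨x, hx⟩, rfl⟩ := hV.surj z
  have h1 := hV.ord_ckO hS (hC.rk x hx)
  rcases (GL.Ord.sb_iff hz h1).1 (hV.sb_ckO_rk hS hC x hx hz) with h2 | h2
  · obtain ⟨β, hβ, -, h3⟩ := (hV.mem_ckO hS _).1 h2
    exact ⟨β, hβ, h3⟩
  · exact ⟨_, _, h2⟩

end Val

end value

end Pool.Agent.ZFW
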