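import Pool.Agent.ZFW.CtxB
import Pool.Agent.ZFW.CkW

/-!
The values of the names of pairs, natural numbers and ordinals, for the total evaluation.
-/

universe u

namespace Pool.Agent.ZFW

open Pool.Agent.SigB Filter

namespace Nm

variable {P : Type u} [Preorder P] [OrderTop P]

theorem rk_st {ι : Type u} (x : ι → Nm P) : rk (st x) = ⨆ i, Order.succ (rk (x i)) := rfl

theorem rk_ckO (α : Ordinal.{u}) : rk (ckO P α) = α := by
  induction α using WellFoundedLT.induction with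
  | _ α ih =>
    rw [ckO_eq, rk_st]
    refine le_antisymm (Ordinal.iSup_le fun i => ?_) (le_of_forall_lt fun β hβ => ?_)
    · rw [ih _ (Ordinal.typein_lt_self i)]
      exact Order.succ_le_of_lt (Ordinal.typein_lt_self i)
    · have h1 : β ∈ Set.Iio (Ordinal.type (α := α.ToType) (· < ·)) := by
        rw [Set.mem_Iio, Ordinal.type_toType]; exact hβ
      have h2 := Ordinal.le_iSup (fun i : α.ToType => Order.succ (rk (ckO P
        (Ordinal.typein (α := α.ToType) (· < ·) i)))) (Ordinal.enum (α := α.ToType) (· < ·) ⟨β, h1⟩)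
      simp only [Ordinal.typein_enum _ h1] at h2
      rw [ih β hβ] at h2
      exact (Order.lt_succ β).trans_le h2

end Nm

/-- The closure properties of the set of objects which are used for pairs and ordinals. -/
structure CkU (J : Type) (S : CC UU) : Prop extends CkS (fun x : HNJ J => CC.In S x) where
  ord : ∀ α : Ordinal.{0}, CC.In S (HN.ckO α : HNJ J) ↔ CC.In S α
  inN : ∀ n : ℕ, CC.In S n

theorem ev_ckU (J : Type) : ∀ᶠ S in cl, CkU J S := by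
  filter_upwards [ev_ckS (Γ := Gp J) (P := Cnd J) (U := UU),
    ev_app (U := UU) (HN.ckO : Ordinal.{0} → HNJ J),
    ev_app (U := UU) fun x : HNJ J => Nm.rk x.1, ev_all (U := UU) (α := ℕ)] with S hC h1 h2 h3
  refine ⟨hC, fun α => ⟨fun h => ?_, h1 α⟩, h3⟩
  have := h2 _ h
  rw [HN.ckO_val, Nm.rk_ckO] at this
  exact this

namespace Md

variable {J : Type} {S : CC UU} (M : Md J S)

/-- The elements of the value of `HN.mk'`. -/
theorem mem_vl_mk' {ι : Type} (x : ι → HNJ J) (p : ι → Cnd J) {E : Sys.S (Gp J) (Cnd J)}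
    (h : Nm.Supp (Gp J) E (Nm.mk ι (fun i => (x i).1) p)) (hx : CC.In S (HN.mk' x p h)) {z : M.W} :
    z ∈ M.vl (HN.mk' x p h) ↔ ∃ i, CC.In S (x i) ∧ p i ∈ M.G ∧ z = M.vl (x i) := M.mem_vl hx

/-- The elements of the value of `HN.st'`. -/
theorem mem_vl_st' {ι : Type} (x : ι → HNJ J) {E : Sys.S (Gp J) (Cnd J)}
    (h : Nm.Supp (Gp J) E (Nm.st fun i => (x i).1)) (hx : CC.In S (HN.st' x h)) {z : M.W} :
    z ∈ M.vl (HN.st' x h) ↔ ∃ i, CC.In S (x i) ∧ z = M.vl (x i) := by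
  refine (M.mem_vl hx).trans (exists_congr fun i => ?_)
  constructor
  · rintro ⟨h1, -, h2⟩
    exact ⟨h1, h2⟩
  · rintro ⟨h1, h2⟩
    exact ⟨h1, M.hV.top_mem, h2⟩

end Md

namespace CkU

variable {J : Type} {S : CC UU} (hC : CkU J S) (M : Md J S)

include hC

theorem vl_pr {x y : HNJ J} (hx : CC.In S x) (hy : CC.In S y) :
    M.vl (HN.pr x y) = GL.pr (M.vl x) (M.vl y) := by
  rw [M.vl_of hx, M.vl_of hy, M.vl_of (hC.pr x y hx hy)]
  exact M.hV.pr M.hN ⟨x, hx⟩ ⟨y, hy⟩ _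

theorem vl_op {x y : HNJ J} (hx : CC.In S x) (hy : CC.In S y) :
    M.vl (HN.op x y) = GL.op (M.vl x) (M.vl y) := by
  rw [M.vl_of hx, M.vl_of hy, M.vl_of (hC.op hx hy)]
  exact M.hV.op M.hN hC.toCkS ⟨x, hx⟩ ⟨y, hy⟩ _

theorem vl_sc {x : HNJ J} (hx : CC.In S x) : M.vl (HN.sc x) = GL.sc (M.vl x) := by
  rw [M.vl_of hx, M.vl_of (hC.sc x hx)]
  exact M.hV.sc M.hN ⟨x, hx⟩ _

theorem vl_em : M.vl HN.em = GL.em := by
  rw [M.vl_of hC.em]
  exact M.hV.em M.hN _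

theorem vl_ck (n : ℕ) : M.vl (HN.ck n) = ZFW.nat n := by
  rw [M.vl_of (hC.ck n)]
  exact M.hV.ck M.hN hC.toCkS n _

theorem vl_om : M.vl HN.om = GL.om := by
  rw [M.vl_of hC.om]
  exact M.hV.om M.hN hC.toCkS _

/-- The model has only the standard natural numbers. -/
theorem mem_om {z : M.W} : z ∈ (GL.om : M.W) ↔ ∃ n : ℕ, z = ZFW.nat n :=
  M.hV.mem_om M.hN hC.toCkS

theorem in_ckO {α : Ordinal.{0}} (h : CC.In S α) : CC.In S (HN.ckO α : HNJ J) := (hC.ord α).2 h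

theorem mem_vl_ckO {α : Ordinal.{0}} (hα : CC.In S α) {z : M.W} :
    z ∈ M.vl (HN.ckO α) ↔ ∃ β : Ordinal.{0}, CC.In S β ∧ β < α ∧ z = M.vl (HN.ckO β) := by
  rw [M.vl_of (hC.in_ckO hα), M.hV.mem_ckO M.hN]
  constructor
  · rintro ⟨β, hβ, h1, h2⟩
    exact ⟨β, (hC.ord β).1 hβ, h1, by rw [M.vl_of hβ]; exact h2⟩
  · rintro ⟨β, hβ, h1, h2⟩
    exact ⟨β, hC.in_ckO hβ, h1, by rw [M.vl_of (hC.in_ckO hβ)] at h2; exact h2⟩

theorem ord_vl_ckO {α : Ordinal.{0}} (hα : CC.In S α) : GL.Ord (M.vl (HN.ckO α)) := by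
  rw [M.vl_of (hC.in_ckO hα)]
  exact M.hV.ord_ckO M.hN _

theorem ckO_inj {α β : Ordinal.{0}} (hα : CC.In S α) (hβ : CC.In S β) :
    M.vl (HN.ckO α) = M.vl (HN.ckO β) ↔ α = β := by
  rw [M.vl_of (hC.in_ckO hα), M.vl_of (hC.in_ckO hβ)]
  exact M.hV.ckO_inj

theorem ckO_mem_iff {α β : Ordinal.{0}} (hα : CC.In S α) (hβ : CC.In S β) :
    M.vl (HN.ckO α) ∈ M.vl (HN.ckO β) ↔ α < β := by
  rw [M.vl_of (hC.in_ckO hα), M.vl_of (hC.in_ckO hβ)]
  exact M.hV.ckO_mem_iff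

/-- Every ordinal of the model is the value of the name of an ordinal. -/
theorem exists_ckO {z : M.W} (hz : GL.Ord z) :
    ∃ α : Ordinal.{0}, CC.In S α ∧ z = M.vl (HN.ckO α) := by
  obtain ⟨α, hα, h⟩ := M.hV.exists_ckO M.hN hC.toCkS hz
  exact ⟨α, (hC.ord α).1 hα, by rw [M.vl_of hα]; exact h⟩

/-- Ordinals have every support. -/
theorem cls_ord {z : M.W} (hz : GL.Ord z) (E : Sys.S (Gp J) (Cnd J)) : M.cls E z := by
  obtain ⟨α, hα, rfl⟩ := hC.exists_ckO M hz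
  exact M.cls_of (hC.in_ckO hα) (Nm.supp_ckO E α)

/-- The ordinal with the name `HN.ckO α` for an ordinal `α` of the model. -/
theorem cls_nat (n : ℕ) (E : Sys.S (Gp J) (Cnd J)) : M.cls E (ZFW.nat n) := hC.cls_ord M (ord_nat n) E

theorem cls_om (E : Sys.S (Gp J) (Cnd J)) : M.cls E GL.om := hC.cls_ord M GL.om_ord E

end CkU

end Pool.Agent.ZFW
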