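import Mathlib

/-!
Names over a preorder, as a Lean type, the forcing relation for atomic formulas, the action of the
automorphisms of the preorder on names, and the hereditarily symmetric names.
-/

universe u

namespace Pool.Agent.ZFW

/-- The names over `P`. -/
inductive Nm (P : Type u) : Type (u + 1)
  | mk (ι : Type u) (x : ι → Nm P) (p : ι → P) : Nm P

namespace Nm

variable {P : Type u}

/-- The index type of a name. -/
def Idx : Nm P → Type u
  | mk ι _ _ => ι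

/-- The names which may be elements of a name. -/
def nm : ∀ x : Nm P, x.Idx → Nm P
  | mk _ x _ => x

/-- The condition under which `x.nm i` is an element of `x`. -/
def cd : ∀ x : Nm P, x.Idx → P
  | mk _ _ p => p

@[simp] theorem nm_mk {ι : Type u} (x : ι → Nm P) (p : ι → P) (i : ι) :
    (mk ι x p).nm i = x i := rfl

@[simp] theorem cd_mk {ι : Type u} (x : ι → Nm P) (p : ι → P) (i : ι) :
    (mk ι x p).cd i = p i := rfl

theorem mk_eta (x : Nm P) : mk x.Idx x.nm x.cd = x := by cases x; rfl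

/-- Induction on names. -/
theorem ind {Q : Nm P → Prop} (h : ∀ x : Nm P, (∀ i, Q (x.nm i)) → Q x) (x : Nm P) : Q x := by
  induction x with
  | mk ι x p ih => exact h _ ih

variable [Preorder P]

/-- `r` forces `x = y`. -/
def EqF : Nm P → Nm P → P → Prop
  | mk ι x p, mk κ y q => fun r =>
    (∀ i : ι, ∀ s, s ≤ r → s ≤ p i → ∃ t, t ≤ s ∧ ∃ j : κ, t ≤ q j ∧ EqF (x i) (y j) t) ∧
    (∀ j : κ, ∀ s, s ≤ r → s ≤ q j → ∃ t, t ≤ s ∧ ∃ i : ι, t ≤ p i ∧ EqF (x i) (y j) t)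

/-- `r` forces `x ∈ y`. -/
def MemF (x y : Nm P) (r : P) : Prop :=
  ∀ s, s ≤ r → ∃ t, t ≤ s ∧ ∃ j, t ≤ y.cd j ∧ EqF x (y.nm j) t

theorem eqF_def {x y : Nm P} {r : P} : EqF x y r ↔
    (∀ i, ∀ s, s ≤ r → s ≤ x.cd i → ∃ t, t ≤ s ∧ ∃ j, t ≤ y.cd j ∧ EqF (x.nm i) (y.nm j) t) ∧
    (∀ j, ∀ s, s ≤ r → s ≤ y.cd j → ∃ t, t ≤ s ∧ ∃ i, t ≤ x.cd i ∧ EqF (x.nm i) (y.nm j) t) := by
  cases x; cases y; rfl

theorem EqF.mono {x y : Nm P} {r s : P} (h : EqF x y r) (hs : s ≤ r) : EqF x y s := by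
  rw [eqF_def] at h ⊢
  exact ⟨fun i t ht => h.1 i t (ht.trans hs), fun j t ht => h.2 j t (ht.trans hs)⟩

theorem eqF_of_dense {x y : Nm P} {r : P} (h : ∀ s, s ≤ r → ∃ t, t ≤ s ∧ EqF x y t) :
    EqF x y r := by
  rw [eqF_def]
  constructor
  · intro i s hs hi
    obtain ⟨t, ht, h1⟩ := h s hs
    obtain ⟨v, hv, h2⟩ := (eqF_def.1 h1).1 i t le_rfl (ht.trans hi)
    exact ⟨v, hv.trans ht, h2⟩
  · intro j s hs hj
    obtain ⟨t, ht, h1⟩ := h s hs
    obtain ⟨v, hv, h2⟩ := (eqF_def.1 h1).2 j t le_rfl (ht.trans hj)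
    exact ⟨v, hv.trans ht, h2⟩

theorem eqF_refl (x : Nm P) : ∀ r, EqF x x r := by
  induction x using Nm.ind with
  | h x ih =>
    intro r
    rw [eqF_def]
    exact ⟨fun i s _ hi => ⟨s, le_rfl, i, hi, ih i s⟩, fun i s _ hi => ⟨s, le_rfl, i, hi, ih i s⟩⟩

theorem eqF_symm' (x : Nm P) : ∀ y r, EqF x y r → EqF y x r := by
  induction x using Nm.ind with
  | h x ih =>
    intro y r h
    rw [eqF_def] at h ⊢
    constructor
    · intro j s hs hj
      obtain ⟨t, ht, i, hi, h1⟩ := h.2 j s hs hj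
      exact ⟨t, ht, i, hi, ih i _ _ h1⟩
    · intro i s hs hi
      obtain ⟨t, ht, j, hj, h1⟩ := h.1 i s hs hi
      exact ⟨t, ht, j, hj, ih i _ _ h1⟩

theorem EqF.symm {x y : Nm P} {r : P} (h : EqF x y r) : EqF y x r := eqF_symm' x y r h

theorem eqF_comm {x y : Nm P} {r : P} : EqF x y r ↔ EqF y x r := ⟨EqF.symm, EqF.symm⟩

theorem eqF_trans' (x : Nm P) : ∀ y z r, EqF x y r → EqF y z r → EqF x z r := by
  induction x using Nm.ind with
  | h x ih =>
    intro y z r h h'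
    rw [eqF_def] at h h' ⊢
    constructor
    · intro i s hs hi
      obtain ⟨t, ht, j, hj, h1⟩ := h.1 i s hs hi
      obtain ⟨v, hv, k, hk, h2⟩ := h'.1 j t (ht.trans hs) hj
      exact ⟨v, hv.trans ht, k, hk, ih i _ _ _ (h1.mono hv) h2⟩
    · intro k s hs hk
      obtain ⟨t, ht, j, hj, h1⟩ := h'.2 k s hs hk
      obtain ⟨v, hv, i, hi, h2⟩ := h.2 j t (ht.trans hs) hj
      exact ⟨v, hv.trans ht, i, hi, ih i _ _ _ h2 (h1.mono hv)⟩

theorem EqF.trans {x y z : Nm P} {r : P} (h : EqF x y r) (h' : EqF y z r) : EqF x z r :=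
  eqF_trans' x y z r h h'

theorem MemF.mono {x y : Nm P} {r s : P} (h : MemF x y r) (hs : s ≤ r) : MemF x y s :=
  fun t ht => h t (ht.trans hs)

theorem memF_of_dense {x y : Nm P} {r : P} (h : ∀ s, s ≤ r → ∃ t, t ≤ s ∧ MemF x y t) :
    MemF x y r := by
  intro s hs
  obtain ⟨t, ht, h1⟩ := h s hs
  obtain ⟨v, hv, h2⟩ := h1 t le_rfl
  exact ⟨v, hv.trans ht, h2⟩

theorem memF_nm (y : Nm P) (j : y.Idx) {r : P} (h : r ≤ y.cd j) : MemF (y.nm j) y r :=
  fun s hs => ⟨s, le_rfl, j, hs.trans h, eqF_refl _ _⟩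

theorem MemF.congr_left {x x' y : Nm P} {r : P} (h : MemF x y r) (h' : EqF x x' r) :
    MemF x' y r := by
  intro s hs
  obtain ⟨t, ht, j, hj, h1⟩ := h s hs
  exact ⟨t, ht, j, hj, (h'.mono (ht.trans hs)).symm.trans h1⟩

theorem eqF_iff {x y : Nm P} {r : P} : EqF x y r ↔
    (∀ i, ∀ s, s ≤ r → s ≤ x.cd i → MemF (x.nm i) y s) ∧
    (∀ j, ∀ s, s ≤ r → s ≤ y.cd j → MemF (y.nm j) x s) := by
  rw [eqF_def]
  constructor
  · rintro ⟨h1, h2⟩
    refine ⟨fun i s hs hi t ht => h1 i t (ht.trans hs) (ht.trans hi), fun j s hs hj t ht => ?_⟩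
    obtain ⟨v, hv, i, hi, h⟩ := h2 j t (ht.trans hs) (ht.trans hj)
    exact ⟨v, hv, i, hi, h.symm⟩
  · rintro ⟨h1, h2⟩
    refine ⟨fun i s hs hi => h1 i s hs hi s le_rfl, fun j s hs hj => ?_⟩
    obtain ⟨v, hv, i, hi, h⟩ := h2 j s hs hj s le_rfl
    exact ⟨v, hv, i, hi, h.symm⟩

theorem MemF.congr_right {x y y' : Nm P} {r : P} (h : MemF x y r) (h' : EqF y y' r) :
    MemF x y' r := by
  intro s hs
  obtain ⟨t, ht, j, hj, h1⟩ := h s hs
  obtain ⟨v, hv, k, hk, h2⟩ := (eqF_def.1 h').1 j t (ht.trans hs) hj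
  exact ⟨v, hv.trans ht, k, hk, (h1.mono hv).trans h2⟩

theorem MemF.congr {x x' y y' : Nm P} {r : P} (h : MemF x y r) (hx : EqF x x' r)
    (hy : EqF y y' r) : MemF x' y' r := (h.congr_left hx).congr_right hy

/-- Extensionality, for names from a class which contains the possible elements. -/
theorem eqF_of_mem {C : Nm P → Prop} {x y : Nm P} {r : P} (hx : ∀ i, C (x.nm i))
    (hy : ∀ j, C (y.nm j)) (h : ∀ z, C z → ∀ s, s ≤ r → (MemF z x s ↔ MemF z y s)) :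
    EqF x y r :=
  eqF_iff.2 ⟨fun i s hs hi => (h _ (hx i) s hs).1 (memF_nm x i hi),
    fun j s hs hj => (h _ (hy j) s hs).2 (memF_nm y j hj)⟩

end Nm

/-! ### Groups of automorphisms -/

/-- A group which acts on a preorder with a largest element, and a normal filter of subgroups,
generated by the groups `H E`. -/
class Sys (Γ : Type u) (P : Type u) [Group Γ] [Preorder P] [OrderTop P] extends MulAction Γ P where
  smul_mono : ∀ (g : Γ) (p q : P), p ≤ q → g • p ≤ g • q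
  /-- The supports. -/
  S : Type u
  /-- The group of a support. -/
  H : S → Subgroup Γ
  inter : ∀ E F, ∃ K, H K ≤ H E ∧ H K ≤ H F
  conj : ∀ (g : Γ) (E : S), ∃ K, ∀ h, h ∈ H K → g⁻¹ * h * g ∈ H E
  nonempty : Nonempty S

variable {Γ P : Type u} [Group Γ] [Preorder P] [OrderTop P]

section

variable [Sys Γ P]

theorem smul_le_iff (g : Γ) (p q : P) : g • p ≤ g • q ↔ p ≤ q := by
  refine ⟨fun h => ?_, Sys.smul_mono g p q⟩
  have := Sys.smul_mono g⁻¹ _ _ h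
  rwa [inv_smul_smul, inv_smul_smul] at this

theorem smul_le (g : Γ) (p q : P) : g • p ≤ q ↔ p ≤ g⁻¹ • q := by
  rw [← smul_le_iff g p (g⁻¹ • q), smul_inv_smul]

theorem le_smul (g : Γ) (p q : P) : p ≤ g • q ↔ g⁻¹ • p ≤ q := by
  rw [← smul_le_iff g (g⁻¹ • p) q, smul_inv_smul]

theorem le_smul_top (g : Γ) (p : P) : p ≤ g • (⊤ : P) := (le_smul g _ _).2 le_top

namespace Nm

/-- The action on names. -/
def act (g : Γ) : Nm P → Nm P
  | mk ι x p => mk ι (fun i => act g (x i)) (fun i => g • p i)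

instance : MulAction Γ (Nm P) where
  smul := act
  one_smul x := by
    change act 1 x = x
    induction x with
    | mk ι x p ih => simp only [act, ih, one_smul]
  mul_smul g h x := by
    change act (g * h) x = act g (act h x)
    induction x with
    | mk ι x p ih => simp only [act, ih, mul_smul]

theorem smul_mk (g : Γ) {ι : Type u} (x : ι → Nm P) (p : ι → P) :
    g • mk ι x p = mk ι (fun i => g • x i) (fun i => g • p i) := rfl

theorem smul_idx (g : Γ) (x : Nm P) : (g • x).Idx = x.Idx := by cases x; rfl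

/-- The indices of `g • x` and of `x` are the same. -/
theorem forall_idx (g : Γ) (x : Nm P) {Q : Nm P → P → Prop} :
    (∀ i, Q ((g • x).nm i) ((g • x).cd i)) ↔ ∀ i, Q (g • x.nm i) (g • x.cd i) := by
  cases x; rfl

theorem exists_idx (g : Γ) (x : Nm P) {Q : Nm P → P → Prop} :
    (∃ i, Q ((g • x).nm i) ((g • x).cd i)) ↔ ∃ i, Q (g • x.nm i) (g • x.cd i) := by
  cases x; rfl

theorem eqF_smul_of (g : Γ) (x : Nm P) : ∀ y r, EqF x y r → EqF (g • x) (g • y) (g • r) := by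
  induction x with
  | mk ι x p ih =>
    rintro ⟨κ, y, q⟩ r ⟨h1, h2⟩
    constructor
    · intro i s hs hi
      rw [le_smul] at hs hi
      obtain ⟨t, ht, j, hj, h⟩ := h1 i (g⁻¹ • s) hs hi
      refine ⟨g • t, ?_, j, ?_, ih i _ _ h⟩
      · rwa [smul_le]
      · exact (smul_le_iff g _ _).2 hj
    · intro j s hs hj
      rw [le_smul] at hs hj
      obtain ⟨t, ht, i, hi, h⟩ := h2 j (g⁻¹ • s) hs hj
      refine ⟨g • t, ?_, i, ?_, ih i _ _ h⟩
      · rwa [smul_le]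
      · exact (smul_le_iff g _ _).2 hi

/-- The symmetry lemma for `=`. -/
theorem eqF_smul (g : Γ) {x y : Nm P} {r : P} :
    EqF (g • x) (g • y) (g • r) ↔ EqF x y r := by
  refine ⟨fun h => ?_, eqF_smul_of g x y r⟩
  have := eqF_smul_of g⁻¹ _ _ _ h
  simpa only [inv_smul_smul] using this

theorem eqF_smul' (g : Γ) {x y : Nm P} {r : P} :
    EqF (g • x) (g • y) r ↔ EqF x y (g⁻¹ • r) := by
  rw [← eqF_smul g (r := g⁻¹ • r), smul_inv_smul]

theorem memF_smul_of (g : Γ) {x y : Nm P} {r : P} (h : MemF x y r) :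
    MemF (g • x) (g • y) (g • r) := by
  intro s hs
  rw [le_smul] at hs
  obtain ⟨t, ht, j, hj, h⟩ := h _ hs
  refine ⟨g • t, (smul_le _ _ _).2 ht, ?_⟩
  rw [exists_idx (Q := fun z c => g • t ≤ c ∧ EqF (g • x) z (g • t))]
  exact ⟨j, (smul_le_iff g _ _).2 hj, (eqF_smul g).2 h⟩

/-- The symmetry lemma for `∈`. -/
theorem memF_smul (g : Γ) {x y : Nm P} {r : P} :
    MemF (g • x) (g • y) (g • r) ↔ MemF x y r := by
  refine ⟨fun h => ?_, memF_smul_of g⟩
  have := memF_smul_of g⁻¹ h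
  simpa only [inv_smul_smul] using this

theorem memF_smul' (g : Γ) {x y : Nm P} {r : P} :
    MemF (g • x) (g • y) r ↔ MemF x y (g⁻¹ • r) := by
  rw [← memF_smul g (r := g⁻¹ • r), smul_inv_smul]

end Nm

end

/-! ### Symmetric names -/

section

variable (Γ)
variable [Sys Γ P]

namespace Nm

/-- `E` is a support of `x`. -/
def Supp (E : Sys.S Γ P) (x : Nm P) : Prop :=
  ∀ h : Γ, h ∈ Sys.H (P := P) E → EqF (h • x) x ⊤

/-- `x` is symmetric. -/
def Sym (x : Nm P) : Prop := ∃ E : Sys.S Γ P, Supp Γ E x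

/-- `x` is hereditarily symmetric. -/
def HS : Nm P → Prop
  | mk ι x p => Sym Γ (mk ι x p) ∧ ∀ i, HS (x i)

theorem hs_iff {x : Nm P} : HS Γ x ↔ Sym Γ x ∧ ∀ i, HS Γ (x.nm i) := by cases x; rfl

variable {Γ}

theorem HS.nm {x : Nm P} (h : HS Γ x) (i : x.Idx) : HS Γ (x.nm i) := ((hs_iff Γ).1 h).2 i

theorem HS.sym {x : Nm P} (h : HS Γ x) : Sym Γ x := ((hs_iff Γ).1 h).1

theorem Supp.mono {E F : Sys.S Γ P} (h : Sys.H (P := P) F ≤ Sys.H E) {x : Nm P}
    (hx : Supp Γ E x) : Supp Γ F x := fun g hg => hx g (h hg)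

theorem Supp.eqF {E : Sys.S Γ P} {x : Nm P} (hx : Supp Γ E x) {h : Γ}
    (hh : h ∈ Sys.H (P := P) E) (r : P) : EqF (h • x) x r := (hx h hh).mono le_top

theorem Supp.congr {E : Sys.S Γ P} {x y : Nm P} (hx : Supp Γ E x) (h : ∀ r, EqF x y r) :
    Supp Γ E y := fun g hg =>
  (((eqF_smul' g).2 (h (g⁻¹ • ⊤))).symm.trans (hx g hg)).trans (h ⊤)

/-- Transport of a support. -/
theorem Supp.smul {E F : Sys.S Γ P} (g : Γ)
    (hF : ∀ h : Γ, h ∈ Sys.H (P := P) F → g⁻¹ * h * g ∈ Sys.H (P := P) E) {x : Nm P}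
    (hx : Supp Γ E x) : Supp Γ F (g • x) := by
  intro h hh
  have h1 := (eqF_smul_of g _ _ _ (hx _ (hF h hh))).mono (le_smul_top g ⊤)
  rwa [← mul_smul, ← mul_assoc, ← mul_assoc, mul_inv_cancel, one_mul, mul_smul] at h1

theorem Sym.smul (g : Γ) {x : Nm P} (h : Sym Γ x) : Sym Γ (g • x) := by
  obtain ⟨E, hE⟩ := h
  obtain ⟨F, hF⟩ := Sys.conj (P := P) g E
  exact ⟨F, hE.smul g hF⟩

theorem HS.smul (g : Γ) {x : Nm P} (h : HS Γ x) : HS Γ (g • x) := by
  induction x with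
  | mk ι x p ih => exact ⟨h.1.smul g, fun i => ih i (h.2 i)⟩

theorem hs_smul (g : Γ) {x : Nm P} : HS Γ (g • x) ↔ HS Γ x := by
  refine ⟨fun h => ?_, HS.smul g⟩
  have := h.smul g⁻¹
  rwa [inv_smul_smul] at this

/-- Two supports have a common refinement. -/
theorem Supp.inter {E F : Sys.S Γ P} {x y : Nm P} (hx : Supp Γ E x) (hy : Supp Γ F y) :
    ∃ K : Sys.S Γ P, Sys.H (P := P) K ≤ Sys.H E ∧ Sys.H (P := P) K ≤ Sys.H F ∧
      Supp Γ K x ∧ Supp Γ K y := by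
  obtain ⟨K, h1, h2⟩ := Sys.inter (P := P) E F
  exact ⟨K, h1, h2, hx.mono h1, hy.mono h2⟩

end Nm

variable (P) in
/-- The type of the hereditarily symmetric names. -/
def HN : Type (u + 1) := {x : Nm P // Nm.HS Γ x}

end

end Pool.Agent.ZFW
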