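import Pool.Agent.Frc.Truth
import Pool.Agent.ZFW.Nm
import Pool.Agent.ZFW.MapP

/-!
# The forcing relation over a class of names with an atomic forcing relation

`A : Atm P X` is a class `X` of names (for instance the hereditarily symmetric names) with the
forcing relation for equality and membership. `Fc A φ p v` is the forcing relation for all
first-order formulas; the quantifiers range over `X`.
-/

universe u v w

namespace Pool.Agent.ZFW

open Pool.Agent.SigB

/-- A class of names `X` over the conditions `P` (`q ≤ p` : `q` is the stronger condition) with an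
atomic forcing relation. -/
structure Atm (P : Type u) [Preorder P] (X : Type v) where
  eqF : P → X → X → Prop
  memF : P → X → X → Prop
  eq_mono : ∀ {p q x y}, eqF p x y → q ≤ p → eqF q x y
  mem_mono : ∀ {p q x y}, memF p x y → q ≤ p → memF q x y
  eq_dense : ∀ {p x y}, (∀ q ≤ p, ∃ r ≤ q, eqF r x y) → eqF p x y
  mem_dense : ∀ {p x y}, (∀ q ≤ p, ∃ r ≤ q, memF r x y) → memF p x y
  eq_refl : ∀ p x, eqF p x x
  eq_symm : ∀ {p x y}, eqF p x y → eqF p y x
  eq_trans : ∀ {p x y z}, eqF p x y → eqF p y z → eqF p x z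
  mem_congr : ∀ {p x x' y y'}, eqF p x x' → eqF p y y' → memF p x y → memF p x' y'

variable {P : Type u} [Preorder P] {X : Type v}

/-- The forcing relation `p ⊩ φ(v)`. -/
def Fc (A : Atm P X) : ∀ {n : ℕ}, Fml X n → P → (Fin n → X) → Prop
  | _, .mem s t, p, v => A.memF p (Sum.elim v id s) (Sum.elim v id t)
  | _, .eq s t, p, v => A.eqF p (Sum.elim v id s) (Sum.elim v id t)
  | _, .neg φ, p, v => ∀ q ≤ p, ¬ Fc A φ q v
  | _, .and φ ψ, p, v => Fc A φ p v ∧ Fc A ψ p v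
  | _, .ex φ, p, v => ∀ q ≤ p, ∃ r ≤ q, ∃ x, Fc A φ r (Fin.cons x v)

section

variable (A : Atm P X)

theorem fc_mem {n : ℕ} {s t : Fin n ⊕ X} {p : P} {v : Fin n → X} :
    Fc A (.mem s t) p v ↔ A.memF p (Sum.elim v id s) (Sum.elim v id t) := Iff.rfl

theorem fc_eq {n : ℕ} {s t : Fin n ⊕ X} {p : P} {v : Fin n → X} :
    Fc A (.eq s t) p v ↔ A.eqF p (Sum.elim v id s) (Sum.elim v id t) := Iff.rfl

theorem fc_neg {n : ℕ} {φ : Fml X n} {p : P} {v : Fin n → X} :
    Fc A (.neg φ) p v ↔ ∀ q ≤ p, ¬ Fc A φ q v := Iff.rfl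

theorem fc_and {n : ℕ} {φ ψ : Fml X n} {p : P} {v : Fin n → X} :
    Fc A (.and φ ψ) p v ↔ Fc A φ p v ∧ Fc A ψ p v := Iff.rfl

theorem fc_ex {n : ℕ} {φ : Fml X (n + 1)} {p : P} {v : Fin n → X} :
    Fc A (.ex φ) p v ↔ ∀ q ≤ p, ∃ r ≤ q, ∃ x, Fc A φ r (Fin.cons x v) := Iff.rfl

theorem fc_mono : ∀ {n : ℕ} (φ : Fml X n) {p q : P} {v : Fin n → X}, Fc A φ p v → q ≤ p →
    Fc A φ q v
  | _, .mem _ _, _, _, _, h, hq => A.mem_mono h hq
  | _, .eq _ _, _, _, _, h, hq => A.eq_mono h hq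
  | _, .neg _, _, _, _, h, hq => fun r hr => h r (hr.trans hq)
  | _, .and φ ψ, _, _, _, h, hq => ⟨fc_mono φ h.1 hq, fc_mono ψ h.2 hq⟩
  | _, .ex _, _, _, _, h, hq => fun r hr => h r (hr.trans hq)

theorem fc_dense : ∀ {n : ℕ} (φ : Fml X n) {p : P} {v : Fin n → X},
    (∀ q ≤ p, ∃ r ≤ q, Fc A φ r v) → Fc A φ p v
  | _, .mem _ _, _, _, h => A.mem_dense h
  | _, .eq _ _, _, _, h => A.eq_dense h
  | _, .neg φ, _, _, h => fun q hq hq' => by
      obtain ⟨r, hr, hr'⟩ := h q hq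
      exact hr' r le_rfl (fc_mono A φ hq' hr)
  | _, .and φ ψ, _, _, h =>
    ⟨fc_dense φ fun q hq => (h q hq).imp fun _ hr => ⟨hr.1, hr.2.1⟩,
      fc_dense ψ fun q hq => (h q hq).imp fun _ hr => ⟨hr.1, hr.2.2⟩⟩
  | _, .ex _, _, _, h => fun q hq => by
      obtain ⟨r, hr, hr'⟩ := h q hq
      obtain ⟨s, hs, x, hx⟩ := hr' r le_rfl
      exact ⟨s, hs.trans hr, x, hx⟩

theorem fc_dense_iff {n : ℕ} (φ : Fml X n) {p : P} {v : Fin n → X} :
    Fc A φ p v ↔ ∀ q ≤ p, ∃ r ≤ q, Fc A φ r v :=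
  ⟨fun h q hq => ⟨q, le_rfl, fc_mono A φ h hq⟩, fc_dense A φ⟩

theorem not_fc_neg {n : ℕ} {φ : Fml X n} {p : P} {v : Fin n → X} (h : Fc A φ p v) :
    ¬ Fc A (.neg φ) p v := fun h' => h' p le_rfl h

theorem fc_neg_neg {n : ℕ} {φ : Fml X n} {p : P} {v : Fin n → X} :
    Fc A (.neg (.neg φ)) p v ↔ Fc A φ p v := by
  constructor
  · intro h
    refine fc_dense A φ fun q hq => ?_
    by_contra hno
    push Not at hno
    exact h q hq hno
  · intro h q hq hn
    exact hn q le_rfl (fc_mono A φ h hq)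

/-- Every condition has an extension which decides the formula. -/
theorem fc_decide {n : ℕ} (φ : Fml X n) (p : P) (v : Fin n → X) :
    ∃ q ≤ p, Fc A φ q v ∨ Fc A (.neg φ) q v := by
  by_cases h : ∃ q ≤ p, Fc A φ q v
  · obtain ⟨q, hq, h⟩ := h
    exact ⟨q, hq, Or.inl h⟩
  · push Not at h
    exact ⟨p, le_rfl, Or.inr h⟩

theorem exists_not_of_not_fc {n : ℕ} {φ : Fml X n} {p : P} {v : Fin n → X} (h : ¬ Fc A φ p v) :
    ∃ q ≤ p, Fc A (.neg φ) q v := by
  by_contra hno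
  push Not at hno
  refine h (fc_dense A φ fun q hq => ?_)
  by_contra h2
  push Not at h2
  exact hno q hq h2

/-- The universal quantifier. -/
theorem fc_all {n : ℕ} {φ : Fml X (n + 1)} {p : P} {v : Fin n → X} :
    Fc A (.neg (.ex (.neg φ))) p v ↔ ∀ x, Fc A φ p (Fin.cons x v) := by
  constructor
  · intro h x
    refine fc_dense A φ fun q hq => ?_
    by_contra hno
    push Not at hno
    exact h q hq fun r hr => ⟨r, le_rfl, x, fun s hs => hno s (hs.trans hr)⟩
  · intro h q hq h'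
    obtain ⟨r, hr, x, hx⟩ := h' q le_rfl
    exact hx r le_rfl (fc_mono A φ (h x) (hr.trans hq))

/-- Implication. -/
theorem fc_imp {n : ℕ} {φ ψ : Fml X n} {p : P} {v : Fin n → X} :
    Fc A (.neg (.and φ (.neg ψ))) p v ↔ ∀ q ≤ p, Fc A φ q v → Fc A ψ q v := by
  constructor
  · intro h q hq hφ
    refine fc_dense A ψ fun r hr => ?_
    by_contra hno
    push Not at hno
    exact h r (hr.trans hq) ⟨fc_mono A φ hφ hr, hno⟩
  · intro h q hq h'
    exact h'.2 q le_rfl (h q hq h'.1)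

/-- Disjunction. -/
theorem fc_or {n : ℕ} {φ ψ : Fml X n} {p : P} {v : Fin n → X} :
    Fc A (.neg (.and (.neg φ) (.neg ψ))) p v ↔ ∀ q ≤ p, ∃ r ≤ q, Fc A φ r v ∨ Fc A ψ r v := by
  constructor
  · intro h q hq
    by_contra hno
    push Not at hno
    exact h q hq ⟨fun r hr => (hno r hr).1, fun r hr => (hno r hr).2⟩
  · intro h q hq h'
    obtain ⟨r, hr, h1 | h1⟩ := h q hq
    · exact h'.1 r hr h1
    · exact h'.2 r hr h1

end

/-! ### Congruence -/

theorem eq_elim (A : Atm P X) {I : Type w} {n : ℕ} {a b : I → X} {p : P} {v w : Fin n → X}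
    (hab : ∀ i, A.eqF p (a i) (b i)) (hvw : ∀ i, A.eqF p (v i) (w i)) (s : Fin n ⊕ I) :
    A.eqF p (Sum.elim v id (Sum.map id a s)) (Sum.elim w id (Sum.map id b s)) := by
  rcases s with i | i
  · exact hvw i
  · exact hab i

theorem fc_congr_imp (A : Atm P X) {I : Type w} : ∀ {n : ℕ} (φ : Fml I n) {a b : I → X} {p : P}
    {v w : Fin n → X}, (∀ i, A.eqF p (a i) (b i)) → (∀ i, A.eqF p (v i) (w i)) →
    Fc A (mapP a φ) p v → Fc A (mapP b φ) p w
  | _, .mem s t, _, _, _, _, _, hab, hvw, h =>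
    A.mem_congr (eq_elim A hab hvw s) (eq_elim A hab hvw t) h
  | _, .eq s t, _, _, _, _, _, hab, hvw, h =>
    A.eq_trans (A.eq_trans (A.eq_symm (eq_elim A hab hvw s)) h) (eq_elim A hab hvw t)
  | _, .neg φ, _, _, _, _, _, hab, hvw, h => fun q hq h' =>
    h q hq (fc_congr_imp A φ (fun i => A.eq_symm (A.eq_mono (hab i) hq))
      (fun i => A.eq_symm (A.eq_mono (hvw i) hq)) h')
  | _, .and φ ψ, _, _, _, _, _, hab, hvw, h =>
    ⟨fc_congr_imp A φ hab hvw h.1, fc_congr_imp A ψ hab hvw h.2⟩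
  | _, .ex φ, _, _, p, _, _, hab, hvw, h => fun q hq => by
    obtain ⟨r, hr, x, hx⟩ := h q hq
    have hrp : r ≤ p := hr.trans hq
    refine ⟨r, hr, x, fc_congr_imp A φ (fun i => A.eq_mono (hab i) hrp) (fun i => ?_) hx⟩
    refine Fin.cases ?_ (fun i => ?_) i
    · exact A.eq_refl _ _
    · exact A.eq_mono (hvw i) hrp

/-- The forcing relation does not change when parameters are replaced by parameters forced to be
equal to them. -/
theorem fc_congr (A : Atm P X) {I : Type w} {n : ℕ} (φ : Fml I n) {a b : I → X} {p : P}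
    {v w : Fin n → X} (hab : ∀ i, A.eqF p (a i) (b i)) (hvw : ∀ i, A.eqF p (v i) (w i)) :
    Fc A (mapP a φ) p v ↔ Fc A (mapP b φ) p w :=
  ⟨fc_congr_imp A φ hab hvw,
    fc_congr_imp A φ (fun i => A.eq_symm (hab i)) fun i => A.eq_symm (hvw i)⟩

/-- The variables only. -/
theorem fc_congr_var (A : Atm P X) {n : ℕ} (φ : Fml X n) {p : P} {v w : Fin n → X}
    (hvw : ∀ i, A.eqF p (v i) (w i)) : Fc A φ p v ↔ Fc A φ p w := by
  have h := fc_congr A φ (a := fun x => x) (b := fun x => x) (fun i => A.eq_refl p i) hvw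
  rwa [mapP_id] at h

/-! ### Automorphisms -/

/-- An automorphism of a class of names. -/
structure Au (A : Atm P X) where
  h : P ≃o P
  f : X ≃ X
  eq_iff : ∀ {p x y}, A.eqF (h p) (f x) (f y) ↔ A.eqF p x y
  mem_iff : ∀ {p x y}, A.memF (h p) (f x) (f y) ↔ A.memF p x y

theorem au_elim {A : Atm P X} (g : Au A) {n : ℕ} (v : Fin n → X) (s : Fin n ⊕ X) :
    Sum.elim (fun i => g.f (v i)) id (Sum.map id g.f s) = g.f (Sum.elim v id s) := by
  rcases s with i | a <;> rfl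

/-- The symmetry lemma. -/
theorem fc_au {A : Atm P X} (g : Au A) : ∀ {n : ℕ} (φ : Fml X n) {p : P} {v : Fin n → X},
    Fc A (mapP g.f φ) (g.h p) (fun i => g.f (v i)) ↔ Fc A φ p v
  | _, .mem s t, p, v => by
    show A.memF _ (Sum.elim _ id (Sum.map id g.f s)) (Sum.elim _ id (Sum.map id g.f t)) ↔ _
    rw [au_elim, au_elim, g.mem_iff]
    rfl
  | _, .eq s t, p, v => by
    show A.eqF _ (Sum.elim _ id (Sum.map id g.f s)) (Sum.elim _ id (Sum.map id g.f t)) ↔ _
    rw [au_elim, au_elim, g.eq_iff]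
    rfl
  | _, .neg φ, p, v => by
    constructor
    · intro h q hq h'
      exact h (g.h q) (g.h.monotone hq) ((fc_au g φ).2 h')
    · intro h q hq h'
      obtain ⟨q, rfl⟩ := g.h.surjective q
      exact h q (g.h.le_iff_le.1 hq) ((fc_au g φ).1 h')
  | _, .and φ ψ, p, v => and_congr (fc_au g φ) (fc_au g ψ)
  | n, .ex φ, p, v => by
    have hcons : ∀ y : X, (Fin.cons (g.f y) fun i => g.f (v i) : Fin (n + 1) → X) =
        fun i => g.f ((Fin.cons y v : Fin (n + 1) → X) i) := by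
      intro y
      funext i
      refine Fin.cases ?_ (fun i => ?_) i <;> rfl
    constructor
    · intro h q hq
      obtain ⟨r, hr, x, hx⟩ := h (g.h q) (g.h.monotone hq)
      obtain ⟨r, rfl⟩ := g.h.surjective r
      obtain ⟨x, rfl⟩ := g.f.surjective x
      refine ⟨r, g.h.le_iff_le.1 hr, x, ?_⟩
      rw [hcons] at hx
      exact (fc_au g φ).1 hx
    · intro h q hq
      obtain ⟨q, rfl⟩ := g.h.surjective q
      obtain ⟨r, hr, x, hx⟩ := h q (g.h.le_iff_le.1 hq)
      refine ⟨g.h r, g.h.monotone hr, g.f x, ?_⟩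
      rw [hcons]
      exact (fc_au g φ).2 hx

/-- The symmetry lemma for formulas with parameters which are forced to be fixed. -/
theorem fc_fix {A : Atm P X} (g : Au A) {I : Type w} {n : ℕ} (φ : Fml I n) {a : I → X}
    (ha : ∀ i p, A.eqF p (g.f (a i)) (a i)) {p : P} {v : Fin n → X} :
    Fc A (mapP a φ) (g.h p) (fun i => g.f (v i)) ↔ Fc A (mapP a φ) p v := by
  refine Iff.trans ?_ (fc_au g (mapP a φ) (p := p) (v := v))
  rw [mapP_mapP]
  exact fc_congr A φ (fun i => A.eq_symm (ha i _)) fun i => A.eq_refl _ _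

/-! ### The hereditarily symmetric names -/

section

variable (Γ : Type u) (P : Type u) [Group Γ] [Preorder P] [OrderTop P] [Sys Γ P]

/-- The atomic forcing relation on the hereditarily symmetric names. -/
def hn : Atm P (HN Γ P) where
  eqF p x y := Nm.EqF x.1 y.1 p
  memF p x y := Nm.MemF x.1 y.1 p
  eq_mono h hq := h.mono hq
  mem_mono h hq := h.mono hq
  eq_dense h := Nm.eqF_of_dense h
  mem_dense h := Nm.memF_of_dense h
  eq_refl p x := Nm.eqF_refl _ p
  eq_symm h := h.symm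
  eq_trans h h' := h.trans h'
  mem_congr hx hy h := h.congr hx hy

variable {Γ P}

theorem hn_eqF {p : P} {x y : HN Γ P} : (hn Γ P).eqF p x y ↔ Nm.EqF x.1 y.1 p := Iff.rfl

theorem hn_memF {p : P} {x y : HN Γ P} : (hn Γ P).memF p x y ↔ Nm.MemF x.1 y.1 p := Iff.rfl

/-- Extensionality. -/
theorem hn_ext {p : P} {x y : HN Γ P}
    (h : ∀ z : HN Γ P, ∀ q ≤ p, ((hn Γ P).memF q z x ↔ (hn Γ P).memF q z y)) :
    (hn Γ P).eqF p x y :=
  Nm.eqF_of_mem (C := Nm.HS Γ) x.2.nm y.2.nm fun z hz s hs => h ⟨z, hz⟩ s hs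

/-- The action of the group on the hereditarily symmetric names. -/
def HN.act (g : Γ) (x : HN Γ P) : HN Γ P := ⟨g • x.1, x.2.smul g⟩

instance : MulAction Γ (HN Γ P) where
  smul := HN.act
  one_smul x := Subtype.ext (one_smul Γ x.1)
  mul_smul g h x := Subtype.ext (mul_smul g h x.1)

@[simp] theorem HN.smul_val (g : Γ) (x : HN Γ P) : (g • x).1 = g • x.1 := rfl

/-- The order automorphism given by an element of the group. -/
def ordIso (g : Γ) : P ≃o P where
  toFun p := g • p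
  invFun p := g⁻¹ • p
  left_inv p := inv_smul_smul g p
  right_inv p := smul_inv_smul g p
  map_rel_iff' := smul_le_iff g _ _

/-- The automorphism of the class of names given by an element of the group. -/
def au (g : Γ) : Au (hn Γ P) where
  h := ordIso g
  f := ⟨fun x => g • x, fun x => g⁻¹ • x, fun x => inv_smul_smul g x, fun x => smul_inv_smul g x⟩
  eq_iff := Nm.eqF_smul g
  mem_iff := Nm.memF_smul g

/-- `E` is a support of `x`. -/
def HN.Supp (E : Sys.S Γ P) (x : HN Γ P) : Prop := Nm.Supp Γ E x.1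

theorem HN.exists_supp (x : HN Γ P) : ∃ E : Sys.S Γ P, x.Supp E := x.2.sym

/-- Finitely many names have a common support. -/
theorem HN.exists_supp_fin {n : ℕ} (x : Fin n → HN Γ P) : ∃ E : Sys.S Γ P, ∀ i, (x i).Supp E := by
  induction n with
  | zero =>
    obtain ⟨E⟩ := Sys.nonempty (Γ := Γ) (P := P)
    exact ⟨E, fun i => i.elim0⟩
  | succ n ih =>
    obtain ⟨E, hE⟩ := ih fun i => x i.succ
    obtain ⟨F, hF⟩ := (x 0).exists_supp
    obtain ⟨K, h1, h2⟩ := Sys.inter (P := P) E F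
    refine ⟨K, fun i => ?_⟩
    refine Fin.cases ?_ (fun i => ?_) i
    · exact Nm.Supp.mono h2 hF
    · exact Nm.Supp.mono h1 (hE i)

/-- The symmetry lemma, all names are moved. -/
theorem fc_smul (g : Γ) {n : ℕ} (φ : Fml (HN Γ P) n) {p : P} {v : Fin n → HN Γ P} :
    Fc (hn Γ P) (mapP (fun x => g • x) φ) (g • p) (fun i => g • v i) ↔ Fc (hn Γ P) φ p v :=
  fc_au (au g) φ

/-- The symmetry lemma: `g` fixes the parameters of the formula. -/
theorem fc_smul_fix {E : Sys.S Γ P} {g : Γ} (hg : g ∈ Sys.H (P := P) E) {I : Type w}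
    {n : ℕ} (φ : Fml I n) {a : I → HN Γ P} (ha : ∀ i, (a i).Supp E) {p : P}
    {v : Fin n → HN Γ P} :
    Fc (hn Γ P) (mapP a φ) (g • p) (fun i => g • v i) ↔ Fc (hn Γ P) (mapP a φ) p v :=
  fc_fix (au g) φ fun i p => Nm.Supp.eqF (ha i) hg p

/-- The symmetry lemma: `g` fixes the parameters of the formula and the variables. -/
theorem fc_smul_fix_all {E : Sys.S Γ P} {g : Γ} (hg : g ∈ Sys.H (P := P) E) {I : Type w}
    {n : ℕ} (φ : Fml I n) {a : I → HN Γ P} (ha : ∀ i, (a i).Supp E) {p : P}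
    {v : Fin n → HN Γ P} (hv : ∀ i, (v i).Supp E) :
    Fc (hn Γ P) (mapP a φ) (g • p) v ↔ Fc (hn Γ P) (mapP a φ) p v := by
  have h := fc_congr_var (hn Γ P) (mapP a φ) (p := g • p) (v := fun i => g • v i) (w := v)
    fun i => Nm.Supp.eqF (hv i) hg _
  exact h.symm.trans (fc_smul_fix hg φ ha)

end

/-- A formula has only finitely many parameters. -/
theorem exists_fin_params {A : Type v} : ∀ {n : ℕ} (φ : Fml A n), ∃ (k : ℕ) (a : Fin k → A)
    (ψ : Fml (Fin k) n), φ = mapP a ψ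
  | n, .mem s t => by
    have key : ∀ s : Fin n ⊕ A, ∀ k (a : Fin k → A), (∀ b, s = .inr b → ∃ i, a i = b) →
        ∃ s' : Fin n ⊕ Fin k, Sum.map id a s' = s := by
      rintro (i | b) k a h
      · exact ⟨.inl i, rfl⟩
      · obtain ⟨i, rfl⟩ := h b rfl
        exact ⟨.inr i, rfl⟩
    by_cases hA : Nonempty A
    · obtain ⟨d⟩ := hA
      let a : Fin 2 → A := ![Sum.elim (fun _ => d) id s, Sum.elim (fun _ => d) id t]
      obtain ⟨s', hs⟩ := key s 2 a (by rintro b rfl; exact ⟨0, rfl⟩)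
      obtain ⟨t', ht⟩ := key t 2 a (by rintro b rfl; exact ⟨1, rfl⟩)
      exact ⟨2, a, .mem s' t', by simp [mapP, hs, ht]⟩
    · have hs : ∃ i, s = .inl i := by
        rcases s with i | b
        · exact ⟨i, rfl⟩
        · exact (hA ⟨b⟩).elim
      have ht : ∃ i, t = .inl i := by
        rcases t with i | b
        · exact ⟨i, rfl⟩
        · exact (hA ⟨b⟩).elim
      obtain ⟨i, rfl⟩ := hs
      obtain ⟨j, rfl⟩ := ht
      exact ⟨0, Fin.elim0, .mem (.inl i) (.inl j), rfl⟩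
  | n, .eq s t => by
    have key : ∀ s : Fin n ⊕ A, ∀ k (a : Fin k → A), (∀ b, s = .inr b → ∃ i, a i = b) →
        ∃ s' : Fin n ⊕ Fin k, Sum.map id a s' = s := by
      rintro (i | b) k a h
      · exact ⟨.inl i, rfl⟩
      · obtain ⟨i, rfl⟩ := h b rfl
        exact ⟨.inr i, rfl⟩
    by_cases hA : Nonempty A
    · obtain ⟨d⟩ := hA
      let a : Fin 2 → A := ![Sum.elim (fun _ => d) id s, Sum.elim (fun _ => d) id t]
      obtain ⟨s', hs⟩ := key s 2 a (by rintro b rfl; exact ⟨0, rfl⟩)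
      obtain ⟨t', ht⟩ := key t 2 a (by rintro b rfl; exact ⟨1, rfl⟩)
      exact ⟨2, a, .eq s' t', by simp [mapP, hs, ht]⟩
    · have hs : ∃ i, s = .inl i := by
        rcases s with i | b
        · exact ⟨i, rfl⟩
        · exact (hA ⟨b⟩).elim
      have ht : ∃ i, t = .inl i := by
        rcases t with i | b
        · exact ⟨i, rfl⟩
        · exact (hA ⟨b⟩).elim
      obtain ⟨i, rfl⟩ := hs
      obtain ⟨j, rfl⟩ := ht
      exact ⟨0, Fin.elim0, .eq (.inl i) (.inl j), rfl⟩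
  | _, .neg φ => by
    obtain ⟨k, a, ψ, rfl⟩ := exists_fin_params φ
    exact ⟨k, a, .neg ψ, rfl⟩
  | _, .and φ χ => by
    obtain ⟨k, a, ψ, rfl⟩ := exists_fin_params φ
    obtain ⟨l, b, ψ', rfl⟩ := exists_fin_params χ
    refine ⟨k + l, Fin.append a b, .and (mapP (Fin.castAdd l) ψ) (mapP (Fin.natAdd k) ψ'), ?_⟩
    simp only [mapP, mapP_mapP, Fin.append_left, Fin.append_right]
  | _, .ex φ => by
    obtain ⟨k, a, ψ, rfl⟩ := exists_fin_params φ
    exact ⟨k, a, .ex ψ, rfl⟩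

/-- The parameters of a formula over the hereditarily symmetric names have a common support. -/
theorem exists_supp_fml {Γ P : Type u} [Group Γ] [Preorder P] [OrderTop P] [Sys Γ P] {n : ℕ}
    (φ : Fml (HN Γ P) n) : ∃ (E : Sys.S Γ P) (ψ : Fml {x : HN Γ P // x.Supp E} n),
      φ = mapP Subtype.val ψ := by
  obtain ⟨k, a, ψ, rfl⟩ := exists_fin_params φ
  obtain ⟨E, hE⟩ := HN.exists_supp_fin a
  refine ⟨E, mapP (fun i => ⟨a i, hE i⟩) ψ, ?_⟩
  rw [mapP_mapP]

end Pool.Agent.ZFW
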