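import Pool.Agent.ZFW.Inst
import Pool.Agent.ZFW.Fc

/-!
Digit functions on the tree, and the real numbers which they give along a branch.
-/

universe u

namespace Pool.Agent.ZFW

variable {J : Type u}

/-- The function `d` depends only on a countable pattern. -/
def Ctb (d : List J → ℕ) : Prop := ∃ K : Set J, K.Countable ∧ ∀ u v, Pat K u v → d u = d v

/-- The digit functions: `d v` is the digit with the number `v.length - 1` at the node `v`. -/
def DJ (J : Type u) : Type u := {d : List J → ℕ // Ctb d}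

theorem Ctb.comp {d : List J → ℕ} (hd : Ctb d) {h : Equiv.Perm (List J)} (hh : h ∈ GG J) :
    Ctb fun v => d (h v) := by
  obtain ⟨K, hK, hd⟩ := hd
  obtain ⟨L, hL, hKL, hc⟩ := hh.2 K hK
  exact ⟨L, hL, fun u v huv => hd _ _ (((hc u v).1 huv).mono hKL)⟩

theorem Ctb.const (n : ℕ) : Ctb fun _ : List J => n := ⟨∅, Set.countable_empty, fun _ _ _ => rfl⟩

theorem Ctb.map {d : List J → ℕ} (hd : Ctb d) (f : ℕ → ℕ) : Ctb fun v => f (d v) := by
  obtain ⟨K, hK, hd⟩ := hd
  exact ⟨K, hK, fun u v huv => congrArg f (hd u v huv)⟩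

theorem Ctb.map₂ {d e : List J → ℕ} (hd : Ctb d) (he : Ctb e) (f : ℕ → ℕ → ℕ) :
    Ctb fun v => f (d v) (e v) := by
  obtain ⟨K, hK, hd⟩ := hd
  obtain ⟨L, hL, he⟩ := he
  refine ⟨K ∪ L, hK.union hL, fun u v huv => ?_⟩
  show f (d u) (e u) = f (d v) (e v)
  rw [hd u v (huv.mono Set.subset_union_left), he u v (huv.mono Set.subset_union_right)]

/-- The action of the group. -/
instance : MulAction (Gp J) (DJ J) where
  smul h d := ⟨fun v => d.1 ((h⁻¹ : Gp J).1 v), d.2.comp (h⁻¹ : Gp J).2⟩
  one_smul _ := rfl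
  mul_smul g h d := by
    refine Subtype.ext (funext fun v => ?_)
    show d.1 (((g * h)⁻¹ : Gp J).1 v) = d.1 ((h⁻¹ : Gp J).1 ((g⁻¹ : Gp J).1 v))
    rw [mul_inv_rev]
    rfl

theorem DJ.smul_apply (h : Gp J) (d : DJ J) (v : List J) : (h • d).1 v = d.1 ((h.1)⁻¹ v) := rfl

/-- The digits along the node `v`, the newest one first. -/
def br (d : List J → ℕ) : List J → List ℕ
  | [] => []
  | x :: v => d (x :: v) :: br d v

@[simp] theorem br_nil (d : List J → ℕ) : br d [] = [] := rfl

@[simp] theorem br_cons (d : List J → ℕ) (x : J) (v : List J) :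
    br d (x :: v) = d (x :: v) :: br d v := rfl

@[simp] theorem br_length (d : List J → ℕ) (v : List J) : (br d v).length = v.length := by
  induction v with
  | nil => rfl
  | cons x v ih => simp [ih]

theorem br_tail (d : List J → ℕ) (v : List J) : (br d v).tail = br d v.tail := by
  cases v <;> rfl

theorem br_drop (d : List J → ℕ) : ∀ (n : ℕ) (v : List J), (br d v).drop n = br d (v.drop n) := by
  intro n
  induction n with
  | zero => intro v; rfl
  | succ n ih =>
    intro v
    cases v with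
    | nil => rfl
    | cons x v => rw [br_cons, List.drop_succ_cons, List.drop_succ_cons, ih]

theorem br_suffix (d : List J → ℕ) {u v : List J} (h : u <:+ v) : br d u <:+ br d v := by
  obtain ⟨w, rfl⟩ := h
  have := br_drop d w.length (w ++ u)
  rw [List.drop_left] at this
  rw [← this]
  exact List.drop_suffix _ _

theorem br_congr {K : Set J} {d : List J → ℕ} (hd : ∀ u v, Pat K u v → d u = d v) :
    ∀ {u v : List J}, Pat K u v → br d u = br d v := by
  intro u
  induction u with
  | nil => intro v h; rw [h.nil_left]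
  | cons x u ih =>
    intro v h
    cases v with
    | nil => exact absurd h.length (by simp)
    | cons y v =>
      rw [br_cons, br_cons, hd _ _ h, ih (Pat.cons_iff.1 h).2]

theorem br_comp (d : List J → ℕ) {h : Equiv.Perm (List J)} (hh : Tl h) (v : List J) :
    br (fun v => d (h v)) v = br d (h v) := by
  induction v with
  | nil => rw [hh.map_nil]; rfl
  | cons x v ih =>
    obtain ⟨y, hy⟩ := hh.exists_cons x v
    rw [br_cons, ih, hy, br_cons]

theorem br_smul (h : Gp J) (d : DJ J) (v : List J) : br (h • d).1 v = br d.1 (h.1⁻¹ v) :=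
  br_comp d.1 (h := h.1⁻¹) (inv_mem h.2 : h.1⁻¹ ∈ GG J).1 v

/-- The digit function of a block. -/
noncomputable def blk (b : ℕ → J) : List J → ℕ
  | [] => 0
  | x :: _ => cd b x

theorem blk_ctb (b : ℕ → J) : Ctb (blk b) := by
  refine ⟨Set.range b, Set.countable_range b, fun u v h => ?_⟩
  cases u with
  | nil => rw [h.nil_left]
  | cons x u =>
    cases v with
    | nil => exact absurd h.length (by simp)
    | cons y v =>
      show cd b x = cd b y
      rcases ka_eq_iff.1 (Pat.cons_iff.1 h).1 with h1 | ⟨h1, h2⟩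
      · rw [h1]
      · rw [cd_other fun j hj => h1 ⟨j, hj.symm⟩, cd_other fun j hj => h2 ⟨j, hj.symm⟩]

theorem br_blk (b : ℕ → J) (v : List J) : br (blk b) v = v.map (cd b) := by
  induction v with
  | nil => rfl
  | cons x v ih => rw [br_cons, ih]; rfl

/-- The digit function of a block, as an element of `DJ`. -/
noncomputable def blkD (b : ℕ → J) : DJ J := ⟨blk b, blk_ctb b⟩

/-! ### Branches -/

/-- `g` is the branch given by the filter `G`. -/
structure Brn (G : Set (Cnd J)) (g : ℕ → List J) : Prop where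
  len : ∀ n, (g n).length = n
  mem : ∀ n, (g n : Cnd J) ∈ G
  eq : ∀ p : Cnd J, p ∈ G → (p : List J) = g (List.length (α := J) p)

namespace Brn

variable {G : Set (Cnd J)} {g : ℕ → List J}

theorem suffix_of_le (hg : Brn G g) (hdir : ∀ p q : Cnd J, p ∈ G → q ∈ G → ∃ r, r ∈ G ∧ r ≤ p ∧ r ≤ q)
    {m n : ℕ} (h : m ≤ n) : g m <:+ g n := by
  obtain ⟨r, -, h1, h2⟩ := hdir _ _ (hg.mem m) (hg.mem n)
  refine List.suffix_of_suffix_length_le (l₃ := (r : List J)) h1 h2 ?_
  rw [hg.len, hg.len]
  exact h

end Brn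

theorem exists_brn {G : Set (Cnd J)} (hup : ∀ p q : Cnd J, p ∈ G → p ≤ q → q ∈ G)
    (hdir : ∀ p q : Cnd J, p ∈ G → q ∈ G → ∃ r, r ∈ G ∧ r ≤ p ∧ r ≤ q)
    (hlen : ∀ n : ℕ, ∃ p : Cnd J, p ∈ G ∧ n ≤ List.length (α := J) p) : ∃ g, Brn G g := by
  have h1 : ∀ n : ℕ, ∃ p : List J, (p : Cnd J) ∈ G ∧ p.length = n := by
    intro n
    obtain ⟨p, hp, hn⟩ := hlen n
    refine ⟨List.drop (List.length (α := J) p - n) (p : List J), hup p _ hp ?_, ?_⟩
    · exact List.drop_suffix _ (p : List J)
    · rw [List.length_drop]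
      omega
  choose g hg hg' using h1
  refine ⟨g, hg', hg, fun p hp => ?_⟩
  obtain ⟨r, -, h2, h3⟩ := hdir p (g (List.length (α := J) p)) hp (hg _)
  have h4 : List.IsSuffix (α := J) p (g (List.length (α := J) p)) :=
    List.suffix_of_suffix_length_le (l₃ := (r : List J)) h2 h3 (hg' _).ge
  exact h4.eq_of_length_le (hg' _).le

/-- The real given by a digit function along a branch. -/
def ev (g : ℕ → List J) (d : List J → ℕ) (n : ℕ) : ℕ := d (g (n + 1))

/-- The initial segments of the real, the newest digit first. -/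
theorem br_eq_iff {G : Set (Cnd J)} {g : ℕ → List J} (hg : Brn G g)
    (hsuf : ∀ m n, m ≤ n → g m <:+ g n) (d e : List J → ℕ) (n : ℕ) :
    br d (g n) = br e (g n) ↔ ∀ k, k < n → ev g d k = ev g e k := by
  induction n with
  | zero =>
    have : g 0 = [] := List.length_eq_zero_iff.1 (hg.len 0)
    simp [this]
  | succ n ih =>
    obtain ⟨x, hx⟩ : ∃ x, g (n + 1) = x :: g n := by
      obtain ⟨w, hw⟩ := hsuf n (n + 1) (Nat.le_succ n)
      have h1 : w.length = 1 := by
        have := congrArg List.length hw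
        rw [List.length_append, hg.len, hg.len] at this
        omega
      obtain ⟨x, rfl⟩ := List.length_eq_one_iff.1 h1
      exact ⟨x, hw.symm⟩
    rw [hx, br_cons, br_cons, List.cons.injEq, ih, ← hx]
    constructor
    · rintro ⟨h1, h2⟩ k hk
      rcases Nat.lt_succ_iff_lt_or_eq.1 hk with h3 | rfl
      · exact h2 k h3
      · exact h1
    · intro h
      exact ⟨h n (Nat.lt_succ_self n), fun k hk => h k (Nat.lt_succ_of_lt hk)⟩

end Pool.Agent.ZFW
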