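import Pool.Agent.ZFW.GenC
import Pool.Agent.ZFW.Rl
import Pool.Agent.ZFW.DfnC

/-!
The common context: a universe of objects which contains the objects of all types of the levels
`0` and `1`, and the structure of the models given by a countable set of objects and a generic
filter.
-/

universe v

namespace Pool.Agent.ZFW

open Pool.Agent.SigB Filter

/-! ### The universe of objects -/

/-- The universe of objects. -/
def UU : Type 2 := Σ α : Type 1, α

theorem sig_inj {α : Type 1} {a b : α} (h : (⟨α, a⟩ : Σ α : Type 1, α) = ⟨α, b⟩) : a = b := by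
  cases h
  rfl

instance obj1 (α : Type 1) : Obj UU α where
  inj a := (⟨α, a⟩ : Σ α : Type 1, α)
  inj_injective _ _ h := sig_inj h

instance obj0 (α : Type) : Obj UU α where
  inj a := (⟨ULift.{1} α, ⟨a⟩⟩ : Σ α : Type 1, α)
  inj_injective a b h := congrArg ULift.down
    (sig_inj (a := (⟨a⟩ : ULift.{1} α)) (b := (⟨b⟩ : ULift.{1} α)) h)

/-- `h` holds for almost all countable sets of objects. -/
abbrev cl : Filter (CC UU) := clubF UU

theorem exists_of_ev {Q : CC UU → Prop} (h : ∀ᶠ S in cl, Q S) : ∃ S, Q S := h.exists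

/-! ### Models -/

/-- The hereditarily symmetric names. -/
abbrev HNJ (J : Type) : Type 1 := HN (Gp J) (Cnd J)

/-- The forcing relation. -/
abbrev FcJ {J : Type} {n : ℕ} (φ : Fml (HNJ J) n) (p : Cnd J) (v : Fin n → HNJ J) : Prop :=
  Fc (hn (Gp J) (Cnd J)) φ p v

/-- A model given by the countable set `S` of objects. -/
structure Md (J : Type) (S : CC UU) where
  /-- The generic filter. -/
  G : Set (Cnd J)
  /-- The universe of the model. -/
  W : Type 1
  /-- The membership relation. -/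
  mem : Membership W W
  /-- The evaluation. -/
  val : {x : HNJ J // CC.In S x} → W
  gen : GenS S G
  hV : Val (hn (Gp J) (Cnd J)) (fun x => CC.In S x) G val
  hN : GdN (fun x : HNJ J => CC.In S x) G
  ne : Nonempty W

namespace Md

variable {J : Type} {S : CC UU} (M : Md J S)

instance : Membership M.W M.W := M.mem

open Classical in
/-- The total evaluation. -/
noncomputable def vl (x : HNJ J) : M.W :=
  if h : CC.In S x then M.val ⟨x, h⟩ else Classical.choice M.ne

theorem vl_of {x : HNJ J} (h : CC.In S x) : M.vl x = M.val ⟨x, h⟩ := dif_pos h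

theorem surj (w : M.W) : ∃ x : HNJ J, CC.In S x ∧ M.vl x = w := by
  obtain ⟨x, rfl⟩ := M.hV.surj w
  exact ⟨x.1, x.2, M.vl_of x.2⟩

theorem vl_eq {x y : HNJ J} (hx : CC.In S x) (hy : CC.In S y) :
    M.vl x = M.vl y ↔ ∃ p, p ∈ M.G ∧ Nm.EqF x.1 y.1 p := by
  rw [M.vl_of hx, M.vl_of hy]
  exact M.hV.eq_iff _ _

theorem vl_mem {x y : HNJ J} (hx : CC.In S x) (hy : CC.In S y) :
    M.vl x ∈ M.vl y ↔ ∃ p, p ∈ M.G ∧ Nm.MemF x.1 y.1 p := by
  rw [M.vl_of hx, M.vl_of hy]
  exact M.hV.mem_iff _ _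

/-- Forced equality (by all conditions) gives equality. -/
theorem vl_eq_of {x y : HNJ J} (hx : CC.In S x) (hy : CC.In S y) (h : ∀ p, Nm.EqF x.1 y.1 p) :
    M.vl x = M.vl y := by
  obtain ⟨p, hp⟩ := M.gen.ne
  exact (M.vl_eq hx hy).2 ⟨p, hp, h p⟩

/-- The elements of the value of a name. -/
theorem mem_vl {z : M.W} {y : HNJ J} (hy : CC.In S y) :
    z ∈ M.vl y ↔ ∃ j : y.1.Idx, CC.In S (y.nm j) ∧ y.1.cd j ∈ M.G ∧ z = M.vl (y.nm j) := by
  rw [M.vl_of hy, M.hV.mem_val M.hN]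
  constructor
  · rintro ⟨j, hj, h1, h2⟩
    exact ⟨j, hj, h1, by rw [M.vl_of hj]; exact h2⟩
  · rintro ⟨j, hj, h1, h2⟩
    exact ⟨j, hj, h1, by rw [M.vl_of hj] at h2; exact h2⟩

/-- Extensionality. -/
theorem ext {a b : M.W} (h : ∀ z, z ∈ a ↔ z ∈ b) : a = b := M.hV.ext a b h

/-- **The truth lemma.** -/
theorem truth {I : Type v} {n : ℕ} (φ : Fml I n) {a : I → HNJ J} (ha : ∀ i, CC.In S (a i))
    {v : Fin n → HNJ J} (hv : ∀ i, CC.In S (v i)) :
    (mapP (fun i => M.vl (a i)) φ).Sat (fun i => M.vl (v i)) ↔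
      ∃ p, p ∈ M.G ∧ FcJ (mapP a φ) p v := by
  have h := M.hV.truth (mapP (fun i => (⟨a i, ha i⟩ : {x : HNJ J // CC.In S x})) φ)
    fun i => ⟨v i, hv i⟩
  rw [mapP_mapP, mapP_mapP] at h
  have e1 : (fun i => M.vl (a i)) = fun i => M.val ⟨a i, ha i⟩ := funext fun i => M.vl_of (ha i)
  have e2 : (fun i => M.vl (v i)) = fun i => M.val ⟨v i, hv i⟩ := funext fun i => M.vl_of (hv i)
  rw [e1, e2]
  exact h

/-- What holds is forced by an extension of any given condition of the filter. -/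
theorem truth_le {I : Type v} {n : ℕ} (φ : Fml I n) {a : I → HNJ J} (ha : ∀ i, CC.In S (a i))
    {v : Fin n → HNJ J} (hv : ∀ i, CC.In S (v i)) {q : Cnd J} (hq : q ∈ M.G)
    (h : (mapP (fun i => M.vl (a i)) φ).Sat (fun i => M.vl (v i))) :
    ∃ p, p ∈ M.G ∧ p ≤ q ∧ FcJ (mapP a φ) p v := by
  obtain ⟨p, hp, h1⟩ := (M.truth φ ha hv).1 h
  obtain ⟨r, hr, h2, h3⟩ := M.gen.dir p q hp hq
  exact ⟨r, hr, h3, fc_mono _ _ h1 h2⟩

/-! ### Definability from names with a given support -/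

/-- The values of the names with the support `E`. -/
def cls (E : Sys.S (Gp J) (Cnd J)) (w : M.W) : Prop :=
  ∃ x : HNJ J, CC.In S x ∧ x.Supp E ∧ M.vl x = w

theorem cls_of {E : Sys.S (Gp J) (Cnd J)} {x : HNJ J} (hx : CC.In S x) (h : x.Supp E) :
    M.cls E (M.vl x) := ⟨x, hx, h, rfl⟩

theorem cls_mono {E F : Sys.S (Gp J) (Cnd J)} (h : Sys.H (P := Cnd J) F ≤ Sys.H E) {w : M.W}
    (hw : M.cls E w) : M.cls F w := by
  obtain ⟨x, hx, hE, rfl⟩ := hw
  exact ⟨x, hx, hE.mono h, rfl⟩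

/-- A predicate which is definable from values of names with the support `E`, as a formula over
names. -/
theorem exists_fml {E : Sys.S (Gp J) (Cnd J)} {n : ℕ} {ψ : (Fin n → M.W) → Prop}
    (h : DfnC (M.cls E) ψ) : ∃ φ : Fml {x : HNJ J // CC.In S x ∧ x.Supp E} n,
      ∀ v : Fin n → HNJ J, (∀ i, CC.In S (v i)) → (ψ (fun i => M.vl (v i)) ↔
        ∃ p, p ∈ M.G ∧ FcJ (mapP Subtype.val φ) p v) := by
  obtain ⟨φ, hφ⟩ := h
  have h1 : ∀ a : {a : M.W // M.cls E a}, ∃ x : {x : HNJ J // CC.In S x ∧ x.Supp E},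
      M.vl x.1 = a.1 := by
    rintro ⟨a, x, hx, hE, rfl⟩
    exact ⟨⟨x, hx, hE⟩, rfl⟩
  choose f hf using h1
  refine ⟨mapP f φ, fun v hv => ?_⟩
  rw [← M.truth (mapP f φ) (a := Subtype.val) (fun i => i.2.1) hv, mapP_mapP]
  have e : (fun x => M.vl (f x).1) = Subtype.val := funext hf
  rw [e]
  exact hφ _

end Md

/-- Almost all countable sets of objects have models, with any given condition in the filter. -/
theorem exists_md (J : Type) (p₀ : Cnd J) : ∀ᶠ S in cl, ∃ M : Md J S, p₀ ∈ M.G := by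
  have he : Nm.HS (Gp J) (Nm.mk (P := Cnd J) PEmpty PEmpty.elim PEmpty.elim) := by
    refine ⟨⟨⟨∅, Set.countable_empty⟩, fun h _ => ?_⟩, fun i => i.elim⟩
    rw [Nm.smul_mk, Nm.eqF_def]
    exact ⟨fun i => i.elim, fun i => i.elim⟩
  filter_upwards [ev_exists_gen (U := UU) p₀, ev_gdN (Γ := Gp J) (P := Cnd J) (U := UU),
    ev_mem (U := UU) (⟨_, he⟩ : HNJ J)] with S h1 h2 h3
  obtain ⟨G, hG, hp⟩ := h1
  have hN := h2 G hG
  obtain ⟨W, mem, val, hV⟩ := exists_val hN.toGd
  exact ⟨⟨G, W, mem, val, hG, hV, hN, ⟨val ⟨_, h3⟩⟩⟩, hp⟩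

/-- There is a model, with all the properties which hold for almost all `S`. -/
theorem exists_md_of (J : Type) {Q : ∀ S : CC UU, Md J S → Prop}
    (h : ∀ᶠ S in cl, ∀ M : Md J S, Q S M) : ∃ (S : CC UU) (M : Md J S), Q S M := by
  obtain ⟨S, h1, h2⟩ := (h.and (exists_md J (⊤ : Cnd J))).exists
  obtain ⟨M, -⟩ := h2
  exact ⟨S, M, h1 M⟩

/-- Almost all models have conditions of all lengths in the filter, which belong to `S`. -/
theorem ev_brn (J : Type) [Nonempty J] : ∀ᶠ S in cl, ∀ M : Md J S,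
    ∃ g, Brn M.G g ∧ (∀ m n, m ≤ n → g m <:+ g n) ∧ ∀ n, CC.In S (g n : Cnd J) := by
  have hd : ∀ n : ℕ, ∀ p : Cnd J, ∃ q : Cnd J, q ≤ p ∧ n ≤ List.length (α := J) q := by
    intro n (p : List J)
    obtain ⟨x⟩ := ‹Nonempty J›
    refine ⟨(List.replicate n x ++ p : List J), List.suffix_append _ _, ?_⟩
    rw [List.length_append, List.length_replicate]
    omega
  filter_upwards [ev_all (U := UU) (α := ℕ),
    ev_app (U := UU) fun n : ℕ => {p : Cnd J | n ≤ List.length (α := J) p},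
    ev_values (U := UU) (F := fun p : Cnd J => {q : Cnd J | ∃ n : ℕ, q = List.drop n (p : List J)})
      (fun p => by
        have : {q : Cnd J | ∃ n : ℕ, q = List.drop n (p : List J)} =
            Set.range fun n : ℕ => (List.drop n (p : List J) : Cnd J) := by
          ext q
          exact ⟨fun ⟨n, h⟩ => ⟨n, h.symm⟩, fun ⟨n, h⟩ => ⟨n, h.symm⟩⟩
        rw [this]
        exact Set.countable_range _)] with S h1 h2 h3 M
  have hlen : ∀ n : ℕ, ∃ p : Cnd J, CC.In S p ∧ p ∈ M.G ∧ n ≤ List.length (α := J) p := by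
    intro n
    obtain ⟨q, hq, hqG, hqn⟩ := M.gen.gen _ (h2 n (h1 n)) (hd n)
    exact ⟨q, hq, hqG, hqn⟩
  obtain ⟨g, hg⟩ := exists_brn (G := M.G) M.gen.up M.gen.dir fun n => by
    obtain ⟨p, -, hp⟩ := hlen n
    exact ⟨p, hp⟩
  have hs : ∀ m n, m ≤ n → g m <:+ g n := fun m n h => hg.suffix_of_le M.gen.dir h
  refine ⟨g, hg, hs, fun n => ?_⟩
  obtain ⟨p, hp, hpG, hn⟩ := hlen n
  refine h3 p hp (g n) ⟨List.length (α := J) p - n, ?_⟩
  have e := hg.eq p hpG
  have h4 : g n <:+ (p : List J) := by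
    rw [e]
    exact hs _ _ hn
  obtain ⟨w, hw⟩ := h4
  have h5 : w.length = List.length (α := J) p - n := by
    have := congrArg List.length hw
    rw [List.length_append, hg.len] at this
    omega
  rw [← h5, ← hw, List.drop_left]

open Classical in
/-- The branch given by the generic filter. -/
noncomputable def Md.g {J : Type} {S : CC UU} (M : Md J S) : ℕ → List J :=
  if h : ∃ g, Brn M.G g then h.choose else fun _ => []

/-- What holds for the branch of almost all models. -/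
structure Gb {J : Type} {S : CC UU} (M : Md J S) : Prop extends Brn M.G M.g where
  suf : ∀ m n, m ≤ n → M.g m <:+ M.g n
  mem_S : ∀ n, CC.In S (M.g n : Cnd J)

theorem ev_g (J : Type) [Nonempty J] : ∀ᶠ S in cl, ∀ M : Md J S, Gb M := by
  filter_upwards [ev_brn J] with S h M
  obtain ⟨g, hg, h2, h3⟩ := h M
  have h4 : Brn M.G M.g := by
    have h5 : ∃ g, Brn M.G g := ⟨g, hg⟩
    rw [Md.g, dif_pos h5]
    exact h5.choose_spec
  have h6 : M.g = g := by
    funext n
    have := hg.eq _ (h4.mem n)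
    rw [h4.len] at this
    exact this
  exact ⟨h4, by rw [h6]; exact h2, by rw [h6]; exact h3⟩

theorem Gb.mem_iff {J : Type} {S : CC UU} {M : Md J S} (h : Gb M) (p : Cnd J) :
    p ∈ M.G ↔ ∃ n, (p : List J) = M.g n := by
  constructor
  · exact fun hp => ⟨_, h.eq p hp⟩
  · rintro ⟨n, hn⟩
    have : p = (M.g n : Cnd J) := hn
    rw [this]
    exact h.mem n

end Pool.Agent.ZFW
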