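import Pool.Agent.ZFW.Tree

/-!
The tree automorphisms which are needed in the analysis of the symmetric extension.
-/

namespace Pool.Agent.ZFW

universe u

variable {J : Type u}

/-! ### Levelwise swaps -/

theorem rho_congr {s t : List J → Equiv.Perm J} : ∀ (v : List J),
    (∀ u : List J, u.length < v.length → s u = t u) → rho s v = rho t v := by
  intro v
  induction v with
  | nil => intro _; rfl
  | cons x v ih =>
    intro h
    rw [rho_cons, rho_cons, h v (by simp), ih fun u hu => h u (by rw [List.length_cons]; omega)]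

open Classical in
/-- The swaps which move the entries of the first list to those of the second one. -/
noncomputable def sw : List J → List J → ℕ → Equiv.Perm J
  | x :: v, y :: w => fun n => if n = v.length then Equiv.swap x y else sw v w n
  | _, _ => fun _ => 1

theorem sw_of_le : ∀ {v w : List J} {n : ℕ}, v.length ≤ n → sw v w n = 1 := by
  intro v
  induction v with
  | nil => intro w n _; simp [sw]
  | cons x v ih =>
    intro w n hn
    cases w with
    | nil => simp [sw]
    | cons y w =>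
      rw [List.length_cons] at hn
      simp only [sw]
      rw [if_neg (by omega)]
      exact ih (by omega)

open Classical in
theorem rho_sw : ∀ {v w : List J}, v.length = w.length → rho (fun u => sw v w u.length) v = w := by
  intro v
  induction v with
  | nil => intro w h; rw [rho_nil]; exact (List.length_eq_zero_iff.1 h.symm).symm
  | cons x v ih =>
    intro w h
    cases w with
    | nil => simp at h
    | cons y w =>
      simp only [List.length_cons, Nat.add_right_cancel_iff] at h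
      rw [rho_cons]
      have h1 : sw (x :: v) (y :: w) v.length = Equiv.swap x y := by simp [sw]
      rw [h1, Equiv.swap_apply_left]
      congr 1
      rw [← ih h]
      rw [ih h]
      conv_rhs => rw [← ih h]
      apply rho_congr
      intro u hu
      simp only [sw]
      rw [if_neg (by omega)]

open Classical in
theorem ka_swap {E : Set J} {x y : J} (h : ka E x = ka E y) (z : J) :
    ka E (Equiv.swap x y z) = ka E z := by
  rw [Equiv.swap_apply_def]
  split_ifs with h1 h2
  · rw [h1, h]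
  · rw [h2, h]
  · rfl

theorem ka_sw {E : Set J} : ∀ {v w : List J}, Pat E v w → ∀ n z, ka E (sw v w n z) = ka E z := by
  intro v
  induction v with
  | nil => intro w _ n z; simp [sw]
  | cons x v ih =>
    intro w h n z
    cases w with
    | nil => exact absurd h.length (by simp)
    | cons y w =>
      rw [Pat.cons_iff] at h
      simp only [sw]
      split_ifs with h1
      · exact ka_swap h.1 z
      · exact ih h.2 n z

theorem exists_swap {E : Set J} {p q : List J} (h : Pat E p q) :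
    ∃ t ∈ HE E, ∀ w : List J, t (w ++ p) = w ++ q := by
  refine ⟨rho fun u => sw p q u.length, rho_mem_HE (K₀ := ∅) Set.countable_empty ?_ ?_, ?_⟩
  · intro u v huv; rw [huv.length]
  · intro v x; exact ka_sw h _ _
  · intro w
    induction w with
    | nil => exact rho_sw h.length
    | cons x w ih =>
      rw [List.cons_append, rho_cons, ih, sw_of_le]
      · rfl
      · simp

/-- Replacing the oldest levels. -/
theorem exists_mod {E : Set J} {h h' : Equiv.Perm (List J)} (hh : h ∈ HE E) (hh' : h' ∈ HE E)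
    (p : List J) : ∃ k ∈ HE E, ∀ w : List J,
      k⁻¹ (w ++ p) = (h⁻¹ (w ++ p)).take w.length ++ h'⁻¹ p := by
  have h1 : Pat E (h⁻¹ p) (h'⁻¹ p) :=
    ((inv_mem hh : h⁻¹ ∈ HE E).2 p).trans ((inv_mem hh' : h'⁻¹ ∈ HE E).2 p).symm
  obtain ⟨t, ht, ht'⟩ := exists_swap h1
  refine ⟨h * t⁻¹, mul_mem hh (inv_mem ht), fun w => ?_⟩
  rw [mul_inv_rev, inv_inv, Equiv.Perm.mul_apply, (inv_mem hh : h⁻¹ ∈ HE E).1.1.append w p, ht']
  congr 1
  rw [List.take_left']
  rw [List.length_take, (inv_mem hh : h⁻¹ ∈ HE E).1.1.length]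
  simp

/-! ### Changing an automorphism outside of a cone -/

open Classical in
/-- `g` on the cone of `a`, the identity elsewhere. -/
noncomputable def cone (a : List J) (g : Equiv.Perm (List J)) (hg : ∀ v, a <:+ g v ↔ a <:+ v) :
    Equiv.Perm (List J) where
  toFun v := if a <:+ v then g v else v
  invFun v := if a <:+ v then g⁻¹ v else v
  left_inv v := by
    by_cases h : a <:+ v
    · simp only [h, if_true, (hg v).2 h, inv_app]
    · simp only [h, if_false]
  right_inv v := by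
    have h1 := hg (g⁻¹ v)
    rw [app_inv] at h1
    by_cases h : a <:+ v
    · simp only [h, if_true, h1.1 h, app_inv]
    · simp only [h, if_false]

theorem cone_of_mem {a : List J} {g : Equiv.Perm (List J)} {hg : ∀ v, a <:+ g v ↔ a <:+ v}
    {v : List J} (h : a <:+ v) : cone a g hg v = g v := by
  classical
  show (if a <:+ v then g v else v) = g v
  rw [if_pos h]

theorem cone_of_not_mem {a : List J} {g : Equiv.Perm (List J)} {hg : ∀ v, a <:+ g v ↔ a <:+ v}
    {v : List J} (h : ¬ a <:+ v) : cone a g hg v = v := by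
  classical
  show (if a <:+ v then g v else v) = v
  rw [if_neg h]

theorem eq_of_suffix_length {a v : List J} (h : a <:+ v) (h' : v.length ≤ a.length) : v = a :=
  (h.eq_of_length_le h').symm

theorem suffix_tail {a v : List J} (h : a <:+ v) (hne : v ≠ a) : a <:+ v.tail := by
  obtain ⟨w, rfl⟩ := h
  cases w with
  | nil => exact absurd rfl hne
  | cons x w => exact ⟨w, rfl⟩

theorem suffix_of_tail {a v : List J} (h : a <:+ v.tail) : a <:+ v :=
  h.trans (List.tail_suffix v)

theorem suffix_iff_of_pat {K : Set J} {a : List J} (ha : ∀ x ∈ a, x ∈ K) : ∀ {p q : List J},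
    Pat K p q → a <:+ p → a <:+ q := by
  intro p q h hp
  obtain ⟨w, rfl⟩ := hp
  have h1 : Pat K a (q.drop w.length) := by
    have := h.drop w.length
    rwa [List.drop_left] at this
  have h2 : ∀ (a b : List J), (∀ x ∈ a, x ∈ K) → Pat K a b → b = a := by
    intro a
    induction a with
    | nil => intro b _ hb; exact hb.nil_left
    | cons x a ih =>
      intro b hx hb
      cases b with
      | nil => exact absurd hb.length (by simp)
      | cons y b =>
        rw [Pat.cons_iff] at hb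
        rw [ih b (fun z hz => hx z (List.mem_cons_of_mem _ hz)) hb.2]
        congr 1
        rcases ka_eq_iff.1 hb.1 with h3 | h3
        · exact h3.symm
        · exact absurd (hx x List.mem_cons_self) h3.1
  rw [← h2 a _ ha h1]
  exact List.drop_suffix _ _

theorem cone_tl {a : List J} {g : Equiv.Perm (List J)} (hg : ∀ v, a <:+ g v ↔ a <:+ v)
    (ht : Tl g) : Tl (cone a g hg) := by
  intro v
  by_cases h : a <:+ v
  · rw [cone_of_mem h, ht]
    by_cases hne : v = a
    · subst hne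
      by_cases h1 : v <:+ v.tail
      · rw [cone_of_mem h1]
      · rw [cone_of_not_mem h1, ← ht]
        have h2 : g v = v := eq_of_suffix_length ((hg v).2 h) (ht.length v).le
        rw [h2]
    · rw [cone_of_mem (suffix_tail h hne)]
  · rw [cone_of_not_mem h, cone_of_not_mem fun h1 => h (suffix_of_tail h1)]

theorem cone_cl {a : List J} {g : Equiv.Perm (List J)} (hg : ∀ v, a <:+ g v ↔ a <:+ v)
    {K : Set J} (ha : ∀ x ∈ a, x ∈ K) (hK : Cl K g) : Cl K (cone a g hg) := by
  intro p q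
  have key : ∀ v, a <:+ cone a g hg v ↔ a <:+ v := by
    intro v
    by_cases h : a <:+ v
    · rw [cone_of_mem h, hg]
    · rw [cone_of_not_mem h]
  constructor
  · intro h
    by_cases hp : a <:+ p
    · have hq := suffix_iff_of_pat ha h hp
      rw [cone_of_mem hp, cone_of_mem hq]
      exact (hK p q).1 h
    · have hq : ¬ a <:+ q := fun hq => hp (suffix_iff_of_pat ha h.symm hq)
      rw [cone_of_not_mem hp, cone_of_not_mem hq]
      exact h
  · intro h
    by_cases hp : a <:+ p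
    · have hq : a <:+ q := (key q).1 (suffix_iff_of_pat ha h ((key p).2 hp))
      rw [cone_of_mem hp, cone_of_mem hq] at h
      exact (hK p q).2 h
    · have hq : ¬ a <:+ q := fun hq => hp ((key p).1 (suffix_iff_of_pat ha h.symm ((key q).2 hq)))
      rw [cone_of_not_mem hp, cone_of_not_mem hq] at h
      exact h

theorem cone_mem_GG {a : List J} {g : Equiv.Perm (List J)} (hg : ∀ v, a <:+ g v ↔ a <:+ v)
    (h : g ∈ GG J) : cone a g hg ∈ GG J := by
  refine ⟨cone_tl hg h.1, fun E hE => ?_⟩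
  obtain ⟨K, h1, h2, h3⟩ := h.2 (E ∪ {x | x ∈ a}) (hE.union (List.finite_toSet a).countable)
  exact ⟨K, h1, Set.subset_union_left.trans h2,
    cone_cl hg (fun x hx => h2 (Or.inr hx)) h3⟩

theorem Tl.suffix_iff {h : Equiv.Perm (List J)} (hh : Tl h) (p v : List J) :
    h p <:+ h v ↔ p <:+ v := by
  have key : ∀ {h : Equiv.Perm (List J)}, Tl h → ∀ {p v : List J}, p <:+ v → h p <:+ h v := by
    rintro h hh p _ ⟨w, rfl⟩
    exact ⟨_, (hh.append w p).symm⟩
  constructor
  · intro h1
    have := key hh.inv h1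
    rwa [inv_app, inv_app] at this
  · exact key hh

/-- Two automorphisms which give the same `F`-patterns below `p` differ there by a member of
`HE F`. -/
theorem exists_cone {E F : Set J} {h₁ h₂ : Equiv.Perm (List J)} (hh₁ : h₁ ∈ HE E)
    (hh₂ : h₂ ∈ HE E) {p : List J}
    (hp : ∀ w : List J, Pat F (h₁⁻¹ (w ++ p)) (h₂⁻¹ (w ++ p))) :
    ∃ t ∈ HE F, ∀ w : List J, t (h₁⁻¹ (w ++ p)) = h₂⁻¹ (w ++ p) := by
  obtain ⟨τ, hτ, hτ'⟩ := exists_swap (hp [])
  rw [List.nil_append] at hτ'
  have t1 : Tl h₁ := hh₁.1.1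
  have t2 : Tl h₂ := hh₂.1.1
  let g : Equiv.Perm (List J) := τ⁻¹ * (h₂⁻¹ * h₁)
  have hgG : g ∈ GG J :=
    mul_mem (inv_mem hτ.1) (mul_mem (inv_mem hh₂.1) hh₁.1)
  have hga : g (h₁⁻¹ p) = h₁⁻¹ p := by
    show τ⁻¹ (h₂⁻¹ (h₁ (h₁⁻¹ p))) = _
    rw [app_inv, Equiv.Perm.inv_eq_iff_eq]
    exact (hτ' []).symm
  have hg : ∀ v, h₁⁻¹ p <:+ g v ↔ h₁⁻¹ p <:+ v := by
    intro v
    conv_lhs => rw [← hga]
    exact hgG.1.suffix_iff _ _
  refine ⟨τ * cone _ g hg, ⟨mul_mem hτ.1 (cone_mem_GG hg hgG), fun v => ?_⟩, fun w => ?_⟩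
  · rw [Equiv.Perm.mul_apply]
    refine (hτ.2 _).trans ?_
    by_cases hv : h₁⁻¹ p <:+ v
    · rw [cone_of_mem hv]
      have h1 : p <:+ h₁ v := by
        rw [← t1.inv.suffix_iff, inv_app]; exact hv
      obtain ⟨w, hw⟩ := h1
      have h2 : v = h₁⁻¹ (w ++ p) := by rw [hw, inv_app]
      show Pat F (τ⁻¹ (h₂⁻¹ (h₁ v))) v
      refine ((inv_mem hτ : τ⁻¹ ∈ HE F).2 _).trans ?_
      rw [h2, app_inv]
      exact (hp w).symm
    · rw [cone_of_not_mem hv]
  · have hv : h₁⁻¹ p <:+ h₁⁻¹ (w ++ p) := (t1.inv.suffix_iff _ _).2 ⟨w, rfl⟩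
    rw [Equiv.Perm.mul_apply, cone_of_mem hv]
    show τ (τ⁻¹ (h₂⁻¹ (h₁ (h₁⁻¹ (w ++ p))))) = _
    rw [app_inv, app_inv]

/-! ### Swapping two sequences -/

/-- `a` and `b` are injective sequences with disjoint ranges. -/
structure Sep (a b : ℕ → J) : Prop where
  inj : Function.Injective a
  inj' : Function.Injective b
  ne : ∀ i j, a i ≠ b j

open Classical in
/-- The underlying function of the permutation which exchanges two sequences. -/
noncomputable def swF (a b : ℕ → J) (x : J) : J :=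
  if h : ∃ j, x = a j then b h.choose else if h : ∃ j, x = b j then a h.choose else x

theorem swF_left {a b : ℕ → J} (h : Sep a b) (j : ℕ) : swF a b (a j) = b j := by
  have h1 : ∃ i, a j = a i := ⟨j, rfl⟩
  unfold swF
  rw [dif_pos h1, ← h.inj h1.choose_spec]

theorem swF_right {a b : ℕ → J} (h : Sep a b) (j : ℕ) : swF a b (b j) = a j := by
  have h0 : ¬ ∃ i, b j = a i := by rintro ⟨i, hi⟩; exact h.ne i j hi.symm
  have h1 : ∃ i, b j = b i := ⟨j, rfl⟩
  unfold swF
  rw [dif_neg h0, dif_pos h1, ← h.inj' h1.choose_spec]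

theorem swF_other {a b : ℕ → J} {x : J} (h0 : ∀ i, x ≠ a i) (h1 : ∀ i, x ≠ b i) :
    swF a b x = x := by
  unfold swF
  rw [dif_neg (by rintro ⟨i, hi⟩; exact h0 i hi), dif_neg (by rintro ⟨i, hi⟩; exact h1 i hi)]

theorem swF_swF {a b : ℕ → J} (h : Sep a b) (x : J) : swF a b (swF a b x) = x := by
  by_cases h0 : ∃ i, x = a i
  · obtain ⟨i, rfl⟩ := h0
    rw [swF_left h, swF_right h]
  · by_cases h1 : ∃ i, x = b i
    · obtain ⟨i, rfl⟩ := h1
      rw [swF_right h, swF_left h]
    · have h2 := swF_other (fun i hi => h0 ⟨i, hi⟩) (fun i hi => h1 ⟨i, hi⟩)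
      rw [h2, h2]

open Classical in
/-- The permutation which exchanges two sequences. -/
noncomputable def swp (a b : ℕ → J) : Equiv.Perm J :=
  if h : Sep a b then ⟨swF a b, swF a b, swF_swF h, swF_swF h⟩ else 1

theorem swp_apply {a b : ℕ → J} (h : Sep a b) (x : J) : swp a b x = swF a b x := by
  unfold swp
  rw [dif_pos h]
  rfl

theorem swp_left {a b : ℕ → J} (h : Sep a b) (j : ℕ) : swp a b (a j) = b j := by
  rw [swp_apply h, swF_left h]

theorem swp_right {a b : ℕ → J} (h : Sep a b) (j : ℕ) : swp a b (b j) = a j := by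
  rw [swp_apply h, swF_right h]

theorem swp_other {a b : ℕ → J} (h : Sep a b) {x : J} (h0 : ∀ i, x ≠ a i) (h1 : ∀ i, x ≠ b i) :
    swp a b x = x := by
  rw [swp_apply h, swF_other h0 h1]

theorem ka_swp {a b : ℕ → J} {E : Set J} (h0 : ∀ i, a i ∉ E) (h1 : ∀ i, b i ∉ E) (x : J) :
    ka E (swp a b x) = ka E x := by
  by_cases h : Sep a b
  · by_cases h2 : ∃ i, x = a i
    · obtain ⟨i, rfl⟩ := h2
      rw [swp_left h, ka_of_not_mem (h0 i), ka_of_not_mem (h1 i)]
    · by_cases h3 : ∃ i, x = b i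
      · obtain ⟨i, rfl⟩ := h3
        rw [swp_right h, ka_of_not_mem (h0 i), ka_of_not_mem (h1 i)]
      · rw [swp_other h (fun i hi => h2 ⟨i, hi⟩) (fun i hi => h3 ⟨i, hi⟩)]
  · unfold swp
    rw [dif_neg h]
    rfl

open Classical in
/-- The digit of `x` for the block `b`: `j + 1` if `x = b j`, and `0` outside of the block. -/
noncomputable def cd (b : ℕ → J) (x : J) : ℕ := if h : ∃ j, x = b j then h.choose + 1 else 0

theorem cd_mem {b : ℕ → J} (hb : Function.Injective b) (j : ℕ) : cd b (b j) = j + 1 := by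
  have h : ∃ i, b j = b i := ⟨j, rfl⟩
  unfold cd
  rw [dif_pos h, ← hb h.choose_spec]

theorem cd_other {b : ℕ → J} {x : J} (h : ∀ j, x ≠ b j) : cd b x = 0 := by
  unfold cd
  rw [dif_neg (by rintro ⟨j, hj⟩; exact h j hj)]

theorem cd_eq_iff {b : ℕ → J} (hb : Function.Injective b) {x : J} {j : ℕ} :
    cd b x = j + 1 ↔ x = b j := by
  constructor
  · intro h
    by_cases h1 : ∃ i, x = b i
    · obtain ⟨i, rfl⟩ := h1
      rw [cd_mem hb] at h
      rw [Nat.add_right_cancel h]
    · rw [cd_other fun i hi => h1 ⟨i, hi⟩] at h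
      exact absurd h (by simp)
  · rintro rfl
    exact cd_mem hb j

theorem cd_congr {b c : ℕ → J} {x y : J} (hb : Function.Injective b) (hc : Function.Injective c)
    (h : ∀ j, x = b j ↔ y = c j) : cd b x = cd c y := by
  by_cases h1 : ∃ i, x = b i
  · obtain ⟨i, hi⟩ := h1
    rw [(cd_eq_iff hb).2 hi, (cd_eq_iff hc).2 ((h i).1 hi)]
  · rw [cd_other fun i hi => h1 ⟨i, hi⟩, cd_other fun i hi => h1 ⟨i, (h i).2 hi⟩]

/-! ### Fresh blocks -/

/-- Automorphisms with a closed set do not mix inside and outside. -/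
theorem mem_iff_of_cl {K : Set J} (hK : K.Countable) [Uncountable J] {k : Equiv.Perm (List J)}
    (ht : Tl k) (hc : Cl K k) {x y : J} {v : List J} (h : k (x :: v) = y :: k v) :
    x ∈ K ↔ y ∈ K := by
  have key : ∀ {k : Equiv.Perm (List J)}, Tl k → Cl K k → ∀ {x y : J} {v : List J},
      k (x :: v) = y :: k v → y ∈ K → x ∈ K := by
    intro k ht hc x y v h hy
    by_contra hx
    have h1 : ∃ c, c ∉ K ∧ c ≠ x := by
      by_contra hno
      push Not at hno
      have : (Set.univ : Set J).Countable := by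
        refine (hK.union (Set.countable_singleton x)).mono fun c _ => ?_
        by_cases hcK : c ∈ K
        · exact Or.inl hcK
        · exact Or.inr (hno c hcK)
      exact (not_countable_iff.2 inferInstance : ¬ Countable J) (Set.countable_univ_iff.1 this)
    obtain ⟨c, hcK, hcx⟩ := h1
    obtain ⟨d, hd⟩ := ht.exists_cons c v
    have h2 : Pat K (x :: v) (c :: v) :=
      Pat.cons_iff.2 ⟨by rw [ka_of_not_mem hx, ka_of_not_mem hcK], rfl⟩
    have h3 := (hc _ _).1 h2
    rw [h, hd, Pat.cons_iff] at h3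
    rcases ka_eq_iff.1 h3.1 with h4 | h4
    · rw [← h4, ← h] at hd
      have h5 := k.injective hd
      rw [List.cons.injEq] at h5
      exact hcx h5.1
    · exact h4.1 hy
  refine ⟨fun hx => ?_, key ht hc h⟩
  refine key (k := k⁻¹) ht.inv hc.inv (x := y) (y := x) (v := k v) ?_ hx
  rw [inv_app, ← h, inv_app]

/-- The set of values of a block moved by `k` at the node `u`. -/
noncomputable def phi (k : Equiv.Perm (List J)) (b : ℕ → J) (u : List J) (j : ℕ) : J :=
  (k (b j :: k⁻¹ u)).head?.getD (b j)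

theorem phi_spec {k : Equiv.Perm (List J)} (ht : Tl k) (b : ℕ → J) (u : List J) (j : ℕ) :
    k (b j :: k⁻¹ u) = phi k b u j :: u := by
  obtain ⟨y, hy⟩ := ht.exists_cons (b j) (k⁻¹ u)
  unfold phi
  rw [hy, app_inv]
  rfl

/-- One side of the lemma on fresh blocks. -/
theorem exists_fresh_one {E B₀ : Set J} [Uncountable J] {k : Equiv.Perm (List J)}
    (hk : k ∈ HE E) {b₁ b₂ : ℕ → J} (hb₁ : Function.Injective b₁) (hb₂ : Function.Injective b₂)
    (h1E : ∀ i, b₁ i ∉ E ∪ B₀) {D : Set J} (hD : D.Countable) (hDk : Cl D k)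
    (hED : E ∪ B₀ ∪ Set.range b₁ ⊆ D) (h2D : ∀ i, b₂ i ∉ D) :
    ∃ t ∈ HE (E ∪ B₀), ∀ r : List J, (t (k r)).map (cd b₁) = r.map (cd b₂) := by
  have ht : Tl k := hk.1.1
  obtain ⟨K, hKc, hDK, hKk⟩ := hk.1.2 (D ∪ Set.range b₂) (hD.union (Set.countable_range b₂))
  have hφK : ∀ u j, phi k b₂ u j ∈ K := by
    intro u j
    have h1 := phi_spec ht b₂ u j
    have h2 : k (b₂ j :: k⁻¹ u) = phi k b₂ u j :: k (k⁻¹ u) := by rw [h1, app_inv]
    exact (mem_iff_of_cl hKc ht hKk h2).1 (hDK (Or.inr ⟨j, rfl⟩))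
  have hφD : ∀ u j, phi k b₂ u j ∉ D := by
    intro u j
    have h1 := phi_spec ht b₂ u j
    have h2 : k (b₂ j :: k⁻¹ u) = phi k b₂ u j :: k (k⁻¹ u) := by rw [h1, app_inv]
    exact fun h3 => h2D j ((mem_iff_of_cl hD ht hDk h2).2 h3)
  have hφinj : ∀ u, Function.Injective (phi k b₂ u) := by
    intro u i j hij
    have h1 := phi_spec ht b₂ u i
    rw [hij, ← phi_spec ht b₂ u j] at h1
    have h2 := k.injective h1
    rw [List.cons.injEq] at h2
    exact hb₂ h2.1
  have hsep : ∀ u, Sep b₁ (phi k b₂ u) := fun u =>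
    ⟨hb₁, hφinj u, fun i j h => hφD u j (h ▸ hED (Or.inr ⟨i, rfl⟩))⟩
  have hφ : ∀ u v, Pat K u v → phi k b₂ u = phi k b₂ v := by
    intro u v huv
    funext j
    have h1 : Pat K (b₂ j :: k⁻¹ u) (b₂ j :: k⁻¹ v) :=
      Pat.cons_iff.2 ⟨rfl, (hKk.inv u v).1 huv⟩
    have h2 := (hKk _ _).1 h1
    rw [phi_spec ht, phi_spec ht, Pat.cons_iff] at h2
    rcases ka_eq_iff.1 h2.1 with h3 | h3
    · exact h3
    · exact absurd (hφK u j) h3.1
  refine ⟨rho fun u => swp b₁ (phi k b₂ u), rho_mem_HE hKc (fun u v huv => ?_) fun v x => ?_, ?_⟩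
  · simp only [hφ u v huv]
  · exact ka_swp h1E (fun i hi => hφD v i (hED (Or.inl hi))) x
  · intro r
    induction r with
    | nil => rw [ht.map_nil]; rfl
    | cons x v ih =>
      obtain ⟨y, hy⟩ := ht.exists_cons x v
      rw [hy, rho_cons, List.map_cons, List.map_cons, ih]
      congr 1
      have hs := hsep (k v)
      have hφ' : ∀ j, k (b₂ j :: v) = phi k b₂ (k v) j :: k v := by
        intro j
        have := phi_spec ht b₂ (k v) j
        rwa [inv_app] at this
      refine cd_congr hb₁ hb₂ fun j => ?_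
      constructor
      · intro h1
        have h2 : y = phi k b₂ (k v) j := by
          apply (swp b₁ (phi k b₂ (k v))).injective
          rw [h1, swp_right hs]
        rw [h2, ← hφ' j] at hy
        have h3 := k.injective hy
        rw [List.cons.injEq] at h3
        exact h3.1
      · rintro rfl
        rw [hφ' j, List.cons.injEq] at hy
        rw [← hy.1, swp_right hs]

theorem exists_block [Uncountable J] {D : Set J} (hD : D.Countable) :
    ∃ b : ℕ → J, Function.Injective b ∧ ∀ i, b i ∉ D := by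
  have h1 : (Dᶜ : Set J).Infinite := by
    intro h
    have h2 : (Set.univ : Set J).Countable := by
      rw [← Set.union_compl_self D]
      exact hD.union h.countable
    exact (not_countable_iff.2 inferInstance : ¬ Countable J) (Set.countable_univ_iff.1 h2)
  have := h1.to_subtype
  exact ⟨fun n => (Infinite.natEmbedding (Dᶜ : Set J) n : J),
    fun i j h => (Infinite.natEmbedding (Dᶜ : Set J)).injective (Subtype.ext h),
    fun i => (Infinite.natEmbedding (Dᶜ : Set J) i).2⟩

/-- The lemma on fresh blocks. -/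
theorem exists_fresh {E B₀ : Set J} [Uncountable J] (hE : E.Countable) (hB₀ : B₀.Countable)
    {h₁ h₂ : Equiv.Perm (List J)} (hh₁ : h₁ ∈ HE E) (hh₂ : h₂ ∈ HE E) {b₁ : ℕ → J}
    (hb₁ : Function.Injective b₁) (h1E : ∀ i, b₁ i ∉ E ∪ B₀) :
    ∃ b₂ : ℕ → J, Function.Injective b₂ ∧ (∀ i, b₂ i ∉ E ∪ B₀) ∧ (∀ i j, b₂ i ≠ b₁ j) ∧
      ∃ k₁ ∈ HE E, ∃ k₂ ∈ HE E,
        (∀ r : List J, Pat (E ∪ B₀) (k₁⁻¹ r) (h₁⁻¹ r) ∧ (k₁⁻¹ r).map (cd b₁) = r.map (cd b₂)) ∧
        (∀ r : List J, Pat (E ∪ B₀) (k₂⁻¹ r) (h₂⁻¹ r) ∧ (k₂⁻¹ r).map (cd b₁) = r.map (cd b₂)) := by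
  obtain ⟨D, hDc, hD, hDh⟩ := exists_common (fun b : Bool => cond b h₁⁻¹ h₂⁻¹)
    (E := E ∪ B₀ ∪ Set.range b₁) (by
      rintro (_ | _)
      · exact (inv_mem hh₂.1 : h₂⁻¹ ∈ GG J).2
      · exact (inv_mem hh₁.1 : h₁⁻¹ ∈ GG J).2)
    ((hE.union hB₀).union (Set.countable_range b₁))
  obtain ⟨b₂, hb₂, h2D⟩ := exists_block hDc
  obtain ⟨t₁, ht₁, ht₁'⟩ := exists_fresh_one (inv_mem hh₁) hb₁ hb₂ h1E hDc (hDh true) hD h2D
  obtain ⟨t₂, ht₂, ht₂'⟩ := exists_fresh_one (inv_mem hh₂) hb₁ hb₂ h1E hDc (hDh false) hD h2D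
  refine ⟨b₂, hb₂, fun i hi => h2D i (hD (Or.inl hi)),
    fun i j h => h2D i (hD (Or.inr ⟨j, h.symm⟩)),
    h₁ * t₁⁻¹, mul_mem hh₁ (inv_mem (HE_anti Set.subset_union_left ht₁)),
    h₂ * t₂⁻¹, mul_mem hh₂ (inv_mem (HE_anti Set.subset_union_left ht₂)), ?_, ?_⟩
  · intro r
    rw [mul_inv_rev, inv_inv, Equiv.Perm.mul_apply]
    exact ⟨ht₁.2 _, ht₁' r⟩
  · intro r
    rw [mul_inv_rev, inv_inv, Equiv.Perm.mul_apply]
    exact ⟨ht₂.2 _, ht₂' r⟩

/-! ### The perfect family -/

open Classical in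
/-- The past dependent permutation of the lemma on the perfect family. -/
noncomputable def pfs {A : Type*} (f f' : List J → A) (b' : A → ℕ → J) (b₀ b₁ : ℕ → J)
    (v : List J) : Equiv.Perm J :=
  if f v ≠ f' v then swp (b' (f v)) b₀ * swp (b' (f' v)) b₁ else 1

theorem exists_perfect {A : Type*} {E D : Set J} (hD : D.Countable) {f f' : List J → A}
    (hf : ∀ u v, Pat D u v → f u = f v) (hf' : ∀ u v, Pat D u v → f' u = f' v)
    {b' : A → ℕ → J} {b₀ b₁ : ℕ → J}
    (hb' : ∀ a, Function.Injective (b' a)) (hb'' : ∀ a c i j, a ≠ c → b' a i ≠ b' c j)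
    (hb₀ : Function.Injective b₀) (hb₁ : Function.Injective b₁)
    (h01 : ∀ i j, b₀ i ≠ b₁ j) (h'0 : ∀ a i j, b' a i ≠ b₀ j) (h'1 : ∀ a i j, b' a i ≠ b₁ j)
    (h0E : ∀ i, b₀ i ∉ E) (h1E : ∀ i, b₁ i ∉ E) (h'E : ∀ a i, b' a i ∉ E) :
    ∃ k ∈ HE E, ∀ (x : J) (v : List J), f v ≠ f' v →
      ∃ y, k⁻¹ (x :: v) = y :: k⁻¹ v ∧ (∀ j, y = b₀ j ↔ x = b' (f v) j) ∧
        ∀ j, y = b₁ j ↔ x = b' (f' v) j := by
  have hmem : rho (pfs f f' b' b₀ b₁) ∈ HE E := by
    refine rho_mem_HE hD (fun u v huv => ?_) fun v x => ?_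
    · unfold pfs
      rw [hf u v huv, hf' u v huv]
    · unfold pfs
      split_ifs
      · rw [Equiv.Perm.mul_apply, ka_swp (h'E _) h0E, ka_swp (h'E _) h1E]
      · rfl
  refine ⟨(rho (pfs f f' b' b₀ b₁))⁻¹, inv_mem hmem, fun x v hv => ?_⟩
  rw [inv_inv]
  refine ⟨_, rho_cons _ _ _, ?_, ?_⟩
  all_goals
    have h1 : pfs f f' b' b₀ b₁ v = swp (b' (f v)) b₀ * swp (b' (f' v)) b₁ := by
      unfold pfs
      rw [if_pos hv]
    have s0 : Sep (b' (f v)) b₀ := ⟨hb' _, hb₀, h'0 _⟩
    have s1 : Sep (b' (f' v)) b₁ := ⟨hb' _, hb₁, h'1 _⟩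
    intro j
    rw [h1, Equiv.Perm.mul_apply]
  · constructor
    · intro h2
      rw [← swp_left s0 j] at h2
      have h3 := (swp (b' (f v)) b₀).injective h2
      have h4 : swp (b' (f' v)) b₁ (b' (f v) j) = b' (f v) j :=
        swp_other s1 (fun i => hb'' _ _ _ _ hv) (fun i => h'1 _ _ _)
      rw [← h4] at h3
      exact (swp (b' (f' v)) b₁).injective h3
    · rintro rfl
      rw [swp_other s1 (fun i => hb'' _ _ _ _ hv) (fun i => h'1 _ _ _), swp_left s0]
  · constructor
    · intro h2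
      have h4 : swp (b' (f v)) b₀ (b₁ j) = b₁ j :=
        swp_other s0 (fun i => (h'1 _ _ _).symm) (fun i => (h01 _ _).symm)
      rw [← h4] at h2
      have h3 := (swp (b' (f v)) b₀).injective h2
      rw [← swp_left s1 j] at h3
      exact (swp (b' (f' v)) b₁).injective h3
    · rintro rfl
      rw [swp_left s1, swp_other s0 (fun i => (h'1 _ _ _).symm) (fun i => (h01 _ _).symm)]

end Pool.Agent.ZFW
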