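import Pool.Agent.ZFW.Nm
import Pool.Agent.ZFW.Tree2

/-!
The conditions `List J` (the newest level is the head; longer lists are stronger), the group
`GG J` and the filter generated by the groups `HE E`, `E` countable.
-/

universe u

namespace Pool.Agent.ZFW

/-- The conditions. -/
def Cnd (J : Type u) : Type u := List J

variable {J : Type u}

instance : Preorder (Cnd J) where
  le q p := List.IsSuffix (α := J) p q
  le_refl p := List.suffix_rfl
  le_trans p q r h h' := List.IsSuffix.trans h' h

theorem Cnd.le_iff {p q : Cnd J} : q ≤ p ↔ List.IsSuffix (α := J) p q := Iff.rfl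

instance : OrderTop (Cnd J) where
  top := ([] : List J)
  le_top _ := List.nil_suffix

theorem Cnd.top_eq : (⊤ : Cnd J) = ([] : List J) := rfl

/-- The group of automorphisms. -/
abbrev Gp (J : Type u) : Type u := ↥(GG J)

instance : MulAction (Gp J) (Cnd J) where
  smul g p := g.1 p
  one_smul _ := rfl
  mul_smul _ _ _ := rfl

theorem Cnd.smul_def (g : Gp J) (p : Cnd J) : g • p = (g.1 p : List J) := rfl

instance : Sys (Gp J) (Cnd J) where
  smul_mono g p q h := (Tl.suffix_iff g.2.1 _ _).2 h
  S := {E : Set J // E.Countable}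
  H E := (HE E.1).subgroupOf (GG J)
  inter E F := ⟨⟨E.1 ∪ F.1, E.2.union F.2⟩,
    fun _ h => HE_anti Set.subset_union_left h, fun _ h => HE_anti Set.subset_union_right h⟩
  conj g E := by
    obtain ⟨K, h1, -, h3⟩ := exists_conj (inv_mem g.2) E.2
    refine ⟨⟨K, h1⟩, fun h hh => ?_⟩
    have := h3 _ hh
    rwa [inv_inv] at this
  nonempty := ⟨⟨∅, Set.countable_empty⟩⟩

theorem mem_H {E : Sys.S (Gp J) (Cnd J)} {h : Gp J} :
    h ∈ Sys.H (P := Cnd J) E ↔ h.1 ∈ HE E.1 := Iff.rfl

end Pool.Agent.ZFW
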