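import Pool.Agent.ZFW.GenB
import Pool.Agent.ZFW.DfnC
import Pool.Agent.ZFW.Inst

/-!
# Homogeneity

The truth of a formula with parameters of support `E` at a name `h • x`, where `h` is in the group
of `E` and `x` has support `F ⊇ E`, depends only on the `F`-pattern of a finite part of the
branch `h⁻¹ • G`.
-/

universe u v w

set_option linter.unusedSectionVars false

namespace Pool.Agent.ZFW

open Pool.Agent.SigB

/-! ### Forcing level -/

section

variable {Γ P : Type u} [Group Γ] [Preorder P] [OrderTop P] [Sys Γ P]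

theorem HN.Supp.mono {E F : Sys.S Γ P} (h : Sys.H (P := P) F ≤ Sys.H E) {x : HN Γ P}
    (hx : x.Supp E) : x.Supp F := Nm.Supp.mono h hx

/-- A group element of the support `E` moves a formula with parameters of support `E`. -/
theorem fc_inv {E : Sys.S Γ P} {g : Γ} (hg : g ∈ Sys.H (P := P) E) {I : Type w} {n : ℕ}
    (φ : Fml I n) {a : I → HN Γ P} (ha : ∀ i, (a i).Supp E) {p : P} {v : Fin n → HN Γ P} :
    Fc (hn Γ P) (mapP a φ) p (fun i => g • v i) ↔ Fc (hn Γ P) (mapP a φ) (g⁻¹ • p) v := by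
  have h := fc_smul_fix hg φ ha (p := g⁻¹ • p) (v := v)
  rwa [smul_inv_smul] at h

/-- **Homogeneity**, forcing level. -/
theorem fc_hom {E F : Sys.S Γ P} (hEF : Sys.H (P := P) F ≤ Sys.H E) {I : Type w} {n : ℕ}
    (φ : Fml I n) {a : I → HN Γ P} (ha : ∀ i, (a i).Supp E) {v : Fin n → HN Γ P}
    (hv : ∀ i, (v i).Supp F) {h h' t : Γ} (hh : h ∈ Sys.H (P := P) E)
    (hh' : h' ∈ Sys.H (P := P) E) (ht : t ∈ Sys.H (P := P) F) {p q : P}
    (hp : t • h⁻¹ • p = h'⁻¹ • q) :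
    Fc (hn Γ P) (mapP a φ) p (fun i => h • v i) ↔
      Fc (hn Γ P) (mapP a φ) q (fun i => h' • v i) := by
  rw [fc_inv hh φ ha, fc_inv hh' φ ha, ← hp]
  exact (fc_smul_fix_all ht φ (fun i => (ha i).mono hEF) hv).symm

end

/-! ### In the model -/

section

variable {Γ P : Type u} [Group Γ] [Preorder P] [OrderTop P] [Sys Γ P]
  {S : HN Γ P → Prop} {G : Set P} {W : Type (u + 1)} [Membership W W] {val : {x // S x} → W}

/-- The elements of `W` which have a name of support `E`. -/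
def HasS (val : {x : HN Γ P // S x} → W) (E : Sys.S Γ P) (a : W) : Prop :=
  ∃ x : {x : HN Γ P // S x}, x.1.Supp E ∧ val x = a

theorem hasS_val {E : Sys.S Γ P} {x : {x // S x}} (h : x.1.Supp E) : HasS val E (val x) :=
  ⟨x, h, rfl⟩

theorem HasS.mono {E F : Sys.S Γ P} (h : Sys.H (P := P) F ≤ Sys.H E) {a : W}
    (ha : HasS val E a) : HasS val F a := by
  obtain ⟨x, hx, rfl⟩ := ha
  exact ⟨x, hx.mono h, rfl⟩

theorem HasS.exists (hV : Val (hn Γ P) S G val) (a : W) : ∃ E : Sys.S Γ P, HasS val E a := by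
  obtain ⟨x, rfl⟩ := hV.surj a
  obtain ⟨E, hE⟩ := x.1.exists_supp
  exact ⟨E, x, hE, rfl⟩

/-- A predicate with parameters of support `E` is given by a formula over names of support `E`. -/
theorem DfnC.exists_names (hV : Val (hn Γ P) S G val) {E : Sys.S Γ P} {n : ℕ}
    {R : (Fin n → W) → Prop} (hR : DfnC (HasS val E) R) :
    ∃ φ : Fml {x : {x : HN Γ P // S x} // x.1.Supp E} n, ∀ v : Fin n → {x // S x},
      R (fun i => val (v i)) ↔
        ∃ p, p ∈ G ∧ Fc (hn Γ P) (mapP (fun x => x.1.1) φ) p (fun i => (v i).1) := by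
  obtain ⟨φ, hφ⟩ := hR
  choose nm h1 h2 using fun a : {a : W // HasS val E a} => a.2
  refine ⟨mapP (fun a => ⟨nm a, h1 a⟩) φ, fun v => ?_⟩
  rw [hφ, mapP_mapP]
  have h3 := hV.truth (mapP nm φ) v
  rw [mapP_mapP, mapP_mapP] at h3
  rw [← h3]
  have h4 : (fun a => val (nm a)) = (Subtype.val : {a : W // HasS val E a} → W) := funext h2
  rw [h4]

/-- **Homogeneity** in the model. -/
theorem Val.hom (hV : Val (hn Γ P) S G val) {E F : Sys.S Γ P}
    (hEF : Sys.H (P := P) F ≤ Sys.H E) {n : ℕ} {R : (Fin n → W) → Prop}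
    (hR : DfnC (HasS val E) R) {v : Fin n → HN Γ P} (hv : ∀ i, (v i).Supp F) {h : Γ}
    (hh : h ∈ Sys.H (P := P) E) (hS : ∀ i, S (h • v i))
    (hr : R fun i => val ⟨h • v i, hS i⟩) :
    ∃ p, p ∈ G ∧ ∀ h' : Γ, h' ∈ Sys.H (P := P) E → ∀ q, q ∈ G →
      (∃ t, t ∈ Sys.H (P := P) F ∧ t • h⁻¹ • p = h'⁻¹ • q) →
      ∀ hS' : ∀ i, S (h' • v i), R fun i => val ⟨h' • v i, hS' i⟩ := by
  obtain ⟨φ, hφ⟩ := hR.exists_names hV
  obtain ⟨p, hp, h1⟩ := (hφ _).1 hr
  refine ⟨p, hp, fun h' hh' q hq ⟨t, ht, h2⟩ hS' => (hφ _).2 ⟨q, hq, ?_⟩⟩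
  exact (fc_hom hEF φ (a := fun x => x.1.1) (fun i => i.2) hv hh hh' ht h2).1 h1

end

/-! ### For the finite sequences from `J` -/

section

variable {J : Type u} {S : HN (Gp J) (Cnd J) → Prop} {G : Set (Cnd J)} {W : Type (u + 1)}
  [Membership W W] {val : {x // S x} → W}

/-- The support given by a countable set. -/
def spt (E : Set J) (hE : E.Countable) : Sys.S (Gp J) (Cnd J) :=
  (⟨E, hE⟩ : {E : Set J // E.Countable})

theorem mem_H_spt {E : Set J} {hE : E.Countable} {h : Gp J} :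
    h ∈ Sys.H (P := Cnd J) (spt E hE) ↔ h.1 ∈ HE E := Iff.rfl

theorem H_spt_le {E F : Set J} {hE : E.Countable} {hF : F.Countable} (h : E ⊆ F) :
    Sys.H (Γ := Gp J) (P := Cnd J) (spt F hF) ≤ Sys.H (spt E hE) := fun _ hg => HE_anti h hg

/-- The elements of a filter are comparable. -/
theorem Flt.total {G : Set (Cnd J)} (hG : Flt G) {p q : Cnd J} (hp : p ∈ G) (hq : q ∈ G) :
    p ≤ q ∨ q ≤ p := by
  obtain ⟨r, -, h1, h2⟩ := hG.dir p q hp hq
  have h1' : List.IsSuffix (α := J) p r := h1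
  have h2' : List.IsSuffix (α := J) q r := h2
  rcases le_total (List.length (α := J) p) (List.length (α := J) q) with h3 | h3
  · exact Or.inr (List.suffix_of_suffix_length_le h1' h2' h3)
  · exact Or.inl (List.suffix_of_suffix_length_le h2' h1' h3)

theorem Flt.le_of_length {G : Set (Cnd J)} (hG : Flt G) {p q : Cnd J} (hp : p ∈ G) (hq : q ∈ G)
    (h : List.length (α := J) p ≤ List.length (α := J) q) : q ≤ p := by
  rcases hG.total hp hq with h1 | h1
  · have h2 : List.IsSuffix (α := J) q p := h1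
    have h3 := h2.eq_of_length (le_antisymm h2.length_le h)
    exact le_of_eq h3
  · exact h1

theorem Flt.eq_of_length {G : Set (Cnd J)} (hG : Flt G) {p q : Cnd J} (hp : p ∈ G) (hq : q ∈ G)
    (h : List.length (α := J) p = List.length (α := J) q) : p = q := by
  have h1 : List.IsSuffix (α := J) p q := hG.le_of_length hp hq h.le
  exact h1.eq_of_length h

/-- Patterns of the images of shorter conditions. -/
theorem pat_of_le {K : Set J} {h h' : Gp J} {p q : Cnd J} (hq : q ≤ p)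
    (hp : Pat K ((h⁻¹ • q : Cnd J) : List J) (h'⁻¹ • q : Cnd J)) :
    Pat K ((h⁻¹ • p : Cnd J) : List J) (h'⁻¹ • p : Cnd J) := by
  obtain ⟨w, hw⟩ : ∃ w : List J, @HAppend.hAppend (List J) (List J) (List J) _ w p = q := hq
  have key : ∀ g : Gp J, List.drop (α := J) w.length (g • q : Cnd J) = (g • p : Cnd J) := by
    intro g
    have h1 := g.2.1.drop_append w p
    rw [hw] at h1
    exact h1
  have h3 := hp.drop w.length
  rw [key, key] at h3
  exact h3

/-- **Homogeneity** in the model: for all conditions `q` of the filter which are long enough, the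
truth of `R` at the values of the names `h' • v` depends only on the `F`-pattern of `h'⁻¹ q`. -/
theorem Val.hom_pat (hV : Val (hn (Gp J) (Cnd J)) S G val) {E F : Set J} {hE : E.Countable}
    {hF : F.Countable} (hEF : E ⊆ F) {n : ℕ} {R : (Fin n → W) → Prop}
    (hR : DfnC (HasS val (spt E hE)) R) {v : Fin n → HN (Gp J) (Cnd J)}
    (hv : ∀ i, (v i).Supp (spt F hF)) {h : Gp J} (hh : h.1 ∈ HE E) (hS : ∀ i, S (h • v i))
    (hr : R fun i => val ⟨h • v i, hS i⟩) :
    ∃ k : ℕ, ∀ q, q ∈ G → k ≤ List.length (α := J) q → ∀ h' : Gp J, h'.1 ∈ HE E →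
      Pat F ((h⁻¹ • q : Cnd J) : List J) (h'⁻¹ • q : Cnd J) →
      ∀ hS' : ∀ i, S (h' • v i), R fun i => val ⟨h' • v i, hS' i⟩ := by
  obtain ⟨p, hp, h1⟩ := hV.hom (E := spt E hE) (F := spt F hF) (H_spt_le hEF) hR hv
    (h := h) hh hS hr
  refine ⟨List.length (α := J) p, fun q hq hk h' hh' hpat hS' => ?_⟩
  have hqp : q ≤ p := hV.gd.le_of_length hp hq hk
  have h2 := pat_of_le hqp hpat
  obtain ⟨t, ht, h3⟩ := exists_swap h2
  exact h1 h' hh' p hp ⟨⟨t, ht.1⟩, ht, h3 []⟩ hS'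

/-- The version for one variable. -/
theorem Val.hom_pat₁ (hV : Val (hn (Gp J) (Cnd J)) S G val) {E F : Set J} {hE : E.Countable}
    {hF : F.Countable} (hEF : E ⊆ F) {R : W → Prop}
    (hR : DfnC (HasS val (spt E hE)) fun w : Fin 1 → W => R (w 0)) {x : HN (Gp J) (Cnd J)}
    (hx : x.Supp (spt F hF)) {h : Gp J} (hh : h.1 ∈ HE E) (hS : S (h • x))
    (hr : R (val ⟨h • x, hS⟩)) :
    ∃ k : ℕ, ∀ q, q ∈ G → k ≤ List.length (α := J) q → ∀ h' : Gp J, h'.1 ∈ HE E →
      Pat F ((h⁻¹ • q : Cnd J) : List J) (h'⁻¹ • q : Cnd J) →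
      ∀ hS' : S (h' • x), R (val ⟨h' • x, hS'⟩) := by
  obtain ⟨k, hk⟩ := hV.hom_pat hEF hR (v := fun _ => x) (fun _ => hx) hh (fun _ => hS) hr
  exact ⟨k, fun q hq hl h' hh' hp hS' => hk q hq hl h' hh' hp fun _ => hS'⟩

/-- The version for two variables. -/
theorem Val.hom_pat₂ (hV : Val (hn (Gp J) (Cnd J)) S G val) {E F : Set J} {hE : E.Countable}
    {hF : F.Countable} (hEF : E ⊆ F) {R : W → W → Prop}
    (hR : DfnC (HasS val (spt E hE)) fun w : Fin 2 → W => R (w 0) (w 1))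
    {x y : HN (Gp J) (Cnd J)} (hx : x.Supp (spt F hF)) (hy : y.Supp (spt F hF)) {h : Gp J}
    (hh : h.1 ∈ HE E) (hSx : S (h • x)) (hSy : S (h • y))
    (hr : R (val ⟨h • x, hSx⟩) (val ⟨h • y, hSy⟩)) :
    ∃ k : ℕ, ∀ q, q ∈ G → k ≤ List.length (α := J) q → ∀ h' : Gp J, h'.1 ∈ HE E →
      Pat F ((h⁻¹ • q : Cnd J) : List J) (h'⁻¹ • q : Cnd J) →
      ∀ (hSx' : S (h' • x)) (hSy' : S (h' • y)),
        R (val ⟨h' • x, hSx'⟩) (val ⟨h' • y, hSy'⟩) := by
  have hs : ∀ (g : Gp J), S (g • x) → S (g • y) → ∀ i : Fin 2,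
      S (g • (![x, y] : Fin 2 → HN (Gp J) (Cnd J)) i) := by
    intro g h1 h2 i
    refine Fin.cases ?_ (fun i => ?_) i
    · exact h1
    · have : i = 0 := Subsingleton.elim _ _
      subst this
      exact h2
  obtain ⟨k, hk⟩ := hV.hom_pat hEF hR (v := ![x, y]) (by
    intro i
    refine Fin.cases ?_ (fun i => ?_) i
    · exact hx
    · have : i = 0 := Subsingleton.elim _ _
      subst this
      exact hy) hh (hs h hSx hSy) hr
  exact ⟨k, fun q hq hl h' hh' hp hSx' hSy' => hk q hq hl h' hh' hp (hs h' hSx' hSy')⟩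

end

end Pool.Agent.ZFW
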