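import Pool.Agent.ZFW.Nm

/-!
The axioms of ZF for the hereditarily symmetric names, at the level of the forcing relation for
atomic formulas.
-/

universe u

set_option linter.unusedSectionVars false

namespace Pool.Agent.ZFW.Ax

variable {Γ P : Type u} [Group Γ] [Preorder P] [OrderTop P] [Sys Γ P]

open Pool.Agent.ZFW Nm

/-- A criterion for supports. -/
theorem supp_of {b : Nm P} {E : Sys.S Γ P}
    (h : ∀ g : Γ, g ∈ Sys.H (P := P) E → ∀ i s, s ≤ b.cd i → MemF (g • b.nm i) b (g • s)) :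
    Supp Γ E b := by
  intro g hg
  rw [eqF_iff]
  constructor
  · rw [forall_idx g b (Q := fun z c => ∀ s, s ≤ ⊤ → s ≤ c → MemF z b s)]
    intro i s _ hs
    have := h g hg i (g⁻¹ • s) ((le_smul g _ _).1 hs)
    rwa [smul_inv_smul] at this
  · intro i s _ hs
    have := memF_smul_of g (h g⁻¹ (Subgroup.inv_mem _ hg) i s hs)
    rwa [smul_inv_smul, smul_inv_smul] at this

theorem supp_memF {b z : Nm P} {E : Sys.S Γ P} (hE : Supp Γ E b) {g : Γ}
    (hg : g ∈ Sys.H (P := P) E) {r : P} (h : MemF z b r) : MemF (g • z) b (g • r) :=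
  (memF_smul_of g h).congr_right (hE.eqF hg _)

/-! ### Names with condition `⊤` -/

/-- The name of the set of the values of a family of names. -/
def fam {ι : Type u} (x : ι → Nm P) : Nm P := mk ι x fun _ => ⊤

theorem memF_fam {ι : Type u} {x : ι → Nm P} {z : Nm P} {r : P} :
    MemF z (fam x) r ↔ ∀ s, s ≤ r → ∃ t, t ≤ s ∧ ∃ i, EqF z (x i) t := by
  refine forall_congr' fun s => imp_congr_right fun _ => exists_congr fun t =>
    and_congr_right fun _ => ?_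
  exact exists_congr fun i => ⟨fun h => h.2, fun h => ⟨le_top, h⟩⟩

theorem memF_fam_self {ι : Type u} (x : ι → Nm P) (i : ι) (r : P) : MemF (x i) (fam x) r :=
  memF_fam.2 fun s _ => ⟨s, le_rfl, i, eqF_refl _ _⟩

/-- A family of names which is invariant under the group of a support. -/
theorem supp_fam {ι : Type u} {x : ι → Nm P} {E : Sys.S Γ P}
    (h : ∀ g : Γ, g ∈ Sys.H (P := P) E → ∀ i, ∀ r, MemF (g • x i) (fam x) r) :
    Supp Γ E (fam x) := supp_of fun g hg i s _ => h g hg i (g • s)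

theorem hs_fam {ι : Type u} {x : ι → Nm P} (hx : ∀ i, HS Γ (x i)) {E : Sys.S Γ P}
    (h : ∀ g : Γ, g ∈ Sys.H (P := P) E → ∀ i, ∀ r, MemF (g • x i) (fam x) r) :
    HS Γ (fam x) := (hs_iff Γ).2 ⟨⟨E, supp_fam h⟩, hx⟩

/-! ### Separation -/

/-- The name of a subset. -/
def subN (a : Nm P) (T : Set (a.Idx × P)) : Nm P :=
  mk {i : a.Idx × P // i.2 ≤ a.cd i.1 ∧ i ∈ T} (fun i => a.nm i.1.1) fun i => i.1.2

/-- The name for the elements of `a` with the property `Q`. -/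
def sepN (Q : Nm P → P → Prop) (a : Nm P) : Nm P := subN a {i | Q (a.nm i.1) i.2}

theorem memF_subN {a z : Nm P} {T : Set (a.Idx × P)} {r : P} (h : MemF z (subN a T) r) :
    MemF z a r := by
  intro s hs
  obtain ⟨t, ht, i, hi, he⟩ := h s hs
  exact ⟨t, ht, i.1.1, hi.trans i.2.1, he⟩

theorem memF_sepN {Q : Nm P → P → Prop} (hm : ∀ x r s, Q x r → s ≤ r → Q x s)
    (hd : ∀ x r, (∀ s, s ≤ r → ∃ t, t ≤ s ∧ Q x t) → Q x r)
    (hc : ∀ x y r, EqF x y r → Q x r → Q y r) {a z : Nm P} {r : P} :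
    MemF z (sepN Q a) r ↔ MemF z a r ∧ Q z r := by
  constructor
  · intro h
    refine ⟨memF_subN h, hd _ _ fun s hs => ?_⟩
    obtain ⟨t, ht, i, hi, he⟩ := h s hs
    exact ⟨t, ht, hc _ _ _ he.symm (hm _ _ _ i.2.2 hi)⟩
  · rintro ⟨h, hQ⟩ s hs
    obtain ⟨t, ht, i, hi, he⟩ := h s hs
    exact ⟨t, ht, ⟨(i, t), hi, hc _ _ _ he (hm _ _ _ hQ (ht.trans hs))⟩, le_rfl, he⟩

theorem hs_sepN {Q : Nm P → P → Prop} (hm : ∀ x r s, Q x r → s ≤ r → Q x s)
    (hd : ∀ x r, (∀ s, s ≤ r → ∃ t, t ≤ s ∧ Q x t) → Q x r)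
    (hc : ∀ x y r, EqF x y r → Q x r → Q y r) {a : Nm P} (ha : HS Γ a) {E : Sys.S Γ P}
    (hE : Supp Γ E a) (hs : ∀ g : Γ, g ∈ Sys.H (P := P) E → ∀ x r, Q x r → Q (g • x) (g • r)) :
    HS Γ (sepN Q a) ∧ Supp Γ E (sepN Q a) := by
  have h1 : Supp Γ E (sepN Q a) := by
    refine supp_of ?_
    rintro g hg ⟨⟨i, p⟩, hi, hQ⟩ s hsi
    change s ≤ p at hsi
    change MemF (g • a.nm i) _ _
    rw [memF_sepN hm hd hc]
    exact ⟨supp_memF hE hg (memF_nm a i (hsi.trans hi)), hs g hg _ _ (hm _ _ _ hQ hsi)⟩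
  exact ⟨(hs_iff Γ).2 ⟨⟨E, h1⟩, fun i => ha.nm i.1.1⟩, h1⟩

/-- Separation. -/
theorem exists_sep {Q : HN Γ P → P → Prop} (hm : ∀ x r s, Q x r → s ≤ r → Q x s)
    (hd : ∀ x r, (∀ s, s ≤ r → ∃ t, t ≤ s ∧ Q x t) → Q x r)
    (hc : ∀ x y r, EqF x.1 y.1 r → Q x r → Q y r) (a : HN Γ P) {E : Sys.S Γ P}
    (hE : Supp Γ E a.1) (hs : ∀ g : Γ, g ∈ Sys.H (P := P) E → ∀ (x y : HN Γ P) r,
      y.1 = g • x.1 → Q x r → Q y (g • r)) :
    ∃ b : HN Γ P, Supp Γ E b.1 ∧ ∀ x : HN Γ P, ∀ r, MemF x.1 b.1 r ↔ MemF x.1 a.1 r ∧ Q x r := by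
  let Q' : Nm P → P → Prop := fun x r =>
    ∀ s, s ≤ r → ∃ t, t ≤ s ∧ ∃ y : HN Γ P, EqF x y.1 t ∧ Q y t
  have hm' : ∀ x r s, Q' x r → s ≤ r → Q' x s := fun x r s h hs t ht => h t (ht.trans hs)
  have hd' : ∀ x r, (∀ s, s ≤ r → ∃ t, t ≤ s ∧ Q' x t) → Q' x r := by
    intro x r h s hs
    obtain ⟨t, ht, h1⟩ := h s hs
    obtain ⟨v, hv, h2⟩ := h1 t le_rfl
    exact ⟨v, hv.trans ht, h2⟩
  have hc' : ∀ x y r, EqF x y r → Q' x r → Q' y r := by
    intro x y r he h s hs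
    obtain ⟨t, ht, z, hz, h1⟩ := h s hs
    exact ⟨t, ht, z, (he.mono (ht.trans hs)).symm.trans hz, h1⟩
  have hs' : ∀ g : Γ, g ∈ Sys.H (P := P) E → ∀ x r, Q' x r → Q' (g • x) (g • r) := by
    intro g hg x r h s hs1
    obtain ⟨t, ht, y, hy, h1⟩ := h (g⁻¹ • s) ((le_smul g _ _).1 hs1)
    exact ⟨g • t, (smul_le g _ _).2 ht, ⟨g • y.1, y.2.smul g⟩, (eqF_smul g).2 hy,
      hs g hg y _ t rfl h1⟩
  have hQ : ∀ (x : HN Γ P) r, Q' x.1 r ↔ Q x r := by
    refine fun x r => ⟨fun h => hd _ _ fun s hs => ?_, fun h s hs => ⟨s, le_rfl, x, eqF_refl _ _,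
      hm _ _ _ h hs⟩⟩
    obtain ⟨t, ht, y, hy, h1⟩ := h s hs
    exact ⟨t, ht, hc _ _ _ hy.symm h1⟩
  obtain ⟨h1, h2⟩ := hs_sepN (Q := Q') hm' hd' hc' a.2 hE hs'
  refine ⟨⟨_, h1⟩, h2, fun x r => ?_⟩
  change MemF x.1 (sepN Q' a.1) r ↔ _
  rw [memF_sepN hm' hd' hc', hQ]

/-! ### Pairs and unions -/

/-- The name of a pair. -/
def pairN (x y : Nm P) : Nm P := fam fun i : ULift Bool => if i.down then x else y

theorem memF_pairN {x y z : Nm P} {r : P} :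
    MemF z (pairN x y) r ↔ ∀ s, s ≤ r → ∃ t, t ≤ s ∧ (EqF z x t ∨ EqF z y t) := by
  rw [pairN, memF_fam]
  refine forall_congr' fun s => imp_congr_right fun _ => exists_congr fun t =>
    and_congr_right fun _ => ?_
  constructor
  · rintro ⟨⟨b⟩, hb⟩
    cases b
    · exact Or.inr hb
    · exact Or.inl hb
  · rintro (h | h)
    · exact ⟨⟨true⟩, h⟩
    · exact ⟨⟨false⟩, h⟩

theorem memF_pairN_left (x y : Nm P) (r : P) : MemF x (pairN x y) r :=
  memF_pairN.2 fun s _ => ⟨s, le_rfl, Or.inl (eqF_refl _ _)⟩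

theorem memF_pairN_right (x y : Nm P) (r : P) : MemF y (pairN x y) r :=
  memF_pairN.2 fun s _ => ⟨s, le_rfl, Or.inr (eqF_refl _ _)⟩

theorem supp_pairN {x y : Nm P} {E : Sys.S Γ P} (hx : Supp Γ E x) (hy : Supp Γ E y) :
    Supp Γ E (pairN x y) := by
  refine supp_fam ?_
  rintro g hg ⟨b⟩ r
  cases b
  · exact (memF_pairN_right x y r).congr_left (hy.eqF hg r).symm
  · exact (memF_pairN_left x y r).congr_left (hx.eqF hg r).symm

theorem hs_pairN {x y : Nm P} (hx : HS Γ x) (hy : HS Γ y) : HS Γ (pairN x y) := by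
  obtain ⟨E, hE⟩ := hx.sym
  obtain ⟨F, hF⟩ := hy.sym
  obtain ⟨K, -, -, h1, h2⟩ := hE.inter hF
  refine (hs_iff Γ).2 ⟨⟨K, supp_pairN h1 h2⟩, fun i => ?_⟩
  change HS Γ (if i.down then x else y)
  split <;> assumption

/-- The name of the union of `a`. -/
def unN (a : Nm P) : Nm P :=
  mk {t : (Σ i : a.Idx, (a.nm i).Idx) × P // t.2 ≤ a.cd t.1.1 ∧ t.2 ≤ (a.nm t.1.1).cd t.1.2}
    (fun t => (a.nm t.1.1.1).nm t.1.1.2) fun t => t.1.2

theorem memF_unN {a z : Nm P} {r : P} : MemF z (unN a) r ↔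
    ∀ s, s ≤ r → ∃ t, t ≤ s ∧ ∃ i, t ≤ a.cd i ∧ MemF z (a.nm i) t := by
  constructor
  · intro h s hs
    obtain ⟨t, ht, ⟨⟨⟨i, j⟩, p⟩, h1, h2⟩, h3, he⟩ := h s hs
    exact ⟨t, ht, i, h3.trans h1, (memF_nm (a.nm i) j (h3.trans h2)).congr_left he.symm⟩
  · intro h s hs
    obtain ⟨t, ht, i, hi, h1⟩ := h s hs
    obtain ⟨v, hv, j, hj, he⟩ := h1 t le_rfl
    exact ⟨v, hv.trans ht, ⟨⟨⟨i, j⟩, v⟩, hv.trans hi, hj⟩, le_rfl, he⟩

theorem memF_unN_of {a y z : Nm P} {r : P} (h : MemF z y r) (h' : MemF y a r) :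
    MemF z (unN a) r := by
  rw [memF_unN]
  intro s hs
  obtain ⟨t, ht, i, hi, he⟩ := h' s hs
  exact ⟨t, ht, i, hi, (h.mono (ht.trans hs)).congr_right he⟩

theorem exists_of_memF_unN {a z : Nm P} {r : P} (h : MemF z (unN a) r) :
    ∃ s, s ≤ r ∧ ∃ i, MemF (a.nm i) a s ∧ MemF z (a.nm i) s := by
  obtain ⟨t, ht, i, hi, h1⟩ := memF_unN.1 h r le_rfl
  exact ⟨t, ht, i, memF_nm a i hi, h1⟩

theorem supp_unN {a : Nm P} {E : Sys.S Γ P} (ha : Supp Γ E a) : Supp Γ E (unN a) := by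
  refine supp_of ?_
  rintro g hg ⟨⟨⟨i, j⟩, p⟩, h1, h2⟩ s hs
  change s ≤ p at hs
  exact memF_unN_of (y := g • a.nm i) (memF_smul_of g (memF_nm _ j (hs.trans h2)))
    (supp_memF ha hg (memF_nm a i (hs.trans h1)))

theorem hs_unN {a : Nm P} (ha : HS Γ a) : HS Γ (unN a) := by
  obtain ⟨E, hE⟩ := ha.sym
  refine (hs_iff Γ).2 ⟨⟨E, supp_unN hE⟩, ?_⟩
  rintro ⟨⟨⟨i, j⟩, p⟩, h⟩
  exact (ha.nm i).nm j

/-! ### Power sets -/

variable (Γ) in
/-- The name of the power set. -/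
def powN (a : Nm P) : Nm P := fam fun T : {T : Set (a.Idx × P) // HS Γ (subN a T)} => subN a T.1

theorem memF_powN {a y : Nm P} (ha : HS Γ a) (hy : HS Γ y) {r : P}
    (h : ∀ z, HS Γ z → ∀ s, s ≤ r → MemF z y s → MemF z a s) : MemF y (powN Γ a) r := by
  obtain ⟨E, hE⟩ := ha.sym
  obtain ⟨F, hF⟩ := hy.sym
  obtain ⟨K, -, -, h1, h2⟩ := hE.inter hF
  have hm : ∀ x r s, MemF x y r → s ≤ r → MemF x y s := fun x r s h hs => h.mono hs
  have hd : ∀ x r, (∀ s, s ≤ r → ∃ t, t ≤ s ∧ MemF x y t) → MemF x y r :=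
    fun x r h => memF_of_dense h
  have hc : ∀ x z r, EqF x z r → MemF x y r → MemF z y r := fun x z r he h => h.congr_left he
  have h3 := hs_sepN (Q := fun x r => MemF x y r) hm hd hc ha h1
    (fun g hg x r h => supp_memF h2 hg h)
  have h4 : MemF (sepN (fun x r => MemF x y r) a) (powN Γ a) r :=
    memF_fam_self (fun T : {T : Set (a.Idx × P) // HS Γ (subN a T)} => subN a T.1)
      ⟨{i | MemF (a.nm i.1) y i.2}, h3.1⟩ r
  refine h4.congr_left ?_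
  refine (eqF_of_mem (C := HS Γ) (fun i => hy.nm i) (fun i => h3.1.nm i) ?_).symm
  intro z hz s hs
  rw [memF_sepN hm hd hc]
  exact ⟨fun h4 => ⟨h z hz s hs h4, h4⟩, fun h4 => h4.2⟩

theorem memF_powN_sub {a y : Nm P} {r : P} (h : MemF y (powN Γ a) r) {z : Nm P}
    (hz : MemF z y r) : MemF z a r := by
  refine memF_of_dense fun s hs => ?_
  obtain ⟨t, ht, T, he⟩ := memF_fam.1 h s hs
  exact ⟨t, ht, memF_subN ((hz.mono (ht.trans hs)).congr_right he)⟩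

theorem supp_powN {a : Nm P} (ha : HS Γ a) {E : Sys.S Γ P} (hE : Supp Γ E a) :
    Supp Γ E (powN Γ a) := by
  refine supp_fam ?_
  rintro g hg ⟨T, hT⟩ r
  refine memF_powN ha (hT.smul g) fun z _ s _ h => ?_
  have h1 := memF_smul_of g⁻¹ h
  rw [inv_smul_smul] at h1
  have h2 := supp_memF hE hg (memF_subN h1)
  rwa [smul_inv_smul, smul_inv_smul] at h2

theorem hs_powN {a : Nm P} (ha : HS Γ a) : HS Γ (powN Γ a) := by
  obtain ⟨E, hE⟩ := ha.sym
  exact (hs_iff Γ).2 ⟨⟨E, supp_powN ha hE⟩, fun i => i.2⟩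

/-! ### Collection -/

/-- The name of the set of all images of the values of a family of names. -/
def orbN {ι : Type u} (x : ι → Nm P) : Nm P := fam fun i : ι × Γ => i.2 • x i.1

theorem supp_orbN {ι : Type u} (x : ι → Nm P) (E : Sys.S Γ P) : Supp Γ E (orbN (Γ := Γ) x) := by
  refine supp_fam ?_
  rintro g - ⟨i, h⟩ r
  change MemF (g • h • x i) _ r
  rw [← mul_smul]
  exact memF_fam_self (fun i : ι × Γ => i.2 • x i.1) (i, g * h) r

theorem hs_orbN {ι : Type u} {x : ι → Nm P} (hx : ∀ i, HS Γ (x i)) :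
    HS Γ (orbN (Γ := Γ) x) :=
  (hs_iff Γ).2 ⟨⟨(Sys.nonempty (Γ := Γ) (P := P)).some, supp_orbN x _⟩,
    fun i => (hx i.1).smul i.2⟩

/-- Collection. -/
theorem exists_coll (Q : HN Γ P → HN Γ P → P → Prop)
    (hc : ∀ x x' y r, EqF x.1 x'.1 r → Q x y r → Q x' y r)
    (hm : ∀ x y r s, Q x y r → s ≤ r → Q x y s) (a : HN Γ P) :
    ∃ b : HN Γ P, ∀ (x : HN Γ P) (r : P), MemF x.1 a.1 r → (∃ y, Q x y r) →
      ∃ s, s ≤ r ∧ ∃ y, Q x y s ∧ MemF y.1 b.1 s := by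
  classical
  let ι : Type u := {i : a.1.Idx × P // ∃ y, Q ⟨a.1.nm i.1, a.2.nm i.1⟩ y i.2}
  let x : ι → Nm P := fun i => i.2.choose.1
  have hx : ∀ i, HS Γ (x i) := fun i => i.2.choose.2
  refine ⟨⟨orbN (Γ := Γ) x, hs_orbN hx⟩, fun z r hz hy => ?_⟩
  obtain ⟨y, hy⟩ := hy
  obtain ⟨t, ht, i, hi, he⟩ := hz r le_rfl
  have h1 : ∃ y, Q ⟨a.1.nm i, a.2.nm i⟩ y t := ⟨y, hc _ _ _ _ he (hm _ _ _ _ hy ht)⟩
  have h2 := h1.choose_spec
  refine ⟨t, ht, h1.choose, hc _ _ _ _ (EqF.symm he) h2, ?_⟩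
  have h3 := memF_fam_self (fun i : ι × Γ => i.2 • x i.1) (⟨(i, t), h1⟩, 1) t
  rw [one_smul] at h3
  exact h3

/-! ### Infinity -/

/-- The name of the empty set. -/
def emN : Nm P := fam fun i : PEmpty.{u + 1} => i.elim

theorem not_memF_emN {z : Nm P} {r : P} : ¬ MemF z emN r := by
  intro h
  obtain ⟨t, -, i, -⟩ := h r le_rfl
  exact PEmpty.elim i

theorem smul_emN (g : Γ) : g • (emN : Nm P) = emN := by
  unfold emN fam
  rw [smul_mk]
  congr 1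
  · funext i; exact i.elim
  · funext i; exact i.elim

/-- The name of the successor. -/
def succN (y : Nm P) : Nm P :=
  mk (Option y.Idx) (fun i => i.elim y y.nm) fun i => i.elim ⊤ y.cd

theorem memF_succN {z y : Nm P} {r : P} : MemF z (succN y) r ↔
    ∀ s, s ≤ r → ∃ t, t ≤ s ∧ (MemF z y t ∨ EqF z y t) := by
  constructor
  · intro h s hs
    obtain ⟨t, ht, i, hi, he⟩ := h s hs
    rcases i with _ | i
    · exact ⟨t, ht, Or.inr he⟩
    · exact ⟨t, ht, Or.inl ((memF_nm y i hi).congr_left (EqF.symm he))⟩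
  · intro h s hs
    obtain ⟨t, ht, h1 | h1⟩ := h s hs
    · obtain ⟨v, hv, i, hi, he⟩ := h1 t le_rfl
      exact ⟨v, hv.trans ht, some i, hi, he⟩
    · exact ⟨t, ht, none, le_top, h1⟩

theorem memF_succN_self (y : Nm P) (r : P) : MemF y (succN y) r :=
  memF_succN.2 fun s _ => ⟨s, le_rfl, Or.inr (eqF_refl _ _)⟩

theorem smul_succN_eqF (g : Γ) (y : Nm P) (r : P) : EqF (g • succN y) (succN (g • y)) r := by
  refine eqF_of_mem (C := fun _ => True) (fun _ => trivial) (fun _ => trivial) fun z _ s _ => ?_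
  rw [← smul_inv_smul g s, ← smul_inv_smul g z, memF_smul, memF_succN, memF_succN]
  constructor
  · intro h t ht
    obtain ⟨v, hv, h1⟩ := h (g⁻¹ • t) ((le_smul g _ _).1 ht)
    refine ⟨g • v, (smul_le g _ _).2 hv, ?_⟩
    rwa [memF_smul, eqF_smul]
  · intro h t ht
    obtain ⟨v, hv, h1⟩ := h (g • t) ((smul_le_iff g _ _).2 ht)
    refine ⟨g⁻¹ • v, (le_smul g _ _ |>.1) ?_, ?_⟩
    · exact hv
    · rw [← smul_inv_smul g v, memF_smul, eqF_smul] at h1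
      exact h1

/-- The name of a natural number. -/
def natN : ℕ → Nm P
  | 0 => emN
  | n + 1 => succN (natN n)

theorem succN_congr {x y : Nm P} {r : P} (h : EqF x y r) : EqF (succN x) (succN y) r := by
  refine eqF_of_mem (C := fun _ => True) (fun _ => trivial) (fun _ => trivial) fun z _ s hs => ?_
  rw [memF_succN, memF_succN]
  constructor
  · intro h1 t ht
    obtain ⟨v, hv, h2⟩ := h1 t ht
    have h3 := h.mono ((hv.trans ht).trans hs)
    exact ⟨v, hv, h2.imp (fun h => h.congr_right h3) fun h => h.trans h3⟩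
  · intro h1 t ht
    obtain ⟨v, hv, h2⟩ := h1 t ht
    have h3 := (h.mono ((hv.trans ht).trans hs)).symm
    exact ⟨v, hv, h2.imp (fun h => h.congr_right h3) fun h => h.trans h3⟩

theorem smul_natN (g : Γ) (n : ℕ) (r : P) : EqF (g • (natN n : Nm P)) (natN n) r := by
  induction n generalizing r with
  | zero =>
    change EqF (g • emN) emN r
    rw [smul_emN]
    exact eqF_refl _ _
  | succ n ih => exact (smul_succN_eqF g _ r).trans (succN_congr (ih r))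

theorem hs_emN : HS Γ (emN : Nm P) := by
  refine (hs_iff Γ).2 ⟨⟨(Sys.nonempty (Γ := Γ) (P := P)).some, fun g _ => ?_⟩, fun i => ?_⟩
  · rw [smul_emN]; exact eqF_refl _ _
  · exact PEmpty.elim i

theorem supp_succN {y : Nm P} {E : Sys.S Γ P} (hE : Supp Γ E y) : Supp Γ E (succN y) :=
  fun g hg => (smul_succN_eqF g y ⊤).trans (succN_congr (hE g hg))

theorem hs_succN {y : Nm P} (hy : HS Γ y) : HS Γ (succN y) := by
  obtain ⟨E, hE⟩ := hy.sym
  refine (hs_iff Γ).2 ⟨⟨E, supp_succN hE⟩, fun i => ?_⟩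
  rcases i with _ | i
  · exact hy
  · exact hy.nm i

theorem hs_natN (n : ℕ) : HS Γ (natN n : Nm P) := by
  induction n with
  | zero => exact hs_emN
  | succ n ih => exact hs_succN ih

/-- The name of `ω`. -/
def omN : Nm P := fam fun n : ULift.{u} ℕ => natN n.down

theorem supp_omN (E : Sys.S Γ P) : Supp Γ E (omN : Nm P) :=
  supp_fam fun g _ i r => (memF_fam_self _ i r).congr_left (smul_natN g i.down r).symm

theorem hs_omN : HS Γ (omN : Nm P) :=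
  (hs_iff Γ).2 ⟨⟨(Sys.nonempty (Γ := Γ) (P := P)).some, supp_omN _⟩, fun i => hs_natN i.down⟩

theorem memF_omN {z : Nm P} {r : P} : MemF z omN r ↔
    ∀ s, s ≤ r → ∃ t, t ≤ s ∧ ∃ n : ℕ, EqF z (natN n) t := by
  rw [omN, memF_fam]
  refine forall_congr' fun s => imp_congr_right fun _ => exists_congr fun t =>
    and_congr_right fun _ => ?_
  exact ⟨fun ⟨n, h⟩ => ⟨n.down, h⟩, fun ⟨n, h⟩ => ⟨⟨n⟩, h⟩⟩

theorem memF_natN_omN (n : ℕ) (r : P) : MemF (natN n : Nm P) omN r :=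
  memF_fam_self (fun n : ULift.{u} ℕ => (natN n.down : Nm P)) ⟨n⟩ r

theorem succN_memF_omN {y : Nm P} {r : P} (h : MemF y omN r) : MemF (succN y) omN r := by
  rw [memF_omN] at h ⊢
  intro s hs
  obtain ⟨t, ht, n, hn⟩ := h s hs
  exact ⟨t, ht, n + 1, succN_congr hn⟩

/-! ### Foundation -/

theorem exists_minF (x : Nm P) (y : Nm P) : HS Γ y → ∀ r, MemF y x r → ∃ s, s ≤ r ∧ ∃ y', HS Γ y' ∧
    MemF y' x s ∧ ∀ z t, t ≤ s → MemF z y' t → ¬ MemF z x t := by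
  induction y using Nm.ind with
  | h y ih =>
    intro hy r h
    by_cases h1 : ∀ z t, t ≤ r → MemF z y t → ¬ MemF z x t
    · exact ⟨r, le_rfl, y, hy, h, h1⟩
    · push Not at h1
      obtain ⟨z, t, ht, hz, hzx⟩ := h1
      obtain ⟨v, hv, i, -, he⟩ := hz t le_rfl
      obtain ⟨s, hs, h2⟩ := ih i (hy.nm i) v ((hzx.mono hv).congr_left he)
      exact ⟨s, (hs.trans hv).trans ht, h2⟩

end Pool.Agent.ZFW.Ax
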