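import Pool.Agent.ZFW.GenB
import Pool.Agent.ZFW.ZfF
import Pool.Agent.GL.Defs

/-!
The model given by the hereditarily symmetric names is a model of ZF.
-/

universe u v

set_option linter.unusedSectionVars false

namespace Pool.Agent.ZFW.Ax

open Pool.Agent.ZFW Pool.Agent.SigB Pool.Agent.Frc Nm

/-! ### Formulas -/

section

variable {X : Type v}

/-- Implication. -/
def fImp {n : ℕ} (φ ψ : Fml X n) : Fml X n := .neg (.and φ (.neg ψ))

/-- Equivalence. -/
def fIff {n : ℕ} (φ ψ : Fml X n) : Fml X n := .and (fImp φ ψ) (fImp ψ φ)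

/-- Disjunction. -/
def fOr {n : ℕ} (φ ψ : Fml X n) : Fml X n := .neg (.and (.neg φ) (.neg ψ))

/-- Universal quantification. -/
def fAll {n : ℕ} (φ : Fml X (n + 1)) : Fml X n := .neg (.ex (.neg φ))

theorem mapP_imp {Y : Type v} (f : X → Y) {n : ℕ} (φ ψ : Fml X n) :
    mapP f (fImp φ ψ) = fImp (mapP f φ) (mapP f ψ) := rfl

theorem mapP_iff {Y : Type v} (f : X → Y) {n : ℕ} (φ ψ : Fml X n) :
    mapP f (fIff φ ψ) = fIff (mapP f φ) (mapP f ψ) := rfl

theorem mapP_or {Y : Type v} (f : X → Y) {n : ℕ} (φ ψ : Fml X n) :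
    mapP f (fOr φ ψ) = fOr (mapP f φ) (mapP f ψ) := rfl

theorem mapP_all {Y : Type v} (f : X → Y) {n : ℕ} (φ : Fml X (n + 1)) :
    mapP f (fAll φ) = fAll (mapP f φ) := rfl

theorem mapP_neg {Y : Type v} (f : X → Y) {n : ℕ} (φ : Fml X n) :
    mapP f (.neg φ) = .neg (mapP f φ) := rfl

theorem mapP_and {Y : Type v} (f : X → Y) {n : ℕ} (φ ψ : Fml X n) :
    mapP f (.and φ ψ) = .and (mapP f φ) (mapP f ψ) := rfl

theorem mapP_ex {Y : Type v} (f : X → Y) {n : ℕ} (φ : Fml X (n + 1)) :
    mapP f (.ex φ) = .ex (mapP f φ) := rfl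

theorem mapP_mem {Y : Type v} (f : X → Y) {n : ℕ} (s t : Fin n ⊕ X) :
    mapP f (.mem s t) = .mem (Sum.map id f s) (Sum.map id f t) := rfl

theorem mapP_eq {Y : Type v} (f : X → Y) {n : ℕ} (s t : Fin n ⊕ X) :
    mapP f (.eq s t) = .eq (Sum.map id f s) (Sum.map id f t) := rfl

theorem mapP_ren' {Y : Type v} (f : X → Y) : ∀ {n m : ℕ} (φ : Fml X n) (g : Fin n → Fin m),
    mapP f (φ.ren g) = (mapP f φ).ren g
  | _, _, .mem s t, g => by
    show Fml.mem (Sum.map id f (Sum.map g id s)) (Sum.map id f (Sum.map g id t)) =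
      Fml.mem (Sum.map g id (Sum.map id f s)) (Sum.map g id (Sum.map id f t))
    rcases s with s | s <;> rcases t with t | t <;> rfl
  | _, _, .eq s t, g => by
    show Fml.eq (Sum.map id f (Sum.map g id s)) (Sum.map id f (Sum.map g id t)) =
      Fml.eq (Sum.map g id (Sum.map id f s)) (Sum.map g id (Sum.map id f t))
    rcases s with s | s <;> rcases t with t | t <;> rfl
  | _, _, .neg φ, g => congrArg Fml.neg (mapP_ren' f φ g)
  | _, _, .and φ ψ, g => congrArg₂ Fml.and (mapP_ren' f φ g) (mapP_ren' f ψ g)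
  | _, _, .ex φ, g => congrArg Fml.ex (mapP_ren' f φ (liftRen g))

end

section

variable {W : Type v} [Membership W W] {n : ℕ} {v : Fin n → W}

theorem sat_neg {φ : Fml W n} : (Fml.neg φ).Sat v ↔ ¬ φ.Sat v := Iff.rfl

theorem sat_and {φ ψ : Fml W n} : (Fml.and φ ψ).Sat v ↔ φ.Sat v ∧ ψ.Sat v := Iff.rfl

theorem sat_ex {φ : Fml W (n + 1)} : (Fml.ex φ).Sat v ↔ ∃ x, φ.Sat (Fin.cons x v) := Iff.rfl

theorem sat_mem {s t : Fin n ⊕ W} :
    (Fml.mem s t).Sat v ↔ Sum.elim v id s ∈ Sum.elim v id t := Iff.rfl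

theorem sat_eq {s t : Fin n ⊕ W} :
    (Fml.eq s t).Sat v ↔ Sum.elim v id s = Sum.elim v id t := Iff.rfl

theorem sat_imp {φ ψ : Fml W n} : (fImp φ ψ).Sat v ↔ (φ.Sat v → ψ.Sat v) := by
  unfold fImp
  rw [sat_neg, sat_and, sat_neg]
  tauto

theorem sat_iff {φ ψ : Fml W n} : (fIff φ ψ).Sat v ↔ (φ.Sat v ↔ ψ.Sat v) := by
  unfold fIff
  rw [sat_and, sat_imp, sat_imp]
  tauto

theorem sat_or {φ ψ : Fml W n} : (fOr φ ψ).Sat v ↔ (φ.Sat v ∨ ψ.Sat v) := by
  unfold fOr
  rw [sat_neg, sat_and, sat_neg, sat_neg]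
  tauto

theorem sat_all {φ : Fml W (n + 1)} : (fAll φ).Sat v ↔ ∀ x, φ.Sat (Fin.cons x v) := by
  unfold fAll
  rw [sat_neg, sat_ex, not_exists]
  exact forall_congr' fun x => not_not

end

section

variable {P : Type u} [Preorder P] {X : Type v} (A : Atm P X) {n : ℕ} {v : Fin n → X} {p : P}

theorem fc_imp' {φ ψ : Fml X n} :
    Fc A (fImp φ ψ) p v ↔ ∀ q ≤ p, Fc A φ q v → Fc A ψ q v := fc_imp A

theorem fc_all' {φ : Fml X (n + 1)} : Fc A (fAll φ) p v ↔ ∀ x, Fc A φ p (Fin.cons x v) := fc_all A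

theorem fc_or' {φ ψ : Fml X n} :
    Fc A (fOr φ ψ) p v ↔ ∀ q ≤ p, ∃ r ≤ q, Fc A φ r v ∨ Fc A ψ r v := fc_or A

theorem fc_iff' {φ ψ : Fml X n} :
    Fc A (fIff φ ψ) p v ↔ ∀ q ≤ p, (Fc A φ q v ↔ Fc A ψ q v) := by
  unfold fIff
  rw [fc_and, fc_imp', fc_imp']
  exact ⟨fun h q hq => ⟨h.1 q hq, h.2 q hq⟩, fun h => ⟨fun q hq => (h q hq).1,
    fun q hq => (h q hq).2⟩⟩

theorem fc_ex_of {φ : Fml X (n + 1)} (x : X) (h : Fc A φ p (Fin.cons x v)) :
    Fc A (.ex φ) p v := fun q hq => ⟨q, le_rfl, x, fc_mono A φ h hq⟩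

theorem fc_ren : ∀ {n m : ℕ} (φ : Fml X n) (f : Fin n → Fin m) {p : P} {v : Fin m → X},
    Fc A (φ.ren f) p v ↔ Fc A φ p (fun i => v (f i))
  | _, _, .mem s t, f, p, v => by
    show A.memF p (Sum.elim v id (Sum.map f id s)) (Sum.elim v id (Sum.map f id t)) ↔
      A.memF p (Sum.elim (fun i => v (f i)) id s) (Sum.elim (fun i => v (f i)) id t)
    rcases s with s | s <;> rcases t with t | t <;> rfl
  | _, _, .eq s t, f, p, v => by
    show A.eqF p (Sum.elim v id (Sum.map f id s)) (Sum.elim v id (Sum.map f id t)) ↔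
      A.eqF p (Sum.elim (fun i => v (f i)) id s) (Sum.elim (fun i => v (f i)) id t)
    rcases s with s | s <;> rcases t with t | t <;> rfl
  | _, _, .neg φ, f, p, v => forall_congr' fun q => imp_congr_right fun _ =>
      not_congr (fc_ren φ f)
  | _, _, .and φ ψ, f, p, v => and_congr (fc_ren φ f) (fc_ren ψ f)
  | _, _, .ex φ, f, p, v => by
    refine forall_congr' fun q => imp_congr_right fun _ => exists_congr fun r =>
      and_congr_right fun _ => exists_congr fun x => ?_
    show Fc A (φ.ren (liftRen f)) r (Fin.cons x v) ↔ Fc A φ r (Fin.cons x fun i => v (f i))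
    rw [fc_ren φ (liftRen f)]
    have : (fun i => (Fin.cons x v : Fin _ → X) (liftRen f i)) =
        Fin.cons x fun i => v (f i) := by
      funext i
      refine Fin.cases ?_ (fun i => ?_) i <;> simp [liftRen]
    rw [this]

end

/-! ### The axioms of ZF -/

section

variable {Γ P : Type u} [Group Γ] [Preorder P] [OrderTop P] [Sys Γ P]
variable {S : HN Γ P → Prop} {G : Set P} {W : Type (u + 1)} [Membership W W]
  {val : {x : HN Γ P // S x} → W}

/-- A sentence which is forced by all conditions is true in the model. -/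
theorem true_of (hV : Val (hn Γ P) S G val) (φ : Fml {x : HN Γ P // S x} 0)
    (h : ∀ p, Fc (hn Γ P) (mapP Subtype.val φ) p ![]) : (mapP val φ).Sat ![] := by
  obtain ⟨p, hp⟩ := hV.gd.ne
  exact (hV.truth₀ φ).2 ⟨p, hp, h p⟩

/-- The model satisfies the axioms of ZF. -/
theorem isZF (hV : Val (hn Γ P) S G val) :
    GL.IsZF W where
  ext x y h := by
    obtain ⟨x, rfl⟩ := hV.surj x
    obtain ⟨y, rfl⟩ := hV.surj y
    have h1 := true_of hV (fImp (fAll (fIff (.mem (.inl 0) (.inr x)) (.mem (.inl 0) (.inr y))))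
      (.eq (.inr x) (.inr y))) (by
        intro p
        rw [mapP_imp, fc_imp']
        intro q _ h1
        refine hn_ext fun z r hr => ?_
        rw [mapP_all, fc_all'] at h1
        have h2 := h1 z
        rw [mapP_iff, fc_iff'] at h2
        exact h2 r hr)
    rw [mapP_imp, sat_imp, mapP_all, sat_all] at h1
    exact h1 fun z => by
      rw [mapP_iff, sat_iff]
      exact h z
  found x hx := by
    obtain ⟨x, rfl⟩ := hV.surj x
    have h1 := true_of hV (fImp (.ex (.mem (.inl 0) (.inr x)))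
      (.ex (.and (.mem (.inl 0) (.inr x))
        (fAll (fImp (.mem (.inl 0) (.inl 1)) (.neg (.mem (.inl 0) (.inr x)))))))) (by
        intro p
        rw [mapP_imp, fc_imp']
        intro q _ h1 s hs
        obtain ⟨r, hr, y, hy⟩ := h1 s hs
        obtain ⟨t, ht, y', hy', h2, h3⟩ := exists_minF x.1.1 y.1 y.2 r hy
        refine ⟨t, ht.trans hr, ⟨y', hy'⟩, h2, ?_⟩
        rw [mapP_all, fc_all']
        intro z
        rw [mapP_imp, fc_imp']
        intro v hv hz w hw hw'
        exact h3 z.1 w (hw.trans hv) (MemF.mono hz hw) hw')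
    rw [mapP_imp, sat_imp] at h1
    obtain ⟨y, hy, h2⟩ := h1 hx
    refine ⟨y, hy, fun z hz => ?_⟩
    rw [mapP_all, sat_all] at h2
    have h3 := h2 z
    rw [mapP_imp, sat_imp] at h3
    exact h3 hz
  pairing x y := by
    obtain ⟨x, rfl⟩ := hV.surj x
    obtain ⟨y, rfl⟩ := hV.surj y
    exact true_of hV (.ex (.and (.mem (.inr x) (.inl 0)) (.mem (.inr y) (.inl 0))))
      fun p => fc_ex_of _ (⟨pairN x.1.1 y.1.1, hs_pairN x.1.2 y.1.2⟩ : HN Γ P)
        ⟨memF_pairN_left _ _ p, memF_pairN_right _ _ p⟩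
  union x := by
    obtain ⟨x, rfl⟩ := hV.surj x
    have h1 := true_of hV (.ex (fAll (fAll (fImp (.mem (.inl 0) (.inl 1))
      (fImp (.mem (.inl 1) (.inr x)) (.mem (.inl 0) (.inl 2))))))) fun p =>
        fc_ex_of _ (⟨unN x.1.1, hs_unN x.1.2⟩ : HN Γ P) (by
          rw [mapP_all, fc_all']
          intro y
          rw [mapP_all, fc_all']
          intro z
          rw [mapP_imp, fc_imp']
          intro q _ hz
          rw [mapP_imp, fc_imp']
          intro r hr hy
          exact memF_unN_of (MemF.mono hz hr) hy)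
    obtain ⟨w, hw⟩ := h1
    refine ⟨w, fun y z hz hy => ?_⟩
    rw [mapP_all, sat_all] at hw
    have h2 := hw y
    rw [mapP_all, sat_all] at h2
    have h3 := h2 z
    rw [mapP_imp, sat_imp, mapP_imp, sat_imp] at h3
    exact h3 hz hy
  power x := by
    obtain ⟨x, rfl⟩ := hV.surj x
    have h1 := true_of hV (.ex (fAll (fImp (fAll (fImp (.mem (.inl 0) (.inl 1))
      (.mem (.inl 0) (.inr x)))) (.mem (.inl 0) (.inl 1))))) fun p =>
        fc_ex_of _ (⟨powN Γ x.1.1, hs_powN x.1.2⟩ : HN Γ P) (by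
          rw [mapP_all, fc_all']
          intro y
          rw [mapP_imp, fc_imp']
          intro q _ h1
          refine memF_powN x.1.2 y.2 fun z hz s hs h2 => ?_
          rw [mapP_all, fc_all'] at h1
          have h3 := h1 ⟨z, hz⟩
          rw [mapP_imp, fc_imp'] at h3
          exact h3 s hs h2)
    obtain ⟨w, hw⟩ := h1
    refine ⟨w, fun y hy => ?_⟩
    rw [mapP_all, sat_all] at hw
    have h2 := hw y
    rw [mapP_imp, sat_imp] at h2
    refine h2 ?_
    rw [mapP_all, sat_all]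
    intro z
    rw [mapP_imp, sat_imp]
    exact hy z
  infinity := by
    have h1 := true_of hV (.ex (.and
      (.ex (.and (.mem (.inl 0) (.inl 1)) (fAll (.neg (.mem (.inl 0) (.inl 1))))))
      (fAll (fImp (.mem (.inl 0) (.inl 1)) (.ex (.and (.mem (.inl 0) (.inl 2))
        (fAll (fIff (.mem (.inl 0) (.inl 1)) (fOr (.mem (.inl 0) (.inl 2))
          (.eq (.inl 0) (.inl 2)))))))))))
      fun p => fc_ex_of _ (⟨omN, hs_omN⟩ : HN Γ P) ⟨fc_ex_of _ (⟨emN, hs_emN⟩ : HN Γ P)
        ⟨memF_natN_omN 0 p, by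
          rw [mapP_all, fc_all']
          intro z q _ h
          exact not_memF_emN h⟩, by
        rw [mapP_all, fc_all']
        intro y
        rw [mapP_imp, fc_imp']
        intro q _ hy
        refine fc_ex_of _ (⟨succN y.1, hs_succN y.2⟩ : HN Γ P) ⟨succN_memF_omN hy, ?_⟩
        rw [mapP_all, fc_all']
        intro z
        rw [mapP_iff, fc_iff', mapP_or]
        intro r _
        rw [fc_or']
        exact memF_succN⟩
    obtain ⟨w, ⟨e, he, he'⟩, hw⟩ := h1
    refine ⟨w, ⟨e, he, ?_⟩, fun y hy => ?_⟩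
    · rw [mapP_all, sat_all] at he'
      exact he'
    · rw [mapP_all, sat_all] at hw
      have h2 := hw y
      rw [mapP_imp, sat_imp] at h2
      obtain ⟨s, hs, hs'⟩ := h2 hy
      refine ⟨s, hs, fun z => ?_⟩
      rw [mapP_all, sat_all] at hs'
      have h3 := hs' z
      rw [mapP_iff, sat_iff, mapP_or, sat_or] at h3
      exact h3
  separation φ a := by
    obtain ⟨a, rfl⟩ := hV.surj a
    obtain ⟨φ, rfl⟩ := exists_mapP hV.surj φ
    have h1 := true_of hV (.ex (fAll (fIff (.mem (.inl 0) (.inl 1))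
      (.and (.mem (.inl 0) (.inr a)) (φ.ren ![0]))))) (by
        intro p
        obtain ⟨E, ψ, hψ⟩ := exists_supp_fml (mapP Subtype.val φ)
        obtain ⟨F, hF⟩ := a.1.exists_supp
        obtain ⟨K, hKE, hKF⟩ := Sys.inter (P := P) E F
        obtain ⟨b, -, hb⟩ := exists_sep (Q := fun x r => Fc (hn Γ P) (mapP Subtype.val φ) r ![x])
          (fun x r s h hs => fc_mono _ _ h hs) (fun x r h => fc_dense _ _ h)
          (fun x y r h h' => (fc_congr_var (hn Γ P) (mapP Subtype.val φ) (v := ![x]) (w := ![y])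
            (fun i => by
              rw [Subsingleton.elim i 0]
              exact h)).1 h') a.1 (Nm.Supp.mono hKF hF)
          (by
            intro g hg x y r hxy h
            have h1 := (fc_smul_fix (hKE hg) ψ (a := Subtype.val) (fun i => i.2)
              (v := ![x]) (p := r)).2 (by rw [← hψ]; exact h)
            rw [← hψ] at h1
            have h2 : (fun i => g • (![x] : Fin 1 → HN Γ P) i) = ![y] := by
              funext i
              rw [Subsingleton.elim i 0]
              exact (Subtype.ext hxy).symm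
            rwa [h2] at h1)
        refine fc_ex_of _ b ?_
        rw [mapP_all, fc_all']
        intro x
        rw [mapP_iff, fc_iff', mapP_and, mapP_ren']
        intro q _
        rw [fc_and, fc_ren]
        have h2 : (fun i => (Fin.cons x (Fin.cons b ![]) : Fin 2 → HN Γ P)
            ((![0] : Fin 1 → Fin 2) i)) = ![x] := by
          funext i
          rw [Subsingleton.elim i 0]
          rfl
        rw [h2]
        exact hb x q)
    obtain ⟨b, hb⟩ := h1
    refine ⟨b, fun x => ?_⟩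
    rw [mapP_all, sat_all] at hb
    have h2 := hb x
    rw [mapP_iff, sat_iff, mapP_and, mapP_ren', sat_and, Fml.sat_ren] at h2
    have h3 : (fun i => (Fin.cons x (Fin.cons b ![]) : Fin 2 → W)
        ((![0] : Fin 1 → Fin 2) i)) = ![x] := by
      funext i
      rw [Subsingleton.elim i 0]
      rfl
    rw [h3] at h2
    exact h2
  replacement φ a h := by
    obtain ⟨a, rfl⟩ := hV.surj a
    obtain ⟨φ, rfl⟩ := exists_mapP hV.surj φ
    have h1 := true_of hV (fImp (fAll (fImp (.mem (.inl 0) (.inr a)) (.ex (φ.ren ![1, 0]))))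
      (.ex (fAll (fImp (.mem (.inl 0) (.inr a)) (.ex (.and (.mem (.inl 0) (.inl 2))
        (φ.ren ![1, 0]))))))) (by
        intro p
        rw [mapP_imp, fc_imp']
        intro q _ h1
        rw [mapP_all, fc_all'] at h1
        obtain ⟨b, hb⟩ := exists_coll (fun x y r => Fc (hn Γ P) (mapP Subtype.val φ) r ![x, y])
          (fun x x' y r h h' => (fc_congr_var (hn Γ P) (mapP Subtype.val φ) (v := ![x, y])
            (w := ![x', y]) (fun i => by
              fin_cases i
              · exact h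
              · exact (hn Γ P).eq_refl _ _)).1 h')
          (fun x y r s h hs => fc_mono _ _ h hs) a.1
        refine fc_ex_of _ b ?_
        rw [mapP_all, fc_all']
        intro x
        rw [mapP_imp, fc_imp']
        intro r hr hx s hs
        have h2 := h1 x
        rw [mapP_imp, fc_imp'] at h2
        obtain ⟨t, ht, y, hy⟩ := h2 r hr hx s hs
        rw [mapP_ren', fc_ren] at hy
        have h3 : ∀ (b : HN Γ P), (fun i => (Fin.cons y (Fin.cons x (Fin.cons b ![])) :
            Fin 3 → HN Γ P) ((![1, 0] : Fin 2 → Fin 3) i)) = ![x, y] := by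
          intro b
          funext i
          fin_cases i <;> rfl
        have h4 : (fun i => (Fin.cons y (Fin.cons x ![]) :
            Fin 2 → HN Γ P) ((![1, 0] : Fin 2 → Fin 2) i)) = ![x, y] := by
          funext i
          fin_cases i <;> rfl
        rw [h4] at hy
        obtain ⟨u, hu, z, hz, hzb⟩ := hb x t (MemF.mono hx (ht.trans hs)) ⟨y, hy⟩
        refine ⟨u, hu.trans ht, z, hzb, ?_⟩
        rw [mapP_ren', fc_ren]
        have h5 : (fun i => (Fin.cons z (Fin.cons x (Fin.cons b ![])) :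
            Fin 3 → HN Γ P) ((![1, 0] : Fin 2 → Fin 3) i)) = ![x, z] := by
          funext i
          fin_cases i <;> rfl
        rw [h5]
        exact hz)
    rw [mapP_imp, sat_imp] at h1
    obtain ⟨b, hb⟩ := h1 (by
      rw [mapP_all, sat_all]
      intro x
      rw [mapP_imp, sat_imp]
      intro hx
      obtain ⟨y, hy, -⟩ := h x hx
      refine ⟨y, ?_⟩
      rw [mapP_ren', Fml.sat_ren]
      have h4 : (fun i => (Fin.cons y (Fin.cons x ![]) :
          Fin 2 → W) ((![1, 0] : Fin 2 → Fin 2) i)) = ![x, y] := by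
        funext i
        fin_cases i <;> rfl
      rw [h4]
      exact hy)
    refine ⟨b, fun x hx => ?_⟩
    rw [mapP_all, sat_all] at hb
    have h2 := hb x
    rw [mapP_imp, sat_imp] at h2
    obtain ⟨y, hy, hy'⟩ := h2 hx
    refine ⟨y, hy, ?_⟩
    rw [mapP_ren', Fml.sat_ren] at hy'
    have h4 : (fun i => (Fin.cons y (Fin.cons x (Fin.cons b ![])) :
        Fin 3 → W) ((![1, 0] : Fin 2 → Fin 3) i)) = ![x, y] := by
      funext i
      fin_cases i <;> rfl
    rw [h4] at hy'
    exact hy'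

end

end Pool.Agent.ZFW.Ax

namespace Pool.Agent.ZFW

/-- The model satisfies the axioms of ZF. -/
theorem Val.isZF {Γ P : Type u} [Group Γ] [Preorder P] [OrderTop P] [Sys Γ P]
    {S : HN Γ P → Prop} {G : Set P} {W : Type (u + 1)} [Membership W W]
    {val : {x : HN Γ P // S x} → W} (hV : Val (hn Γ P) S G val) : GL.IsZF W := Ax.isZF hV

end Pool.Agent.ZFW
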