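import Pool.Agent.ZFW.Ctx
import Pool.Agent.ZFW.Zf
import Pool.Agent.ZFW.Hom

/-!
The models of the common context are models of ZF, and further facts on the generic branch.
-/

universe v

namespace Pool.Agent.ZFW

open Pool.Agent.SigB Filter

variable {J : Type} {S : CC UU}

instance Md.zf (M : Md J S) : GL.IsZF M.W := M.hV.isZF

theorem Md.flt (M : Md J S) : Flt M.G := M.gen.toFlt

theorem Md.cls_iff (M : Md J S) {E : Sys.S (Gp J) (Cnd J)} {w : M.W} :
    M.cls E w ↔ HasS M.val E w := by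
  constructor
  · rintro ⟨x, hx, hE, rfl⟩
    exact ⟨⟨x, hx⟩, hE, (M.vl_of hx).symm⟩
  · rintro ⟨x, hE, rfl⟩
    exact ⟨x.1, x.2, hE, M.vl_of x.2⟩

theorem Md.cls_eq (M : Md J S) (E : Sys.S (Gp J) (Cnd J)) : M.cls E = HasS M.val E :=
  funext fun _ => propext M.cls_iff

/-- Every element of the model has a support. -/
theorem Md.exists_cls (M : Md J S) (w : M.W) : ∃ E : Sys.S (Gp J) (Cnd J), M.cls E w := by
  obtain ⟨E, hE⟩ := HasS.exists M.hV w
  exact ⟨E, M.cls_iff.2 hE⟩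

/-- Finitely many elements of the model have a common support which contains a given countable
set. -/
theorem Md.exists_cls_spt (M : Md J S) (w : M.W) : ∃ (E : Set J) (hE : E.Countable),
    M.cls (spt E hE) w := by
  obtain ⟨⟨E, hE⟩, h⟩ := M.exists_cls w
  exact ⟨E, hE, h⟩

/-- The condition of length `n` in the generic filter. -/
noncomputable def Md.gc (M : Md J S) (n : ℕ) : Cnd J := M.g n

namespace Gb

variable {M : Md J S}

theorem gc_mem (h : Gb M) (n : ℕ) : M.gc n ∈ M.G := h.mem n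

theorem gc_mem_S (h : Gb M) (n : ℕ) : CC.In S (M.gc n) := h.mem_S n

theorem le (h : Gb M) {m n : ℕ} (hmn : m ≤ n) : M.gc n ≤ M.gc m :=
  h.suf m n hmn

theorem exists_G (h : Gb M) {Q : Cnd J → Prop} : (∃ p, p ∈ M.G ∧ Q p) ↔ ∃ n, Q (M.gc n) := by
  constructor
  · rintro ⟨p, hp, hq⟩
    obtain ⟨n, hn⟩ := (h.mem_iff p).1 hp
    have : p = M.gc n := hn
    exact ⟨n, this ▸ hq⟩
  · rintro ⟨n, hn⟩
    exact ⟨_, h.mem n, hn⟩

theorem g_zero (h : Gb M) : M.g 0 = [] := List.length_eq_zero_iff.1 (h.len 0)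

theorem exists_g_succ (h : Gb M) (n : ℕ) : ∃ x, M.g (n + 1) = x :: M.g n := by
  obtain ⟨w, hw⟩ := h.suf n (n + 1) (Nat.le_succ n)
  have h1 : w.length = 1 := by
    have := congrArg List.length hw
    rw [List.length_append, h.len, h.len] at this
    omega
  obtain ⟨x, rfl⟩ := List.length_eq_one_iff.1 h1
  exact ⟨x, hw.symm⟩

theorem drop (h : Gb M) {m n : ℕ} (hmn : m ≤ n) : (M.g n).drop (n - m) = M.g m := by
  obtain ⟨w, hw⟩ := h.suf m n hmn
  have h1 : w.length = n - m := by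
    have := congrArg List.length hw
    rw [List.length_append, h.len, h.len] at this
    omega
  rw [← h1, ← hw, List.drop_left]

theorem vl_eq (h : Gb M) {x y : HNJ J} (hx : CC.In S x) (hy : CC.In S y) :
    M.vl x = M.vl y ↔ ∃ n, Nm.EqF x.1 y.1 (M.gc n) :=
  (M.vl_eq hx hy).trans h.exists_G

theorem vl_mem (h : Gb M) {x y : HNJ J} (hx : CC.In S x) (hy : CC.In S y) :
    M.vl x ∈ M.vl y ↔ ∃ n, Nm.MemF x.1 y.1 (M.gc n) :=
  (M.vl_mem hx hy).trans h.exists_G

/-- The truth lemma along the branch, from some level on. -/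
theorem truth (h : Gb M) {I : Type v} {n : ℕ} (φ : Fml I n) {a : I → HNJ J}
    (ha : ∀ i, CC.In S (a i)) {v : Fin n → HNJ J} (hv : ∀ i, CC.In S (v i)) :
    (mapP (fun i => M.vl (a i)) φ).Sat (fun i => M.vl (v i)) ↔
      ∃ k, ∀ m, k ≤ m → FcJ (mapP a φ) (M.gc m) v := by
  rw [M.truth φ ha hv, h.exists_G]
  constructor
  · rintro ⟨k, hk⟩
    exact ⟨k, fun m hm => fc_mono _ _ hk (h.le hm)⟩
  · rintro ⟨k, hk⟩
    exact ⟨k, hk k le_rfl⟩

end Gb

/-- A set in `S` which is dense below `M.g n` contains some `M.g m`, `m ≥ n`. -/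
theorem ev_bl (J : Type) [Nonempty J] : ∀ᶠ S in cl, ∀ M : Md J S, ∀ (n : ℕ) (d : Set (Cnd J)),
    CC.In S d → (∀ q, q ≤ M.gc n → ∃ r, r ≤ q ∧ r ∈ d) →
    ∃ m, n ≤ m ∧ M.gc m ∈ d := by
  filter_upwards [ev_g J, ev_below (P := Cnd J) (U := UU)] with S h1 h2 M n d hd h
  obtain ⟨r, -, hr, hrn, hrd⟩ := h2 M.G M.gen _ ((h1 M).mem n) d hd h
  obtain ⟨m, hm⟩ := ((h1 M).mem_iff r).1 hr
  have e : r = M.gc m := hm
  subst e
  refine ⟨m, ?_, hrd⟩
  have h3 : (M.g n).length ≤ (M.g m).length :=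
    List.IsSuffix.length_le (show M.g n <:+ M.g m from hrn)
  rw [(h1 M).len, (h1 M).len] at h3
  exact h3

end Pool.Agent.ZFW
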