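import Pool.Agent.ZFW.CAc

/-!
# MP_831107_lc : consequences of `CSB*`

`ppom_of_csb` : `CSB*` implies that every image `B` of a set `A` injects into `A × ω`.
`acf_of_ppom` : this implies choice for all well-ordered families.
`wf4ii_of` : under `CSB*` each of the principles `WF^x_yk` implies `WF^i_i4`.
-/

universe u

set_option linter.unusedSectionVars false

namespace Pool.Agent.ZFW

open Pool.Agent.SigB Pool.Agent.GL

variable {M : Type u} [Membership M M] [GL.IsZF M]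

/-- **`CSB*` implies that every image of `A` injects into `A × ω`.** -/
theorem ppom_of_csb (hc : CSBstar M) : ∀ A B : M, PS B A → Le B (pd A om) := by
  intro A B h
  have h1 : LeStar (sm (pd A om) (pd B om)) (pd A om) := leStar_of_ps (ps_dbl h ps_om_dbl)
  have h2 : LeStar (pd A om) (sm (pd A om) (pd B om)) := (le_sm_left _ _).leStar
  have h3 : Le B (pd B om) :=
    Le.of_dt (F := fun b => op b GL.em) (by simp (maxDischargeDepth := 50))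
      (fun b hb => op_mem_pd.2 ⟨hb, em_mem_om⟩) fun b _ b' _ h => (op_inj.1 h).1
  exact (h3.trans (le_sm_right _ _)).trans (hc _ _ h1 h2).le

/-- The pairs `(u, ξ)` with `ξ ∈ f(lev u)`. -/
noncomputable def YC (k s f : M) : M :=
  sp (pd (PP k s) (sU (im k (ap f)))) fun z => p2 z ∈ ap f (p1 (p1 z))

theorem mem_YC {k s f z : M} (hk : Ord k) : z ∈ YC k s f ↔ ∃ u ξ, z = op u ξ ∧
    u ∈ PP k s ∧ ξ ∈ ap f (p1 u) := by
  unfold YC
  rw [mem_sp (by simp (maxDischargeDepth := 50))]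
  constructor
  · rintro ⟨h1, h2⟩
    obtain ⟨u, hu, ξ, hξ, rfl⟩ := mem_pd.1 h1
    rw [p1_op, p2_op] at h2
    exact ⟨u, ξ, rfl, hu, h2⟩
  · rintro ⟨u, ξ, rfl, hu, hξ⟩
    rw [p1_op, p2_op]
    exact ⟨op_mem_pd.2 ⟨hu, mem_sUf.2 ⟨_, PP.p1_mem hk hu, hξ⟩⟩, hξ⟩

/-- The set of pairs covers the ordinal `sup f`. -/
theorem ps_YC {k s f : M} (hk : Ord k) (hlev : ∀ a, a ∈ k → ∃ u, u ∈ PP k s ∧ p1 u = a) :
    PS (sU (im k (ap f))) (YC k s f) := by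
  refine ps_of_fun (F := p2) p2.dt fun ξ hξ => ?_
  obtain ⟨a, ha, hξa⟩ := mem_sUf.1 hξ
  obtain ⟨u, hu, rfl⟩ := hlev a ha
  exact ⟨op u ξ, (mem_YC hk).2 ⟨u, ξ, rfl, hu, hξa⟩, p2_op _ _⟩

/-- If the ordinal `sup f` injects into the product with `ω` then there is a choice function. -/
theorem choice_of_le_pd {k s f : M} (hk : Ord k) (hlim : ∀ a, a ∈ k → sc a ∈ k)
    (hL : Lam k (PP k s) f) (h : Le (sU (im k (ap f))) (pd (YC k s f) om)) :
    ∃ c, Fn c k ∧ ∀ a, a ∈ k → ap c a ∈ ap s a := by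
  obtain ⟨φ, hφ, hφi⟩ := le_iff.1 h
  rw [mem_fs] at hφ
  have hO : Ord (sU (im k (ap f))) := ord_sU fun y hy => by
    obtain ⟨a, ha, rfl⟩ := (mem_im (by simp (maxDischargeDepth := 50))).1 hy
    exact hL.ord a ha
  have hval : ∀ ξ, ξ ∈ sU (im k (ap f)) → ∃ u η n, ap φ ξ = op (op u η) n ∧ u ∈ PP k s ∧
      η ∈ ap f (p1 u) ∧ n ∈ (om : M) := by
    intro ξ hξ
    obtain ⟨z, hz, n, hn, he⟩ := mem_pd.1 (hφ.2 ξ hξ)
    obtain ⟨u, η, rfl, hu, hη⟩ := (mem_YC hk).1 hz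
    exact ⟨u, η, n, he, hu, hη, hn⟩
  have hex : ∀ a, a ∈ k → ∃ ξ, ξ ∈ sU (im k (ap f)) ∧ a ∈ p1 (p1 (p1 (ap φ ξ))) := by
    intro a ha
    by_contra hno
    push Not at hno
    have ha1 := hlim a ha
    refine hL.not_le (sc a) a ha1 (mem_sc_self _) (Le.of_dt
      (F := fun ξ => op (p1 (p1 (ap φ ξ))) (op (p2 (p1 (ap φ ξ))) (p2 (ap φ ξ))))
      (by simp (maxDischargeDepth := 50)) (fun ξ hξ => ?_) fun ξ hξ η hη h2 => ?_)
    · have hξ' : ξ ∈ sU (im k (ap f)) := mem_sUf.2 ⟨_, ha1, hξ⟩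
      obtain ⟨u, η, n, he, hu, hη, hn⟩ := hval ξ hξ'
      have h3 := hno ξ hξ'
      rw [he, p1_op, p1_op] at h3
      have h4 : Sb (p1 u) a := (Ord.not_mem_iff (hk.mem ha) (hk.mem (PP.p1_mem hk hu))).1 h3
      rw [he, op_mem_pd, op_mem_pd]
      simp only [p1_op, p2_op]
      refine ⟨hu, ?_, hn⟩
      rcases (Ord.sb_iff (hk.mem (PP.p1_mem hk hu)) (hk.mem ha)).1 h4 with h5 | h5
      · exact hL.mono _ _ ha h5 _ hη
      · rwa [h5] at hη
    · have hξ' : ξ ∈ sU (im k (ap f)) := mem_sUf.2 ⟨_, ha1, hξ⟩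
      have hη' : η ∈ sU (im k (ap f)) := mem_sUf.2 ⟨_, ha1, hη⟩
      obtain ⟨u, ζ, n, he, -⟩ := hval ξ hξ'
      obtain ⟨u', ζ', n', he', -⟩ := hval η hη'
      refine hφi _ _ hξ' hη' ?_
      rw [he, he'] at h2 ⊢
      simp only [p1_op, p2_op] at h2
      obtain ⟨h5, h6⟩ := op_inj.1 h2
      obtain ⟨h7, h8⟩ := op_inj.1 h6
      rw [h5, h7, h8]
  have hm : DT (fun w : Fin 1 → M => mu fun ξ => ξ ∈ sU (im k (ap f)) ∧
      w 0 ∈ p1 (p1 (p1 (ap φ ξ)))) := by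
    refine dt_mu (P := fun (v : Fin 1 → M) ξ => ξ ∈ sU (im k (ap f)) ∧
      v 0 ∈ p1 (p1 (p1 (ap φ ξ)))) ?_
    simp (maxDischargeDepth := 50)
  have hc : DT (fun w : Fin 1 → M => ap (p2 (p1 (p1 (ap φ (mu fun ξ => ξ ∈ sU (im k (ap f)) ∧
      w 0 ∈ p1 (p1 (p1 (ap φ ξ)))))))) (w 0)) :=
    dt_ap (dt_p2 (dt_p1 (dt_p1 (dt_ap (DT.const φ) hm)))) (DT.var 0)
  refine ⟨lam k fun a => ap (p2 (p1 (p1 (ap φ (mu fun ξ => ξ ∈ sU (im k (ap f)) ∧
      a ∈ p1 (p1 (p1 (ap φ ξ)))))))) a, fn_lam hc, fun a ha => ?_⟩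
  rw [ap_lam hc ha]
  obtain ⟨ξ0, hξ0, hξ0'⟩ := hex a ha
  obtain ⟨-, ⟨h1, h2⟩, -⟩ := mu_spec (P := fun ξ => ξ ∈ sU (im k (ap f)) ∧
    a ∈ p1 (p1 (p1 (ap φ ξ)))) (by simp (maxDischargeDepth := 50)) ⟨ξ0, hO.mem hξ0, hξ0, hξ0'⟩
  obtain ⟨u, η, n, he, hu, hη, hn⟩ := hval _ h1
  rw [he, p1_op, p1_op] at h2
  rw [he, p1_op, p1_op]
  exact PP.ap_mem hk hu h2

/-- **Choice for well-ordered families, from injections of the images of `A` into `A × ω`.** -/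
theorem acf_of_ppom (h : ∀ A B : M, PS B A → Le B (pd A om)) : ∀ k : M, Ord k → Acf k := by
  intro k hk
  by_contra hn
  obtain ⟨m, hm, -, hnac, hac⟩ := exists_least_fail hk hn
  obtain ⟨s, hs, hne, hno⟩ := exists_family hnac
  have hlim := limit_of_least hm hnac hac
  have hem : (GL.em : M) ∈ m := hm.em_mem (by rintro rfl; exact hnac acf_em)
  have hlev : ∀ a, a ∈ m → ∃ u, u ∈ PP m s ∧ p1 u = a := fun a ha =>
    exists_level_PP hm hs ha (hac a ha) hne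
  obtain ⟨f, hL⟩ := exists_Lam (P := PP m s) hm ((hlev _ hem).imp fun _ h => h.1)
  exact hno (choice_of_le_pd hm hlim hL (h _ _ (ps_YC hm hlev)))

/-- Under `CSB*`, `WF^x_y4` implies `WF^x_i4`. -/
theorem wf4_xi_of_csb (hc : CSBstar M) {x : Ix} {y : Iy} (h : WF4 M x y) : WF4 M x Iy.i := by
  intro w s t hw hs ht hmap
  obtain ⟨n, m, A, A', hn, hm, hA, hA', hrel⟩ := h w s t hw hs ht hmap
  refine ⟨n, m, A, A', hn, hm, hA, hA', ?_⟩
  cases y with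
  | i => exact hrel
  | b => exact EqCard.le hrel
  | s =>
    obtain rfl := isOmega_iff.1 hw
    have ht' := isSeq_iff.1 ht
    have h1 : LeStar A' A :=
      (hmap n m A A' (ap t n) hn hm hA hA' ((val_fn ht').2 ⟨hn, rfl⟩)).prec.leStar
    exact (hc A A' hrel h1).le

/-- **Under `CSB*` each of the principles implies `WF^i_i4`.** -/
theorem wf4ii_of (hc : CSBstar M) {x : Ix} {y : Iy}
    (h : WF1 M x y ∨ WF2 M x y ∨ WF3 M x y ∨ WF4 M x y) : WF4 M Ix.i Iy.i := by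
  have h4 : WF4 M x y := by
    rcases h with h | h | h | h
    · exact wf4_of_wf3 (wf3_of_wf1 h)
    · exact wf4_of_wf3 (wf3_of_wf2 h)
    · exact wf4_of_wf3 h
    · exact h
  have h5 := wf4_xi_of_csb hc h4
  cases x with
  | i => exact h5
  | s => exact wf4_ii_of_si h5

end Pool.Agent.ZFW
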