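import Pool.Agent.ZFW.DJen
import Pool.Agent.ZFW.CFin

/-!
# MP_831107_lc : the partition principle and `WF^i_i4` give all principles `WF^x_yk`
-/

universe u

set_option linter.unusedSectionVars false

namespace Pool.Agent.ZFW

open Pool.Agent.SigB Pool.Agent.GL

variable {M : Type u} [Membership M M] [GL.IsZF M]

/-- `WF^x_y1` implies `WF^x_y2`. -/
theorem wf2_of_wf1 {x : Ix} {y : Iy} (h : WF1 M x y) : WF2 M x y := by
  intro w s hw hs hcode hprec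
  obtain rfl := isOmega_iff.1 hw
  have hs' := isSeq_iff.1 hs
  have hd : DT (fun w : Fin 1 → M => ap s (w 0)) := by simp (maxDischargeDepth := 50)
  have hv : ∀ n, n ∈ (om : M) → Val s n (ap s n) := fun n hn => (val_fn hs').2 ⟨hn, rfl⟩
  have hR : ∀ K, K ∈ im (om : M) (ap s) ↔ ∃ n, n ∈ (om : M) ∧ K = ap s n := fun K => mem_im hd
  obtain ⟨K, hK, hmin⟩ := h (im (om : M) (ap s)) ⟨_, (hR _).2 ⟨_, em_mem_om, rfl⟩⟩
    (fun K hK => by
      obtain ⟨n, hn, rfl⟩ := (hR K).1 hK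
      exact hcode n _ (hv n hn))
  obtain ⟨n, hn, rfl⟩ := (hR K).1 hK
  have hn' := sc_mem_om hn
  exact ⟨n, sc n, ap s n, ap s (sc n), hn, isSucc_iff.2 rfl, hv n hn, hv _ hn',
    hmin _ ((hR _).2 ⟨_, hn', rfl⟩)
      (hprec n (sc n) _ _ hn (isSucc_iff.2 rfl) (hv n hn) (hv _ hn'))⟩

theorem relY_of_eq {y : Iy} {X Y : M} (h : EqCard X Y) : RelY y X Y := by
  cases y with
  | i => exact h.le
  | s => exact h.leStar
  | b => exact h

/-- There is no descending sequence of cardinals. -/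
theorem no_desc (hW : WF4 M Ix.i Iy.i) (hac : ∀ k : M, Ord k → Acf k) {F : M} (hF : Fn F om)
    (h : ∀ n, n ∈ (om : M) → Le (ap F (sc n)) (ap F n)) :
    ∃ n, n ∈ (om : M) ∧ Le (ap F n) (ap F (sc n)) := by
  obtain ⟨c, hc, hc'⟩ := choice_dfn hac (om_ord (M := M))
    (R := fun n g => g ∈ fs (ap F (sc n)) (ap F n) ∧
      ∀ x y, x ∈ ap F (sc n) → y ∈ ap F (sc n) → ap g x = ap g y → x = y)
    (by simp (maxDischargeDepth := 50)) fun n hn => le_iff.1 (h n hn)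
  obtain ⟨n, m, A, A', hn, hm, hA, hA', hr⟩ := hW om F c (isOmega_iff.2 rfl) (isSeq_iff.2 hF)
    (isSeq_iff.2 hc) fun n m A A' f hn hm hA hA' hf => by
      obtain rfl := isSucc_iff.1 hm
      obtain ⟨-, rfl⟩ := (val_fn hF).1 hA
      obtain ⟨-, rfl⟩ := (val_fn hF).1 hA'
      obtain ⟨-, rfl⟩ := (val_fn hc).1 hf
      exact isInjection_iff.2 (hc' n hn)
  obtain rfl := isSucc_iff.1 hm
  obtain ⟨-, rfl⟩ := (val_fn hF).1 hA
  obtain ⟨-, rfl⟩ := (val_fn hF).1 hA'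
  exact ⟨n, hn, hr⟩

theorem Prec.le (hpp : ∀ A B : M, LeStar B A → Le B A) {x : Ix} {X Y : M} (h : Prec x X Y) :
    Le X Y := by
  cases x with
  | i => exact h
  | s => exact hpp _ _ h

theorem wf1_all (hpp : ∀ A B : M, LeStar B A → Le B A)
    (hW : WF4 M Ix.i Iy.i) (hac : ∀ k : M, Ord k → Acf k) (x : Ix) (y : Iy) : WF1 M x y := by
  intro C hne hC
  by_contra hn
  push Not at hn
  obtain ⟨K₀, hK₀⟩ := hne
  obtain ⟨X₀, hX₀⟩ := (hC _ hK₀).1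
  obtain ⟨F, hF, hFS, hFR⟩ := dc_of_ac hac (sU C) (fun X X' => Le X' X ∧ ¬ EqCard X X')
    (by
      have h1 : ∀ X Y : M, Le X Y ↔ ∃ f, f ∈ fs X Y ∧ ∀ x y, x ∈ X → y ∈ X → ap f x = ap f y →
        x = y := fun X Y => le_iff
      have h2 : ∀ X Y : M, EqCard X Y ↔ ∃ f, f ∈ fs X Y ∧
        (∀ x y, x ∈ X → y ∈ X → ap f x = ap f y → x = y) ∧
        ∀ y, y ∈ Y → ∃ x, x ∈ X ∧ ap f x = y := fun X Y => eqCard_iff
      simp (maxDischargeDepth := 50) only [h1, h2]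
      simp (maxDischargeDepth := 50))
    ⟨X₀, mem_sU.2 ⟨K₀, hK₀, hX₀⟩⟩ fun X hX => by
      obtain ⟨K, hK, hXK⟩ := mem_sU.1 hX
      obtain ⟨K', hK', ⟨Y, X', hY, hX', hp⟩, h2⟩ := hn K hK
      exact ⟨Y, mem_sU.2 ⟨K', hK', hY⟩, (Prec.le hpp hp).trans ((hC K hK).2 _ _ hX' hXK).le,
        fun he => h2 ⟨X, Y, hXK, hY, relY_of_eq he⟩⟩
  obtain ⟨n, hn', hle⟩ := no_desc hW hac hF fun n hn => (hFR n hn).1
  exact (hFR n hn').2 (eqCard_of_le hle (hFR n hn').1)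

theorem wf_all (hpp : ∀ A B : M, LeStar B A → Le B A)
    (hW : WF4 M Ix.i Iy.i) (hac : ∀ k : M, Ord k → Acf k) (x : Ix) (y : Iy) :
    WF1 M x y ∧ WF2 M x y ∧ WF3 M x y ∧ WF4 M x y := by
  have h := wf1_all hpp hW hac x y
  exact ⟨h, wf2_of_wf1 h, wf3_of_wf1 h, wf4_of_wf3 (wf3_of_wf1 h)⟩

end Pool.Agent.ZFW
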