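import Pool.Agent.ZFW.DAll
import Pool.Agent.ZFW.DAcf

/-!
# MP_831107_lc : the partition principle from the weak partition principle and any `WF^x_yk`
-/

universe u

set_option linter.unusedSectionVars false

namespace Pool.Agent.ZFW

open Pool.Agent.SigB

section

variable {M : Type u} [Membership M M]

/-- The partition principle : `|X| ≤* |Y|` implies `|X| ≤ |Y|`. -/
def PartP (M : Type u) [Membership M M] : Prop := ∀ X Y : M, LeStar X Y → Le X Y

/-- The weak partition principle : no image of `Y` is strictly larger than `Y`, that is,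
`|X| ≤* |Y|` and `|Y| ≤ |X|` imply `|X| ≤ |Y|`. -/
def WeakPartP (M : Type u) [Membership M M] : Prop :=
  ∀ X Y : M, LeStar X Y → Le Y X → Le X Y

/-- The partition principle up to well-ordered multiples : `|X| ≤* |Y|` implies `|X| ≤ |Y × κ|`
for some ordinal `κ`. -/
def MulPartP (M : Type u) [Membership M M] : Prop :=
  ∀ X Y : M, LeStar X Y → ∃ κ P, IsOrdinal κ ∧ IsProd P Y κ ∧ Le X P

/-- All the principles `WF^x_yk`. -/
def AllWF (M : Type u) [Membership M M] : Prop :=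
  ∀ x y, WF1 M x y ∧ WF2 M x y ∧ WF3 M x y ∧ WF4 M x y

end

open Pool.Agent.GL

variable {M : Type u} [Membership M M] [GL.IsZF M]

theorem eqCard_swap {X Y : M} (h : EqCard X Y) : EqCard Y X := by
  obtain ⟨f, hf, hfi, hfs⟩ := eqCard_iff.1 h
  have hd : DT (fun w : Fin 1 → M => cp fun z => ∃ x, x ∈ X ∧ ap f x = w 0 ∧ z ∈ x) := by
    simp (maxDischargeDepth := 50)
  have h1 : ∀ x, x ∈ X → (cp fun z => ∃ x', x' ∈ X ∧ ap f x' = ap f x ∧ z ∈ x') = x := by
    intro x hx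
    have h2 : ∀ z, z ∈ x ↔ ∃ x', x' ∈ X ∧ ap f x' = ap f x ∧ z ∈ x' := by
      intro z
      constructor
      · intro hz
        exact ⟨x, hx, rfl, hz⟩
      · rintro ⟨x', hx', h', hz⟩
        rwa [hfi _ _ hx' hx h'] at hz
    exact ext' fun z => by rw [h2 z]; exact mem_cp ⟨x, h2⟩
  refine eqCard_iff.2 ⟨lam Y fun y => cp fun z => ∃ x, x ∈ X ∧ ap f x = y ∧ z ∈ x,
    lam_mem_fs hd fun y hy => ?_, fun y y' hy hy' h2 => ?_, fun x hx => ?_⟩
  · obtain ⟨x, hx, rfl⟩ := hfs y hy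
    rw [h1 x hx]
    exact hx
  · rw [ap_lam hd hy, ap_lam hd hy'] at h2
    obtain ⟨x, hx, rfl⟩ := hfs y hy
    obtain ⟨x', hx', rfl⟩ := hfs y' hy'
    rw [h1 x hx, h1 x' hx'] at h2
    rw [h2]
  · have hy := (mem_fs.1 hf).2 x hx
    exact ⟨_, hy, by rw [ap_lam hd hy, h1 x hx]⟩

/-- `WF^s_b4` implies `CSB*`. -/
theorem csb_of_wf4sb (hW : WF4 M Ix.s Iy.b) : CSBstar M := by
  intro X Y h h'
  have hem : ∀ {X Y : M}, (∀ x, x ∉ X) → LeStar Y X → X = Y := by
    intro X Y h h'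
    refine ext' fun z => ⟨fun hz => (h z hz).elim, fun hz => ?_⟩
    rcases leStar_iff.1 h' with h' | ⟨g, hg, hgs⟩
    · exact (h' z hz).elim
    · obtain ⟨x, hx, -⟩ := hgs z hz
      exact (h x hx).elim
  rcases leStar_iff.1 h with h | ⟨f, hf, hfs⟩
  · rw [hem h h']
    exact EqCard.refl Y
  rcases leStar_iff.1 h' with h' | ⟨g, hg, hgs⟩
  · rw [hem h' h]
    exact EqCard.refl X
  -- `f` maps `Y` onto `X`, `g` maps `X` onto `Y`
  obtain ⟨F, hF, hF0, hFs⟩ := om_recursion (op (op X Y) (op g f)) (G := sw) sw.dt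
  have hinv : ∀ n, n ∈ (om : M) → ap F n = op (op X Y) (op g f) ∨
      ap F n = op (op Y X) (op f g) := by
    refine om_ind (P := fun n => ap F n = op (op X Y) (op g f) ∨
      ap F n = op (op Y X) (op f g)) (by simp (maxDischargeDepth := 50)) (Or.inl hF0) ?_
    intro n hn ih
    rw [hFs n hn]
    rcases ih with h1 | h1
    · exact Or.inr (by rw [h1, sw_eq])
    · exact Or.inl (by rw [h1, sw_eq])
  have hd1 : DT (fun w : Fin 1 → M => p1 (p1 (ap F (w 0)))) := by simp (maxDischargeDepth := 50)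
  have hd2 : DT (fun w : Fin 1 → M => p1 (p2 (ap F (w 0)))) := by simp (maxDischargeDepth := 50)
  obtain ⟨n, m, A, A', hn, hm, hA, hA', hle⟩ := hW om (lam om fun n => p1 (p1 (ap F n)))
    (lam om fun n => p1 (p2 (ap F n))) (isOmega_iff.2 rfl) (isSeq_iff.2 (fn_lam hd1))
    (isSeq_iff.2 (fn_lam hd2)) (by
      intro n m A A' t hn hm hA hA' ht
      rw [isSucc_iff] at hm
      subst hm
      obtain ⟨-, rfl⟩ := (val_fn (fn_lam hd1)).1 hA
      obtain ⟨-, rfl⟩ := (val_fn (fn_lam hd1)).1 hA'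
      obtain ⟨-, rfl⟩ := (val_fn (fn_lam hd2)).1 ht
      rw [ap_lam (F := fun n => p1 (p1 (ap F n))) hd1 hn,
        ap_lam (F := fun n => p1 (p1 (ap F n))) hd1 (sc_mem_om hn),
        ap_lam (F := fun n => p1 (p2 (ap F n))) hd2 hn, hFs n hn]
      rcases hinv n hn with h1 | h1
      · rw [h1, sw_eq]
        simp only [p1_op, p2_op]
        exact isSurjection_iff.2 ⟨hg, hgs⟩
      · rw [h1, sw_eq]
        simp only [p1_op, p2_op]
        exact isSurjection_iff.2 ⟨hf, hfs⟩)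
  rw [isSucc_iff] at hm
  subst hm
  obtain ⟨-, rfl⟩ := (val_fn (fn_lam hd1)).1 hA
  obtain ⟨-, rfl⟩ := (val_fn (fn_lam hd1)).1 hA'
  rw [ap_lam hd1 hn, ap_lam hd1 (sc_mem_om hn), hFs n hn] at hle
  rcases hinv n hn with h1 | h1
  · rw [h1, sw_eq] at hle
    simp only [p1_op] at hle
    exact hle
  · rw [h1, sw_eq] at hle
    simp only [p1_op] at hle
    exact eqCard_swap hle

theorem csb_of_wfsb (h : WF1 M Ix.s Iy.b ∨ WF2 M Ix.s Iy.b ∨ WF3 M Ix.s Iy.b ∨ WF4 M Ix.s Iy.b) :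
    CSBstar M := by
  refine csb_of_wf4sb ?_
  rcases h with h | h | h | h
  · exact wf4_of_wf3 (wf3_of_wf1 h)
  · exact wf4_of_wf3 (wf3_of_wf2 h)
  · exact wf4_of_wf3 h
  · exact h

/-! ### The weak partition principle -/

theorem weakPartP_of_csb (hc : CSBstar M) : WeakPartP M := fun X Y h h' => (hc X Y h h'.leStar).le

/-- The weak partition principle implies that every image of `A` injects into `A × ω`. -/
theorem ppom_of_weak (hw : WeakPartP M) : ∀ A B : M, PS B A → Le B (pd A om) := by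
  intro A B h
  have h1 : LeStar (sm (pd A om) (pd B om)) (pd A om) := leStar_of_ps (ps_dbl h ps_om_dbl)
  have h3 : Le B (pd B om) :=
    Le.of_dt (F := fun b => op b GL.em) (by simp (maxDischargeDepth := 50))
      (fun b hb => op_mem_pd.2 ⟨hb, em_mem_om⟩) fun b _ b' _ h => (op_inj.1 h).1
  exact (h3.trans (le_sm_right _ _)).trans (hw _ _ h1 (le_sm_left _ _))

/-- With the weak partition principle, `WF^s_y4` implies `WF^i_i4`. -/
theorem wf4_ii_of_sy (hw : WeakPartP M) {y : Iy} (h : WF4 M Ix.s y) : WF4 M Ix.i Iy.i := by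
  intro w s t hw' hs ht hmap
  obtain rfl := isOmega_iff.1 hw'
  have hs' := isSeq_iff.1 hs
  have ht' := isSeq_iff.1 ht
  have hv : ∀ n, n ∈ (om : M) → Val s n (ap s n) := fun n hn => (val_fn hs').2 ⟨hn, rfl⟩
  have hvt : ∀ n, n ∈ (om : M) → Val t n (ap t n) := fun n hn => (val_fn ht').2 ⟨hn, rfl⟩
  have hd1 : DT (fun w : Fin 1 → M => ad (ap s (w 0))) := by simp (maxDischargeDepth := 50)
  have hd2 : DT (fun w : Fin 1 → M => bk (ap t (w 0)) (ap s (w 0)) (ap s (sc (w 0)))) := by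
    simp (maxDischargeDepth := 50)
  have hf1 : Fn (lam (om : M) fun n => ad (ap s n)) om := fn_lam hd1
  have hf2 : Fn (lam (om : M) fun n => bk (ap t n) (ap s n) (ap s (sc n))) om := fn_lam hd2
  obtain ⟨n, m, A, A', hn, hm, hA, hA', hrel⟩ := h om (lam om fun n => ad (ap s n))
    (lam om fun n => bk (ap t n) (ap s n) (ap s (sc n))) hw' (isSeq_iff.2 hf1) (isSeq_iff.2 hf2)
    (fun n m A A' f hn hm hA hA' hf => by
      obtain rfl := isSucc_iff.1 hm
      obtain ⟨-, rfl⟩ := (val_fn hf1).1 hA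
      obtain ⟨hm', rfl⟩ := (val_fn hf1).1 hA'
      obtain ⟨-, rfl⟩ := (val_fn hf2).1 hf
      rw [ap_lam (F := fun n => ad (ap s n)) hd1 hn, ap_lam (F := fun n => ad (ap s n)) hd1 hm',
        ap_lam (F := fun n => bk (ap t n) (ap s n) (ap s (sc n))) hd2 hn]
      exact bk_surj (hmap n (sc n) _ _ _ hn hm (hv n hn) (hv _ hm') (hvt n hn)))
  obtain rfl := isSucc_iff.1 hm
  obtain ⟨-, rfl⟩ := (val_fn hf1).1 hA
  obtain ⟨hm', rfl⟩ := (val_fn hf1).1 hA'
  rw [ap_lam (F := fun n => ad (ap s n)) hd1 hn,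
    ap_lam (F := fun n => ad (ap s n)) hd1 hm'] at hrel
  have h1 : Le (ap s (sc n)) (ap s n) :=
    ⟨_, hmap n (sc n) _ _ _ hn hm (hv n hn) (hv _ hm') (hvt n hn)⟩
  have h2 : Le (ad (ap s (sc n))) (ad (ap s n)) := le_sm h1 (Le.refl _)
  have h3 : Le (ad (ap s n)) (ad (ap s (sc n))) := by
    cases y with
    | i => exact hrel
    | s => exact hw _ _ hrel h2
    | b => exact EqCard.le hrel
  exact ⟨n, sc n, _, _, hn, isSucc_iff.2 rfl, hv n hn, hv _ hm', le_of_ad h3⟩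

/-- With the weak partition principle, each of the principles implies `WF^i_i4`. -/
theorem wf4_ii_of_weak (hw : WeakPartP M) {x : Ix} {y : Iy}
    (h : WF1 M x y ∨ WF2 M x y ∨ WF3 M x y ∨ WF4 M x y) : WF4 M Ix.i Iy.i := by
  have h4 : WF4 M x y := by
    rcases h with h | h | h | h
    · exact wf4_of_wf3 (wf3_of_wf1 h)
    · exact wf4_of_wf3 (wf3_of_wf2 h)
    · exact wf4_of_wf3 h
    · exact h
  cases x with
  | s => exact wf4_ii_of_sy hw h4
  | i =>
    intro w s t hw' hs ht hmap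
    obtain ⟨n, m, A, A', hn, hm, hA, hA', hrel⟩ := h4 w s t hw' hs ht hmap
    refine ⟨n, m, A, A', hn, hm, hA, hA', ?_⟩
    obtain rfl := isOmega_iff.1 hw'
    have h1 : Le A' A := ⟨_, hmap n m A A' (ap t n) hn hm hA hA'
      ((val_fn (isSeq_iff.1 ht)).2 ⟨hn, rfl⟩)⟩
    cases y with
    | i => exact hrel
    | s => exact hw _ _ hrel h1
    | b => exact EqCard.le hrel

/-- From `WF^i_i4`, choice for well-ordered families and the partition principle up to
well-ordered multiples. -/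
theorem partP_of_mul (hW : WF4 M Ix.i Iy.i) (hac : ∀ k : M, Ord k → Acf k)
    (hm : ∀ U V : M, PS U V → LeW U V) : PartP M ∧ CSBstar M ∧ AllWF M := by
  have hpp : PartP M := fun Y Z hYZ => pp_of_ppw hW hac (dc_of_ac hac) hm (ps_of_leStar hYZ)
  exact ⟨hpp, fun X Y h h' => eqCard_of_le (hpp _ _ h) (hpp _ _ h'),
    fun x y => wf_all (fun A B h => hpp B A h) hW hac x y⟩

/-- **The weak partition principle and any of the principles `WF^x_yk` give the partition
principle, `CSB*` and all the principles.** -/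
theorem partP_of_weak (hw : WeakPartP M) {x : Ix} {y : Iy}
    (h : WF1 M x y ∨ WF2 M x y ∨ WF3 M x y ∨ WF4 M x y) : PartP M ∧ CSBstar M ∧ AllWF M :=
  partP_of_mul (wf4_ii_of_weak hw h) (acf_of_ppom (ppom_of_weak hw))
    fun U V hUV => ⟨om, om_ord, ppom_of_weak hw V U hUV⟩

/-- The principles `WF^s_bk`. -/
theorem partP_of_wfsb
    (h : WF1 M Ix.s Iy.b ∨ WF2 M Ix.s Iy.b ∨ WF3 M Ix.s Iy.b ∨ WF4 M Ix.s Iy.b) :
    PartP M ∧ CSBstar M ∧ AllWF M :=
  partP_of_weak (weakPartP_of_csb (csb_of_wfsb h)) h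

/-- The form with well-ordered multiples. -/
theorem partP_of_mulPartP {x : Ix} {y : Iy} (hy : y ≠ Iy.s)
    (h : WF1 M x y ∨ WF2 M x y ∨ WF3 M x y ∨ WF4 M x y)
    (hx : x = Ix.s ∨ (∀ k : M, IsOrdinal k → ACk k) ∨ ∀ m : M, ¬ IsMeasurable m)
    (hm : MulPartP M) : PartP M ∧ CSBstar M ∧ AllWF M := by
  have hac : ∀ k : M, Ord k → Acf k := by
    intro k hk
    rcases hx with rfl | hx | hx
    · exact ack_iff.1 (ack_of_wfs hy h k hk)
    · exact ack_iff.1 (hx k hk)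
    · rcases (choice_of_wf hy h).2 k hk with h1 | ⟨m, -, h1, -⟩
      · exact ack_iff.1 h1
      · exact (hx m h1).elim
  refine partP_of_mul (wf4_ii hy h) hac fun U V hUV => ?_
  obtain ⟨κ, P, h1, h2, h3⟩ := hm U V (leStar_of_ps hUV)
  rw [isProd_iff] at h2
  exact ⟨κ, h1, h2 ▸ h3⟩

end Pool.Agent.ZFW
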