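import Pool.Agent.ZFW.RlI
import Pool.Agent.ZFW.CkM

/-!
The names of the functions on the reals which are given by operations on digit functions, and the
two functions whose pair maps the set of the reals onto its square.
-/

namespace Pool.Agent.ZFW

open Pool.Agent.SigB Filter

variable {J : Type}

/-! ### Names of families of elements -/

/-- The value of the name of the set of all `f i`. -/
theorem ev_vl_st {ι : Type} [Nonempty ι] (f : ι → HNJ J) {E : Sys.S (Gp J) (Cnd J)}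
    (h : Nm.Supp (Gp J) E (Nm.st fun i => (f i).1)) :
    ∀ᶠ S in cl, ∀ M : Md J S, CC.In S (HN.st' f h) ∧ (∀ i, CC.In S i → CC.In S (f i)) ∧
      ∀ z, z ∈ M.vl (HN.st' f h) ↔ ∃ i, CC.In S i ∧ z = M.vl (f i) := by
  classical
  filter_upwards [ev_mem (U := UU) (HN.st' f h), ev_app (U := UU) f,
    ev_app (U := UU) fun x : HNJ J => if h : ∃ i, f i = x then h.choose
      else Classical.arbitrary ι] with S h1 h2 h3 M
  refine ⟨h1, h2, fun z => ?_⟩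
  rw [M.mem_vl_st' f h h1]
  constructor
  · rintro ⟨i, hi, rfl⟩
    have h4 := h3 _ hi
    have h5 : ∃ j, f j = f i := ⟨i, rfl⟩
    rw [dif_pos h5] at h4
    exact ⟨_, h4, by rw [h5.choose_spec]⟩
  · rintro ⟨i, hi, rfl⟩
    exact ⟨i, h2 i hi, rfl⟩

/-! ### Functions on the reals -/

/-- The operation `O` commutes with the group of the support `E`. -/
def Eqv (E : Sys.S (Gp J) (Cnd J)) (O : DJ J → DJ J) : Prop :=
  ∀ h : Gp J, h ∈ Sys.H (P := Cnd J) E → ∀ d, h • O d = O (h • d)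

theorem supp_fnN {E : Sys.S (Gp J) (Cnd J)} {O : DJ J → DJ J} (hO : Eqv E O) :
    Nm.Supp (Gp J) E (Nm.st fun d : DJ J => (HN.op (rl d) (rl (O d))).1) :=
  Nm.supp_st fun h hh d => by
    refine ⟨h • d, fun r => ?_⟩
    refine (Nm.smul_opN h _ _ r).trans (Nm.eqF_opN (smul_rl h d r) ?_)
    rw [← hO h hh d]
    exact smul_rl h (O d) r

/-- The name of the function which maps the real of `d` to the real of `O d`. -/
noncomputable def fnN {E : Sys.S (Gp J) (Cnd J)} {O : DJ J → DJ J} (hO : Eqv E O) : HNJ J :=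
  HN.st' (fun d : DJ J => HN.op (rl d) (rl (O d))) (supp_fnN hO)

theorem supp_fnN' {E : Sys.S (Gp J) (Cnd J)} {O : DJ J → DJ J} (hO : Eqv E O) :
    Nm.Supp (Gp J) E (fnN hO).1 := supp_fnN hO

instance : Nonempty (DJ J) := ⟨DJ.const 0⟩

theorem ev_mem_fnN {E : Sys.S (Gp J) (Cnd J)} {O : DJ J → DJ J} (hO : Eqv E O) :
    ∀ᶠ S in cl, ∀ M : Md J S, CC.In S (fnN hO) ∧ (∀ d : DJ J, CC.In S d → CC.In S (O d)) ∧
      ∀ z, z ∈ M.vl (fnN hO) ↔
        ∃ d : DJ J, CC.In S d ∧ z = GL.op (M.vl (rl d)) (M.vl (rl (O d))) := by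
  filter_upwards [ev_vl_st (fun d : DJ J => HN.op (rl d) (rl (O d))) (supp_fnN hO),
    ev_app (U := UU) O, ev_rlC J, ev_ckU J] with S h1 h2 hC hK M
  obtain ⟨h3, h4, h5⟩ := h1 M
  refine ⟨h3, h2, fun z => (h5 z).trans (exists_congr fun d => and_congr_right fun hd => ?_)⟩
  rw [hK.vl_op M (hC.rl d hd) (hC.rl _ (h2 d hd))]

/-- The function given by an operation on digit functions which is local and commutes with the
group of the support `E`. -/
theorem ev_fnN [Nonempty J] {E : Sys.S (Gp J) (Cnd J)} {O : DJ J → DJ J} (hO : Eqv E O)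
    (hloc : ∀ d e v, br d.1 v = br e.1 v → br (O d).1 v = br (O e).1 v) :
    ∀ᶠ S in cl, ∀ M : Md J S, CC.In S (fnN hO) ∧ (∀ d : DJ J, CC.In S d → CC.In S (O d)) ∧
      M.cls E (M.vl (fnN hO)) ∧ M.vl (fnN hO) ∈ GL.fs (M.vl (DDn J)) (M.vl (DDn J)) ∧
      ∀ d : DJ J, CC.In S d → GL.ap (M.vl (fnN hO)) (M.vl (rl d)) = M.vl (rl (O d)) := by
  filter_upwards [ev_mem_fnN hO, ev_rlC J, ev_g J] with S h1 hC hb M
  obtain ⟨h2, h3, h4⟩ := h1 M
  obtain ⟨h5, h6⟩ := (hC.rls (hb M)).fn1 h3 hloc h4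
  exact ⟨h2, h3, M.cls_of h2 (supp_fnN hO), h5, h6⟩

/-! ### Functions with a natural number as a parameter -/

theorem supp_fnN2 {E : Sys.S (Gp J) (Cnd J)} {O : ℕ → DJ J → DJ J} (hO : ∀ n, Eqv E (O n)) :
    Nm.Supp (Gp J) E (Nm.st fun i : ℕ × DJ J =>
      (HN.op (HN.op (HN.ck i.1) (rl i.2)) (rl (O i.1 i.2))).1) :=
  Nm.supp_st fun h hh i => by
    refine ⟨(i.1, h • i.2), fun r => ?_⟩
    refine (Nm.smul_opN h _ _ r).trans (Nm.eqF_opN ((Nm.smul_opN h _ _ r).trans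
      (Nm.eqF_opN (Nm.smul_ckN h _ r) (smul_rl h i.2 r))) ?_)
    rw [← hO i.1 h hh i.2]
    exact smul_rl h (O i.1 i.2) r

/-- The name of the function which maps the pair of `n` and the real of `d` to the real of
`O n d`. -/
noncomputable def fnN2 {E : Sys.S (Gp J) (Cnd J)} {O : ℕ → DJ J → DJ J}
    (hO : ∀ n, Eqv E (O n)) : HNJ J :=
  HN.st' (fun i : ℕ × DJ J => HN.op (HN.op (HN.ck i.1) (rl i.2)) (rl (O i.1 i.2)))
    (supp_fnN2 hO)

theorem supp_fnN2' {E : Sys.S (Gp J) (Cnd J)} {O : ℕ → DJ J → DJ J} (hO : ∀ n, Eqv E (O n)) :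
    Nm.Supp (Gp J) E (fnN2 hO).1 := supp_fnN2 hO

theorem ev_mem_fnN2 {E : Sys.S (Gp J) (Cnd J)} {O : ℕ → DJ J → DJ J} (hO : ∀ n, Eqv E (O n)) :
    ∀ᶠ S in cl, ∀ M : Md J S, CC.In S (fnN2 hO) ∧
      (∀ (n : ℕ) (d : DJ J), CC.In S d → CC.In S (O n d)) ∧
      ∀ z, z ∈ M.vl (fnN2 hO) ↔ ∃ i : ℕ × DJ J, CC.In S i.2 ∧
        z = GL.op (GL.op (nat i.1) (M.vl (rl i.2))) (M.vl (rl (O i.1 i.2))) := by
  filter_upwards [ev_vl_st (fun i : ℕ × DJ J => HN.op (HN.op (HN.ck i.1) (rl i.2))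
      (rl (O i.1 i.2))) (supp_fnN2 hO),
    ev_app2 (U := UU) fun (n : ℕ) (d : DJ J) => O n d, ev_rlC J, ev_ckU J,
    ev_app (U := UU) fun i : ℕ × DJ J => i.2,
    ev_app2 (U := UU) fun (n : ℕ) (d : DJ J) => (n, d)] with S h1 h2 hC hK hs hp M
  obtain ⟨h3, h4, h5⟩ := h1 M
  refine ⟨h3, fun n d hd => h2 n d (hK.inN n) hd, fun z => (h5 z).trans ?_⟩
  refine exists_congr fun i => ?_
  have key : CC.In S i.2 → M.vl (HN.op (HN.op (HN.ck i.1) (rl i.2)) (rl (O i.1 i.2))) =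
      GL.op (GL.op (nat i.1) (M.vl (rl i.2))) (M.vl (rl (O i.1 i.2))) := fun hd => by
    rw [hK.vl_op M (hK.op (hK.ck _) (hC.rl _ hd)) (hC.rl _ (h2 _ _ (hK.inN _) hd)),
      hK.vl_op M (hK.ck _) (hC.rl _ hd), hK.vl_ck]
  constructor
  · rintro ⟨hi, rfl⟩
    exact ⟨hs i hi, key (hs i hi)⟩
  · rintro ⟨hi, rfl⟩
    exact ⟨hp i.1 i.2 (hK.inN _) hi, (key hi).symm⟩

/-- The function given by a family of local operations. -/
theorem ev_fnN2 [Nonempty J] {E : Sys.S (Gp J) (Cnd J)} {O : ℕ → DJ J → DJ J}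
    (hO : ∀ n, Eqv E (O n))
    (hloc : ∀ n d e v, br d.1 v = br e.1 v → br (O n d).1 v = br (O n e).1 v) :
    ∀ᶠ S in cl, ∀ M : Md J S, CC.In S (fnN2 hO) ∧
      (∀ (n : ℕ) (d : DJ J), CC.In S d → CC.In S (O n d)) ∧ M.cls E (M.vl (fnN2 hO)) ∧
      M.vl (fnN2 hO) ∈ GL.fs (GL.pd GL.om (M.vl (DDn J))) (M.vl (DDn J)) ∧
      ∀ (n : ℕ) (d : DJ J), CC.In S d →
        GL.ap (M.vl (fnN2 hO)) (GL.op (nat n) (M.vl (rl d))) = M.vl (rl (O n d)) := by
  filter_upwards [ev_mem_fnN2 hO, ev_rlC J, ev_g J] with S h1 hC hb M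
  obtain ⟨h2, h3, h4⟩ := h1 M
  obtain ⟨h5, h6⟩ := (hC.rls (hb M)).fn2 h3 hloc h4
  exact ⟨h2, h3, M.cls_of h2 (supp_fnN2 hO), h5, h6⟩

/-! ### The pair of functions -/

theorem br_map (f : ℕ → ℕ) (d : DJ J) (v : List J) : br (d.map f).1 v = (br d.1 v).map f := by
  induction v with
  | nil => rfl
  | cons x v ih => rw [br_cons, br_cons, List.map_cons, ih]; rfl

theorem eqv_map (E : Sys.S (Gp J) (Cnd J)) (f : ℕ → ℕ) : Eqv E fun d : DJ J => d.map f :=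
  fun _ _ _ => rfl

theorem loc_map (f : ℕ → ℕ) (d e : DJ J) (v : List J) (h : br d.1 v = br e.1 v) :
    br (d.map f).1 v = br (e.map f).1 v := by rw [br_map, br_map, h]

/-- The name of the first function. -/
noncomputable def F1n (E : Sys.S (Gp J) (Cnd J)) : HNJ J :=
  fnN (eqv_map E fun n => n.unpair.1)

/-- The name of the second function. -/
noncomputable def F2n (E : Sys.S (Gp J) (Cnd J)) : HNJ J :=
  fnN (eqv_map E fun n => n.unpair.2)

/-- The functions `F1n`, `F2n` map the set of the reals onto its square. -/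
theorem ev_pairFn (J : Type) [Nonempty J] (E : Sys.S (Gp J) (Cnd J)) :
    ∀ᶠ S in cl, ∀ M : Md J S, M.cls E (M.vl (F1n E)) ∧ M.cls E (M.vl (F2n E)) ∧
      M.vl (F1n E) ∈ GL.fs (M.vl (DDn J)) (M.vl (DDn J)) ∧
      M.vl (F2n E) ∈ GL.fs (M.vl (DDn J)) (M.vl (DDn J)) ∧
      PairFn (M.vl (DDn J)) (M.vl (F1n E)) (M.vl (F2n E)) := by
  filter_upwards [ev_fnN (eqv_map E fun n => n.unpair.1) (loc_map _),
    ev_fnN (eqv_map E fun n => n.unpair.2) (loc_map _), ev_rlC J,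
    ev_app2 (U := UU) fun d e : DJ J => d.map₂ Nat.pair e] with S h1 h2 hC hp M
  obtain ⟨-, -, a1, a2, a3⟩ := h1 M
  obtain ⟨-, -, b1, b2, b3⟩ := h2 M
  refine ⟨a1, b1, a2, b2, fun w z hw hz => ?_⟩
  obtain ⟨d, hd, rfl⟩ := hC.mem_DD.1 hw
  obtain ⟨e, he, rfl⟩ := hC.mem_DD.1 hz
  refine ⟨M.vl (rl (d.map₂ Nat.pair e)), hC.vl_rl_mem M (hp d e hd he), ?_, ?_⟩
  · refine (a3 _ (hp d e hd he)).trans ?_
    congr 2
    refine Subtype.ext (funext fun v => ?_)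
    show (Nat.unpair (Nat.pair (d.1 v) (e.1 v))).1 = d.1 v
    rw [Nat.unpair_pair]
  · refine (b3 _ (hp d e hd he)).trans ?_
    congr 2
    refine Subtype.ext (funext fun v => ?_)
    show (Nat.unpair (Nat.pair (d.1 v) (e.1 v))).2 = e.1 v
    rw [Nat.unpair_pair]

theorem ev_cls_DD (J : Type) : ∀ᶠ S in cl, ∀ (M : Md J S) (E : Sys.S (Gp J) (Cnd J)),
    M.cls E (M.vl (DDn J)) := by
  filter_upwards [ev_rlC J] with S hC M E
  exact M.cls_of hC.DD (supp_DDn E)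

end Pool.Agent.ZFW
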