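import Pool.Agent.ZFW.CAc

/-!
# MP_831107_lc : from the weak to the exact partition principle

`exact_of_weak` : let `D` be a set such that every image `U` of a set `V` injects into a product
of `D + V` with an ordinal. Then (with choice for well-ordered families, dependent choice and
`WF^i_i4`) every image `Y` of a set `Z` injects into `Z + D × κ` for an ordinal `κ`.
-/

universe u

set_option linter.unusedSectionVars false

namespace Pool.Agent.ZFW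

open Pool.Agent.SigB Pool.Agent.GL

variable {M : Type u} [Membership M M] [GL.IsZF M]

/-- Dependent choice for definable relations on sets. -/
def DCh (M : Type u) [Membership M M] [GL.IsZF M] : Prop :=
  ∀ (S : M) (R : M → M → Prop), Dfn (fun w : Fin 2 → M => R (w 0) (w 1)) → (∃ x, x ∈ S) →
    (∀ x, x ∈ S → ∃ y, y ∈ S ∧ R x y) →
    ∃ F : M, Fn F GL.om ∧ (∀ n, n ∈ (GL.om : M) → ap F n ∈ S) ∧
      ∀ n, n ∈ (GL.om : M) → R (ap F n) (ap F (sc n))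

/-- The preimage of `U`. -/
noncomputable def prim (Z f U : M) : M := sp Z fun z => ap f z ∈ U

theorem prim.dt : DT (fun w : Fin 3 → M => prim (w 0) (w 1) (w 2)) := by
  unfold prim; simp (maxDischargeDepth := 50)

@[simp] theorem dt_prim {n : ℕ} {s t r : (Fin n → M) → M} (hs : DT s) (ht : DT t) (hr : DT r) :
    DT (fun v => prim (s v) (t v) (r v)) := dt3 prim.dt hs ht hr

theorem mem_prim {Z f U z : M} : z ∈ prim Z f U ↔ z ∈ Z ∧ ap f z ∈ U := by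
  unfold prim
  exact mem_sp (by simp (maxDischargeDepth := 50))

/-- One step : if `U` does not inject into `f⁻¹[U] + D × κ` for any ordinal `κ`, then some
`U' ⊆ U` has the same property and `U' ≤ f⁻¹[U]`. -/
theorem exists_step (hac : ∀ k : M, Ord k → Acf k) {D Z f U : M}
    (hw : LeW U (sm D (prim Z f U)))
    (hU : ∀ κ : M, Ord κ → ¬ Le U (sm (prim Z f U) (pd D κ))) :
    ∃ U', Sb U' U ∧ Le U' (prim Z f U) ∧
      ∀ κ : M, Ord κ → ¬ Le U' (sm (prim Z f U') (pd D κ)) := by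
  classical
  obtain ⟨γ, hγ, h⟩ := hw
  obtain ⟨e, he, hei⟩ := le_iff.1 h
  rw [mem_fs] at he
  -- the pieces
  let C : M → M := fun i => sp U fun u => p2 (ap e u) = i ∧ p2 (p1 (ap e u)) = sc GL.em
  have hCd : DT (fun w : Fin 1 → M => C (w 0)) := by simp (maxDischargeDepth := 50) [C]
  have hCd' : ∀ {n : ℕ} {s : (Fin n → M) → M}, DT s → DT fun v => C (s v) := fun hs => dt1 hCd hs
  have hC : ∀ i u, u ∈ C i ↔ u ∈ U ∧ p2 (ap e u) = i ∧ p2 (p1 (ap e u)) = sc GL.em := fun i u =>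
    mem_sp (by simp (maxDischargeDepth := 50))
  have hval : ∀ u, u ∈ U → (∃ d i, d ∈ D ∧ i ∈ γ ∧ ap e u = op (op d GL.em) i) ∨
      ∃ v i, v ∈ prim Z f U ∧ i ∈ γ ∧ ap e u = op (op v (sc GL.em)) i := by
    intro u hu
    obtain ⟨a, ha, i, hi, h1⟩ := mem_pd.1 (he.2 u hu)
    rcases mem_sm.1 ha with ⟨d, hd, rfl⟩ | ⟨v, hv, rfl⟩
    · exact Or.inl ⟨d, i, hd, hi, h1⟩
    · exact Or.inr ⟨v, i, hv, hi, h1⟩
  have hCle : ∀ i, Le (C i) (prim Z f U) := by
    intro i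
    refine Le.of_dt (F := fun u => p1 (p1 (ap e u))) (by simp (maxDischargeDepth := 50))
      (fun u hu => ?_) fun u hu u' hu' h1 => ?_
    · obtain ⟨h2, h3, h4⟩ := (hC i u).1 hu
      rcases hval u h2 with ⟨d, j, hd, hj, h5⟩ | ⟨v, j, hv, hj, h5⟩
      · rw [h5, p1_op, p2_op] at h4
        exact absurd h4.symm sc_em_ne
      · rw [h5, p1_op, p1_op]
        exact hv
    · obtain ⟨h2, h3, h4⟩ := (hC i u).1 hu
      obtain ⟨h2', h3', h4'⟩ := (hC i u').1 hu'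
      rcases hval u h2 with ⟨d, j, hd, hj, h5⟩ | ⟨v, j, hv, hj, h5⟩
      · rw [h5, p1_op, p2_op] at h4
        exact absurd h4.symm sc_em_ne
      rcases hval u' h2' with ⟨d, j', hd, hj', h5'⟩ | ⟨v', j', hv', hj', h5'⟩
      · rw [h5', p1_op, p2_op] at h4'
        exact absurd h4'.symm sc_em_ne
      refine hei u u' h2 h2' ?_
      rw [h5, p2_op] at h3
      rw [h5', p2_op] at h3'
      rw [h5, h5', p1_op, p1_op, p1_op, p1_op] at h1
      rw [h5, h5', h1, h3, h3']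
  by_cases hex : ∃ i, i ∈ γ ∧ ∀ κ : M, Ord κ → ¬ Le (C i) (sm (prim Z f (C i)) (pd D κ))
  · obtain ⟨i, hi, h1⟩ := hex
    exact ⟨C i, fun u hu => ((hC i u).1 hu).1, hCle i, h1⟩
  exfalso
  push Not at hex
  -- the least ordinals and the injections
  let K : M → M := fun i => mu fun κ => Le (C i) (sm (prim Z f (C i)) (pd D κ))
  have hKd : DT (fun w : Fin 1 → M => K (w 0)) := by
    refine dt_mu (P := fun (v : Fin 1 → M) κ => Le (C (v 0)) (sm (prim Z f (C (v 0))) (pd D κ))) ?_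
    simp (maxDischargeDepth := 50) [hCd']
  have hKd' : ∀ {n : ℕ} {s : (Fin n → M) → M}, DT s → DT fun v => K (s v) := fun hs => dt1 hKd hs
  have hK : ∀ i, i ∈ γ → Ord (K i) ∧ Le (C i) (sm (prim Z f (C i)) (pd D (K i))) := by
    intro i hi
    obtain ⟨h1, h2, -⟩ := mu_spec (P := fun κ => Le (C i) (sm (prim Z f (C i)) (pd D κ)))
      (by simp (maxDischargeDepth := 50)) (hex i hi)
    exact ⟨h1, h2⟩
  let In : M → M := fun i => sp (fs (C i) (sm (prim Z f (C i)) (pd D (K i)))) fun h =>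
    ∀ x y, x ∈ C i → y ∈ C i → ap h x = ap h y → x = y
  have hInd : DT (fun w : Fin 1 → M => In (w 0)) := by
    simp (maxDischargeDepth := 50) [In, hCd', hKd']
  have hIn : ∀ i h, h ∈ In i ↔ h ∈ fs (C i) (sm (prim Z f (C i)) (pd D (K i))) ∧
      ∀ x y, x ∈ C i → y ∈ C i → ap h x = ap h y → x = y := fun i h =>
    mem_sp (by simp (maxDischargeDepth := 50))
  obtain ⟨c, hc, hc'⟩ := hac γ hγ (lam γ In) (fn_lam hInd) fun i hi => by
    rw [ap_lam hInd hi]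
    obtain ⟨g, hg, hgi⟩ := le_iff.1 (hK i hi).2
    exact ⟨g, (hIn i g).2 ⟨hg, hgi⟩⟩
  have hcI : ∀ i, i ∈ γ → Fn (ap c i) (C i) ∧
      (∀ x, x ∈ C i → ap (ap c i) x ∈ sm (prim Z f (C i)) (pd D (K i))) ∧
      ∀ x y, x ∈ C i → y ∈ C i → ap (ap c i) x = ap (ap c i) y → x = y := by
    intro i hi
    have h1 := hc' i hi
    rw [ap_lam hInd hi, hIn, mem_fs] at h1
    exact ⟨h1.1.1, h1.1.2, h1.2⟩
  obtain ⟨B, hB, hKB⟩ := exists_sup (a := γ) hKd fun i hi => (hK i hi).1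
  -- the well-orderable set of indices
  have hWo : WO (sm (pd γ B) γ) := wo_sm (wo_pd (wo_ord hγ) (wo_ord hB)) (wo_ord hγ)
  obtain ⟨κ, hκ, hWκ⟩ := hWo.le_ord
  refine hU κ hκ (Le.trans ?_ (le_sm (Le.refl _) (le_pd (Le.refl D) hWκ)))
  let H : M → M := fun u => if p2 (p1 (ap e u)) = GL.em then
      op (op (p1 (p1 (ap e u))) (op (p2 (ap e u)) (sc GL.em))) (sc GL.em)
    else if p2 (ap (ap c (p2 (ap e u))) u) = GL.em then
      op (p1 (ap (ap c (p2 (ap e u))) u)) GL.em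
    else op (op (p1 (p1 (ap (ap c (p2 (ap e u))) u)))
      (op (op (p2 (ap e u)) (p2 (p1 (ap (ap c (p2 (ap e u))) u)))) GL.em)) (sc GL.em)
  have hHd : DT (fun w : Fin 1 → M => H (w 0)) :=
    DT.ite (P := fun w : Fin 1 → M => p2 (p1 (ap e (w 0))) = GL.em)
      (by simp (maxDischargeDepth := 50)) (by simp (maxDischargeDepth := 50))
      (DT.ite (P := fun w : Fin 1 → M => p2 (ap (ap c (p2 (ap e (w 0)))) (w 0)) = GL.em)
        (by simp (maxDischargeDepth := 50)) (by simp (maxDischargeDepth := 50))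
        (by simp (maxDischargeDepth := 50)))
  -- the three kinds of values
  have hkind : ∀ u, u ∈ U →
      (∃ d i, d ∈ D ∧ i ∈ γ ∧ ap e u = op (op d GL.em) i ∧
        H u = op (op d (op i (sc GL.em))) (sc GL.em)) ∨
      (∃ i z, i ∈ γ ∧ u ∈ C i ∧ z ∈ prim Z f (C i) ∧ ap (ap c i) u = op z GL.em ∧
        H u = op z GL.em) ∨
      (∃ i d ζ, i ∈ γ ∧ u ∈ C i ∧ d ∈ D ∧ ζ ∈ K i ∧
        ap (ap c i) u = op (op d ζ) (sc GL.em) ∧
        H u = op (op d (op (op i ζ) GL.em)) (sc GL.em)) := by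
    intro u hu
    rcases hval u hu with ⟨d, i, hd, hi, h5⟩ | ⟨v, i, hv, hi, h5⟩
    · refine Or.inl ⟨d, i, hd, hi, h5, ?_⟩
      simp only [H, h5, p1_op, p2_op, if_true]
    · right
      have huC : u ∈ C i := (hC i u).2 ⟨hu, by rw [h5, p2_op], by rw [h5, p1_op, p2_op]⟩
      rcases mem_sm.1 ((hcI i hi).2.1 u huC) with ⟨z, hz, h6⟩ | ⟨q, hq, h6⟩
      · refine Or.inl ⟨i, z, hi, huC, hz, h6, ?_⟩
        simp only [H, h5, h6, p1_op, p2_op, if_true, if_neg sc_em_ne]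
      · obtain ⟨d, hd, ζ, hζ, rfl⟩ := mem_pd.1 hq
        refine Or.inr ⟨i, d, ζ, hi, huC, hd, hζ, h6, ?_⟩
        simp only [H, h5, h6, p1_op, p2_op, if_neg sc_em_ne]
  have hCu : ∀ {i j u : M}, u ∈ C i → u ∈ C j → i = j := fun {i j u} h1 h2 => by
    rw [← ((hC i u).1 h1).2.1, ((hC j u).1 h2).2.1]
  refine Le.of_dt (F := H) hHd (fun u hu => ?_) fun u hu u' hu' hH => ?_
  · rcases hkind u hu with ⟨d, i, hd, hi, -, h1⟩ | ⟨i, z, hi, -, hz, -, h1⟩ |
      ⟨i, d, ζ, hi, -, hd, hζ, -, h1⟩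
    · rw [h1]
      exact op_sc_mem_sm.2 (op_mem_pd.2 ⟨hd, op_sc_mem_sm.2 hi⟩)
    · rw [h1]
      obtain ⟨h2, h3⟩ := mem_prim.1 hz
      exact op_em_mem_sm.2 (mem_prim.2 ⟨h2, ((hC i _).1 h3).1⟩)
    · rw [h1]
      exact op_sc_mem_sm.2 (op_mem_pd.2 ⟨hd, op_em_mem_sm.2
        (op_mem_pd.2 ⟨hi, hB.trans hζ (hKB i hi)⟩)⟩)
  · rcases hkind u hu with ⟨d, i, hd, hi, h0, h1⟩ | ⟨i, z, hi, hui, hz, h0, h1⟩ |
      ⟨i, d, ζ, hi, hui, hd, hζ, h0, h1⟩ <;>
    rcases hkind u' hu' with ⟨d', i', hd', hi', h0', h1'⟩ | ⟨i', z', hi', hui', hz', h0', h1'⟩ |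
      ⟨i', d', ζ', hi', hui', hd', hζ', h0', h1'⟩ <;>
    rw [h1, h1'] at hH
    · obtain ⟨h2, -⟩ := op_inj.1 hH
      obtain ⟨h3, h4⟩ := op_inj.1 h2
      exact hei u u' hu hu' (by rw [h0, h0', h3, (op_inj.1 h4).1])
    · exact absurd (op_inj.1 hH).2 sc_em_ne
    · exact absurd (op_inj.1 (op_inj.1 (op_inj.1 hH).1).2).2 sc_em_ne
    · exact absurd (op_inj.1 hH).2.symm sc_em_ne
    · have h2 := (op_inj.1 hH).1
      subst h2
      have h3 : i = i' := hCu (mem_prim.1 hz).2 (mem_prim.1 hz').2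
      subst h3
      exact (hcI i hi).2.2 u u' hui hui' (by rw [h0, h0'])
    · exact absurd (op_inj.1 hH).2.symm sc_em_ne
    · exact absurd (op_inj.1 (op_inj.1 (op_inj.1 hH).1).2).2.symm sc_em_ne
    · exact absurd (op_inj.1 hH).2 sc_em_ne
    · obtain ⟨h2, -⟩ := op_inj.1 hH
      obtain ⟨h3, h4⟩ := op_inj.1 h2
      obtain ⟨h5, -⟩ := op_inj.1 h4
      obtain ⟨h6, h7⟩ := op_inj.1 h5
      subst h6
      exact (hcI i hi).2.2 u u' hui hui' (by rw [h0, h0', h3, h7])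

/-- **From the weak to the exact form.** -/
theorem exact_of_weak (hW : WF4 M Ix.i Iy.i) (hac : ∀ k : M, Ord k → Acf k) (hdc : DCh M) {D : M}
    (hw : ∀ U V : M, PS U V → LeW U (sm D V)) {Y Z : M} (hYZ : PS Y Z) :
    ∃ κ : M, Ord κ ∧ Le Y (sm Z (pd D κ)) := by
  obtain ⟨f, -, hf⟩ := hYZ
  have hps : ∀ U, Sb U Y → PS U (prim Z f U) := by
    intro U hU
    refine ps_of_fun (F := ap f) (by simp (maxDischargeDepth := 50)) fun u hu => ?_
    obtain ⟨z, hz, rfl⟩ := hf u (hU u hu)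
    exact ⟨z, mem_prim.2 ⟨hz, hu⟩, rfl⟩
  by_contra hno
  have hYb : ∀ κ : M, Ord κ → ¬ Le Y (sm (prim Z f Y) (pd D κ)) := by
    intro κ hκ h
    exact hno ⟨κ, hκ, h.trans (le_sm (Le.of_sb fun z hz => (mem_prim.1 hz).1) (Le.refl _))⟩
  have hdP : Dfn (fun w : Fin 1 → M =>
      ∀ κ : M, Ord κ → ¬ Le (w 0) (sm (prim Z f (w 0)) (pd D κ))) := by
    simp (maxDischargeDepth := 50)
  have hm : ∀ U, U ∈ sp (pw Y) (fun U => ∀ κ : M, Ord κ → ¬ Le U (sm (prim Z f U) (pd D κ))) ↔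
      Sb U Y ∧ ∀ κ : M, Ord κ → ¬ Le U (sm (prim Z f U) (pd D κ)) := fun U => by
    rw [mem_sp hdP, mem_pw]
  obtain ⟨F, hF, hFS, hFR⟩ := hdc _ (fun U U' => Sb U' U ∧ Le U' (prim Z f U))
    (by simp (maxDischargeDepth := 50)) ⟨Y, (hm Y).2 ⟨Sb.refl Y, hYb⟩⟩ fun U hU => by
    rw [hm] at hU
    obtain ⟨U', h1, h2, h3⟩ := exists_step hac (hw _ _ (hps U hU.1)) hU.2
    exact ⟨U', (hm U').2 ⟨fun z hz => hU.1 z (h1 z hz), h3⟩, h1, h2⟩
  have hsb : ∀ n, n ∈ (om : M) → Sb (prim Z f (ap F (sc n))) (prim Z f (ap F n)) :=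
    fun n hn z hz => by
      rw [mem_prim] at hz ⊢
      exact ⟨hz.1, (hFR n hn).1 _ hz.2⟩
  have hd1 : DT (fun w : Fin 1 → M => prim Z f (ap F (w 0))) := by simp (maxDischargeDepth := 50)
  have hd2 : DT (fun w : Fin 1 → M => idn (prim Z f (ap F (sc (w 0))))) := by
    unfold idn
    exact dt_lam (by simp (maxDischargeDepth := 50)) (DT.var 0)
  obtain ⟨n, m, A, A', hn, hm', hA, hA', hle⟩ := hW om (lam om fun n => prim Z f (ap F n))
    (lam om fun n => idn (prim Z f (ap F (sc n)))) (isOmega_iff.2 rfl) (isSeq_iff.2 (fn_lam hd1))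
    (isSeq_iff.2 (fn_lam hd2)) (by
      intro n m A A' g hn hm hA hA' hg
      rw [isSucc_iff] at hm
      subst hm
      obtain ⟨-, rfl⟩ := (val_fn (fn_lam hd1)).1 hA
      obtain ⟨-, rfl⟩ := (val_fn (fn_lam hd1)).1 hA'
      obtain ⟨-, rfl⟩ := (val_fn (fn_lam hd2)).1 hg
      rw [ap_lam (F := fun n => prim Z f (ap F n)) hd1 hn,
        ap_lam (F := fun n => prim Z f (ap F n)) hd1 (sc_mem_om hn),
        ap_lam (F := fun n => idn (prim Z f (ap F (sc n)))) hd2 hn]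
      refine isInjection_iff.2 ⟨idn_mem_fs (hsb n hn), fun x y hx hy h => ?_⟩
      rwa [ap_idn hx, ap_idn hy] at h)
  rw [isSucc_iff] at hm'
  subst hm'
  obtain ⟨-, rfl⟩ := (val_fn (fn_lam hd1)).1 hA
  obtain ⟨-, rfl⟩ := (val_fn (fn_lam hd1)).1 hA'
  rw [ap_lam (F := fun n => prim Z f (ap F n)) hd1 hn,
    ap_lam (F := fun n => prim Z f (ap F n)) hd1 (sc_mem_om hn)] at hle
  have h1 := ((hm _).1 (hFS _ (sc_mem_om hn))).2 GL.em ord_em
  exact h1 (((hFR n hn).2.trans hle).trans (le_sm_left _ _))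

/-- World I : the weak form of the partition principle gives the partition principle. -/
theorem pp_of_ppw (hW : WF4 M Ix.i Iy.i) (hac : ∀ k : M, Ord k → Acf k) (hdc : DCh M)
    (hw : ∀ U V : M, PS U V → LeW U V) {Y Z : M} (hYZ : PS Y Z) : Le Y Z := by
  have h0 : ∀ U V : M, PS U V → LeW U (sm GL.em V) := fun U V h => by
    obtain ⟨γ, hγ, h1⟩ := hw U V h
    exact ⟨γ, hγ, h1.trans (le_pd (le_sm_right _ _) (Le.refl _))⟩
  obtain ⟨κ, -, h⟩ := exact_of_weak hW hac hdc h0 hYZ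
  refine h.trans (Le.of_dt (F := p1) p1.dt (fun x hx => ?_) fun x hx y hy hxy => ?_)
  · rcases mem_sm.1 hx with ⟨a, ha, rfl⟩ | ⟨a, ha, rfl⟩
    · rw [p1_op]
      exact ha
    · obtain ⟨d, hd, -⟩ := mem_pd.1 ha
      exact (not_mem_em _ hd).elim
  · rcases mem_sm.1 hx with ⟨a, ha, rfl⟩ | ⟨a, ha, rfl⟩
    · rcases mem_sm.1 hy with ⟨b, hb, rfl⟩ | ⟨b, hb, rfl⟩
      · rw [p1_op, p1_op] at hxy
        rw [hxy]
      · obtain ⟨d, hd, -⟩ := mem_pd.1 hb
        exact (not_mem_em _ hd).elim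
    · obtain ⟨d, hd, -⟩ := mem_pd.1 ha
      exact (not_mem_em _ hd).elim

/-- World II : above the sum `D` of a failure of the weak form, the exact form holds modulo
`D × κ`. -/
theorem exact_of_fail (hW : WF4 M Ix.s Iy.i) (hWi : WF4 M Ix.i Iy.i)
    (hac : ∀ k : M, Ord k → Acf k) (hdc : DCh M) {A B : M} (hBA : PS B A) (hn : ¬ LeW B A)
    {Y Z : M} (hYZ : PS Y Z) : ∃ κ : M, Ord κ ∧ Le Y (sm Z (pd (sm A B) κ)) :=
  exact_of_weak hWi hac hdc (fun _ _ h => (dich hW hBA h).resolve_left hn) hYZ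

end Pool.Agent.ZFW
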