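import Pool.Agent.GL.Defs

/-!
# MP_831107_lc : the principles `WF^x_yk` and `CSB*` in a model of set theory

Everything is stated for an arbitrary structure `(M, ∈)`. All quantifiers in the definitions below
range over `M`, so each notion is first order over `M`. Models of ZF are those of
`Pool.Agent.GL.Defs` (`IsZF`); the notions `IsPair`, `IsOrdPair`, `Val`, `IsMap`, `IsInjection`,
`IsOmega` are those of `Pool.Agent.SigB.Defs`.
-/

universe u

namespace Pool.Agent.ZFW

open Pool.Agent.SigB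

section

variable {M : Type u} [Membership M M]

/-- `f` is a surjection from `X` onto `Y`. -/
def IsSurjection (f X Y : M) : Prop := IsMap f X Y ∧ ∀ y, y ∈ Y → ∃ x, Val f x y

/-- `|X| ≤ |Y|`. -/
def Le (X Y : M) : Prop := ∃ f, IsInjection f X Y

/-- `|X| ≤* |Y|` : `X = ∅` or `Y` maps onto `X`. -/
def LeStar (X Y : M) : Prop := (∀ x, x ∉ X) ∨ ∃ f, IsSurjection f Y X

/-- `|X| = |Y|`. -/
def EqCard (X Y : M) : Prop := ∃ f, IsInjection f X Y ∧ IsSurjection f X Y

end

/-- The dual Cantor-Schröder-Bernstein theorem `CSB*` in `M`. -/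
def CSBstar (M : Type u) [Membership M M] : Prop :=
  ∀ X Y : M, LeStar X Y → LeStar Y X → EqCard X Y

/-- The index `x ∈ {i, s}`. -/
inductive Ix
  | i
  | s

/-- The index `y ∈ {i, s, b}`. -/
inductive Iy
  | i
  | s
  | b

section

variable {M : Type u} [Membership M M]

/-- `|X| ≼_x |Y|`. -/
def Prec : Ix → M → M → Prop
  | Ix.i => Le
  | Ix.s => LeStar

/-- `|X| R_y |Y|`. -/
def RelY : Iy → M → M → Prop
  | Iy.i => Le
  | Iy.s => LeStar
  | Iy.b => EqCard

/-- `K` codes a cardinal: a nonempty set of pairwise equinumerous sets (for example, by Scott's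
trick, the set of all sets of least rank equinumerous with a given set). -/
def IsCode (K : M) : Prop := (∃ X, X ∈ K) ∧ ∀ X Y, X ∈ K → Y ∈ K → EqCard X Y

/-- `≼_x` for coded cardinals. -/
def CPrec (x : Ix) (K K' : M) : Prop := ∃ X Y, X ∈ K ∧ Y ∈ K' ∧ Prec x X Y

/-- `R_y` for coded cardinals. -/
def CRel (y : Iy) (K K' : M) : Prop := ∃ X Y, X ∈ K ∧ Y ∈ K' ∧ RelY y X Y

/-- `m` is the successor `n ∪ {n}`. -/
def IsSucc (m n : M) : Prop := ∀ w, w ∈ m ↔ w ∈ n ∨ w = n

/-- `s` is a sequence, that is, a function with domain `w = ω`. -/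
def IsSeq (s w : M) : Prop :=
  (∀ z, z ∈ s → ∃ n x, n ∈ w ∧ IsOrdPair z n x) ∧ ∀ n, n ∈ w → ∃! x, Val s n x

end

/-- `WF^x_y1` : every nonempty set of cardinals `C` has some `κ ∈ C` with
`λ ≼_x κ → κ R_y λ` for all `λ ∈ C`. -/
def WF1 (M : Type u) [Membership M M] (x : Ix) (y : Iy) : Prop :=
  ∀ C : M, (∃ K, K ∈ C) → (∀ K, K ∈ C → IsCode K) →
    ∃ K, K ∈ C ∧ ∀ K', K' ∈ C → CPrec x K' K → CRel y K K'

/-- `WF^x_y2` : for every sequence of cardinals with `κ_(n+1) ≼_x κ_n` for all `n` there is `n`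
with `κ_n R_y κ_(n+1)`. -/
def WF2 (M : Type u) [Membership M M] (x : Ix) (y : Iy) : Prop :=
  ∀ w s : M, IsOmega w → IsSeq s w → (∀ n K, Val s n K → IsCode K) →
    (∀ n m K K', n ∈ w → IsSucc m n → Val s n K → Val s m K' → CPrec x K' K) →
    ∃ n m K K', n ∈ w ∧ IsSucc m n ∧ Val s n K ∧ Val s m K' ∧ CRel y K K'

/-- `WF^x_y3` : for every sequence of sets with `|A_(n+1)| ≼_x |A_n|` for all `n` there is `n`
with `|A_n| R_y |A_(n+1)|`. -/
def WF3 (M : Type u) [Membership M M] (x : Ix) (y : Iy) : Prop :=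
  ∀ w s : M, IsOmega w → IsSeq s w →
    (∀ n m A A', n ∈ w → IsSucc m n → Val s n A → Val s m A' → Prec x A' A) →
    ∃ n m A A', n ∈ w ∧ IsSucc m n ∧ Val s n A ∧ Val s m A' ∧ RelY y A A'

/-- The maps of `WF^x_y4` : an injection `A' → A` (if `x = i`), a surjection `A → A'`
(if `x = s`). -/
def IsMapX {M : Type u} [Membership M M] : Ix → M → M → M → Prop
  | Ix.i => fun f A A' => IsInjection f A' A
  | Ix.s => fun f A A' => IsSurjection f A A'

/-- `WF^x_y4` : for every sequence of sets `(A_n)` together with a sequence of maps `(f_n)`,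
where `f_n : A_(n+1) → A_n` is an injection (`x = i`) or `f_n : A_n → A_(n+1)` is a surjection
(`x = s`), there is `n` with `|A_n| R_y |A_(n+1)|`. -/
def WF4 (M : Type u) [Membership M M] (x : Ix) (y : Iy) : Prop :=
  ∀ w s t : M, IsOmega w → IsSeq s w → IsSeq t w →
    (∀ n m A A' f, n ∈ w → IsSucc m n → Val s n A → Val s m A' → Val t n f → IsMapX x f A A') →
    ∃ n m A A', n ∈ w ∧ IsSucc m n ∧ Val s n A ∧ Val s m A' ∧ RelY y A A'

/-- Every nonempty set has an element which is minimal for the preorder `≤*` of cardinals. -/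
def MinStar (M : Type u) [Membership M M] : Prop :=
  ∀ C : M, (∃ X, X ∈ C) → ∃ X, X ∈ C ∧ ∀ Y, Y ∈ C → LeStar Y X → LeStar X Y

end Pool.Agent.ZFW
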