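import Pool.Agent.ZFW.Ps

/-!
The classification of the sets of the model up to surjections in both directions: every set is
equivalent to the disjoint union of `D × k` and `l`, with ordinals `k` and `l`.
-/

universe u

set_option linter.unusedSectionVars false

namespace Pool.Agent.ZFW

open Pool.Agent.SigB Pool.Agent.GL

variable {M : Type u} [Membership M M] [IsZF M]

/-- `z` belongs to the cone with the number `n`. -/
def Cone (R Cn n z : M) : Prop := z ∈ R ∧ op n z ∈ Cn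

theorem Cone.dfn : Dfn (fun w : Fin 4 → M => Cone (w 0) (w 1) (w 2) (w 3)) := by
  unfold Cone; simp (maxDischargeDepth := 50)

@[simp] theorem dfn_Cone {n : ℕ} {s t r q : (Fin n → M) → M} (hs : DT s) (ht : DT t)
    (hr : DT r) (hq : DT q) : Dfn (fun v => Cone (s v) (t v) (r v) (q v)) :=
  dfn4 Cone.dfn hs ht hr hq

/-- `x` is the constant value of some `Φ(a, .)` on some nonempty cone. -/
def Cst (kap R Cn Phi x : M) : Prop := ∃ a n, a ∈ kap ∧ n ∈ (om : M) ∧ (∃ z, Cone R Cn n z) ∧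
  ∀ z, Cone R Cn n z → ap Phi (op a z) = x

@[simp] theorem dfn_Cst {kap R Cn Phi : M} {n : ℕ} {s : (Fin n → M) → M} (hs : DT s) :
    Dfn (fun v => Cst kap R Cn Phi (s v)) :=
  dfn1 (R := fun x => Cst kap R Cn Phi x) (by unfold Cst; simp (maxDischargeDepth := 50)) hs

/-- The elements of `X` which are not constant and have no value `Φ(b, z')` with `b ∈ a`. -/
def InX (X kap R Cn Phi a x : M) : Prop := x ∈ X ∧ ¬ Cst kap R Cn Phi x ∧
  ∀ b z', b ∈ a → z' ∈ R → ap Phi (op b z') ≠ x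

@[simp] theorem dfn_InX {X kap R Cn Phi : M} {n : ℕ} {s t : (Fin n → M) → M} (hs : DT s)
    (ht : DT t) : Dfn (fun v => InX X kap R Cn Phi (s v) (t v)) :=
  dfn2 (R := fun a x => InX X kap R Cn Phi a x)
    (by unfold InX; simp (maxDischargeDepth := 50)) hs ht

/-- The parametrisation of the set `X` by reals. -/
structure Par (D X kap R Cn Phi Z : M) : Prop where
  ord : Ord kap
  sub : Sb R D
  fn : Fn Phi (pd kap R)
  z : Z ∈ fs (pd om D) D
  p1 : ∀ x, x ∈ X → ∃ a z, a ∈ kap ∧ z ∈ R ∧ ap Phi (op a z) = x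
  p2 : ∀ a z, a ∈ kap → z ∈ R → InX X kap R Cn Phi a (ap Phi (op a z)) →
    ∃ n, n ∈ (om : M) ∧ Cone R Cn n z ∧
      ∀ z', Cone R Cn n z' → InX X kap R Cn Phi a (ap Phi (op a z'))
  p3 : ∀ a n y y', a ∈ kap → n ∈ (om : M) → (∃ z, Cone R Cn n z) → y ∈ D → y' ∈ D → y ≠ y' →
    ap Phi (op a (ap Z (op n y))) = ap Phi (op a (ap Z (op n y'))) →
    ∃ n' c, n' ∈ (om : M) ∧ Cone R Cn n' (ap Z (op n y)) ∧
      ∀ z, Cone R Cn n' z → ap Phi (op a z) = c
  p4 : ∀ n y, n ∈ (om : M) → (∃ z, Cone R Cn n z) → y ∈ D → Cone R Cn n (ap Z (op n y))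

section

variable {D X kap R Cn Phi Z : M}

/-- The number of the cone on which the values of `Φ(a, .)` are in `X_a`. -/
noncomputable def nn (X kap R Cn Phi a : M) : M := mu fun n => n ∈ (om : M) ∧
  (∃ z, Cone R Cn n z) ∧ ∀ z, Cone R Cn n z → InX X kap R Cn Phi a (ap Phi (op a z))

@[simp] theorem dt_nn {n : ℕ} {s : (Fin n → M) → M} (hs : DT s) :
    DT (fun v => nn X kap R Cn Phi (s v)) :=
  dt1 (F := fun a => nn X kap R Cn Phi a) (by
    unfold nn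
    exact dt_mu (P := fun (v : Fin 1 → M) n => n ∈ (om : M) ∧ (∃ z, Cone R Cn n z) ∧
      ∀ z, Cone R Cn n z → InX X kap R Cn Phi (v 0) (ap Phi (op (v 0) z)))
      (by simp (maxDischargeDepth := 50))) hs

/-- The set of the `a` such that `Φ(a, .)` has a value in `X_a`. -/
noncomputable def KK (X kap R Cn Phi : M) : M :=
  sp kap fun a => ∃ z, z ∈ R ∧ InX X kap R Cn Phi a (ap Phi (op a z))

theorem mem_KK {a : M} : a ∈ KK X kap R Cn Phi ↔
    a ∈ kap ∧ ∃ z, z ∈ R ∧ InX X kap R Cn Phi a (ap Phi (op a z)) := by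
  unfold KK
  exact mem_sp (by simp (maxDischargeDepth := 50))

/-- The constant elements of `X`. -/
noncomputable def Xc (X kap R Cn Phi : M) : M := sp X (Cst kap R Cn Phi)

theorem mem_Xc {x : M} : x ∈ Xc X kap R Cn Phi ↔ x ∈ X ∧ Cst kap R Cn Phi x := by
  unfold Xc
  exact mem_sp (by simp (maxDischargeDepth := 50))

theorem nn_spec (h : Par D X kap R Cn Phi Z) {a : M} (ha : a ∈ KK X kap R Cn Phi) :
    nn X kap R Cn Phi a ∈ (om : M) ∧ (∃ z, Cone R Cn (nn X kap R Cn Phi a) z) ∧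
      ∀ z, Cone R Cn (nn X kap R Cn Phi a) z → InX X kap R Cn Phi a (ap Phi (op a z)) := by
  obtain ⟨ha, z, hz, hx⟩ := mem_KK.1 ha
  obtain ⟨n, hn, h1, h2⟩ := h.p2 a z ha hz hx
  unfold nn
  exact (mu_spec (P := fun n => n ∈ (om : M) ∧ (∃ z, Cone R Cn n z) ∧
    ∀ z, Cone R Cn n z → InX X kap R Cn Phi a (ap Phi (op a z)))
    (by simp (maxDischargeDepth := 50)) ⟨n, ord_of_mem_om hn, hn, ⟨z, h1⟩, h2⟩).2.1

/-- The injection of `D × K` into `X`. -/
noncomputable def Psi (X kap R Cn Phi Z y a : M) : M :=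
  ap Phi (op a (ap Z (op (nn X kap R Cn Phi a) y)))

theorem Psi.mem (h : Par D X kap R Cn Phi Z) {y a : M} (hy : y ∈ D)
    (ha : a ∈ KK X kap R Cn Phi) : ap Z (op (nn X kap R Cn Phi a) y) ∈ R ∧
      InX X kap R Cn Phi a (Psi X kap R Cn Phi Z y a) := by
  obtain ⟨h1, h2, h3⟩ := nn_spec h ha
  have h4 := h.p4 _ y h1 h2 hy
  exact ⟨h4.1, h3 _ h4⟩

theorem Psi.inj (h : Par D X kap R Cn Phi Z) {y a y' a' : M} (hy : y ∈ D)
    (ha : a ∈ KK X kap R Cn Phi) (hy' : y' ∈ D) (ha' : a' ∈ KK X kap R Cn Phi)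
    (he : Psi X kap R Cn Phi Z y a = Psi X kap R Cn Phi Z y' a') : y = y' ∧ a = a' := by
  have hOa := h.ord.mem (mem_KK.1 ha).1
  have hOa' := h.ord.mem (mem_KK.1 ha').1
  obtain ⟨h1, h2⟩ := Psi.mem h hy ha
  obtain ⟨h1', h2'⟩ := Psi.mem h hy' ha'
  rcases hOa.tri hOa' with h3 | h3 | h3
  · exact (h2'.2.2 a _ h3 h1 he).elim
  · subst h3
    refine ⟨?_, rfl⟩
    by_contra hne
    obtain ⟨h4, h5, h6⟩ := nn_spec h ha
    obtain ⟨n', c, h7, h8, h9⟩ := h.p3 a _ y y' (mem_KK.1 ha).1 h4 h5 hy hy' hne he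
    refine h2.2.1 ⟨a, n', (mem_KK.1 ha).1, h7, ⟨_, h8⟩, fun z hz => ?_⟩
    rw [h9 z hz]
    exact (h9 _ h8).symm
  · exact (h2.2.2 a' _ h3 h1' he.symm).elim

theorem wo_Xc (h : Par D X kap R Cn Phi Z) : WO (Xc X kap R Cn Phi) := by
  refine WO.of_ps (Y := pd kap om) ?_ (wo_pd (wo_ord h.ord) (wo_ord om_ord))
  -- the constant value
  refine ps_of_fun (F := fun p => cp fun w => ∃ a n z, p = op a n ∧ Cone R Cn n z ∧
    w ∈ ap Phi (op a z)) ?_ ?_
  · exact dt_cp (P := fun (v : Fin 1 → M) w => ∃ a n z, v 0 = op a n ∧ Cone R Cn n z ∧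
      w ∈ ap Phi (op a z)) (by simp (maxDischargeDepth := 50))
  · intro x hx
    obtain ⟨hx, a, n, ha, hn, ⟨z, hz⟩, hc⟩ := mem_Xc.1 hx
    refine ⟨op a n, op_mem_pd.2 ⟨ha, hn⟩, ?_⟩
    have h1 : ∀ w, w ∈ x ↔ ∃ a' n' z, op a n = op a' n' ∧ Cone R Cn n' z ∧
        w ∈ ap Phi (op a' z) := by
      intro w
      constructor
      · intro hw
        exact ⟨a, n, z, rfl, hz, by rwa [hc z hz]⟩
      · rintro ⟨a', n', z', he, hz', hw⟩
        obtain ⟨rfl, rfl⟩ := op_inj.1 he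
        rwa [hc z' hz'] at hw
    exact ext' fun w => by rw [h1 w]; exact mem_cp ⟨x, h1⟩

theorem ps_rest (h : Par D X kap R Cn Phi Z) :
    PS (df X (Xc X kap R Cn Phi)) (pd D (KK X kap R Cn Phi)) := by
  refine ps_of_fun (F := fun p => cp fun w => ∃ z a, p = op z a ∧ w ∈ ap Phi (op a z)) ?_ ?_
  · exact dt_cp (P := fun (v : Fin 1 → M) w => ∃ z a, v 0 = op z a ∧ w ∈ ap Phi (op a z))
      (by simp (maxDischargeDepth := 50))
  · intro x hx
    rw [mem_df, mem_Xc] at hx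
    obtain ⟨hx, hc⟩ := hx
    have hc' : ¬ Cst kap R Cn Phi x := fun h1 => hc ⟨hx, h1⟩
    obtain ⟨a₀, z₀, ha₀, hz₀, h0⟩ := h.p1 x hx
    obtain ⟨a, ha, ⟨z, hz, h1⟩, hmin⟩ := Ord.least h.ord
      (P := fun a => ∃ z, z ∈ R ∧ ap Phi (op a z) = x) (by simp (maxDischargeDepth := 50))
      ⟨a₀, ha₀, z₀, hz₀, h0⟩
    have haK : a ∈ KK X kap R Cn Phi := mem_KK.2 ⟨ha, z, hz, by
      rw [h1]
      exact ⟨hx, hc', fun b z' hb hz' he => hmin b hb ⟨z', hz', he⟩⟩⟩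
    refine ⟨op z a, op_mem_pd.2 ⟨h.sub z hz, haK⟩, ?_⟩
    have h2 : ∀ w, w ∈ x ↔ ∃ z' a', op z a = op z' a' ∧ w ∈ ap Phi (op a' z') := by
      intro w
      constructor
      · intro hw
        exact ⟨z, a, rfl, by rwa [h1]⟩
      · rintro ⟨z', a', he, hw⟩
        obtain ⟨rfl, rfl⟩ := op_inj.1 he
        rwa [h1] at hw
    exact ext' fun w => by rw [h2 w]; exact mem_cp ⟨x, h2⟩

theorem ps_pd_KK (h : Par D X kap R Cn Phi Z) :
    PS (pd D (KK X kap R Cn Phi)) (df X (Xc X kap R Cn Phi)) := by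
  refine ps_of_inj (F := fun p => cp fun w => ∃ y a, p = op y a ∧
    w ∈ Psi X kap R Cn Phi Z y a) ?_ ?_ ?_
  · unfold Psi
    exact dt_cp (P := fun (v : Fin 1 → M) w => ∃ y a, v 0 = op y a ∧
      w ∈ ap Phi (op a (ap Z (op (nn X kap R Cn Phi a) y)))) (by simp (maxDischargeDepth := 50))
  all_goals
    have key : ∀ y a : M, (cp fun w => ∃ y' a', op y a = op y' a' ∧
        w ∈ Psi X kap R Cn Phi Z y' a') = Psi X kap R Cn Phi Z y a := by
      intro y a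
      have h2 : ∀ w, w ∈ Psi X kap R Cn Phi Z y a ↔ ∃ y' a', op y a = op y' a' ∧
          w ∈ Psi X kap R Cn Phi Z y' a' := by
        intro w
        constructor
        · intro hw
          exact ⟨y, a, rfl, hw⟩
        · rintro ⟨y', a', he, hw⟩
          obtain ⟨rfl, rfl⟩ := op_inj.1 he
          exact hw
      exact ext' fun w => (mem_cp ⟨_, h2⟩).trans (h2 w).symm
  · intro p hp
    obtain ⟨y, hy, a, ha, rfl⟩ := mem_pd.1 hp
    rw [key]
    obtain ⟨-, h1, h2, -⟩ := Psi.mem h hy ha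
    rw [mem_df, mem_Xc]
    exact ⟨h1, fun h3 => h2 h3.2⟩
  · intro p hp p' hp' he
    obtain ⟨y, hy, a, ha, rfl⟩ := mem_pd.1 hp
    obtain ⟨y', hy', a', ha', rfl⟩ := mem_pd.1 hp'
    rw [key, key] at he
    obtain ⟨rfl, rfl⟩ := Psi.inj h hy ha hy' ha' he
    rfl

end

/-- **The classification.** -/
theorem exists_code {D : M} (hP : ∀ X, ∃ kap R Cn Phi Z, Par D X kap R Cn Phi Z) (X : M) :
    ∃ k l, Ord k ∧ Ord l ∧ Code D k l X := by
  obtain ⟨kap, R, Cn, Phi, Z, h⟩ := hP X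
  obtain ⟨l, hl, hl1, hl2⟩ := (wo_Xc h).exists_ord
  have hK : WO (KK X kap R Cn Phi) := (wo_ord h.ord).mono fun a ha => (mem_KK.1 ha).1
  obtain ⟨k, hk, hk1, hk2⟩ := hK.exists_ord
  refine ⟨k, l, hk, hl, ?_, ?_⟩
  · refine ps_sm_of_cover (X1 := df X (Xc X kap R Cn Phi)) (X2 := Xc X kap R Cn Phi)
      (fun x hx => ?_) ((ps_rest h).trans (ps_pd (PS.refl D) hk1)) hl1
    by_cases hc : x ∈ Xc X kap R Cn Phi
    · exact Or.inr hc
    · exact Or.inl (mem_df.2 ⟨hx, hc⟩)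
  · exact sm_ps_of_disjoint (X1 := df X (Xc X kap R Cn Phi)) (X2 := Xc X kap R Cn Phi)
      (fun x hx => (mem_df.1 hx).1) (fun x hx => (mem_Xc.1 hx).1) (fun x hx => (mem_df.1 hx).2)
      ((ps_pd (PS.refl D) hk2).trans (ps_pd_KK h)) hl2

end Pool.Agent.ZFW
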