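import Pool.Agent.ZFW.Ps
import Pool.Agent.ZFW.Br

/-!
The removal of a well-orderable set from `D × k`, and the `≤*`-minimal elements of a nonempty set
of coded sets.
-/

universe u

set_option linter.unusedSectionVars false

namespace Pool.Agent.ZFW

open Pool.Agent.SigB Pool.Agent.GL

variable {M : Type u} [Membership M M] [GL.IsZF M]

theorem ps_iff_leStar {X Y : M} : PS X Y ↔ LeStar X Y := by
  constructor
  · rintro ⟨f, -, h⟩
    exact LeStar.of_dt (F := ap f) (by simp (maxDischargeDepth := 50)) h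
  · intro h
    rcases leStar_iff.1 h with h | ⟨f, hf, h⟩
    · exact ps_of_sb fun x hx => (h x hx).elim
    · exact ⟨f, (mem_fs.1 hf).1, h⟩

theorem WO.im {V : M} (hV : WO V) {F : M → M} (hF : DT (fun w : Fin 1 → M => F (w 0))) :
    WO (GL.im V F) :=
  WO.of_ps (ps_of_fun hF fun x hx => by
    obtain ⟨y, hy, rfl⟩ := (mem_im hF).1 hx
    exact ⟨y, hy, rfl⟩) hV

/-- The set `D` carries two functions `F₁`, `F₂` to `D` whose pair maps `D` onto `D × D`. -/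
def PairFn (D F₁ F₂ : M) : Prop :=
  ∀ w z, w ∈ D → z ∈ D → ∃ y, y ∈ D ∧ ap F₁ y = w ∧ ap F₂ y = z

/-- Removing a well-orderable set from `D × k` does not change it. -/
theorem ps_pd_df {D F₁ F₂ k V : M} (hF : PairFn D F₁ F₂) (hD : ¬ WO D) (hV : WO V) :
    PS (pd D k) (df (pd D k) V) := by
  have h2 : DT (fun w : Fin 1 → M => ap F₂ (p1 (w 0))) := by
    simp (maxDischargeDepth := 50)
  have h1 : DT (fun w : Fin 1 → M => op (ap F₁ (p1 (w 0))) (p2 (w 0))) := by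
    simp (maxDischargeDepth := 50)
  obtain ⟨z₀, hz₀, hz₀'⟩ : ∃ z, z ∈ D ∧ z ∉ GL.im V fun q => ap F₂ (p1 q) := by
    by_contra hne
    push Not at hne
    exact hD (WO.mono hne (hV.im h2))
  refine ps_of_fun (F := fun q => op (ap F₁ (p1 q)) (p2 q)) h1 fun x hx => ?_
  obtain ⟨w, hw, b, hb, rfl⟩ := mem_pd.1 hx
  obtain ⟨y, hy, hyw, hyz⟩ := hF w z₀ hw hz₀
  refine ⟨op y b, mem_df.2 ⟨op_mem_pd.2 ⟨hy, hb⟩, fun hyV => hz₀' ?_⟩, ?_⟩
  · exact (mem_im h2).2 ⟨_, hyV, by rw [p1_op, hyz]⟩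
  · rw [p1_op, p2_op, hyw]

/-- If `D × k'` is covered by `D × k + l`, then it is covered by `D × k`. -/
theorem ps_pd_of_ps_Nn {D F₁ F₂ k k' l : M} (hF : PairFn D F₁ F₂) (hD : ¬ WO D) (hl : Ord l)
    (h : PS (pd D k') (Nn D k l)) : PS (pd D k') (pd D k) := by
  obtain ⟨X1, X2, -, -, hX, h1, h2⟩ := h.of_sum
  refine (ps_pd_df hF hD (WO.of_ps h2 (wo_ord hl))).trans (PS.trans (ps_of_sb fun x hx => ?_) h1)
  obtain ⟨hx, hx2⟩ := mem_df.1 hx
  exact (hX x hx).resolve_right hx2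

/-- Every nonempty set of coded sets has a minimal element. -/
theorem minStar_of_code {D F₁ F₂ : M} (hF : PairFn D F₁ F₂) (hD : ¬ WO D)
    (hcode : ∀ X : M, ∃ k l, Ord k ∧ Ord l ∧ Code D k l X) : MinStar M := by
  rintro C ⟨X₀, hX₀⟩
  obtain ⟨k₀, l₀, hk₀, hl₀, h₀⟩ := hcode X₀
  obtain ⟨k, hk, ⟨X₁, l₁, hX₁, hl₁, h₁⟩, hkmin⟩ := Ord.exists_least
    (P := fun k => ∃ X l, X ∈ C ∧ Ord l ∧ Code D k l X) (by simp (maxDischargeDepth := 50)) hk₀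
    ⟨X₀, l₀, hX₀, hl₀, h₀⟩
  obtain ⟨l, hl, ⟨X, hX, h⟩, hlmin⟩ := Ord.exists_least
    (P := fun l => ∃ X, X ∈ C ∧ Code D k l X) (by simp (maxDischargeDepth := 50)) hl₁
    ⟨X₁, hX₁, h₁⟩
  refine ⟨X, hX, fun Y hY hYX => ?_⟩
  rw [← ps_iff_leStar] at hYX ⊢
  obtain ⟨k', l', hk', hl', h'⟩ := hcode Y
  have hkk : Sb k k' := (Ord.not_mem_iff hk' hk).1 fun hlt => hkmin _ hlt ⟨Y, l', hY, hl', h'⟩
  have hps : PS (pd D k') (pd D k) :=
    ps_pd_of_ps_Nn hF hD hl (((ps_sm_left _ _).trans h'.2).trans (hYX.trans h.1))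
  have hcY : Code D k l' Y :=
    ⟨h'.1.trans (ps_sm hps (PS.refl l')), (Nn_mono hkk (Sb.refl l')).trans h'.2⟩
  have hll : Sb l l' := (Ord.not_mem_iff hl' hl).1 fun hlt => hlmin _ hlt ⟨Y, hY, hcY⟩
  exact (h.1.trans (Nn_mono (Sb.refl k) hll)).trans hcY.2

end Pool.Agent.ZFW
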