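import Pool.Agent.ZFW.Tree2

/-!
Every countable set can be moved into the union of `E` and a block by an automorphism which fixes
the `E`-patterns.
-/

namespace Pool.Agent.ZFW

universe u

variable {J : Type u}

theorem rho_const (π : Equiv.Perm J) : ∀ v : List J, rho (fun _ => π) v = v.map π := by
  intro v
  induction v with
  | nil => rfl
  | cons x v ih => rw [rho_cons, ih]; rfl

theorem ka_perm_iff {K L : Set J} {π : Equiv.Perm J} (h : ∀ x, x ∈ K ↔ π x ∈ L) (x y : J) :
    ka L (π x) = ka L (π y) ↔ ka K x = ka K y := by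
  rw [ka_eq_iff, ka_eq_iff, h x, h y, π.injective.eq_iff]

theorem pat_map_iff {K L : Set J} {π : Equiv.Perm J} (h : ∀ x, x ∈ K ↔ π x ∈ L) :
    ∀ v w : List J, Pat L (v.map π) (w.map π) ↔ Pat K v w := by
  intro v
  induction v with
  | nil =>
    intro w
    cases w with
    | nil => exact ⟨fun _ => rfl, fun _ => rfl⟩
    | cons y w =>
      constructor
      · intro h; exact absurd h.length (by simp)
      · intro h; exact absurd h.length (by simp)
  | cons x v ih =>
    intro w
    cases w with
    | nil =>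
      constructor
      · intro h; exact absurd h.length (by simp)
      · intro h; exact absurd h.length (by simp)
    | cons y w =>
      rw [List.map_cons, List.map_cons, Pat.cons_iff, Pat.cons_iff, ih w, ka_perm_iff h]

/-- A countable set outside of `E` is covered by an injective sequence outside of `E`. -/
theorem exists_cover [Uncountable J] {E K : Set J} (hE : E.Countable) (hK : K.Countable)
    {C : Set J} (hC : C.Countable) (hCE : ∀ x ∈ C, x ∉ E) :
    ∃ a : ℕ → J, Function.Injective a ∧ (∀ x ∈ C, ∃ j, a j = x) ∧ (∀ j, a j ∉ E) ∧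
      ∀ j, a j ∈ K → a j ∈ C := by
  obtain ⟨d, hd, hd'⟩ := exists_block (J := J) ((hE.union hK).union hC)
  have h1 : (C ∪ Set.range d).Countable := hC.union (Set.countable_range d)
  have h2 : (C ∪ Set.range d).Infinite := (Set.infinite_range_of_injective hd).mono
    Set.subset_union_right
  have := h1.to_subtype
  have := h2.to_subtype
  obtain ⟨e⟩ : Nonempty (ℕ ≃ (C ∪ Set.range d : Set J)) := nonempty_equiv_of_countable
  refine ⟨fun n => (e n).1, fun i j h => e.injective (Subtype.ext h), fun x hx => ?_, fun j => ?_,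
    fun j hj => ?_⟩
  · exact ⟨e.symm ⟨x, Or.inl hx⟩, congrArg Subtype.val (e.apply_symm_apply _)⟩
  · rcases (e j).2 with h | ⟨i, h⟩
    · exact hCE _ h
    · intro h3
      change (e j).1 ∈ E at h3
      rw [← h] at h3
      exact hd' i (Or.inl (Or.inl h3))
  · rcases (e j).2 with h | ⟨i, h⟩
    · exact h
    · exfalso
      change (e j).1 ∈ K at hj
      rw [← h] at hj
      exact hd' i (Or.inl (Or.inr hj))

/-- A permutation which fixes the points of `E` and moves `F` into the union of `E` and the
block `b`. -/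
theorem exists_perm_into [Uncountable J] {E F : Set J} (hE : E.Countable) (hF : F.Countable)
    {b : ℕ → J} (hb : Function.Injective b) (hbE : ∀ i, b i ∉ E) :
    ∃ π : Equiv.Perm J, (∀ x ∈ E, π x = x) ∧ ∀ x ∈ F, π x ∈ E ∪ Set.range b := by
  obtain ⟨a, ha, haC, haE, -⟩ := exists_cover hE (Set.countable_empty)
    (C := F \ E) (hF.mono Set.sdiff_subset) (fun x hx => hx.2)
  obtain ⟨c, hc, hc'⟩ := exists_block (J := J)
    ((hE.union (Set.countable_range a)).union (Set.countable_range b))
  have s1 : Sep a c := ⟨ha, hc, fun i j h => hc' j (Or.inl (Or.inr ⟨i, h⟩))⟩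
  have s2 : Sep c b := ⟨hc, hb, fun i j h => hc' i (Or.inr ⟨j, h.symm⟩)⟩
  have hcE : ∀ i, c i ∉ E := fun i h => hc' i (Or.inl (Or.inl h))
  refine ⟨swp c b * swp a c, fun x hx => ?_, fun x hx => ?_⟩
  · rw [Equiv.Perm.mul_apply, swp_other s1 (fun i h => haE i (h ▸ hx)) (fun i h => hcE i (h ▸ hx)),
      swp_other s2 (fun i h => hcE i (h ▸ hx)) (fun i h => hbE i (h ▸ hx))]
  · by_cases hxE : x ∈ E
    · left
      rw [Equiv.Perm.mul_apply, swp_other s1 (fun i h => haE i (h ▸ hxE))
        (fun i h => hcE i (h ▸ hxE)), swp_other s2 (fun i h => hcE i (h ▸ hxE))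
        (fun i h => hbE i (h ▸ hxE))]
      exact hxE
    · right
      obtain ⟨j, rfl⟩ := haC x ⟨hx, hxE⟩
      rw [Equiv.Perm.mul_apply, swp_left s1, swp_left s2]
      exact ⟨j, rfl⟩

/-- Every countable support can be moved into `E` and a block by an element of `HE E`. -/
theorem exists_into [Uncountable J] {E F : Set J} (hE : E.Countable) (hF : F.Countable)
    {b : ℕ → J} (hb : Function.Injective b) (hbE : ∀ i, b i ∉ E) :
    ∃ g ∈ HE E, ∀ h ∈ HE (E ∪ Set.range b), g * h * g⁻¹ ∈ HE F := by
  obtain ⟨π, hπE, hπF⟩ := exists_perm_into hE hF hb hbE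
  have hmem : rho (fun _ : List J => π) ∈ HE E := by
    refine rho_mem_HE (Set.countable_empty) (fun _ _ _ => rfl) fun _ x => ?_
    rw [ka_eq_iff]
    by_cases hx : x ∈ E
    · exact Or.inl (hπE x hx)
    · refine Or.inr ⟨fun h => hx ?_, hx⟩
      have h1 := hπE _ h
      rw [← π.injective h1]
      exact h
  refine ⟨(rho fun _ => π)⁻¹, inv_mem hmem, fun h hh => ?_⟩
  rw [inv_inv]
  refine ⟨mul_mem (mul_mem (inv_mem hmem.1) hh.1) hmem.1, fun p => ?_⟩
  rw [Equiv.Perm.mul_apply, Equiv.Perm.mul_apply]
  have h1 : Pat (π '' F) (h (rho (fun _ => π) p)) (rho (fun _ => π) p) := by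
    refine (hh.2 _).mono ?_
    rintro _ ⟨x, hx, rfl⟩
    exact hπF x hx
  have h2 := app_inv (rho fun _ : List J => π) (h (rho (fun _ => π) p))
  rw [← h2, rho_const _ ((rho fun _ => π)⁻¹ (h (rho (fun _ => π) p))), rho_const _ p] at h1
  rw [pat_map_iff (K := F) (fun x => ?_)] at h1
  · rw [rho_const]
    exact h1
  · constructor
    · exact fun hx => ⟨x, hx, rfl⟩
    · rintro ⟨y, hy, h⟩
      rw [← π.injective h]
      exact hy

end Pool.Agent.ZFW
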