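import Pool.Agent.ZFW.Ctx
import Pool.Agent.ZFW.Into

/-!
Enumeration of a family by ordinals, and of the names with the support `F`.
-/

universe u v

namespace Pool.Agent.ZFW

/-- A family is enumerated by ordinals. -/
theorem exists_enum {I : Type u} {A : Type v} [Nonempty A] (f : I → A) :
    ∃ (k : Ordinal.{u}) (e : Ordinal.{u} → A), (∀ a, a < k → ∃ i, e a = f i) ∧
      ∀ i, ∃ a, a < k ∧ e a = f i := by
  classical
  let r : I → I → Prop := WellOrderingRel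
  let k : Ordinal.{u} := Ordinal.type r
  refine ⟨k, fun a => if h : a < k then f (Ordinal.enum r ⟨a, h⟩) else Classical.arbitrary A,
    fun a ha => ⟨Ordinal.enum r ⟨a, ha⟩, dif_pos ha⟩, fun i => ?_⟩
  have h : Ordinal.typein r i < k := Ordinal.typein_lt_type r i
  refine ⟨Ordinal.typein r i, h, (dif_pos h).trans ?_⟩
  exact congrArg f (Ordinal.enum_typein r i)

/-- The names with the support `F` from which the members of `X` are obtained by the group of
`E`. -/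
theorem exists_names {J : Type} [Uncountable J] (X : HNJ J) {E F : Sys.S (Gp J) (Cnd J)}
    {b : ℕ → J} (hb : Function.Injective b) (hbE : ∀ i, b i ∉ E.1)
    (hF : F.1 = E.1 ∪ Set.range b) : ∃ (k : Ordinal.{0}) (e : Ordinal.{0} → HNJ J),
      (∀ a, a < k → (e a).Supp F) ∧ ∀ j : X.1.Idx, ∃ h : Gp J, h ∈ Sys.H (P := Cnd J) E ∧
        ∃ a, a < k ∧ X.nm j = h • e a := by
  let I : Type := {i : X.1.Idx × Gp J // i.2 ∈ Sys.H (P := Cnd J) E ∧ (i.2⁻¹ • X.nm i.1).Supp F}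
  have : Nonempty (HNJ J) := ⟨X⟩
  obtain ⟨k, e, h1, h2⟩ := exists_enum fun i : I => i.1.2⁻¹ • X.nm i.1.1
  refine ⟨k, e, fun a ha => ?_, fun j => ?_⟩
  · obtain ⟨i, hi⟩ := h1 a ha
    rw [hi]
    exact i.2.2
  · obtain ⟨E', hE'⟩ := (X.nm j).exists_supp
    obtain ⟨g, hg, hg'⟩ := exists_into E.2 E'.2 hb hbE
    have hgG : g ∈ GG J := (mem_HE.1 hg).1
    obtain ⟨g₁, hg₁⟩ : ∃ g₁ : Gp J, g₁.1 = g := ⟨⟨g, hgG⟩, rfl⟩
    have hs : (g₁⁻¹ • X.nm j).Supp F := by
      refine Nm.Supp.smul (E := E') g₁⁻¹ (fun h hh => ?_) hE'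
      rw [mem_H] at hh ⊢
      rw [hF] at hh
      have := hg' _ hh
      rw [← hg₁] at this
      rw [inv_inv]
      exact this
    obtain ⟨a, ha, hea⟩ := h2 ⟨(j, g₁), by rw [mem_H, hg₁]; exact hg, hs⟩
    refine ⟨g₁, by rw [mem_H, hg₁]; exact hg, a, ha, ?_⟩
    rw [hea]
    exact (smul_inv_smul g₁ (X.nm j)).symm

end Pool.Agent.ZFW
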