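import Mathlib

/-!
Countable closed sets of objects: the club filter on the countable subsets of a type `U`, and a
calculus for objects of several types which are coded in `U`. A statement of the form
`∀ᶠ S in clubF U, P S` says that `P S` holds for all countable sets `S` which are closed under
a suitable function with countable values.
-/

open Filter

universe u v w x y z

namespace Pool.Agent.ZFW

/-- The countable subsets of `U`. -/
def CC (U : Type u) : Type u := {S : Set U // S.Countable}

section club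

variable {U : Type u}

/-- The set `S` is closed under `F`. -/
def ClosedU (F : List U → Set U) (S : Set U) : Prop :=
  ∀ l, (∀ x ∈ l, x ∈ S) → F l ⊆ S

/-- The stages of the closure. -/
def stage (F : List U → Set U) : ℕ → Set U
  | 0 => ∅
  | k + 1 => stage F k ∪ ⋃ l ∈ {l | ∀ x ∈ l, x ∈ stage F k}, F l

theorem countable_lists {s : Set U} (h : s.Countable) : {l : List U | ∀ x ∈ l, x ∈ s}.Countable := by
  rw [← Set.range_list_map_coe]
  have := h.to_subtype
  exact Set.countable_range _

theorem stage_countable {F : List U → Set U} (hF : ∀ l, (F l).Countable) (k : ℕ) :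
    (stage F k).Countable := by
  induction k with
  | zero => exact Set.countable_empty
  | succ k ih => exact ih.union ((countable_lists ih).biUnion fun l _ => hF l)

theorem stage_mono (F : List U → Set U) {k m : ℕ} (h : k ≤ m) : stage F k ⊆ stage F m := by
  induction h with
  | refl => exact le_refl _
  | step _ ih => exact ih.trans Set.subset_union_left

theorem exists_closed {F : List U → Set U} (hF : ∀ l, (F l).Countable) :
    ∃ S : CC U, ClosedU F S.1 := by
  refine ⟨⟨⋃ k, stage F k, Set.countable_iUnion fun k => stage_countable hF k⟩, ?_⟩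
  intro l hl
  have h1 : ∃ k, ∀ x ∈ l, x ∈ stage F k := by
    induction l with
    | nil => exact ⟨0, by simp⟩
    | cons a l ih =>
      obtain ⟨k, hk⟩ := ih fun x hx => hl x (List.mem_cons_of_mem _ hx)
      obtain ⟨m, hm⟩ := Set.mem_iUnion.1 (hl a List.mem_cons_self)
      refine ⟨max k m, fun x hx => ?_⟩
      rcases List.mem_cons.1 hx with rfl | hx
      · exact stage_mono F (le_max_right _ _) hm
      · exact stage_mono F (le_max_left _ _) (hk x hx)
  obtain ⟨k, hk⟩ := h1
  intro x hx
  exact Set.mem_iUnion.2 ⟨k + 1, Or.inr (Set.mem_biUnion (show l ∈ {l | ∀ x ∈ l, x ∈ stage F k}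
    from hk) hx)⟩

variable (U) in
/-- The club filter on the countable subsets of `U`. -/
def clubF : Filter (CC U) where
  sets := {A | ∃ F : List U → Set U, (∀ l, (F l).Countable) ∧ ∀ S : CC U, ClosedU F S.1 → S ∈ A}
  univ_sets := ⟨fun _ => ∅, fun _ => Set.countable_empty, fun _ _ => trivial⟩
  sets_of_superset := by
    rintro A B ⟨F, hF, hF'⟩ h
    exact ⟨F, hF, fun S hS => h (hF' S hS)⟩
  inter_sets := by
    rintro A B ⟨F, hF, hF'⟩ ⟨G, hG, hG'⟩
    exact ⟨fun l => F l ∪ G l, fun l => (hF l).union (hG l), fun S hS =>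
      ⟨hF' S fun l hl => Set.subset_union_left.trans (hS l hl),
        hG' S fun l hl => Set.subset_union_right.trans (hS l hl)⟩⟩

theorem mem_clubF {A : Set (CC U)} : A ∈ clubF U ↔
    ∃ F : List U → Set U, (∀ l, (F l).Countable) ∧ ∀ S : CC U, ClosedU F S.1 → S ∈ A := Iff.rfl

instance clubF_neBot : (clubF U).NeBot := by
  refine ⟨fun h => ?_⟩
  have h1 : (∅ : Set (CC U)) ∈ clubF U := by rw [h]; exact Filter.mem_bot
  obtain ⟨F, hF, hF'⟩ := mem_clubF.1 h1
  obtain ⟨S, hS⟩ := exists_closed hF
  exact hF' S hS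

instance clubF_countableInter : CountableInterFilter (clubF U) := by
  refine ⟨fun C hC h => ?_⟩
  have h1 : ∀ A : C, ∃ F : List U → Set U, (∀ l, (F l).Countable) ∧
      ∀ S : CC U, ClosedU F S.1 → S ∈ A.1 := fun A => mem_clubF.1 (h A.1 A.2)
  choose F hF hF' using h1
  have := hC.to_subtype
  refine mem_clubF.2 ⟨fun l => ⋃ A, F A l, fun l => Set.countable_iUnion fun A => hF A l, ?_⟩
  intro S hS A hA
  exact hF' ⟨A, hA⟩ S fun l hl => (Set.subset_iUnion (fun A => F A l) ⟨A, hA⟩).trans (hS l hl)

/-- Closure under one function with countable values. -/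
theorem clubF_closed {F : List U → Set U} (hF : ∀ l, (F l).Countable) :
    ∀ᶠ S in clubF U, ClosedU F S.1 := mem_clubF.2 ⟨F, hF, fun _ h => h⟩

/-- Normality of the club filter. -/
theorem clubF_normal {Q : U → CC U → Prop} (h : ∀ a, ∀ᶠ S in clubF U, Q a S) :
    ∀ᶠ S in clubF U, ∀ a ∈ S.1, Q a S := by
  have h1 : ∀ a, ∃ F : List U → Set U, (∀ l, (F l).Countable) ∧
      ∀ S : CC U, ClosedU F S.1 → Q a S := fun a => mem_clubF.1 (h a)
  choose F hF hF' using h1
  refine mem_clubF.2 ⟨fun l => match l with
    | [] => ∅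
    | a :: l => F a l, ?_, ?_⟩
  · rintro (_ | ⟨a, l⟩)
    · exact Set.countable_empty
    · exact hF a l
  · intro S hS a ha
    refine hF' a S fun l hl => ?_
    exact hS (a :: l) fun x hx => by
      rcases List.mem_cons.1 hx with rfl | hx
      · exact ha
      · exact hl x hx

end club

/-- The elements of `α` are coded in `U`. -/
class Obj (U : Type u) (α : Type v) where
  /-- the code -/
  inj : α → U
  inj_injective : Function.Injective inj

/-- The object `a` belongs to `S`. -/
def CC.In {U : Type u} {α : Type v} (S : CC U) (a : α) [Obj U α] : Prop := Obj.inj a ∈ S.1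

section calculus

variable {U : Type u} {α : Type v} {β : Type w} {γ : Type x} {δ : Type y} {ε : Type z}
  [Obj U α] [Obj U β] [Obj U γ] [Obj U δ] [Obj U ε]

theorem CC.countable_in (S : CC U) : {a : α | S.In a}.Countable :=
  S.2.preimage_of_injOn (Obj.inj_injective (U := U) (α := α)).injOn

/-- Normality. -/
theorem ev_normal {Q : α → CC U → Prop} (h : ∀ a, ∀ᶠ S in clubF U, Q a S) :
    ∀ᶠ S in clubF U, ∀ a, S.In a → Q a S := by
  have h1 : ∀ x : U, ∀ᶠ S in clubF U, ∀ a : α, Obj.inj a = x → Q a S := by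
    intro x
    by_cases hx : ∃ a : α, (Obj.inj a : U) = x
    · obtain ⟨a, ha⟩ := hx
      filter_upwards [h a] with S hS b hb
      have : b = a := Obj.inj_injective (hb.trans ha.symm)
      rw [this]
      exact hS
    · exact Filter.Eventually.of_forall fun S b hb => absurd ⟨b, hb⟩ hx
  filter_upwards [clubF_normal h1] with S hS a ha
  exact hS _ ha a rfl

theorem ev_normal2 {Q : α → β → CC U → Prop} (h : ∀ a b, ∀ᶠ S in clubF U, Q a b S) :
    ∀ᶠ S in clubF U, ∀ a b, S.In a → S.In b → Q a b S := by
  filter_upwards [ev_normal fun a => ev_normal (h a)] with S hS a b ha hb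
  exact hS a ha b hb

theorem ev_normal3 {Q : α → β → γ → CC U → Prop} (h : ∀ a b c, ∀ᶠ S in clubF U, Q a b c S) :
    ∀ᶠ S in clubF U, ∀ a b c, S.In a → S.In b → S.In c → Q a b c S := by
  filter_upwards [ev_normal fun a => ev_normal2 (h a)] with S hS a b c ha hb hc
  exact hS a ha b c hb hc

theorem ev_normal4 {Q : α → β → γ → δ → CC U → Prop}
    (h : ∀ a b c d, ∀ᶠ S in clubF U, Q a b c d S) :
    ∀ᶠ S in clubF U, ∀ a b c d, S.In a → S.In b → S.In c → S.In d → Q a b c d S := by
  filter_upwards [ev_normal fun a => ev_normal3 (h a)] with S hS a b c d ha hb hc hd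
  exact hS a ha b c d hb hc hd

/-- Every object belongs to almost all `S`. -/
theorem ev_mem (a : α) : ∀ᶠ S in clubF U, S.In a := by
  filter_upwards [clubF_closed (F := fun _ => {(Obj.inj a : U)})
    (fun _ => Set.countable_singleton _)] with S hS
  exact hS [] (by simp) rfl

/-- A countable set of objects is included in almost all `S`. -/
theorem ev_sub {A : Set α} (hA : A.Countable) : ∀ᶠ S in clubF U, ∀ a ∈ A, S.In a :=
  (eventually_countable_ball hA).2 fun a _ => ev_mem a

theorem ev_all [Countable α] : ∀ᶠ S in clubF U, ∀ a : α, S.In a :=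
  eventually_countable_forall.2 fun a => ev_mem a

theorem ev_app (F : α → β) : ∀ᶠ S in clubF U, ∀ a, S.In a → S.In (F a) :=
  ev_normal fun a => ev_mem (F a)

theorem ev_app2 (F : α → β → γ) : ∀ᶠ S in clubF U, ∀ a b, S.In a → S.In b → S.In (F a b) :=
  ev_normal2 fun a b => ev_mem (F a b)

theorem ev_app3 (F : α → β → γ → δ) :
    ∀ᶠ S in clubF U, ∀ a b c, S.In a → S.In b → S.In c → S.In (F a b c) :=
  ev_normal3 fun a b c => ev_mem (F a b c)

theorem ev_app4 (F : α → β → γ → δ → ε) :
    ∀ᶠ S in clubF U, ∀ a b c d, S.In a → S.In b → S.In c → S.In d → S.In (F a b c d) :=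
  ev_normal4 fun a b c d => ev_mem (F a b c d)

/-- Witnesses. -/
theorem ev_ex0 (R : β → Prop) (h : ∃ b, R b) : ∀ᶠ S in clubF U, ∃ b, S.In b ∧ R b := by
  obtain ⟨b, hb⟩ := h
  filter_upwards [ev_mem b] with S hS
  exact ⟨b, hS, hb⟩

theorem ev_ex (R : α → β → Prop) :
    ∀ᶠ S in clubF U, ∀ a, S.In a → (∃ b, R a b) → ∃ b, S.In b ∧ R a b := by
  refine ev_normal fun a => ?_
  by_cases h : ∃ b, R a b
  · filter_upwards [ev_ex0 (U := U) (R a) h] with S hS _
    exact hS
  · exact Filter.Eventually.of_forall fun S h' => absurd h' h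

theorem ev_ex2 (R : α → β → γ → Prop) :
    ∀ᶠ S in clubF U, ∀ a b, S.In a → S.In b → (∃ c, R a b c) → ∃ c, S.In c ∧ R a b c := by
  filter_upwards [ev_normal fun a => ev_ex (R a)] with S hS a b ha hb
  exact hS a ha b hb

theorem ev_ex3 (R : α → β → γ → δ → Prop) :
    ∀ᶠ S in clubF U, ∀ a b c, S.In a → S.In b → S.In c →
      (∃ d, R a b c d) → ∃ d, S.In d ∧ R a b c d := by
  filter_upwards [ev_normal fun a => ev_ex2 (R a)] with S hS a b c ha hb hc
  exact hS a ha b c hb hc

theorem ev_ex4 (R : α → β → γ → δ → ε → Prop) :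
    ∀ᶠ S in clubF U, ∀ a b c d, S.In a → S.In b → S.In c → S.In d →
      (∃ e, R a b c d e) → ∃ e, S.In e ∧ R a b c d e := by
  filter_upwards [ev_normal fun a => ev_ex3 (R a)] with S hS a b c d ha hb hc hd
  exact hS a ha b c d hb hc hd

/-- The elements of a countable set in `S` are in `S`. -/
theorem ev_ctble [Obj U (Set α)] :
    ∀ᶠ S in clubF U, ∀ A : Set α, S.In A → A.Countable → ∀ a ∈ A, S.In a := by
  refine ev_normal fun A => ?_
  by_cases h : A.Countable
  · filter_upwards [ev_sub (U := U) h] with S hS _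
    exact hS
  · exact Filter.Eventually.of_forall fun S h' => absurd h' h

/-- The values of a function with countable values. -/
theorem ev_values {F : α → Set β} (hF : ∀ a, (F a).Countable) :
    ∀ᶠ S in clubF U, ∀ a, S.In a → ∀ b ∈ F a, S.In b :=
  ev_normal fun a => ev_sub (hF a)

/-- Finite lists. -/
theorem ev_list [Obj U (List α)] :
    ∀ᶠ S in clubF U, ∀ l : List α, S.In l ↔ ∀ a ∈ l, S.In a := by
  have h1 : ∀ᶠ S in clubF U, ∀ l : List α, S.In l → ∀ a ∈ l, S.In a :=
    ev_values (F := fun l : List α => {a | a ∈ l}) fun l => (List.finite_toSet l).countable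
  filter_upwards [h1, ev_mem (U := U) ([] : List α), ev_app2 (U := U) fun (a : α) (l : List α) => a :: l]
    with S h1 h2 h3 l
  refine ⟨h1 l, fun h => ?_⟩
  induction l with
  | nil => exact h2
  | cons a l ih =>
    exact h3 a l (h a List.mem_cons_self) (ih fun x hx => h x (List.mem_cons_of_mem _ hx))

end calculus

end Pool.Agent.ZFW
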