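import Pool.Agent.ZFW.Fc
import Pool.Agent.ZFW.Sub

/-!
Generic filters, and the model given by a countable set of names and a generic filter.
-/

universe u v w

namespace Pool.Agent.ZFW

open Pool.Agent.SigB Pool.Agent.Frc Filter

/-! ### Filters -/

section Flt

variable {P : Type u} [Preorder P]

/-- `G` is a filter. -/
structure Flt (G : Set P) : Prop where
  ne : G.Nonempty
  up : ∀ p q, p ∈ G → p ≤ q → q ∈ G
  dir : ∀ p q, p ∈ G → q ∈ G → ∃ r, r ∈ G ∧ r ≤ p ∧ r ≤ q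

/-- There is a filter which meets countably many sets which are dense in a set `C` of conditions,
in elements of `C`. -/
theorem exists_flt {C : Set P} {p₀ : P} (hp₀ : p₀ ∈ C) {D : Set (Set P)} (hD : D.Countable)
    (h : ∀ d, d ∈ D → ∀ p, p ∈ C → ∃ q, q ∈ C ∧ q ≤ p ∧ q ∈ d) :
    ∃ G : Set P, Flt G ∧ p₀ ∈ G ∧ (∀ p, p ∈ G → ∃ q, q ∈ C ∧ q ∈ G ∧ q ≤ p) ∧
      ∀ d, d ∈ D → ∃ q, q ∈ C ∧ q ∈ G ∧ q ∈ d := by
  classical
  -- an enumeration of the dense sets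
  obtain ⟨e, he⟩ : ∃ e : ℕ → Set P, (∀ n, ∀ p, p ∈ C → ∃ q, q ∈ C ∧ q ≤ p ∧ q ∈ e n) ∧
      ∀ d, d ∈ D → ∃ n, e n = d := by
    rcases D.eq_empty_or_nonempty with rfl | hne
    · exact ⟨fun _ => Set.univ, fun _ p hp => ⟨p, hp, le_rfl, trivial⟩, fun d hd => hd.elim⟩
    · obtain ⟨e, rfl⟩ := hD.exists_eq_range hne
      exact ⟨e, fun n => h _ ⟨n, rfl⟩, fun d hd => hd⟩
  choose f hf using he.1
  let s : ℕ → {p : P // p ∈ C} := fun n =>
    Nat.rec ⟨p₀, hp₀⟩ (fun k p => ⟨f k p.1 p.2, (hf k p.1 p.2).1⟩) n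
  have hs : ∀ k, (s (k + 1)).1 ≤ (s k).1 ∧ (s (k + 1)).1 ∈ e k := fun k =>
    ⟨(hf k (s k).1 (s k).2).2.1, (hf k (s k).1 (s k).2).2.2⟩
  have hle : Antitone fun n => (s n).1 := antitone_nat_of_succ_le fun k => (hs k).1
  refine ⟨{q | ∃ n, (s n).1 ≤ q}, ⟨⟨p₀, 0, le_rfl⟩, ?_, ?_⟩, ⟨0, le_rfl⟩, ?_, ?_⟩
  · rintro p q ⟨n, hn⟩ hpq
    exact ⟨n, hn.trans hpq⟩
  · rintro p q ⟨n, hn⟩ ⟨m, hm⟩
    exact ⟨(s (max n m)).1, ⟨_, le_rfl⟩, (hle (le_max_left n m)).trans hn,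
      (hle (le_max_right n m)).trans hm⟩
  · rintro p ⟨n, hn⟩
    exact ⟨(s n).1, (s n).2, ⟨n, le_rfl⟩, hn⟩
  · intro d hd
    obtain ⟨n, rfl⟩ := he.2 d hd
    exact ⟨(s (n + 1)).1, (s (n + 1)).2, ⟨n + 1, le_rfl⟩, (hs n).2⟩

end Flt

/-! ### Filters which are generic over a countable set of objects -/

section GenS

variable {P : Type u} [Preorder P] {U : Type w} [Obj U P] [Obj U (Set P)]

/-- `G` is a filter which meets the dense sets which belong to `S`, in elements of `S`. -/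
structure GenS (S : CC U) (G : Set P) : Prop extends Flt G where
  sub : ∀ p, p ∈ G → ∃ q, S.In q ∧ q ∈ G ∧ q ≤ p
  gen : ∀ d : Set P, S.In d → (∀ p, ∃ q, q ≤ p ∧ q ∈ d) → ∃ q, S.In q ∧ q ∈ G ∧ q ∈ d

/-- Almost all `S` have a generic filter, with any given condition. -/
theorem ev_exists_gen (p₀ : P) : ∀ᶠ S in clubF U, ∃ G : Set P, GenS S G ∧ p₀ ∈ G := by
  filter_upwards [ev_mem p₀, ev_ex2 (U := U) fun (d : Set P) (p q : P) => q ≤ p ∧ q ∈ d]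
    with S h0 h1
  obtain ⟨G, hG, hG0, hG1, hG2⟩ := exists_flt (C := {p : P | S.In p}) (p₀ := p₀) h0
    (D := {d : Set P | S.In d ∧ ∀ p, ∃ q, q ≤ p ∧ q ∈ d})
    ((S.countable_in (α := Set P)).mono fun d hd => hd.1) (by
      rintro d ⟨hd, hd'⟩ p hp
      obtain ⟨q, hq, hq'⟩ := h1 d p hd hp (hd' p)
      exact ⟨q, hq, hq'⟩)
  exact ⟨G, ⟨hG, hG1, fun d hd hd' => hG2 d ⟨hd, hd'⟩⟩, hG0⟩

/-- For almost all `S`: a generic filter meets the sets in `S` which are dense below one of its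
elements. -/
theorem ev_below : ∀ᶠ S in clubF U, ∀ G : Set P, GenS S G → ∀ p, p ∈ G → ∀ d : Set P, S.In d →
    (∀ q, q ≤ p → ∃ r, r ≤ q ∧ r ∈ d) → ∃ r, S.In r ∧ r ∈ G ∧ r ≤ p ∧ r ∈ d := by
  filter_upwards [ev_app2 (U := U) fun (d : Set P) (p : P) =>
    {r : P | r ≤ p ∧ r ∈ d ∨ ∀ s, s ≤ r → ¬ s ≤ p}] with S h1 G hG p hp d hd h
  obtain ⟨p', hp', hpG, hpp⟩ := hG.sub p hp
  obtain ⟨r, hr, hrG, hr'⟩ := hG.gen _ (h1 d p' hd hp') (by
    intro q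
    by_cases hq : ∃ s, s ≤ q ∧ s ≤ p'
    · obtain ⟨s, hs, hs'⟩ := hq
      obtain ⟨r, hr, hrd⟩ := h s (hs'.trans hpp)
      exact ⟨r, hr.trans hs, Or.inl ⟨hr.trans hs', hrd⟩⟩
    · push Not at hq
      exact ⟨q, le_rfl, Or.inr hq⟩)
  rcases hr' with h2 | h2
  · exact ⟨r, hr, hrG, h2.1.trans hpp, h2.2⟩
  · obtain ⟨t, -, ht, ht'⟩ := hG.dir r p' hrG hpG
    exact (h2 t ht ht').elim

end GenS

/-! ### The model -/

section Val

variable {P : Type u} [Preorder P] {X : Type v}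

/-- What is needed from the set `S` of names and from the filter `G`. -/
structure Gd (A : Atm P X) (S : X → Prop) (G : Set P) : Prop extends Flt G where
  dec : ∀ {n : ℕ} (φ : Fml {x // S x} n) (v : Fin n → {x // S x}), ∃ p, p ∈ G ∧
    (Fc A (mapP Subtype.val φ) p (fun i => (v i).1) ∨
      Fc A (.neg (mapP Subtype.val φ)) p (fun i => (v i).1))
  wit : ∀ {n : ℕ} (φ : Fml {x // S x} (n + 1)) (v : Fin n → {x // S x}) (p : P), p ∈ G →
    Fc A (.ex (mapP Subtype.val φ)) p (fun i => (v i).1) →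
    ∃ q, q ∈ G ∧ ∃ x : {x // S x}, Fc A (mapP Subtype.val φ) q (Fin.cons x.1 fun i => (v i).1)

/-- `W` is the model given by the names in `S` and the filter `G`, and `val` is the evaluation of
names. -/
structure Val (A : Atm P X) (S : X → Prop) (G : Set P) {W : Type v} [Membership W W]
    (val : {x // S x} → W) : Prop where
  gd : Gd A S G
  surj : Function.Surjective val
  eq_iff : ∀ x y, val x = val y ↔ ∃ p, p ∈ G ∧ A.eqF p x.1 y.1
  mem_iff : ∀ x y, val x ∈ val y ↔ ∃ p, p ∈ G ∧ A.memF p x.1 y.1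

/-- The model exists. -/
theorem exists_val {A : Atm P X} {S : X → Prop} {G : Set P} (hG : Gd A S G) :
    ∃ (W : Type v) (_ : Membership W W) (val : {x // S x} → W), Val A S G val := by
  let eq : {x // S x} → {x // S x} → Prop := fun x y => ∃ p, p ∈ G ∧ A.eqF p x.1 y.1
  let mem : {x // S x} → {x // S x} → Prop := fun x y => ∃ p, p ∈ G ∧ A.memF p x.1 y.1
  have hrefl : ∀ x, eq x x := by
    obtain ⟨p, hp⟩ := hG.ne
    exact fun x => ⟨p, hp, A.eq_refl p x.1⟩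
  have hsymm : ∀ x y, eq x y → eq y x := by
    rintro x y ⟨p, hp, h⟩
    exact ⟨p, hp, A.eq_symm h⟩
  have htrans : ∀ x y z, eq x y → eq y z → eq x z := by
    rintro x y z ⟨p, hp, h⟩ ⟨q, hq, h'⟩
    obtain ⟨r, hr, hrp, hrq⟩ := hG.dir p q hp hq
    exact ⟨r, hr, A.eq_trans (A.eq_mono h hrp) (A.eq_mono h' hrq)⟩
  have hcongr : ∀ x x' y y', eq x x' → eq y y' → mem x y → mem x' y' := by
    rintro x x' y y' ⟨p, hp, h⟩ ⟨q, hq, h'⟩ ⟨t, ht, h2⟩
    obtain ⟨r, hr, hrp, hrq⟩ := hG.dir p q hp hq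
    obtain ⟨s, hs, hsr, hst⟩ := hG.dir r t hr ht
    exact ⟨s, hs, A.mem_congr (A.eq_mono h (hsr.trans hrp)) (A.eq_mono h' (hsr.trans hrq))
      (A.mem_mono h2 hst)⟩
  let T : Setoid {x // S x} := ⟨eq, ⟨hrefl, fun h => hsymm _ _ h, fun h h' => htrans _ _ _ h h'⟩⟩
  let W : Type v := Quotient T
  let inst : Membership W W := ⟨fun y x => Quotient.liftOn₂ x y mem fun x y x' y' h h' =>
      propext ⟨fun h1 => hcongr _ _ _ _ h h' h1,
        fun h1 => hcongr _ _ _ _ (hsymm _ _ h) (hsymm _ _ h') h1⟩⟩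
  exact ⟨W, inst, fun x => Quotient.mk T x, hG, Quotient.mk_surjective,
    fun x y => Quotient.eq (r := T), fun x y => Iff.rfl⟩

end Val

end Pool.Agent.ZFW
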