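import Pool.Agent.ZFW.GenA

/-!
The truth lemma for the model given by a countable set of names and a generic filter, and the
elements of the values of names.
-/

universe u v

namespace Pool.Agent.ZFW

open Pool.Agent.SigB Pool.Agent.Frc

section truth

variable {P : Type u} [Preorder P] {X : Type v} {A : Atm P X} {S : X → Prop} {G : Set P}
  {W : Type v} [Membership W W] {val : {x // S x} → W}

/-- Finitely many conditions in a filter have a common extension in the filter. -/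
theorem Flt.dir_fin {G : Set P} (hG : Flt G) {n : ℕ} (p : Fin n → P) (hp : ∀ i, p i ∈ G) :
    ∃ q, q ∈ G ∧ ∀ i, q ≤ p i := by
  induction n with
  | zero =>
    obtain ⟨q, hq⟩ := hG.ne
    exact ⟨q, hq, fun i => i.elim0⟩
  | succ n ih =>
    obtain ⟨q, hq, h⟩ := ih (fun i => p i.succ) fun i => hp i.succ
    obtain ⟨r, hr, h1, h2⟩ := hG.dir q (p 0) hq (hp 0)
    refine ⟨r, hr, fun i => ?_⟩
    refine Fin.cases ?_ (fun i => ?_) i
    · exact h2
    · exact h1.trans (h i)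

omit [Membership W W] in
theorem val_elim {n : ℕ} (v : Fin n → {x // S x}) (s : Fin n ⊕ {x // S x}) :
    Sum.elim (fun i => val (v i)) id (Sum.map id val s) = val (Sum.elim v id s) := by
  rcases s with i | a <;> rfl

theorem coe_elim {n : ℕ} (v : Fin n → {x // S x}) (s : Fin n ⊕ {x // S x}) :
    Sum.elim (fun i => (v i).1) id (Sum.map id Subtype.val s) = (Sum.elim v id s).1 := by
  rcases s with i | a <;> rfl

theorem cons_fun {B : Type v} {n : ℕ} (f : {x // S x} → B) (x : {x // S x})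
    (v : Fin n → {x // S x}) :
    (fun i => f ((Fin.cons x v : Fin (n + 1) → {x // S x}) i)) =
      Fin.cons (f x) fun i => f (v i) := by
  funext i
  refine Fin.cases ?_ (fun i => ?_) i <;> rfl

/-- **The truth lemma.** -/
theorem Val.truth (hV : Val A S G val) : ∀ {n : ℕ} (φ : Fml {x // S x} n)
    (v : Fin n → {x // S x}), (mapP val φ).Sat (fun i => val (v i)) ↔
      ∃ p, p ∈ G ∧ Fc A (mapP Subtype.val φ) p (fun i => (v i).1)
  | _, .mem s t, v => by
    show Sum.elim _ id (Sum.map id val s) ∈ Sum.elim _ id (Sum.map id val t) ↔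
      ∃ p, p ∈ G ∧ A.memF p (Sum.elim _ id (Sum.map id Subtype.val s))
        (Sum.elim _ id (Sum.map id Subtype.val t))
    rw [val_elim, val_elim, coe_elim, coe_elim]
    exact hV.mem_iff _ _
  | _, .eq s t, v => by
    show Sum.elim _ id (Sum.map id val s) = Sum.elim _ id (Sum.map id val t) ↔
      ∃ p, p ∈ G ∧ A.eqF p (Sum.elim _ id (Sum.map id Subtype.val s))
        (Sum.elim _ id (Sum.map id Subtype.val t))
    rw [val_elim, val_elim, coe_elim, coe_elim]
    exact hV.eq_iff _ _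
  | _, .neg φ, v => by
    show ¬ (mapP val φ).Sat _ ↔ ∃ p, p ∈ G ∧ Fc A (.neg (mapP Subtype.val φ)) p _
    rw [Val.truth hV φ v]
    constructor
    · intro h
      obtain ⟨p, hp, h1 | h1⟩ := hV.gd.dec φ v
      · exact (h ⟨p, hp, h1⟩).elim
      · exact ⟨p, hp, h1⟩
    · rintro ⟨p, hp, h1⟩ ⟨q, hq, h2⟩
      obtain ⟨r, -, hrp, hrq⟩ := hV.gd.dir p q hp hq
      exact h1 r hrp (fc_mono A _ h2 hrq)
  | _, .and φ ψ, v => by
    show (mapP val φ).Sat _ ∧ (mapP val ψ).Sat _ ↔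
      ∃ p, p ∈ G ∧ Fc A (mapP Subtype.val φ) p _ ∧ Fc A (mapP Subtype.val ψ) p _
    rw [Val.truth hV φ v, Val.truth hV ψ v]
    constructor
    · rintro ⟨⟨p, hp, h1⟩, ⟨q, hq, h2⟩⟩
      obtain ⟨r, hr, hrp, hrq⟩ := hV.gd.dir p q hp hq
      exact ⟨r, hr, fc_mono A _ h1 hrp, fc_mono A _ h2 hrq⟩
    · rintro ⟨p, hp, h1, h2⟩
      exact ⟨⟨p, hp, h1⟩, ⟨p, hp, h2⟩⟩
  | _, .ex φ, v => by
    show (∃ w, (mapP val φ).Sat (Fin.cons w _)) ↔
      ∃ p, p ∈ G ∧ Fc A (.ex (mapP Subtype.val φ)) p _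
    constructor
    · rintro ⟨w, hw⟩
      obtain ⟨x, rfl⟩ := hV.surj w
      rw [← cons_fun, Val.truth hV φ (Fin.cons x v), cons_fun] at hw
      obtain ⟨p, hp, h⟩ := hw
      exact ⟨p, hp, fun q hq => ⟨q, le_rfl, x.1, fc_mono A _ h hq⟩⟩
    · rintro ⟨p, hp, h⟩
      obtain ⟨q, hq, x, hx⟩ := hV.gd.wit φ v p hp h
      refine ⟨val x, ?_⟩
      rw [← cons_fun, Val.truth hV φ (Fin.cons x v), cons_fun]
      exact ⟨q, hq, hx⟩

/-- The truth lemma for sentences. -/
theorem Val.truth₀ (hV : Val A S G val) (φ : Fml {x // S x} 0) :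
    (mapP val φ).Sat ![] ↔ ∃ p, p ∈ G ∧ Fc A (mapP Subtype.val φ) p ![] := by
  have h := hV.truth φ ![]
  have e1 : (fun i => val ((![] : Fin 0 → {x // S x}) i)) = ![] := by
    funext i
    exact i.elim0
  have e2 : (fun i => ((![] : Fin 0 → {x // S x}) i).1) = ![] := by
    funext i
    exact i.elim0
  rwa [e1, e2] at h

/-- What all conditions force is true. -/
theorem Val.sat_of_forall (hV : Val A S G val) {n : ℕ} (φ : Fml {x // S x} n)
    (v : Fin n → {x // S x}) (h : ∀ p, Fc A (mapP Subtype.val φ) p (fun i => (v i).1)) :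
    (mapP val φ).Sat (fun i => val (v i)) := by
  obtain ⟨p, hp⟩ := hV.gd.ne
  exact (hV.truth φ v).2 ⟨p, hp, h p⟩

/-- Every formula over `W` comes from a formula over the names. -/
theorem Val.exists_fml (hV : Val A S G val) {n : ℕ} (ψ : Fml W n) :
    ∃ φ : Fml {x // S x} n, mapP val φ = ψ := exists_mapP hV.surj ψ

theorem Val.exists_tuple (hV : Val A S G val) {n : ℕ} (w : Fin n → W) :
    ∃ v : Fin n → {x // S x}, (fun i => val (v i)) = w := by
  choose v hv using fun i => hV.surj (w i)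
  exact ⟨v, funext hv⟩

end truth

/-! ### The hereditarily symmetric names -/

section hn

variable {Γ P : Type u} [Group Γ] [Preorder P] [OrderTop P] [Sys Γ P]

/-- The names which may be elements of a hereditarily symmetric name. -/
def HN.nm (y : HN Γ P) (j : y.1.Idx) : HN Γ P := ⟨y.1.nm j, y.2.nm j⟩

@[simp] theorem HN.nm_val (y : HN Γ P) (j : y.1.Idx) : (y.nm j).1 = y.1.nm j := rfl

/-- The formula `z ∈ x ∧ z ∉ y`, the variable is `z`. -/
def difF {Y : Type v} (x y : Y) : Fml Y 1 :=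
  .and (.mem (.inl 0) (.inr x)) (.neg (.mem (.inl 0) (.inr y)))

/-- If no element of `x` is forced to be outside `y` and conversely then `x = y` is forced. -/
theorem eqF_of_not_dif {r : P} {x y : HN Γ P} (h1 : Fc (hn Γ P) (.neg (.ex (difF x y))) r ![])
    (h2 : Fc (hn Γ P) (.neg (.ex (difF y x))) r ![]) : (hn Γ P).eqF r x y := by
  have key : ∀ x y : HN Γ P, Fc (hn Γ P) (.neg (.ex (difF x y))) r ![] → ∀ z : HN Γ P, ∀ q ≤ r,
      (hn Γ P).memF q z x → (hn Γ P).memF q z y := by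
    intro x y h z q hq hz
    refine (hn Γ P).mem_dense fun s hs => ?_
    by_contra hno
    push Not at hno
    refine h s (hs.trans hq) fun t ht => ⟨t, le_rfl, z, ?_, fun a ha => ?_⟩
    · exact (hn Γ P).mem_mono hz (ht.trans hs)
    · exact hno a (ha.trans ht)
  exact hn_ext fun z q hq => ⟨key x y h1 z q hq, key y x h2 z q hq⟩

variable {S : HN Γ P → Prop} {G : Set P} {W : Type (u + 1)} [Membership W W]
  {val : {x // S x} → W}

/-- Extensionality. -/
theorem Val.ext (hV : Val (hn Γ P) S G val) (a b : W) (h : ∀ z, z ∈ a ↔ z ∈ b) : a = b := by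
  obtain ⟨x, rfl⟩ := hV.surj a
  obtain ⟨y, rfl⟩ := hV.surj b
  have key : ∀ x y : {x // S x}, (∀ z, z ∈ val x → z ∈ val y) →
      ∃ p, p ∈ G ∧ Fc (hn Γ P) (.neg (.ex (difF x.1 y.1))) p ![] := by
    intro x y h
    have h1 := (hV.truth₀ (.neg (.ex (difF x y)))).1 (by
      rintro ⟨z, hz⟩
      exact hz.2 (h z hz.1))
    exact h1
  obtain ⟨p, hp, h1⟩ := key x y fun z hz => (h z).1 hz
  obtain ⟨q, hq, h2⟩ := key y x fun z hz => (h z).2 hz
  obtain ⟨r, hr, hrp, hrq⟩ := hV.gd.dir p q hp hq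
  exact (hV.eq_iff x y).2 ⟨r, hr, eqF_of_not_dif (fc_mono _ _ h1 hrp) (fc_mono _ _ h2 hrq)⟩

/-- What is needed from `S` and `G`, with the closure under the elements of names. -/
structure GdN (S : HN Γ P → Prop) (G : Set P) : Prop extends Gd (hn Γ P) S G where
  nm : ∀ x y : HN Γ P, S x → S y → ∀ p, p ∈ G → Nm.MemF x.1 y.1 p →
    ∃ q, q ∈ G ∧ ∃ j : y.1.Idx, S (y.nm j) ∧ q ≤ y.1.cd j ∧ Nm.EqF x.1 (y.1.nm j) q

/-- The elements of the value of a name. -/
theorem Val.mem_val (hV : Val (hn Γ P) S G val) (hS : GdN S G) (z : W) (y : {x // S x}) :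
    z ∈ val y ↔ ∃ (j : y.1.1.Idx) (hj : S (y.1.nm j)), y.1.1.cd j ∈ G ∧ z = val ⟨y.1.nm j, hj⟩ := by
  constructor
  · intro hz
    obtain ⟨x, rfl⟩ := hV.surj z
    obtain ⟨p, hp, h⟩ := (hV.mem_iff x y).1 hz
    obtain ⟨q, hq, j, hj, hqj, he⟩ := hS.nm x.1 y.1 x.2 y.2 p hp h
    exact ⟨j, hj, hV.gd.up q _ hq hqj, (hV.eq_iff x ⟨_, hj⟩).2 ⟨q, hq, he⟩⟩
  · rintro ⟨j, hj, hG, rfl⟩
    exact (hV.mem_iff _ y).2 ⟨_, hG, Nm.memF_nm y.1.1 j le_rfl⟩

end hn

end Pool.Agent.ZFW
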