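import Pool.Agent.ZFW.GenB
import Pool.Agent.Forc.Loew

/-!
Normality of the club filter for finite sequences and for formulas; for almost all countable sets
`S` and all filters which are generic over `S`, the names in `S` give a model with a truth lemma.
-/

universe u v w

namespace Pool.Agent.ZFW

open Pool.Agent.SigB Pool.Agent.Frc Filter

section

variable {U : Type w} {α : Type v} [Obj U α]

/-- Normality for finite sequences. -/
theorem ev_fin : ∀ {k : ℕ} {Q : (Fin k → α) → CC U → Prop}, (∀ a, ∀ᶠ S in clubF U, Q a S) →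
    ∀ᶠ S in clubF U, ∀ a : Fin k → α, (∀ i, S.In (a i)) → Q a S := by
  intro k
  induction k with
  | zero =>
    intro Q h
    filter_upwards [h Fin.elim0] with S hS a _
    have : a = Fin.elim0 := Subsingleton.elim _ _
    rwa [this]
  | succ k ih =>
    intro Q h
    have h1 : ∀ x : α, ∀ᶠ S in clubF U, ∀ a : Fin k → α, (∀ i, S.In (a i)) →
        Q (Fin.cons x a) S := fun x => ih fun a => h (Fin.cons x a)
    filter_upwards [ev_normal h1] with S hS a ha
    have h2 := hS (a 0) (ha 0) (fun i => a i.succ) fun i => ha i.succ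
    have h3 : (Fin.cons (a 0) fun i => a i.succ : Fin (k + 1) → α) = a := by
      funext i
      refine Fin.cases ?_ (fun i => ?_) i <;> rfl
    rwa [h3] at h2

/-- Normality for formulas. -/
theorem ev_fml {n : ℕ} {Q : Fml α n → CC U → Prop} (h : ∀ φ, ∀ᶠ S in clubF U, Q φ S) :
    ∀ᶠ S in clubF U, ∀ φ : Fml {x : α // S.In x} n, Q (mapP Subtype.val φ) S := by
  have h1 : ∀ (k : ℕ) (ψ : Fml (Fin k) n), ∀ᶠ S in clubF U, ∀ a : Fin k → α,
      (∀ i, S.In (a i)) → Q (mapP a ψ) S := fun k ψ => ev_fin fun a => h _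
  have h2 : ∀ᶠ S in clubF U, ∀ (k : ℕ) (ψ : Fml (Fin k) n), ∀ a : Fin k → α,
      (∀ i, S.In (a i)) → Q (mapP a ψ) S :=
    eventually_countable_forall.2 fun k => eventually_countable_forall.2 fun ψ => h1 k ψ
  filter_upwards [h2] with S hS φ
  obtain ⟨k, a, ψ, rfl⟩ := exists_fin_params φ
  rw [mapP_mapP]
  exact hS k ψ (fun i => (a i).1) fun i => (a i).2

/-- Normality for formulas and finite sequences. -/
theorem ev_fml_fin {n m : ℕ} {Q : Fml α n → (Fin m → α) → CC U → Prop}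
    (h : ∀ φ v, ∀ᶠ S in clubF U, Q φ v S) :
    ∀ᶠ S in clubF U, ∀ (φ : Fml {x : α // S.In x} n) (v : Fin m → {x : α // S.In x}),
      Q (mapP Subtype.val φ) (fun i => (v i).1) S := by
  filter_upwards [ev_fml fun φ => ev_fin fun v => h φ v] with S hS φ v
  exact hS φ (fun i => (v i).1) fun i => (v i).2

end

section

variable {P : Type u} [Preorder P] {X : Type v} {U : Type w} [Obj U P] [Obj U (Set P)] [Obj U X]

/-- Almost all countable sets of objects satisfy the conditions for the truth lemma. -/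
theorem ev_gd (A : Atm P X) :
    ∀ᶠ S in clubF U, ∀ G : Set P, GenS S G → Gd A (fun x : X => S.In x) G := by
  have h1 : ∀ᶠ S in clubF U, ∀ (n : ℕ) (φ : Fml {x : X // S.In x} n)
      (v : Fin n → {x : X // S.In x}), S.In {q : P | Fc A (mapP Subtype.val φ) q (fun i => (v i).1) ∨
        Fc A (.neg (mapP Subtype.val φ)) q (fun i => (v i).1)} :=
    eventually_countable_forall.2 fun n => ev_fml_fin (Q := fun φ v S =>
      S.In {q : P | Fc A φ q v ∨ Fc A (.neg φ) q v}) fun φ v => ev_mem _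
  have h2 : ∀ᶠ S in clubF U, ∀ (n : ℕ) (φ : Fml {x : X // S.In x} (n + 1))
      (v : Fin n → {x : X // S.In x}),
      S.In {q : P | ∃ x, Fc A (mapP Subtype.val φ) q (Fin.cons x fun i => (v i).1)} ∧
        ∀ q, S.In q → (∃ x, Fc A (mapP Subtype.val φ) q (Fin.cons x fun i => (v i).1)) →
          ∃ x, S.In x ∧ Fc A (mapP Subtype.val φ) q (Fin.cons x fun i => (v i).1) :=
    eventually_countable_forall.2 fun n => ev_fml_fin (Q := fun φ v S =>
      S.In {q : P | ∃ x, Fc A φ q (Fin.cons x v)} ∧ ∀ q, S.In q → (∃ x, Fc A φ q (Fin.cons x v)) →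
          ∃ x, S.In x ∧ Fc A φ q (Fin.cons x v)) fun φ v =>
        (ev_mem _).and (ev_ex fun (q : P) (x : X) => Fc A φ q (Fin.cons x v))
  filter_upwards [h1, h2, ev_below (P := P) (U := U)] with S h1 h2 h3 G hG
  refine ⟨hG.toFlt, fun {n} φ v => ?_, fun {n} φ v p hp h => ?_⟩
  · obtain ⟨q, -, hq, hq'⟩ := hG.gen _ (h1 n φ v) fun p => by
      obtain ⟨q, hq, h⟩ := fc_decide A (mapP Subtype.val φ) p (fun i => (v i).1)
      exact ⟨q, hq, h⟩
    exact ⟨q, hq, hq'⟩
  · obtain ⟨q, hqS, hq, -, hq'⟩ := h3 G hG p hp _ (h2 n φ v).1 h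
    obtain ⟨x, hx, hx'⟩ := (h2 n φ v).2 q hqS hq'
    exact ⟨q, hq, ⟨x, hx⟩, hx'⟩

end

section

variable {Γ P : Type u} [Group Γ] [Preorder P] [OrderTop P] [Sys Γ P] {U : Type w} [Obj U P]
  [Obj U (Set P)] [Obj U (HN Γ P)]

/-- Elements of a name in `S` are given by names in `S`. -/
theorem ev_elt : ∀ᶠ S in clubF U, ∀ G : Set P, GenS S G → ∀ x y : HN Γ P, S.In x → S.In y →
    ∀ p, p ∈ G → Nm.MemF x.1 y.1 p → ∃ q, S.In q ∧ q ∈ G ∧ q ≤ p ∧ ∃ j : y.1.Idx, S.In (y.nm j) ∧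
      q ≤ y.1.cd j ∧ Nm.EqF x.1 (y.1.nm j) q := by
  filter_upwards [ev_below (P := P) (U := U),
    ev_ex3 (U := U) fun (x y : HN Γ P) (q : P) (z : HN Γ P) =>
      ∃ j, z = y.nm j ∧ q ≤ y.1.cd j ∧ Nm.EqF x.1 z.1 q,
    ev_app2 (U := U) fun (x y : HN Γ P) => {q : P | ∃ z : HN Γ P,
      ∃ j, z = y.nm j ∧ q ≤ y.1.cd j ∧ Nm.EqF x.1 z.1 q}]
    with S h1 h2 h3 G hG x y hx hy p hp h
  obtain ⟨r, hrS, hr, hrp, hr'⟩ := h1 G hG p hp _ (h3 x y hx hy) (by
    intro q hq
    obtain ⟨t, ht, j, hj, h⟩ := h q hq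
    exact ⟨t, ht, y.nm j, j, rfl, hj, h⟩)
  obtain ⟨z, hz, j, rfl, hj, hj'⟩ := h2 x y r hx hy hrS hr'
  exact ⟨r, hrS, hr, hrp, j, hz, hj, hj'⟩

/-- Almost all countable sets of objects satisfy the conditions for the theorem on the elements
of the value of a name. -/
theorem ev_gdN : ∀ᶠ S in clubF U, ∀ G : Set P, GenS S G → GdN (fun x : HN Γ P => S.In x) G := by
  filter_upwards [ev_gd (U := U) (hn Γ P), ev_elt (Γ := Γ) (P := P) (U := U)] with S h1 h2 G hG
  refine ⟨h1 G hG, fun x y hx hy p hp h => ?_⟩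
  obtain ⟨q, -, hq, -, j, hj, h⟩ := h2 G hG x y hx hy p hp h
  exact ⟨q, hq, j, hj, h⟩

end

end Pool.Agent.ZFW
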