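import Pool.Agent.ZFW.GenC
import Pool.Agent.ZFW.Hom

/-!
# Closure of the supported elements under definability

For almost all countable sets `S` of objects: an element of `W` which is the unique element with a
property that is definable from elements of support `E` has itself a name of support `E`.
-/

universe u v w

set_option linter.unusedSectionVars false

namespace Pool.Agent.ZFW

open Pool.Agent.SigB Pool.Agent.Frc Pool.Agent.GL Filter

/-! ### Constants for variables -/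

section

variable {M : Type u} [Membership M M] {C : M → Prop}

/-- A constant for the variable `0`. -/
theorem DfnC.inst {n : ℕ} {P : (Fin (n + 1) → M) → Prop} (h : DfnC C P) {a : M} (ha : C a) :
    DfnC C (fun w : Fin n → M => P (Fin.cons a w)) := by
  refine DfnC.sub (P := fun (w : Fin n → M) x => P (Fin.cons x w)) ?_ (DTC.const ha)
  refine h.congr fun w => ?_
  rw [← Fin.cons_self_tail w]
  rfl

/-- A constant for the first variable of a function. -/
theorem DTC.inst {n : ℕ} {t : (Fin (n + 1) → M) → M} (h : DTC C t) {a : M} (ha : C a) :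
    DTC C (fun w : Fin n → M => t (Fin.cons a w)) := by
  have h1 := DfnC.ren h (m := n + 2) (Fin.cons 1 (Fin.cons 0 fun i => i.succ.succ))
  refine (h1.inst ha).congr fun w => ?_
  have e : (fun i : Fin (n + 1) => (Fin.cons a w : Fin (n + 2) → M)
      ((Fin.cons 1 (Fin.cons 0 fun i : Fin n => i.succ.succ) : Fin (n + 2) → Fin (n + 2)) i.succ)) =
      Fin.cons a fun i => w i.succ := by
    funext i
    refine Fin.cases ?_ (fun i => ?_) i <;> rfl
  rw [e]
  rfl

/-- Constants for all the variables of a function. -/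
theorem DTC.instAll : ∀ {n : ℕ} {t : (Fin n → M) → M}, DTC C t → ∀ v : Fin n → M,
    (∀ i, C (v i)) → DTC C (fun _ : Fin 0 → M => t v)
  | 0, t, h, v, _ => by
    have : (fun _ : Fin 0 → M => t v) = t := by
      funext w
      rw [Subsingleton.elim w v]
    rw [this]
    exact h
  | n + 1, t, h, v, hv => by
    have h1 := DTC.instAll (h.inst (hv 0)) (fun i => v i.succ) fun i => hv i.succ
    have e : (Fin.cons (v 0) fun i => v i.succ : Fin (n + 1) → M) = v := Fin.cons_self_tail v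
    rwa [e] at h1

end

/-! ### The name -/

section

variable {Γ P : Type u} [Group Γ] [Preorder P] [OrderTop P] [Sys Γ P]

/-- The formula: there is an element with the property `φ` to which `σ` belongs. -/
def inF {Y : Type v} (φ : Fml Y 1) (σ : Y) : Fml Y 0 :=
  .ex (.and φ (.mem (.inr σ) (.inl 0)))

theorem mapP_inF {Y : Type v} {Z : Type w} (f : Y → Z) (φ : Fml Y 1) (σ : Y) :
    mapP f (inF φ σ) = inF (mapP f φ) (f σ) := rfl

/-- The symmetry lemma for `inF`. -/
theorem fc_inF_smul {E : Sys.S Γ P} {g : Γ} (hg : g ∈ Sys.H (P := P) E)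
    (φ : Fml {x : HN Γ P // x.Supp E} 1) {σ : HN Γ P} {p : P} :
    Fc (hn Γ P) (inF (mapP Subtype.val φ) (g • σ)) (g • p) ![] ↔
      Fc (hn Γ P) (inF (mapP Subtype.val φ) σ) p ![] := by
  let ψ : Fml (Option {x : HN Γ P // x.Supp E}) 0 := inF (mapP some φ) none
  let a : HN Γ P → Option {x : HN Γ P // x.Supp E} → HN Γ P := fun τ i => i.elim τ Subtype.val
  have e : ∀ τ, mapP (a τ) ψ = inF (mapP Subtype.val φ) τ := by
    intro τ
    show mapP (a τ) (inF (mapP some φ) none) = _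
    rw [mapP_inF, mapP_mapP]
    rfl
  have h1 := fc_smul (P := P) g (mapP (a σ) ψ) (p := p) (v := ![])
  rw [mapP_mapP] at h1
  have e2 : (fun i => g • (![] : Fin 0 → HN Γ P) i) = ![] := by
    funext i
    exact i.elim0
  rw [e2] at h1
  rw [← e, ← e, ← h1]
  refine fc_congr (hn Γ P) ψ (fun i => ?_) fun i => i.elim0
  rcases i with - | x
  · exact (hn Γ P).eq_refl _ _
  · exact (hn Γ P).eq_symm (Nm.Supp.eqF x.2 hg _)

/-- The indices of the name `dnm`. -/
def DIdx (x : HN Γ P) (φ : Fml (HN Γ P) 1) : Type u :=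
  {t : Γ × x.1.Idx × P // Fc (hn Γ P) (inF φ (t.1 • x.nm t.2.1)) t.2.2 ![]}

/-- The name `dnm`, as a name. -/
def dnm₀ (x : HN Γ P) (φ : Fml (HN Γ P) 1) : Nm P :=
  .mk (DIdx x φ) (fun t => (t.1.1 • x.nm t.1.2.1).1) fun t => t.1.2.2

theorem dnm₀_supp {E : Sys.S Γ P} (x : HN Γ P) (φ : Fml {x : HN Γ P // x.Supp E} 1) :
    Nm.Supp Γ E (dnm₀ x (mapP Subtype.val φ)) := by
  intro h hh
  constructor
  · rintro ⟨⟨g, j, q⟩, hi⟩ s - hs
    refine ⟨s, le_rfl, ⟨(h * g, j, h • q), ?_⟩, hs, ?_⟩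
    · have h1 := (fc_inF_smul hh φ).2 hi
      rw [← mul_smul] at h1
      exact h1
    · show Nm.EqF (h • g • (x.nm j).1) ((h * g) • (x.nm j).1) s
      rw [mul_smul]
      exact Nm.eqF_refl _ _
  · rintro ⟨⟨g, j, q⟩, hi⟩ s - hs
    refine ⟨s, le_rfl, ⟨(h⁻¹ * g, j, h⁻¹ • q), ?_⟩, ?_, ?_⟩
    · have h1 := (fc_inF_smul (inv_mem hh) φ).2 hi
      rw [← mul_smul] at h1
      exact h1
    · show s ≤ h • h⁻¹ • q
      rw [smul_inv_smul]
      exact hs
    · show Nm.EqF (h • (h⁻¹ * g) • (x.nm j).1) (g • (x.nm j).1) s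
      rw [← mul_smul, mul_inv_cancel_left]
      exact Nm.eqF_refl _ _

theorem dnm₀_hs (x : HN Γ P) (φ : Fml (HN Γ P) 1) : Nm.HS Γ (dnm₀ x φ) := by
  refine ⟨?_, fun t => (t.1.1 • x.nm t.1.2.1).2⟩
  obtain ⟨E, ψ, rfl⟩ := exists_supp_fml φ
  exact ⟨E, dnm₀_supp x ψ⟩

/-- A name for `x` if `x` is the unique element with the property `φ`. A support of the
parameters of `φ` is a support of this name. -/
def dnm (x : HN Γ P) (φ : Fml (HN Γ P) 1) : HN Γ P := ⟨dnm₀ x φ, dnm₀_hs x φ⟩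

theorem dnm_supp {E : Sys.S Γ P} (x : HN Γ P) (φ : Fml {x : HN Γ P // x.Supp E} 1) :
    (dnm x (mapP Subtype.val φ)).Supp E := dnm₀_supp x φ

end

/-! ### In the model -/

section

variable {Γ P : Type u} [Group Γ] [Preorder P] [OrderTop P] [Sys Γ P]
  {S : HN Γ P → Prop} {G : Set P} {W : Type (u + 1)} [Membership W W] {val : {x // S x} → W}

/-- The set `S` of names is closed under `dnm`. -/
def DCl (S : HN Γ P → Prop) : Prop :=
  ∀ (φ : Fml {x // S x} 1) (x : HN Γ P), S x → S (dnm x (mapP Subtype.val φ))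

/-- The value of `dnm`. -/
theorem Val.val_dnm (hV : Val (hn Γ P) S G val) (hS : GdN S G) (φ : Fml {x // S x} 1)
    (x : {x // S x}) (hd : S (dnm x.1 (mapP Subtype.val φ))) (hx : (mapP val φ).Sat ![val x])
    (hu : ∀ z, (mapP val φ).Sat ![z] → z = val x) :
    val ⟨dnm x.1 (mapP Subtype.val φ), hd⟩ = val x := by
  refine hV.ext _ _ fun z => ?_
  rw [hV.mem_val hS z ⟨_, hd⟩, hV.mem_val hS z x]
  constructor
  · rintro ⟨⟨⟨g, i, q⟩, hi⟩, hj, hG, rfl⟩
    have hj' : S (g • x.1.nm i) := hj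
    have h1 : (mapP val (inF φ ⟨g • x.1.nm i, hj'⟩)).Sat ![] :=
      (hV.truth₀ (inF φ ⟨g • x.1.nm i, hj'⟩)).2 ⟨q, hG, hi⟩
    obtain ⟨z, hz, hz'⟩ := h1
    have hzx : z = val x := hu z hz
    rw [hzx] at hz'
    exact (hV.mem_val hS _ x).1 hz'
  · rintro ⟨j, hj, hG, rfl⟩
    have h1 : (mapP val (inF φ ⟨x.1.nm j, hj⟩)).Sat ![] := by
      refine ⟨val x, hx, ?_⟩
      exact (hV.mem_val hS _ x).2 ⟨j, hj, hG, rfl⟩
    obtain ⟨p, hp, h2⟩ := (hV.truth₀ (inF φ ⟨x.1.nm j, hj⟩)).1 h1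
    have h3 : Fc (hn Γ P) (inF (mapP Subtype.val φ) ((1 : Γ) • x.1.nm j)) p ![] := by
      rw [one_smul]
      exact h2
    have e : (dnm x.1 (mapP Subtype.val φ)).nm ⟨(1, j, p), h3⟩ = x.1.nm j := by
      show (1 : Γ) • x.1.nm j = x.1.nm j
      exact one_smul _ _
    have hS' : S ((dnm x.1 (mapP Subtype.val φ)).nm ⟨(1, j, p), h3⟩) := by
      rw [e]
      exact hj
    refine ⟨⟨(1, j, p), h3⟩, hS', hp, ?_⟩
    exact congrArg val (Subtype.ext e.symm)

/-- **Closure**: the unique element with a property which is definable from elements of support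
`E` has the support `E`. -/
theorem Val.hasS_unique (hV : Val (hn Γ P) S G val) (hS : GdN S G) (hD : DCl S)
    {E : Sys.S Γ P} {R : W → Prop} (hR : DfnC (HasS val E) fun w : Fin 1 → W => R (w 0)) {y : W}
    (hy : R y) (hu : ∀ z, R z → z = y) : HasS val E y := by
  obtain ⟨φ, hφ⟩ := hR
  choose nm h1 h2 using fun a : {a : W // HasS val E a} => a.2
  obtain ⟨x, rfl⟩ := hV.surj y
  let ψ : Fml {x // S x} 1 := mapP nm φ
  have hψ : ∀ z : W, R z ↔ (mapP val ψ).Sat ![z] := by
    intro z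
    have h4 : (fun a => val (nm a)) = (Subtype.val : {a : W // HasS val E a} → W) := funext h2
    have h5 : mapP val ψ = mapP Subtype.val φ := by
      show mapP val (mapP nm φ) = _
      rw [mapP_mapP, h4]
    rw [h5]
    exact hφ ![z]
  have hd : S (dnm x.1 (mapP Subtype.val ψ)) := hD ψ x.1 x.2
  refine ⟨⟨dnm x.1 (mapP Subtype.val ψ), hd⟩, ?_, ?_⟩
  · have h5 : mapP Subtype.val ψ = mapP (Subtype.val : {x : HN Γ P // x.Supp E} → HN Γ P)
        (mapP (fun a => ⟨(nm a).1, h1 a⟩) φ) := by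
      show mapP Subtype.val (mapP nm φ) = _
      rw [mapP_mapP, mapP_mapP]
    show (dnm x.1 (mapP Subtype.val ψ)).Supp E
    rw [h5]
    exact dnm_supp x.1 _
  · exact hV.val_dnm hS ψ x hd ((hψ _).1 hy) fun z hz => hu z ((hψ z).2 hz)

/-- Closure under definable functions. -/
theorem Val.hasS_dtc (hV : Val (hn Γ P) S G val) (hS : GdN S G) (hD : DCl S)
    {E : Sys.S Γ P} {n : ℕ} {t : (Fin n → W) → W} (ht : DTC (HasS val E) t) {v : Fin n → W}
    (hv : ∀ i, HasS val E (v i)) : HasS val E (t v) := by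
  have h := ht.instAll v hv
  exact hV.hasS_unique hS hD (R := fun z => z = t v) h rfl fun z hz => hz

theorem Val.hasS_dtc₀ (hV : Val (hn Γ P) S G val) (hS : GdN S G) (hD : DCl S)
    {E : Sys.S Γ P} {a : W} (ht : DTC (HasS val E) fun _ : Fin 0 → W => a) : HasS val E a :=
  hV.hasS_dtc hS hD ht (v := ![]) fun i => i.elim0

theorem Val.hasS_dtc₁ (hV : Val (hn Γ P) S G val) (hS : GdN S G) (hD : DCl S)
    {E : Sys.S Γ P} {F : W → W} (ht : DTC (HasS val E) fun w : Fin 1 → W => F (w 0)) {a : W}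
    (ha : HasS val E a) : HasS val E (F a) :=
  hV.hasS_dtc hS hD ht (v := ![a]) fun i => by
    have : i = 0 := Subsingleton.elim _ _
    subst this
    exact ha

theorem Val.hasS_dtc₂ (hV : Val (hn Γ P) S G val) (hS : GdN S G) (hD : DCl S)
    {E : Sys.S Γ P} {F : W → W → W} (ht : DTC (HasS val E) fun w : Fin 2 → W => F (w 0) (w 1))
    {a b : W} (ha : HasS val E a) (hb : HasS val E b) : HasS val E (F a b) :=
  hV.hasS_dtc hS hD ht (v := ![a, b]) fun i => by
    refine Fin.cases ?_ (fun i => ?_) i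
    · exact ha
    · have : i = 0 := Subsingleton.elim _ _
      subst this
      exact hb

end

/-! ### Almost all sets of names are closed -/

section

variable {Γ P : Type u} [Group Γ] [Preorder P] [OrderTop P] [Sys Γ P] {U : Type w}
  [Obj U (HN Γ P)]

theorem ev_dcl : ∀ᶠ S in clubF U, DCl fun x : HN Γ P => S.In x := by
  have h : ∀ᶠ S in clubF U, ∀ (φ : Fml {x : HN Γ P // S.In x} 1)
      (v : Fin 1 → {x : HN Γ P // S.In x}), S.In (dnm (v 0).1 (mapP Subtype.val φ)) :=
    ev_fml_fin (Q := fun φ v S => S.In (dnm (v 0) φ)) fun φ v => ev_mem _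
  filter_upwards [h] with S hS φ x hx
  exact hS φ ![⟨x, hx⟩]

end

end Pool.Agent.ZFW
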