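import Pool.Agent.ZFW.Lem1
import Pool.Agent.ZFW.CtxB

/-!
# Closure of the supported elements under definability, in the common context
-/

universe u v w

namespace Pool.Agent.ZFW

open Pool.Agent.SigB Pool.Agent.Frc Pool.Agent.GL Filter

namespace Md

variable {J : Type} {S : CC UU} (M : Md J S)

theorem cls_sub {E F : Set J} {hE : E.Countable} (h : E ⊆ F) (hF : F.Countable) {w : M.W}
    (hw : M.cls (spt E hE) w) : M.cls (spt F hF) w := M.cls_mono (H_spt_le h) hw

/-- Finitely many elements and an element with a given support have a common support. -/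
theorem exists_cls_fin {n : ℕ} (w : Fin n → M.W) {E : Set J} (hE : E.Countable) :
    ∃ (F : Set J) (hF : F.Countable), E ⊆ F ∧ ∀ i, M.cls (spt F hF) (w i) := by
  choose K hK h using fun i => M.exists_cls_spt (w i)
  have hF : (E ∪ ⋃ i, K i).Countable := hE.union (Set.countable_iUnion hK)
  exact ⟨_, hF, Set.subset_union_left, fun i =>
    M.cls_sub ((Set.subset_iUnion K i).trans Set.subset_union_right) hF (h i)⟩

theorem exists_cls₂ (a b : M.W) : ∃ (E : Set J) (hE : E.Countable), M.cls (spt E hE) a ∧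
    M.cls (spt E hE) b := by
  obtain ⟨E, hE, h1⟩ := M.exists_cls_spt a
  obtain ⟨F, hF, h2⟩ := M.exists_cls_spt b
  exact ⟨E ∪ F, hE.union hF, M.cls_sub Set.subset_union_left _ h1,
    M.cls_sub Set.subset_union_right _ h2⟩

theorem exists_cls₃ (a b c : M.W) : ∃ (E : Set J) (hE : E.Countable), M.cls (spt E hE) a ∧
    M.cls (spt E hE) b ∧ M.cls (spt E hE) c := by
  obtain ⟨E, hE, h1, h2⟩ := M.exists_cls₂ a b
  obtain ⟨F, hF, h3⟩ := M.exists_cls_spt c
  exact ⟨E ∪ F, hE.union hF, M.cls_sub Set.subset_union_left _ h1,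
    M.cls_sub Set.subset_union_left _ h2, M.cls_sub Set.subset_union_right _ h3⟩

end Md

/-- The set of names of the model is closed under definability. -/
structure Md.Dcl {J : Type} {S : CC UU} (M : Md J S) : Prop where
  dcl : DCl fun x : HNJ J => CC.In S x

theorem ev_Dcl (J : Type) : ∀ᶠ S in cl, ∀ M : Md J S, M.Dcl := by
  filter_upwards [ev_dcl (Γ := Gp J) (P := Cnd J) (U := UU)] with S hS M
  exact ⟨hS⟩

namespace Md.Dcl

variable {J : Type} {S : CC UU} {M : Md J S} (h : M.Dcl) {E : Sys.S (Gp J) (Cnd J)}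

include h

/-- **Closure**: the unique element with a property which is definable from elements of support
`E` has the support `E`. -/
theorem unique {R : M.W → Prop} (hR : DfnC (M.cls E) fun w : Fin 1 → M.W => R (w 0)) {y : M.W}
    (hy : R y) (hu : ∀ z, R z → z = y) : M.cls E y := by
  rw [M.cls_eq] at hR ⊢
  exact M.hV.hasS_unique M.hN h.dcl hR hy hu

/-- Closure under definable functions. -/
theorem dtc {n : ℕ} {t : (Fin n → M.W) → M.W} (ht : DTC (M.cls E) t) {v : Fin n → M.W}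
    (hv : ∀ i, M.cls E (v i)) : M.cls E (t v) := by
  rw [M.cls_eq] at ht hv ⊢
  exact M.hV.hasS_dtc M.hN h.dcl ht hv

theorem dtc₀ {a : M.W} (ht : DTC (M.cls E) fun _ : Fin 0 → M.W => a) : M.cls E a :=
  h.dtc ht (v := ![]) fun i => i.elim0

theorem dtc₁ {F : M.W → M.W} (ht : DTC (M.cls E) fun w : Fin 1 → M.W => F (w 0)) {a : M.W}
    (ha : M.cls E a) : M.cls E (F a) := by
  rw [M.cls_eq] at ht ha ⊢
  exact M.hV.hasS_dtc₁ M.hN h.dcl ht ha

theorem dtc₂ {F : M.W → M.W → M.W} (ht : DTC (M.cls E) fun w : Fin 2 → M.W => F (w 0) (w 1))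
    {a b : M.W} (ha : M.cls E a) (hb : M.cls E b) : M.cls E (F a b) := by
  rw [M.cls_eq] at ht ha hb ⊢
  exact M.hV.hasS_dtc₂ M.hN h.dcl ht ha hb

/-- A constant may be used as a parameter iff it has the support. -/
theorem dtc_const_iff {n : ℕ} {a : M.W} :
    DTC (M.cls E) (fun _ : Fin n → M.W => a) ↔ M.cls E a := by
  refine ⟨fun ht => ?_, fun ha => DTC.const ha⟩
  obtain ⟨φ, hφ⟩ := ht
  refine h.unique (R := fun z => z = a) ⟨φ.ren fun _ => 0, fun w => ?_⟩ rfl fun z hz => hz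
  rw [mapP_ren, Fml.sat_ren]
  exact hφ fun _ => w 0

/-- Definable sets. -/
theorem cp {R : M.W → Prop} (hR : DfnC (M.cls E) fun w : Fin 1 → M.W => R (w 0)) :
    M.cls E (cp R) :=
  h.dtc₀ (dtC_cp (P := fun _ => R) hR)

theorem sp {a : M.W} {R : M.W → Prop} (ha : M.cls E a)
    (hR : DfnC (M.cls E) fun w : Fin 1 → M.W => R (w 0)) : M.cls E (sp a R) :=
  h.dtc₀ (dtC_sp (P := fun _ => R) (DTC.const ha) hR)

theorem im {a : M.W} {F : M.W → M.W} (ha : M.cls E a)
    (hF : DTC (M.cls E) fun w : Fin 1 → M.W => F (w 0)) : M.cls E (im a F) :=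
  h.dtc₀ (dtC_im (F := fun _ => F) (DTC.const ha) hF)

theorem lam {a : M.W} {F : M.W → M.W} (ha : M.cls E a)
    (hF : DTC (M.cls E) fun w : Fin 1 → M.W => F (w 0)) : M.cls E (lam a F) :=
  h.dtc₀ (dtC_lam (F := fun _ => F) (DTC.const ha) hF)

theorem em : M.cls E (em : M.W) := h.dtc₀ dtC_em

theorem om : M.cls E (om : M.W) := h.dtc₀ dtC_om

theorem pr {a b : M.W} (ha : M.cls E a) (hb : M.cls E b) : M.cls E (pr a b) :=
  h.dtc₀ (dtC_pr (DTC.const ha) (DTC.const hb))

theorem op {a b : M.W} (ha : M.cls E a) (hb : M.cls E b) : M.cls E (op a b) :=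
  h.dtc₀ (dtC_op (DTC.const ha) (DTC.const hb))

theorem ap {a b : M.W} (ha : M.cls E a) (hb : M.cls E b) : M.cls E (ap a b) :=
  h.dtc₀ (dtC_ap (DTC.const ha) (DTC.const hb))

theorem pd {a b : M.W} (ha : M.cls E a) (hb : M.cls E b) : M.cls E (pd a b) :=
  h.dtc₀ (dtC_pd (DTC.const ha) (DTC.const hb))

theorem sc {a : M.W} (ha : M.cls E a) : M.cls E (sc a) := h.dtc₀ (dtC_sc (DTC.const ha))

theorem pw {a : M.W} (ha : M.cls E a) : M.cls E (pw a) := h.dtc₀ (dtC_pw (DTC.const ha))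

theorem sU {a : M.W} (ha : M.cls E a) : M.cls E (sU a) := h.dtc₀ (dtC_sU (DTC.const ha))

theorem fs {a b : M.W} (ha : M.cls E a) (hb : M.cls E b) : M.cls E (fs a b) :=
  h.dtc₀ (dtC_fs (DTC.const ha) (DTC.const hb))

theorem un {a b : M.W} (ha : M.cls E a) (hb : M.cls E b) : M.cls E (un a b) :=
  h.dtc₀ (dtC_un (DTC.const ha) (DTC.const hb))

theorem df {a b : M.W} (ha : M.cls E a) (hb : M.cls E b) : M.cls E (df a b) :=
  h.dtc₀ (dtC_df (DTC.const ha) (DTC.const hb))

end Md.Dcl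

end Pool.Agent.ZFW
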