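import Pool.Agent.ZFW.Br

/-!
The consequence of the dual Cantor-Schröder-Bernstein theorem for a set `D` and an equivalence
relation `E` on `D` such that `D` can be mapped into `D` with inequivalent values: there is a
function from `D` to `D` which classifies `E`.
-/

universe u

set_option linter.unusedSectionVars false

namespace Pool.Agent.ZFW

open Pool.Agent.SigB Pool.Agent.GL

variable {M : Type u} [Membership M M] [GL.IsZF M]

/-- The equivalence class of `y`. -/
noncomputable def cls (D E y : M) : M := GL.sp D fun z => op y z ∈ E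

theorem dt_cls (D E : M) : DT (fun w : Fin 1 → M => cls D E (w 0)) := by
  unfold cls
  simp (maxDischargeDepth := 50)

theorem mem_cls {D E y z : M} : z ∈ cls D E y ↔ z ∈ D ∧ op y z ∈ E := by
  unfold cls
  exact mem_sp (by simp (maxDischargeDepth := 50))

/-- If `E` is an equivalence relation on `D` and `F` is a function from `D` to `D` whose values are
inequivalent, then the dual Cantor-Schröder-Bernstein theorem gives a function which classifies
`E`. -/
theorem exists_inv (h : CSBstar M) {D E F : M} (hr : ∀ y, y ∈ D → op y y ∈ E)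
    (hs : ∀ y z, op y z ∈ E → op z y ∈ E)
    (ht : ∀ x y z, op x y ∈ E → op y z ∈ E → op x z ∈ E)
    (hF : ∀ y, y ∈ D → ap F y ∈ D)
    (hi : ∀ y z, y ∈ D → z ∈ D → op (ap F y) (ap F z) ∈ E → y = z) :
    ∃ f, f ∈ fs D D ∧ ∀ y z, y ∈ D → z ∈ D → (ap f y = ap f z ↔ op y z ∈ E) := by
  have hd := dt_cls D E
  have hc : ∀ y z, y ∈ D → z ∈ D → (cls D E y = cls D E z ↔ op y z ∈ E) := by
    intro y z hy hz
    constructor
    · intro he
      have : z ∈ cls D E z := mem_cls.2 ⟨hz, hr z hz⟩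
      rw [← he] at this
      exact (mem_cls.1 this).2
    · intro he
      refine ext' fun x => ?_
      rw [mem_cls, mem_cls]
      exact ⟨fun hx => ⟨hx.1, ht _ _ _ (hs _ _ he) hx.2⟩, fun hx => ⟨hx.1, ht _ _ _ he hx.2⟩⟩
  obtain ⟨Q, hQ⟩ : ∃ Q : M, Q = GL.im D fun y => cls D E y := ⟨_, rfl⟩
  have hQm : ∀ q, q ∈ Q ↔ ∃ y, y ∈ D ∧ q = cls D E y := by
    intro q
    rw [hQ, mem_im hd]
  have h1 : LeStar Q D := LeStar.of_dt hd fun q hq => by
    obtain ⟨y, hy, rfl⟩ := (hQm q).1 hq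
    exact ⟨y, hy, rfl⟩
  have hd2 : DT (fun w : Fin 1 → M => cls D E (ap F (w 0))) :=
    dt1 hd (by simp (maxDischargeDepth := 50))
  have h2 : Le D Q := le_iff.2 ⟨lam D fun y => cls D E (ap F y),
    lam_mem_fs hd2 fun y hy => (hQm _).2 ⟨_, hF y hy, rfl⟩, fun x y hx hy he => by
      rw [ap_lam hd2 hx, ap_lam hd2 hy] at he
      exact hi x y hx hy ((hc _ _ (hF x hx) (hF y hy)).1 he)⟩
  obtain ⟨g, hg, hgi⟩ := le_iff.1 (h Q D h1 h2.leStar).le
  have hd3 : DT (fun w : Fin 1 → M => ap g (cls D E (w 0))) :=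
    dt1 (F := fun x => ap g x) (by simp (maxDischargeDepth := 50)) hd
  have hcl : ∀ y, y ∈ D → cls D E y ∈ Q := fun y hy => (hQm _).2 ⟨y, hy, rfl⟩
  refine ⟨lam D fun y => ap g (cls D E y), lam_mem_fs hd3 fun y hy =>
    (mem_fs.1 hg).2 _ (hcl y hy), fun y z hy hz => ?_⟩
  rw [ap_lam hd3 hy, ap_lam hd3 hz, ← hc y z hy hz]
  exact ⟨fun he => hgi _ _ (hcl y hy) (hcl z hz) he, fun he => by rw [he]⟩

end Pool.Agent.ZFW
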