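import Pool.Agent.ZFW.NcsbT
import Pool.Agent.ZFW.Ctx
import Pool.Agent.ZFW.Hom

/-!
Generic blocks and changes of group elements above a node, for almost all models.
-/

namespace Pool.Agent.ZFW

open Pool.Agent.SigB Filter

variable {J : Type}

/-- Every element of the model has a countable support in `S`. -/
theorem ev_exists_cls (J : Type) : ∀ᶠ S in cl, ∀ M : Md J S, ∀ w : M.W,
    ∃ (E : Set J) (hE : E.Countable), CC.In S E ∧ M.cls (spt E hE) w := by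
  filter_upwards [ev_ex (U := UU) fun (x : HNJ J) (E : Set J) =>
    ∃ hE : E.Countable, x.Supp (spt E hE)] with S h1 M w
  obtain ⟨x, hx, rfl⟩ := M.surj w
  obtain ⟨E, hE⟩ := x.exists_supp
  obtain ⟨F, hF, hF1, hF2⟩ := h1 x hx ⟨E.1, E.2, hE⟩
  exact ⟨F, hF1, hF, x, hx, hF2, rfl⟩

/-- Outside of every countable set in `S` there is a block in `S` and an automorphism in `S` which
changes its digits infinitely often along the generic branch. -/
theorem ev_exists_blk (J : Type) [Uncountable J] : ∀ᶠ S in cl, ∀ M : Md J S, Gb M →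
    ∀ E : Set J, E.Countable → CC.In S E → ∃ b : ℕ → J, Function.Injective b ∧
      (∀ i, b i ∉ E) ∧ CC.In S b ∧ ∃ h : Gp J, CC.In S h ∧ h.1 ∈ HE E ∧
        ∀ m, ∃ k, m ≤ k ∧ ev M.g (blkD b).1 k ≠ ev M.g (h • blkD b).1 k := by
  filter_upwards [ev_ne_cofinal (J := J) (U := UU),
    ev_ex (U := UU) fun (E : Set J) (b : ℕ → J) => Function.Injective b ∧ ∀ i, b i ∉ E,
    ev_ex2 (U := UU) fun (E : Set J) (b : ℕ → J) (h : Gp J) => h.1 ∈ HE E ∧
      ∀ p : List J, ∃ x, (blkD b).1 (x :: p) ≠ (h • blkD b).1 (x :: p),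
    ev_app (U := UU) fun b : ℕ → J => blkD b,
    ev_app2 (U := UU) fun (h : Gp J) (d : DJ J) => h • d] with S h1 h2 h3 h4 h5 M hg E hE hES
  obtain ⟨b, hbS, hb, hbE⟩ := h2 E hES (exists_block hE)
  obtain ⟨h, hhS, hh, hh'⟩ := h3 E b hES hbS (exists_swap_blk hE hb hbE)
  exact ⟨b, hb, hbE, hbS, h, hhS, hh, h1 M.G M.gen M.g hg.toBrn _ _ (h4 b hbS)
    (h5 h _ hhS (h4 b hbS)) hh'⟩

/-- The group element `h'` can be changed to `h` below a node of the generic branch. -/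
theorem ev_exists_mod (J : Type) : ∀ᶠ S in cl, ∀ M : Md J S, Gb M → ∀ E : Set J, CC.In S E →
    ∀ h h' : Gp J, CC.In S h → CC.In S h' → h.1 ∈ HE E → h'.1 ∈ HE E → ∀ k : ℕ,
    ∃ h'' : Gp J, CC.In S h'' ∧ h''.1 ∈ HE E ∧ h''.1⁻¹ (M.g k) = h.1⁻¹ (M.g k) ∧
      ∀ (b : ℕ → J) (n : ℕ), k ≤ n → ev M.g (h'' • blkD b).1 n = ev M.g (h' • blkD b).1 n := by
  filter_upwards [ev_ex4 (U := UU) fun (E : Set J) (h h' : Gp J) (p : Cnd J) (k : Gp J) =>
    k.1 ∈ HE E ∧ k.1⁻¹ p = h.1⁻¹ p ∧ ∀ (b : ℕ → J) (x : J) (w : List J),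
      (k • blkD b).1 (x :: List.append w p) = (h' • blkD b).1 (x :: List.append w p)]
    with S h1 M hg E hE h h' hhS hhS' hh hh' k
  obtain ⟨k', hk1, hk2, hk3, hk4⟩ := h1 E h h' (M.g k) hE hhS hhS' (hg.mem_S k)
    (exists_mod_blk hh hh' (M.g k))
  refine ⟨k', hk1, hk2, hk3, fun b n hn => ?_⟩
  exact ev_eq_of_agree (fun n hn => hg.toBrn.exists_cons M.gen.dir hn) (hk4 b) hn

end Pool.Agent.ZFW
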