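import Pool.Agent.ZFW.Br
import Pool.Agent.ZFW.NcsbC
import Pool.Agent.ZFW.Ps

/-!
The reals of the model are not well-orderable, and no function on the reals classifies eventual
equality.
-/

namespace Pool.Agent.ZFW

open Pool.Agent.SigB Filter

variable {J : Type} {S : CC UU} {M : Md J S}

theorem cls_iff_hasS {E : Sys.S (Gp J) (Cnd J)} {w : M.W} :
    M.cls E w ↔ HasS M.val E w := by
  constructor
  · rintro ⟨x, hx, hE, rfl⟩
    exact ⟨⟨x, hx⟩, hE, (M.vl_of hx).symm⟩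
  · rintro ⟨x, hE, rfl⟩
    exact ⟨x.1, x.2, hE, M.vl_of x.2⟩

/-- The names of the reals. -/
structure RlS (M : Md J S) (rlH : DJ J → HNJ J) : Prop where
  mem_S : ∀ d, CC.In S d → CC.In S (rlH d)
  eq_iff : ∀ d e, CC.In S d → CC.In S e →
    (M.vl (rlH d) = M.vl (rlH e) ↔ ∀ k, ev M.g d.1 k = ev M.g e.1 k)
  smul : ∀ (h : Gp J) (d : DJ J) (r : Cnd J), Nm.EqF (h • rlH d).1 (rlH (h • d)).1 r
  supp : ∀ (b : ℕ → J) (F : Set J) (hF : F.Countable), Set.range b ⊆ F →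
    (rlH (blkD b)).Supp (spt F hF)

/-- What is needed from `S`. -/
structure GpS (J : Type) (S : CC UU) : Prop where
  one : CC.In S (1 : Gp J)
  blk : ∀ b : ℕ → J, CC.In S b → CC.In S (blkD b)
  smul : ∀ (h : Gp J) (d : DJ J), CC.In S h → CC.In S d → CC.In S (h • d)
  smulN : ∀ (h : Gp J) (x : HNJ J), CC.In S h → CC.In S x → CC.In S (h • x)

theorem ev_gpS (J : Type) : ∀ᶠ S in cl, GpS J S := by
  filter_upwards [ev_mem (U := UU) (1 : Gp J), ev_app (U := UU) fun b : ℕ → J => blkD b,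
    ev_app2 (U := UU) fun (h : Gp J) (d : DJ J) => h • d,
    ev_app2 (U := UU) fun (h : Gp J) (x : HNJ J) => h • x] with S h1 h2 h3 h4
  exact ⟨h1, h2, h3, h4⟩

/-- A property of a generic real, with parameters of support `E`, holds for all generic reals of
the same block which are given by automorphisms with the same value at some node. -/
theorem exists_node {rlH : DJ J → HNJ J} (hR : RlS M rlH) (hS : GpS J S) (hg : Gb M) {E : Set J}
    {hE : E.Countable} {R : M.W → Prop}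
    (hd : DfnC (M.cls (spt E hE)) fun w : Fin 1 → M.W => R (w 0)) {b : ℕ → J} (hb : CC.In S b)
    {h : Gp J} (hh : h.1 ∈ HE E) (hhS : CC.In S h) (hr : R (M.vl (rlH (h • blkD b)))) :
    ∃ k, ∀ h' : Gp J, h'.1 ∈ HE E → CC.In S h' → h'.1⁻¹ (M.g k) = h.1⁻¹ (M.g k) →
      R (M.vl (rlH (h' • blkD b))) := by
  have hF : (E ∪ Set.range b).Countable := hE.union (Set.countable_range b)
  have hbS := hS.blk b hb
  have hrS := hR.mem_S _ hbS
  have key : ∀ h : Gp J, CC.In S h → M.vl (h • rlH (blkD b)) = M.vl (rlH (h • blkD b)) :=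
    fun h hh => M.vl_eq_of (hS.smulN h _ hh hrS) (hR.mem_S _ (hS.smul h _ hh hbS))
      (hR.smul h (blkD b))
  have e1 : (M.cls (spt E hE)) = HasS M.val (spt E hE) := funext fun w => propext cls_iff_hasS
  rw [e1] at hd
  rw [← key h hhS, M.vl_of (hS.smulN h _ hhS hrS)] at hr
  obtain ⟨k, hk⟩ := M.hV.hom_pat₁ (E := E) (F := E ∪ Set.range b) (hE := hE) (hF := hF)
    Set.subset_union_left hd (hR.supp b _ hF Set.subset_union_right) hh
    (hS.smulN h _ hhS hrS) hr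
  refine ⟨k, fun h' hh' hhS' he => ?_⟩
  rw [← key h' hhS', M.vl_of (hS.smulN h' _ hhS' hrS)]
  refine hk (M.g k) (hg.mem k) (le_of_eq (hg.len k).symm) h' hh' ?_ (hS.smulN h' _ hhS' hrS)
  show Pat _ (h.1⁻¹ (M.g k)) (h'.1⁻¹ (M.g k))
  rw [he]

/-- The set of the reals is not well-orderable. -/
theorem ev_not_wo (J : Type) [Uncountable J] : ∀ᶠ S in cl, ∀ M : Md J S, ∀ _ : GL.IsZF M.W,
    Gb M → ∀ rlH : DJ J → HNJ J, RlS M rlH →
    (∀ z : M.W, GL.Ord z → ∀ E : Sys.S (Gp J) (Cnd J), M.cls E z) →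
    ∀ D : M.W, (∀ d, CC.In S d → M.vl (rlH d) ∈ D) → ¬ WO D := by
  filter_upwards [ev_exists_cls J, ev_exists_blk J, ev_exists_mod J, ev_gpS J]
    with S h1 h2 h3 hS M _ hg rlH hR hord D hD hwo
  obtain ⟨α, hα, f, -, hf⟩ := hwo
  obtain ⟨E, hE, hES, hfE⟩ := h1 M f
  obtain ⟨b, hb, hbE, hbS, h, hhS, hh, hne⟩ := h2 M hg E hE hES
  have h1b : (1 : Gp J) • blkD b = blkD b := one_smul _ _
  obtain ⟨y, hy, hfy⟩ := hf (M.vl (rlH (blkD b))) (hD _ (hS.blk b hbS))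
  have hyE := hord y (hα.mem hy) (spt E hE)
  have hone : (1 : Gp J).1 ∈ HE E := one_mem _
  obtain ⟨k, hk⟩ := exists_node hR hS hg (R := fun w => GL.ap f y = w) (E := E) (hE := hE)
    (by simp (maxDischargeDepth := 50) [hfE, hyE]) hbS hone hS.one (by rw [h1b]; exact hfy)
  obtain ⟨h', hhS', hh', he, hev⟩ := h3 M hg E hES 1 h hS.one hhS hone hh k
  have h4 : M.vl (rlH (blkD b)) = M.vl (rlH (h' • blkD b)) := by
    rw [← hfy]
    exact hk h' hh' hhS' he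
  have h5 := (hR.eq_iff _ _ (hS.blk b hbS) (hS.smul h' _ hhS' (hS.blk b hbS))).1 h4
  obtain ⟨n, hn, hn'⟩ := hne k
  exact hn' ((h5 n).trans (hev b n hn))

/-- No function on the reals classifies eventual equality. -/
theorem ev_no_inv (J : Type) [Uncountable J] : ∀ᶠ S in cl, ∀ M : Md J S, ∀ _ : GL.IsZF M.W,
    Gb M → ∀ rlH : DJ J → HNJ J, RlS M rlH → ∀ (D f : M.W) (num : ℕ → M.W),
    (∀ d, CC.In S d → M.vl (rlH d) ∈ D) → (∀ y, y ∈ D → ∀ x, x ∈ y → ∃ n, x = num n) →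
    (∀ (n : ℕ) (E : Sys.S (Gp J) (Cnd J)), M.cls E (num n)) →
    (∀ y, y ∈ D → GL.ap f y ∈ D) →
    ¬ ∀ d e, CC.In S d → CC.In S e → (GL.ap f (M.vl (rlH d)) = GL.ap f (M.vl (rlH e)) ↔
      ∃ m, ∀ k, m ≤ k → ev M.g d.1 k = ev M.g e.1 k) := by
  filter_upwards [ev_exists_cls J, ev_exists_blk J, ev_exists_mod J, ev_gpS J]
    with S h1 h2 h3 hS M _ hg rlH hR D f num hD hnum hcls hfD hf
  obtain ⟨E, hE, hES, hfE⟩ := h1 M f
  obtain ⟨b, hb, hbE, hbS, h, hhS, hh, hne⟩ := h2 M hg E hE hES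
  have h1b : (1 : Gp J) • blkD b = blkD b := one_smul _ _
  have hbD := hS.blk b hbS
  have hone : (1 : Gp J).1 ∈ HE E := one_mem _
  have key : ∀ h h' : Gp J, h.1 ∈ HE E → CC.In S h → h'.1 ∈ HE E → CC.In S h' →
      ∀ x, x ∈ GL.ap f (M.vl (rlH (h • blkD b))) → x ∈ GL.ap f (M.vl (rlH (h' • blkD b))) := by
    intro h h' hh hhS hh' hhS' x hx
    obtain ⟨n, rfl⟩ := hnum _ (hfD _ (hD _ (hS.smul h _ hhS hbD))) x hx
    have hnE := hcls n (spt E hE)
    obtain ⟨k, hk⟩ := exists_node hR hS hg (R := fun w => num n ∈ GL.ap f w) (E := E) (hE := hE)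
      (by simp (maxDischargeDepth := 50) [hfE, hnE]) hbS hh hhS hx
    obtain ⟨h'', hhS'', hh'', he, hev⟩ := h3 M hg E hES h h' hhS hhS' hh hh' k
    rw [← (hf _ _ (hS.smul h'' _ hhS'' hbD) (hS.smul h' _ hhS' hbD)).2
      ⟨k, fun n hn => hev b n hn⟩]
    exact hk h'' hh'' hhS'' he
  have h4 : GL.ap f (M.vl (rlH ((1 : Gp J) • blkD b))) = GL.ap f (M.vl (rlH (h • blkD b))) :=
    GL.ext' fun x => ⟨key 1 h hone hS.one hh hhS x, key h 1 hh hhS hone hS.one x⟩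
  rw [h1b] at h4
  obtain ⟨m, hm⟩ := (hf _ _ hbD (hS.smul h _ hhS hbD)).1 h4
  obtain ⟨n, hn, hn'⟩ := hne m
  exact hn' (hm n hn)

end Pool.Agent.ZFW
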