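import Pool.Agent.ZFW.NcsbN
import Pool.Agent.ZFW.Ctx
import Pool.Agent.ZFW.CkW

/-!
The names of the relation of eventual equality and of the function which maps the reals to pairwise
inequivalent reals, and the consequence of the dual Cantor-Schröder-Bernstein theorem for the
models. Everything is stated for an arbitrary family `rlH` of names of the reals.
-/

namespace Pool.Agent.ZFW

open Pool.Agent.SigB Filter

variable {J : Type}

/-- The names `rlH d` are permuted by the group. -/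
def RlSm (rlH : DJ J → HNJ J) : Prop :=
  ∀ (g : Gp J) (d : DJ J) (r : Cnd J), Nm.EqF (g • (rlH d).1) (rlH (g • d)).1 r

variable {rlH : DJ J → HNJ J}

theorem supp_E0 (h : RlSm rlH) (E : Sys.S (Gp J) (Cnd J)) :
    Nm.Supp (Gp J) E (Nm.st fun p : EIx J => (HN.op (rlH p.1.1) (rlH p.1.2)).1) :=
  Nm.supp_st fun g _ p => by
    obtain ⟨⟨d, e⟩, m, hm⟩ := p
    refine ⟨⟨(g • d, g • e), m, hm.smul g⟩, fun r => ?_⟩
    exact (Nm.smul_opN g _ _ r).trans (Nm.eqF_opN (h g d r) (h g e r))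

theorem supp_F (h : RlSm rlH) (E : Sys.S (Gp J) (Cnd J)) :
    Nm.Supp (Gp J) E (Nm.st fun d : DJ J => (HN.op (rlH d) (rlH (spr d))).1) :=
  Nm.supp_st fun g _ d => by
    refine ⟨g • d, fun r => ?_⟩
    refine (Nm.smul_opN g _ _ r).trans (Nm.eqF_opN (h g d r) ?_)
    rw [← smul_spr]
    exact h g (spr d) r

/-- The empty support. -/
def spE : Sys.S (Gp J) (Cnd J) := (⟨∅, Set.countable_empty⟩ : {E : Set J // E.Countable})

/-- The name of the set of the pairs of reals which agree from some level on. -/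
noncomputable def E0H (h : RlSm rlH) : HNJ J :=
  HN.st' (fun p : EIx J => HN.op (rlH p.1.1) (rlH p.1.2)) (supp_E0 h spE)

/-- The name of the function which maps the real of `d` to the real of `spr d`. -/
noncomputable def FH (h : RlSm rlH) : HNJ J :=
  HN.st' (fun d : DJ J => HN.op (rlH d) (rlH (spr d))) (supp_F h spE)

section

variable {S : CC UU} (M : Md J S) [GL.IsZF M.W]

theorem vl_op_aux (hC : CkS fun x : HNJ J => CC.In S x) {x y : HNJ J} (hx : CC.In S x)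
    (hy : CC.In S y) : M.vl (HN.op x y) = GL.op (M.vl x) (M.vl y) := by
  rw [M.vl_of (hC.op hx hy), M.vl_of hx, M.vl_of hy]
  exact M.hV.op M.hN hC ⟨x, hx⟩ ⟨y, hy⟩ _

omit [GL.IsZF M.W] in
theorem mem_st_aux {ι : Type} (x : ι → HNJ J) {E : Sys.S (Gp J) (Cnd J)}
    (h : Nm.Supp (Gp J) E (Nm.st fun i => (x i).1)) (hS : CC.In S (HN.st' x h)) (z : M.W) :
    z ∈ M.vl (HN.st' x h) ↔ ∃ i, CC.In S (x i) ∧ z = M.vl (x i) := by
  rw [M.mem_vl hS]
  constructor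
  · rintro ⟨i, h1, -, h2⟩
    exact ⟨i, h1, h2⟩
  · rintro ⟨i, h1, h2⟩
    obtain ⟨p, hp⟩ := M.gen.ne
    exact ⟨i, h1, M.gen.up p ⊤ hp le_top, h2⟩

end

/-- In almost all models the dual Cantor-Schröder-Bernstein theorem gives a function which
classifies eventual equality of the reals. -/
theorem ev_inv (hsm : RlSm rlH) : ∀ᶠ S in cl, ∀ (M : Md J S) [GL.IsZF M.W], Gb M →
    (∀ d e, CC.In S d → CC.In S e →
      (M.vl (rlH d) = M.vl (rlH e) ↔ ∀ k, ev M.g d.1 k = ev M.g e.1 k)) →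
    ∀ D : M.W, (∀ z, z ∈ D ↔ ∃ d, CC.In S d ∧ z = M.vl (rlH d)) → CSBstar M.W →
    ∃ f, f ∈ GL.fs D D ∧ ∀ d e, CC.In S d → CC.In S e →
      (GL.ap f (M.vl (rlH d)) = GL.ap f (M.vl (rlH e)) ↔
        ∃ m, ∀ k, m ≤ k → ev M.g d.1 k = ev M.g e.1 k) := by
  filter_upwards [ev_ckS (Γ := Gp J) (P := Cnd J) (U := UU), ev_mem (U := UU) (E0H hsm),
    ev_mem (U := UU) (FH hsm), ev_app (U := UU) rlH,
    ev_ex (U := UU) fun (x : HNJ J) (p : EIx J) => x = HN.op (rlH p.1.1) (rlH p.1.2),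
    ev_ex (U := UU) fun (x : HNJ J) (d : DJ J) => x = HN.op (rlH d) (rlH (spr d)),
    ev_app (U := UU) fun p : EIx J => p.1.1, ev_app (U := UU) fun p : EIx J => p.1.2,
    ev_app (U := UU) (spr (J := J)),
    ev_all (U := UU) (α := ℕ), ev_app3 (U := UU) (mix (J := J)),
    ev_ex2 (U := UU) fun (d e : DJ J) (p : EIx J) => p.1 = (d, e)]
    with S hC h1 h2 h3 h4 h5 h6 h7 h8 h9 h10 h11 M _ hg heq D hD hcsb
  refine exists_inv_of (In := fun d => CC.In S d) (r := fun d => M.vl (rlH d)) hcsb hg.toBrn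
    hg.suf hD (E₀ := M.vl (E0H hsm)) (F := M.vl (FH hsm)) ?_ ?_ h8
    (fun m d e hd he => h10 m d e (h9 m) hd he) heq
  · intro z
    unfold E0H at h1 ⊢
    rw [mem_st_aux M _ _ h1]
    constructor
    · rintro ⟨p, hp, rfl⟩
      obtain ⟨q, hq, hpq⟩ := h4 _ hp ⟨p, rfl⟩
      rw [hpq]
      exact ⟨q, h6 q hq, h7 q hq, vl_op_aux M hC (h3 _ (h6 q hq)) (h3 _ (h7 q hq))⟩
    · rintro ⟨p, hp1, hp2, rfl⟩
      exact ⟨p, hC.op (h3 _ hp1) (h3 _ hp2), (vl_op_aux M hC (h3 _ hp1) (h3 _ hp2)).symm⟩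
  · intro z
    unfold FH at h2 ⊢
    rw [mem_st_aux M _ _ h2]
    constructor
    · rintro ⟨d, hd, rfl⟩
      obtain ⟨e, he, hde⟩ := h5 _ hd ⟨d, rfl⟩
      rw [hde]
      exact ⟨e, he, vl_op_aux M hC (h3 _ he) (h3 _ (h8 _ he))⟩
    · rintro ⟨d, hd, rfl⟩
      exact ⟨d, hC.op (h3 _ hd) (h3 _ (h8 _ hd)), (vl_op_aux M hC (h3 _ hd) (h3 _ (h8 _ hd))).symm⟩

end Pool.Agent.ZFW
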