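import Pool.Agent.ZFW.PfT

/-!
Operations on digit functions which commute with the action of the group.
-/

universe u

namespace Pool.Agent.ZFW

variable {J : Type u}

theorem DJ.ext {d e : DJ J} (h : ∀ v, d.1 v = e.1 v) : d = e := Subtype.ext (funext h)

/-- The digit function with the first levels replaced by `s`. -/
def splD (s : List ℕ) (d : DJ J) : DJ J := ⟨spl s d.1, by
  obtain ⟨K, hK, hd⟩ := d.2
  exact ⟨K, hK, spl_pat hd⟩⟩

@[simp] theorem splD_val (s : List ℕ) (d : DJ J) : (splD s d).1 = spl s d.1 := rfl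

theorem splD_smul (h : Gp J) (s : List ℕ) (d : DJ J) : splD s (h • d) = h • splD s d := by
  have ht : Tl h.1⁻¹ := h.2.1.inv
  refine DJ.ext fun v => ?_
  rw [DJ.smul_apply, splD_val, splD_val]
  cases v with
  | nil => rw [ht.map_nil]; rfl
  | cons x v =>
    obtain ⟨y, hy⟩ := ht.exists_cons x v
    rw [hy]
    by_cases h1 : v.length < s.length
    · rw [spl_lt h1, spl_lt (by rw [ht.length]; exact h1), ht.length]
    · rw [spl_ge (by omega), spl_ge (by rw [ht.length]; omega), DJ.smul_apply, hy]

theorem spl_local {s : List ℕ} {d d' : List J → ℕ} {v : List J} (h : br d v = br d' v) :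
    br (spl s d) v = br (spl s d') v := by
  induction v with
  | nil => rfl
  | cons x v ih =>
    rw [br_cons, br_cons, List.cons.injEq] at h
    rw [br_cons, br_cons, ih h.2]
    congr 1
    by_cases h1 : v.length < s.length
    · rw [spl_lt h1, spl_lt h1]
    · rw [spl_ge (by omega), spl_ge (by omega), h.1]

theorem cd_ka {b : ℕ → J} {K : Set J} (hb : ∀ i, b i ∈ K) {x y : J} (h : ka K x = ka K y) :
    cd b x = cd b y := by
  rcases ka_eq_iff.1 h with h1 | ⟨h1, h2⟩
  · rw [h1]
  · rw [cd_other fun j hj => h1 (by rw [hj]; exact hb j),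
      cd_other fun j hj => h2 (by rw [hj]; exact hb j)]

/-- The member of the perfect family. -/
noncomputable def zdD (b' : List ℕ → ℕ → J) (d : DJ J) : DJ J := ⟨zd b' d.1, by
  obtain ⟨K, hK, hd⟩ := d.2
  refine ⟨K ∪ famRng b', hK.union (famRng_countable b'), fun u v h => ?_⟩
  cases u with
  | nil => rw [h.nil_left]
  | cons x u =>
    cases v with
    | nil => exact absurd h.length (by simp)
    | cons y v =>
      have h1 := Pat.cons_iff.1 h
      rw [zd_cons, zd_cons, br_congr hd (h1.2.mono Set.subset_union_left)]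
      exact cd_ka (fun i => mem_famRng b' _ i) (ka_mono Set.subset_union_right h1.1)⟩

@[simp] theorem zdD_val (b' : List ℕ → ℕ → J) (d : DJ J) : (zdD b' d).1 = zd b' d.1 := rfl

theorem zdD_smul {b' : List ℕ → ℕ → J} {h : Gp J} (hh : h.1 ∈ HE (famRng b')) (d : DJ J) :
    zdD b' (h • d) = h • zdD b' d := by
  have ht : Tl h.1⁻¹ := h.2.1.inv
  refine DJ.ext fun v => ?_
  rw [DJ.smul_apply, zdD_val, zdD_val]
  cases v with
  | nil => rw [ht.map_nil]; rfl
  | cons x v =>
    obtain ⟨y, hy⟩ := ht.exists_cons x v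
    have h1 := (inv_mem hh : h.1⁻¹ ∈ HE (famRng b')).2 (x :: v)
    rw [hy, Pat.cons_iff] at h1
    rw [hy, zd_cons, zd_cons, br_smul]
    exact (cd_ka (fun i => mem_famRng b' _ i) h1.1).symm

theorem zd_local {b' : List ℕ → ℕ → J} {d d' : List J → ℕ} {v : List J} (h : br d v = br d' v) :
    br (zd b' d) v = br (zd b' d') v := by
  induction v with
  | nil => rfl
  | cons x v ih =>
    rw [br_cons, br_cons, List.cons.injEq] at h
    rw [br_cons, br_cons, ih h.2, zd_cons, zd_cons, h.2]

theorem ka_union {E : Set J} {b : ℕ → J} (hb : Function.Injective b) {x y : J}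
    (h : ka E x = ka E y) (h' : cd b x = cd b y) :
    ka (E ∪ Set.range b) x = ka (E ∪ Set.range b) y := by
  rw [ka_eq_iff] at h ⊢
  rcases h with h | h
  · exact Or.inl h
  · by_cases h1 : ∃ j, x = b j
    · obtain ⟨j, rfl⟩ := h1
      rw [cd_mem hb] at h'
      exact Or.inl ((cd_eq_iff hb).1 h'.symm).symm
    · by_cases h2 : ∃ j, y = b j
      · obtain ⟨j, rfl⟩ := h2
        rw [cd_mem hb] at h'
        exact Or.inl ((cd_eq_iff hb).1 h')
      · refine Or.inr ⟨?_, ?_⟩
        · rintro (h3 | ⟨j, h3⟩)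
          · exact h.1 h3
          · exact h1 ⟨j, h3.symm⟩
        · rintro (h3 | ⟨j, h3⟩)
          · exact h.2 h3
          · exact h2 ⟨j, h3.symm⟩

/-- The pattern over the union of `E` and a block is given by the pattern over `E` and the digits
of the block. -/
theorem pat_union {E : Set J} {b : ℕ → J} (hb : Function.Injective b) :
    ∀ {u v : List J}, Pat E u v → br (blk b) u = br (blk b) v → Pat (E ∪ Set.range b) u v := by
  intro u
  induction u with
  | nil => intro v h _; rw [h.nil_left]
  | cons x u ih =>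
    intro v h h'
    cases v with
    | nil => exact absurd h.length (by simp)
    | cons y v =>
      rw [Pat.cons_iff] at h ⊢
      rw [br_cons, br_cons, blk_cons, blk_cons, List.cons.injEq] at h'
      exact ⟨ka_union hb h.1 h'.1, ih h.2 h'.2⟩

/-- The same for the images of a node under members of `HE E`. -/
theorem pat_union_HE {E : Set J} {b : ℕ → J} (hb : Function.Injective b)
    {h h' : Equiv.Perm (List J)} (hh : h ∈ HE E) (hh' : h' ∈ HE E) {v : List J}
    (hv : br (blk b) (h⁻¹ v) = br (blk b) (h'⁻¹ v)) :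
    Pat (E ∪ Set.range b) (h⁻¹ v) (h'⁻¹ v) :=
  pat_union hb (((inv_mem hh : h⁻¹ ∈ HE E).2 v).trans ((inv_mem hh' : h'⁻¹ ∈ HE E).2 v).symm) hv

/-- The sequence with a given code. -/
def dcd (n : ℕ) : List ℕ := (Encodable.decode (α := List ℕ) n).getD []

@[simp] theorem dcd_encode (t : List ℕ) : dcd (Encodable.encode t) = t := by
  unfold dcd
  rw [Encodable.encodek]
  rfl

end Pool.Agent.ZFW
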