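import Pool.Agent.ZFW.Ctx
import Pool.Agent.ZFW.PPa
import Pool.Agent.ZFW.Hom

/-!
The lemma on the perfect family, in the model: if an equivalence relation with parameters of
support `E` identifies two members of the perfect family, then it is constant on a cone of the
reals of a block.
-/

namespace Pool.Agent.ZFW

open Pool.Agent.SigB Filter

variable {J : Type}

/-- The facts on the names of reals which are used. -/
structure RlF {S : CC UU} (M : Md J S) (rl : DJ J → HNJ J) : Prop where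
  supp : ∀ (d : DJ J) (K : Set J) (hK : K.Countable), (∀ u v, Pat K u v → d.1 u = d.1 v) →
    (rl d).Supp (spt K hK)
  rlS : ∀ d : DJ J, CC.In S d → CC.In S (rl d)
  smulD : ∀ (h : Gp J) (d : DJ J), CC.In S h → CC.In S d → CC.In S (h • d)
  smulN : ∀ (h : Gp J) (x : HNJ J), CC.In S h → CC.In S x → CC.In S (h • x)
  vl_smul : ∀ (h : Gp J) (d : DJ J), CC.In S h → CC.In S d →
    M.vl (h • rl d) = M.vl (rl (h • d))
  vl_eq : ∀ d e : DJ J, CC.In S d → CC.In S e →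
    (M.vl (rl d) = M.vl (rl e) ↔ ∀ n, br d.1 (M.g n) = br e.1 (M.g n))

theorem ev_two {E : Set J} {b' : List ℕ → ℕ → J} (hb' : Fam E b') {b₀ b₁ : ℕ → J}
    (hb₀ : Bk (E ∪ famRng b') b₀) (hb₁ : Bk (E ∪ famRng b' ∪ Set.range b₀) b₁) :
    ∀ᶠ S in cl, ∀ d d' : DJ J, CC.In S d → CC.In S d' → ∀ p : List J, CC.In S p →
      br d.1 p ≠ br d'.1 p → ∃ k : Gp J, CC.In S k ∧ k.1 ∈ HE E ∧ ∀ (x : J) (w : List J),
        blk b₀ (k.1⁻¹ (x :: (w ++ p))) = zd b' d.1 (x :: (w ++ p)) ∧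
        blk b₁ (k.1⁻¹ (x :: (w ++ p))) = zd b' d'.1 (x :: (w ++ p)) := by
  filter_upwards [ev_ex3 (U := UU) fun (d d' : DJ J) (p : List J) (k : Gp J) =>
    k.1 ∈ HE E ∧ ∀ (x : J) (w : List J),
        blk b₀ (k.1⁻¹ (x :: (w ++ p))) = zd b' d.1 (x :: (w ++ p)) ∧
        blk b₁ (k.1⁻¹ (x :: (w ++ p))) = zd b' d'.1 (x :: (w ++ p))] with S h d d' hd hd' p hp hne
  obtain ⟨K, hK, h1⟩ := d.2
  obtain ⟨L, hL, h2⟩ := d'.2
  obtain ⟨k, hk, h3⟩ := exists_perf_two hb' hb₀ hb₁ (hK.union hL)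
    (fun u v huv => h1 u v (huv.mono Set.subset_union_left))
    (fun u v huv => h2 u v (huv.mono Set.subset_union_right)) hne
  exact h d d' p hd hd' hp ⟨⟨k, hk.1⟩, hk, h3⟩

theorem ev_partner [Uncountable J] {E : Set J} (hE : E.Countable) {b₀ b₁ : ℕ → J}
    (hb₀ : Bk E b₀) (hb₁ : Bk (E ∪ Set.range b₀) b₁) :
    ∀ᶠ S in cl, ∀ h h₁ h₂ : Gp J, CC.In S h → CC.In S h₁ → CC.In S h₂ → h.1 ∈ HE E →
      h₁.1 ∈ HE E → h₂.1 ∈ HE E → ∀ p : List J, CC.In S p → ∀ s : List ℕ, CC.In S s →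
      s.length ≤ p.length →
      br (blk b₀) (h₁.1⁻¹ p) = br (spl s fun v => blk b₀ (h.1⁻¹ v)) p →
      br (blk b₀) (h₂.1⁻¹ p) = br (spl s fun v => blk b₀ (h.1⁻¹ v)) p →
      ∃ k₁ k₂ : Gp J, CC.In S k₁ ∧ CC.In S k₂ ∧ k₁.1 ∈ HE E ∧ k₂.1 ∈ HE E ∧
        k₁.1⁻¹ p = h.1⁻¹ p ∧ k₂.1⁻¹ p = h.1⁻¹ p ∧
        (∀ w : List J, br (spl s fun v => blk b₀ (k₁.1⁻¹ v)) (w ++ p) =
          br (blk b₀) (h₁.1⁻¹ (w ++ p))) ∧
        (∀ w : List J, br (spl s fun v => blk b₀ (k₂.1⁻¹ v)) (w ++ p) =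
          br (blk b₀) (h₂.1⁻¹ (w ++ p))) ∧
        ∀ w : List J, br (blk b₁) (k₁.1⁻¹ (w ++ p)) = br (blk b₁) (k₂.1⁻¹ (w ++ p)) := by
  filter_upwards [ev_normal3 (U := UU) fun (h h₁ h₂ : Gp J) => ev_ex2 (U := UU)
      fun (p : List J) (s : List ℕ) (k : Gp J × Gp J) => k.1.1 ∈ HE E ∧ k.2.1 ∈ HE E ∧
        k.1.1⁻¹ p = h.1⁻¹ p ∧ k.2.1⁻¹ p = h.1⁻¹ p ∧
        (∀ w : List J, br (spl s fun v => blk b₀ (k.1.1⁻¹ v)) (w ++ p) =
          br (blk b₀) (h₁.1⁻¹ (w ++ p))) ∧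
        (∀ w : List J, br (spl s fun v => blk b₀ (k.2.1⁻¹ v)) (w ++ p) =
          br (blk b₀) (h₂.1⁻¹ (w ++ p))) ∧
        ∀ w : List J, br (blk b₁) (k.1.1⁻¹ (w ++ p)) = br (blk b₁) (k.2.1⁻¹ (w ++ p)),
    ev_app (U := UU) fun k : Gp J × Gp J => k.1, ev_app (U := UU) fun k : Gp J × Gp J => k.2]
    with S h3 hf hs h h₁ h₂ hh hh₁ hh₂ e e₁ e₂ p hp s hs' hl g₁ g₂
  obtain ⟨k₁, hk₁, k₂, hk₂, h4⟩ := exists_partner hE hb₀ hb₁ e e₁ e₂ hl g₁ g₂
  obtain ⟨k, hk, h5⟩ := h3 h h₁ h₂ hh hh₁ hh₂ p s hp hs'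
    ⟨(⟨k₁, hk₁.1⟩, ⟨k₂, hk₂.1⟩), hk₁, hk₂, h4⟩
  exact ⟨k.1, k.2, hf k hk, hs k hk, h5⟩

section

variable {S : CC UU} {M : Md J S}

theorem Gb.exists_app (hg : Gb M) {m n : ℕ} (h : m ≤ n) : ∃ w : List J, M.g n = w ++ M.g m := by
  obtain ⟨w, hw⟩ := hg.suf m n h
  exact ⟨w, hw.symm⟩

/-- Two digit functions which agree above a node of the branch, and at this node, agree along the
branch. -/
theorem Gb.br_all (hg : Gb M) {d e : List J → ℕ} {m : ℕ}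
    (h : ∀ w : List J, br d (w ++ M.g m) = br e (w ++ M.g m)) (n : ℕ) :
    br d (M.g n) = br e (M.g n) := by
  rcases le_total m n with h1 | h1
  · obtain ⟨w, hw⟩ := hg.exists_app h1
    rw [hw]
    exact h w
  · obtain ⟨w, hw⟩ := hg.exists_app h1
    have h2 := h []
    rw [List.nil_append, hw] at h2
    exact br_eq_of_append h2

theorem Gb.br_ne (hg : Gb M) {d e : List J → ℕ} {m n : ℕ} (hmn : m ≤ n)
    (h : br d (M.g m) ≠ br e (M.g m)) : br d (M.g n) ≠ br e (M.g n) := by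
  obtain ⟨w, hw⟩ := hg.exists_app hmn
  rw [hw]
  exact fun h1 => h (br_eq_of_append h1)

end

theorem ev_p3 [Uncountable J] {E : Set J} (hE : E.Countable) {b' : List ℕ → ℕ → J}
    (hb' : Fam E b') {b₀ b₁ : ℕ → J} (hb₀ : Bk (E ∪ famRng b') b₀)
    (hb₁ : Bk (E ∪ famRng b' ∪ Set.range b₀) b₁) :
    ∀ᶠ S in cl, ∀ (M : Md J S) (rl : DJ J → HNJ J), RlF M rl → ∀ R : M.W → M.W → Prop,
      DfnC (M.cls (spt E hE)) (fun w : Fin 2 → M.W => R (w 0) (w 1)) →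
      (∀ u v, R u v → R v u) → (∀ u v w, R u v → R v w → R u w) →
      ∀ d d' : DJ J, CC.In S d → CC.In S d' → M.vl (rl d) ≠ M.vl (rl d') → ∀ t : List ℕ,
      R (M.vl (rl (splD t (zdD b' d)))) (M.vl (rl (splD t (zdD b' d')))) →
      ∃ k : ℕ, ∀ h₁ h₂ : Gp J, CC.In S h₁ → CC.In S h₂ → h₁.1 ∈ HE E → h₂.1 ∈ HE E →
        br (h₁ • blkD b₀).1 (M.g k) = br (splD t (zdD b' d)).1 (M.g k) →
        br (h₂ • blkD b₀).1 (M.g k) = br (splD t (zdD b' d)).1 (M.g k) →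
        R (M.vl (rl (h₁ • blkD b₀))) (M.vl (rl (h₂ • blkD b₀))) := by
  have hb₀E : Bk E b₀ := hb₀.mono Set.subset_union_left
  have hb₁E : Bk (E ∪ Set.range b₀) b₁ := hb₁.mono (Set.union_subset
    (Set.subset_union_left.trans Set.subset_union_left) Set.subset_union_right)
  filter_upwards [ev_two hb' hb₀ hb₁, ev_partner hE hb₀E hb₁E, ev_g J, ev_all (U := UU) (α := List ℕ),
    ev_mem (U := UU) (blkD b₀), ev_mem (U := UU) (blkD b₁),
    ev_app2 (U := UU) fun (t : List ℕ) (d : DJ J) => splD t d,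
    ev_app (U := UU) fun d : DJ J => zdD b' d]
    with S h2 h3 hg hl hB₀ hB₁ hspl hzd M rl hF R hR hsymm htrans d d' hd hd' hne t hRt
  have hg := hg M
  -- a level at which the two reals are different
  obtain ⟨m, hm⟩ : ∃ m, br d.1 (M.g m) ≠ br d'.1 (M.g m) := by
    by_contra hno
    push Not at hno
    exact hne ((hF.vl_eq d d' hd hd').2 hno)
  have hMm : m ≤ max m t.length := le_max_left _ _
  have hMt : t.length ≤ max m t.length := le_max_right _ _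
  generalize max m t.length = N at hMm hMt
  have hne' := hg.br_ne hMm hm
  obtain ⟨h, hhS, hhE, hh⟩ := h2 d d' hd hd' (M.g N) (hg.mem_S N) hne'
  let s : List ℕ := br (spl t (zd b' d.1)) (M.g N)
  let s' : List ℕ := br (spl t (zd b' d'.1)) (M.g N)
  have hs : s.length = N := by rw [br_length, hg.len]
  have hs' : s'.length = N := by rw [br_length, hg.len]
  -- the members of the family as reals of blocks
  have e1 : ∀ n, br (splD s (h • blkD b₀)).1 (M.g n) = br (splD t (zdD b' d)).1 (M.g n) := by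
    refine hg.br_all (m := N) (br_spl_congr fun x w => ?_)
    show blk b₀ (h.1⁻¹ (x :: (w ++ M.g N))) = spl t (zd b' d.1) (x :: (w ++ M.g N))
    rw [spl_ge (by rw [List.length_append, hg.len]; omega)]
    exact (hh x w).1
  have e2 : ∀ n, br (splD s' (h • blkD b₁)).1 (M.g n) = br (splD t (zdD b' d')).1 (M.g n) := by
    refine hg.br_all (m := N) (br_spl_congr fun x w => ?_)
    show blk b₁ (h.1⁻¹ (x :: (w ++ M.g N))) = spl t (zd b' d'.1) (x :: (w ++ M.g N))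
    rw [spl_ge (by rw [List.length_append, hg.len]; omega)]
    exact (hh x w).2
  -- the names
  have hx : CC.In S (splD s (blkD b₀)) := hspl s (blkD b₀) (hl s) hB₀
  have hy : CC.In S (splD s' (blkD b₁)) := hspl s' (blkD b₁) (hl s') hB₁
  have vx : ∀ k : Gp J, CC.In S k → M.vl (k • rl (splD s (blkD b₀))) =
      M.vl (rl (splD s (k • blkD b₀))) := fun k hk => by
    rw [hF.vl_smul k _ hk hx, splD_smul]
  have vy : ∀ k : Gp J, CC.In S k → M.vl (k • rl (splD s' (blkD b₁))) =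
      M.vl (rl (splD s' (k • blkD b₁))) := fun k hk => by
    rw [hF.vl_smul k _ hk hy, splD_smul]
  have hz : ∀ d : DJ J, CC.In S d → CC.In S (splD t (zdD b' d)) := fun d hd =>
    hspl t _ (hl t) (hzd d hd)
  have hR1 : R (M.vl (h • rl (splD s (blkD b₀)))) (M.vl (h • rl (splD s' (blkD b₁)))) := by
    rw [vx h hhS, vy h hhS,
      (hF.vl_eq _ _ (hspl s _ (hl s) (hF.smulD h _ hhS hB₀)) (hz d hd)).2 e1,
      (hF.vl_eq _ _ (hspl s' _ (hl s') (hF.smulD h _ hhS hB₁)) (hz d' hd')).2 e2]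
    exact hRt
  -- homogeneity
  have hFc : (E ∪ (Set.range b₀ ∪ Set.range b₁)).Countable :=
    hE.union ((Set.countable_range b₀).union (Set.countable_range b₁))
  have pb : ∀ (b : ℕ → J) (u v : List J), Pat (Set.range b) u v → blk b u = blk b v := by
    intro b u v huv
    cases u with
    | nil => rw [huv.nil_left]
    | cons x u =>
      cases v with
      | nil => exact absurd huv.length (by simp)
      | cons y v => exact cd_ka (K := Set.range b) (fun i => ⟨i, rfl⟩) (Pat.cons_iff.1 huv).1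
  have sx : (rl (splD s (blkD b₀))).Supp (spt _ hFc) := hF.supp _ _ hFc
    (spl_pat fun u v huv => pb b₀ u v (huv.mono
      (Set.subset_union_left.trans Set.subset_union_right)))
  have sy : (rl (splD s' (blkD b₁))).Supp (spt _ hFc) := hF.supp _ _ hFc
    (spl_pat fun u v huv => pb b₁ u v (huv.mono
      (Set.subset_union_right.trans Set.subset_union_right)))
  have hS1 : ∀ k : Gp J, CC.In S k → CC.In S (k • rl (splD s (blkD b₀))) := fun k hk =>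
    hF.smulN k _ hk (hF.rlS _ hx)
  have hS2 : ∀ k : Gp J, CC.In S k → CC.In S (k • rl (splD s' (blkD b₁))) := fun k hk =>
    hF.smulN k _ hk (hF.rlS _ hy)
  have hR' : DfnC (HasS M.val (spt E hE)) fun w : Fin 2 → M.W => R (w 0) (w 1) := by
    refine DfnC.mono (C' := HasS M.val (spt E hE)) hR fun a ha => ?_
    obtain ⟨x, hx, hE, rfl⟩ := ha
    exact ⟨⟨x, hx⟩, hE, (M.vl_of hx).symm⟩
  rw [M.vl_of (hS1 h hhS), M.vl_of (hS2 h hhS)] at hR1
  obtain ⟨k₀, hk₀⟩ := M.hV.hom_pat₂ (F := E ∪ (Set.range b₀ ∪ Set.range b₁)) (hF := hFc)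
    Set.subset_union_left hR' sx sy hhE (hS1 h hhS) (hS2 h hhS) hR1
  refine ⟨max k₀ N, fun h₁ h₂ g₁ g₂ f₁ f₂ c₁ c₂ => ?_⟩
  have hk1 : k₀ ≤ max k₀ N := le_max_left _ _
  have hk2 : N ≤ max k₀ N := le_max_right _ _
  generalize max k₀ N = k at hk1 hk2 c₁ c₂
  rw [br_smul] at c₁ c₂
  rw [← e1 k] at c₁ c₂
  obtain ⟨k₁, k₂, hk₁, hk₂, m₁, m₂, q₁, q₂, w₁, w₂, w₃⟩ := h3 h h₁ h₂ hhS g₁ g₂ hhE f₁ f₂
    (M.g k) (hg.mem_S k) s (hl s) (by rw [hs, hg.len]; exact hk2) c₁ c₂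
  have key : ∀ k' : Gp J, CC.In S k' → k'.1 ∈ HE E → k'.1⁻¹ (M.g k) = h.1⁻¹ (M.g k) →
      R (M.vl (k' • rl (splD s (blkD b₀)))) (M.vl (k' • rl (splD s' (blkD b₁)))) := by
    intro k' hk' hkE hq
    rw [M.vl_of (hS1 k' hk'), M.vl_of (hS2 k' hk')]
    refine hk₀ (M.g k) (hg.mem k) ?_ k' hkE ?_ _ _
    · have := hg.len k
      exact hk1.trans this.ge
    · show Pat _ (h.1⁻¹ (M.g k)) (k'.1⁻¹ (M.g k))
      rw [hq]
  have r₁ := key k₁ hk₁ m₁ q₁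
  have r₂ := key k₂ hk₂ m₂ q₂
  rw [vx k₁ hk₁, vy k₁ hk₁] at r₁
  rw [vx k₂ hk₂, vy k₂ hk₂] at r₂
  have v₁ : M.vl (rl (splD s (k₁ • blkD b₀))) = M.vl (rl (h₁ • blkD b₀)) := by
    refine (hF.vl_eq _ _ (hspl s _ (hl s) (hF.smulD _ _ hk₁ hB₀)) (hF.smulD _ _ g₁ hB₀)).2
      (hg.br_all (m := k) fun w => ?_)
    rw [br_smul]
    exact w₁ w
  have v₂ : M.vl (rl (splD s (k₂ • blkD b₀))) = M.vl (rl (h₂ • blkD b₀)) := by
    refine (hF.vl_eq _ _ (hspl s _ (hl s) (hF.smulD _ _ hk₂ hB₀)) (hF.smulD _ _ g₂ hB₀)).2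
      (hg.br_all (m := k) fun w => ?_)
    rw [br_smul]
    exact w₂ w
  have v₃ : M.vl (rl (splD s' (k₁ • blkD b₁))) = M.vl (rl (splD s' (k₂ • blkD b₁))) := by
    refine (hF.vl_eq _ _ (hspl s' _ (hl s') (hF.smulD _ _ hk₁ hB₁))
      (hspl s' _ (hl s') (hF.smulD _ _ hk₂ hB₁))).2 (hg.br_all (m := k) fun w => ?_)
    refine spl_local ?_
    rw [br_smul, br_smul]
    exact w₃ w
  rw [v₁, v₃] at r₁
  rw [v₂] at r₂
  exact htrans _ _ _ r₁ (hsymm _ _ r₂)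

end Pool.Agent.ZFW
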