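import Pool.Agent.ZFW.Ck
import Pool.Agent.GL.Basic

/-!
Names of functions which are given by a family of pairs of names.
-/

universe u v

namespace Pool.Agent.ZFW

section names

variable {Γ P : Type u} [Group Γ] [Preorder P] [OrderTop P] [Sys Γ P]

/-- The support of a name of a set of pairs. -/
theorem supp_pairs {ι : Type u} {a b : ι → HN Γ P} {E : Sys.S Γ P}
    (h : ∀ g : Γ, g ∈ Sys.H (P := P) E → ∀ i, ∃ j, ∀ r, Nm.EqF (g • (a i).1) (a j).1 r ∧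
      Nm.EqF (g • (b i).1) (b j).1 r) :
    Nm.Supp Γ E (Nm.st fun i => (HN.op (a i) (b i)).1) := by
  refine Nm.supp_st fun g hg i => ?_
  obtain ⟨j, hj⟩ := h g hg i
  refine ⟨j, fun r => ?_⟩
  exact (Nm.smul_opN g _ _ r).trans (Nm.eqF_opN (hj r).1 (hj r).2)

end names

section sets

open Pool.Agent.SigB Pool.Agent.GL

variable {M : Type v} [Membership M M] [GL.IsZF M]

/-- A set of pairs is a function. -/
theorem fn_of_pairs {f D : M} {ι : Sort*} {I : ι → Prop} {a b : ι → M}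
    (hf : ∀ z, z ∈ f ↔ ∃ i, I i ∧ z = op (a i) (b i)) (hD : ∀ z, z ∈ D ↔ ∃ i, I i ∧ z = a i)
    (hab : ∀ i j, I i → I j → a i = a j → b i = b j) :
    Fn f D ∧ ∀ i, I i → ap f (a i) = b i := by
  have h1 : ∀ i, I i → op (a i) (b i) ∈ f := fun i hi => (hf _).2 ⟨i, hi, rfl⟩
  have h2 : ∀ i y, I i → op (a i) y ∈ f → y = b i := by
    intro i y hi hy
    obtain ⟨j, hj, he⟩ := (hf _).1 hy
    obtain ⟨h3, rfl⟩ := op_inj.1 he
    exact (hab i j hi hj h3).symm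
  refine ⟨⟨fun z hz => ?_, fun x hx => ?_⟩, fun i hi => ap_eq (h1 i hi) fun y => h2 i y hi⟩
  · obtain ⟨i, hi, rfl⟩ := (hf z).1 hz
    exact ⟨a i, (hD _).2 ⟨i, hi, rfl⟩, b i, rfl⟩
  · obtain ⟨i, hi, rfl⟩ := (hD x).1 hx
    exact ⟨b i, h1 i hi, fun y => h2 i y hi⟩

end sets

end Pool.Agent.ZFW
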