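import Pool.Agent.ZFW.EndA
import Pool.Agent.ZFW.DfnC

/-!
The cones given by the initial segments of the reals, which are coded as sets of natural numbers,
and definability with tracked parameters of the notions of the classification.
-/

universe u

set_option linter.unusedSectionVars false

namespace Pool.Agent.ZFW

open Pool.Agent.SigB Pool.Agent.GL

variable {M : Type u} [Membership M M] [GL.IsZF M]

/-- The set of the pairs `(n, z)` with `n ∈ z`. -/
noncomputable def Cnn (D : M) : M := sp (pd om D) fun u => ∃ n z, u = op n z ∧ n ∈ z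

theorem op_mem_Cnn {D n z : M} : op n z ∈ Cnn D ↔ n ∈ (om : M) ∧ z ∈ D ∧ n ∈ z := by
  unfold Cnn
  rw [mem_sp (by simp (maxDischargeDepth := 50)), op_mem_pd]
  constructor
  · rintro ⟨⟨h1, h2⟩, n', z', h, h3⟩
    obtain ⟨rfl, rfl⟩ := op_inj.1 h
    exact ⟨h1, h2, h3⟩
  · rintro ⟨h1, h2, h3⟩
    exact ⟨⟨h1, h2⟩, n, z, rfl, h3⟩

theorem cone_Cnn {D R n z : M} (hR : Sb R D) :
    Cone R (Cnn D) n z ↔ z ∈ R ∧ n ∈ (om : M) ∧ n ∈ z := by
  unfold Cone
  rw [op_mem_Cnn]
  constructor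
  · rintro ⟨h1, h2, -, h3⟩
    exact ⟨h1, h2, h3⟩
  · rintro ⟨h1, h2, h3⟩
    exact ⟨h1, h2, hR z h1, h3⟩

variable {C : M → Prop}

@[simp] theorem dtC_Cnn {n : ℕ} {s : (Fin n → M) → M} (hs : DTC C s) :
    DTC C (fun v => Cnn (s v)) := by
  have h : DTC C (fun w : Fin 1 → M => Cnn (w 0)) := by
    unfold Cnn
    simp (maxDischargeDepth := 50)
  exact dtC1 h hs

@[simp] theorem dfnC_Cone {n : ℕ} {s t r q : (Fin n → M) → M} (hs : DTC C s) (ht : DTC C t)
    (hr : DTC C r) (hq : DTC C q) : DfnC C (fun v => Cone (s v) (t v) (r v) (q v)) := by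
  unfold Cone
  simp (maxDischargeDepth := 50) [hs, ht, hr, hq]

theorem dfnC_Cst {kap R Cn Phi : M} (h1 : C kap) (h2 : C R) (h3 : C Cn) (h4 : C Phi) {n : ℕ}
    {s : (Fin n → M) → M} (hs : DTC C s) : DfnC C (fun v => Cst kap R Cn Phi (s v)) := by
  refine dfnC1 (R := fun x => Cst kap R Cn Phi x) ?_ hs
  unfold Cst
  simp (maxDischargeDepth := 50) [h1, h2, h3, h4, DTC.const]

theorem dfnC_InX {X kap R Cn Phi a : M} (h0 : C X) (h1 : C kap) (h2 : C R) (h3 : C Cn)
    (h4 : C Phi) (h5 : C a) {n : ℕ} {s : (Fin n → M) → M} (hs : DTC C s) :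
    DfnC C (fun v => InX X kap R Cn Phi a (s v)) := by
  refine dfnC1 (R := fun x => InX X kap R Cn Phi a x) ?_ hs
  have h6 : DfnC C (fun w : Fin 1 → M => Cst kap R Cn Phi (w 0)) :=
    dfnC_Cst h1 h2 h3 h4 (DTC.var 0)
  unfold InX
  refine DfnC.and ?_ (DfnC.and h6.not ?_)
  · simp (maxDischargeDepth := 50) [h0, DTC.const]
  · simp (maxDischargeDepth := 50) [h2, h4, h5, DTC.const]

/-- The predicate of the second property of the parametrisation. -/
theorem dfnC_psi {X kap R D Phi a : M} (h0 : C X) (h1 : C kap) (h2 : C R) (h3 : C (Cnn D))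
    (h4 : C Phi) (h5 : C a) :
    DfnC C (fun w : Fin 1 → M => InX X kap R (Cnn D) Phi a (ap Phi (op a (w 0)))) :=
  dfnC_InX h0 h1 h2 h3 h4 h5 (by simp (maxDischargeDepth := 50) [h4, h5, DTC.const])

end Pool.Agent.ZFW
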