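import Pool.Agent.ZFW.PPa
import Pool.Agent.ZFW.PPb
import Pool.Agent.ZFW.OpN
import Pool.Agent.ZFW.CkW
import Pool.Agent.ZFW.Ps

/-!
The function `Z` of the parametrisation, and the second and the fourth property, in a model in
which the reals are given by digit functions.
-/

universe u

namespace Pool.Agent.ZFW

open Pool.Agent.SigB Pool.Agent.GL

variable {J : Type u} {W : Type*} [Membership W W] [GL.IsZF W]

/-- The way in which the digit functions give the reals of the model: `In d` says that `d` belongs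
to the countable set of objects, `r d` is the real of `d`, `g` is the branch. -/
structure Rls (g : ℕ → List J) (In : DJ J → Prop) (r : DJ J → W) (D : W) : Prop where
  len : ∀ n, (g n).length = n
  suf : ∀ m n, m ≤ n → g m <:+ g n
  mem_D : ∀ z, z ∈ D ↔ ∃ d, In d ∧ z = r d
  mem_r : ∀ d, In d → ∀ z, z ∈ r d ↔ ∃ k, z = nat (Encodable.encode (br d.1 (g k)))
  mem_om : ∀ z : W, z ∈ (om : W) ↔ ∃ n, z = nat n

namespace Rls

variable {g : ℕ → List J} {In : DJ J → Prop} {r : DJ J → W} {D : W}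

theorem nat_mem (h : Rls g In r D) {d : DJ J} (hd : In d) {t : List ℕ} :
    (nat (Encodable.encode t) : W) ∈ r d ↔ t = br d.1 (g t.length) := by
  rw [h.mem_r d hd]
  constructor
  · rintro ⟨k, hk⟩
    have h1 := Encodable.encode_injective (nat_inj.1 hk)
    have h2 : t.length = k := by rw [h1, br_length, h.len]
    rw [h2]
    exact h1
  · intro h1
    exact ⟨t.length, by rw [← h1]⟩

theorem eq_iff (h : Rls g In r D) {d e : DJ J} (hd : In d) (he : In e) :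
    r d = r e ↔ ∀ n, br d.1 (g n) = br e.1 (g n) := by
  constructor
  · intro h1 n
    have h2 : (nat (Encodable.encode (br d.1 (g n))) : W) ∈ r d := (h.mem_r d hd _).2 ⟨n, rfl⟩
    rw [h1, h.nat_mem he, br_length, h.len] at h2
    exact h2
  · intro h1
    refine ext' fun z => ?_
    rw [h.mem_r d hd, h.mem_r e he]
    exact exists_congr fun k => by rw [h1]

theorem mem (h : Rls g In r D) {d : DJ J} (hd : In d) : r d ∈ D := (h.mem_D _).2 ⟨d, hd, rfl⟩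

theorem exists_app (h : Rls g In r D) {k m : ℕ} (hkm : k ≤ m) : ∃ w, g m = w ++ g k := by
  obtain ⟨w, hw⟩ := h.suf k m hkm
  exact ⟨w, hw.symm⟩

theorem br_eq_of_le {d e : List J → ℕ} (h : Rls g In r D) {k m : ℕ} (hkm : k ≤ m)
    (h1 : br d (g m) = br e (g m)) : br d (g k) = br e (g k) := by
  obtain ⟨w, hw⟩ := h.exists_app hkm
  rw [hw] at h1
  exact br_eq_of_append h1

/-- Equality of two reals which is known above some node. -/
theorem eq_of_app (h : Rls g In r D) {d e : DJ J} (hd : In d) (he : In e) {k : ℕ}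
    (h1 : ∀ w : List J, br d.1 (w ++ g k) = br e.1 (w ++ g k)) : r d = r e := by
  refine (h.eq_iff hd he).2 fun n => ?_
  rcases le_total k n with hn | hn
  · obtain ⟨w, hw⟩ := h.exists_app hn
    rw [hw]
    exact h1 w
  · refine h.br_eq_of_le hn ?_
    simpa using h1 []

/-- The function given by an operation on digit functions. -/
theorem fn1 (h : Rls g In r D) {O : DJ J → DJ J} (hO : ∀ d, In d → In (O d))
    (hloc : ∀ d e v, br d.1 v = br e.1 v → br (O d).1 v = br (O e).1 v) {F : W}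
    (hF : ∀ z, z ∈ F ↔ ∃ d, In d ∧ z = op (r d) (r (O d))) :
    F ∈ fs D D ∧ ∀ d, In d → ap F (r d) = r (O d) := by
  obtain ⟨h1, h2⟩ := fn_of_pairs (f := F) (D := D) (I := In) (a := r) (b := fun d => r (O d)) hF
    h.mem_D fun d e hd he hde => (h.eq_iff (hO d hd) (hO e he)).2 fun n =>
      hloc d e _ ((h.eq_iff hd he).1 hde n)
  refine ⟨mem_fs.2 ⟨h1, fun x hx => ?_⟩, h2⟩
  obtain ⟨d, hd, rfl⟩ := (h.mem_D x).1 hx
  rw [h2 d hd]
  exact h.mem (hO d hd)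

/-- The function given by an operation with a natural number as a parameter. -/
theorem fn2 (h : Rls g In r D) {O : ℕ → DJ J → DJ J} (hO : ∀ n d, In d → In (O n d))
    (hloc : ∀ n d e v, br d.1 v = br e.1 v → br (O n d).1 v = br (O n e).1 v) {F : W}
    (hF : ∀ z, z ∈ F ↔ ∃ i : ℕ × DJ J, In i.2 ∧ z = op (op (nat i.1) (r i.2)) (r (O i.1 i.2))) :
    F ∈ fs (pd om D) D ∧ ∀ n d, In d → ap F (op (nat n) (r d)) = r (O n d) := by
  obtain ⟨h1, h2⟩ := fn_of_pairs (f := F) (D := pd om D) (I := fun i : ℕ × DJ J => In i.2)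
    (a := fun i => op (nat i.1) (r i.2)) (b := fun i => r (O i.1 i.2)) hF (fun z => by
      rw [mem_pd]
      constructor
      · rintro ⟨x, hx, y, hy, rfl⟩
        obtain ⟨n, rfl⟩ := (h.mem_om x).1 hx
        obtain ⟨d, hd, rfl⟩ := (h.mem_D y).1 hy
        exact ⟨(n, d), hd, rfl⟩
      · rintro ⟨⟨n, d⟩, hd, rfl⟩
        exact ⟨_, nat_mem_om n, _, h.mem hd, rfl⟩) (by
      rintro ⟨n, d⟩ ⟨m, e⟩ hd he hde
      obtain ⟨h3, h4⟩ := op_inj.1 hde
      have h5 : n = m := nat_inj.1 h3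
      subst h5
      exact (h.eq_iff (hO n d hd) (hO n e he)).2 fun k => hloc n d e _ ((h.eq_iff hd he).1 h4 k))
  refine ⟨mem_fs.2 ⟨h1, fun x hx => ?_⟩, fun n d hd => h2 (n, d) hd⟩
  obtain ⟨n', hn, y, hy, rfl⟩ := mem_pd.1 hx
  obtain ⟨n, rfl⟩ := (h.mem_om n').1 hn
  obtain ⟨d, hd, rfl⟩ := (h.mem_D y).1 hy
  rw [h2 (n, d) hd]
  exact h.mem (hO n d hd)

end Rls

/-! ### The function `Z` -/

/-- The composition of the two functions. -/
noncomputable def ZZ (D Q Y : W) : W := lam (pd om D) fun u => ap Q (op (p1 u) (ap Y (p2 u)))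

theorem ZZ_dt {Q Y : W} : DT (fun w : Fin 1 → W => ap Q (op (p1 (w 0)) (ap Y (p2 (w 0))))) := by
  simp (maxDischargeDepth := 50)

theorem ap_ZZ {D Q Y n y : W} (hn : n ∈ (om : W)) (hy : y ∈ D) :
    ap (ZZ D Q Y) (op n y) = ap Q (op n (ap Y y)) := by
  unfold ZZ
  rw [ap_lam ZZ_dt (op_mem_pd.2 ⟨hn, hy⟩), p1_op, p2_op]

theorem ZZ_mem {D Q Y : W} (hQ : Q ∈ fs (pd om D) D) (hY : Y ∈ fs D D) :
    ZZ D Q Y ∈ fs (pd om D) D := by
  unfold ZZ
  refine lam_mem_fs ZZ_dt fun x hx => ?_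
  obtain ⟨n, hn, y, hy, rfl⟩ := mem_pd.1 hx
  rw [p1_op, p2_op]
  exact (mem_fs.1 hQ).2 _ (op_mem_pd.2 ⟨hn, (mem_fs.1 hY).2 _ hy⟩)

/-! ### The second and the fourth property -/

section

variable {g : ℕ → List J} {In : DJ J → Prop} {r : DJ J → W} {D : W} {InG : Gp J → Prop}
  {E : Set J} {b₀ : ℕ → J}

/-- The set `R` of the reals of the block `b₀` moved by elements of `HE E`. -/
structure IsR (g : ℕ → List J) (In : DJ J → Prop) (r : DJ J → W) (InG : Gp J → Prop) (E : Set J)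
    (b₀ : ℕ → J) (R : W) : Prop where
  mem_R : ∀ z, z ∈ R ↔ ∃ h : Gp J, InG h ∧ h.1 ∈ HE E ∧ z = r (h • blkD b₀)
  in_smul : ∀ h : Gp J, InG h → In (h • blkD b₀)

variable {R : W}

theorem IsR.sb (h : Rls g In r D) (hR : IsR g In r InG E b₀ R) : GL.Sb R D := by
  intro z hz
  obtain ⟨k, hk, -, rfl⟩ := (hR.mem_R z).1 hz
  exact h.mem (hR.in_smul k hk)

theorem br_smul_blk (h : Gp J) (b : ℕ → J) (v : List J) :
    br (h • blkD b).1 v = br (blk b) (h.1⁻¹ v) := br_smul h (blkD b) v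

/-- The cones. -/
theorem IsR.cone_iff (h : Rls g In r D) (hR : IsR g In r InG E b₀ R) {t : List ℕ} {z : W} :
    Cone R (Cnn D) (nat (Encodable.encode t)) z ↔ ∃ k : Gp J, InG k ∧ k.1 ∈ HE E ∧
      z = r (k • blkD b₀) ∧ t = br (blk b₀) (k.1⁻¹ (g t.length)) := by
  rw [cone_Cnn (hR.sb h), hR.mem_R]
  constructor
  · rintro ⟨⟨k, hk, hE, rfl⟩, -, h1⟩
    rw [h.nat_mem (hR.in_smul k hk), br_smul_blk] at h1
    exact ⟨k, hk, hE, rfl, h1⟩
  · rintro ⟨k, hk, hE, rfl, h1⟩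
    refine ⟨⟨k, hk, hE, rfl⟩, nat_mem_om _, ?_⟩
    rw [h.nat_mem (hR.in_smul k hk), br_smul_blk]
    exact h1

/-- A number of a nonempty cone is the code of a sequence. -/
theorem IsR.exists_code (h : Rls g In r D) (hR : IsR g In r InG E b₀ R) {n z : W}
    (hz : Cone R (Cnn D) n z) : ∃ k : Gp J, ∃ m : ℕ, InG k ∧ k.1 ∈ HE E ∧ z = r (k • blkD b₀) ∧
      n = nat (Encodable.encode (br (blk b₀) (k.1⁻¹ (g m)))) := by
  rw [cone_Cnn (hR.sb h), hR.mem_R] at hz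
  obtain ⟨⟨k, hk, hE, rfl⟩, -, h1⟩ := hz
  obtain ⟨m, hm⟩ := (h.mem_r _ (hR.in_smul k hk) n).1 h1
  rw [br_smul_blk] at hm
  exact ⟨k, m, hk, hE, rfl, hm⟩

/-- The second property. -/
theorem IsR.p2 (h : Rls g In r D) (hb : Function.Injective b₀) (hR : IsR g In r InG E b₀ R)
    {ψ : W → Prop}
    (hom : ∀ k : Gp J, InG k → k.1 ∈ HE E → ψ (r (k • blkD b₀)) → ∃ m : ℕ, ∀ k' : Gp J,
      InG k' → k'.1 ∈ HE E → Pat (E ∪ Set.range b₀) (k.1⁻¹ (g m)) (k'.1⁻¹ (g m)) →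
      ψ (r (k' • blkD b₀))) {z : W} (hz : z ∈ R) (hψ : ψ z) :
    ∃ n, n ∈ (om : W) ∧ Cone R (Cnn D) n z ∧ ∀ z', Cone R (Cnn D) n z' → ψ z' := by
  obtain ⟨k, hk, hE, rfl⟩ := (hR.mem_R z).1 hz
  obtain ⟨m, hm⟩ := hom k hk hE hψ
  have hl : (br (blk b₀) (k.1⁻¹ (g m))).length = m := by
    rw [br_length, (inv_mem k.2 : k.1⁻¹ ∈ GG J).1.length, h.len]
  refine ⟨nat (Encodable.encode (br (blk b₀) (k.1⁻¹ (g m)))), nat_mem_om _,
    (hR.cone_iff h).2 ⟨k, hk, hE, rfl, by rw [hl]⟩, fun z' hz' => ?_⟩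
  obtain ⟨k', hk', hE', rfl, h1⟩ := (hR.cone_iff h).1 hz'
  rw [hl] at h1
  exact hm k' hk' hE' (pat_union_HE hb hE hE' h1)

/-- The fourth property. -/
theorem IsR.p4 (h : Rls g In r D) (hR : IsR g In r InG E b₀ R) {b' : List ℕ → ℕ → J}
    (hIn : ∀ t d, In d → In (splD t (zdD b' d)))
    (hcl : ∀ (d : DJ J) (k : Gp J) (m : ℕ), In d → InG k → k.1 ∈ HE E → ∃ k' : Gp J, InG k' ∧
      k'.1 ∈ HE E ∧ ∀ w : List J, br (blk b₀) (k'.1⁻¹ (w ++ g m)) =
        br (spl (br (blk b₀) (k.1⁻¹ (g m))) (zd b' d.1)) (w ++ g m))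
    {Z : W} (hZ : ∀ n d, In d → ap Z (op (nat n) (r d)) = r (splD (dcd n) (zdD b' d)))
    {n y : W} (hne : ∃ z, Cone R (Cnn D) n z) (hy : y ∈ D) :
    Cone R (Cnn D) n (ap Z (op n y)) := by
  obtain ⟨z, hz⟩ := hne
  obtain ⟨k, m, hk, hE, rfl, rfl⟩ := hR.exists_code h hz
  obtain ⟨d, hd, rfl⟩ := (h.mem_D y).1 hy
  obtain ⟨k', hk', hE', h1⟩ := hcl d k m hd hk hE
  rw [hZ _ d hd, dcd_encode]
  have hl : (br (blk b₀) (k.1⁻¹ (g m))).length = m := by
    rw [br_length, (inv_mem k.2 : k.1⁻¹ ∈ GG J).1.length, h.len]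
  refine (hR.cone_iff h).2 ⟨k', hk', hE', ?_, ?_⟩
  · refine h.eq_of_app (hIn _ d hd) (hR.in_smul k' hk') (k := m) fun w => ?_
    rw [br_smul_blk, h1 w]
    rfl
  · rw [hl]
    have h2 := h1 []
    rw [List.nil_append] at h2
    rw [h2, br_spl_eq (by rw [h.len, hl])]

end

end Pool.Agent.ZFW
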