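import Pool.Agent.ZFW.RlW
import Pool.Agent.ZFW.NcsbD
import Pool.Agent.ZFW.P3
import Pool.Agent.ZFW.PP
import Pool.Agent.ZFW.EndB

/-!
The interfaces of the other parts, for the names `rl d`, and the names of the functions on the
reals which are given by operations on digit functions.
-/

namespace Pool.Agent.ZFW

open Pool.Agent.SigB Filter

variable {J : Type} {S : CC UU} {M : Md J S}

theorem RlC.rlS (hC : RlC J S) (hb : Gb M) : RlS M Pool.Agent.ZFW.rl where
  mem_S := hC.rl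
  eq_iff _ _ hd he := hC.vl_rl_eq_ev hb hd he
  smul := smul_rl
  supp _ F hF h := supp_rl_blk (E := ⟨F, hF⟩) h

theorem RlC.rlF (hC : RlC J S) (hb : Gb M) : RlF M Pool.Agent.ZFW.rl where
  supp _ K hK h := supp_rl (E := ⟨K, hK⟩) h
  rlS := hC.rl
  smulD := hC.smulD
  smulN := hC.smulN
  vl_smul _ _ hh hd := hC.vl_smul_rl M hh hd
  vl_eq _ _ hd he := hC.vl_rl_eq hb hd he

theorem RlC.rls (hC : RlC J S) (hb : Gb M) : Rls M.g (fun d : DJ J => CC.In S d)
    (fun d => M.vl (Pool.Agent.ZFW.rl d)) (M.vl (DDn J)) where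
  len := hb.len
  suf := hb.suf
  mem_D _ := hC.mem_DD
  mem_r _ hd _ := hC.mem_vl_rl hb hd
  mem_om _ := M.hV.mem_om M.hN hC.ckS

end Pool.Agent.ZFW
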