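import Pool.Agent.ZFW.NcsbE
import Pool.Agent.ZFW.RlI
import Pool.Agent.ZFW.CkM

/-!
The set of the reals of the models is not well-orderable, and the dual Cantor-Schröder-Bernstein
theorem fails in the models.
-/

namespace Pool.Agent.ZFW

open Pool.Agent.SigB Filter

variable {J : Type} {S : CC UU}

/-- The set of the reals of the model is not well-orderable. -/
theorem ev_not_wo_DD (J : Type) [Uncountable J] :
    ∀ᶠ S in cl, ∀ M : Md J S, ¬ WO (M.vl (DDn J)) := by
  filter_upwards [ev_not_wo J, ev_rlC J, ev_ckU J, ev_g J] with S h1 hC hK h3 M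
  exact h1 M inferInstance (h3 M) rl (hC.rlS (h3 M)) (fun z hz E => hK.cls_ord M hz E) _
    fun d hd => hC.vl_rl_mem M hd

/-- The dual Cantor-Schröder-Bernstein theorem fails in the model. -/
theorem ev_not_csb (J : Type) [Uncountable J] : ∀ᶠ S in cl, ∀ M : Md J S, ¬ CSBstar M.W := by
  filter_upwards [ev_no_inv J, ev_inv (rlH := rl) smul_rl, ev_rlC J, ev_ckU J, ev_g J]
    with S h1 h2 hC hK h4 M hcsb
  have hg := h4 M
  obtain ⟨f, hf, h⟩ := h2 M hg (fun d e hd he => hC.vl_rl_eq_ev hg hd he) (M.vl (DDn J))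
    (fun z => hC.mem_DD) hcsb
  refine h1 M inferInstance hg rl (hC.rlS hg) (M.vl (DDn J)) f nat
    (fun d hd => hC.vl_rl_mem M hd) ?_ (fun n E => hK.cls_nat M n E) ?_ h
  · intro y hy x hx
    obtain ⟨d, hd, rfl⟩ := hC.mem_DD.1 hy
    obtain ⟨k, hk⟩ := (hC.mem_vl_rl hg hd).1 hx
    exact ⟨_, hk⟩
  · intro y hy
    exact (GL.mem_fs.1 hf).2 y hy

end Pool.Agent.ZFW
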