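import Pool.Agent.ZFW.NcsbA
import Pool.Agent.ZFW.Rl
import Pool.Agent.ZFW.OpN

/-!
The relation of eventual equality of the reals which are given by digit functions, and a function
which maps the reals to pairwise inequivalent reals.
-/

universe u

namespace Pool.Agent.ZFW

variable {J : Type u}


/-! ### The digit functions -/

/-- The digit function which gives at every level the code of the initial segment. -/
def spr (d : DJ J) : DJ J := ⟨fun v => Encodable.encode (br d.1 v), by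
  obtain ⟨K, hK, h⟩ := d.2
  exact ⟨K, hK, fun u v huv => congrArg Encodable.encode (br_congr h huv)⟩⟩

theorem spr_apply (d : DJ J) (v : List J) : (spr d).1 v = Encodable.encode (br d.1 v) := rfl

theorem smul_spr (h : Gp J) (d : DJ J) : h • spr d = spr (h • d) := by
  refine Subtype.ext (funext fun v => ?_)
  rw [DJ.smul_apply, spr_apply, spr_apply, br_smul]

/-- The two digit functions agree at all nodes of length larger than `m`. -/
def Agr (m : ℕ) (d e : DJ J) : Prop := ∀ v : List J, m < v.length → d.1 v = e.1 v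

theorem Agr.smul {m : ℕ} {d e : DJ J} (h : Agr m d e) (g : Gp J) : Agr m (g • d) (g • e) := by
  intro v hv
  rw [DJ.smul_apply, DJ.smul_apply]
  refine h _ ?_
  have h1 : Tl (g.1)⁻¹ := g.2.1.inv
  rwa [h1.length]

theorem Agr.symm {m : ℕ} {d e : DJ J} (h : Agr m d e) : Agr m e d := fun v hv => (h v hv).symm

/-- The digits of `e` below the level `m`, the digits of `d` from there on. -/
def mix (m : ℕ) (d e : DJ J) : DJ J := ⟨fun v => if v.length ≤ m then e.1 v else d.1 v, by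
  obtain ⟨K, hK, h⟩ := d.2
  obtain ⟨L, hL, h'⟩ := e.2
  refine ⟨K ∪ L, hK.union hL, fun u v huv => ?_⟩
  show (if u.length ≤ m then e.1 u else d.1 u) = if v.length ≤ m then e.1 v else d.1 v
  rw [huv.length, h u v (huv.mono Set.subset_union_left),
    h' u v (huv.mono Set.subset_union_right)]⟩

theorem mix_apply (m : ℕ) (d e : DJ J) (v : List J) :
    (mix m d e).1 v = if v.length ≤ m then e.1 v else d.1 v := rfl

theorem agr_mix (m : ℕ) (d e : DJ J) : Agr m d (mix m d e) := by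
  intro v hv
  rw [mix_apply, if_neg (by omega)]

/-- The pairs of digit functions which agree from some level on. -/
def EIx (J : Type u) : Type u := {p : DJ J × DJ J // ∃ m, Agr m p.1 p.2}

/-! ### Reals along the branch -/

theorem ev_spr_congr {G : Set (Cnd J)} {g : ℕ → List J} (hg : Brn G g)
    (hsuf : ∀ m n, m ≤ n → g m <:+ g n) {d e : DJ J} (h : ∀ k, ev g d.1 k = ev g e.1 k) (k : ℕ) :
    ev g (spr d).1 k = ev g (spr e).1 k := by
  show Encodable.encode (br d.1 (g (k + 1))) = Encodable.encode (br e.1 (g (k + 1)))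
  rw [(br_eq_iff hg hsuf d.1 e.1 (k + 1)).2 fun j _ => h j]

theorem ev_of_spr {G : Set (Cnd J)} {g : ℕ → List J} (hg : Brn G g)
    (hsuf : ∀ m n, m ≤ n → g m <:+ g n) {d e : DJ J} {m : ℕ}
    (h : ∀ k, m ≤ k → ev g (spr d).1 k = ev g (spr e).1 k) (k : ℕ) : ev g d.1 k = ev g e.1 k := by
  have h1 : Encodable.encode (br d.1 (g (max m k + 1))) =
      Encodable.encode (br e.1 (g (max m k + 1))) := h (max m k) (le_max_left _ _)
  exact (br_eq_iff hg hsuf d.1 e.1 _).1 (Encodable.encode_injective h1) k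
    (Nat.lt_succ_of_le (le_max_right _ _))

theorem ev_mix {G : Set (Cnd J)} {g : ℕ → List J} (hg : Brn G g) {m : ℕ} {d e : DJ J}
    (h : ∀ k, m ≤ k → ev g d.1 k = ev g e.1 k) (k : ℕ) :
    ev g (mix m d e).1 k = ev g e.1 k := by
  show (if (g (k + 1)).length ≤ m then e.1 (g (k + 1)) else d.1 (g (k + 1))) = e.1 (g (k + 1))
  rw [hg.len]
  split_ifs with h1
  · rfl
  · exact h k (by omega)

theorem ev_of_agr {G : Set (Cnd J)} {g : ℕ → List J} (hg : Brn G g) {m : ℕ} {d e : DJ J}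
    (h : Agr m d e) (k : ℕ) (hk : m ≤ k) : ev g d.1 k = ev g e.1 k :=
  h _ (by rw [hg.len]; omega)

/-! ### The relation and the function in the model -/

section sets

open Pool.Agent.SigB Pool.Agent.GL

variable {W : Type*} [Membership W W] [GL.IsZF W] {G : Set (Cnd J)} {g : ℕ → List J}
  {In : DJ J → Prop} {r : DJ J → W} {D E₀ F : W}

/-- The pairs of reals which belong to the relation. -/
theorem op_mem_E0 (hg : Brn G g)
    (hE : ∀ z, z ∈ E₀ ↔ ∃ p : EIx J, In p.1.1 ∧ In p.1.2 ∧ z = op (r p.1.1) (r p.1.2))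
    (hm : ∀ m d e, In d → In e → In (mix m d e))
    (hr : ∀ d e, In d → In e → (r d = r e ↔ ∀ k, ev g d.1 k = ev g e.1 k))
    {d e : DJ J} (hd : In d) (he : In e) :
    op (r d) (r e) ∈ E₀ ↔ ∃ m, ∀ k, m ≤ k → ev g d.1 k = ev g e.1 k := by
  rw [hE]
  constructor
  · rintro ⟨⟨⟨d', e'⟩, m, h⟩, hd', he', h1⟩
    obtain ⟨h2, h3⟩ := op_inj.1 h1
    have h4 := (hr d d' hd hd').1 h2
    have h5 := (hr e e' he he').1 h3
    exact ⟨m, fun k hk => by rw [h4 k, h5 k]; exact ev_of_agr hg h k hk⟩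
  · rintro ⟨m, h⟩
    refine ⟨⟨(d, mix m d e), m, agr_mix m d e⟩, hd, hm m d e hd he, ?_⟩
    rw [op_inj]
    exact ⟨rfl, (hr _ _ he (hm m d e hd he)).2 fun k => (ev_mix hg h k).symm⟩

/-- The dual Cantor-Schröder-Bernstein theorem gives a function which classifies the relation. -/
theorem exists_inv_of (h : CSBstar W) (hg : Brn G g) (hsuf : ∀ m n, m ≤ n → g m <:+ g n)
    (hD : ∀ z, z ∈ D ↔ ∃ d, In d ∧ z = r d)
    (hE : ∀ z, z ∈ E₀ ↔ ∃ p : EIx J, In p.1.1 ∧ In p.1.2 ∧ z = op (r p.1.1) (r p.1.2))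
    (hF : ∀ z, z ∈ F ↔ ∃ d, In d ∧ z = op (r d) (r (spr d)))
    (hs : ∀ d, In d → In (spr d)) (hm : ∀ m d e, In d → In e → In (mix m d e))
    (hr : ∀ d e, In d → In e → (r d = r e ↔ ∀ k, ev g d.1 k = ev g e.1 k)) :
    ∃ f, f ∈ fs D D ∧ ∀ d e, In d → In e →
      (ap f (r d) = ap f (r e) ↔ ∃ m, ∀ k, m ≤ k → ev g d.1 k = ev g e.1 k) := by
  have hE' : ∀ {d e}, In d → In e → (op (r d) (r e) ∈ E₀ ↔
      ∃ m, ∀ k, m ≤ k → ev g d.1 k = ev g e.1 k) := fun hd he => op_mem_E0 hg hE hm hr hd he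
  obtain ⟨-, hap⟩ := fn_of_pairs (f := F) (D := D) (I := In) (a := r) (b := fun d => r (spr d))
    hF hD fun d e hd he hde => (hr _ _ (hs d hd) (hs e he)).2
      fun k => ev_spr_congr hg hsuf ((hr d e hd he).1 hde) k
  obtain ⟨f, hf, hf'⟩ := exists_inv h (D := D) (E := E₀) (F := F) (fun y hy => by
      obtain ⟨d, hd, rfl⟩ := (hD y).1 hy
      exact (hE' hd hd).2 ⟨0, fun _ _ => rfl⟩) (fun y z hyz => by
      obtain ⟨⟨⟨d, e⟩, h0⟩, hd, he, h1⟩ := (hE _).1 hyz
      obtain ⟨rfl, rfl⟩ := GL.op_inj.1 h1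
      obtain ⟨m, hm'⟩ := (hE' hd he).1 hyz
      exact (hE' he hd).2 ⟨m, fun k hk => (hm' k hk).symm⟩) (fun x y z hxy hyz => by
      obtain ⟨⟨⟨d, e⟩, h0⟩, hd, he, h1⟩ := (hE _).1 hxy
      obtain ⟨rfl, rfl⟩ := GL.op_inj.1 h1
      obtain ⟨⟨⟨e', c⟩, h0'⟩, he', hc, h2⟩ := (hE _).1 hyz
      obtain ⟨h3, rfl⟩ := GL.op_inj.1 h2
      obtain ⟨m, h4⟩ := (hE' hd he).1 hxy
      obtain ⟨n, h5⟩ := (hE' he hc).1 hyz
      refine (hE' hd hc).2 ⟨max m n, fun k hk => ?_⟩
      rw [h4 k (le_of_max_le_left hk), h5 k (le_of_max_le_right hk)]) (fun y hy => by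
      obtain ⟨d, hd, rfl⟩ := (hD y).1 hy
      rw [hap d hd]
      exact (hD _).2 ⟨_, hs d hd, rfl⟩) (fun y z hy hz hyz => by
      obtain ⟨d, hd, rfl⟩ := (hD y).1 hy
      obtain ⟨e, he, rfl⟩ := (hD z).1 hz
      rw [hap d hd, hap e he] at hyz
      obtain ⟨m, h4⟩ := (hE' (hs d hd) (hs e he)).1 hyz
      exact (hr d e hd he).2 (ev_of_spr hg hsuf h4))
  refine ⟨f, hf, fun d e hd he => ?_⟩
  rw [hf' _ _ ((hD _).2 ⟨d, hd, rfl⟩) ((hD _).2 ⟨e, he, rfl⟩), hE' hd he]

end sets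

end Pool.Agent.ZFW
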