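import Pool.Agent.ZFW.Rl
import Pool.Agent.ZFW.GenC

/-!
Type level facts on generic blocks: changing a group element above a node, exchanging a block with
a new one, and the levels of a generic branch at which two digit functions differ.
-/

universe u v w

namespace Pool.Agent.ZFW

open Pool.Agent.SigB Filter

section

variable {J : Type u}

/-- Change the group element `h'` to `h` below the node `p`. -/
theorem exists_mod_blk {E : Set J} {h h' : Gp J} (hh : h.1 ∈ HE E) (hh' : h'.1 ∈ HE E)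
    (p : List J) : ∃ k : Gp J, k.1 ∈ HE E ∧ k.1⁻¹ p = h.1⁻¹ p ∧
      ∀ (b : ℕ → J) (x : J) (w : List J),
        (k • blkD b).1 (x :: w ++ p) = (h' • blkD b).1 (x :: w ++ p) := by
  obtain ⟨k, hk, hk'⟩ := exists_mod hh' hh p
  refine ⟨⟨k, hk.1⟩, hk, ?_, fun b x w => ?_⟩
  · have := hk' []
    simpa using this
  · rw [DJ.smul_apply, DJ.smul_apply]
    show blk b (k⁻¹ (x :: w ++ p)) = blk b (h'.1⁻¹ (x :: w ++ p))
    rw [hk' (x :: w)]
    have ht : Tl h'.1⁻¹ := (inv_mem h'.2 : h'.1⁻¹ ∈ GG J).1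
    obtain ⟨y, hy⟩ := ht.exists_cons x (w ++ p)
    have hy' : h'.1⁻¹ (x :: w ++ p) = y :: h'.1⁻¹ (w ++ p) := hy
    rw [hy', List.length_cons, List.take_succ_cons]
    rfl

/-- Exchange of a block outside of `E` with a new one. -/
theorem exists_swap_blk [Uncountable J] {E : Set J} (hE : E.Countable) {b : ℕ → J}
    (hb : Function.Injective b) (hbE : ∀ i, b i ∉ E) :
    ∃ h : Gp J, h.1 ∈ HE E ∧ ∀ p : List J, ∃ x, (blkD b).1 (x :: p) ≠ (h • blkD b).1 (x :: p) := by
  obtain ⟨c, hc, hc'⟩ := exists_block (J := J) (hE.union (Set.countable_range b))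
  have s1 : Sep b c := ⟨hb, hc, fun i j h => hc' j (Or.inr ⟨i, h⟩)⟩
  have hcE : ∀ i, c i ∉ E := fun i h => hc' i (Or.inl h)
  have hmem : rho (fun _ : List J => swp b c) ∈ HE E :=
    rho_mem_HE (Set.countable_empty) (fun _ _ _ => rfl) fun _ x => ka_swp hbE hcE x
  refine ⟨⟨rho fun _ => swp b c, hmem.1⟩, hmem, fun p => ⟨b 0, ?_⟩⟩
  rw [DJ.smul_apply]
  have h1 : (rho fun _ : List J => swp b c)⁻¹ (b 0 :: p) =
      c 0 :: (rho fun _ : List J => swp b c)⁻¹ p := by
    rw [Equiv.Perm.inv_eq_iff_eq, rho_cons, app_inv, swp_right s1]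
  show blk b (b 0 :: p) ≠ blk b ((rho fun _ : List J => swp b c)⁻¹ (b 0 :: p))
  rw [h1]
  show cd b (b 0) ≠ cd b (c 0)
  rw [cd_mem hb, cd_other fun j => (s1.ne j 0).symm]
  exact Nat.succ_ne_zero _

end

/-! ### Genericity -/

section

variable {J : Type u} {U : Type w} [Obj U (Cnd J)] [Obj U (Set (Cnd J))]

/-- The initial segments of the generic branch belong to `S`. -/
theorem ev_branch_in : ∀ᶠ S in clubF U, ∀ G : Set (Cnd J), GenS S G → ∀ g, Brn G g →
    ∀ k, S.In (α := Cnd J) (g k) := by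
  let F : Cnd J → Set (Cnd J) := fun q => Set.range fun n : ℕ => List.drop (α := J) n q
  have h0 : ∀ q : Cnd J, (F q).Countable := fun q => Set.countable_range _
  filter_upwards [ev_values (U := U) (α := Cnd J) (β := Cnd J) (F := F) h0] with S h1 G hG g hg k
  obtain ⟨q, hq, -, hqk⟩ := hG.sub _ (hg.mem k)
  refine h1 q hq _ ⟨List.length (α := J) q - (g k).length, ?_⟩
  obtain ⟨w, hw⟩ := (Cnd.le_iff.1 hqk : List.IsSuffix (α := J) (g k) q)
  show List.drop (List.length (α := J) q - (g k).length) q = g k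
  have h2 : List.length (α := J) q - (g k).length = w.length := by
    have := congrArg List.length hw
    rw [List.length_append] at this
    omega
  rw [h2]
  have h3 : (q : List J) = w ++ g k := hw.symm
  rw [h3]
  exact List.drop_left

variable [Obj U (DJ J)]

/-- Two digit functions which can always be made different are different at infinitely many levels
of the generic branch. -/
theorem ev_ne_cofinal : ∀ᶠ S in clubF U, ∀ G : Set (Cnd J), GenS S G → ∀ g, Brn G g →
    ∀ d e : DJ J, S.In d → S.In e → (∀ p : List J, ∃ x, d.1 (x :: p) ≠ e.1 (x :: p)) →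
    ∀ m, ∃ k, m ≤ k ∧ ev g d.1 k ≠ ev g e.1 k := by
  filter_upwards [eventually_countable_forall.2 fun m : ℕ => ev_app2 (U := U)
    fun d e : DJ J => {q : Cnd J | ∃ (x : J) (v : List J), List.IsSuffix (α := J) (x :: v) q ∧
      m ≤ v.length ∧ d.1 (x :: v) ≠ e.1 (x :: v)}] with S h1 G hG g hg d e hd he hne m
  obtain ⟨q, -, hqG, x, v, hxv, hm, hde⟩ := hG.gen _ (h1 m d e hd he) (by
    intro p
    -- lengthen the condition
    obtain ⟨r, hr, hrm⟩ : ∃ r : List J, List.IsSuffix (α := J) p r ∧ m ≤ r.length := by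
      obtain ⟨y, -⟩ := hne []
      have h2 : ∀ p : List J, ∃ r : List J, p <:+ r ∧ m ≤ r.length := fun p =>
        ⟨List.replicate m y ++ p, List.suffix_append _ _, by
          rw [List.length_append, List.length_replicate]
          exact Nat.le_add_right _ _⟩
      exact h2 p
    obtain ⟨x, hx⟩ := hne r
    exact ⟨(x :: r : List J), Cnd.le_iff.2 (hr.trans (List.suffix_cons x r)), x, r,
      List.suffix_rfl, hrm, hx⟩)
  refine ⟨v.length, hm, ?_⟩
  have h2 : ((x :: v : List J) : Cnd J) ∈ G := hG.up q _ hqG (Cnd.le_iff.2 hxv)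
  have h3 : (x :: v : List J) = g (v.length + 1) := hg.eq _ h2
  unfold ev
  rw [← h3]
  exact hde

end

/-- Along a branch: two digit functions which agree at all nodes above `g m` agree along the branch
from the level `m` on. -/
theorem ev_eq_of_agree {J : Type u} {g : ℕ → List J} {d e : List J → ℕ} {m : ℕ}
    (hsuf : ∀ n, m ≤ n → ∃ (x : J) (w : List J), g (n + 1) = x :: w ++ g m)
    (h : ∀ (x : J) (w : List J), d (x :: w ++ g m) = e (x :: w ++ g m)) {n : ℕ} (hn : m ≤ n) :
    ev g d n = ev g e n := by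
  obtain ⟨x, w, hx⟩ := hsuf n hn
  unfold ev
  rw [hx]
  exact h x w

theorem Brn.exists_cons {J : Type u} {G : Set (Cnd J)} {g : ℕ → List J} (hg : Brn G g)
    (hdir : ∀ p q : Cnd J, p ∈ G → q ∈ G → ∃ r, r ∈ G ∧ r ≤ p ∧ r ≤ q) {m n : ℕ} (hn : m ≤ n) :
    ∃ (x : J) (w : List J), g (n + 1) = x :: w ++ g m := by
  obtain ⟨w, hw⟩ := hg.suffix_of_le hdir (hn.trans (Nat.le_succ n))
  cases w with
  | nil =>
    exfalso
    have := congrArg List.length hw
    simp only [List.nil_append, hg.len] at this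
    omega
  | cons x w => exact ⟨x, w, hw.symm⟩

end Pool.Agent.ZFW
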