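import Pool.Agent.ZFW.Rl
import Pool.Agent.ZFW.Ck

/-!
The names of the real numbers which are given by digit functions, and the name of their set.
-/

universe u

namespace Pool.Agent.ZFW

variable {J : Type u}

theorem Cnd.smul_top (h : Gp J) : h • (⊤ : Cnd J) = ⊤ := by
  show h.1 ([] : List J) = []
  exact h.2.1.map_nil

/-! ### Digit functions -/

/-- `K` is a pattern of the digit function `d`. -/
def DPat (K : Set J) (d : DJ J) : Prop := ∀ u v, Pat K u v → d.1 u = d.1 v

theorem exists_dpat (d : DJ J) : ∃ K : Set J, K.Countable ∧ DPat K d := d.2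

theorem DPat.mono {K L : Set J} {d : DJ J} (hd : DPat K d) (h : K ⊆ L) : DPat L d :=
  fun u v huv => hd u v (huv.mono h)

theorem DPat.smul_eq {K : Set J} {d : DJ J} (hd : DPat K d) {h : Gp J} (hh : h.1 ∈ HE K) :
    h • d = d := by
  refine Subtype.ext (funext fun v => ?_)
  rw [DJ.smul_apply]
  refine hd _ _ ?_
  have := hh.2 (h.1⁻¹ v)
  rw [app_inv] at this
  exact this.symm

theorem dpat_blk (b : ℕ → J) : DPat (Set.range b) (blkD b) := by
  intro u v h
  cases u with
  | nil => rw [h.nil_left]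
  | cons x u =>
    cases v with
    | nil => exact absurd h.length (by simp)
    | cons y v =>
      show cd b x = cd b y
      rcases ka_eq_iff.1 (Pat.cons_iff.1 h).1 with h1 | ⟨h1, h2⟩
      · rw [h1]
      · rw [cd_other fun j hj => h1 ⟨j, hj.symm⟩, cd_other fun j hj => h2 ⟨j, hj.symm⟩]

/-- Composition of a digit function with a function. -/
def DJ.map (f : ℕ → ℕ) (d : DJ J) : DJ J := ⟨fun v => f (d.1 v), d.2.map f⟩

/-- Two digit functions combined by a function. -/
def DJ.map₂ (f : ℕ → ℕ → ℕ) (d e : DJ J) : DJ J := ⟨fun v => f (d.1 v) (e.1 v), d.2.map₂ e.2 f⟩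

/-- The constant digit function. -/
def DJ.const (n : ℕ) : DJ J := ⟨fun _ => n, Ctb.const n⟩

@[simp] theorem DJ.map_apply (f : ℕ → ℕ) (d : DJ J) (v : List J) : (d.map f).1 v = f (d.1 v) := rfl

@[simp] theorem DJ.map₂_apply (f : ℕ → ℕ → ℕ) (d e : DJ J) (v : List J) :
    (d.map₂ f e).1 v = f (d.1 v) (e.1 v) := rfl

@[simp] theorem DJ.const_apply (n : ℕ) (v : List J) : (DJ.const n : DJ J).1 v = n := rfl

theorem DPat.map {K : Set J} {d : DJ J} (hd : DPat K d) (f : ℕ → ℕ) : DPat K (d.map f) :=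
  fun u v h => congrArg f (hd u v h)

theorem DPat.map₂ {K : Set J} {d e : DJ J} (hd : DPat K d) (he : DPat K e) (f : ℕ → ℕ → ℕ) :
    DPat K (d.map₂ f e) := fun u v h => congrArg₂ f (hd u v h) (he u v h)

theorem dpat_const (K : Set J) (n : ℕ) : DPat K (DJ.const n) := fun _ _ _ => rfl

theorem DJ.smul_map (h : Gp J) (f : ℕ → ℕ) (d : DJ J) : h • d.map f = (h • d).map f := rfl

theorem DJ.smul_map₂ (h : Gp J) (f : ℕ → ℕ → ℕ) (d e : DJ J) :
    h • d.map₂ f e = (h • d).map₂ f (h • e) := rfl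

/-! ### Names of real numbers -/

/-- The name of the real number given by `d`: the set of the codes of its initial segments. -/
noncomputable def rlN (d : DJ J) : Nm (Cnd J) :=
  Nm.mk (List J) (fun p => Nm.ckN (Encodable.encode (br d.1 p))) fun p => (p : Cnd J)

theorem smul_rlN (h : Gp J) (d : DJ J) (r : Cnd J) : Nm.EqF (h • rlN d) (rlN (h • d)) r := by
  unfold rlN
  rw [Nm.smul_mk]
  refine Nm.eqF_mk (fun p s _ hi => ⟨s, le_rfl, h.1 p, hi, ?_⟩) fun p s _ hi =>
    ⟨s, le_rfl, h.1⁻¹ p, ?_, ?_⟩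
  · rw [Nm.smul_ckN_eq (Cnd.smul_top h), br_smul, inv_app]
    exact Nm.eqF_refl _ _
  · have e : h.1 (h.1⁻¹ p) = p := app_inv h.1 p
    show List.IsSuffix (h.1 (h.1⁻¹ p)) (s : List J)
    rw [e]
    exact hi
  · rw [Nm.smul_ckN_eq (Cnd.smul_top h), br_smul]
    exact Nm.eqF_refl _ _

/-- A pattern of `d` is a support of the name. -/
theorem supp_rlN {E : Sys.S (Gp J) (Cnd J)} {d : DJ J} (hd : DPat E.1 d) :
    Nm.Supp (Gp J) E (rlN d) := by
  intro h hh
  have := smul_rlN h d ⊤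
  rwa [hd.smul_eq (mem_H.1 hh)] at this

theorem hs_rlN (d : DJ J) : Nm.HS (Gp J) (rlN d) := by
  obtain ⟨K, hK, hd⟩ := exists_dpat d
  exact Nm.hs_mk (supp_rlN (E := ⟨K, hK⟩) hd) fun p => Nm.hs_ckN (Gp J) (Cnd J) _

/-- The hereditarily symmetric name of the real number given by `d`. -/
noncomputable def rl (d : DJ J) : HN (Gp J) (Cnd J) := ⟨rlN d, hs_rlN d⟩

@[simp] theorem rl_val (d : DJ J) : (rl d).1 = rlN d := rfl

theorem smul_rl (h : Gp J) (d : DJ J) (r : Cnd J) :
    Nm.EqF (h • (rl d).1) (rl (h • d)).1 r := smul_rlN h d r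

theorem supp_rl {E : Sys.S (Gp J) (Cnd J)} {d : DJ J} (hd : DPat E.1 d) :
    Nm.Supp (Gp J) E (rl d).1 := supp_rlN hd

theorem supp_rl_blk {E : Sys.S (Gp J) (Cnd J)} {b : ℕ → J} (h : Set.range b ⊆ E.1) :
    Nm.Supp (Gp J) E (rl (blkD b)).1 := supp_rl ((dpat_blk b).mono h)

/-- `p` forces that the two real numbers agree up to the length of `p` when the digits along `p`
are the same. -/
theorem eqF_rl {d e : DJ J} {r : Cnd J}
    (h : ∀ s : Cnd J, s ≤ r → br d.1 (s : List J) = br e.1 (s : List J)) :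
    Nm.EqF (rl d).1 (rl e).1 r := by
  have key : ∀ p : List J, ∀ s : Cnd J, s ≤ r → s ≤ (p : Cnd J) → br d.1 p = br e.1 p := by
    intro p s hs hi
    obtain ⟨w, hw⟩ : p <:+ (s : List J) := hi
    have h1 := h s hs
    have h2 := br_drop d.1 w.length (s : List J)
    have h3 := br_drop e.1 w.length (s : List J)
    rw [← hw, List.drop_left] at h2 h3
    rw [← h2, ← h3]
    rw [hw, h1]
  refine Nm.eqF_mk (fun p s hs hi => ⟨s, le_rfl, p, hi, ?_⟩) fun p s hs hi =>
    ⟨s, le_rfl, p, hi, ?_⟩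
  · rw [key p s hs hi]
    exact Nm.eqF_refl _ _
  · rw [key p s hs hi]
    exact Nm.eqF_refl _ _

/-! ### The set of the real numbers -/

theorem supp_DD (E : Sys.S (Gp J) (Cnd J)) :
    Nm.Supp (Gp J) E (Nm.st fun d : DJ J => (rl d).1) :=
  Nm.supp_st fun h _ d => ⟨h • d, smul_rl h d⟩

/-- The name of the set of the real numbers given by digit functions. -/
noncomputable def DDn (J : Type u) : HN (Gp J) (Cnd J) :=
  HN.st' (fun d : DJ J => rl d) (supp_DD ⟨∅, Set.countable_empty⟩)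

@[simp] theorem DDn_val : (DDn J).1 = Nm.st fun d : DJ J => (rl d).1 := rfl

theorem supp_DDn (E : Sys.S (Gp J) (Cnd J)) : Nm.Supp (Gp J) E (DDn J).1 := supp_DD E

end Pool.Agent.ZFW
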