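import Pool.Agent.ZFW.RlN
import Pool.Agent.ZFW.CtxB
import Pool.Agent.ZFW.CkW

/-!
The values of the names of real numbers.
-/

namespace Pool.Agent.ZFW

open Pool.Agent.SigB Filter

/-- The closure properties of `S` which are used for the names of real numbers. -/
structure RlC (J : Type) (S : CC UU) : Prop where
  ckS : CkS (fun x : HNJ J => CC.In S x)
  rl : ∀ d : DJ J, CC.In S d → CC.In S (rl d)
  rl_inv : ∀ d : DJ J, CC.In S (Pool.Agent.ZFW.rl d) →
    ∃ e : DJ J, CC.In S e ∧ Pool.Agent.ZFW.rl e = Pool.Agent.ZFW.rl d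
  DD : CC.In S (DDn J)
  smulD : ∀ (h : Gp J) (d : DJ J), CC.In S h → CC.In S d → CC.In S (h • d)
  smulN : ∀ (h : Gp J) (x : HNJ J), CC.In S h → CC.In S x → CC.In S (h • x)

open Classical in
theorem ev_rlC (J : Type) : ∀ᶠ S in cl, RlC J S := by
  filter_upwards [ev_ckS (U := UU) (Γ := Gp J) (P := Cnd J),
    ev_app (U := UU) fun d : DJ J => rl d,
    ev_app (U := UU) fun x : HNJ J => if h : ∃ e : DJ J, rl e = x then h.choose else DJ.const 0,
    ev_mem (U := UU) (DDn J), ev_app2 (U := UU) fun (h : Gp J) (d : DJ J) => h • d,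
    ev_app2 (U := UU) fun (h : Gp J) (x : HNJ J) => h • x] with S h1 h2 h3 h4 h5 h6
  refine ⟨h1, h2, fun d hd => ?_, h4, h5, h6⟩
  have h7 := h3 _ hd
  have h8 : ∃ e : DJ J, rl e = rl d := ⟨d, rfl⟩
  rw [dif_pos h8] at h7
  exact ⟨_, h7, h8.choose_spec⟩

variable {J : Type} {S : CC UU} {M : Md J S}

namespace RlC

variable (hC : RlC J S)

include hC

private theorem vl_ck (n : ℕ) : M.vl (HN.ck n) = nat n := by
  rw [M.vl_of (hC.ckS.ck n)]
  exact M.hV.ck M.hN hC.ckS n _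

/-- The elements of the real number given by `d`. -/
theorem mem_vl_rl (hb : Gb M) {d : DJ J} (hd : CC.In S d) {z : M.W} :
    z ∈ M.vl (Pool.Agent.ZFW.rl d) ↔ ∃ k, z = nat (Encodable.encode (br d.1 (M.g k))) := by
  rw [M.mem_vl (hC.rl d hd)]
  constructor
  · rintro ⟨j, -, hG, rfl⟩
    obtain ⟨k, hk⟩ := (hb.mem_iff _).1 hG
    refine ⟨k, ?_⟩
    have e : HN.nm (Pool.Agent.ZFW.rl d) j = HN.ck (Encodable.encode (br d.1 j)) :=
      Subtype.ext rfl
    have hk' : j = M.g k := hk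
    rw [e, hC.vl_ck, hk']
  · rintro ⟨k, rfl⟩
    have e : HN.nm (Pool.Agent.ZFW.rl d) (M.g k : List J) =
        HN.ck (Encodable.encode (br d.1 (M.g k))) := Subtype.ext rfl
    refine ⟨(M.g k : List J), ?_, hb.mem k, ?_⟩
    · rw [e]
      exact hC.ckS.ck _
    · rw [e, hC.vl_ck]

theorem nat_mem_rl (hb : Gb M) {d : DJ J} (hd : CC.In S d) {t : List ℕ} :
    (nat (Encodable.encode t) : M.W) ∈ M.vl (Pool.Agent.ZFW.rl d) ↔
      t = br d.1 (M.g t.length) := by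
  rw [hC.mem_vl_rl hb hd]
  constructor
  · rintro ⟨k, hk⟩
    have h1 := Encodable.encode_injective (nat_inj.1 hk)
    have h2 : t.length = k := by rw [h1, br_length, hb.len]
    rw [h2]
    exact h1
  · intro h1
    exact ⟨t.length, by rw [← h1]⟩

/-- Equality of real numbers. -/
theorem vl_rl_eq (hb : Gb M) {d e : DJ J} (hd : CC.In S d) (he : CC.In S e) :
    M.vl (Pool.Agent.ZFW.rl d) = M.vl (Pool.Agent.ZFW.rl e) ↔
      ∀ n, br d.1 (M.g n) = br e.1 (M.g n) := by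
  constructor
  · intro h n
    have h1 : (nat (Encodable.encode (br d.1 (M.g n))) : M.W) ∈ M.vl (Pool.Agent.ZFW.rl d) :=
      (hC.mem_vl_rl hb hd).2 ⟨n, rfl⟩
    rw [h, hC.nat_mem_rl hb he, br_length, hb.len] at h1
    exact h1
  · intro h
    refine M.ext fun z => ?_
    rw [hC.mem_vl_rl hb hd, hC.mem_vl_rl hb he]
    simp only [h]

theorem vl_rl_eq_ev (hb : Gb M) {d e : DJ J} (hd : CC.In S d) (he : CC.In S e) :
    M.vl (Pool.Agent.ZFW.rl d) = M.vl (Pool.Agent.ZFW.rl e) ↔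
      ∀ k, ev M.g d.1 k = ev M.g e.1 k := by
  rw [hC.vl_rl_eq hb hd he]
  constructor
  · intro h k
    exact (br_eq_iff hb.toBrn hb.suf d.1 e.1 (k + 1)).1 (h _) k (Nat.lt_succ_self k)
  · intro h n
    exact (br_eq_iff hb.toBrn hb.suf d.1 e.1 n).2 fun k _ => h k

/-- The action on the names of real numbers. -/
theorem vl_smul_rl (M : Md J S) {h : Gp J} {d : DJ J} (hh : CC.In S h) (hd : CC.In S d) :
    M.vl (h • Pool.Agent.ZFW.rl d) = M.vl (Pool.Agent.ZFW.rl (h • d)) :=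
  M.vl_eq_of (hC.smulN h _ hh (hC.rl d hd)) (hC.rl _ (hC.smulD h d hh hd)) (smul_rl h d)

/-- The elements of the set of real numbers. -/
theorem mem_DD {z : M.W} :
    z ∈ M.vl (DDn J) ↔ ∃ d : DJ J, CC.In S d ∧ z = M.vl (Pool.Agent.ZFW.rl d) := by
  rw [M.mem_vl hC.DD]
  constructor
  · rintro ⟨j, hj, -, rfl⟩
    have e : HN.nm (DDn J) j = Pool.Agent.ZFW.rl j := Subtype.ext rfl
    rw [e] at hj ⊢
    obtain ⟨d, hd, h1⟩ := hC.rl_inv j hj
    exact ⟨d, hd, by rw [h1]⟩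
  · rintro ⟨d, hd, rfl⟩
    have e : HN.nm (DDn J) d = Pool.Agent.ZFW.rl d := Subtype.ext rfl
    refine ⟨d, ?_, ?_, ?_⟩
    · rw [e]
      exact hC.rl d hd
    · exact M.hV.top_mem
    · rw [e]

theorem vl_rl_mem (M : Md J S) {d : DJ J} (hd : CC.In S d) :
    M.vl (Pool.Agent.ZFW.rl d) ∈ M.vl (DDn J) := hC.mem_DD.2 ⟨d, hd, rfl⟩

end RlC

end Pool.Agent.ZFW
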