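import Pool.Agent.ZFW.PP
import Pool.Agent.ZFW.P3
import Pool.Agent.ZFW.RlN
import Pool.Agent.ZFW.CtxB
import Pool.Agent.ZFW.RlW
import Pool.Agent.ZFW.Lem1C

/-!
The function `Z` and the properties of the parametrisation in the models of the common context.
-/

namespace Pool.Agent.ZFW

open Pool.Agent.SigB Filter

variable {J : Type}

/-- The elements of the value of a name without conditions which is given by a family. -/
theorem ev_mem_st {ι : Type} (x : ι → HNJ J) {E : Sys.S (Gp J) (Cnd J)}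
    (h : Nm.Supp (Gp J) E (Nm.st fun i => (x i).1)) :
    ∀ᶠ S in cl, ∀ M : Md J S, ∀ z : M.W, z ∈ M.vl (HN.st' x h) ↔
      ∃ i, CC.In S i ∧ CC.In S (x i) ∧ z = M.vl (x i) := by
  filter_upwards [ev_mem (U := UU) (HN.st' x h), ev_app (U := UU) x,
    ev_ex (U := UU) fun (n : HNJ J) (i : ι) => x i = n] with S h1 h2 h3 M z
  rw [M.mem_vl h1]
  constructor
  · rintro ⟨j, hj, -, rfl⟩
    obtain ⟨i, hi, h4⟩ := h3 _ hj ⟨j, rfl⟩
    exact ⟨i, hi, h2 i hi, by rw [h4]⟩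
  · rintro ⟨i, hi, h4, rfl⟩
    exact ⟨i, h4, M.hV.top_mem, rfl⟩

/-! ### The names of the two functions -/

theorem supp_QN (E : Sys.S (Gp J) (Cnd J)) : Nm.Supp (Gp J) E
    (Nm.st fun i : ℕ × DJ J => (HN.op (HN.op (HN.ck i.1) (rl i.2))
      (rl (splD (dcd i.1) i.2)) : HNJ J).1) := by
  refine supp_pairs (a := fun i : ℕ × DJ J => (HN.op (HN.ck i.1) (rl i.2) : HNJ J))
    (b := fun i => rl (splD (dcd i.1) i.2)) fun g _ i => ⟨(i.1, g • i.2), fun r => ⟨?_, ?_⟩⟩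
  · exact (Nm.smul_opN g _ _ r).trans (Nm.eqF_opN (Nm.smul_ckN g _ r) (smul_rl g _ r))
  · refine (smul_rl g _ r).trans ?_
    rw [← splD_smul]
    exact Nm.eqF_refl _ _

/-- The name of the operation which replaces the first levels. -/
noncomputable def QN (J : Type) : HNJ J :=
  HN.st' (fun i : ℕ × DJ J => HN.op (HN.op (HN.ck i.1) (rl i.2)) (rl (splD (dcd i.1) i.2)))
    (supp_QN ⟨∅, Set.countable_empty⟩)

theorem supp_YN {b' : List ℕ → ℕ → J} {E : Sys.S (Gp J) (Cnd J)} (hE : famRng b' ⊆ E.1) :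
    Nm.Supp (Gp J) E (Nm.st fun d : DJ J => (HN.op (rl d) (rl (zdD b' d)) : HNJ J).1) := by
  refine supp_pairs (a := fun d : DJ J => rl d) (b := fun d => rl (zdD b' d))
    fun g hg d => ⟨g • d, fun r => ⟨smul_rl g _ r, ?_⟩⟩
  refine (smul_rl g _ r).trans ?_
  rw [← zdD_smul (HE_anti hE (mem_H.1 hg))]
  exact Nm.eqF_refl _ _

/-- The name of the operation which gives the members of the perfect family. -/
noncomputable def YN (b' : List ℕ → ℕ → J) : HNJ J :=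
  HN.st' (fun d : DJ J => HN.op (rl d) (rl (zdD b' d)))
    (supp_YN (b' := b') (E := ⟨famRng b', famRng_countable b'⟩) (Set.Subset.refl _))

theorem supp_QN' (E : Sys.S (Gp J) (Cnd J)) : (QN J).Supp E := supp_QN E

/-! ### The elements of the two functions -/

/-- The facts on the values of the names of reals. -/
structure RlM {S : CC UU} (M : Md J S) : Prop where
  rls : Rls M.g (fun d : DJ J => CC.In S d) (fun d => M.vl (rl d)) (M.vl (DDn J))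
  inR : ∀ d : DJ J, CC.In S d → CC.In S (rl d)
  smulD : ∀ (h : Gp J) (d : DJ J), CC.In S h → CC.In S d → CC.In S (h • d)
  smulN : ∀ (h : Gp J) (x : HNJ J), CC.In S h → CC.In S x → CC.In S (h • x)

theorem RlM.vl_smul {S : CC UU} {M : Md J S} (hM : RlM M) {h : Gp J} {d : DJ J} (hh : CC.In S h)
    (hd : CC.In S d) : M.vl (h • rl d) = M.vl (rl (h • d)) :=
  M.vl_eq_of (hM.smulN h _ hh (hM.inR d hd)) (hM.inR _ (hM.smulD h d hh hd)) fun p =>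
    smul_rl h d p

theorem RlM.rlF {S : CC UU} {M : Md J S} (hM : RlM M) : RlF M rl where
  supp _ K hK hd := supp_rl (E := ⟨K, hK⟩) hd
  rlS := hM.inR
  smulD := hM.smulD
  smulN := hM.smulN
  vl_smul _ _ hh hd := hM.vl_smul hh hd
  vl_eq _ _ hd he := hM.rls.eq_iff hd he

theorem Md.vl_op' {S : CC UU} (M : Md J S) (hC : CkS (fun x : HNJ J => CC.In S x)) {x y : HNJ J}
    (hx : CC.In S x) (hy : CC.In S y) : M.vl (HN.op x y) = GL.op (M.vl x) (M.vl y) := by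
  rw [M.vl_of (hC.op hx hy), M.vl_of hx, M.vl_of hy]
  exact M.hV.op M.hN hC ⟨x, hx⟩ ⟨y, hy⟩ _

theorem Md.vl_ck' {S : CC UU} (M : Md J S) (hC : CkS (fun x : HNJ J => CC.In S x)) (n : ℕ) :
    M.vl (HN.ck n) = nat n := by
  rw [M.vl_of (hC.ck n)]
  exact M.hV.ck M.hN hC n _

theorem ev_QN (J : Type) : ∀ᶠ S in cl, ∀ M : Md J S, ∀ z : M.W, z ∈ M.vl (QN J) ↔
    ∃ i : ℕ × DJ J, CC.In S i.2 ∧
      z = GL.op (GL.op (nat i.1) (M.vl (rl i.2))) (M.vl (rl (splD (dcd i.1) i.2))) := by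
  filter_upwards [ev_mem_st (J := J) (fun i : ℕ × DJ J =>
      HN.op (HN.op (HN.ck i.1) (rl i.2)) (rl (splD (dcd i.1) i.2)))
      (supp_QN ⟨∅, Set.countable_empty⟩), ev_all (U := UU) (α := ℕ),
    ev_app (U := UU) fun i : ℕ × DJ J => i.2,
    ev_app2 (U := UU) fun (n : ℕ) (d : DJ J) => (n, d),
    ev_app (U := UU) fun d : DJ J => (rl d : HNJ J),
    ev_app2 (U := UU) fun (t : ℕ) (d : DJ J) => splD (dcd t) d,
    ev_ckS (Γ := Gp J) (P := Cnd J) (U := UU)] with S h1 h2 h3 h4 h5 h6 hC M z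
  have h7 : ∀ i : ℕ × DJ J, CC.In S i.2 →
      M.vl (HN.op (HN.op (HN.ck i.1) (rl i.2)) (rl (splD (dcd i.1) i.2))) =
      GL.op (GL.op (nat i.1) (M.vl (rl i.2))) (M.vl (rl (splD (dcd i.1) i.2))) := by
    intro i hi
    have k1 : CC.In S (HN.ck i.1 : HNJ J) := hC.ck i.1
    have k2 : CC.In S (rl i.2 : HNJ J) := h5 _ hi
    have k3 : CC.In S (rl (splD (dcd i.1) i.2) : HNJ J) := h5 _ (h6 _ _ (h2 i.1) hi)
    rw [M.vl_op' hC (hC.op k1 k2) k3, M.vl_op' hC k1 k2, M.vl_ck' hC]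
  show z ∈ M.vl (HN.st' _ _) ↔ _
  rw [h1 M z]
  constructor
  · rintro ⟨i, hi, hi', rfl⟩
    exact ⟨i, h3 i hi, h7 i (h3 i hi)⟩
  · rintro ⟨i, hi, rfl⟩
    refine ⟨i, h4 i.1 i.2 (h2 i.1) hi, ?_, (h7 i hi).symm⟩
    exact hC.op (hC.op (hC.ck i.1) (h5 _ hi)) (h5 _ (h6 _ _ (h2 i.1) hi))

theorem ev_YN (b' : List ℕ → ℕ → J) : ∀ᶠ S in cl, ∀ M : Md J S, ∀ z : M.W, z ∈ M.vl (YN b') ↔
    ∃ d : DJ J, CC.In S d ∧ z = GL.op (M.vl (rl d)) (M.vl (rl (zdD b' d))) := by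
  filter_upwards [ev_mem_st (J := J) (fun d : DJ J => HN.op (rl d) (rl (zdD b' d)))
      (supp_YN (b' := b') (E := ⟨famRng b', famRng_countable b'⟩) (Set.Subset.refl _)),
    ev_app (U := UU) fun d : DJ J => (rl d : HNJ J),
    ev_app (U := UU) fun d : DJ J => zdD b' d,
    ev_ckS (Γ := Gp J) (P := Cnd J) (U := UU)] with S h1 h5 h6 hC M z
  have h7 : ∀ d : DJ J, CC.In S d → M.vl (HN.op (rl d) (rl (zdD b' d))) =
      GL.op (M.vl (rl d)) (M.vl (rl (zdD b' d))) := fun d hd => M.vl_op' hC (h5 _ hd) (h5 _ (h6 _ hd))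
  show z ∈ M.vl (HN.st' _ _) ↔ _
  rw [h1 M z]
  constructor
  · rintro ⟨i, hi, hi', rfl⟩
    exact ⟨i, hi, h7 i hi⟩
  · rintro ⟨i, hi, rfl⟩
    exact ⟨i, hi, hC.op (h5 _ hi) (h5 _ (h6 _ hi)), (h7 i hi).symm⟩

/-- The function `Z`. -/
noncomputable def Md.Z {S : CC UU} (M : Md J S) (b' : List ℕ → ℕ → J) : M.W :=
  ZZ (M.vl (DDn J)) (M.vl (QN J)) (M.vl (YN b'))

theorem ev_Z (b' : List ℕ → ℕ → J) : ∀ᶠ S in cl, ∀ M : Md J S, RlM M →
    M.Z b' ∈ GL.fs (GL.pd GL.om (M.vl (DDn J))) (M.vl (DDn J)) ∧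
    ∀ (n : ℕ) (d : DJ J), CC.In S d → GL.ap (M.Z b') (GL.op (nat n) (M.vl (rl d))) =
      M.vl (rl (splD (dcd n) (zdD b' d))) := by
  filter_upwards [ev_QN J, ev_YN b', ev_all (U := UU) (α := ℕ),
    ev_app2 (U := UU) fun (t : ℕ) (d : DJ J) => splD (dcd t) d,
    ev_app (U := UU) fun d : DJ J => zdD b' d] with S h1 h2 hn h3 h4 M hM
  have hQ := hM.rls.fn2 (O := fun n d => splD (dcd n) d) (fun n d hd => h3 n d (hn n) hd)
    (fun n d e v h => spl_local h) (F := M.vl (QN J)) (h1 M)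
  have hY := hM.rls.fn1 (O := fun d => zdD b' d) (fun d hd => h4 d hd)
    (fun d e v h => zd_local h) (F := M.vl (YN b')) (h2 M)
  refine ⟨ZZ_mem hQ.1 hY.1, fun n d hd => ?_⟩
  unfold Md.Z
  rw [ap_ZZ (nat_mem_om n) (hM.rls.mem hd), hY.2 d hd, hQ.2 n _ (h4 d hd)]

/-- The fourth property of the parametrisation. -/
theorem ev_p4 [Uncountable J] {E : Set J} (hE : E.Countable) {b' : List ℕ → ℕ → J}
    (hb' : Fam E b') {b₀ : ℕ → J} (hb₀ : Bk (E ∪ famRng b') b₀) :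
    ∀ᶠ S in cl, ∀ M : Md J S, RlM M → ∀ R : M.W,
      IsR M.g (fun d : DJ J => CC.In S d) (fun d => M.vl (rl d)) (fun h : Gp J => CC.In S h) E b₀ R →
      ∀ n y : M.W, (∃ z, Cone R (Cnn (M.vl (DDn J))) n z) → y ∈ M.vl (DDn J) →
        Cone R (Cnn (M.vl (DDn J))) n (GL.ap (M.Z b') (GL.op n y)) := by
  filter_upwards [ev_Z b', ev_all (U := UU) (α := List ℕ), ev_g J,
    ev_app2 (U := UU) fun (t : List ℕ) (d : DJ J) => splD t d,
    ev_app (U := UU) fun d : DJ J => zdD b' d,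
    ev_ex3 (U := UU) fun (d : DJ J) (k : Gp J) (p : List J) (k' : Gp J) => k'.1 ∈ HE E ∧
      ∀ w : List J, br (blk b₀) (k'.1⁻¹ (w ++ p)) =
        br (spl (br (blk b₀) (k.1⁻¹ p)) (zd b' d.1)) (w ++ p)]
    with S h1 hl hg h2 h3 h4 M hM R hR n y hn hy
  refine hR.p4 hM.rls (b' := b') (fun t d hd => h2 t _ (hl t) (h3 d hd)) ?_ (h1 M hM).2 hn hy
  intro d k m hd hk hkE
  obtain ⟨K, hK, hdK⟩ := d.2
  obtain ⟨k', hk', h5⟩ := exists_perf_mod hE hb' hb₀ hK hdK hkE (M.g m)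
  obtain ⟨k'', h6, h7, h8⟩ := h4 d k (M.g m) hd hk ((hg M).mem_S m) ⟨⟨k', hk'.1⟩, hk', h5⟩
  exact ⟨k'', h6, h7, h8⟩

/-- The second property of the parametrisation. -/
theorem ev_p2 [Nonempty J] {E : Set J} (hE : E.Countable) {b₀ : ℕ → J} (hb₀ : Function.Injective b₀) :
    ∀ᶠ S in cl, ∀ M : Md J S, RlM M → ∀ R : M.W,
      IsR M.g (fun d : DJ J => CC.In S d) (fun d => M.vl (rl d)) (fun h : Gp J => CC.In S h) E b₀ R →
      ∀ ψ : M.W → Prop, DfnC (M.cls (spt E hE)) (fun w : Fin 1 → M.W => ψ (w 0)) →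
      ∀ z, z ∈ R → ψ z → ∃ n, n ∈ (GL.om : M.W) ∧ Cone R (Cnn (M.vl (DDn J))) n z ∧
        ∀ z', Cone R (Cnn (M.vl (DDn J))) n z' → ψ z' := by
  filter_upwards [ev_mem (U := UU) (blkD b₀), ev_g J] with S hB hg M hM R hR ψ hψ z hz hψz
  have hF : (E ∪ Set.range b₀).Countable := hE.union (Set.countable_range b₀)
  have hx : (rl (blkD b₀) : HNJ J).Supp (spt _ hF) := supp_rl_blk (E := ⟨_, hF⟩)
    Set.subset_union_right
  have hx' : CC.In S (rl (blkD b₀) : HNJ J) := hM.inR _ hB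
  have hψ' : DfnC (HasS M.val (spt E hE)) fun w : Fin 1 → M.W => ψ (w 0) := by
    rw [← M.cls_eq]; exact hψ
  refine hR.p2 hM.rls hb₀ (fun k hk hkE hψk => ?_) hz hψz
  have hS := hM.smulN k _ hk hx'
  rw [← hM.vl_smul hk hB, M.vl_of hS] at hψk
  obtain ⟨m, hm⟩ := M.hV.hom_pat₁ (F := E ∪ Set.range b₀) (hF := hF) Set.subset_union_left hψ' hx
    hkE hS hψk
  refine ⟨m, fun k' hk' hkE' hp => ?_⟩
  have hS' := hM.smulN k' _ hk' hx'
  rw [← hM.vl_smul hk' hB, M.vl_of hS']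
  exact hm (M.g m) ((hg M).mem m) ((hg M).len m).ge k' hkE' hp hS'

/-- The third property of the parametrisation. -/
theorem ev_p3' [Uncountable J] {E : Set J} (hE : E.Countable) {b' : List ℕ → ℕ → J}
    (hb' : Fam E b') {b₀ b₁ : ℕ → J} (hb₀ : Bk (E ∪ famRng b') b₀)
    (hb₁ : Bk (E ∪ famRng b' ∪ Set.range b₀) b₁) :
    ∀ᶠ S in cl, ∀ M : Md J S, RlM M → ∀ R : M.W,
      IsR M.g (fun d : DJ J => CC.In S d) (fun d => M.vl (rl d)) (fun h : Gp J => CC.In S h) E b₀ R →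
      ∀ F : M.W → M.W, DTC (M.cls (spt E hE)) (fun w : Fin 1 → M.W => F (w 0)) →
      ∀ n y y' : M.W, (∃ z, Cone R (Cnn (M.vl (DDn J))) n z) → y ∈ M.vl (DDn J) →
        y' ∈ M.vl (DDn J) → y ≠ y' →
        F (GL.ap (M.Z b') (GL.op n y)) = F (GL.ap (M.Z b') (GL.op n y')) →
        ∃ n' c, n' ∈ (GL.om : M.W) ∧
          Cone R (Cnn (M.vl (DDn J))) n' (GL.ap (M.Z b') (GL.op n y)) ∧
          ∀ z, Cone R (Cnn (M.vl (DDn J))) n' z → F z = c := by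
  filter_upwards [ev_p3 hE hb' hb₀ hb₁, ev_p4 hE hb' hb₀, ev_Z b', ev_all (U := UU) (α := List ℕ),
    ev_g J, ev_app2 (U := UU) fun (t : List ℕ) (d : DJ J) => splD t d,
    ev_app (U := UU) fun d : DJ J => zdD b' d] with S h3 h4 hZ hl hg h5 h6 M hM R hR F hF n y y'
      hne hy hy' hyy hFF
  obtain ⟨z, hz⟩ := hne
  have hc := h4 M hM R hR n y ⟨z, hz⟩ hy
  obtain ⟨k, m, hk, hkE, -, rfl⟩ := hR.exists_code hM.rls hz
  obtain ⟨d, hd, rfl⟩ := (hM.rls.mem_D y).1 hy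
  obtain ⟨d', hd', rfl⟩ := (hM.rls.mem_D y').1 hy'
  rw [(hZ M hM).2 _ d hd] at hFF hc ⊢
  rw [(hZ M hM).2 _ d' hd'] at hFF
  rw [dcd_encode] at hFF hc ⊢
  obtain ⟨K, hK⟩ := h3 M rl hM.rlF (fun u v => F u = F v) (by
      have h1 : DTC (M.cls (spt E hE)) (fun w : Fin 2 → M.W => F (w 0)) := dtC1 hF (DTC.var 0)
      have h2 : DTC (M.cls (spt E hE)) (fun w : Fin 2 → M.W => F (w 1)) := dtC1 hF (DTC.var 1)
      exact DfnC.eq h1 h2)
    (fun _ _ h => h.symm) (fun _ _ _ h h' => h.trans h') d d' hd hd' hyy _ hFF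
  obtain ⟨k', m', hk', hkE', h7, -⟩ := hR.exists_code hM.rls hc
  have hin := h5 _ _ (hl (br (blk b₀) (k.1⁻¹ (M.g m)))) (h6 d hd)
  have h8 := (hM.rls.eq_iff hin (hR.in_smul k' hk')).1 h7 K
  have hlen : (br (splD (br (blk b₀) (k.1⁻¹ (M.g m))) (zdD b' d)).1 (M.g K)).length = K := by
    rw [br_length, (hg M).len]
  refine ⟨nat (Encodable.encode (br (splD (br (blk b₀) (k.1⁻¹ (M.g m))) (zdD b' d)).1 (M.g K))),
    F (M.vl (rl (splD (br (blk b₀) (k.1⁻¹ (M.g m))) (zdD b' d)))), nat_mem_om _,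
    (hR.cone_iff hM.rls).2 ⟨k', hk', hkE', h7, ?_⟩, fun z' hz' => ?_⟩
  · rw [hlen, h8, br_smul_blk]
  · obtain ⟨k'', hk'', hkE'', rfl, h9⟩ := (hR.cone_iff hM.rls).1 hz'
    rw [hlen] at h9
    rw [h7]
    exact (hK k' k'' hk' hk'' hkE' hkE'' h8.symm (by rw [br_smul_blk]; exact h9.symm)).symm

theorem ev_rlM (J : Type) [Nonempty J] : ∀ᶠ S in cl, ∀ M : Md J S, RlM M := by
  filter_upwards [ev_rlC J, ev_g J] with S hC hg M
  exact ⟨⟨(hg M).len, (hg M).suf, fun z => hC.mem_DD, fun d hd z => hC.mem_vl_rl (hg M) hd,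
    fun z => M.hV.mem_om M.hN hC.ckS⟩, hC.rl, hC.smulD, hC.smulN⟩

/-- The parametrisation: what remains to be given are `kap`, `R` and `Phi`. -/
theorem ev_par [Uncountable J] {E : Set J} (hE : E.Countable) {b' : List ℕ → ℕ → J}
    (hb' : Fam E b') {b₀ b₁ : ℕ → J} (hb₀ : Bk (E ∪ famRng b') b₀)
    (hb₁ : Bk (E ∪ famRng b' ∪ Set.range b₀) b₁) :
    ∀ᶠ S in cl, ∀ M : Md J S, ∀ X kap R Phi : M.W, M.cls (spt E hE) X → M.cls (spt E hE) kap →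
      M.cls (spt E hE) R → M.cls (spt E hE) Phi → (∀ a, a ∈ kap → M.cls (spt E hE) a) →
      GL.Ord kap → GL.Fn Phi (GL.pd kap R) →
      (∀ z, z ∈ R ↔ ∃ h : Gp J, CC.In S h ∧ h.1 ∈ HE E ∧ z = M.vl (rl (h • blkD b₀))) →
      (∀ x, x ∈ X → ∃ a z, a ∈ kap ∧ z ∈ R ∧ GL.ap Phi (GL.op a z) = x) →
      Par (M.vl (DDn J)) X kap R (Cnn (M.vl (DDn J))) Phi (M.Z b') := by
  filter_upwards [ev_rlM J, ev_rlC J, ev_Dcl J, ev_Z b', ev_p2 hE hb₀.inj, ev_p3' hE hb' hb₀ hb₁,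
    ev_p4 hE hb' hb₀, ev_mem (U := UU) (blkD b₀)]
    with S hM hC hD hZ h2 h3 h4 hB M X kap R Phi cX ck cR cP ca hk hf hR h1
  have hM := hM M
  have hR' : IsR M.g (fun d : DJ J => CC.In S d) (fun d => M.vl (rl d))
      (fun h : Gp J => CC.In S h) E b₀ R := ⟨hR, fun h hh => hM.smulD h _ hh hB⟩
  have cD : M.cls (spt E hE) (M.vl (DDn J)) := M.cls_of hC.DD (supp_DDn _)
  have cC : M.cls (spt E hE) (Cnn (M.vl (DDn J))) :=
    (hD M).dtc₀ (dtC_Cnn (DTC.const cD))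
  refine ⟨hk, hR'.sb hM.rls, hf, (hZ M hM).1, h1, fun a z ha hz hx => ?_,
    fun a n y y' ha _ hn hy hy' hyy he => ?_, fun n y _ hn hy => h4 M hM R hR' n y hn hy⟩
  · exact h2 M hM R hR' (fun z => InX X kap R (Cnn (M.vl (DDn J))) Phi a (GL.ap Phi (GL.op a z)))
      (dfnC_psi cX ck cR cC cP (ca a ha)) z hz hx
  · refine h3 M hM R hR' (fun z => GL.ap Phi (GL.op a z)) ?_ n y y' hn hy hy' hyy he
    have := ca a ha
    simp (maxDischargeDepth := 50) [cP, this, DTC.const]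

end Pool.Agent.ZFW
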