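import Pool.Agent.ZFW.Br

/-!
The principles `WF^x_sk` follow from `MinStar`: every nonempty set has a `≤*`-minimal element.
-/

universe u

set_option linter.unusedSectionVars false

namespace Pool.Agent.ZFW

open Pool.Agent.SigB Pool.Agent.GL

variable {M : Type u} [Membership M M] [IsZF M]

theorem CRel.intro {K K' X Y : M} (hX : X ∈ K) (hY : Y ∈ K') (h : LeStar X Y) :
    CRel Iy.s K K' := ⟨X, Y, hX, hY, h⟩

/-- The step for coded cardinals: if `X ∈ K` is minimal among the elements of the members of a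
family containing `K'` and `K' ≼_x K`, then `K ≤* K'`. -/
theorem crel_of_min {x : Ix} {K K' X : M} (hK : IsCode K) (hX : X ∈ K)
    (hmin : ∀ Y, Y ∈ K' → LeStar Y X → LeStar X Y) (h : CPrec x K' K) : CRel Iy.s K K' := by
  obtain ⟨Y, X', hY, hX', h1⟩ := h
  exact CRel.intro hX hY (hmin Y hY (h1.leStar.trans (hK.2 _ _ hX' hX).leStar))

theorem wf1_of_minStar (h : MinStar M) (x : Ix) : WF1 M x Iy.s := by
  intro C hne hC
  obtain ⟨K₀, hK₀⟩ := hne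
  obtain ⟨X₀, hX₀⟩ := (hC _ hK₀).1
  obtain ⟨X, hX, hmin⟩ := h (sU C) ⟨X₀, mem_sU.2 ⟨K₀, hK₀, hX₀⟩⟩
  obtain ⟨K, hK, hXK⟩ := mem_sU.1 hX
  exact ⟨K, hK, fun K' hK' h' => crel_of_min (hC K hK) hXK
    (fun Y hY hYX => hmin Y (mem_sU.2 ⟨K', hK', hY⟩) hYX) h'⟩

theorem wf2_of_minStar (h : MinStar M) (x : Ix) : WF2 M x Iy.s := by
  intro w s hw hs hcode hprec
  obtain rfl := isOmega_iff.1 hw
  have hs' := isSeq_iff.1 hs
  have hd : DT (fun w : Fin 1 → M => ap s (w 0)) := by simp (maxDischargeDepth := 50)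
  have hv : ∀ n, n ∈ (om : M) → Val s n (ap s n) := fun n hn => (val_fn hs').2 ⟨hn, rfl⟩
  have hR : ∀ K, K ∈ im (om : M) (ap s) ↔ ∃ n, n ∈ (om : M) ∧ K = ap s n := fun K => mem_im hd
  obtain ⟨X₀, hX₀⟩ := (hcode _ _ (hv _ em_mem_om)).1
  obtain ⟨X, hX, hmin⟩ := h (sU (im (om : M) (ap s)))
    ⟨X₀, mem_sU.2 ⟨_, (hR _).2 ⟨_, em_mem_om, rfl⟩, hX₀⟩⟩
  obtain ⟨K, hK, hXK⟩ := mem_sU.1 hX
  obtain ⟨n, hn, rfl⟩ := (hR K).1 hK
  have hn' := sc_mem_om hn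
  refine ⟨n, sc n, ap s n, ap s (sc n), hn, isSucc_iff.2 rfl, hv n hn, hv _ hn', ?_⟩
  refine crel_of_min (hcode _ _ (hv n hn)) hXK (fun Y hY hYX => hmin Y
    (mem_sU.2 ⟨_, (hR _).2 ⟨_, hn', rfl⟩, hY⟩) hYX)
    (hprec n (sc n) _ _ hn (isSucc_iff.2 rfl) (hv n hn) (hv _ hn'))

theorem wf3_of_minStar (h : MinStar M) (x : Ix) : WF3 M x Iy.s := by
  intro w s hw hs hprec
  obtain rfl := isOmega_iff.1 hw
  have hs' := isSeq_iff.1 hs
  have hd : DT (fun w : Fin 1 → M => ap s (w 0)) := by simp (maxDischargeDepth := 50)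
  have hv : ∀ n, n ∈ (om : M) → Val s n (ap s n) := fun n hn => (val_fn hs').2 ⟨hn, rfl⟩
  have hR : ∀ K, K ∈ im (om : M) (ap s) ↔ ∃ n, n ∈ (om : M) ∧ K = ap s n := fun K => mem_im hd
  obtain ⟨X, hX, hmin⟩ := h (im (om : M) (ap s)) ⟨_, (hR _).2 ⟨_, em_mem_om, rfl⟩⟩
  obtain ⟨n, hn, rfl⟩ := (hR X).1 hX
  have hn' := sc_mem_om hn
  refine ⟨n, sc n, ap s n, ap s (sc n), hn, isSucc_iff.2 rfl, hv n hn, hv _ hn', ?_⟩
  exact hmin _ ((hR _).2 ⟨_, hn', rfl⟩)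
    (hprec n (sc n) _ _ hn (isSucc_iff.2 rfl) (hv n hn) (hv _ hn')).leStar

theorem IsMapX.prec {x : Ix} {f A A' : M} (h : IsMapX x f A A') : Prec x A' A := by
  cases x with
  | i => exact ⟨f, h⟩
  | s => exact Or.inr ⟨f, h⟩

theorem wf4_of_minStar (h : MinStar M) (x : Ix) : WF4 M x Iy.s := by
  intro w s t hw hs ht hmap
  obtain rfl := isOmega_iff.1 hw
  have ht' := isSeq_iff.1 ht
  exact wf3_of_minStar h x om s hw hs fun n m A A' hn hm hA hA' =>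
    (hmap n m A A' (ap t n) hn hm hA hA' ((val_fn ht').2 ⟨hn, rfl⟩)).prec

/-- `MinStar` implies all the principles `WF^x_sk`. -/
theorem wf_of_minStar (h : MinStar M) (x : Ix) :
    WF1 M x Iy.s ∧ WF2 M x Iy.s ∧ WF3 M x Iy.s ∧ WF4 M x Iy.s :=
  ⟨wf1_of_minStar h x, wf2_of_minStar h x, wf3_of_minStar h x, wf4_of_minStar h x⟩

end Pool.Agent.ZFW
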