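import Pool.Agent.ZFW.Phi
import Pool.Agent.ZFW.PPm
import Pool.Agent.ZFW.DD
import Pool.Agent.ZFW.NcsbF
import Pool.Agent.ZFW.EndB
import Pool.Agent.ZFW.Reduce

/-!
The parametrisation of every set of the model, the minimal elements for the order `≤*`, and the
existence of the model.
-/

namespace Pool.Agent.ZFW

open Pool.Agent.SigB Filter

/-- There is a family of blocks outside of a countable set. -/
theorem exists_fam {J : Type} [Uncountable J] {E : Set J} (hE : E.Countable) :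
    ∃ b' : List ℕ → ℕ → J, Fam E b' := by
  obtain ⟨b, hb, hbE⟩ := exists_block hE
  refine ⟨fun a i => b (Nat.pair (Encodable.encode a) i), fun a i j h => ?_,
    fun a c i j hac h => ?_, fun a i => hbE _⟩
  · have h1 := hb h
    rw [Nat.pair_eq_pair] at h1
    exact h1.2
  · have h1 := hb h
    rw [Nat.pair_eq_pair] at h1
    exact hac (Encodable.encode_injective h1.1)

/-- The parametrisation of the sets of the model. -/
theorem ev_exists_par (J : Type) [Uncountable J] : ∀ᶠ S in cl, ∀ M : Md J S, ∀ X : M.W,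
    ∃ kap R Cn Phi Z, Par (M.vl (DDn J)) X kap R Cn Phi Z := by
  have hne : Nonempty J := by
    by_contra h
    rw [not_nonempty_iff] at h
    exact (not_countable_iff.2 (inferInstance : Uncountable J)) inferInstance
  let T : Type := Set J × (List ℕ → ℕ → J) × (ℕ → J) × (ℕ → J)
  have hpar : ∀ᶠ S in cl, ∀ t : T, CC.In S t → ∀ (hE : t.1.Countable) (_ : Fam t.1 t.2.1)
      (_ : Bk (t.1 ∪ famRng t.2.1) t.2.2.1)
      (_ : Bk (t.1 ∪ famRng t.2.1 ∪ Set.range t.2.2.1) t.2.2.2), ∀ M : Md J S,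
      ∀ X kap R Phi : M.W, M.cls (spt t.1 hE) X → M.cls (spt t.1 hE) kap →
      M.cls (spt t.1 hE) R → M.cls (spt t.1 hE) Phi → (∀ a, a ∈ kap → M.cls (spt t.1 hE) a) →
      GL.Ord kap → GL.Fn Phi (GL.pd kap R) →
      (∀ z, z ∈ R ↔ ∃ h : Gp J, CC.In S h ∧ h.1 ∈ HE t.1 ∧
        z = M.vl (rl (h • blkD t.2.2.1))) →
      (∀ x, x ∈ X → ∃ a z, a ∈ kap ∧ z ∈ R ∧ GL.ap Phi (GL.op a z) = x) →
      Par (M.vl (DDn J)) X kap R (Cnn (M.vl (DDn J))) Phi (M.Z t.2.1) := by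
    refine ev_normal fun t => ?_
    by_cases h : t.1.Countable ∧ Fam t.1 t.2.1 ∧ Bk (t.1 ∪ famRng t.2.1) t.2.2.1 ∧
        Bk (t.1 ∪ famRng t.2.1 ∪ Set.range t.2.2.1) t.2.2.2
    · obtain ⟨h1, h2, h3, h4⟩ := h
      filter_upwards [ev_par h1 h2 h3 h4] with S hS _ _ _ _
      exact hS
    · exact Filter.Eventually.of_forall fun S h1 h2 h3 h4 => (h ⟨h1, h2, h3, h4⟩).elim
  filter_upwards [hpar, ev_phi J, ev_exists_cls J, ev_rlC J,
    ev_ex (U := UU) fun (E : Set J) (t : T) => t.1 = E ∧ t.1.Countable ∧ Fam t.1 t.2.1 ∧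
      Bk (t.1 ∪ famRng t.2.1) t.2.2.1 ∧ Bk (t.1 ∪ famRng t.2.1 ∪ Set.range t.2.2.1) t.2.2.2,
    ev_app (U := UU) fun t : T => t.2.2.1,
    ev_app (U := UU) fun b : ℕ → J => blkD b,
    ev_ex (U := UU) fun (E : Set J) (F : Sys.S (Gp J) (Cnd J)) => F.1 = E,
    ev_ex2 (U := UU) fun (E : Set J) (b : ℕ → J) (F : Sys.S (Gp J) (Cnd J)) =>
      F.1 = E ∪ Set.range b] with S h1 h2 h3 hC h4 h5 h6 h7 h8 M X
  obtain ⟨E, hE, hES, hX⟩ := h3 M X
  obtain ⟨b', hb'⟩ := exists_fam hE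
  obtain ⟨b₀, hb₀⟩ := exists_bk (hE.union (famRng_countable b'))
  obtain ⟨b₁, hb₁⟩ := exists_bk ((hE.union (famRng_countable b')).union (Set.countable_range b₀))
  obtain ⟨⟨E', b', b₀, b₁⟩, htS, rfl, hE', hb', hb₀, hb₁⟩ :=
    h4 E hES ⟨(E, b', b₀, b₁), rfl, hE, hb', hb₀, hb₁⟩
  have hbS : CC.In S b₀ := h5 _ htS
  obtain ⟨E₁, hE₁, hE₁'⟩ := h7 _ hES ⟨spt _ hE', rfl⟩
  obtain ⟨F, hF, hF'⟩ := h8 _ b₀ hES hbS ⟨spt _ (hE'.union (Set.countable_range b₀)), rfl⟩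
  have hE₂ : E₁ = spt E' hE' := Subtype.ext hE₁'
  subst hE₂
  have hout : ∀ i, b₀ i ∉ E' := fun i hi => hb₀.out i (Or.inl hi)
  obtain ⟨kap, R, Phi, hP⟩ := h2 M _ F b₀ X hE₁ hF hbS hb₀.inj hout hF' hX
  refine ⟨kap, R, _, Phi, _, h1 _ htS hE' hb' hb₀ hb₁ M X kap R Phi hX hP.ckap hP.cR hP.cPhi
    hP.cmem hP.ord hP.fn (fun z => ?_) hP.p1⟩
  rw [hP.mem_R z]
  refine exists_congr fun h => and_congr_right fun hh => and_congr_right fun _ => ?_
  rw [hC.vl_smul_rl M hh (h6 _ hbS)]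

/-- Every nonempty set of the model has a minimal element for `≤*`. -/
theorem ev_minStar (J : Type) [Uncountable J] : ∀ᶠ S in cl, ∀ M : Md J S, MinStar M.W := by
  have hne : Nonempty J := by
    by_contra h
    rw [not_nonempty_iff] at h
    exact (not_countable_iff.2 (inferInstance : Uncountable J)) inferInstance
  filter_upwards [ev_exists_par J, ev_not_wo_DD J, ev_pairFn J (spt ∅ Set.countable_empty)]
    with S h1 h2 h3 M
  exact minStar_of_code (h3 M).2.2.2.2 (h2 M) (exists_code (h1 M))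

/-- **The model.** -/
theorem exists_model : ∃ (M : Type 1) (_ : Membership M M), GL.IsZF M ∧
    (∀ x : Ix, WF1 M x Iy.s ∧ WF2 M x Iy.s ∧ WF3 M x Iy.s ∧ WF4 M x Iy.s) ∧ ¬ CSBstar M := by
  have : Uncountable (Set ℕ) := by
    rw [← not_countable_iff]
    intro h
    obtain ⟨f, hf⟩ := exists_surjective_nat (Set ℕ)
    exact Function.cantor_surjective f hf
  obtain ⟨S, M, h1, h2⟩ := exists_md_of (Set ℕ) (Q := fun S M => MinStar M.W ∧ ¬ CSBstar M.W) (by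
    filter_upwards [ev_minStar (Set ℕ), ev_not_csb (Set ℕ)] with S h1 h2 M
    exact ⟨h1 M, h2 M⟩)
  exact ⟨M.W, M.mem, M.zf, fun x => wf_of_minStar h1 x, h2⟩

end Pool.Agent.ZFW
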