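import Pool.Agent.ZFW.Rl

/-!
The combinatorial part of the lemma on the perfect family.
-/

universe u

namespace Pool.Agent.ZFW

variable {J : Type u}

theorem br_above {d d' : List J → ℕ} {p : List J} (h0 : br d p = br d' p)
    (h : ∀ (x : J) (w : List J), d (x :: (w ++ p)) = d' (x :: (w ++ p))) :
    ∀ w : List J, br d (w ++ p) = br d' (w ++ p) := by
  intro w
  induction w with
  | nil => exact h0
  | cons x w ih => rw [List.cons_append, br_cons, br_cons, h x w, ih]

theorem br_drop_app (d : List J → ℕ) (w p : List J) :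
    (br d (w ++ p)).drop w.length = br d p := by
  rw [br_drop, List.drop_left]

theorem br_eq_of_append {d d' : List J → ℕ} {w p : List J} (h : br d (w ++ p) = br d' (w ++ p)) :
    br d p = br d' p := by
  rw [← br_drop_app d w p, h, br_drop_app]

theorem eq_of_br {d d' : List J → ℕ} {x : J} {v : List J} (h : br d (x :: v) = br d' (x :: v)) :
    d (x :: v) = d' (x :: v) := by
  rw [br_cons, br_cons, List.cons.injEq] at h
  exact h.1

@[simp] theorem blk_cons (b : ℕ → J) (x : J) (v : List J) : blk b (x :: v) = cd b x := rfl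

/-! ### Change of the first levels -/

/-- The entry of `s` at the level `m`. -/
def ent (s : List ℕ) (m : ℕ) : ℕ := (s.drop (s.length - (m + 1))).headD 0

theorem drop_ent {s : List ℕ} {m : ℕ} (h : m < s.length) :
    s.drop (s.length - (m + 1)) = ent s m :: s.drop (s.length - m) := by
  have h1 : s.length - (m + 1) < s.length := by omega
  have h2 := List.drop_eq_getElem_cons h1
  have h3 : s.length - (m + 1) + 1 = s.length - m := by omega
  rw [h3] at h2
  unfold ent
  rw [h2, List.headD_cons]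

/-- The digit function `d` with the first levels replaced by `s`. -/
def spl (s : List ℕ) (d : List J → ℕ) : List J → ℕ
  | [] => 0
  | x :: v => if v.length < s.length then ent s v.length else d (x :: v)

theorem spl_lt {s : List ℕ} {d : List J → ℕ} {x : J} {v : List J} (h : v.length < s.length) :
    spl s d (x :: v) = ent s v.length := if_pos h

theorem spl_ge {s : List ℕ} {d : List J → ℕ} {x : J} {v : List J} (h : s.length ≤ v.length) :
    spl s d (x :: v) = d (x :: v) := if_neg (by omega)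

theorem br_spl_le {s : List ℕ} {d : List J → ℕ} {v : List J} (h : v.length ≤ s.length) :
    br (spl s d) v = s.drop (s.length - v.length) := by
  induction v with
  | nil => simp
  | cons x v ih =>
    rw [List.length_cons] at h
    rw [br_cons, spl_lt (by omega), ih (by omega), List.length_cons, drop_ent (by omega)]

theorem br_spl_eq {s : List ℕ} {d : List J → ℕ} {p : List J} (h : p.length = s.length) :
    br (spl s d) p = s := by
  rw [br_spl_le h.le, h, Nat.sub_self, List.drop_zero]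

theorem spl_pat {s : List ℕ} {d : List J → ℕ} {K : Set J} (h : ∀ u v, Pat K u v → d u = d v) :
    ∀ u v, Pat K u v → spl s d u = spl s d v := by
  intro u v huv
  cases u with
  | nil => rw [huv.nil_left]
  | cons x u =>
    cases v with
    | nil => exact absurd huv.length (by simp)
    | cons y v =>
      have h1 := (Pat.cons_iff.1 huv).2.length
      by_cases h2 : u.length < s.length
      · rw [spl_lt h2, spl_lt (h1 ▸ h2), h1]
      · rw [spl_ge (by omega), spl_ge (by omega), h _ _ huv]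

/-- Two digit functions which agree above `p`, with the first levels of one of them replaced by
the first levels of the other one. -/
theorem br_spl_congr {d d' : List J → ℕ} {p : List J}
    (h : ∀ (x : J) (w : List J), d (x :: (w ++ p)) = d' (x :: (w ++ p))) :
    ∀ w : List J, br (spl (br d' p) d) (w ++ p) = br d' (w ++ p) := by
  refine br_above (br_spl_eq (br_length _ _).symm) fun x w => ?_
  rw [spl_ge (by rw [br_length, List.length_append]; omega), h]

/-! ### The perfect family -/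

/-- The digits of `g` at the node given by the digits of `d`. -/
noncomputable def zd (b' : List ℕ → ℕ → J) (d : List J → ℕ) : List J → ℕ
  | [] => 0
  | x :: v => cd (b' (br d v)) x

@[simp] theorem zd_cons (b' : List ℕ → ℕ → J) (d : List J → ℕ) (x : J) (v : List J) :
    zd b' d (x :: v) = cd (b' (br d v)) x := rfl

/-- `b'` is a family of disjoint blocks outside of `E`. -/
structure Fam (E : Set J) (b' : List ℕ → ℕ → J) : Prop where
  inj : ∀ a, Function.Injective (b' a)
  ne : ∀ a c i j, a ≠ c → b' a i ≠ b' c j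
  out : ∀ a i, b' a i ∉ E

/-- `b` is a block outside of `E`. -/
structure Bk (E : Set J) (b : ℕ → J) : Prop where
  inj : Function.Injective b
  out : ∀ i, b i ∉ E

theorem Bk.mono {E F : Set J} {b : ℕ → J} (h : Bk F b) (hEF : E ⊆ F) : Bk E b :=
  ⟨h.inj, fun i hi => h.out i (hEF hi)⟩

theorem exists_bk [Uncountable J] {D : Set J} (hD : D.Countable) : ∃ b : ℕ → J, Bk D b := by
  obtain ⟨b, h1, h2⟩ := exists_block hD
  exact ⟨b, h1, h2⟩

/-- The set of all members of the family. -/
def famRng (b' : List ℕ → ℕ → J) : Set J := ⋃ a, Set.range (b' a)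

theorem famRng_countable (b' : List ℕ → ℕ → J) : (famRng b').Countable :=
  Set.countable_iUnion fun _ => Set.countable_range _

theorem mem_famRng (b' : List ℕ → ℕ → J) (a : List ℕ) (i : ℕ) : b' a i ∈ famRng b' :=
  Set.mem_iUnion.2 ⟨a, i, rfl⟩

/-- One member of the family: the real of a block moved by an element of the group. -/
theorem exists_perf_one [Uncountable J] {E : Set J} (hE : E.Countable) {b' : List ℕ → ℕ → J}
    (hb' : Fam E b') {b₀ : ℕ → J} (hb₀ : Bk (E ∪ famRng b') b₀) {d : List J → ℕ} {K : Set J}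
    (hK : K.Countable) (hd : ∀ u v, Pat K u v → d u = d v) :
    ∃ k ∈ HE E, ∀ (x : J) (v : List J), blk b₀ (k⁻¹ (x :: v)) = zd b' d (x :: v) := by
  -- two further blocks
  have hc1 : (E ∪ famRng b' ∪ Set.range b₀).Countable :=
    (hE.union (famRng_countable b')).union (Set.countable_range b₀)
  obtain ⟨b₁, h1⟩ := exists_bk hc1
  obtain ⟨c, h2⟩ := exists_bk (hc1.union (Set.countable_range b₁))
  let B : Option (List ℕ) → ℕ → J := fun a => Option.elim a c b'
  obtain ⟨k, hk, h⟩ := exists_perfect (A := Option (List ℕ)) (E := E) hK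
    (f := fun v => some (br d v)) (f' := fun _ => none)
    (fun u v huv => by rw [br_congr hd huv]) (fun _ _ _ => rfl) (b' := B) (b₀ := b₀) (b₁ := b₁)
    (by rintro (_ | a); exacts [h2.inj, hb'.inj a])
    (by
      rintro (_ | a) (_ | a') i j hne
      · exact (hne rfl).elim
      · intro h
        have h' : c i = b' a' j := h
        exact h2.out i (Or.inl (Or.inl (Or.inr (h' ▸ mem_famRng b' a' j))))
      · intro h
        have h' : b' a i = c j := h
        exact h2.out j (Or.inl (Or.inl (Or.inr (h' ▸ mem_famRng b' a i))))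
      · exact hb'.ne a a' i j fun h => hne (by rw [h]))
    hb₀.inj h1.inj (fun i j h => h1.out j (Or.inr ⟨i, h⟩))
    (by
      rintro (_ | a) i j h
      · exact h2.out i (Or.inl (Or.inr ⟨j, h.symm⟩))
      · exact hb₀.out j (Or.inr (by rw [← h]; exact mem_famRng b' a i)))
    (by
      rintro (_ | a) i j h
      · exact h2.out i (Or.inr ⟨j, h.symm⟩)
      · exact h1.out j (Or.inl (Or.inr (by rw [← h]; exact mem_famRng b' a i))))
    (fun i hi => hb₀.out i (Or.inl hi)) (fun i hi => h1.out i (Or.inl (Or.inl hi)))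
    (by
      rintro (_ | a) i hi
      · exact h2.out i (Or.inl (Or.inl (Or.inl hi)))
      · exact hb'.out a i hi)
  refine ⟨k, hk, fun x v => ?_⟩
  obtain ⟨y, hy, h3, -⟩ := h x v (by simp)
  rw [hy, blk_cons, zd_cons]
  exact cd_congr hb₀.inj (hb'.inj _) h3

theorem mod_take {k g h : Equiv.Perm (List J)} (hk : Tl k)
    {p : List J} (hg : ∀ w : List J, g (w ++ p) = (k (w ++ p)).take w.length ++ h p) (x : J)
    (w : List J) : ∃ y, k (x :: (w ++ p)) = y :: k (w ++ p) ∧ g (x :: (w ++ p)) = y :: g (w ++ p) := by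
  obtain ⟨y, hy⟩ := hk.exists_cons x (w ++ p)
  refine ⟨y, hy, ?_⟩
  have h1 := hg (x :: w)
  rw [List.cons_append, hy, List.length_cons, List.take_succ_cons, List.cons_append, ← hg w] at h1
  exact h1

/-- (T1) The members of the family with given first levels. -/
theorem exists_perf_mod [Uncountable J] {E : Set J} (hE : E.Countable) {b' : List ℕ → ℕ → J}
    (hb' : Fam E b') {b₀ : ℕ → J} (hb₀ : Bk (E ∪ famRng b') b₀) {d : List J → ℕ} {K : Set J}
    (hK : K.Countable) (hd : ∀ u v, Pat K u v → d u = d v) {h : Equiv.Perm (List J)}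
    (hh : h ∈ HE E) (p : List J) :
    ∃ k ∈ HE E, ∀ w : List J, br (blk b₀) (k⁻¹ (w ++ p)) =
      br (spl (br (blk b₀) (h⁻¹ p)) (zd b' d)) (w ++ p) := by
  obtain ⟨k, hk, h1⟩ := exists_perf_one hE hb' hb₀ hK hd
  obtain ⟨g, hg, hg'⟩ := exists_mod hk hh p
  refine ⟨g, hg, ?_⟩
  have tg : Tl g⁻¹ := hg.1.1.inv
  have tk : Tl k⁻¹ := hk.1.1.inv
  have tp : (h⁻¹ p).length = p.length := hh.1.1.inv.length p
  intro w
  rw [← br_comp (blk b₀) tg (w ++ p)]
  refine br_above ?_ (fun x w => ?_) w
  · rw [br_comp _ tg, br_spl_eq (by rw [br_length, tp])]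
    have h2 := hg' []
    rw [List.nil_append, List.length_nil, List.take_zero, List.nil_append] at h2
    rw [h2]
  · obtain ⟨y, hy, hy'⟩ := mod_take (k := k⁻¹) (g := g⁻¹) (h := h⁻¹) tk hg' x w
    rw [hy', blk_cons, spl_ge (by rw [br_length, tp, List.length_append]; omega), ← h1 x (w ++ p),
      hy, blk_cons]

/-- (T2) Two different members of the family. -/
theorem exists_perf_two {E : Set J} {b' : List ℕ → ℕ → J}
    (hb' : Fam E b') {b₀ b₁ : ℕ → J} (hb₀ : Bk (E ∪ famRng b') b₀)
    (hb₁ : Bk (E ∪ famRng b' ∪ Set.range b₀) b₁) {d d' : List J → ℕ} {K : Set J}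
    (hK : K.Countable) (hd : ∀ u v, Pat K u v → d u = d v) (hd' : ∀ u v, Pat K u v → d' u = d' v)
    {p : List J} (hp : br d p ≠ br d' p) :
    ∃ k ∈ HE E, ∀ (x : J) (w : List J),
      blk b₀ (k⁻¹ (x :: (w ++ p))) = zd b' d (x :: (w ++ p)) ∧
      blk b₁ (k⁻¹ (x :: (w ++ p))) = zd b' d' (x :: (w ++ p)) := by
  obtain ⟨k, hk, h⟩ := exists_perfect (E := E) hK (f := br d) (f' := br d')
    (fun u v huv => br_congr hd huv) (fun u v huv => br_congr hd' huv) (b' := b') (b₀ := b₀) (b₁ := b₁) hb'.inj hb'.ne hb₀.inj hb₁.inj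
    (fun i j h => hb₁.out j (Or.inr ⟨i, h⟩))
    (fun a i j h => hb₀.out j (Or.inr (by rw [← h]; exact mem_famRng b' a i)))
    (fun a i j h => hb₁.out j (Or.inl (Or.inr (by rw [← h]; exact mem_famRng b' a i))))
    (fun i hi => hb₀.out i (Or.inl hi)) (fun i hi => hb₁.out i (Or.inl (Or.inl hi))) hb'.out
  refine ⟨k, hk, fun x w => ?_⟩
  obtain ⟨y, hy, h1, h2⟩ := h x (w ++ p) fun h => hp (br_eq_of_append h)
  rw [hy, blk_cons, blk_cons, zd_cons, zd_cons]
  exact ⟨cd_congr hb₀.inj (hb'.inj _) h1, cd_congr hb₁.inj (hb'.inj _) h2⟩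

theorem map_cd_pat {K : Set J} {b : ℕ → J} (hb : Function.Injective b) (h : ∀ i, b i ∈ K) :
    ∀ {u v : List J}, Pat K u v → u.map (cd b) = v.map (cd b) := by
  intro u
  induction u with
  | nil => intro v hv; rw [hv.nil_left]
  | cons x u ih =>
    intro v hv
    cases v with
    | nil => exact absurd hv.length (by simp)
    | cons y v =>
      have h1 := Pat.cons_iff.1 hv
      rw [List.map_cons, List.map_cons, ih h1.2]
      congr 1
      refine cd_congr hb hb fun j => ?_
      rcases ka_eq_iff.1 h1.1 with h2 | ⟨h2, h3⟩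
      · rw [h2]
      · exact ⟨fun h4 => (h2 (h4 ▸ h j)).elim, fun h4 => (h3 (h4 ▸ h j)).elim⟩

/-- (T3) Two reals of the block `b₀` have a common partner, with given first levels. -/
theorem exists_partner [Uncountable J] {E : Set J} (hE : E.Countable) {b₀ b₁ : ℕ → J}
    (hb₀ : Bk E b₀) (hb₁ : Bk (E ∪ Set.range b₀) b₁) {h h₁ h₂ : Equiv.Perm (List J)}
    (hh : h ∈ HE E) (hh₁ : h₁ ∈ HE E) (hh₂ : h₂ ∈ HE E) {p : List J} {s : List ℕ}
    (hs : s.length ≤ p.length)
    (h1 : br (blk b₀) (h₁⁻¹ p) = br (spl s fun v => blk b₀ (h⁻¹ v)) p)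
    (h2 : br (blk b₀) (h₂⁻¹ p) = br (spl s fun v => blk b₀ (h⁻¹ v)) p) :
    ∃ k₁ ∈ HE E, ∃ k₂ ∈ HE E, k₁⁻¹ p = h⁻¹ p ∧ k₂⁻¹ p = h⁻¹ p ∧
      (∀ w : List J, br (spl s fun v => blk b₀ (k₁⁻¹ v)) (w ++ p) = br (blk b₀) (h₁⁻¹ (w ++ p))) ∧
      (∀ w : List J, br (spl s fun v => blk b₀ (k₂⁻¹ v)) (w ++ p) = br (blk b₀) (h₂⁻¹ (w ++ p))) ∧
      ∀ w : List J, br (blk b₁) (k₁⁻¹ (w ++ p)) = br (blk b₁) (k₂⁻¹ (w ++ p)) := by
  obtain ⟨b₂, -, -, -, g₁, hg₁, g₂, hg₂, f1, f2⟩ := exists_fresh hE (Set.countable_range b₀)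
    hh₁ hh₂ hb₁.inj hb₁.out
  obtain ⟨k₁, hk₁, m1⟩ := exists_mod hg₁ hh p
  obtain ⟨k₂, hk₂, m2⟩ := exists_mod hg₂ hh p
  have e1 : k₁⁻¹ p = h⁻¹ p := by simpa using m1 []
  have e2 : k₂⁻¹ p = h⁻¹ p := by simpa using m2 []
  have key : ∀ {g k h₁ : Equiv.Perm (List J)}, g ∈ HE E → k ∈ HE E → h₁ ∈ HE E →
      (∀ w : List J, k⁻¹ (w ++ p) = (g⁻¹ (w ++ p)).take w.length ++ h⁻¹ p) →
      (∀ r : List J, Pat (E ∪ Set.range b₀) (g⁻¹ r) (h₁⁻¹ r)) → k⁻¹ p = h⁻¹ p →
      br (blk b₀) (h₁⁻¹ p) = br (spl s fun v => blk b₀ (h⁻¹ v)) p →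
      ∀ w : List J, br (spl s fun v => blk b₀ (k⁻¹ v)) (w ++ p) = br (blk b₀) (h₁⁻¹ (w ++ p)) := by
    intro g k h₁ hg hk hh₁ m f e h1 w
    have tg : Tl g⁻¹ := hg.1.1.inv
    have tk : Tl k⁻¹ := hk.1.1.inv
    have th : Tl h⁻¹ := hh.1.1.inv
    have t1 : Tl h₁⁻¹ := hh₁.1.1.inv
    rw [← br_comp (blk b₀) t1 (w ++ p)]
    refine br_above ?_ (fun x w => ?_) w
    · rw [br_comp _ t1, h1]
      -- below `p` the nodes are the same
      have h3 : ∀ q : List J, q <:+ p → br (spl s fun v => blk b₀ (k⁻¹ v)) q =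
          br (spl s fun v => blk b₀ (h⁻¹ v)) q := by
        intro q
        induction q with
        | nil => intro _; rfl
        | cons x q ih =>
          intro hq
          have h4 : q <:+ p := (List.suffix_cons x q).trans hq
          rw [br_cons, br_cons, ih h4]
          congr 1
          by_cases h5 : q.length < s.length
          · rw [spl_lt h5, spl_lt h5]
          · rw [spl_ge (by omega), spl_ge (by omega)]
            obtain ⟨w, hw⟩ := hq
            have h6 := tk.drop w.length p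
            have h7 := th.drop w.length p
            rw [← hw, List.drop_left, hw] at h6 h7
            rw [← h6, ← h7, e]
      exact h3 p (List.suffix_refl p)
    · rw [spl_ge (by rw [List.length_append]; omega)]
      obtain ⟨y, hy, hy'⟩ := mod_take (k := g⁻¹) (g := k⁻¹) (h := h⁻¹) tg m x w
      obtain ⟨z, hz⟩ := t1.exists_cons x (w ++ p)
      show blk b₀ (k⁻¹ (x :: (w ++ p))) = blk b₀ (h₁⁻¹ (x :: (w ++ p)))
      rw [hy', hz, blk_cons, blk_cons]
      have h5 := f (x :: (w ++ p))
      rw [hy, hz] at h5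
      have h6 := map_cd_pat hb₀.inj (fun i => Or.inr ⟨i, rfl⟩) h5
      rw [List.map_cons, List.map_cons, List.cons.injEq] at h6
      exact h6.1
  refine ⟨k₁, hk₁, k₂, hk₂, e1, e2, key hg₁ hk₁ hh₁ m1 (fun r => (f1 r).1) e1 h1,
    key hg₂ hk₂ hh₂ m2 (fun r => (f2 r).1) e2 h2, fun w => ?_⟩
  rw [br_blk, br_blk, m1 w, m2 w, List.map_append, List.map_append, List.map_take, List.map_take,
    (f1 _).2, (f2 _).2]

end Pool.Agent.ZFW
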