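import Pool.Agent.ZFW.Ctx
import Pool.Agent.ZFW.CkW
import Pool.Agent.ZFW.Zf

/-!
Names of the orbit of a name under the group of a support, and of a function on the product of an
ordinal and of such an orbit.
-/

namespace Pool.Agent.ZFW

open Pool.Agent.SigB Filter

variable {J : Type}

/-- The group of a support, as a type. -/
abbrev HH (E : Sys.S (Gp J) (Cnd J)) : Type := {h : Gp J // h ∈ Sys.H (P := Cnd J) E}

/-! ### The orbit of a name -/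

theorem supp_orb (E : Sys.S (Gp J) (Cnd J)) (z : HNJ J) :
    Nm.Supp (Gp J) E (Nm.st fun h : HH E => (h.1 • z).1) := by
  refine Nm.supp_st fun g hg h => ⟨⟨g * h.1, mul_mem hg h.2⟩, fun r => ?_⟩
  have e : g • (h.1 • z).1 = ((g * h.1) • z).1 := by
    rw [HN.smul_val, HN.smul_val, mul_smul]
  rw [e]
  exact Nm.eqF_refl _ _

/-- The name of the set of all `h • z`, `h` in the group of `E`. -/
def RN (E : Sys.S (Gp J) (Cnd J)) (z : HNJ J) : HNJ J :=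
  HN.st' (fun h : HH E => h.1 • z) (supp_orb E z)

theorem RN_supp (E : Sys.S (Gp J) (Cnd J)) (z : HNJ J) : (RN E z).Supp E := supp_orb E z

/-- The elements of the value of `RN E z`. -/
theorem ev_mem_RN (J : Type) : ∀ᶠ S in cl, ∀ M : Md J S, ∀ (E : Sys.S (Gp J) (Cnd J)) (z : HNJ J),
    CC.In S E → CC.In S z → CC.In S (RN E z) ∧ ∀ w : M.W, w ∈ M.vl (RN E z) ↔
      ∃ h : Gp J, CC.In S h ∧ CC.In S (h • z) ∧ h ∈ Sys.H (P := Cnd J) E ∧ w = M.vl (h • z) := by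
  filter_upwards [ev_app2 (U := UU) (RN : Sys.S (Gp J) (Cnd J) → HNJ J → HNJ J),
    ev_ex3 (U := UU) fun (E : Sys.S (Gp J) (Cnd J)) (z x : HNJ J) (h : Gp J) =>
      h ∈ Sys.H (P := Cnd J) E ∧ x = h • z,
    ev_app2 (U := UU) fun (h : Gp J) (x : HNJ J) => h • x] with S h1 h2 h3 M E z hE hz
  have hR := h1 E z hE hz
  refine ⟨hR, fun w => ?_⟩
  rw [M.mem_vl hR]
  constructor
  · rintro ⟨j, hj, -, rfl⟩
    obtain ⟨h, hh, h4, h5⟩ := h2 E z _ hE hz hj ⟨j.1, j.2, rfl⟩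
    have h6 : CC.In S (h • z) := h3 h z hh hz
    exact ⟨h, hh, h6, h4, by rw [h5]⟩
  · rintro ⟨h, hh, h4, h5, rfl⟩
    exact ⟨⟨h, h5⟩, h4, M.hV.top_mem, rfl⟩

/-! ### Functions on products -/

/-- The pair with the number `a` of `PN`. -/
noncomputable def pel (z : HNJ J) (e : Ordinal.{0} → HNJ J) (a : Ordinal.{0}) (h : Gp J) :
    HNJ J := HN.op (HN.op (HN.ckO a) (h • z)) (h • e a)

theorem supp_pel (E : Sys.S (Gp J) (Cnd J)) (z : HNJ J) (k : Ordinal.{0})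
    (e : Ordinal.{0} → HNJ J) : Nm.Supp (Gp J) E (Nm.st fun i : k.ToType × HH E =>
      (pel z e (Ordinal.typein (α := k.ToType) (· < ·) i.1) i.2.1).1) := by
  refine Nm.supp_st fun g hg i => ⟨(i.1, ⟨g * i.2.1, mul_mem hg i.2.2⟩), fun r => ?_⟩
  have e1 : ∀ y : HNJ J, g • (i.2.1 • y).1 = ((g * i.2.1) • y).1 := fun y => by
    rw [HN.smul_val, HN.smul_val, mul_smul]
  refine (Nm.smul_opN g _ _ r).trans (Nm.eqF_opN ?_ ?_)
  · refine (Nm.smul_opN g _ _ r).trans (Nm.eqF_opN (Nm.smul_ckO g _ r) ?_)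
    rw [e1]
    exact Nm.eqF_refl _ _
  · rw [e1]
    exact Nm.eqF_refl _ _

/-- The name of the set of all pairs `((a, h • z), h • e a)`, `a < k`, `h` in the group of `E`. -/
noncomputable def PN (E : Sys.S (Gp J) (Cnd J)) (z : HNJ J) (k : Ordinal.{0})
    (e : Ordinal.{0} → HNJ J) : HNJ J :=
  HN.st' (fun i : k.ToType × HH E => pel z e (Ordinal.typein (α := k.ToType) (· < ·) i.1) i.2.1)
    (supp_pel E z k e)

theorem PN_supp (E : Sys.S (Gp J) (Cnd J)) (z : HNJ J) (k : Ordinal.{0})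
    (e : Ordinal.{0} → HNJ J) : (PN E z k e).Supp E := supp_pel E z k e

/-- The elements of the value of `PN E z k e`, in terms of names. -/
theorem ev_mem_PN' (J : Type) : ∀ᶠ S in cl, ∀ M : Md J S, ∀ (E : Sys.S (Gp J) (Cnd J))
    (z : HNJ J) (k : Ordinal.{0}) (e : Ordinal.{0} → HNJ J), CC.In S E → CC.In S z →
    CC.In S k → CC.In S e → CC.In S (PN E z k e) ∧ ∀ w : M.W, w ∈ M.vl (PN E z k e) ↔
      ∃ (a : Ordinal.{0}) (h : Gp J), CC.In S a ∧ CC.In S h ∧ CC.In S (h • z) ∧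
        CC.In S (e a) ∧ CC.In S (h • e a) ∧ CC.In S (pel z e a h) ∧ a < k ∧
        h ∈ Sys.H (P := Cnd J) E ∧ w = M.vl (pel z e a h) := by
  filter_upwards [ev_app4 (U := UU) (PN : Sys.S (Gp J) (Cnd J) → HNJ J → Ordinal.{0} →
      (Ordinal.{0} → HNJ J) → HNJ J),
    ev_normal fun E : Sys.S (Gp J) (Cnd J) => ev_ex4 (U := UU)
      fun (z : HNJ J) (k : Ordinal.{0}) (e : Ordinal.{0} → HNJ J) (x : HNJ J)
        (i : Ordinal.{0} × Gp J) => i.1 < k ∧ i.2 ∈ Sys.H (P := Cnd J) E ∧ x = pel z e i.1 i.2,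
    ev_app (U := UU) (Prod.fst : Ordinal.{0} × Gp J → Ordinal.{0}),
    ev_app (U := UU) (Prod.snd : Ordinal.{0} × Gp J → Gp J),
    ev_app2 (U := UU) fun (h : Gp J) (x : HNJ J) => h • x,
    ev_app2 (U := UU) fun (e : Ordinal.{0} → HNJ J) (a : Ordinal.{0}) => e a]
    with S h1 h2 h3 h4 h5 h6 M E z k e hE hz hk he
  have hR := h1 E z k e hE hz hk he
  refine ⟨hR, fun w => ?_⟩
  rw [M.mem_vl hR]
  constructor
  · rintro ⟨j, hj, -, rfl⟩
    obtain ⟨⟨a, h⟩, hi, ha, hh, hx⟩ := h2 E hE z k e _ hz hk he hj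
      ⟨(Ordinal.typein (α := k.ToType) (· < ·) j.1, j.2.1), Ordinal.typein_lt_self j.1, j.2.2, rfl⟩
    have h7 : CC.In S a := h3 _ hi
    have h8 : CC.In S h := h4 _ hi
    have h9 : CC.In S (e a) := h6 e a he h7
    refine ⟨a, h, h7, h8, h5 h z h8 hz, h9, h5 h (e a) h8 h9, ?_, ha, hh, ?_⟩
    · have hx' : _ = pel z e a h := hx
      rw [← hx']
      exact hj
    · exact congrArg M.vl hx
  · rintro ⟨a, h, -, -, -, -, -, h7, ha, hh, rfl⟩
    have h8 : a ∈ Set.Iio (Ordinal.type (α := k.ToType) (· < ·)) := by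
      rw [Set.mem_Iio, Ordinal.type_toType]; exact ha
    have h9 : (PN E z k e).nm (Ordinal.enum (α := k.ToType) (· < ·) ⟨a, h8⟩, ⟨h, hh⟩) =
        pel z e a h := by
      show pel z e (Ordinal.typein (α := k.ToType) (· < ·)
        (Ordinal.enum (α := k.ToType) (· < ·) ⟨a, h8⟩)) h = _
      rw [Ordinal.typein_enum _ h8]
    refine ⟨(Ordinal.enum (α := k.ToType) (· < ·) ⟨a, h8⟩, ⟨h, hh⟩), ?_, M.hV.top_mem, ?_⟩
    · rw [h9]; exact h7
    · rw [h9]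

/-- The elements of the value of `PN E z k e`. -/
theorem ev_mem_PN (J : Type) : ∀ᶠ S in cl, ∀ (M : Md J S) [GL.IsZF M.W]
    (E : Sys.S (Gp J) (Cnd J)) (z : HNJ J) (k : Ordinal.{0}) (e : Ordinal.{0} → HNJ J),
    CC.In S E → CC.In S z → CC.In S k → CC.In S e → ∀ w : M.W, w ∈ M.vl (PN E z k e) ↔
      ∃ (a : Ordinal.{0}) (h : Gp J), CC.In S a ∧ CC.In S h ∧ CC.In S (HN.ckO a : HNJ J) ∧
        CC.In S (h • z) ∧ CC.In S (e a) ∧ CC.In S (h • e a) ∧ a < k ∧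
        h ∈ Sys.H (P := Cnd J) E ∧
        w = GL.op (GL.op (M.vl (HN.ckO a)) (M.vl (h • z))) (M.vl (h • e a)) := by
  filter_upwards [ev_mem_PN' J, ev_ckS (Γ := Gp J) (P := Cnd J) (U := UU),
    ev_app (U := UU) (HN.ckO : Ordinal.{0} → HNJ J)] with S h1 hC h3 M _ E z k e hE hz hk he w
  rw [(h1 M E z k e hE hz hk he).2 w]
  have hop : ∀ x y : HNJ J, CC.In S x → CC.In S y →
      M.vl (HN.op x y) = GL.op (M.vl x) (M.vl y) := by
    intro x y hx hy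
    rw [M.vl_of hx, M.vl_of hy, M.vl_of (hC.op hx hy)]
    exact M.hV.op M.hN hC ⟨x, hx⟩ ⟨y, hy⟩ (hC.op hx hy)
  constructor
  · rintro ⟨a, h, ha, hh, h4, h5, h6, -, h8, h9, rfl⟩
    refine ⟨a, h, ha, hh, h3 a ha, h4, h5, h6, h8, h9, ?_⟩
    rw [pel, hop _ _ (hC.op (h3 a ha) h4) h6, hop _ _ (h3 a ha) h4]
  · rintro ⟨a, h, ha, hh, h3', h4, h5, h6, h8, h9, rfl⟩
    refine ⟨a, h, ha, hh, h4, h5, h6, hC.op (hC.op h3' h4) h6, h8, h9, ?_⟩
    rw [pel, hop _ _ (hC.op h3' h4) h6, hop _ _ h3' h4]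

end Pool.Agent.ZFW
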