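import Pool.Agent.ZFW.Ctx

/-!
Two automorphisms which give the same `F`-patterns above a condition of the generic filter give
the same value to every name with the support `F`.
-/

universe u

namespace Pool.Agent.ZFW

open Filter

section general

variable {Γ P : Type u} [Group Γ] [Preorder P] [OrderTop P] [Sys Γ P]

/-- An element of the group which is the identity below `p` does not change names, as `p`
forces. -/
theorem Nm.eqF_smul_of_id {k : Γ} {p : P} (hk : ∀ r, r ≤ p → k • r = r) (y : Nm P) :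
    ∀ r, r ≤ p → Nm.EqF (k • y) y r := by
  induction y with
  | mk ι y c ih =>
    intro r hr
    rw [Nm.smul_mk]
    refine ⟨fun i s hs hi => ⟨s, le_rfl, i, ?_, ih i s (hs.trans hr)⟩,
      fun i s hs hi => ⟨s, le_rfl, i, ?_, ih i s (hs.trans hr)⟩⟩
    · rw [le_smul] at hi
      have h1 : k⁻¹ • s = s := by
        rw [inv_smul_eq_iff]
        exact (hk s (hs.trans hr)).symm
      rwa [h1] at hi
    · rw [le_smul]
      have h1 : k⁻¹ • s = s := by
        rw [inv_smul_eq_iff]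
        exact (hk s (hs.trans hr)).symm
      rwa [h1]

end general

section tree

variable {J : Type u}

theorem mem_HE_empty (h : Gp J) : h.1 ∈ HE (∅ : Set J) := by
  refine ⟨h.2, fun p => ?_⟩
  have key : ∀ u v : List J, u.length = v.length → Pat (∅ : Set J) u v := by
    intro u
    induction u with
    | nil =>
      intro v hv
      rw [List.length_eq_zero_iff.1 hv.symm]
    | cons x u ih =>
      intro v hv
      cases v with
      | nil => exact absurd hv (by simp)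
      | cons y v =>
        rw [Pat.cons_iff]
        refine ⟨?_, ih v (by simpa using hv)⟩
        rw [ka_eq_iff]
        exact Or.inr ⟨fun h => h, fun h => h⟩
  exact key _ _ (h.2.1.length p)

/-- **The swap lemma**, for the forcing relation. -/
theorem eqF_swap {F : Sys.S (Gp J) (Cnd J)} {h₁ h₂ : Gp J} {x : Nm (Cnd J)}
    (hx : Nm.Supp (Gp J) F x) {p : List J}
    (hp : ∀ w : List J, Pat F.1 (h₁.1⁻¹ (w ++ p)) (h₂.1⁻¹ (w ++ p))) :
    Nm.EqF (h₁ • x) (h₂ • x) (p : Cnd J) := by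
  obtain ⟨t, ht, ht'⟩ := exists_cone (mem_HE_empty h₁) (mem_HE_empty h₂) hp
  obtain ⟨k, hk⟩ : ∃ k : Gp J, k.1 = t := ⟨⟨t, (mem_HE.1 ht).1⟩, rfl⟩
  have h1 : ∀ r : Cnd J, LE.le (α := Cnd J) r p → (h₂ * k * h₁⁻¹ : Gp J) • r = r := by
    rintro r ⟨w, rfl⟩
    show h₂.1 (k.1 (h₁.1⁻¹ (w ++ p))) = w ++ p
    rw [hk, ht' w, app_inv]
  have h2 := Nm.eqF_smul_of_id (k := h₂ * k * h₁⁻¹) h1 (h₁ • x) (p : Cnd J) le_rfl
  rw [mul_smul, mul_smul, inv_smul_smul] at h2
  refine h2.symm.trans ((Nm.eqF_smul' h₂).2 ?_)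
  refine hx.eqF (h := k) ?_ _
  show k.1 ∈ HE F.1
  rw [hk]
  exact ht

/-- The conditions which decide whether the patterns differ. -/
def swD (F : Set J) (h₁ h₂ : Gp J) : Set (Cnd J) :=
  {p | (∀ w : List J, Pat F (h₁.1⁻¹ (List.append w p)) (h₂.1⁻¹ (List.append w p))) ∨
    ¬ Pat F (h₁.1⁻¹ (p : List J)) (h₂.1⁻¹ (p : List J))}

theorem swD_dense (F : Set J) (h₁ h₂ : Gp J) (p : Cnd J) : ∃ q, q ≤ p ∧ q ∈ swD F h₁ h₂ := by
  by_cases h : ∀ w : List J, Pat F (h₁.1⁻¹ (List.append w p)) (h₂.1⁻¹ (List.append w p))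
  · exact ⟨p, le_rfl, Or.inl h⟩
  · push Not at h
    obtain ⟨w, hw⟩ := h
    exact ⟨List.append w p, List.suffix_append _ _, Or.inr hw⟩

end tree

/-- **The swap lemma** in the model. -/
theorem ev_swap (J : Type) [Nonempty J] : ∀ᶠ S in cl, ∀ M : Md J S,
    ∀ (F : Sys.S (Gp J) (Cnd J)) (h₁ h₂ : Gp J) (x : HNJ J), CC.In S F → CC.In S h₁ →
      CC.In S h₂ → CC.In S x → x.Supp F →
      (∀ n, Pat F.1 (h₁.1⁻¹ (M.g n)) (h₂.1⁻¹ (M.g n))) → M.vl (h₁ • x) = M.vl (h₂ • x) := by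
  filter_upwards [ev_g J, ev_app3 (U := UU)
      fun (F : Sys.S (Gp J) (Cnd J)) (h₁ h₂ : Gp J) => swD F.1 h₁ h₂,
    ev_app2 (U := UU) fun (h : Gp J) (x : HNJ J) => h • x]
    with S h1 h2 h3 M F h₁ h₂ x hF hh₁ hh₂ hx hxF hpat
  obtain ⟨p, -, hp, hp'⟩ := M.gen.gen _ (h2 F h₁ h₂ hF hh₁ hh₂) (swD_dense _ _ _)
  obtain ⟨n, hn⟩ := ((h1 M).mem_iff p).1 hp
  rcases hp' with h4 | h4
  · refine (M.vl_eq (h3 _ _ hh₁ hx) (h3 _ _ hh₂ hx)).2 ⟨p, hp, ?_⟩
    exact eqF_swap hxF h4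
  · rw [hn] at h4
    exact (h4 (hpat n)).elim

end Pool.Agent.ZFW
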