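import Pool.Agent.ZFW.PhN
import Pool.Agent.ZFW.Swp
import Pool.Agent.ZFW.RlW
import Pool.Agent.ZFW.PPa
import Pool.Agent.ZFW.OpN
import Pool.Agent.ZFW.Enum

/-!
The function `Φ` in the model: every set `X` with the support `E` is covered by the values of a
function on the product of an ordinal and the set `R` of the reals `h • b`, `h` in the group of
`E`, where `b` is a block outside of `E`.
-/

namespace Pool.Agent.ZFW

open Pool.Agent.SigB Filter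

/-- What is needed for `Φ`. -/
structure PhiD (J : Type) {S : CC UU} (M : Md J S) (E : Sys.S (Gp J) (Cnd J)) (b : ℕ → J)
    (X kap R Phi : M.W) : Prop where
  ord : GL.Ord kap
  ckap : M.cls E kap
  cmem : ∀ a, a ∈ kap → M.cls E a
  cR : M.cls E R
  mem_R : ∀ z, z ∈ R ↔ ∃ h : Gp J, CC.In S h ∧ h.1 ∈ HE E.1 ∧ z = M.vl (h • rl (blkD b))
  cPhi : M.cls E Phi
  fn : GL.Fn Phi (GL.pd kap R)
  p1 : ∀ x, x ∈ X → ∃ a z, a ∈ kap ∧ z ∈ R ∧ GL.ap Phi (GL.op a z) = x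
  val : ∀ a, a ∈ kap → ∃ x : HNJ J, CC.In S x ∧
    (∀ F : Sys.S (Gp J) (Cnd J), F.1 = E.1 ∪ Set.range b → x.Supp F) ∧
    ∀ h : Gp J, CC.In S h → h.1 ∈ HE E.1 →
      GL.ap Phi (GL.op a (M.vl (h • rl (blkD b)))) = M.vl (h • x)

/-- The enumeration of the names, in `S`. -/
theorem ev_names (J : Type) [Uncountable J] : ∀ᶠ S in cl, ∀ (X : HNJ J)
    (E F : Sys.S (Gp J) (Cnd J)) (b : ℕ → J), CC.In S X → CC.In S E → CC.In S F → CC.In S b →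
    Function.Injective b → (∀ i, b i ∉ E.1) → F.1 = E.1 ∪ Set.range b →
    ∃ (k : Ordinal.{0}) (e : Ordinal.{0} → HNJ J), CC.In S k ∧ CC.In S e ∧
      (∀ a, a < k → (e a).Supp F) ∧ ∀ j : X.1.Idx, CC.In S (X.nm j) →
        ∃ h : Gp J, CC.In S h ∧ h ∈ Sys.H (P := Cnd J) E ∧
          ∃ a, CC.In S a ∧ a < k ∧ X.nm j = h • e a := by
  filter_upwards [ev_ex4 (U := UU)
      fun (X : HNJ J) (E F : Sys.S (Gp J) (Cnd J)) (b : ℕ → J)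
        (i : Ordinal.{0} × (Ordinal.{0} → HNJ J)) =>
        (∀ a, a < i.1 → (i.2 a).Supp F) ∧ ∀ j : X.1.Idx,
          ∃ h : Gp J, h ∈ Sys.H (P := Cnd J) E ∧ ∃ a, a < i.1 ∧ X.nm j = h • i.2 a,
    ev_ex4 (U := UU)
      fun (y : HNJ J) (E : Sys.S (Gp J) (Cnd J)) (k : Ordinal.{0}) (e : Ordinal.{0} → HNJ J)
        (i : Gp J × Ordinal.{0}) => i.1 ∈ Sys.H (P := Cnd J) E ∧ i.2 < k ∧ y = i.1 • e i.2,
    ev_app (U := UU) (Prod.fst : Ordinal.{0} × (Ordinal.{0} → HNJ J) → Ordinal.{0}),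
    ev_app (U := UU) (Prod.snd : Ordinal.{0} × (Ordinal.{0} → HNJ J) → Ordinal.{0} → HNJ J),
    ev_app (U := UU) (Prod.fst : Gp J × Ordinal.{0} → Gp J),
    ev_app (U := UU) (Prod.snd : Gp J × Ordinal.{0} → Ordinal.{0})]
    with S h1 h2 h3 h4 h5 h6 X E F b hX hE hF hb hbi hbE hFE
  obtain ⟨k, e, hk, he⟩ := exists_names X hbi hbE hFE
  obtain ⟨⟨k, e⟩, hi, hk, he⟩ := h1 X E F b hX hE hF hb ⟨(k, e), hk, he⟩
  refine ⟨k, e, h3 _ hi, h4 _ hi, hk, fun j hj => ?_⟩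
  obtain ⟨h, hh, a, ha, hx⟩ := he j
  obtain ⟨⟨h, a⟩, hi', hh, ha, hx⟩ := h2 _ E k e hj hE (h3 _ hi) (h4 _ hi) ⟨(h, a), hh, ha, hx⟩
  exact ⟨h, h5 _ hi', hh, a, h6 _ hi', ha, hx⟩

/-- **The function `Φ`.** -/
theorem ev_phi (J : Type) [Uncountable J] : ∀ᶠ S in cl, ∀ M : Md J S,
    ∀ (E F : Sys.S (Gp J) (Cnd J)) (b : ℕ → J) (X : M.W), CC.In S E → CC.In S F →
      CC.In S b → Function.Injective b → (∀ i, b i ∉ E.1) → F.1 = E.1 ∪ Set.range b →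
      M.cls E X → ∃ kap R Phi : M.W, PhiD J M E b X kap R Phi := by
  have : Nonempty J := by
    by_contra h
    rw [not_nonempty_iff] at h
    exact (not_countable_iff.2 (inferInstance : Uncountable J)) inferInstance
  filter_upwards [ev_names J, ev_g J, ev_rlC J, ev_mem_RN J, ev_mem_PN' J, ev_mem_PN J, ev_swap J,
    ev_app (U := UU) fun b : ℕ → J => blkD b,
    ev_app (U := UU) (HN.ckO : Ordinal.{0} → HNJ J),
    ev_app2 (U := UU) fun (e : Ordinal.{0} → HNJ J) (a : Ordinal.{0}) => e a,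
    ev_ex2 (U := UU) fun (y : HNJ J) (k a : Ordinal.{0}) => y = HN.ckO a ∧ a < k]
    with S hN hg hC hRN hPN' hPN hsw hblk hckO happ hinv M E F b X hE hF hb hbi hbE hFE hX
  have hgb := hg M
  obtain ⟨x, hx, hxE, rfl⟩ := hX
  obtain ⟨k, e, hk, he, hkF, hcov⟩ := hN x E F b hx hE hF hb hbi hbE hFE
  have hz : CC.In S (rl (blkD b)) := hC.rl _ (hblk b hb)
  obtain ⟨hRin, hR⟩ := hRN M E (rl (blkD b)) hE hz
  obtain ⟨hPin, -⟩ := hPN' M E (rl (blkD b)) k e hE hz hk he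
  have hP := hPN M E (rl (blkD b)) k e hE hz hk he
  have hkin : CC.In S (HN.ckO k : HNJ J) := hckO k hk
  -- the elements of the ordinal
  have hmem : ∀ a : M.W, a ∈ M.vl (HN.ckO k) ↔
      ∃ β : Ordinal.{0}, CC.In S β ∧ β < k ∧ a = M.vl (HN.ckO β) := by
    intro a
    rw [M.vl_of hkin, M.hV.mem_ckO M.hN hkin]
    constructor
    · rintro ⟨β, hβ, h1, rfl⟩
      obtain ⟨γ, hγ, h2, h3⟩ := hinv (HN.ckO β) k hβ hk ⟨β, rfl, h1⟩
      refine ⟨γ, hγ, h3, ?_⟩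
      rw [← M.vl_of hβ, h2]
    · rintro ⟨β, hβ, h1, rfl⟩
      exact ⟨β, hckO β hβ, h1, M.vl_of _⟩
  have hinj : ∀ α β : Ordinal.{0}, CC.In S α → CC.In S β →
      M.vl (HN.ckO α) = M.vl (HN.ckO β) → α = β := by
    intro α β hα hβ h
    rw [M.vl_of (hckO α hα), M.vl_of (hckO β hβ)] at h
    exact (M.hV.ckO_inj).1 h
  have hRiff : ∀ z : M.W, z ∈ M.vl (RN E (rl (blkD b))) ↔
      ∃ h : Gp J, CC.In S h ∧ h.1 ∈ HE E.1 ∧ z = M.vl (h • rl (blkD b)) := by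
    intro z
    rw [hR]
    constructor
    · rintro ⟨h, hh, -, h1, h2⟩
      exact ⟨h, hh, h1, h2⟩
    · rintro ⟨h, hh, h1, h2⟩
      exact ⟨h, hh, hC.smulN h _ hh hz, h1, h2⟩
  -- the function
  have hfn := fn_of_pairs (f := M.vl (PN E (rl (blkD b)) k e))
    (D := GL.pd (M.vl (HN.ckO k)) (M.vl (RN E (rl (blkD b)))))
    (I := fun i : Ordinal.{0} × Gp J => CC.In S i.1 ∧ CC.In S i.2 ∧ i.1 < k ∧ i.2.1 ∈ HE E.1)
    (a := fun i => GL.op (M.vl (HN.ckO i.1)) (M.vl (i.2 • rl (blkD b))))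
    (b := fun i => M.vl (i.2 • e i.1)) (by
      intro z
      rw [hP]
      constructor
      · rintro ⟨a, h, ha, hh, -, -, -, -, h1, h2, h3⟩
        exact ⟨(a, h), ⟨ha, hh, h1, h2⟩, h3⟩
      · rintro ⟨⟨a, h⟩, ⟨ha, hh, h1, h2⟩, h3⟩
        exact ⟨a, h, ha, hh, hckO a ha, hC.smulN h _ hh hz, happ e a he ha,
          hC.smulN h _ hh (happ e a he ha), h1, h2, h3⟩) (by
      intro z
      rw [GL.mem_pd]
      constructor
      · rintro ⟨a, ha, y, hy, rfl⟩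
        obtain ⟨β, hβ, h1, rfl⟩ := (hmem a).1 ha
        obtain ⟨h, hh, h2, rfl⟩ := (hRiff y).1 hy
        exact ⟨(β, h), ⟨hβ, hh, h1, h2⟩, rfl⟩
      · rintro ⟨⟨β, h⟩, ⟨hβ, hh, h1, h2⟩, rfl⟩
        exact ⟨_, (hmem _).2 ⟨β, hβ, h1, rfl⟩, _, (hRiff _).2 ⟨h, hh, h2, rfl⟩, rfl⟩) (by
      rintro ⟨α, h₁⟩ ⟨β, h₂⟩ ⟨hα, hh₁, h1, h1'⟩ ⟨hβ, hh₂, h2, h2'⟩ h3
      obtain ⟨h4, h5⟩ := GL.op_inj.1 h3
      obtain rfl := hinj α β hα hβ h4
      refine hsw M F h₁ h₂ (e α) hF hh₁ hh₂ (happ e α he hα) (hkF α h1) fun n => ?_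
      rw [hFE]
      refine pat_union_HE hbi h1' h2' ?_
      have h6 : M.vl (rl (h₁ • blkD b)) = M.vl (rl (h₂ • blkD b)) := by
        rw [← hC.vl_smul_rl M hh₁ (hblk b hb), ← hC.vl_smul_rl M hh₂ (hblk b hb)]
        exact h5
      rw [hC.vl_rl_eq hgb (hC.smulD _ _ hh₁ (hblk b hb)) (hC.smulD _ _ hh₂ (hblk b hb))] at h6
      have h7 := h6 n
      rw [br_smul, br_smul] at h7
      exact h7)
  refine ⟨M.vl (HN.ckO k), M.vl (RN E (rl (blkD b))), M.vl (PN E (rl (blkD b)) k e), ?_, ?_, ?_,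
    ?_, hRiff, ?_, hfn.1, ?_, ?_⟩
  · rw [M.vl_of hkin]
    exact M.hV.ord_ckO M.hN hkin
  · exact M.cls_of hkin (Nm.supp_ckO E k)
  · intro a ha
    obtain ⟨β, hβ, -, rfl⟩ := (hmem a).1 ha
    exact M.cls_of (hckO β hβ) (Nm.supp_ckO E β)
  · exact M.cls_of hRin (RN_supp E _)
  · exact M.cls_of hPin (PN_supp E _ k e)
  · intro w hw
    obtain ⟨j, hj, -, rfl⟩ := (M.mem_vl hx).1 hw
    obtain ⟨h, hh, h1, a, ha, h2, h3⟩ := hcov j hj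
    refine ⟨M.vl (HN.ckO a), M.vl (h • rl (blkD b)), (hmem _).2 ⟨a, ha, h2, rfl⟩,
      (hRiff _).2 ⟨h, hh, h1, rfl⟩, ?_⟩
    rw [h3]
    exact hfn.2 (a, h) ⟨ha, hh, h2, h1⟩
  · intro a ha
    obtain ⟨β, hβ, h1, rfl⟩ := (hmem a).1 ha
    refine ⟨e β, happ e β he hβ, fun F' hF' => ?_, fun h hh h2 => hfn.2 (β, h) ⟨hβ, hh, h1, h2⟩⟩
    have h3 : F' = F := Subtype.ext (hF'.trans hFE.symm)
    rw [h3]
    exact hkF β h1

end Pool.Agent.ZFW
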