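import Mathlib.Data.Set.Countable
import Mathlib.GroupTheory.Perm.Basic
import Mathlib.Data.List.Basic
import Mathlib.Logic.Denumerable
import Mathlib.Data.Countable.Basic
import Mathlib.Algebra.Group.Subgroup.Basic

/-!
Automorphisms of the tree `List J` (the newest level is the head of the list) which respect
patterns over countable sets.
-/

namespace Pool.Agent.ZFW

universe u

variable {J : Type u}

theorem app_inv {A : Type*} (h : Equiv.Perm A) (x : A) : h (h⁻¹ x) = x := h.apply_symm_apply x

theorem inv_app {A : Type*} (h : Equiv.Perm A) (x : A) : h⁻¹ (h x) = x := h.symm_apply_apply x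

open Classical in
/-- The trace of an element on the set `K`. -/
noncomputable def ka (K : Set J) (a : J) : Option J := if a ∈ K then some a else none

/-- `p` and `q` have the same pattern over `K`. -/
def Pat (K : Set J) (p q : List J) : Prop := p.map (ka K) = q.map (ka K)

theorem ka_of_mem {K : Set J} {a : J} (h : a ∈ K) : ka K a = some a := by
  classical
  simp [ka, h]

theorem ka_of_not_mem {K : Set J} {a : J} (h : a ∉ K) : ka K a = none := by
  classical
  simp [ka, h]

theorem ka_eq_iff {K : Set J} {a b : J} : ka K a = ka K b ↔ a = b ∨ (a ∉ K ∧ b ∉ K) := by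
  classical
  by_cases ha : a ∈ K <;> by_cases hb : b ∈ K
  · rw [ka_of_mem ha, ka_of_mem hb]; simp [ha]
  · rw [ka_of_mem ha, ka_of_not_mem hb]
    simp only [reduceCtorEq, false_iff, not_or, not_and, not_not]
    exact ⟨fun h => hb (h ▸ ha), fun h => absurd ha h⟩
  · rw [ka_of_not_mem ha, ka_of_mem hb]
    simp only [reduceCtorEq, false_iff, not_or, not_and, not_not]
    exact ⟨fun h => ha (h ▸ hb), fun _ => hb⟩
  · rw [ka_of_not_mem ha, ka_of_not_mem hb]; simp [ha, hb]

theorem ka_mono {K L : Set J} (h : K ⊆ L) {a b : J} (hab : ka L a = ka L b) :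
    ka K a = ka K b := by
  rw [ka_eq_iff] at hab ⊢
  rcases hab with h1 | ⟨h1, h2⟩
  · exact Or.inl h1
  · exact Or.inr ⟨fun h3 => h1 (h h3), fun h3 => h2 (h h3)⟩

theorem ka_iUnion {ι : Sort*} {K : ι → Set J} {a b : J} (h : ∀ i, ka (K i) a = ka (K i) b) :
    ka (⋃ i, K i) a = ka (⋃ i, K i) b := by
  rw [ka_eq_iff]
  by_cases hab : a = b
  · exact Or.inl hab
  · refine Or.inr ⟨?_, ?_⟩
    · rw [Set.mem_iUnion]
      rintro ⟨i, hi⟩
      rcases ka_eq_iff.1 (h i) with h1 | h1
      · exact hab h1
      · exact h1.1 hi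
    · rw [Set.mem_iUnion]
      rintro ⟨i, hi⟩
      rcases ka_eq_iff.1 (h i) with h1 | h1
      · exact hab h1
      · exact h1.2 hi

namespace Pat

@[refl] theorem refl (K : Set J) (p : List J) : Pat K p p := rfl

theorem symm {K : Set J} {p q : List J} (h : Pat K p q) : Pat K q p := Eq.symm h

theorem trans {K : Set J} {p q r : List J} (h : Pat K p q) (h' : Pat K q r) : Pat K p r :=
  Eq.trans h h'

theorem length {K : Set J} {p q : List J} (h : Pat K p q) : p.length = q.length := by
  have := congrArg List.length h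
  simpa using this

theorem cons_iff {K : Set J} {x y : J} {p q : List J} :
    Pat K (x :: p) (y :: q) ↔ ka K x = ka K y ∧ Pat K p q := by
  simp [Pat]

theorem nil_left {K : Set J} {q : List J} (h : Pat K [] q) : q = [] := by
  have := h.length
  simp only [List.length_nil] at this
  exact List.length_eq_zero_iff.1 this.symm

theorem mono {K L : Set J} (h : K ⊆ L) : ∀ {p q : List J}, Pat L p q → Pat K p q := by
  intro p
  induction p with
  | nil => intro q hq; rw [hq.nil_left]
  | cons x p ih =>
    intro q hq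
    cases q with
    | nil => exact absurd hq.length (by simp)
    | cons y q =>
      rw [cons_iff] at hq ⊢
      exact ⟨ka_mono h hq.1, ih hq.2⟩

theorem iUnion {ι : Sort*} [Nonempty ι] {K : ι → Set J} : ∀ {p q : List J},
    (∀ i, Pat (K i) p q) → Pat (⋃ i, K i) p q := by
  intro p
  induction p with
  | nil => intro q hq; rw [(hq (Classical.arbitrary ι)).nil_left]
  | cons x p ih =>
    intro q hq
    cases q with
    | nil => exact absurd (hq (Classical.arbitrary ι)).length (by simp)
    | cons y q =>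
      rw [cons_iff]
      exact ⟨ka_iUnion fun i => (cons_iff.1 (hq i)).1, ih fun i => (cons_iff.1 (hq i)).2⟩

theorem iUnion_iff {ι : Sort*} [Nonempty ι] {K : ι → Set J} {p q : List J} :
    Pat (⋃ i, K i) p q ↔ ∀ i, Pat (K i) p q :=
  ⟨fun h i => h.mono (Set.subset_iUnion K i), iUnion⟩

theorem tail {K : Set J} {p q : List J} (h : Pat K p q) : Pat K p.tail q.tail := by
  cases p with
  | nil => rw [h.nil_left]
  | cons x p =>
    cases q with
    | nil => exact absurd h.length (by simp)
    | cons y q => exact (cons_iff.1 h).2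

theorem append {K : Set J} {p q p' q' : List J} (h : Pat K p q) (h' : Pat K p' q') :
    Pat K (p ++ p') (q ++ q') := by
  unfold Pat at *
  rw [List.map_append, List.map_append, h, h']

theorem drop {K : Set J} {p q : List J} (h : Pat K p q) (n : ℕ) :
    Pat K (p.drop n) (q.drop n) := by
  unfold Pat at *
  rw [List.map_drop, List.map_drop, h]

theorem take {K : Set J} {p q : List J} (h : Pat K p q) (n : ℕ) :
    Pat K (p.take n) (q.take n) := by
  unfold Pat at *
  rw [List.map_take, List.map_take, h]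

end Pat

/-- `h` commutes with forgetting the newest level. -/
def Tl (h : Equiv.Perm (List J)) : Prop := ∀ v, (h v).tail = h v.tail

/-- `K` is closed for `h`. -/
def Cl (K : Set J) (h : Equiv.Perm (List J)) : Prop := ∀ p q, Pat K p q ↔ Pat K (h p) (h q)

namespace Tl

variable {h g : Equiv.Perm (List J)}

theorem map_nil (hh : Tl h) : h [] = [] := by
  have h1 := hh []
  rw [List.tail_nil] at h1
  rcases h2 : h [] with _ | ⟨x, l⟩
  · rfl
  · rw [h2, List.tail_cons] at h1
    have := congrArg List.length h1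
    simp at this

theorem length (hh : Tl h) : ∀ v, (h v).length = v.length := by
  intro v
  induction v with
  | nil => rw [hh.map_nil]
  | cons x v ih =>
    have h1 := hh (x :: v)
    rw [List.tail_cons] at h1
    rcases h2 : h (x :: v) with _ | ⟨y, l⟩
    · have h3 : h (x :: v) = h [] := by rw [h2, hh.map_nil]
      exact absurd (h.injective h3) (by simp)
    · rw [h2, List.tail_cons] at h1
      rw [List.length_cons, h1, ih, List.length_cons]

theorem drop (hh : Tl h) : ∀ n v, (h v).drop n = h (v.drop n) := by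
  intro n
  induction n with
  | zero => intro v; simp
  | succ n ih =>
    intro v
    rw [← List.tail_drop, ih, hh, List.tail_drop]

theorem inv (hh : Tl h) : Tl h⁻¹ := by
  intro v
  have h1 := hh (h⁻¹ v)
  rw [app_inv] at h1
  rw [h1, inv_app]

theorem mul (hg : Tl g) (hh : Tl h) : Tl (g * h) := by
  intro v
  rw [Equiv.Perm.mul_apply, Equiv.Perm.mul_apply, hg, hh]

theorem one : Tl (1 : Equiv.Perm (List J)) := fun _ => rfl

theorem drop_append (hh : Tl h) (w p : List J) : (h (w ++ p)).drop w.length = h p := by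
  rw [hh.drop, List.drop_left]

theorem append (hh : Tl h) (w p : List J) :
    h (w ++ p) = (h (w ++ p)).take w.length ++ h p := by
  conv_lhs => rw [← List.take_append_drop w.length (h (w ++ p))]
  rw [hh.drop_append]

theorem exists_cons (hh : Tl h) (x : J) (v : List J) : ∃ y, h (x :: v) = y :: h v := by
  have h1 := hh (x :: v)
  have h2 := hh.length (x :: v)
  rcases h3 : h (x :: v) with _ | ⟨y, l⟩
  · rw [h3] at h2; simp at h2
  · rw [h3, List.tail_cons, List.tail_cons] at h1
    exact ⟨y, by rw [h1]⟩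

end Tl

namespace Cl

variable {K : Set J} {h g : Equiv.Perm (List J)}

theorem inv (hh : Cl K h) : Cl K h⁻¹ := by
  intro p q
  have := hh (h⁻¹ p) (h⁻¹ q)
  rw [app_inv, app_inv] at this
  exact this.symm

theorem mul (hg : Cl K g) (hh : Cl K h) : Cl K (g * h) := by
  intro p q
  rw [Equiv.Perm.mul_apply, Equiv.Perm.mul_apply, hh p q, hg (h p) (h q)]

theorem one (K : Set J) : Cl K (1 : Equiv.Perm (List J)) := fun _ _ => Iff.rfl

theorem iUnion {ι : Sort*} [Nonempty ι] {K : ι → Set J} (hK : ∀ i, Cl (K i) h) :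
    Cl (⋃ i, K i) h := by
  intro p q
  rw [Pat.iUnion_iff, Pat.iUnion_iff]
  exact forall_congr' fun i => hK i p q

end Cl

/-- Every countable set lies in a countable set which is closed for `h`. -/
def Cc (h : Equiv.Perm (List J)) : Prop :=
  ∀ E : Set J, E.Countable → ∃ K : Set J, K.Countable ∧ E ⊆ K ∧ Cl K h

/-- Countably many permutations have common closed sets. -/
theorem exists_common {ι : Type*} [Countable ι] (h : ι → Equiv.Perm (List J))
    (hc : ∀ i, Cc (h i)) {E : Set J} (hE : E.Countable) :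
    ∃ K : Set J, K.Countable ∧ E ⊆ K ∧ ∀ i, Cl K (h i) := by
  classical
  by_cases hι : Nonempty ι
  · obtain ⟨e, he⟩ := exists_surjective_nat ι
    choose! F hF1 hF2 hF3 using fun i => hc i
    -- iterate through the pairs coded by natural numbers
    obtain ⟨S, hS0, hSs⟩ : ∃ S : ℕ → Set J, S 0 = E ∧
        ∀ n, S (n + 1) = F (e (Nat.unpair n).1) (S n) :=
      ⟨fun n => Nat.rec E (fun k A => F (e (Nat.unpair k).1) A) n, rfl, fun _ => rfl⟩
    have hS : ∀ n, (S n).Countable := by
      intro n
      induction n with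
      | zero => rw [hS0]; exact hE
      | succ n ih => rw [hSs]; exact hF1 _ _ ih
    have hmono : ∀ n, S n ⊆ S (n + 1) := fun n => by rw [hSs]; exact hF2 _ _ (hS n)
    have hmono' : ∀ m n, m ≤ n → S m ⊆ S n := fun m n h => monotone_nat_of_le_succ hmono h
    refine ⟨⋃ n, S n, Set.countable_iUnion hS, hS0 ▸ Set.subset_iUnion S 0, fun i => ?_⟩
    obtain ⟨a, rfl⟩ := he i
    have key : (⋃ n, S n) = ⋃ n, S (Nat.pair a n + 1) := by
      apply Set.Subset.antisymm
      · refine Set.iUnion_subset fun n x hx => Set.mem_iUnion.2 ⟨n, ?_⟩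
        exact hmono' n _ ((Nat.right_le_pair a n).trans (Nat.le_succ _)) hx
      · exact Set.iUnion_subset fun n x hx => Set.mem_iUnion.2 ⟨Nat.pair a n + 1, hx⟩
    rw [key]
    refine Cl.iUnion fun n => ?_
    have h1 : S (Nat.pair a n + 1) = F (e a) (S (Nat.pair a n)) := by
      rw [hSs, Nat.unpair_pair]
    rw [h1]
    exact hF3 _ _ (hS _)
  · exact ⟨E, hE, Set.Subset.rfl, fun i => absurd ⟨i⟩ hι⟩

/-- The group of all automorphisms of the tree which respect countable patterns. -/
def GG (J : Type u) : Subgroup (Equiv.Perm (List J)) where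
  carrier := {h | Tl h ∧ Cc h}
  mul_mem' := by
    rintro g h ⟨hg, hg'⟩ ⟨hh, hh'⟩
    refine ⟨hg.mul hh, fun E hE => ?_⟩
    obtain ⟨K, h1, h2, h3⟩ := exists_common (fun b : Bool => cond b g h)
      (by rintro (_ | _) <;> assumption) hE
    exact ⟨K, h1, h2, (h3 true).mul (h3 false)⟩
  one_mem' := ⟨Tl.one, fun E hE => ⟨E, hE, Set.Subset.rfl, Cl.one E⟩⟩
  inv_mem' := by
    rintro h ⟨hh, hh'⟩
    refine ⟨hh.inv, fun E hE => ?_⟩
    obtain ⟨K, h1, h2, h3⟩ := hh' E hE
    exact ⟨K, h1, h2, h3.inv⟩

theorem mem_GG {h : Equiv.Perm (List J)} : h ∈ GG J ↔ Tl h ∧ Cc h := Iff.rfl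

/-- The members of `GG` which preserve the `E`-patterns. -/
def HE (E : Set J) : Subgroup (Equiv.Perm (List J)) where
  carrier := {h | h ∈ GG J ∧ ∀ p, Pat E (h p) p}
  mul_mem' := by
    rintro g h ⟨hg, hg'⟩ ⟨hh, hh'⟩
    exact ⟨mul_mem hg hh, fun p => (hg' (h p)).trans (hh' p)⟩
  one_mem' := ⟨one_mem _, fun p => Pat.refl E p⟩
  inv_mem' := by
    rintro h ⟨hh, hh'⟩
    refine ⟨inv_mem hh, fun p => ?_⟩
    have := hh' (h⁻¹ p)
    rw [app_inv] at this
    exact this.symm

theorem mem_HE {E : Set J} {h : Equiv.Perm (List J)} :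
    h ∈ HE E ↔ h ∈ GG J ∧ ∀ p, Pat E (h p) p := Iff.rfl

theorem HE_le_GG (E : Set J) : HE E ≤ GG J := fun _ h => h.1

theorem HE_anti {E F : Set J} (h : E ⊆ F) : HE F ≤ HE E :=
  fun _ hg => ⟨hg.1, fun p => (hg.2 p).mono h⟩

theorem mem_HE_iUnion {ι : Sort*} [Nonempty ι] {E : ι → Set J} {h : Equiv.Perm (List J)} :
    h ∈ HE (⋃ i, E i) ↔ ∀ i, h ∈ HE (E i) := by
  constructor
  · exact fun hh i => HE_anti (Set.subset_iUnion E i) hh
  · exact fun hh => ⟨(hh (Classical.arbitrary ι)).1, fun p => Pat.iUnion fun i => (hh i).2 p⟩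

/-- Normality of the filter generated by the groups `HE E`. -/
theorem exists_conj {h : Equiv.Perm (List J)} (hh : h ∈ GG J) {E : Set J} (hE : E.Countable) :
    ∃ K : Set J, K.Countable ∧ E ⊆ K ∧ ∀ g ∈ HE K, h * g * h⁻¹ ∈ HE E := by
  obtain ⟨K, h1, h2, h3⟩ := hh.2 E hE
  refine ⟨K, h1, h2, fun g hg => ⟨mul_mem (mul_mem hh hg.1) (inv_mem hh), fun p => ?_⟩⟩
  rw [Equiv.Perm.mul_apply, Equiv.Perm.mul_apply]
  have h4 := (h3 _ _).1 (hg.2 (h⁻¹ p))
  rw [app_inv] at h4
  exact h4.mono h2

/-! ### Past dependent permutations -/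

/-- The permutation of the levels which depends on the past. -/
def rhoF (s : List J → Equiv.Perm J) : List J → List J
  | [] => []
  | x :: v => s v x :: rhoF s v

/-- The inverse of `rhoF`. -/
def rhoG (s : List J → Equiv.Perm J) : List J → List J
  | [] => []
  | x :: v => (s (rhoG s v))⁻¹ x :: rhoG s v

theorem rhoG_rhoF (s : List J → Equiv.Perm J) : ∀ v, rhoG s (rhoF s v) = v := by
  intro v
  induction v with
  | nil => rfl
  | cons x v ih => simp only [rhoF, rhoG, ih, inv_app]

theorem rhoF_rhoG (s : List J → Equiv.Perm J) : ∀ v, rhoF s (rhoG s v) = v := by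
  intro v
  induction v with
  | nil => rfl
  | cons x v ih => simp only [rhoF, rhoG, ih, app_inv]

/-- The automorphism of the tree given by permutations which depend on the past. -/
def rho (s : List J → Equiv.Perm J) : Equiv.Perm (List J) :=
  ⟨rhoF s, rhoG s, rhoG_rhoF s, rhoF_rhoG s⟩

@[simp] theorem rho_nil (s : List J → Equiv.Perm J) : rho s [] = [] := rfl

@[simp] theorem rho_cons (s : List J → Equiv.Perm J) (x : J) (v : List J) :
    rho s (x :: v) = s v x :: rho s v := rfl

theorem rho_tl (s : List J → Equiv.Perm J) : Tl (rho s) := by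
  intro v
  cases v <;> rfl

theorem rho_pat {s : List J → Equiv.Perm J} {E : Set J} (h : ∀ v x, ka E (s v x) = ka E x) :
    ∀ p, Pat E (rho s p) p := by
  intro p
  induction p with
  | nil => rfl
  | cons x p ih => rw [rho_cons, Pat.cons_iff]; exact ⟨h p x, ih⟩

/-- A countable family of permutations of `J` preserves a countable superset. -/
theorem exists_invariant {S : Set (Equiv.Perm J)} (hS : S.Countable) {E : Set J}
    (hE : E.Countable) :
    ∃ K : Set J, K.Countable ∧ E ⊆ K ∧ ∀ σ ∈ S, ∀ x, σ x ∈ K ↔ x ∈ K := by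
  let A : ℕ → Set J := fun n =>
    Nat.rec E (fun _ A => A ∪ ⋃ σ ∈ S, ((σ : Equiv.Perm J) '' A ∪ (σ⁻¹ : Equiv.Perm J) '' A)) n
  have hA : ∀ n, A (n + 1) = A n ∪ ⋃ σ ∈ S, ((σ : Equiv.Perm J) '' A n ∪ (σ⁻¹ : Equiv.Perm J) '' A n) :=
    fun n => rfl
  have hc : ∀ n, (A n).Countable := by
    intro n
    induction n with
    | zero => exact hE
    | succ n ih =>
      rw [hA]
      exact ih.union (hS.biUnion fun σ _ => (ih.image _).union (ih.image _))
  refine ⟨⋃ n, A n, Set.countable_iUnion hc, Set.subset_iUnion A 0, fun σ hσ x => ?_⟩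
  simp only [Set.mem_iUnion]
  constructor
  · rintro ⟨n, hn⟩
    refine ⟨n + 1, ?_⟩
    rw [hA]
    refine Or.inr (Set.mem_iUnion₂.2 ⟨σ, hσ, Or.inr ⟨σ x, hn, ?_⟩⟩)
    rw [inv_app]
  · rintro ⟨n, hn⟩
    refine ⟨n + 1, ?_⟩
    rw [hA]
    exact Or.inr (Set.mem_iUnion₂.2 ⟨σ, hσ, Or.inl ⟨x, hn, rfl⟩⟩)

/-- A function on the tree which is determined by a countable pattern has a countable range. -/
theorem countable_range {A : Type*} {f : List J → A} {K : Set J} (hK : K.Countable)
    (hf : ∀ u v, Pat K u v → f u = f v) : (Set.range f).Countable := by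
  classical
  have : Countable K := hK
  let κ : J → Option K := fun a => if h : a ∈ K then some ⟨a, h⟩ else none
  have hκ : ∀ a b, κ a = κ b → ka K a = ka K b := by
    intro a b h
    rw [ka_eq_iff]
    by_cases ha : a ∈ K <;> by_cases hb : b ∈ K
    · simp only [κ, ha, hb, dite_true, Option.some.injEq, Subtype.mk.injEq] at h
      exact Or.inl h
    · simp [κ, ha, hb] at h
    · simp [κ, ha, hb] at h
    · exact Or.inr ⟨ha, hb⟩
  have hκ' : ∀ u v : List J, u.map κ = v.map κ → Pat K u v := by
    intro u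
    induction u with
    | nil =>
      intro v h
      cases v with
      | nil => rfl
      | cons y v => simp at h
    | cons x u ih =>
      intro v h
      cases v with
      | nil => simp at h
      | cons y v =>
        simp only [List.map_cons, List.cons.injEq] at h
        exact Pat.cons_iff.2 ⟨hκ _ _ h.1, ih v h.2⟩
  have h1 : (Set.range fun u : List J => u.map κ).Countable := Set.to_countable _
  -- choose a representative for each pattern
  have h2 : Set.range f ⊆ (fun l : List (Option K) =>
      if h : ∃ u : List J, u.map κ = l then f h.choose else f []) ''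
        (Set.range fun u : List J => u.map κ) := by
    rintro _ ⟨u, rfl⟩
    refine ⟨u.map κ, ⟨u, rfl⟩, ?_⟩
    have h3 : ∃ v : List J, v.map κ = u.map κ := ⟨u, rfl⟩
    simp only [h3, dite_true]
    exact hf _ _ (hκ' _ _ h3.choose_spec)
  exact (h1.image _).mono h2

/-- If the permutations depend only on a countable pattern of the past then `rho s` is in the
group. -/
theorem rho_cc {s : List J → Equiv.Perm J} {K₀ : Set J} (hK₀ : K₀.Countable)
    (hs : ∀ u v, Pat K₀ u v → s u = s v) : Cc (rho s) := by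
  intro E hE
  obtain ⟨K, h1, h2, h3⟩ := exists_invariant (countable_range hK₀ hs) (hE.union hK₀)
  have h4 : K₀ ⊆ K := Set.subset_union_right.trans h2
  refine ⟨K, h1, Set.subset_union_left.trans h2, ?_⟩
  have hka : ∀ u x y, ka K (s u x) = ka K (s u y) ↔ ka K x = ka K y := by
    intro u x y
    rw [ka_eq_iff, ka_eq_iff, h3 (s u) ⟨u, rfl⟩, h3 (s u) ⟨u, rfl⟩, (s u).injective.eq_iff]
  intro p
  induction p with
  | nil =>
    intro q
    rw [rho_nil]
    constructor
    · intro h; rw [h.nil_left]; rfl
    · intro h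
      have := h.length
      rw [(rho_tl s).length] at this
      rw [List.length_eq_zero_iff.1 this.symm]
  | cons x p ih =>
    intro q
    cases q with
    | nil =>
      constructor
      · intro h; exact absurd h.length (by simp)
      · intro h
        have := h.length
        rw [(rho_tl s).length, (rho_tl s).length] at this
        exact absurd this (by simp)
    | cons y q =>
      rw [rho_cons, rho_cons, Pat.cons_iff, Pat.cons_iff, ← ih q]
      constructor
      · rintro ⟨h5, h6⟩
        rw [← hs p q (h6.mono h4), hka]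
        exact ⟨h5, h6⟩
      · rintro ⟨h5, h6⟩
        rw [← hs p q (h6.mono h4), hka] at h5
        exact ⟨h5, h6⟩

theorem rho_mem_GG {s : List J → Equiv.Perm J} {K₀ : Set J} (hK₀ : K₀.Countable)
    (hs : ∀ u v, Pat K₀ u v → s u = s v) : rho s ∈ GG J :=
  ⟨rho_tl s, rho_cc hK₀ hs⟩

theorem rho_mem_HE {s : List J → Equiv.Perm J} {K₀ : Set J} (hK₀ : K₀.Countable)
    (hs : ∀ u v, Pat K₀ u v → s u = s v) {E : Set J} (h : ∀ v x, ka E (s v x) = ka E x) :
    rho s ∈ HE E :=
  ⟨rho_mem_GG hK₀ hs, rho_pat h⟩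

end Pool.Agent.ZFW
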